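import Pool.Agent.Lib.MP_28b8de_an.T.TSol

/-!
MP_28b8de_an, module PGlue (PTD-PGlue): finite concatenation for `Jn`.

PROOFS.  jn_refl: v = 0, r = q.  jn_trans: `sol_glue` (cases a = b or b = c trivial: the pieces); the bad set is contained in
bad₁ ∪ bad₂ ∪ {b}: for t < b the glued function equals r₁ near t, for t > b it equals r₂ near t.
jn_self: if q itself solves the system on [a,b] with some control and its bad set is countable.
-/

set_option linter.unusedSectionVars false

namespace Pool.Agent.Lib.MP_28b8de_an.TT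

open Filter Topology Set MeasureTheory
open Pool.Agent.Lib.MP_28b8de_an.PT (Adm Perf l1 l1_apply gron gron_back volterra kder ae_zero perf_inner
  dense_L1 dense_L1_ball l1_UU l1_eq stay)

variable {V : Type*} [NormedAddCommGroup V] [NormedSpace ℝ V] [FiniteDimensional ℝ V]
  {F G : ℝ × V → V} {M : ℝ}

theorem jn_self {u : ℝ → ℝ} (hu : Adm u) {q : ℝ → V} {a b : ℝ}
    (hq : Sol F G u q a b) (h : {t ∈ Ioo a b | ¬ SmAt q t}.Countable) : Jn F G q a b := by
  refine ⟨u, q, hu, hq, rfl, rfl, fun t _ => ?_, h⟩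
  simp

theorem jn_refl (q : ℝ → V) (a : ℝ) : Jn F G q a a := by
  refine ⟨fun _ => 0, q, ⟨measurable_const, fun t => by simp⟩, ⟨?_, ?_⟩, rfl, rfl,
    fun t _ => by simp, ?_⟩
  · rw [Icc_self]
    exact continuousOn_singleton q a
  · intro t ht
    rw [Icc_self, mem_singleton_iff] at ht
    subst ht
    simp
  · have : {t ∈ Ioo a a | ¬ SmAt q t} = ∅ := by
      ext t
      simp
    rw [this]
    exact countable_empty

/-- smoothness at a point depends only on the function near the point -/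
private theorem TGlue_smAt_congr {r r' : ℝ → V} {t δ : ℝ} (hδ : 0 < δ)
    (h : ∀ s ∈ Ioo (t - δ) (t + δ), r' s = r s) (hr : SmAt r t) : SmAt r' t := by
  obtain ⟨ε, hε, hc⟩ := hr
  refine ⟨min ε δ, lt_min hε hδ, ?_⟩
  have hsub : Ioo (t - min ε δ) (t + min ε δ) ⊆ Ioo (t - ε) (t + ε) := by
    apply Ioo_subset_Ioo
    · have := min_le_left ε δ
      linarith
    · have := min_le_left ε δ
      linarith
  refine (hc.mono hsub).congr fun s hs => h s ?_
  have h1 := min_le_right ε δ
  exact ⟨by linarith [hs.1], by linarith [hs.2]⟩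

theorem jn_trans (E : Env F G M) {q : ℝ → V} {a b c : ℝ} (hab : a ≤ b) (hbc : b ≤ c)
    (h₁ : Jn F G q a b) (h₂ : Jn F G q b c) : Jn F G q a c := by
  rcases eq_or_lt_of_le hab with rfl | hab'
  · exact h₂
  rcases eq_or_lt_of_le hbc with rfl | hbc'
  · exact h₁
  obtain ⟨v₁, r₁, hv₁, hs₁, ha₁, hb₁, hn₁, hc₁⟩ := h₁
  obtain ⟨v₂, r₂, hv₂, hs₂, ha₂, hb₂, hn₂, hc₂⟩ := h₂
  refine ⟨fun t => if t < b then v₁ t else v₂ t, fun t => if t < b then r₁ t else r₂ t,
    ⟨?_, ?_⟩, sol_glue E hv₁ hv₂ hab hbc hs₁ hs₂ (by rw [hb₁, ha₂]), ?_, ?_, ?_, ?_⟩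
  · exact Measurable.ite measurableSet_Iio hv₁.1 hv₂.1
  · intro t
    dsimp only
    split_ifs
    · exact hv₁.2 t
    · exact hv₂.2 t
  · simp only [if_pos hab', ha₁]
  · simp only [if_neg (not_lt.2 hbc), hb₂]
  · intro t ht
    dsimp only
    split_ifs with h
    · exact hn₁ t ⟨ht.1, h.le⟩
    · exact hn₂ t ⟨not_lt.1 h, ht.2⟩
  · refine ((hc₁.union hc₂).union (countable_singleton b)).mono ?_
    rintro t ⟨ht, hbad⟩
    rcases lt_trichotomy t b with h | h | h
    · left; left
      refine ⟨⟨ht.1, h⟩, fun hsm => hbad ?_⟩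
      refine TGlue_smAt_congr (sub_pos.2 h) (fun s hs => ?_) hsm
      have hsb : s < b := by linarith [hs.2]
      simp only [if_pos hsb]
    · right
      exact h
    · left; right
      refine ⟨⟨h, ht.2⟩, fun hsm => hbad ?_⟩
      refine TGlue_smAt_congr (sub_pos.2 h) (fun s hs => ?_) hsm
      have hsb : b < s := by linarith [hs.1]
      simp only [if_neg (not_lt.2 hsb.le)]

end Pool.Agent.Lib.MP_28b8de_an.TT
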