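import Pool.Agent.Lib.MP_28b8de_an.T.TSol

/-!
MP_28b8de_an, module POde (PTD-POde): smoothness of solutions.

PROOFS.  ode_smooth: on Ioo s s' y has derivative h (t, y t) at every t (FTC, continuous integrand), so
ContDiffOn n y implies ContDiffOn n (t ↦ h (t, y t)), hence ContDiffOn (n+1) y (contDiffOn_succ_iff_deriv_of_isOpen /
contDiffOn_succ_of_fderivWithin); induction, and contDiffOn_infty.
smAt_of_ctrl: if near t the control is a.e. equal to a smooth function h, then r is smooth near t: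
apply ode_smooth with E = V and (τ, x) ↦ F (τ,x) + h τ • G (τ,x) on Ioo × univ.
jn_const / jn_of_sm: Jn by q itself when q solves with a control that is a.e. constant (or a.e. smooth) on the interval.
-/

set_option linter.unusedSectionVars false

namespace Pool.Agent.Lib.MP_28b8de_an.TT

open Filter Topology Set MeasureTheory
open Pool.Agent.Lib.MP_28b8de_an.PT (Adm Perf l1 l1_apply gron gron_back volterra kder ae_zero perf_inner
  dense_L1 dense_L1_ball l1_UU l1_eq stay)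

variable {V : Type*} [NormedAddCommGroup V] [NormedSpace ℝ V] [FiniteDimensional ℝ V]
  {F G : ℝ × V → V} {M : ℝ}

private theorem TOde_deriv {E : Type*} [NormedAddCommGroup E] [NormedSpace ℝ E] [CompleteSpace E]
    {h : ℝ × E → E} {Ω : Set (ℝ × E)} (hh : ContDiffOn ℝ (⊤ : ℕ∞) h Ω)
    {y : ℝ → E} {s s' : ℝ} (hyc : ContinuousOn y (Icc s s')) (hy : ∀ t ∈ Ioo s s', (t, y t) ∈ Ω)
    (heq : ∀ t ∈ Ioo s s', ∀ t' ∈ Ioo s s', y t' - y t = ∫ r in t..t', h (r, y r)) :
    ∀ t ∈ Ioo s s', HasDerivAt y (h (t, y t)) t := by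
  intro t ht
  have hg : ContinuousOn (fun r => h (r, y r)) (Ioo s s') := by
    have h1 : ContinuousOn (fun r : ℝ => (r, y r)) (Ioo s s') :=
      continuousOn_id.prodMk (hyc.mono Ioo_subset_Icc_self)
    exact hh.continuousOn.comp h1 (fun r hr => hy r hr)
  have hm : StronglyMeasurableAtFilter (fun r => h (r, y r)) (𝓝 t) volume :=
    hg.stronglyMeasurableAtFilter isOpen_Ioo t ht
  have hc : ContinuousAt (fun r => h (r, y r)) t := hg.continuousAt (isOpen_Ioo.mem_nhds ht)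
  have h2 : HasDerivAt (fun u => ∫ r in t..u, h (r, y r)) (h (t, y t)) t :=
    intervalIntegral.integral_hasDerivAt_right (by simp) hm hc
  have h3 : HasDerivAt (fun u => y t + ∫ r in t..u, h (r, y r)) (h (t, y t)) t := h2.const_add _
  refine h3.congr_of_eventuallyEq ?_
  filter_upwards [isOpen_Ioo.mem_nhds ht] with u hu
  rw [← heq t ht u hu]
  abel

theorem ode_smooth {E : Type*} [NormedAddCommGroup E] [NormedSpace ℝ E] [CompleteSpace E]
    {h : ℝ × E → E} {Ω : Set (ℝ × E)} (hΩ : IsOpen Ω) (hh : ContDiffOn ℝ (⊤ : ℕ∞) h Ω)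
    {y : ℝ → E} {s s' : ℝ} (hyc : ContinuousOn y (Icc s s')) (hy : ∀ t ∈ Ioo s s', (t, y t) ∈ Ω)
    (heq : ∀ t ∈ Ioo s s', ∀ t' ∈ Ioo s s', y t' - y t = ∫ r in t..t', h (r, y r)) :
    ContDiffOn ℝ (⊤ : ℕ∞) y (Ioo s s') := by
  have hd := TOde_deriv hh hyc hy heq
  have key : ∀ n : ℕ, ContDiffOn ℝ n y (Ioo s s') := by
    intro n
    induction n with
    | zero => exact contDiffOn_zero.2 (hyc.mono Ioo_subset_Icc_self)
    | succ n ih =>
      have h1 : ContDiffOn ℝ n (fun r => h (r, y r)) (Ioo s s') := by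
        have h2 : ContDiffOn ℝ n (fun r : ℝ => (r, y r)) (Ioo s s') := contDiffOn_id.prodMk ih
        have h3 : ContDiffOn ℝ n h Ω := hh.of_le (by exact_mod_cast le_top)
        exact h3.comp h2 (fun r hr => hy r hr)
      have h4 : ContDiffOn ℝ ((n : WithTop ℕ∞) + 1) y (Ioo s s') := by
        rw [contDiffOn_succ_iff_deriv_of_isOpen isOpen_Ioo]
        refine ⟨fun t ht => (hd t ht).differentiableAt.differentiableWithinAt, ?_, ?_⟩
        · intro hn
          exact absurd hn (by simp)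
        · exact h1.congr (fun t ht => (hd t ht).deriv)
      exact_mod_cast h4
  exact contDiffOn_infty.2 key

private theorem TOde_nhd {a b t ε : ℝ} (ht : t ∈ Ioo a b) (hε : 0 < ε) :
    ∃ η > 0, Icc (t - η) (t + η) ⊆ Ioo a b ∧ Icc (t - η) (t + η) ⊆ Ioo (t - ε) (t + ε) := by
  refine ⟨min ε (min (t - a) (b - t)) / 2, ?_, ?_, ?_⟩
  · have := ht.1
    have := ht.2
    have h1 : 0 < min ε (min (t - a) (b - t)) := lt_min hε (lt_min (by linarith) (by linarith))
    linarith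
  · intro x hx
    have h1 : min ε (min (t - a) (b - t)) ≤ t - a := (min_le_right _ _).trans (min_le_left _ _)
    have h2 : min ε (min (t - a) (b - t)) ≤ b - t := (min_le_right _ _).trans (min_le_right _ _)
    have h3 := ht.1
    have h4 := ht.2
    constructor
    · linarith [hx.1]
    · linarith [hx.2]
  · intro x hx
    have h1 : min ε (min (t - a) (b - t)) ≤ ε := min_le_left _ _
    constructor
    · linarith [hx.1]
    · linarith [hx.2]

theorem smAt_of_ctrl (E : Env F G M) {v : ℝ → ℝ} (hv : Adm v) {r : ℝ → V} {a b : ℝ}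
    (hr : Sol F G v r a b) {t ε : ℝ} (ht : t ∈ Ioo a b) (hε : 0 < ε) {h : ℝ → ℝ}
    (hh : ContDiffOn ℝ (⊤ : ℕ∞) h (Ioo (t - ε) (t + ε)))
    (hvh : ∀ᵐ s : ℝ, s ∈ Ioo (t - ε) (t + ε) → s ∈ Ioo a b → v s = h s) : SmAt r t := by
  obtain ⟨η, hη, h1, h2⟩ := TOde_nhd ht hε
  refine ⟨η, hη, ?_⟩
  have hF : ContDiffOn ℝ (⊤ : ℕ∞) (fun z : ℝ × V => F z + h z.1 • G z)
      (Ioo (t - ε) (t + ε) ×ˢ univ) := by
    have h3 : ContDiffOn ℝ (⊤ : ℕ∞) (fun z : ℝ × V => h z.1)
        (Ioo (t - ε) (t + ε) ×ˢ univ) :=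
      hh.comp contDiff_fst.contDiffOn (fun z hz => hz.1)
    exact E.Fs.contDiffOn.add (h3.smul E.Gs.contDiffOn)
  refine ode_smooth (isOpen_Ioo.prod isOpen_univ) hF
    (hr.cont.mono (h1.trans Ioo_subset_Icc_self)) (fun x hx => ?_) ?_
  · exact ⟨h2 (Ioo_subset_Icc_self hx), mem_univ _⟩
  · intro t₁ ht₁ t₂ ht₂
    have ha₁ := h1 (Ioo_subset_Icc_self ht₁)
    have ha₂ := h1 (Ioo_subset_Icc_self ht₂)
    rw [sol_sub E hv hr (Ioo_subset_Icc_self ha₁) (Ioo_subset_Icc_self ha₂)]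
    refine intervalIntegral.integral_congr_ae ?_
    filter_upwards [hvh] with x hx hxu
    have hxI : x ∈ Icc (t - η) (t + η) := by
      rcases le_total t₁ t₂ with hle | hle
      · rw [uIoc_of_le hle] at hxu
        exact ⟨by linarith [ht₁.1, hxu.1], by linarith [ht₂.2, hxu.2]⟩
      · rw [uIoc_of_ge hle] at hxu
        exact ⟨by linarith [ht₂.1, hxu.1], by linarith [ht₁.2, hxu.2]⟩
    rw [hx (h2 hxI) (h1 hxI)]

/-- a trajectory whose control is a.e. a constant on `(a,b)`, or along which `G = 0`, is smooth -/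
theorem smAt_const (E : Env F G M) {v : ℝ → ℝ} (hv : Adm v) {r : ℝ → V} {a b : ℝ}
    (hr : Sol F G v r a b) {lam : ℝ}
    (hvl : ∀ᵐ s : ℝ, s ∈ Ioo a b → v s • G (s, r s) = lam • G (s, r s)) {t : ℝ}
    (ht : t ∈ Ioo a b) : SmAt r t := by
  obtain ⟨η, hη, h1, -⟩ := TOde_nhd ht one_pos
  refine ⟨η, hη, ?_⟩
  have hF : ContDiffOn ℝ (⊤ : ℕ∞) (fun z : ℝ × V => F z + lam • G z) univ :=
    E.Fs.contDiffOn.add (E.Gs.contDiffOn.const_smul lam)
  refine ode_smooth isOpen_univ hF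
    (hr.cont.mono (h1.trans Ioo_subset_Icc_self)) (fun x _ => mem_univ _) ?_
  intro t₁ ht₁ t₂ ht₂
  have ha₁ := h1 (Ioo_subset_Icc_self ht₁)
  have ha₂ := h1 (Ioo_subset_Icc_self ht₂)
  rw [sol_sub E hv hr (Ioo_subset_Icc_self ha₁) (Ioo_subset_Icc_self ha₂)]
  refine intervalIntegral.integral_congr_ae ?_
  filter_upwards [hvl] with x hx hxu
  have hxI : x ∈ Icc (t - η) (t + η) := by
    rcases le_total t₁ t₂ with hle | hle
    · rw [uIoc_of_le hle] at hxu
      exact ⟨by linarith [ht₁.1, hxu.1], by linarith [ht₂.2, hxu.2]⟩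
    · rw [uIoc_of_ge hle] at hxu
      exact ⟨by linarith [ht₂.1, hxu.1], by linarith [ht₁.2, hxu.2]⟩
  rw [hx (h1 hxI)]

end Pool.Agent.Lib.MP_28b8de_an.TT
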