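import Pool.Agent.Lib.MP_28b8de_an.T.TTri

/-!
MP_28b8de_an, module TAux.

Elementary lemmas.
PROOFS.  perf_ev: an analytic function vanishing at the points of C near t₀ ∈ C vanishes near t₀ (t₀ is an accumulation point of C; as pcurve_zero in P/PCurve.lean).
der_zero: derivative along C of a function vanishing on C (limit of difference quotients along C).
kder_ev: `kder` with an interval on which everything holds.
three_points: C ∩ (t₀ - ε, t₀ + ε) contains three different points (Perf.acc three times; order them).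
zero_near: |f(t)| ≤ |∫_{t₀}^t K |f|| to both sides of t₀: Gronwall (`gron`, `gron_back`) gives f = 0.
zero_der2: S := |f₁| + |f₂|, |S(t)| ≤ K' |∫ S|, zero_near.
-/

set_option linter.unusedSectionVars false

namespace Pool.Agent.Lib.MP_28b8de_an.TT

open Filter Topology Set MeasureTheory
open Pool.Agent.Lib.MP_28b8de_an.PT (Adm Perf gron gron_back volterra kder ae_zero perf_inner stay)

private theorem TAux_freq {T : ℝ} {C : Set ℝ} (hC : Perf T C) {t₀ : ℝ} (ht₀ : t₀ ∈ C) :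
    ∃ᶠ s in 𝓝 t₀, s ≠ t₀ ∧ s ∈ C := by
  rw [frequently_iff]
  intro U hU
  obtain ⟨ε, hε, hεU⟩ := Metric.mem_nhds_iff.1 hU
  obtain ⟨s, hs, hst, hsd⟩ := hC.acc t₀ ht₀ ε hε
  exact ⟨s, hεU (by rw [Metric.mem_ball, Real.dist_eq]; exact hsd), hst, hs⟩

private theorem TAux_ev {P : ℝ → Prop} {t₀ : ℝ} (h : ∀ᶠ t in 𝓝 t₀, P t) :
    ∃ δ > 0, ∀ t ∈ Ioo (t₀ - δ) (t₀ + δ), P t := by
  obtain ⟨δ, hδ, h1⟩ := Metric.eventually_nhds_iff.1 h
  refine ⟨δ, hδ, fun t ht => h1 ?_⟩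
  rw [Real.dist_eq, abs_lt]
  exact ⟨by linarith [ht.1], by linarith [ht.2]⟩

theorem perf_ev {T : ℝ} {C : Set ℝ} (hC : Perf T C) {t₀ : ℝ} (ht₀ : t₀ ∈ C)
    {X : Type*} [NormedAddCommGroup X] [NormedSpace ℝ X] {f : ℝ → X} (hf : AnalyticAt ℝ f t₀)
    (h : ∀ᶠ t in 𝓝 t₀, t ∈ C → f t = 0) : ∀ᶠ t in 𝓝 t₀, f t = 0 := by
  refine (hf.frequently_zero_iff_eventually_zero).1 ?_
  rw [frequently_nhdsWithin_iff]
  refine ((TAux_freq hC ht₀).and_eventually h).mono fun s hs => ?_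
  exact ⟨hs.2 hs.1.2, hs.1.1⟩

theorem der_zero {T : ℝ} {C : Set ℝ} (hC : Perf T C) {t₀ d : ℝ} (ht₀ : t₀ ∈ C)
    {f : ℝ → ℝ} (hf : HasDerivAt f d t₀) (h : ∀ᶠ t in 𝓝 t₀, t ∈ C → f t = 0) : d = 0 := by
  have hu : UniqueDiffWithinAt ℝ C t₀ := by
    rw [uniqueDiffWithinAt_iff_accPt, accPt_iff_frequently]
    exact TAux_freq hC ht₀
  have h0 : f t₀ = 0 := h.self_of_nhds ht₀
  have h1 : HasDerivWithinAt f 0 C t₀ := by
    refine (hasDerivWithinAt_const t₀ C (0 : ℝ)).congr_of_eventuallyEq ?_ h0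
    exact eventually_nhdsWithin_iff.2 h
  exact hu.eq_deriv _ hf.hasDerivWithinAt h1

theorem kder_ev {T : ℝ} {C : Set ℝ} (hC : Perf T C) {t₀ : ℝ} (ht₀ : t₀ ∈ C)
    {A B u m : ℝ → ℝ} (hu : Adm u) (hA : ∀ᶠ t in 𝓝 t₀, ContinuousAt A t)
    (hB : ∀ᶠ t in 𝓝 t₀, ContinuousAt B t) (hm : ∀ᶠ t in 𝓝 t₀, t ∈ C → m t = 0)
    {ε : ℝ} (hε : 0 < ε)
    (hint : ∀ s ∈ Ioo (t₀ - ε) (t₀ + ε), ∀ s' ∈ Ioo (t₀ - ε) (t₀ + ε),
      m s' - m s = ∫ r in s..s', (A r + u r * B r)) :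
    ∀ᶠ t in 𝓝 t₀, t ∈ C → |A t| ≤ |B t| := by
  obtain ⟨δ, hδ, h1⟩ := TAux_ev (hA.and (hB.and hm))
  set e := min δ ε with he
  have he0 : 0 < e := lt_min hδ hε
  have hsub1 : Ioo (t₀ - e) (t₀ + e) ⊆ Ioo (t₀ - δ) (t₀ + δ) := by
    have := min_le_left δ ε
    exact Ioo_subset_Ioo (by linarith) (by linarith)
  have hsub2 : Ioo (t₀ - e) (t₀ + e) ⊆ Ioo (t₀ - ε) (t₀ + ε) := by
    have := min_le_right δ ε
    exact Ioo_subset_Ioo (by linarith) (by linarith)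
  filter_upwards [Ioo_mem_nhds (show t₀ - e < t₀ by linarith) (show t₀ < t₀ + e by linarith)] with t ht htC
  exact kder hC htC ht hu (fun s hs => (h1 s (hsub1 hs)).1.continuousWithinAt)
    (fun s hs => (h1 s (hsub1 hs)).2.1.continuousWithinAt)
    (fun s hsC hs => (h1 s (hsub1 hs)).2.2 hsC)
    (fun s hs s' hs' => hint s (hsub2 hs) s' (hsub2 hs'))

private theorem TAux_sort {C : Set ℝ} {P : ℝ → Prop} {a b c : ℝ} (ha : a ∈ C) (hb : b ∈ C) (hc : c ∈ C)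
    (pa : P a) (pb : P b) (pc : P c) (hab : a ≠ b) (hac : a ≠ c) (hbc : b ≠ c) :
    ∃ s ∈ C, ∃ t₁ ∈ C, ∃ s' ∈ C, s < t₁ ∧ t₁ < s' ∧ P s ∧ P t₁ ∧ P s' := by
  rcases lt_or_gt_of_ne hab with h1 | h1 <;> rcases lt_or_gt_of_ne hac with h2 | h2 <;>
    rcases lt_or_gt_of_ne hbc with h3 | h3
  · exact ⟨a, ha, b, hb, c, hc, h1, h3, pa, pb, pc⟩
  · exact ⟨a, ha, c, hc, b, hb, h2, h3, pa, pc, pb⟩
  · exact absurd (h1.trans h3) (not_lt.2 h2.le)
  · exact ⟨c, hc, a, ha, b, hb, h2, h1, pc, pa, pb⟩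
  · exact ⟨b, hb, a, ha, c, hc, h1, h2, pb, pa, pc⟩
  · exact absurd (h2.trans h3) (not_lt.2 h1.le)
  · exact ⟨b, hb, c, hc, a, ha, h3, h2, pb, pc, pa⟩
  · exact ⟨c, hc, b, hb, a, ha, h3, h1, pc, pb, pa⟩

theorem three_points {T : ℝ} {C : Set ℝ} (hC : Perf T C) {t₀ : ℝ} (ht₀ : t₀ ∈ C) {ε : ℝ}
    (hε : 0 < ε) : ∃ s ∈ C, ∃ t₁ ∈ C, ∃ s' ∈ C, s < t₁ ∧ t₁ < s' ∧ |s - t₀| < ε ∧
      |t₁ - t₀| < ε ∧ |s' - t₀| < ε := by
  obtain ⟨s₁, h1, h1n, h1d⟩ := hC.acc t₀ ht₀ ε hε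
  have hpos : 0 < |s₁ - t₀| := abs_pos.2 (sub_ne_zero.2 h1n)
  obtain ⟨s₂, h2, h2n, h2d⟩ := hC.acc t₀ ht₀ _ hpos
  have hne : s₁ ≠ s₂ := by
    rintro rfl
    exact lt_irrefl _ h2d
  exact TAux_sort (P := fun s => |s - t₀| < ε) h1 h2 ht₀ h1d (h2d.trans h1d) (by simpa using hε) hne h1n h2n

theorem zero_near {f : ℝ → ℝ} {a b t₀ K : ℝ} (ht₀ : t₀ ∈ Ioo a b) (hf : ContinuousOn f (Ioo a b))
    (hK : 0 ≤ K) (h : ∀ t ∈ Ioo a b, |f t| ≤ K * abs (∫ r in t₀..t, |f r|)) :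
    ∀ t ∈ Ioo a b, f t = 0 := by
  intro t ht
  rcases le_total t₀ t with hle | hle
  · have hsub : Icc t₀ t ⊆ Ioo a b := fun s hs => ⟨ht₀.1.trans_le hs.1, hs.2.trans_lt ht.2⟩
    have key := gron (f := fun s => |f s|) (a := t₀) (b := t) (e := 0) (K := K)
      ((hf.mono hsub).abs) hK (by
        intro s hs
        have h1 := h s (hsub hs)
        rw [abs_of_nonneg (intervalIntegral.integral_nonneg hs.1 fun r _ => abs_nonneg _)] at h1
        simpa using h1) t ⟨hle, le_refl t⟩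
    rw [zero_mul] at key
    exact abs_eq_zero.1 (le_antisymm key (abs_nonneg _))
  · have hsub : Icc t t₀ ⊆ Ioo a b := fun s hs => ⟨ht.1.trans_le hs.1, hs.2.trans_lt ht₀.2⟩
    have key := gron_back (f := fun s => |f s|) (a := t) (b := t₀) (e := 0) (K := K)
      ((hf.mono hsub).abs) hK (by
        intro s hs
        have h1 := h s (hsub hs)
        rw [intervalIntegral.integral_symm, abs_neg,
          abs_of_nonneg (intervalIntegral.integral_nonneg hs.2 fun r _ => abs_nonneg _)] at h1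
        simpa using h1) t ⟨le_refl t, hle⟩
    rw [zero_mul] at key
    exact abs_eq_zero.1 (le_antisymm key (abs_nonneg _))

/-- Gronwall on both sides -/
private theorem TAux_gw {E : Type*} [NormedAddCommGroup E] [NormedSpace ℝ E] {f f' : ℝ → E} {t₀ δ K : ℝ}
    (h0 : f t₀ = 0)
    (h : ∀ t ∈ Ioo (t₀ - δ) (t₀ + δ), HasDerivAt f (f' t) t ∧ ‖f' t‖ ≤ K * ‖f t‖) :
    ∀ t ∈ Ioo (t₀ - δ) (t₀ + δ), f t = 0 := by
  intro t ht
  rcases le_total t₀ t with hle | hle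
  · have hsub : Icc t₀ t ⊆ Ioo (t₀ - δ) (t₀ + δ) := fun s hs =>
      ⟨by linarith [hs.1, ht.1, ht.2], hs.2.trans_lt ht.2⟩
    have key := norm_le_gronwallBound_of_norm_deriv_right_le (f := f) (f' := f') (δ := 0) (K := K)
      (ε := 0) (a := t₀) (b := t) (fun s hs => (h s (hsub hs)).1.continuousAt.continuousWithinAt)
      (fun s hs => (h s (hsub (Ico_subset_Icc_self hs))).1.hasDerivWithinAt) (by rw [h0, norm_zero])
      (fun s hs => by rw [add_zero]; exact (h s (hsub (Ico_subset_Icc_self hs))).2) t ⟨hle, le_refl t⟩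
    rw [gronwallBound_ε0_δ0] at key
    exact norm_le_zero_iff.1 key
  · set g : ℝ → E := fun s => f (2 * t₀ - s) with hg
    have hsub : ∀ s ∈ Icc t₀ (2 * t₀ - t), 2 * t₀ - s ∈ Ioo (t₀ - δ) (t₀ + δ) := fun s hs =>
      ⟨by linarith [hs.2, ht.1], by linarith [hs.1, ht.1, ht.2]⟩
    have hd : ∀ s ∈ Icc t₀ (2 * t₀ - t), HasDerivAt g (-f' (2 * t₀ - s)) s := by
      intro s hs
      have h1 := (h _ (hsub s hs)).1
      have h2 : HasDerivAt (fun s : ℝ => 2 * t₀ - s) (-1) s := by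
        simpa using (hasDerivAt_id s).const_sub (2 * t₀)
      have h3 := HasDerivAt.scomp s h1 h2
      rw [neg_one_smul] at h3
      exact h3
    have key := norm_le_gronwallBound_of_norm_deriv_right_le (f := g) (f' := fun s => -f' (2 * t₀ - s))
      (δ := 0) (K := K)
      (ε := 0) (a := t₀) (b := 2 * t₀ - t) (fun s hs => (hd s hs).continuousAt.continuousWithinAt)
      (fun s hs => (hd s (Ico_subset_Icc_self hs)).hasDerivWithinAt)
      (by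
        have : g t₀ = f t₀ := by
          show f (2 * t₀ - t₀) = f t₀
          rw [two_mul, add_sub_cancel_right]
        rw [this, h0, norm_zero])
      (fun s hs => by
        rw [add_zero, norm_neg]
        exact (h _ (hsub s (Ico_subset_Icc_self hs))).2) (2 * t₀ - t) ⟨by linarith, le_refl _⟩
    rw [gronwallBound_ε0_δ0] at key
    have h4 := norm_le_zero_iff.1 key
    have : g (2 * t₀ - t) = f t := by
      show f (2 * t₀ - (2 * t₀ - t)) = f t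
      rw [sub_sub_cancel]
    rwa [this] at h4

theorem zero_der1 {f f' : ℝ → ℝ} {t₀ K : ℝ} (h0 : f t₀ = 0)
    (h : ∀ᶠ t in 𝓝 t₀, HasDerivAt f (f' t) t ∧ |f' t| ≤ K * |f t|) : ∀ᶠ t in 𝓝 t₀, f t = 0 := by
  obtain ⟨δ, hδ, h1⟩ := TAux_ev h
  filter_upwards [Ioo_mem_nhds (show t₀ - δ < t₀ by linarith) (show t₀ < t₀ + δ by linarith)] with t ht
  exact TAux_gw h0 h1 t ht

theorem zero_der2 {f₁ f₁' f₂ f₂' : ℝ → ℝ} {t₀ K : ℝ} (h1 : f₁ t₀ = 0) (h2 : f₂ t₀ = 0)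
    (h : ∀ᶠ t in 𝓝 t₀, HasDerivAt f₁ (f₁' t) t ∧ HasDerivAt f₂ (f₂' t) t ∧
      |f₁' t| ≤ K * (|f₁ t| + |f₂ t|) ∧ |f₂' t| ≤ K * (|f₁ t| + |f₂ t|)) :
    ∀ᶠ t in 𝓝 t₀, f₁ t = 0 ∧ f₂ t = 0 := by
  obtain ⟨δ, hδ, h3⟩ := TAux_ev h
  filter_upwards [Ioo_mem_nhds (show t₀ - δ < t₀ by linarith) (show t₀ < t₀ + δ by linarith)] with t ht
  have key := TAux_gw (f := fun t => (f₁ t, f₂ t)) (f' := fun t => (f₁' t, f₂' t)) (t₀ := t₀) (δ := δ)
    (K := 2 * |K|) (by simp [h1, h2]) (by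
      intro s hs
      obtain ⟨d1, d2, b1, b2⟩ := h3 s hs
      refine ⟨d1.prodMk d2, ?_⟩
      have e1 : |f₁ s| ≤ ‖(f₁ s, f₂ s)‖ := norm_fst_le (f₁ s, f₂ s)
      have e2 : |f₂ s| ≤ ‖(f₁ s, f₂ s)‖ := norm_snd_le (f₁ s, f₂ s)
      have e3 : K * (|f₁ s| + |f₂ s|) ≤ 2 * |K| * ‖(f₁ s, f₂ s)‖ := by
        calc K * (|f₁ s| + |f₂ s|) ≤ |K| * (|f₁ s| + |f₂ s|) :=
              mul_le_mul_of_nonneg_right (le_abs_self K) (by positivity)
          _ ≤ |K| * (2 * ‖(f₁ s, f₂ s)‖) := mul_le_mul_of_nonneg_left (by linarith) (abs_nonneg K)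
          _ = _ := by ring
      rw [Prod.norm_def, max_le_iff]
      exact ⟨b1.trans e3, b2.trans e3⟩) t ht
  simpa using key

end Pool.Agent.Lib.MP_28b8de_an.TT
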