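import Pool.Agent.Lib.MP_28b8de_an.T.TTri

/-!
MP_28b8de_an, module TDn.

Elementary facts on `Dn` (derivative in the last variable).
PROOFS.  Dn_an: fderiv of an analytic function is analytic, evaluate at (0,1).  Dn_iter_an: induction.  Dn_slice: x ↦ f (v,x) has derivative Dn f (v,x)
(chain rule with x ↦ (v,x)), and by induction its iterated derivatives are Dn^[j] f (v, x).
slice_zero: if all Dn^[j] f (v,x₀) = 0 and f is analytic at (v,x) for x in an open interval J containing x₀ then f (v,·) = 0 on J (one variable identity theorem;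
all derivatives vanish at x₀: e.g. `AnalyticAt.eventually_eq_zero_or...` / `HasFPowerSeriesAt` coefficients = iterated derivatives; see PZtwo / PZthree_slice in P/ for this argument).
ident: identity theorem on a ball: `AnalyticOnNhd.eqOn_zero_of_preconnected_of_eventuallyEq_zero` (balls are convex).
-/

set_option linter.unusedSectionVars false

namespace Pool.Agent.Lib.MP_28b8de_an.TT

open Filter Topology Set MeasureTheory
open Pool.Agent.Lib.MP_28b8de_an.PT (Adm Perf gron gron_back volterra kder ae_zero perf_inner stay)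

variable {W : Type*} [NormedAddCommGroup W] [NormedSpace ℝ W]


theorem Dn_an {E : Type*} [NormedAddCommGroup E] [NormedSpace ℝ E] [CompleteSpace E] {f : W × ℝ → E} {p : W × ℝ}
    (hf : AnalyticAt ℝ f p) : AnalyticAt ℝ (Dn f) p := by
  have h1 : AnalyticAt ℝ (fderiv ℝ f) p := hf.fderiv
  have h2 : AnalyticAt ℝ (ContinuousLinearMap.apply ℝ E ((0 : W), (1 : ℝ))) (fderiv ℝ f p) :=
    (ContinuousLinearMap.apply ℝ E ((0 : W), (1 : ℝ))).analyticAt _
  exact h2.comp h1

theorem Dn_iter_an {E : Type*} [NormedAddCommGroup E] [NormedSpace ℝ E] [CompleteSpace E] {f : W × ℝ → E}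
    {p : W × ℝ} (hf : AnalyticAt ℝ f p) (j : ℕ) : AnalyticAt ℝ (Dn^[j] f) p := by
  induction j with
  | zero => exact hf
  | succ j ih =>
    rw [Function.iterate_succ_apply']
    exact Dn_an ih

theorem Dn_slice {E : Type*} [NormedAddCommGroup E] [NormedSpace ℝ E] {f : W × ℝ → E} {v : W}
    {x : ℝ} (hf : DifferentiableAt ℝ f (v, x)) : HasDerivAt (fun x => f (v, x)) (Dn f (v, x)) x := by
  have h1 : HasFDerivAt f (fderiv ℝ f (v, x)) (v, x) := hf.hasFDerivAt
  have h2 : HasDerivAt (fun r : ℝ => (v, r)) ((0 : W), (1 : ℝ)) x :=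
    (hasDerivAt_const x v).prodMk (hasDerivAt_id x)
  exact h1.comp_hasDerivAt x h2

private theorem TDn_iter {f : W × ℝ → ℝ} {v : W} {a b : ℝ}
    (hf : ∀ x ∈ Ioo a b, AnalyticAt ℝ f (v, x)) (j : ℕ) :
    ∀ s ∈ Ioo a b, iteratedDeriv j (fun r => f (v, r)) s = (Dn^[j] f) (v, s) := by
  induction j with
  | zero =>
    intro s _
    simp
  | succ j ih =>
    intro s hs
    rw [iteratedDeriv_succ, Function.iterate_succ_apply']
    have h1 : iteratedDeriv j (fun r => f (v, r)) =ᶠ[𝓝 s] fun r => (Dn^[j] f) (v, r) := by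
      filter_upwards [isOpen_Ioo.mem_nhds hs] with r hr
      exact ih r hr
    rw [h1.deriv_eq]
    exact (Dn_slice (Dn_iter_an (hf s hs) j).differentiableAt).deriv

/-- if all derivatives in the last variable vanish at a point, `f` vanishes on the segment -/
theorem slice_zero {f : W × ℝ → ℝ} {v : W} {x₀ ρ : ℝ} (hρ : 0 < ρ)
    (hf : ∀ x ∈ Ioo (x₀ - ρ) (x₀ + ρ), AnalyticAt ℝ f (v, x)) (h : ∀ j : ℕ, Dn^[j] f (v, x₀) = 0) :
    ∀ x ∈ Ioo (x₀ - ρ) (x₀ + ρ), f (v, x) = 0 := by
  have hx₀ : x₀ ∈ Ioo (x₀ - ρ) (x₀ + ρ) := ⟨by linarith, by linarith⟩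
  have hg : AnalyticOnNhd ℝ (fun r => f (v, r)) (Ioo (x₀ - ρ) (x₀ + ρ)) := by
    intro s hs
    have h1 : AnalyticAt ℝ f ((fun r : ℝ => (v, r)) s) := hf s hs
    have h2 : AnalyticAt ℝ (fun r : ℝ => (v, r)) s := analyticAt_const.prod analyticAt_id
    exact AnalyticAt.comp (f := fun r : ℝ => (v, r)) h1 h2
  have hord : analyticOrderAt (fun s => f (v, s)) x₀ = ⊤ := by
    rw [ENat.eq_top_iff_forall_ge]
    intro m
    rw [natCast_le_analyticOrderAt_iff_iteratedDeriv_eq_zero (hg _ hx₀)]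
    intro i _
    rw [TDn_iter hf i _ hx₀]
    exact h i
  rw [analyticOrderAt_eq_top] at hord
  exact hg.eqOn_zero_of_preconnected_of_eventuallyEq_zero isPreconnected_Ioo hx₀ hord

/-- identity theorem on a ball -/
theorem ident {f : W → ℝ} {v₀ v : W} {ρ : ℝ} (hf : AnalyticOnNhd ℝ f (Metric.ball v₀ ρ))
    (hv : v ∈ Metric.ball v₀ ρ) (h : ∀ᶠ x in 𝓝 v, f x = 0) : ∀ x ∈ Metric.ball v₀ ρ, f x = 0 :=
  hf.eqOn_zero_of_preconnected_of_eventuallyEq_zero (convex_ball v₀ ρ).isPreconnected hv h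

end Pool.Agent.Lib.MP_28b8de_an.TT
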