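import Pool.Agent.Lib.MP_28b8de_an.T.TDefs

/-!
MP_28b8de_an, module TNem.

The Nemytskii operator `(ε,v) ↦ (τ ↦ Φ(t₀ + ε τ, w₀ + v(τ)))` is analytic near 0 as a map `ℝ × C([0,1],E) → C([0,1],E)`.
PROOF.  Let p be a power series of Φ at (t₀,w₀), with `HasFPowerSeriesOnBall Φ p (t₀,w₀) r`.  For each n define the continuous multilinear map
`P n : (ℝ × C) [×n] → C`, `P n h τ = p n (fun i => ((h i).1 * τ, (h i).2 τ))` (continuous in τ; multilinear; `‖P n h‖ ≤ ‖p n‖ ∏ ‖h i‖` since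
`‖((h i).1 * τ, (h i).2 τ)‖ ≤ ‖h i‖`; `MultilinearMap.mkContinuous`).  So `‖P n‖ ≤ ‖p n‖` and the radius of the formal series P is at least that of p
(> 0).  N := P.sum (`FormalMultilinearSeries.hasFPowerSeriesOnBall`): analytic at (0,0).  For ‖x‖ < r: evaluation at τ is a continuous linear map, so
`N x τ = ∑ P n (x,..,x) τ = ∑ p n ((x.1 τ, x.2 τ),...) = Φ(t₀ + x.1 τ, w₀ + x.2 τ)` (HasFPowerSeriesOnBall.hasSum).
-/

set_option linter.unusedSectionVars false

namespace Pool.Agent.Lib.MP_28b8de_an.TT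

open Filter Topology Set MeasureTheory
open Pool.Agent.Lib.MP_28b8de_an.PT (Adm Perf gron gron_back volterra kder ae_zero perf_inner stay)

/-- evaluation: `(a, v) ↦ (a τ, v τ)` -/
private noncomputable def nemEv {E : Type*} [NormedAddCommGroup E] [NormedSpace ℝ E]
    (τ : Icc (0 : ℝ) 1) : (ℝ × C(Icc (0 : ℝ) 1, E)) →L[ℝ] ℝ × E :=
  ((τ : ℝ) • ContinuousLinearMap.fst ℝ ℝ C(Icc (0 : ℝ) 1, E)).prod
    ((ContinuousMap.evalCLM ℝ τ).comp (ContinuousLinearMap.snd ℝ ℝ C(Icc (0 : ℝ) 1, E)))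

private theorem nemEv_apply {E : Type*} [NormedAddCommGroup E] [NormedSpace ℝ E]
    (τ : Icc (0 : ℝ) 1) (x : ℝ × C(Icc (0 : ℝ) 1, E)) : nemEv τ x = (x.1 * τ, x.2 τ) := by
  simp [nemEv, mul_comm]

private theorem nemEv_norm {E : Type*} [NormedAddCommGroup E] [NormedSpace ℝ E]
    (τ : Icc (0 : ℝ) 1) (x : ℝ × C(Icc (0 : ℝ) 1, E)) : ‖nemEv τ x‖ ≤ ‖x‖ := by
  rw [nemEv_apply, Prod.norm_def, Prod.norm_def]
  refine max_le_max ?_ ?_
  · show ‖x.1 * (τ : ℝ)‖ ≤ ‖x.1‖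
    rw [norm_mul]
    refine mul_le_of_le_one_right (norm_nonneg _) ?_
    rw [Real.norm_eq_abs, abs_of_nonneg τ.2.1]
    exact τ.2.2
  · exact ContinuousMap.norm_coe_le_norm x.2 τ

/-- the multilinear maps -/
private noncomputable def nemM {E : Type*} [NormedAddCommGroup E] [NormedSpace ℝ E]
    {n : ℕ} (q : ContinuousMultilinearMap ℝ (fun _ : Fin n => ℝ × E) E) :
    MultilinearMap ℝ (fun _ : Fin n => ℝ × C(Icc (0 : ℝ) 1, E)) C(Icc (0 : ℝ) 1, E) where
  toFun h := ⟨fun τ => q (fun i => nemEv τ (h i)), by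
    refine q.cont.comp (continuous_pi fun i => ?_)
    simp only [nemEv_apply]
    exact (continuous_const.mul continuous_subtype_val).prodMk (h i).2.continuous⟩
  map_update_add' h i x y := by
    ext τ
    have := (q.compContinuousLinearMap (fun _ : Fin n => nemEv (E := E) τ)).map_update_add h i x y
    simp only [ContinuousMultilinearMap.compContinuousLinearMap_apply] at this
    exact this
  map_update_smul' h i c x := by
    ext τ
    have := (q.compContinuousLinearMap (fun _ : Fin n => nemEv (E := E) τ)).map_update_smul h i c x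
    simp only [ContinuousMultilinearMap.compContinuousLinearMap_apply] at this
    exact this

private theorem nemM_apply {E : Type*} [NormedAddCommGroup E] [NormedSpace ℝ E]
    {n : ℕ} (q : ContinuousMultilinearMap ℝ (fun _ : Fin n => ℝ × E) E)
    (h : Fin n → ℝ × C(Icc (0 : ℝ) 1, E)) (τ : Icc (0 : ℝ) 1) :
    nemM q h τ = q (fun i => nemEv τ (h i)) := rfl

private theorem nemM_norm {E : Type*} [NormedAddCommGroup E] [NormedSpace ℝ E]
    {n : ℕ} (q : ContinuousMultilinearMap ℝ (fun _ : Fin n => ℝ × E) E)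
    (h : Fin n → ℝ × C(Icc (0 : ℝ) 1, E)) : ‖nemM q h‖ ≤ ‖q‖ * ∏ i, ‖h i‖ := by
  rw [ContinuousMap.norm_le _ (by positivity)]
  intro τ
  rw [nemM_apply]
  refine (q.le_opNorm _).trans ?_
  refine mul_le_mul_of_nonneg_left ?_ (norm_nonneg _)
  exact Finset.prod_le_prod (fun i _ => norm_nonneg _) (fun i _ => nemEv_norm τ _)

private noncomputable def nemP {E : Type*} [NormedAddCommGroup E] [NormedSpace ℝ E]
    (p : FormalMultilinearSeries ℝ (ℝ × E) E) :
    FormalMultilinearSeries ℝ (ℝ × C(Icc (0 : ℝ) 1, E)) C(Icc (0 : ℝ) 1, E) :=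
  fun n => (nemM (p n)).mkContinuous ‖p n‖ (nemM_norm (p n))

theorem nemytskii {E : Type*} [NormedAddCommGroup E] [NormedSpace ℝ E] [CompleteSpace E]
    {Φ : ℝ × E → E} {t₀ : ℝ} {w₀ : E} (hΦ : AnalyticAt ℝ Φ (t₀, w₀)) :
    ∃ N : ℝ × C(Icc (0 : ℝ) 1, E) → C(Icc (0 : ℝ) 1, E), AnalyticAt ℝ N 0 ∧
      ∀ᶠ x in 𝓝 (0 : ℝ × C(Icc (0 : ℝ) 1, E)), ∀ τ : Icc (0 : ℝ) 1,
        N x τ = Φ (t₀ + x.1 * τ, w₀ + x.2 τ) := by
  obtain ⟨p, r, hp⟩ := hΦ
  have hrad : p.radius ≤ (nemP p).radius :=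
    FormalMultilinearSeries.radius_le_of_le (fun {n} =>
      MultilinearMap.mkContinuous_norm_le _ (norm_nonneg _) _)
  have hr0 : 0 < r := hp.r_pos
  have hr : r ≤ (nemP p).radius := hp.r_le.trans hrad
  have hP := (nemP p).hasFPowerSeriesOnBall (hr0.trans_le hr)
  refine ⟨(nemP p).sum, hP.analyticAt, ?_⟩
  filter_upwards [Metric.eball_mem_nhds (0 : ℝ × C(Icc (0 : ℝ) 1, E)) hr0] with x hx
  intro τ
  have h1 := hP.hasSum (Metric.eball_subset_eball hr hx)
  have h2 := h1.mapL (ContinuousMap.evalCLM ℝ τ)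
  have hy : nemEv τ x ∈ Metric.eball (0 : ℝ × E) r := by
    rw [Metric.mem_eball, edist_zero_right] at hx ⊢
    refine lt_of_le_of_lt ?_ hx
    rw [← ofReal_norm, ← ofReal_norm]
    exact ENNReal.ofReal_le_ofReal (nemEv_norm τ x)
  have h3 := hp.hasSum hy
  have h4 : (fun n => (ContinuousMap.evalCLM ℝ τ) ((nemP p n) (fun _ => x))) =
      fun n => p n (fun _ => nemEv τ x) := by
    funext n
    rfl
  rw [h4] at h2
  have h5 := h2.unique h3
  rw [zero_add] at h5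
  rw [nemEv_apply] at h5
  exact h5

end Pool.Agent.Lib.MP_28b8de_an.TT
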