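import Pool.Agent.Lib.MP_28b8de_an.T.TNem

/-!
MP_28b8de_an, module TOdeAn.

Solutions of analytic ordinary differential equations are analytic.
PROOF.  X := C([0,1],E), N from `nemytskii` at (t₀, w t₀), I : X →L X the integration operator `(I g) τ = ∫_0^τ g` (as a continuous linear map; bound ‖g‖;
define g on ℝ by `projIcc`).  Ψ (ε,v) := v - ε • I (N (ε,v)) : ℝ × X → X is analytic at 0, Ψ 0 = 0, and its derivative in v at 0 is the identity.  Analytic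
implicit function theorem (Mathlib: Mathlib/Analysis/Calculus/ImplicitContDiff.lean, `ContDiffAt` with exponent ω; see how the private lemma `PZthree_impl` in
P/PZthree.lean uses it): V : ℝ → X analytic at 0, V 0 = 0, and near 0: Ψ(ε,v) = 0 → v = V ε.
For ε small (of either sign) W_ε(τ) := w(t₀ + ε τ) - w t₀ is in X, tends to 0 as ε → 0, and W_ε(τ) = ε ∫_0^τ Φ(t₀ + ε σ, w(t₀ + εσ)) dσ (fundamental theorem:
d/dσ w(t₀+εσ) = ε Φ(..)), so Ψ(ε, W_ε) = 0 and W_ε = V ε.  Hence w(t₀+ε) = w t₀ + (V ε)(1): analytic at 0.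
-/

set_option linter.unusedSectionVars false

namespace Pool.Agent.Lib.MP_28b8de_an.TT

open Filter Topology Set MeasureTheory
open Pool.Agent.Lib.MP_28b8de_an.PT (Adm Perf gron gron_back volterra kder ae_zero perf_inner stay)

/-- the integration operator -/
private noncomputable def TOdeAn_int (E : Type*) [NormedAddCommGroup E] [NormedSpace ℝ E] :
    C(Icc (0 : ℝ) 1, E) →L[ℝ] C(Icc (0 : ℝ) 1, E) :=
  LinearMap.mkContinuous
    { toFun := fun g => ⟨fun τ => ∫ σ in (0 : ℝ)..τ, IccExtend zero_le_one g σ, by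
        have h1 : Continuous (IccExtend (zero_le_one (α := ℝ)) g) := g.continuous.Icc_extend'
        exact (intervalIntegral.continuous_primitive (fun a b => h1.intervalIntegrable a b) 0).comp
          continuous_subtype_val⟩
      map_add' := by
        intro f g
        ext τ
        have hf : Continuous (IccExtend (zero_le_one (α := ℝ)) f) := f.continuous.Icc_extend'
        have hg : Continuous (IccExtend (zero_le_one (α := ℝ)) g) := g.continuous.Icc_extend'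
        change (∫ σ in (0 : ℝ)..τ, IccExtend zero_le_one (f + g) σ) =
          (∫ σ in (0 : ℝ)..τ, IccExtend zero_le_one f σ) + ∫ σ in (0 : ℝ)..τ, IccExtend zero_le_one g σ
        rw [← intervalIntegral.integral_add (hf.intervalIntegrable _ _) (hg.intervalIntegrable _ _)]
        rfl
      map_smul' := by
        intro c f
        ext τ
        change (∫ σ in (0 : ℝ)..τ, IccExtend zero_le_one (c • f) σ) =
          c • ∫ σ in (0 : ℝ)..τ, IccExtend zero_le_one f σ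
        rw [← intervalIntegral.integral_smul]
        rfl }
    1 (by
      intro g
      rw [one_mul, ContinuousMap.norm_le _ (norm_nonneg g)]
      intro τ
      have h1 := intervalIntegral.norm_integral_le_of_norm_le_const (a := (0 : ℝ)) (b := (τ : ℝ)) (C := ‖g‖)
        (f := IccExtend (zero_le_one (α := ℝ)) g) (fun x _ => g.norm_coe_le_norm _)
      refine h1.trans ?_
      have h2 : |(τ : ℝ) - 0| ≤ 1 := by
        rw [sub_zero, abs_of_nonneg τ.2.1]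
        exact τ.2.2
      calc ‖g‖ * |(τ : ℝ) - 0| ≤ ‖g‖ * 1 := mul_le_mul_of_nonneg_left h2 (norm_nonneg g)
        _ = ‖g‖ := mul_one _)

private theorem TOdeAn_int_apply {E : Type*} [NormedAddCommGroup E] [NormedSpace ℝ E]
    (g : C(Icc (0 : ℝ) 1, E)) (τ : Icc (0 : ℝ) 1) :
    TOdeAn_int E g τ = ∫ σ in (0 : ℝ)..τ, IccExtend zero_le_one g σ := rfl

theorem ode_an {E : Type*} [NormedAddCommGroup E] [NormedSpace ℝ E] [CompleteSpace E]
    {Φ : ℝ × E → E} {w : ℝ → E} {t₀ : ℝ} (hΦ : AnalyticAt ℝ Φ (t₀, w t₀))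
    (hw : ∀ᶠ t in 𝓝 t₀, HasDerivAt w (Φ (t, w t)) t) : AnalyticAt ℝ w t₀ := by
  classical
  obtain ⟨N, hN, hNe⟩ := nemytskii hΦ
  obtain ⟨I, hI⟩ : ∃ I, I = TOdeAn_int E := ⟨_, rfl⟩
  obtain ⟨Ψ, hΨ⟩ : ∃ Ψ : ℝ × C(Icc (0 : ℝ) 1, E) → C(Icc (0 : ℝ) 1, E),
      Ψ = fun p => p.2 - p.1 • I (N p) := ⟨_, rfl⟩
  have hIN : AnalyticAt ℝ (fun p => I (N p)) (0 : ℝ × C(Icc (0 : ℝ) 1, E)) :=
    (I.analyticAt _).comp hN
  have hΨa : AnalyticAt ℝ Ψ ((0, 0) : ℝ × C(Icc (0 : ℝ) 1, E)) := by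
    rw [hΨ]
    exact analyticAt_snd.sub (analyticAt_fst.smul hIN)
  have hΨ0 : Ψ (0, 0) = 0 := by
    rw [hΨ]
    simp
  have hΨd : HasFDerivAt Ψ (ContinuousLinearMap.snd ℝ ℝ C(Icc (0 : ℝ) 1, E) -
      (ContinuousLinearMap.fst ℝ ℝ C(Icc (0 : ℝ) 1, E)).smulRight (I (N (0, 0)))) (0, 0) := by
    rw [hΨ]
    have h1 : HasFDerivAt (fun p : ℝ × C(Icc (0 : ℝ) 1, E) => p.1)
      (ContinuousLinearMap.fst ℝ ℝ C(Icc (0 : ℝ) 1, E)) (0, 0) := hasFDerivAt_fst
    have h2 : HasFDerivAt (fun p : ℝ × C(Icc (0 : ℝ) 1, E) => I (N p))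
      (fderiv ℝ (fun p : ℝ × C(Icc (0 : ℝ) 1, E) => I (N p)) (0, 0)) (0, 0) :=
      (show AnalyticAt ℝ (fun p => I (N p)) ((0, 0) : ℝ × C(Icc (0 : ℝ) 1, E)) from hIN).differentiableAt.hasFDerivAt
    have h3 := (hasFDerivAt_snd (𝕜 := ℝ) (p := ((0, 0) : ℝ × C(Icc (0 : ℝ) 1, E)))).sub (h1.smul h2)
    refine h3.congr_fderiv ?_
    simp
  have hc : ContDiffAt ℝ (⊤ : WithTop ℕ∞) Ψ ((0, 0) : ℝ × C(Icc (0 : ℝ) 1, E)) := hΨa.contDiffAt
  have pn : (⊤ : WithTop ℕ∞) ≠ 0 := by simp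
  have hinv : (fderiv ℝ Ψ (0, 0) ∘L .inr ℝ ℝ C(Icc (0 : ℝ) 1, E)).IsInvertible := by
    refine ⟨ContinuousLinearEquiv.refl ℝ _, ?_⟩
    rw [hΨd.fderiv]
    ext v
    simp
  obtain ⟨V, hV⟩ : ∃ V, V = hc.implicitFunction pn hinv := ⟨_, rfl⟩
  have hVa : AnalyticAt ℝ V 0 := by
    rw [hV]
    exact (hc.contDiffAt_implicitFunction pn hinv).analyticAt
  have hVe : ∀ᶠ p : ℝ × C(Icc (0 : ℝ) 1, E) in 𝓝 (0, 0), Ψ p = 0 → V p.1 = p.2 := by
    have h := hc.eventually_apply_eq_iff_implicitFunction pn hinv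
    filter_upwards [h] with p hp hp0
    rw [hV]
    exact hp.1 (by rw [hp0, hΨ0])
  -- the curve
  obtain ⟨δ, hδ, hwδ⟩ := Metric.eventually_nhds_iff.1 hw
  have hseg : ∀ ε : ℝ, |ε| < δ → ∀ τ : ℝ, τ ∈ Icc (0 : ℝ) 1 →
      HasDerivAt w (Φ (t₀ + ε * τ, w (t₀ + ε * τ))) (t₀ + ε * τ) := by
    intro ε hε τ hτ
    refine hwδ ?_
    rw [Real.dist_eq, add_sub_cancel_left, abs_mul]
    have h1 : |τ| ≤ 1 := abs_le.2 ⟨by linarith [hτ.1], hτ.2⟩
    calc |ε| * |τ| ≤ |ε| * 1 := mul_le_mul_of_nonneg_left h1 (abs_nonneg ε)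
      _ < δ := by rw [mul_one]; exact hε
  have hcont : ∀ ε : ℝ, |ε| < δ → Continuous (fun τ : Icc (0 : ℝ) 1 => w (t₀ + ε * τ) - w t₀) := by
    intro ε hε
    rw [continuous_iff_continuousAt]
    intro τ
    have h1 : ContinuousAt w (t₀ + ε * (τ : ℝ)) := (hseg ε hε τ τ.2).continuousAt
    have h2 : ContinuousAt (fun τ : Icc (0 : ℝ) 1 => t₀ + ε * (τ : ℝ)) τ :=
      (continuous_const.add (continuous_const.mul continuous_subtype_val)).continuousAt
    exact (ContinuousAt.comp (f := fun τ : Icc (0 : ℝ) 1 => t₀ + ε * (τ : ℝ)) h1 h2).sub continuousAt_const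
  obtain ⟨W, hW⟩ : ∃ W : ℝ → C(Icc (0 : ℝ) 1, E), ∀ ε : ℝ, |ε| < δ → ∀ τ : Icc (0 : ℝ) 1,
      W ε τ = w (t₀ + ε * τ) - w t₀ := by
    refine ⟨fun ε => if h : |ε| < δ then ⟨_, hcont ε h⟩ else 0, ?_⟩
    intro ε hε τ
    simp only [dif_pos hε]
    rfl
  have hWt : Tendsto (fun ε : ℝ => (ε, W ε)) (𝓝 0) (𝓝 ((0, 0) : ℝ × C(Icc (0 : ℝ) 1, E))) := by
    refine Tendsto.prodMk_nhds tendsto_id ?_
    rw [Metric.tendsto_nhds]
    intro η hη
    have hwc : ContinuousAt w t₀ := by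
      have := hseg 0 (by simpa using hδ) 0 (by simp)
      simpa using this.continuousAt
    obtain ⟨δ', hδ', hwδ'⟩ := Metric.continuousAt_iff.1 hwc (η / 2) (by linarith)
    have hm : 0 < min δ δ' := lt_min hδ hδ'
    filter_upwards [Metric.ball_mem_nhds (0 : ℝ) hm] with ε hε
    rw [Metric.mem_ball, Real.dist_eq, sub_zero] at hε
    have h1 : |ε| < δ := hε.trans_le (min_le_left _ _)
    have h2 : |ε| < δ' := hε.trans_le (min_le_right _ _)
    rw [dist_zero_right]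
    refine lt_of_le_of_lt ((ContinuousMap.norm_le _ (by linarith : (0 : ℝ) ≤ η / 2)).2 ?_) (by linarith : η / 2 < η)
    intro τ
    rw [hW ε h1 τ, ← dist_eq_norm]
    refine (hwδ' ?_).le
    rw [Real.dist_eq, add_sub_cancel_left, abs_mul]
    have h3 : |(τ : ℝ)| ≤ 1 := abs_le.2 ⟨by linarith [τ.2.1], τ.2.2⟩
    calc |ε| * |(τ : ℝ)| ≤ |ε| * 1 := mul_le_mul_of_nonneg_left h3 (abs_nonneg ε)
      _ < δ' := by rw [mul_one]; exact h2
  have hNe' : ∀ᶠ x : ℝ × C(Icc (0 : ℝ) 1, E) in 𝓝 (0, 0), ∀ τ : Icc (0 : ℝ) 1,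
      N x τ = Φ (t₀ + x.1 * τ, w t₀ + x.2 τ) := hNe
  have hmain : ∀ᶠ ε : ℝ in 𝓝 0, V ε = W ε := by
    filter_upwards [hWt.eventually hVe, hWt.eventually hNe', Metric.ball_mem_nhds (0 : ℝ) hδ] with ε h1 h2 h3
    rw [Metric.mem_ball, Real.dist_eq, sub_zero] at h3
    refine h1 ?_
    rw [hΨ]
    show W ε - ε • I (N (ε, W ε)) = 0
    rw [sub_eq_zero]
    ext τ
    have e1 : (ε • I (N (ε, W ε))) τ = ∫ σ in (0 : ℝ)..τ, ε • IccExtend (zero_le_one (α := ℝ)) (N (ε, W ε)) σ := by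
      rw [intervalIntegral.integral_smul]
      show ε • (I (N (ε, W ε)) τ) = _
      rw [hI, TOdeAn_int_apply]
    rw [e1, hW ε h3 τ]
    have hg : Continuous (IccExtend (zero_le_one (α := ℝ)) (N (ε, W ε))) := (N (ε, W ε)).continuous.Icc_extend'
    have hgs : Continuous (fun σ => ε • IccExtend (zero_le_one (α := ℝ)) (N (ε, W ε)) σ) := continuous_const.smul hg
    have h4 : ∀ σ ∈ uIcc (0 : ℝ) τ, HasDerivAt (fun σ : ℝ => w (t₀ + ε * σ))
        (ε • IccExtend (zero_le_one (α := ℝ)) (N (ε, W ε)) σ) σ := by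
      intro σ hσ
      rw [uIcc_of_le τ.2.1] at hσ
      have hσ1 : σ ∈ Icc (0 : ℝ) 1 := ⟨hσ.1, hσ.2.trans τ.2.2⟩
      have h5 := hseg ε h3 σ hσ1
      have h6 : HasDerivAt (fun σ : ℝ => t₀ + ε * σ) ε σ := by
        have := ((hasDerivAt_id σ).const_mul ε).const_add t₀
        simpa using this
      have h7 := HasDerivAt.scomp σ h5 h6
      have h8 : IccExtend (zero_le_one (α := ℝ)) (N (ε, W ε)) σ = Φ (t₀ + ε * σ, w (t₀ + ε * σ)) := by
        rw [IccExtend_of_mem _ _ hσ1, h2 ⟨σ, hσ1⟩]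
        show Φ (t₀ + ε * σ, w t₀ + W ε ⟨σ, hσ1⟩) = _
        rw [hW ε h3 ⟨σ, hσ1⟩, add_sub_cancel]
      rw [h8]
      exact h7
    have h9 := intervalIntegral.integral_eq_sub_of_hasDerivAt h4 (hgs.intervalIntegrable _ _)
    rw [h9, mul_zero, add_zero]
  have hfin : ∀ᶠ t in 𝓝 t₀, w t₀ + (V (t - t₀)) ⟨1, by simp⟩ = w t := by
    have h1 : Tendsto (fun t : ℝ => t - t₀) (𝓝 t₀) (𝓝 0) := by
      have : Continuous (fun t : ℝ => t - t₀) := by fun_prop
      have h2 := this.tendsto t₀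
      simpa using h2
    have h3 : ∀ᶠ ε : ℝ in 𝓝 0, |ε| < δ := by
      filter_upwards [Metric.ball_mem_nhds (0 : ℝ) hδ] with ε h3
      rwa [Metric.mem_ball, Real.dist_eq, sub_zero] at h3
    filter_upwards [h1.eventually hmain, h1.eventually h3] with t h4 h5
    rw [h4, hW _ h5]
    simp
  have hVt : AnalyticAt ℝ (fun t : ℝ => V (t - t₀)) t₀ := by
    have h1 : AnalyticAt ℝ (fun t : ℝ => t - t₀) t₀ := analyticAt_id.sub analyticAt_const
    have h2 : AnalyticAt ℝ V ((fun t : ℝ => t - t₀) t₀) := by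
      simpa using hVa
    exact AnalyticAt.comp (f := fun t : ℝ => t - t₀) h2 h1
  have hev : AnalyticAt ℝ (fun t : ℝ => (V (t - t₀)) ⟨1, by simp⟩) t₀ := by
    have h1 := (ContinuousMap.evalCLM (M := E) ℝ (⟨1, by simp⟩ : Icc (0 : ℝ) 1)).analyticAt (V (t₀ - t₀))
    exact AnalyticAt.comp (f := fun t : ℝ => V (t - t₀)) h1 hVt
  exact (analyticAt_const.add hev).congr hfin

end Pool.Agent.Lib.MP_28b8de_an.TT
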