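import Pool.Agent.Lib.MP_28b8de_an.T.TDefs

/-!
MP_28b8de_an, module PSol (PTD-PSol): elementary facts on `Env`, `Sol`.

PROOFS.  env_lip: mean value inequality (`Convex.norm_image_sub_le_of_norm_fderiv_le` on univ).
rhs_int: s ↦ F (s, r s) + v s • G (s, r s) is a.e. strongly measurable on Icc a b (r ContinuousOn, F, G continuous, v
measurable) and bounded by 2M; so it is interval integrable between points of Icc a b.  (To handle ContinuousOn: compose
r with the projection to [a,b], e.g. `projIcc` or `IccExtend`, or use ContinuousOn.aestronglyMeasurable.)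
sol_sub: difference of two instances of `eq` (intervalIntegral.integral_interval_sub_left).
sol_lip: norm_integral_le_of_norm_le_const with 2M.
sol_mono: from sol_sub.  sol_congr: replace v by an a.e. equal control, r by an equal function on Icc a b.
sol_glue: r = r₁ on [a,b], r₂ on [b,c]; for t in [b,c]: ∫_a^t = ∫_a^b + ∫_b^t (integral_congr on the pieces).
-/

set_option linter.unusedSectionVars false

namespace Pool.Agent.Lib.MP_28b8de_an.TT

open Filter Topology Set MeasureTheory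
open Pool.Agent.Lib.MP_28b8de_an.PT (Adm Perf l1 l1_apply gron gron_back volterra kder ae_zero perf_inner
  dense_L1 dense_L1_ball l1_UU l1_eq stay)

variable {V : Type*} [NormedAddCommGroup V] [NormedSpace ℝ V] [FiniteDimensional ℝ V]
  {F G : ℝ × V → V} {M : ℝ}

theorem env_lipF (E : Env F G M) (z w : ℝ × V) : ‖F z - F w‖ ≤ M * ‖z - w‖ :=
  Convex.norm_image_sub_le_of_norm_fderiv_le (𝕜 := ℝ)
    (fun x _ => (E.Fs.differentiable (by simp)) x) (fun x _ => E.Fd x) convex_univ
    (mem_univ w) (mem_univ z)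

theorem env_lipG (E : Env F G M) (z w : ℝ × V) : ‖G z - G w‖ ≤ M * ‖z - w‖ :=
  Convex.norm_image_sub_le_of_norm_fderiv_le (𝕜 := ℝ)
    (fun x _ => (E.Gs.differentiable (by simp)) x) (fun x _ => E.Gd x) convex_univ
    (mem_univ w) (mem_univ z)

theorem rhs_bound (E : Env F G M) {v : ℝ → ℝ} (hv : Adm v) (z : ℝ × V) (s : ℝ) :
    ‖F z + v s • G z‖ ≤ 2 * M := by
  have hM0 : 0 ≤ M := le_trans zero_le_one E.hM
  calc ‖F z + v s • G z‖ ≤ ‖F z‖ + ‖v s • G z‖ := norm_add_le _ _
    _ ≤ M + 1 * M := by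
        refine add_le_add (E.Fb z) ?_
        rw [norm_smul]
        exact mul_le_mul (by simpa using hv.2 s) (E.Gb z) (norm_nonneg _) zero_le_one
    _ = 2 * M := by ring

private theorem TSol_ext {r : ℝ → V} {a b : ℝ} (hab : a ≤ b) (hr : ContinuousOn r (Icc a b)) :
    ∃ r' : ℝ → V, Continuous r' ∧ ∀ s ∈ Icc a b, r' s = r s := by
  refine ⟨fun s => r (projIcc a b hab s), ?_, ?_⟩
  · exact hr.comp_continuous (continuous_subtype_val.comp continuous_projIcc)
      (fun s => (projIcc a b hab s).2)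
  · intro s hs
    simp [projIcc_of_mem hab hs]

private theorem TSol_meas (E : Env F G M) {v : ℝ → ℝ} (hv : Adm v) {r : ℝ → V}
    (hr : Continuous r) : AEStronglyMeasurable (fun s => F (s, r s) + v s • G (s, r s)) volume := by
  have h1 : Continuous fun s => F (s, r s) := E.Fs.continuous.comp (continuous_id.prodMk hr)
  have h2 : Continuous fun s => G (s, r s) := E.Gs.continuous.comp (continuous_id.prodMk hr)
  exact h1.aestronglyMeasurable.add (hv.1.aestronglyMeasurable.smul h2.aestronglyMeasurable)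

private theorem TSol_ii (E : Env F G M) {v : ℝ → ℝ} (hv : Adm v) {r : ℝ → V}
    (hr : Continuous r) (s t : ℝ) :
    IntervalIntegrable (fun s => F (s, r s) + v s • G (s, r s)) volume s t := by
  refine IntervalIntegrable.mono_fun' (g := fun _ => 2 * M) intervalIntegrable_const
    (TSol_meas E hv hr).restrict (Eventually.of_forall fun x => ?_)
  exact rhs_bound E hv _ _

theorem rhs_int (E : Env F G M) {v : ℝ → ℝ} (hv : Adm v) {r : ℝ → V} {a b : ℝ}
    (hr : ContinuousOn r (Icc a b)) {s t : ℝ} (hs : s ∈ Icc a b) (ht : t ∈ Icc a b) :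
    IntervalIntegrable (fun s => F (s, r s) + v s • G (s, r s)) volume s t := by
  obtain ⟨r', hr', he⟩ := TSol_ext (hs.1.trans hs.2) hr
  refine (intervalIntegrable_congr ?_).1 (TSol_ii E hv hr' s t)
  intro x hx
  have hx' : x ∈ Icc a b := (uIcc_subset_Icc hs ht) (uIoc_subset_uIcc hx)
  simp only [he x hx']

theorem sol_sub (E : Env F G M) {v : ℝ → ℝ} (hv : Adm v) {r : ℝ → V} {a b : ℝ}
    (hr : Sol F G v r a b) {s t : ℝ} (hs : s ∈ Icc a b) (ht : t ∈ Icc a b) :
    r t - r s = ∫ s in s..t, (F (s, r s) + v s • G (s, r s)) := by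
  have ha : a ∈ Icc a b := ⟨le_refl _, hs.1.trans hs.2⟩
  rw [hr.eq t ht, hr.eq s hs, add_sub_add_left_eq_sub]
  exact intervalIntegral.integral_interval_sub_left (rhs_int E hv hr.cont ha ht)
    (rhs_int E hv hr.cont ha hs)

theorem sol_lip (E : Env F G M) {v : ℝ → ℝ} (hv : Adm v) {r : ℝ → V} {a b : ℝ}
    (hr : Sol F G v r a b) {s t : ℝ} (hs : s ∈ Icc a b) (ht : t ∈ Icc a b) :
    ‖r t - r s‖ ≤ 2 * M * |t - s| := by
  rw [sol_sub E hv hr hs ht]
  exact intervalIntegral.norm_integral_le_of_norm_le_const fun x _ => rhs_bound E hv _ _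

/-- solutions are differentiable almost everywhere -/
theorem sol_ae (E : Env F G M) {v : ℝ → ℝ} (hv : Adm v) {r : ℝ → V} {a b : ℝ}
    (hr : Sol F G v r a b) :
    ∀ᵐ t : ℝ, t ∈ Ioo a b → HasDerivAt r (F (t, r t) + v t • G (t, r t)) t := by
  rcases lt_or_ge b a with hab | hab
  · refine Eventually.of_forall fun t ht => ?_
    exact absurd (ht.1.trans ht.2) (not_lt.2 hab.le)
  have ha : a ∈ Icc a b := ⟨le_refl _, hab⟩
  have hb : b ∈ Icc a b := ⟨hab, le_refl _⟩
  have h := (rhs_int E hv hr.cont ha hb).ae_hasDerivAt_integral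
  filter_upwards [h] with t ht htab
  have htI : t ∈ uIcc a b := by
    rw [uIcc_of_le hab]; exact Ioo_subset_Icc_self htab
  have h1 := (ht htI a left_mem_uIcc).const_add (r a)
  refine h1.congr_of_eventuallyEq ?_
  filter_upwards [Ioo_mem_nhds htab.1 htab.2] with x hx
  exact hr.eq x (Ioo_subset_Icc_self hx)

private theorem TSol_ac {g : ℝ → ℝ} {f : ℝ → ℝ} {a b t : ℝ} {K : NNReal}
    (hg : LipschitzOnWith K g (Icc a b)) (hab : a ≤ b) (ht : t ∈ Icc a b)
    (h : ∀ᵐ x : ℝ, x ∈ Ioo a b → HasDerivAt g (f x) x) :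
    IntervalIntegrable f volume a t ∧ ∫ x in a..t, f x = g t - g a := by
  have hsub : uIcc a t ⊆ Icc a b := by
    rw [uIcc_of_le ht.1]; exact Icc_subset_Icc le_rfl ht.2
  have hac : AbsolutelyContinuousOnInterval g a t := (hg.mono hsub).absolutelyContinuousOnInterval
  have hb : ∀ᵐ x : ℝ, x ≠ b := by simp [ae_iff, measure_singleton]
  have hcongr : ∀ᵐ x : ℝ, x ∈ uIoc a t → deriv g x = f x := by
    filter_upwards [h, hb] with x hx hxb hxt
    rw [uIoc_of_le ht.1] at hxt
    exact (hx ⟨hxt.1, lt_of_le_of_ne (hxt.2.trans ht.2) hxb⟩).deriv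
  refine ⟨hac.intervalIntegrable_deriv.congr_ae ?_, ?_⟩
  · rw [Filter.EventuallyEq, ae_restrict_iff' measurableSet_uIoc]
    exact hcongr
  · rw [← hac.integral_deriv_eq_sub]
    refine intervalIntegral.integral_congr_ae ?_
    filter_upwards [hcongr] with x hx hxt
    exact (hx hxt).symm

/-- the converse: Lipschitz and the equation almost everywhere -/
theorem sol_of_ae {v : ℝ → ℝ} {r : ℝ → V} {a b : ℝ} {K : NNReal}
    (hr : LipschitzOnWith K r (Icc a b))
    (h : ∀ᵐ t : ℝ, t ∈ Ioo a b → HasDerivAt r (F (t, r t) + v t • G (t, r t)) t) :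
    Sol F G v r a b := by
  refine ⟨hr.continuousOn, fun t ht => ?_⟩
  have hab : a ≤ b := ht.1.trans ht.2
  set f : ℝ → V := fun s => F (s, r s) + v s • G (s, r s) with hf
  have key : ∀ l : V →L[ℝ] ℝ, IntervalIntegrable (fun s => l (f s)) volume a t ∧
      ∫ x in a..t, l (f x) = l (r t) - l (r a) := by
    intro l
    have hl : LipschitzOnWith (‖l‖₊ * K) (fun x => l (r x)) (Icc a b) :=
      l.lipschitz.comp_lipschitzOnWith hr
    refine TSol_ac (f := fun s => l (f s)) hl hab ht ?_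
    filter_upwards [h] with x hx hxt
    exact l.hasFDerivAt.comp_hasDerivAt x (hx hxt)
  set n := Module.finrank ℝ V with hn
  let e : V ≃L[ℝ] (Fin n → ℝ) := (Module.finBasis ℝ V).equivFunL
  have hi' : IntervalIntegrable (fun s => e (f s)) volume a t := by
    rw [intervalIntegrable_iff]
    refine Integrable.of_eval fun i => ?_
    have := (key ((ContinuousLinearMap.proj i).comp (e : V →L[ℝ] (Fin n → ℝ)))).1
    rw [intervalIntegrable_iff] at this
    exact this
  have hi : IntervalIntegrable f volume a t := by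
    rw [intervalIntegrable_iff] at hi' ⊢
    have h1 := (e.symm : (Fin n → ℝ) →L[ℝ] V).integrable_comp hi'
    have h2 : (fun s => (e.symm : (Fin n → ℝ) →L[ℝ] V) (e (f s))) = f := by
      funext s
      simp
    rw [h2] at h1
    exact h1
  rw [← sub_eq_iff_eq_add']
  apply e.injective
  funext i
  have h2 := (key ((ContinuousLinearMap.proj i).comp (e : V →L[ℝ] (Fin n → ℝ)))).2
  have h3 := ((ContinuousLinearMap.proj i).comp (e : V →L[ℝ] (Fin n → ℝ))).intervalIntegral_comp_comm hi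
  have h4 : (e (∫ s in a..t, f s)) i = (e (r t)) i - (e (r a)) i := by
    rw [h2] at h3
    exact h3.symm
  rw [map_sub, Pi.sub_apply]
  exact h4.symm

theorem sol_mono (E : Env F G M) {v : ℝ → ℝ} (hv : Adm v) {r : ℝ → V} {a b a' b' : ℝ}
    (hr : Sol F G v r a b) (ha : a ≤ a') (hb : b' ≤ b) : Sol F G v r a' b' := by
  refine ⟨hr.cont.mono (Icc_subset_Icc ha hb), fun t ht => ?_⟩
  have h1 : a' ∈ Icc a b := ⟨ha, (ht.1.trans ht.2).trans hb⟩
  have h2 : t ∈ Icc a b := ⟨ha.trans ht.1, ht.2.trans hb⟩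
  rw [← sol_sub E hv hr h1 h2]
  abel

theorem sol_congr {v v' : ℝ → ℝ} {r r' : ℝ → V} {a b : ℝ} (hr : Sol F G v r a b)
    (hab : a ≤ b) (hv : ∀ᵐ t : ℝ, t ∈ Ioo a b → v t • G (t, r t) = v' t • G (t, r t))
    (h : ∀ t ∈ Icc a b, r' t = r t) : Sol F G v' r' a b := by
  refine ⟨hr.cont.congr h, fun t ht => ?_⟩
  rw [h t ht, h a ⟨le_refl _, hab⟩, hr.eq t ht]
  congr 1
  have hb : ∀ᵐ x : ℝ, x ≠ b := by simp [ae_iff, measure_singleton]
  refine intervalIntegral.integral_congr_ae ?_
  filter_upwards [hv, hb] with x hx hxb hxt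
  rw [uIoc_of_le ht.1] at hxt
  have hx1 : x ∈ Ioo a b := ⟨hxt.1, lt_of_le_of_ne (hxt.2.trans ht.2) hxb⟩
  rw [h x (Ioo_subset_Icc_self hx1), hx hx1]

private theorem TSol_adm {v₁ v₂ : ℝ → ℝ} (hv₁ : Adm v₁) (hv₂ : Adm v₂) (b : ℝ) :
    Adm (fun t => if t < b then v₁ t else v₂ t) := by
  refine ⟨Measurable.ite measurableSet_Iio hv₁.1 hv₂.1, fun t => ?_⟩
  by_cases h : t < b
  · simpa [h] using hv₁.2 t
  · simpa [h] using hv₂.2 t

theorem sol_glue (E : Env F G M) {v₁ v₂ : ℝ → ℝ} (hv₁ : Adm v₁) (hv₂ : Adm v₂)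
    {r₁ r₂ : ℝ → V} {a b c : ℝ} (hab : a ≤ b) (hbc : b ≤ c) (h₁ : Sol F G v₁ r₁ a b)
    (h₂ : Sol F G v₂ r₂ b c) (h : r₁ b = r₂ b) :
    Sol F G (fun t => if t < b then v₁ t else v₂ t) (fun t => if t < b then r₁ t else r₂ t) a c := by
  have hadm := TSol_adm hv₁ hv₂ b
  have s1 : Sol F G (fun t => if t < b then v₁ t else v₂ t)
      (fun t => if t < b then r₁ t else r₂ t) a b := by
    refine sol_congr h₁ hab (Eventually.of_forall fun t ht => ?_) fun t ht => ?_
    · simp [ht.2]
    · by_cases htb : t < b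
      · simp [htb]
      · have : t = b := le_antisymm ht.2 (not_lt.1 htb)
        simp [this, h]
  have s2 : Sol F G (fun t => if t < b then v₁ t else v₂ t)
      (fun t => if t < b then r₁ t else r₂ t) b c := by
    refine sol_congr h₂ hbc (Eventually.of_forall fun t ht => ?_) fun t ht => ?_
    · simp [not_lt.2 ht.1.le]
    · simp [not_lt.2 ht.1]
  set v : ℝ → ℝ := fun t => if t < b then v₁ t else v₂ t
  set r : ℝ → V := fun t => if t < b then r₁ t else r₂ t
  have hcont : ContinuousOn r (Icc a c) := by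
    rw [← Icc_union_Icc_eq_Icc hab hbc]
    exact s1.cont.union_of_isClosed s2.cont isClosed_Icc isClosed_Icc
  refine ⟨hcont, fun t ht => ?_⟩
  rcases le_total t b with htb | htb
  · exact s1.eq t ⟨ht.1, htb⟩
  · have e1 := s1.eq b ⟨hab, le_refl _⟩
    have e2 := s2.eq t ⟨htb, ht.2⟩
    have i1 := rhs_int E hadm hcont (s := a) (t := b) ⟨le_refl _, hab.trans hbc⟩ ⟨hab, hbc⟩
    have i2 := rhs_int E hadm hcont (s := b) (t := t) ⟨hab, hbc⟩ ht
    rw [← intervalIntegral.integral_add_adjacent_intervals i1 i2, ← add_assoc, ← e1]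
    exact e2

end Pool.Agent.Lib.MP_28b8de_an.TT
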