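import Pool.Agent.Lib.MP_28b8de_an.T.TTri

/-!
MP_28b8de_an, module TCut: cutting off analytic triangular systems outside a ball.
-/

namespace Pool.Agent.Lib.MP_28b8de_an.TT

open Filter Topology Set MeasureTheory

section general

variable {X Y Z : Type*} [NormedAddCommGroup X] [NormedSpace ℝ X] [NormedAddCommGroup Y]
  [NormedSpace ℝ Y] [NormedAddCommGroup Z] [NormedSpace ℝ Z]

/-- smooth, bounded, with bounded and Lipschitz derivative -/
def Bd (M : ℝ) (H : X → Y) : Prop :=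
  0 ≤ M ∧ ContDiff ℝ (⊤ : ℕ∞) H ∧ (∀ z, ‖H z‖ ≤ M) ∧ (∀ z, ‖fderiv ℝ H z‖ ≤ M) ∧
    ∀ z w, ‖fderiv ℝ H z - fderiv ℝ H w‖ ≤ M * ‖z - w‖

theorem Bd.mono {M M' : ℝ} {H : X → Y} (h : Bd M H) (hM : M ≤ M') : Bd M' H := by
  obtain ⟨h0, h1, h2, h3, h4⟩ := h
  exact ⟨h0.trans hM, h1, fun z => (h2 z).trans hM, fun z => (h3 z).trans hM,
    fun z w => (h4 z w).trans (mul_le_mul_of_nonneg_right hM (norm_nonneg _))⟩

theorem bd_of_compact [ProperSpace X] {H : X → Y} (hs : ContDiff ℝ (⊤ : ℕ∞) H)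
    (hc : HasCompactSupport H) : ∃ M, Bd M H := by
  obtain ⟨M₁, h₁⟩ := hc.exists_bound_of_continuous hs.continuous
  have hf : ContDiff ℝ (⊤ : ℕ∞) (fderiv ℝ H) := hs.fderiv_right (by simp)
  have hfc : HasCompactSupport (fderiv ℝ H) := hc.fderiv ℝ
  obtain ⟨M₂, h₂⟩ := hfc.exists_bound_of_continuous hf.continuous
  obtain ⟨M₃, h₃⟩ := ContDiff.lipschitzWith_of_hasCompactSupport hfc hf (by simp)
  refine ⟨max 0 (max M₁ (max M₂ M₃)), le_max_left _ _, hs, fun z => ?_, fun z => ?_, fun z w => ?_⟩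
  · exact (h₁ z).trans ((le_max_left _ _).trans (le_max_right _ _))
  · exact (h₂ z).trans ((le_max_left _ _).trans ((le_max_right _ _).trans (le_max_right _ _)))
  · have h := h₃.dist_le_mul z w
    rw [dist_eq_norm, dist_eq_norm] at h
    refine h.trans (mul_le_mul_of_nonneg_right ?_ (norm_nonneg _))
    exact (le_max_right _ _).trans ((le_max_right _ _).trans (le_max_right _ _))

theorem Bd.prodMk {M : ℝ} {H : X → Y} {H' : X → Z} (h : Bd M H) (h' : Bd M H') :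
    Bd M (fun z => (H z, H' z)) := by
  obtain ⟨h0, h1, h2, h3, h4⟩ := h
  obtain ⟨-, k1, k2, k3, k4⟩ := h'
  have e : ∀ z, fderiv ℝ (fun z => (H z, H' z)) z = (fderiv ℝ H z).prod (fderiv ℝ H' z) := by
    intro z
    exact DifferentiableAt.fderiv_prodMk ((h1.differentiable (by simp)) z)
      ((k1.differentiable (by simp)) z)
  refine ⟨h0, h1.prodMk k1, fun z => ?_, fun z => ?_, fun z w => ?_⟩
  · rw [Prod.norm_def]
    exact max_le (h2 z) (k2 z)
  · rw [e]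
    refine ContinuousLinearMap.opNorm_le_bound _ h0 fun x => ?_
    rw [Prod.norm_def]
    exact max_le ((ContinuousLinearMap.le_opNorm _ x).trans
        (mul_le_mul_of_nonneg_right (h3 z) (norm_nonneg _)))
      ((ContinuousLinearMap.le_opNorm _ x).trans
        (mul_le_mul_of_nonneg_right (k3 z) (norm_nonneg _)))
  · rw [e, e]
    refine ContinuousLinearMap.opNorm_le_bound _ (mul_nonneg h0 (norm_nonneg _)) fun x => ?_
    have e2 : ((fderiv ℝ H z).prod (fderiv ℝ H' z) - (fderiv ℝ H w).prod (fderiv ℝ H' w)) x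
        = ((fderiv ℝ H z - fderiv ℝ H w) x, (fderiv ℝ H' z - fderiv ℝ H' w) x) := rfl
    rw [e2, Prod.norm_def]
    exact max_le ((ContinuousLinearMap.le_opNorm _ x).trans
        (mul_le_mul_of_nonneg_right (h4 z w) (norm_nonneg _)))
      ((ContinuousLinearMap.le_opNorm _ x).trans
        (mul_le_mul_of_nonneg_right (k4 z w) (norm_nonneg _)))

theorem Bd.comp_clm {M : ℝ} {H : X → Y} (h : Bd M H) (l : Z →L[ℝ] X) (hl : ‖l‖ ≤ 1) :
    Bd M (fun z => H (l z)) := by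
  obtain ⟨h0, h1, h2, h3, h4⟩ := h
  have e : ∀ z, fderiv ℝ (fun z => H (l z)) z = (fderiv ℝ H (l z)).comp l := by
    intro z
    have := fderiv_comp z ((h1.differentiable (by simp)) (l z)) l.differentiableAt
    rw [l.fderiv] at this
    exact this
  have hl2 : ∀ x, ‖l x‖ ≤ ‖x‖ := fun x => by
    refine (l.le_opNorm x).trans ?_
    calc ‖l‖ * ‖x‖ ≤ 1 * ‖x‖ := mul_le_mul_of_nonneg_right hl (norm_nonneg _)
      _ = ‖x‖ := one_mul _
  refine ⟨h0, h1.comp l.contDiff, fun z => h2 _, fun z => ?_, fun z w => ?_⟩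
  · rw [e]
    refine ContinuousLinearMap.opNorm_le_bound _ h0 fun x => ?_
    have e2 : ((fderiv ℝ H (l z)).comp l) x = (fderiv ℝ H (l z)) (l x) := rfl
    rw [e2]
    exact ((ContinuousLinearMap.le_opNorm _ _).trans
      (mul_le_mul (h3 _) (hl2 x) (norm_nonneg _) h0))
  · rw [e, e]
    refine ContinuousLinearMap.opNorm_le_bound _ (mul_nonneg h0 (norm_nonneg _)) fun x => ?_
    have e2 : ((fderiv ℝ H (l z)).comp l - (fderiv ℝ H (l w)).comp l) x
        = (fderiv ℝ H (l z) - fderiv ℝ H (l w)) (l x) := rfl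
    rw [e2]
    refine (ContinuousLinearMap.le_opNorm _ _).trans ?_
    have h5 : ‖fderiv ℝ H (l z) - fderiv ℝ H (l w)‖ ≤ M * ‖z - w‖ := by
      refine (h4 _ _).trans (mul_le_mul_of_nonneg_left ?_ h0)
      rw [← map_sub]
      exact hl2 _
    exact mul_le_mul h5 (hl2 x) (norm_nonneg _) (mul_nonneg h0 (norm_nonneg _))

theorem bd_zero : Bd 0 (fun _ : X => (0 : Y)) := by
  refine ⟨le_rfl, contDiff_const, fun z => by simp, fun z => by simp, fun z w => by simp⟩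

/-- cut off of a function analytic everywhere -/
theorem cut_fun [FiniteDimensional ℝ X] {H : X → ℝ} (hH : AnalyticOnNhd ℝ H univ)
    {R : ℝ} (hR : 0 < R) :
    ∃ (H' : X → ℝ) (M : ℝ), Bd M H' ∧ AnalyticOnNhd ℝ H' (Metric.ball 0 R) ∧
      ∀ z ∈ Metric.ball (0 : X) R, H' z = H z := by
  have : ProperSpace X := FiniteDimensional.proper ℝ X
  let χ : ContDiffBump (0 : X) := ⟨R, R + 1, hR, by linarith⟩
  have hχs : ContDiff ℝ (⊤ : ℕ∞) χ := χ.contDiff
  have hχc : HasCompactSupport χ := χ.hasCompactSupport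
  have hχ1 : ∀ z ∈ Metric.ball (0 : X) R, χ z = 1 := fun z hz =>
    χ.one_of_mem_closedBall (Metric.ball_subset_closedBall hz)
  have hHs : ContDiff ℝ (⊤ : ℕ∞) H := by
    rw [contDiff_iff_contDiffAt]
    exact fun z => (hH z (mem_univ _)).contDiffAt
  have e1 : ∀ z ∈ Metric.ball (0 : X) R, χ z * H z = H z := fun z hz => by rw [hχ1 z hz, one_mul]
  obtain ⟨M, hM⟩ := bd_of_compact (H := fun z => χ z * H z) (hχs.mul hHs) (hχc.mul_right)
  refine ⟨fun z => χ z * H z, M, hM, ?_, e1⟩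
  intro z hz
  refine (hH z (mem_univ _)).congr ?_
  filter_upwards [Metric.isOpen_ball.mem_nhds hz] with w hw
  exact (e1 w hw).symm

end general

/-- cutting off a triangular system -/
theorem cut_tri {L : ℝ × ℝ × ℝ → ℝ} {B F G : ℝ × V3 → ℝ} (hL : AnalyticOnNhd ℝ L univ)
    (hB : AnalyticOnNhd ℝ B univ) (hF : AnalyticOnNhd ℝ F univ) (hG : AnalyticOnNhd ℝ G univ)
    {R : ℝ} (hR : 0 < R) :
    ∃ (L' : ℝ × ℝ × ℝ → ℝ) (B' F' G' : ℝ × V3 → ℝ) (M : ℝ), Env (FF L' B' F') (GG G') M ∧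
      AnalyticOnNhd ℝ L' (Metric.ball 0 R) ∧ AnalyticOnNhd ℝ B' (Metric.ball 0 R) ∧
      AnalyticOnNhd ℝ F' (Metric.ball 0 R) ∧ AnalyticOnNhd ℝ G' (Metric.ball 0 R) ∧
      (∀ z ∈ Metric.ball (0 : ℝ × ℝ × ℝ) R, L' z = L z) ∧
      (∀ z ∈ Metric.ball (0 : ℝ × V3) R, B' z = B z) ∧
      (∀ z ∈ Metric.ball (0 : ℝ × V3) R, F' z = F z) ∧
      ∀ z ∈ Metric.ball (0 : ℝ × V3) R, G' z = G z := by
  obtain ⟨L', M₁, b1, a1, e1⟩ := cut_fun hL hR
  obtain ⟨B', M₂, b2, a2, e2⟩ := cut_fun hB hR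
  obtain ⟨F', M₃, b3, a3, e3⟩ := cut_fun hF hR
  obtain ⟨G', M₄, b4, a4, e4⟩ := cut_fun hG hR
  set M : ℝ := 1 + M₁ + M₂ + M₃ + M₄ with hM
  have h1 := b1.1
  have h2 := b2.1
  have h3 := b3.1
  have h4 := b4.1
  let l : (ℝ × V3) →L[ℝ] (ℝ × ℝ × ℝ) :=
    (ContinuousLinearMap.fst ℝ ℝ V3).prod
      (((ContinuousLinearMap.fst ℝ ℝ (ℝ × ℝ)).comp (ContinuousLinearMap.snd ℝ ℝ V3)).prod
        (((ContinuousLinearMap.fst ℝ ℝ ℝ).comp (ContinuousLinearMap.snd ℝ ℝ (ℝ × ℝ))).comp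
          (ContinuousLinearMap.snd ℝ ℝ V3)))
  have hl : ‖l‖ ≤ 1 := by
    refine ContinuousLinearMap.opNorm_le_bound _ zero_le_one fun x => ?_
    rw [one_mul]
    have e : l x = (x.1, x.2.1, x.2.2.1) := rfl
    rw [e]
    simp only [Prod.norm_def]
    refine max_le (le_max_left _ _) (max_le ?_ ?_)
    · exact (le_max_left _ _).trans (le_max_right _ _)
    · exact ((le_max_left _ _).trans (le_max_right _ _)).trans (le_max_right _ _)
  have bF : Bd M (FF L' B' F') :=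
    ((b1.mono (by linarith)).comp_clm l hl).prodMk
      ((b2.mono (by linarith)).prodMk (b3.mono (by linarith)))
  have bG : Bd M (GG G') :=
    (bd_zero.mono (by linarith)).prodMk
      ((bd_zero.mono (by linarith)).prodMk (b4.mono (by linarith)))
  exact ⟨L', B', F', G', M, ⟨by linarith, bF.2.1, bG.2.1, bF.2.2.1, bG.2.2.1, bF.2.2.2.1,
    bG.2.2.2.1, bF.2.2.2.2, bG.2.2.2.2⟩, a1, a2, a3, a4, e1, e2, e3, e4⟩

end Pool.Agent.Lib.MP_28b8de_an.TT
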