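import Pool.Agent.Lib.MP_28b8de_an.T.TLcB

/-!
MP_28b8de_an, module TLcD.

The function D(t) = Bf(w,Y,X) - Bf(w,0,0) along local data.
PROOFS.  lc_Db: B_est transferred by lc_near; cf (fX Bf) m is continuous at w t₀ and nonzero there.
lc_Di: D is Lipschitz near t₀ (an_lip, lc_lip), w, Y are differentiable, X is differentiable a.e. with derivative α + u g (derivative of an integral of a bounded measurable function); at such t
D' = fderiv Bf (w,Y,X) (w', y', α + u g) - fderiv Bf (w,0,0) (w',0,0) = b (α + u g) + ψ with ψ := fderiv Bf (w,Y,X) (w',0,0) - fderiv Bf (w,0,0) (w',0,0) + fderiv Bf (w,Y,X) (0,1,0) y'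
(continuous in t near t₀).  |ψ| ≤ K(|X|^m + |Y|) by B_est and hy.  D is the integral of its derivative (Lipschitz; `AbsolutelyContinuousOnInterval.integral_deriv_eq_sub`).
Take δ so small that everything is valid on Ioo (t₀-δ) (t₀+δ).
lc_DL: Y ↦ Lf(w,Y) - Lf(w,0): C¹ in t with derivative fderiv Lf (w,Y) (w',0) - fderiv Lf (w,0) (w',0) + l y'.
-/

set_option linter.unusedSectionVars false

namespace Pool.Agent.Lib.MP_28b8de_an.TT

open Filter Topology Set MeasureTheory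
open Pool.Agent.Lib.MP_28b8de_an.PT (Adm Perf gron gron_back volterra kder ae_zero perf_inner stay)

variable {W : Type*} [NormedAddCommGroup W] [NormedSpace ℝ W] [FiniteDimensional ℝ W]
  {K a b t₀ : ℝ} {u : ℝ → ℝ} {w w' : ℝ → W} {Y y' X : ℝ → ℝ} {α g : W × ℝ × ℝ → ℝ}


private theorem TLcD_curve (h : Lc K u a b w w' Y y' X α g) {t : ℝ} (ht : t ∈ Ioo a b) :
    ContinuousAt (fun t => (w t, Y t, X t)) t :=
  (h.wd t ht).continuousAt.prodMk ((h.Yd t ht).continuousAt.prodMk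
    (h.Xc.continuousAt (Ioo_mem_nhds ht.1 ht.2)))

private theorem TLcD_cf {f : W × ℝ → ℝ} {v : W} (hf : AnalyticAt ℝ f (v, 0)) (m : ℕ) :
    ∀ᶠ v' in 𝓝 v, ContinuousAt (cf f m) v' := by
  have h0 : Continuous (fun v' : W => (v', (0 : ℝ))) := by fun_prop
  have h1 : ∀ᶠ z in 𝓝 (v, (0 : ℝ)), AnalyticAt ℝ f z := hf.eventually_analyticAt
  filter_upwards [(h0.tendsto v).eventually h1] with v' hv'
  have h3 : ContinuousAt (Dn^[m] f) ((fun v' : W => (v', (0 : ℝ))) v') :=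
    (Dn_iter_an hv' m).continuousAt
  exact (ContinuousAt.comp (f := fun v' : W => (v', (0 : ℝ))) h3 h0.continuousAt).div_const _

private theorem TLcD_bd {f : W → ℝ} {v : W} (hf : ContinuousAt f v) (hne : f v ≠ 0) :
    ∀ᶠ v' in 𝓝 v, |f v| / 2 < |f v'| ∧ |f v'| < |f v| + 1 := by
  have hc : 0 < |f v| := abs_pos.2 hne
  have h1 : Tendsto (fun v' => |f v'|) (𝓝 v) (𝓝 |f v|) := hf.abs
  exact h1.eventually (Ioo_mem_nhds (by linarith) (by linarith))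

private theorem TLcD_fst (v : W) : Tendsto (fun z : W × ℝ × ℝ => z.1) (𝓝 (v, 0, 0)) (𝓝 v) :=
  continuous_fst.tendsto (v, (0 : ℝ), (0 : ℝ))

private theorem TLcD_X1 (v : W) : ∀ᶠ z in 𝓝 (v, (0 : ℝ), (0 : ℝ)), |z.2.2| < 1 ∧ |z.2.1| < 1 := by
  have h1 : Continuous (fun z : W × ℝ × ℝ => |z.2.2|) := by fun_prop
  have h2 : Continuous (fun z : W × ℝ × ℝ => |z.2.1|) := by fun_prop
  have h3 := h1.tendsto (v, (0 : ℝ), (0 : ℝ))
  have h4 := h2.tendsto (v, (0 : ℝ), (0 : ℝ))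
  simp only [abs_zero] at h3 h4
  exact (h3.eventually (gt_mem_nhds one_pos)).and (h4.eventually (gt_mem_nhds one_pos))

private theorem TLcD_fd {E : Type*} [NormedAddCommGroup E] [NormedSpace ℝ E] {f : E → ℝ} {z : E}
    (hf : AnalyticAt ℝ f z) : ContinuousAt (fderiv ℝ f) z := hf.fderiv.continuousAt

theorem lc_Db (h : Lc K u a b w w' Y y' X α g) (h₀ : Lp a b w Y X α g t₀)
    {Bf : W × ℝ × ℝ → ℝ} (hB : AnalyticAt ℝ Bf (w t₀, 0, 0)) {m : ℕ} (hm : 1 ≤ m)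
    (ho : ∀ j < m, ∀ᶠ v in 𝓝 (w t₀), Dn^[j] (fX Bf) (v, 0) = 0)
    (hne : Dn^[m] (fX Bf) (w t₀, 0) ≠ 0) :
    ∃ K₁ c₁ δ : ℝ, 1 ≤ K₁ ∧ 0 < c₁ ∧ 0 < δ ∧ Ioo (t₀ - δ) (t₀ + δ) ⊆ Ioo a b ∧
      ContinuousOn (fun t => cf (fX Bf) m (w t)) (Ioo (t₀ - δ) (t₀ + δ)) ∧
      ContinuousOn (fun t => fderiv ℝ Bf (w t, Y t, X t) (0, 0, 1)) (Ioo (t₀ - δ) (t₀ + δ)) ∧
      ∀ t ∈ Ioo (t₀ - δ) (t₀ + δ), c₁ ≤ |cf (fX Bf) m (w t)| ∧ |cf (fX Bf) m (w t)| ≤ K₁ ∧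
        |Bf (w t, Y t, X t) - Bf (w t, 0, 0) - cf (fX Bf) m (w t) * X t ^ m|
          ≤ K₁ * (|X t| ^ (m + 1) + |Y t|) ∧
        |fderiv ℝ Bf (w t, Y t, X t) (0, 0, 1) - m * cf (fX Bf) m (w t) * X t ^ (m - 1)|
          ≤ K₁ * (|X t| ^ m + |Y t|) ∧
        |Bf (w t, Y t, X t) - Bf (w t, 0, 0)| ≤ K₁ * (|X t| ^ m + |Y t|) := by
  obtain ⟨K0, hK0, hest⟩ := B_est hB ho
  have hcf := TLcD_cf (fX_an hB) m
  have hne' : cf (fX Bf) m (w t₀) ≠ 0 :=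
    div_ne_zero hne (Nat.cast_ne_zero.2 (Nat.factorial_ne_zero m))
  have hbd := TLcD_bd hcf.self_of_nhds hne'
  have hc : 0 < |cf (fX Bf) m (w t₀)| := abs_pos.2 hne'
  obtain ⟨δ, hδ, hsub, hall⟩ := lc_near h h₀ (P := fun z => (_ ∧ _ ∧ _) ∧
    (ContinuousAt (cf (fX Bf) m) z.1 ∧ |cf (fX Bf) m (w t₀)| / 2 < |cf (fX Bf) m z.1| ∧
      |cf (fX Bf) m z.1| < |cf (fX Bf) m (w t₀)| + 1) ∧ AnalyticAt ℝ Bf z ∧
      (|z.2.2| < 1 ∧ |z.2.1| < 1))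
    (hest.and (((TLcD_fst (w t₀)).eventually (hcf.and hbd)).and
      (hB.eventually_analyticAt.and (TLcD_X1 (w t₀)))))
  refine ⟨|cf (fX Bf) m (w t₀)| + 1 + K0, |cf (fX Bf) m (w t₀)| / 2, δ, by linarith, by linarith,
    hδ, hsub, ?_, ?_, ?_⟩
  · intro t ht
    obtain ⟨_, ⟨h1, _⟩, _⟩ := hall t ht
    exact (ContinuousAt.comp (f := w) h1 (h.wd t (hsub ht)).continuousAt).continuousWithinAt
  · intro t ht
    obtain ⟨_, _, h1, _⟩ := hall t ht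
    have h2 : ContinuousAt (fun t => fderiv ℝ Bf (w t, Y t, X t)) t :=
      ContinuousAt.comp (f := fun t => (w t, Y t, X t)) (TLcD_fd h1) (TLcD_curve h (hsub ht))
    exact (h2.clm_apply continuousAt_const).continuousWithinAt
  · intro t ht
    obtain ⟨⟨e1, e2, _⟩, ⟨_, h1, h2⟩, _, h3, _⟩ := hall t ht
    have hX : 0 ≤ |X t| ^ m := pow_nonneg (abs_nonneg _) _
    have hX1 : 0 ≤ |X t| ^ (m + 1) := pow_nonneg (abs_nonneg _) _
    have hXX : |X t| ^ (m + 1) ≤ |X t| ^ m :=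
      pow_le_pow_of_le_one (abs_nonneg _) h3.le (Nat.le_succ m)
    have hY : 0 ≤ |Y t| := abs_nonneg _
    refine ⟨h1.le, by linarith, ?_, ?_, ?_⟩
    · refine e1.trans (mul_le_mul_of_nonneg_right (by linarith) (by positivity))
    · refine e2.trans (mul_le_mul_of_nonneg_right (by linarith) (by positivity))
    · have e3 : |cf (fX Bf) m (w t) * X t ^ m| ≤ (|cf (fX Bf) m (w t₀)| + 1) * |X t| ^ m := by
        rw [abs_mul, abs_pow]
        exact mul_le_mul_of_nonneg_right h2.le hX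
      have e4 : |Bf (w t, Y t, X t) - Bf (w t, 0, 0)| ≤
          |Bf (w t, Y t, X t) - Bf (w t, 0, 0) - cf (fX Bf) m (w t) * X t ^ m| +
            |cf (fX Bf) m (w t) * X t ^ m| := by
        have := abs_add_le (Bf (w t, Y t, X t) - Bf (w t, 0, 0) - cf (fX Bf) m (w t) * X t ^ m)
          (cf (fX Bf) m (w t) * X t ^ m)
        simpa using this
      have e5 : K0 * (|X t| ^ (m + 1) + |Y t|) ≤ K0 * (|X t| ^ m + |Y t|) :=
        mul_le_mul_of_nonneg_left (by linarith) hK0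
      have e6 : 0 ≤ (|cf (fX Bf) m (w t₀)| + 1) * |Y t| := by positivity
      have e1' : |Bf (w t, Y t, X t) - Bf (w t, 0, 0) - cf (fX Bf) m (w t) * X t ^ m| ≤
          K0 * (|X t| ^ (m + 1) + |Y t|) := e1
      nlinarith

private theorem TLcD_nhds {P : ℝ → Prop} (h : ∀ᶠ t in 𝓝 t₀, P t) :
    ∃ δ > 0, ∀ t ∈ Ioo (t₀ - δ) (t₀ + δ), P t := by
  obtain ⟨δ, hδ, hs⟩ := Metric.eventually_nhds_iff_ball.1 h
  refine ⟨δ, hδ, fun t ht => hs t ?_⟩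
  rw [Real.ball_eq_Ioo]
  exact ht

theorem lc_Di (h : Lc K u a b w w' Y y' X α g) (h₀ : Lp a b w Y X α g t₀)
    {Bf : W × ℝ × ℝ → ℝ} (hB : AnalyticAt ℝ Bf (w t₀, 0, 0)) {m : ℕ}
    (ho : ∀ j < m, ∀ᶠ v in 𝓝 (w t₀), Dn^[j] (fX Bf) (v, 0) = 0)
    {K' : ℝ} (hy : ∀ᶠ t in 𝓝 t₀, |y' t| ≤ K' * (|X t| ^ m + |Y t|)) :
    ∃ (K₁ δ : ℝ) (ψ : ℝ → ℝ), 1 ≤ K₁ ∧ 0 < δ ∧ Ioo (t₀ - δ) (t₀ + δ) ⊆ Ioo a b ∧
      ContinuousOn ψ (Ioo (t₀ - δ) (t₀ + δ)) ∧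
      (∀ t ∈ Ioo (t₀ - δ) (t₀ + δ), |ψ t| ≤ K₁ * (|X t| ^ m + |Y t|)) ∧
      ∀ s ∈ Ioo (t₀ - δ) (t₀ + δ), ∀ t ∈ Ioo (t₀ - δ) (t₀ + δ),
        (Bf (w t, Y t, X t) - Bf (w t, 0, 0)) - (Bf (w s, Y s, X s) - Bf (w s, 0, 0)) =
          ∫ r in s..t, (fderiv ℝ Bf (w r, Y r, X r) (0, 0, 1)
            * (α (w r, Y r, X r) + u r * g (w r, Y r, X r)) + ψ r) := by
  obtain ⟨K0, hK0, hest⟩ := B_est hB ho
  obtain ⟨KL, δL, hKL, hδL, hsubL, hlip⟩ := lc_lip h h₀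
  obtain ⟨KB, hKB, ρ, hρ, hBl⟩ := an_lip hB
  obtain ⟨δy, hδy, hyy⟩ := TLcD_nhds hy
  have hpr : Tendsto (fun z : W × ℝ × ℝ => (z.1, (0 : ℝ), (0 : ℝ))) (𝓝 (w t₀, 0, 0))
      (𝓝 (w t₀, 0, 0)) := by
    have h0 : Continuous (fun z : W × ℝ × ℝ => (z.1, (0 : ℝ), (0 : ℝ))) := by fun_prop
    exact h0.tendsto (w t₀, 0, 0)
  have hcd : ∀ᶠ z in 𝓝 (w t₀, (0 : ℝ), (0 : ℝ)),
      ‖fderiv ℝ Bf z‖ < ‖fderiv ℝ Bf (w t₀, 0, 0)‖ + 1 :=
    (TLcD_fd hB).norm.eventually (gt_mem_nhds (by linarith))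
  obtain ⟨δ1, hδ1, hsub1, hall⟩ := lc_near h h₀ (P := fun z => (_ ∧ _ ∧ _) ∧
    ((AnalyticAt ℝ Bf z ∧ z ∈ Metric.ball (w t₀, (0 : ℝ), (0 : ℝ)) ρ) ∧
      (AnalyticAt ℝ Bf (z.1, 0, 0) ∧ (z.1, (0 : ℝ), (0 : ℝ)) ∈
        Metric.ball (w t₀, (0 : ℝ), (0 : ℝ)) ρ)) ∧
      (‖fderiv ℝ Bf z‖ < ‖fderiv ℝ Bf (w t₀, 0, 0)‖ + 1 ∧ AnalyticAt ℝ α z ∧ AnalyticAt ℝ g z))
    (hest.and (((hB.eventually_analyticAt.and (Metric.ball_mem_nhds _ hρ)).and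
      (hpr.eventually (hB.eventually_analyticAt.and (Metric.ball_mem_nhds _ hρ)))).and
      (hcd.and (h₀.αa.eventually_analyticAt.and h₀.ga.eventually_analyticAt))))
  -- the final radius
  obtain ⟨δ, hδ, hd1, hdL, hdy⟩ : ∃ δ : ℝ, 0 < δ ∧ δ < δ1 ∧ δ < δL ∧ δ < δy := by
    refine ⟨min δ1 (min δL δy) / 2, by positivity, ?_, ?_, ?_⟩
    · have : min δ1 (min δL δy) ≤ δ1 := min_le_left _ _
      linarith
    · have : min δ1 (min δL δy) ≤ δL := (min_le_right _ _).trans (min_le_left _ _)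
      linarith
    · have : min δ1 (min δL δy) ≤ δy := (min_le_right _ _).trans (min_le_right _ _)
      linarith
  have hc1 : Icc (t₀ - δ) (t₀ + δ) ⊆ Ioo (t₀ - δ1) (t₀ + δ1) := fun t ht =>
    ⟨by linarith [ht.1], by linarith [ht.2]⟩
  have hcL : Icc (t₀ - δ) (t₀ + δ) ⊆ Ioo (t₀ - δL) (t₀ + δL) := fun t ht =>
    ⟨by linarith [ht.1], by linarith [ht.2]⟩
  have hcy : Icc (t₀ - δ) (t₀ + δ) ⊆ Ioo (t₀ - δy) (t₀ + δy) := fun t ht =>
    ⟨by linarith [ht.1], by linarith [ht.2]⟩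
  have hcab : Icc (t₀ - δ) (t₀ + δ) ⊆ Ioo a b := hc1.trans hsub1
  have hio : Ioo (t₀ - δ) (t₀ + δ) ⊆ Icc (t₀ - δ) (t₀ + δ) := Ioo_subset_Icc_self
  -- continuity along the curve
  have hcomp : ∀ {f : W × ℝ × ℝ → ℝ} {t : ℝ},
      t ∈ Icc (t₀ - δ) (t₀ + δ) → ContinuousAt f (w t, Y t, X t) →
      ContinuousAt (fun t => f (w t, Y t, X t)) t := by
    intro f t ht hf
    exact ContinuousAt.comp (f := fun t => (w t, Y t, X t)) hf (TLcD_curve h (hcab ht))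
  have hw0 : ∀ t ∈ Icc (t₀ - δ) (t₀ + δ), ContinuousAt (fun t => (w t, (0 : ℝ), (0 : ℝ))) t :=
    fun t ht => (h.wd t (hcab ht)).continuousAt.prodMk continuousAt_const
  have hw'c : ∀ t ∈ Icc (t₀ - δ) (t₀ + δ), ContinuousAt w' t := fun t ht =>
    h.wc.continuousAt (Ioo_mem_nhds (hcab ht).1 (hcab ht).2)
  have hy'c : ∀ t ∈ Icc (t₀ - δ) (t₀ + δ), ContinuousAt y' t := fun t ht =>
    h.Yc.continuousAt (Ioo_mem_nhds (hcab ht).1 (hcab ht).2)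
  obtain ⟨ψ, hψ⟩ : ∃ ψ : ℝ → ℝ, ψ = fun r => fderiv ℝ Bf (w r, Y r, X r) (w' r, 0, 0) -
    fderiv ℝ Bf (w r, 0, 0) (w' r, 0, 0) + fderiv ℝ Bf (w r, Y r, X r) (0, y' r, 0) := ⟨_, rfl⟩
  -- the derivative of `X`
  have hξ : IntervalIntegrable (fun r => α (w r, Y r, X r) + u r * g (w r, Y r, X r)) volume
      (t₀ - δ) (t₀ + δ) := by
    have hle : t₀ - δ ≤ t₀ + δ := by linarith
    have h1 : IntervalIntegrable (fun r => α (w r, Y r, X r)) volume (t₀ - δ) (t₀ + δ) := by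
      apply ContinuousOn.intervalIntegrable
      rw [uIcc_of_le hle]
      intro t ht
      exact (hcomp ht (hall t (hc1 ht)).2.2.2.1.continuousAt).continuousWithinAt
    have h2 : IntervalIntegrable (fun r => g (w r, Y r, X r)) volume (t₀ - δ) (t₀ + δ) := by
      apply ContinuousOn.intervalIntegrable
      rw [uIcc_of_le hle]
      intro t ht
      exact (hcomp ht (hall t (hc1 ht)).2.2.2.2.continuousAt).continuousWithinAt
    refine h1.add ?_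
    rw [intervalIntegrable_iff] at h2 ⊢
    refine h2.bdd_mul (c := 1) h.adm.1.aestronglyMeasurable ?_
    exact Eventually.of_forall fun x => by simpa using h.adm.2 x
  have hXd : ∀ᵐ t : ℝ, t ∈ Ioo (t₀ - δ) (t₀ + δ) →
      HasDerivAt X (α (w t, Y t, X t) + u t * g (w t, Y t, X t)) t := by
    filter_upwards [hξ.ae_hasDerivAt_integral] with t ht hti
    have htI : t ∈ uIcc (t₀ - δ) (t₀ + δ) := by
      rw [uIcc_of_le (by linarith)]
      exact hio hti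
    have h1 := (ht htI (t₀ - δ) left_mem_uIcc).const_add (X (t₀ - δ))
    refine h1.congr_of_eventuallyEq ?_
    filter_upwards [Ioo_mem_nhds hti.1 hti.2] with x hx
    have h2 := h.Xeq (t₀ - δ) (hcab ⟨le_rfl, by linarith⟩) x (hcab (hio hx))
    linarith
  -- the function is Lipschitz
  obtain ⟨D, hD⟩ : ∃ D : ℝ → ℝ, D = fun t => Bf (w t, Y t, X t) - Bf (w t, 0, 0) := ⟨_, rfl⟩
  have hDl : LipschitzOnWith (Real.toNNReal (2 * (KB * KL))) D (Icc (t₀ - δ) (t₀ + δ)) := by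
    have hKK : 0 ≤ KB * KL := mul_nonneg hKB (by linarith)
    refine LipschitzOnWith.of_dist_le_mul fun s hs t ht => ?_
    rw [dist_eq_norm, Real.dist_eq, Real.coe_toNNReal _ (by linarith), hD]
    obtain ⟨l1, l2, l3⟩ := hlip s (hcL hs) t (hcL ht)
    have hs1 := (hall s (hc1 hs)).2.1
    have ht1 := (hall t (hc1 ht)).2.1
    have b1 := hBl _ hs1.1.2 _ ht1.1.2
    have b2 := hBl _ hs1.2.2 _ ht1.2.2
    have n1 : ‖((w s, Y s, X s) : W × ℝ × ℝ) - (w t, Y t, X t)‖ ≤ KL * |s - t| := by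
      rw [Prod.mk_sub_mk, Prod.mk_sub_mk, Prod.norm_def, Prod.norm_def]
      exact max_le l1 (max_le l2 l3)
    have n2 : ‖((w s, (0 : ℝ), (0 : ℝ)) : W × ℝ × ℝ) - (w t, 0, 0)‖ ≤ KL * |s - t| := by
      have h0 : (0 : ℝ) ≤ KL * |s - t| := (norm_nonneg _).trans l1
      rw [Prod.mk_sub_mk, Prod.mk_sub_mk, Prod.norm_def, Prod.norm_def]
      simp only [sub_zero, norm_zero]
      exact max_le l1 (max_le h0 h0)
    have b1' := b1.trans (mul_le_mul_of_nonneg_left n1 hKB)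
    have b2' := b2.trans (mul_le_mul_of_nonneg_left n2 hKB)
    have e1 : (Bf (w s, Y s, X s) - Bf (w s, 0, 0)) - (Bf (w t, Y t, X t) - Bf (w t, 0, 0)) =
        (Bf (w s, Y s, X s) - Bf (w t, Y t, X t)) - (Bf (w s, 0, 0) - Bf (w t, 0, 0)) := by ring
    rw [e1]
    refine (norm_sub_le _ _).trans ?_
    have e2 : 2 * (KB * KL) * |s - t| = KB * (KL * |s - t|) + KB * (KL * |s - t|) := by ring
    rw [e2]
    exact add_le_add b1' b2'
  -- the derivative of the function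
  have hDd : ∀ᵐ t : ℝ, t ∈ Ioo (t₀ - δ) (t₀ + δ) →
      HasDerivAt D (fderiv ℝ Bf (w t, Y t, X t) (0, 0, 1)
            * (α (w t, Y t, X t) + u t * g (w t, Y t, X t)) + ψ t) t := by
    filter_upwards [hXd] with t ht hti
    have hX := ht hti
    have htc := hio hti
    have hw := h.wd t (hcab htc)
    have hY := h.Yd t (hcab htc)
    obtain ⟨_, ⟨⟨a1, _⟩, a2, _⟩, _⟩ := hall t (hc1 htc)
    have d1 : HasDerivAt (fun t => Bf (w t, Y t, X t)) (fderiv ℝ Bf (w t, Y t, X t)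
        (w' t, y' t, α (w t, Y t, X t) + u t * g (w t, Y t, X t))) t :=
      (a1.differentiableAt.hasFDerivAt).comp_hasDerivAt t (hw.prodMk (hY.prodMk hX))
    have d2 : HasDerivAt (fun t => Bf (w t, (0 : ℝ), (0 : ℝ))) (fderiv ℝ Bf (w t, 0, 0)
        (w' t, 0, 0)) t :=
      (a2.differentiableAt.hasFDerivAt).comp_hasDerivAt t
        (hw.prodMk ((hasDerivAt_const t (0 : ℝ)).prodMk (hasDerivAt_const t (0 : ℝ))))
    have d3 := d1.sub d2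
    have e1 : ((w' t, y' t, α (w t, Y t, X t) + u t * g (w t, Y t, X t)) : W × ℝ × ℝ) =
        (w' t, 0, 0) + (0, y' t, 0) +
          (α (w t, Y t, X t) + u t * g (w t, Y t, X t)) • (0, 0, 1) := by
      ext <;> simp
    have e2 : fderiv ℝ Bf (w t, Y t, X t)
        (w' t, y' t, α (w t, Y t, X t) + u t * g (w t, Y t, X t)) -
        fderiv ℝ Bf (w t, 0, 0) (w' t, 0, 0) = fderiv ℝ Bf (w t, Y t, X t) (0, 0, 1)
            * (α (w t, Y t, X t) + u t * g (w t, Y t, X t)) + ψ t := by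
      rw [e1, map_add, map_add, map_smul, smul_eq_mul, hψ]
      ring
    rw [e2] at d3
    rw [hD]
    exact d3
  refine ⟨1 + K0 * K + (‖fderiv ℝ Bf (w t₀, 0, 0)‖ + 1) * |K'|, δ, ψ, ?_, hδ, hio.trans hcab,
    ?_, ?_, ?_⟩
  · have h1 : 0 ≤ K0 * K := mul_nonneg hK0 (by linarith [h.K1])
    have h2 : 0 ≤ (‖fderiv ℝ Bf (w t₀, 0, 0)‖ + 1) * |K'| := by positivity
    linarith
  · intro t ht
    have htc := hio ht
    obtain ⟨_, ⟨⟨a1, _⟩, a2, _⟩, _⟩ := hall t (hc1 htc)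
    have c1 : ContinuousAt (fun t => fderiv ℝ Bf (w t, Y t, X t)) t :=
      ContinuousAt.comp (f := fun t => (w t, Y t, X t)) (TLcD_fd a1) (TLcD_curve h (hcab htc))
    have c2 : ContinuousAt (fun t => fderiv ℝ Bf (w t, (0 : ℝ), (0 : ℝ))) t :=
      ContinuousAt.comp (f := fun t => (w t, (0 : ℝ), (0 : ℝ))) (TLcD_fd a2) (hw0 t htc)
    have c3 : ContinuousAt (fun t => ((w' t, 0, 0) : W × ℝ × ℝ)) t :=
      (hw'c t htc).prodMk continuousAt_const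
    have c4 : ContinuousAt (fun t => ((0, y' t, 0) : W × ℝ × ℝ)) t :=
      continuousAt_const.prodMk ((hy'c t htc).prodMk continuousAt_const)
    rw [hψ]
    exact (((c1.clm_apply c3).sub (c2.clm_apply c3)).add (c1.clm_apply c4)).continuousWithinAt
  · intro t ht
    have htc := hio ht
    obtain ⟨⟨_, _, e3⟩, _, n1, _⟩ := hall t (hc1 htc)
    have hS : 0 ≤ |X t| ^ m + |Y t| := by positivity
    have f1 : |fderiv ℝ Bf (w t, Y t, X t) (w' t, 0, 0) - fderiv ℝ Bf (w t, 0, 0) (w' t, 0, 0)| ≤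
        K0 * (|X t| ^ m + |Y t|) * ‖w' t‖ := e3 (w' t)
    have f2 : K0 * (|X t| ^ m + |Y t|) * ‖w' t‖ ≤ K0 * (|X t| ^ m + |Y t|) * K :=
      mul_le_mul_of_nonneg_left (h.wb t (hcab htc)) (mul_nonneg hK0 hS)
    have f3 : |fderiv ℝ Bf (w t, Y t, X t) (0, y' t, 0)| ≤
        (‖fderiv ℝ Bf (w t₀, 0, 0)‖ + 1) * (|K'| * (|X t| ^ m + |Y t|)) := by
      have g1 : ‖((0, y' t, 0) : W × ℝ × ℝ)‖ ≤ |K'| * (|X t| ^ m + |Y t|) := by
        have g2 : |y' t| ≤ |K'| * (|X t| ^ m + |Y t|) :=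
          (hyy t (hcy htc)).trans (mul_le_mul_of_nonneg_right (le_abs_self _) hS)
        have g3 : 0 ≤ |K'| * (|X t| ^ m + |Y t|) := by positivity
        rw [Prod.norm_def, Prod.norm_def]
        simp only [norm_zero]
        exact max_le g3 (max_le g2 g3)
      have g2 := (fderiv ℝ Bf (w t, Y t, X t)).le_opNorm ((0, y' t, 0) : W × ℝ × ℝ)
      rw [Real.norm_eq_abs] at g2
      exact g2.trans (mul_le_mul n1.le g1 (norm_nonneg _) (by positivity))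
    rw [hψ]
    refine (abs_add_le _ _).trans ?_
    have e4 : (1 + K0 * K + (‖fderiv ℝ Bf (w t₀, 0, 0)‖ + 1) * |K'|) * (|X t| ^ m + |Y t|) =
        (|X t| ^ m + |Y t|) + K0 * (|X t| ^ m + |Y t|) * K +
        (‖fderiv ℝ Bf (w t₀, 0, 0)‖ + 1) * (|K'| * (|X t| ^ m + |Y t|)) := by ring
    rw [e4]
    linarith [f1.trans f2]
  · intro s hs t ht
    have hsub : uIcc s t ⊆ Ioo (t₀ - δ) (t₀ + δ) := by
      intro x hx
      exact ⟨(lt_min hs.1 ht.1).trans_le hx.1, hx.2.trans_lt (max_lt hs.2 ht.2)⟩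
    have hac := (hDl.mono (hsub.trans hio)).absolutelyContinuousOnInterval
    have h1 := hac.integral_deriv_eq_sub
    have h2 : D t - D s = ∫ r in s..t, (fderiv ℝ Bf (w r, Y r, X r) (0, 0, 1)
            * (α (w r, Y r, X r) + u r * g (w r, Y r, X r)) + ψ r) := by
      rw [← h1]
      refine intervalIntegral.integral_congr_ae ?_
      filter_upwards [hDd] with x hx hxi
      exact (hx (hsub (uIoc_subset_uIcc hxi))).deriv
    rw [hD] at h2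
    exact h2

theorem lc_DL (h : Lc K u a b w w' Y y' X α g) (h₀ : Lp a b w Y X α g t₀)
    {Lf : W × ℝ → ℝ} (hL : AnalyticAt ℝ Lf (w t₀, 0)) {m : ℕ} (hm : 1 ≤ m)
    (ho : ∀ j < m, ∀ᶠ v in 𝓝 (w t₀), Dn^[j] (fL Lf) (v, 0) = 0)
    (hne : Dn^[m] (fL Lf) (w t₀, 0) ≠ 0) :
    ∃ (K₁ c₁ δ : ℝ) (ψ : ℝ → ℝ), 1 ≤ K₁ ∧ 0 < c₁ ∧ 0 < δ ∧ Ioo (t₀ - δ) (t₀ + δ) ⊆ Ioo a b ∧
      ContinuousOn (fun t => cf (fL Lf) m (w t)) (Ioo (t₀ - δ) (t₀ + δ)) ∧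
      ContinuousOn (fun t => fderiv ℝ Lf (w t, Y t) (0, 1)) (Ioo (t₀ - δ) (t₀ + δ)) ∧
      ContinuousOn ψ (Ioo (t₀ - δ) (t₀ + δ)) ∧
      (∀ t ∈ Ioo (t₀ - δ) (t₀ + δ), c₁ ≤ |cf (fL Lf) m (w t)| ∧ |cf (fL Lf) m (w t)| ≤ K₁ ∧
        |ψ t| ≤ K₁ * |Y t| ^ m ∧
        |Lf (w t, Y t) - Lf (w t, 0) - cf (fL Lf) m (w t) * Y t ^ m| ≤ K₁ * |Y t| ^ (m + 1) ∧
        |fderiv ℝ Lf (w t, Y t) (0, 1) - m * cf (fL Lf) m (w t) * Y t ^ (m - 1)|
          ≤ K₁ * |Y t| ^ m) ∧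
      ∀ s ∈ Ioo (t₀ - δ) (t₀ + δ), ∀ t ∈ Ioo (t₀ - δ) (t₀ + δ),
        (Lf (w t, Y t) - Lf (w t, 0)) - (Lf (w s, Y s) - Lf (w s, 0)) =
          ∫ r in s..t, (fderiv ℝ Lf (w r, Y r) (0, 1) * y' r + ψ r) := by
  obtain ⟨K0, hK0, hest⟩ := L_est hL ho
  have hcf := TLcD_cf (fL_an hL) m
  have hne' : cf (fL Lf) m (w t₀) ≠ 0 :=
    div_ne_zero hne (Nat.cast_ne_zero.2 (Nat.factorial_ne_zero m))
  have hbd := TLcD_bd hcf.self_of_nhds hne'
  have hc : 0 < |cf (fL Lf) m (w t₀)| := abs_pos.2 hne'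
  have hpr : Tendsto (fun z : W × ℝ × ℝ => (z.1, z.2.1)) (𝓝 (w t₀, 0, 0)) (𝓝 (w t₀, 0)) := by
    have h0 : Continuous (fun z : W × ℝ × ℝ => (z.1, z.2.1)) := by fun_prop
    exact h0.tendsto (w t₀, 0, 0)
  have hpr0 : Tendsto (fun z : W × ℝ × ℝ => (z.1, (0 : ℝ))) (𝓝 (w t₀, 0, 0)) (𝓝 (w t₀, 0)) := by
    have h0 : Continuous (fun z : W × ℝ × ℝ => (z.1, (0 : ℝ))) := by fun_prop
    exact h0.tendsto (w t₀, 0, 0)
  obtain ⟨δ, hδ, hsub, hall⟩ := lc_near h h₀ (P := fun z => (_ ∧ _ ∧ _) ∧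
    (ContinuousAt (cf (fL Lf) m) z.1 ∧ |cf (fL Lf) m (w t₀)| / 2 < |cf (fL Lf) m z.1| ∧
      |cf (fL Lf) m z.1| < |cf (fL Lf) m (w t₀)| + 1) ∧ AnalyticAt ℝ Lf (z.1, z.2.1) ∧
      AnalyticAt ℝ Lf (z.1, (0 : ℝ)))
    ((hpr.eventually hest).and (((TLcD_fst (w t₀)).eventually (hcf.and hbd)).and
      ((hpr.eventually hL.eventually_analyticAt).and (hpr0.eventually hL.eventually_analyticAt))))
  have hY : ∀ t ∈ Ioo (t₀ - δ) (t₀ + δ), ContinuousAt (fun t => (w t, Y t)) t := fun t ht =>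
    (h.wd t (hsub ht)).continuousAt.prodMk (h.Yd t (hsub ht)).continuousAt
  have hY0 : ∀ t ∈ Ioo (t₀ - δ) (t₀ + δ), ContinuousAt (fun t => (w t, (0 : ℝ))) t := fun t ht =>
    (h.wd t (hsub ht)).continuousAt.prodMk continuousAt_const
  have hw'c : ∀ t ∈ Ioo (t₀ - δ) (t₀ + δ), ContinuousAt w' t := fun t ht =>
    h.wc.continuousAt (Ioo_mem_nhds (hsub ht).1 (hsub ht).2)
  have hy'c : ∀ t ∈ Ioo (t₀ - δ) (t₀ + δ), ContinuousAt y' t := fun t ht =>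
    h.Yc.continuousAt (Ioo_mem_nhds (hsub ht).1 (hsub ht).2)
  obtain ⟨ψ, hψ⟩ : ∃ ψ : ℝ → ℝ, ψ = fun r => fderiv ℝ Lf (w r, Y r) (w' r, 0) -
    fderiv ℝ Lf (w r, 0) (w' r, 0) := ⟨_, rfl⟩
  have c1 : ∀ t ∈ Ioo (t₀ - δ) (t₀ + δ), ContinuousAt (fun t => fderiv ℝ Lf (w t, Y t)) t := by
    intro t ht
    obtain ⟨_, _, a1, _⟩ := hall t ht
    exact ContinuousAt.comp (f := fun t => (w t, Y t)) (TLcD_fd a1) (hY t ht)
  have c2 : ∀ t ∈ Ioo (t₀ - δ) (t₀ + δ),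
      ContinuousAt (fun t => fderiv ℝ Lf (w t, (0 : ℝ))) t := by
    intro t ht
    obtain ⟨_, _, _, a1⟩ := hall t ht
    exact ContinuousAt.comp (f := fun t => (w t, (0 : ℝ))) (TLcD_fd a1) (hY0 t ht)
  have hψc : ContinuousOn ψ (Ioo (t₀ - δ) (t₀ + δ)) := by
    intro t ht
    have c3 : ContinuousAt (fun t => ((w' t, 0) : W × ℝ)) t :=
      (hw'c t ht).prodMk continuousAt_const
    rw [hψ]
    exact (((c1 t ht).clm_apply c3).sub ((c2 t ht).clm_apply c3)).continuousWithinAt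
  have hlc : ContinuousOn (fun t => fderiv ℝ Lf (w t, Y t) (0, 1)) (Ioo (t₀ - δ) (t₀ + δ)) := by
    intro t ht
    exact ((c1 t ht).clm_apply continuousAt_const).continuousWithinAt
  refine ⟨|cf (fL Lf) m (w t₀)| + 1 + K0 + K0 * K, |cf (fL Lf) m (w t₀)| / 2, δ, ψ, ?_,
    by linarith, hδ, hsub, ?_, hlc, hψc, ?_, ?_⟩
  · have h1 : 0 ≤ K0 * K := mul_nonneg hK0 (by linarith [h.K1])
    linarith
  · intro t ht
    obtain ⟨_, ⟨h1, _⟩, _⟩ := hall t ht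
    exact (ContinuousAt.comp (f := w) h1 (h.wd t (hsub ht)).continuousAt).continuousWithinAt
  · intro t ht
    obtain ⟨⟨e1, e2, e3⟩, ⟨_, h1, h2⟩, _⟩ := hall t ht
    have hKK : 0 ≤ K0 * K := mul_nonneg hK0 (by linarith [h.K1])
    have hYm : 0 ≤ |Y t| ^ m := by positivity
    have hYm1 : 0 ≤ |Y t| ^ (m + 1) := by positivity
    refine ⟨h1.le, by linarith, ?_, ?_, ?_⟩
    · have f1 : |fderiv ℝ Lf (w t, Y t) (w' t, 0) - fderiv ℝ Lf (w t, 0) (w' t, 0)| ≤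
          K0 * |Y t| ^ m * ‖w' t‖ := e3 (w' t)
      have f2 : K0 * |Y t| ^ m * ‖w' t‖ ≤ K0 * |Y t| ^ m * K :=
        mul_le_mul_of_nonneg_left (h.wb t (hsub ht)) (mul_nonneg hK0 hYm)
      rw [hψ]
      refine f1.trans (f2.trans ?_)
      nlinarith [mul_nonneg hc.le hYm, mul_nonneg hK0 hYm]
    · exact e1.trans (mul_le_mul_of_nonneg_right (by linarith) hYm1)
    · exact e2.trans (mul_le_mul_of_nonneg_right (by linarith) hYm)
  · intro s hs t ht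
    have hsub' : uIcc s t ⊆ Ioo (t₀ - δ) (t₀ + δ) := by
      intro x hx
      exact ⟨(lt_min hs.1 ht.1).trans_le hx.1, hx.2.trans_lt (max_lt hs.2 ht.2)⟩
    have hd : ∀ x ∈ uIcc s t, HasDerivAt (fun t => Lf (w t, Y t) - Lf (w t, 0))
        (fderiv ℝ Lf (w x, Y x) (0, 1) * y' x + ψ x) x := by
      intro x hx
      have hxi := hsub' hx
      obtain ⟨_, _, a1, a2⟩ := hall x hxi
      have hw := h.wd x (hsub hxi)
      have hYd := h.Yd x (hsub hxi)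
      have d1 : HasDerivAt (fun t => Lf (w t, Y t)) (fderiv ℝ Lf (w x, Y x) (w' x, y' x)) x :=
        (a1.differentiableAt.hasFDerivAt).comp_hasDerivAt x (hw.prodMk hYd)
      have d2 : HasDerivAt (fun t => Lf (w t, (0 : ℝ))) (fderiv ℝ Lf (w x, 0) (w' x, 0)) x :=
        (a2.differentiableAt.hasFDerivAt).comp_hasDerivAt x
          (hw.prodMk (hasDerivAt_const x (0 : ℝ)))
      have d3 := d1.sub d2
      have e1 : ((w' x, y' x) : W × ℝ) = (w' x, 0) + y' x • (0, 1) := by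
        ext <;> simp
      have e2 : fderiv ℝ Lf (w x, Y x) (w' x, y' x) - fderiv ℝ Lf (w x, 0) (w' x, 0) =
          fderiv ℝ Lf (w x, Y x) (0, 1) * y' x + ψ x := by
        rw [e1, map_add, map_smul, smul_eq_mul, hψ]
        ring
      rw [e2] at d3
      exact d3
    have hi : IntervalIntegrable (fun x => fderiv ℝ Lf (w x, Y x) (0, 1) * y' x + ψ x) volume
        s t := by
      apply ContinuousOn.intervalIntegrable
      refine ContinuousOn.add (ContinuousOn.mul (hlc.mono hsub') ?_) (hψc.mono hsub')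
      intro x hx
      exact (hy'c x (hsub' hx)).continuousWithinAt
    exact (intervalIntegral.integral_eq_sub_of_hasDerivAt hd hi).symm

end Pool.Agent.Lib.MP_28b8de_an.TT
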