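import Pool.Agent.Lib.MP_28b8de_an.T.TLcR
import Pool.Agent.Lib.MP_28b8de_an.T.TLcD
import Pool.Agent.Lib.MP_28b8de_an.T.TGapOne

/-!
MP_28b8de_an, module TLc1.

Gap lemma 1 for local data.
PROOF.  lc_rl, lc_Db, lc_Di give constants; take a common K' (large) and c' (small, also c' ≤ |pp t| and |pp t| ≤ K' near t₀) and the δ of gap_one for (K',c',m).  For s < s' near t₀: gap_one with g := g(w,Y,X), v := -(α/g),
p := pp, D t := Bf (w t,Y t,X t) - Bf (w t,0,0) (zero at s since X s = Y s = 0; g (u - v) = α + u g), b t := fderiv Bf (w,Y,X) (0,0,1), e t := cf (fX Bf) m (w t), ψ.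
|Y t| = |∫_s^t y'| ≤ K' ∫ (|X|^m + |Y|).
-/

set_option linter.unusedSectionVars false

namespace Pool.Agent.Lib.MP_28b8de_an.TT

open Filter Topology Set MeasureTheory
open Pool.Agent.Lib.MP_28b8de_an.PT (Adm Perf gron gron_back volterra kder ae_zero perf_inner stay)

variable {W : Type*} [NormedAddCommGroup W] [NormedSpace ℝ W] [FiniteDimensional ℝ W]
  {K a b t₀ : ℝ} {u : ℝ → ℝ} {w w' : ℝ → W} {Y y' X : ℝ → ℝ} {α g : W × ℝ × ℝ → ℝ}


theorem lc_one (h : Lc K u a b w w' Y y' X α g) (h₀ : Lp a b w Y X α g t₀)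
    (hu : |α (w t₀, 0, 0)| < |g (w t₀, 0, 0)|) {ϕ n : ℝ → ℝ} (hq : Lq K u a b w Y X g ϕ n)
    {Bf : W × ℝ × ℝ → ℝ} (hB : AnalyticAt ℝ Bf (w t₀, 0, 0)) {m : ℕ} (hm : 2 ≤ m)
    (ho : ∀ j < m, ∀ᶠ v in 𝓝 (w t₀), Dn^[j] (fX Bf) (v, 0) = 0)
    (hne : Dn^[m] (fX Bf) (w t₀, 0) ≠ 0) {pp : ℝ → ℝ}
    (hpl : ∀ s ∈ Ioo a b, ∀ t ∈ Ioo a b, |pp s - pp t| ≤ K * |s - t|) (hp0 : pp t₀ ≠ 0)
    (hn : ∀ t ∈ Ioo a b, |n t + pp t * fderiv ℝ Bf (w t, Y t, X t) (0, 0, 1)| ≤ K * |ϕ t|)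
    {K' : ℝ} (hy : ∀ᶠ t in 𝓝 t₀, |y' t| ≤ K' * (|X t| ^ m + |Y t|)) :
    ∃ δ > 0, ∀ s s' : ℝ, s < s' → |s - t₀| < δ → |s' - t₀| < δ → X s = 0 → Y s = 0 → ϕ s = 0 →
      X s' = 0 → ϕ s' = 0 → ∀ t ∈ Icc s s', X t = 0 ∧ Y t = 0 := by
  obtain ⟨K₀, c₀, δ₀, hK₀, hc₀, hδ₀, hR⟩ := lc_rl h h₀ hu hq
  obtain ⟨K₁, c₁, δ₁, hK₁, hc₁, hδ₁, hs₁, hec, hbc, hD⟩ :=
    lc_Db h h₀ hB (by omega : 1 ≤ m) ho hne
  obtain ⟨K₂, δ₂, ψ, hK₂, hδ₂, hs₂, hψc, hψb, hDi⟩ := lc_Di h h₀ hB ho hy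
  obtain ⟨δ₃, hδ₃, hy₃⟩ := Metric.eventually_nhds_iff.1 hy
  have hp : 0 < |pp t₀| := abs_pos.2 hp0
  have hK1 : 1 ≤ K := h.K1
  have hK0 : 0 < K := by linarith
  have hK'0 : 0 ≤ |K'| := abs_nonneg _
  obtain ⟨Kc, hKc⟩ : ∃ Kc : ℝ, Kc = K + K₀ + K₁ + K₂ + |K'| + |pp t₀| := ⟨_, rfl⟩
  have hKc1 : 1 ≤ Kc := by linarith
  obtain ⟨cc, hcc0, hccc, hcc1, hccp⟩ : ∃ cc : ℝ, 0 < cc ∧ cc ≤ c₀ ∧ cc ≤ c₁ ∧ cc ≤ |pp t₀| / 2 :=
    ⟨min c₀ (min c₁ (|pp t₀| / 2)), lt_min hc₀ (lt_min hc₁ (by linarith)), min_le_left _ _,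
      (min_le_right _ _).trans (min_le_left _ _), (min_le_right _ _).trans (min_le_right _ _)⟩
  obtain ⟨δg, hδg, G⟩ := gap_one (K := Kc) (c := cc) hKc1 hcc0 hm
  have hq0 : 0 < |pp t₀| / (2 * K) := by positivity
  obtain ⟨δ, hδ, d0, d1, d2, d3, dg, dp, done⟩ : ∃ δ : ℝ, 0 < δ ∧ δ ≤ δ₀ ∧ δ ≤ δ₁ ∧ δ ≤ δ₂ ∧
      δ ≤ δ₃ ∧ δ ≤ δg / 2 ∧ δ ≤ |pp t₀| / (2 * K) ∧ δ ≤ 1 := by
    refine ⟨min δ₀ (min δ₁ (min δ₂ (min δ₃ (min (δg / 2) (min (|pp t₀| / (2 * K)) 1))))),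
      ?_, ?_, ?_, ?_, ?_, ?_, ?_, ?_⟩
    · exact lt_min hδ₀ (lt_min hδ₁ (lt_min hδ₂ (lt_min hδ₃ (lt_min (by linarith)
        (lt_min hq0 one_pos)))))
    all_goals simp only [min_le_iff, le_refl, true_or, or_true]
  refine ⟨δ, hδ, ?_⟩
  intro s s' hlt hs hs' hXs hYs hϕs hXs' hϕs'
  rw [abs_lt] at hs hs'
  -- points of `[s,s']` are near `t₀`
  have hnear : ∀ t ∈ Icc s s', |t - t₀| < δ := by
    intro t ht
    rw [abs_lt]
    exact ⟨by linarith [ht.1, hs.1], by linarith [ht.2, hs'.2]⟩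
  have hin1 : ∀ t ∈ Icc s s', t ∈ Ioo (t₀ - δ₁) (t₀ + δ₁) := by
    intro t ht
    have := abs_lt.1 (hnear t ht)
    exact ⟨by linarith [this.1], by linarith [this.2]⟩
  have hin2 : ∀ t ∈ Icc s s', t ∈ Ioo (t₀ - δ₂) (t₀ + δ₂) := by
    intro t ht
    have := abs_lt.1 (hnear t ht)
    exact ⟨by linarith [this.1], by linarith [this.2]⟩
  have hab : ∀ t ∈ Icc s s', t ∈ Ioo a b := fun t ht => hs₁ (hin1 t ht)
  have hsI : s ∈ Icc s s' := left_mem_Icc.2 hlt.le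
  have hRl := hR Kc cc s s' (by linarith) hcc0 hccc hlt
    (lt_of_lt_of_le (abs_lt.2 hs) d0) (lt_of_lt_of_le (abs_lt.2 hs') d0) hXs hXs' hϕs hϕs'
  have hYc : ContinuousOn Y (Icc s s') := fun t ht =>
    (h.Yd t (hab t ht)).continuousAt.continuousWithinAt
  have hXc : ContinuousOn X (Icc s s') := h.Xc.mono hab
  have hsub : ∀ t ∈ Icc s s', uIcc s t ⊆ Icc s s' := by
    intro t ht r hr
    rw [uIcc_of_le ht.1] at hr
    exact ⟨hr.1, hr.2.trans ht.2⟩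
  have hDs : Bf (w s, Y s, X s) - Bf (w s, 0, 0) = 0 := by rw [hXs, hYs, sub_self]
  refine G s s' X ϕ u (fun t => g (w t, Y t, X t))
    (fun t => -(α (w t, Y t, X t) / g (w t, Y t, X t))) n Y pp
    (fun t => Bf (w t, Y t, X t) - Bf (w t, 0, 0))
    (fun t => fderiv ℝ Bf (w t, Y t, X t) (0, 0, 1)) (fun t => cf (fX Bf) m (w t)) ψ
    (by linarith) hRl hYc (hbc.mono hin1) (hec.mono hin1) ?_ ?_ ?_ ?_ ?_ ?_ ?_ ?_ ?_ ?_ ?_ ?_
  · -- ψ
    refine ContinuousOn.intervalIntegrable ?_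
    rw [uIcc_of_le hlt.le]
    exact hψc.mono hin2
  · -- pp Lipschitz
    intro t ht r hr
    refine (hpl t (hab t ht) r (hab r hr)).trans ?_
    exact mul_le_mul_of_nonneg_right (by linarith) (abs_nonneg _)
  · -- |pp| below
    intro t ht
    have h1 := hpl t (hab t ht) t₀ h₀.mem
    have h2 : K * |t - t₀| ≤ |pp t₀| / 2 := by
      have h3 : |t - t₀| ≤ |pp t₀| / (2 * K) := (hnear t ht).le.trans dp
      calc K * |t - t₀| ≤ K * (|pp t₀| / (2 * K)) := mul_le_mul_of_nonneg_left h3 hK0.le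
        _ = |pp t₀| / 2 := by field_simp
    have h4 : |pp t₀| ≤ |pp t| + |pp t - pp t₀| := by
      have := abs_sub_abs_le_abs_sub (pp t₀) (pp t)
      rw [abs_sub_comm (pp t₀) (pp t)] at this
      linarith
    linarith
  · -- |pp| above
    intro t ht
    have h1 := hpl t (hab t ht) t₀ h₀.mem
    have h2 : K * |t - t₀| ≤ K := by
      calc K * |t - t₀| ≤ K * 1 := mul_le_mul_of_nonneg_left ((hnear t ht).le.trans done) hK0.le
        _ = K := mul_one K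
    have h4 : |pp t| ≤ |pp t₀| + |pp t - pp t₀| := by
      have := abs_sub_abs_le_abs_sub (pp t) (pp t₀)
      linarith
    linarith
  · intro t ht
    exact hcc1.trans (hD t (hin1 t ht)).1
  · intro t ht
    exact (hD t (hin1 t ht)).2.1.trans (by linarith)
  · intro t ht
    refine (hn t (hab t ht)).trans ?_
    exact mul_le_mul_of_nonneg_right (by linarith) (abs_nonneg _)
  · -- D as an integral
    intro t ht
    have h1 := hDi s (hin2 s hsI) t (hin2 t ht)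
    rw [hDs, sub_zero] at h1
    show Bf (w t, Y t, X t) - Bf (w t, 0, 0) = _
    rw [h1]
    refine intervalIntegral.integral_congr fun r hr => ?_
    have hr' : r ∈ Icc s s' := hsub t ht hr
    have h2 : g (w r, Y r, X r) ≠ 0 := by
      have := hRl.g0 r hr'
      exact abs_pos.1 (lt_of_lt_of_le hcc0 this)
    show fderiv ℝ Bf (w r, Y r, X r) (0, 0, 1)
        * (α (w r, Y r, X r) + u r * g (w r, Y r, X r)) + ψ r =
      fderiv ℝ Bf (w r, Y r, X r) (0, 0, 1)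
        * (g (w r, Y r, X r) * (u r - -(α (w r, Y r, X r) / g (w r, Y r, X r)))) + ψ r
    have h3 : g (w r, Y r, X r) * (u r - -(α (w r, Y r, X r) / g (w r, Y r, X r))) =
        α (w r, Y r, X r) + u r * g (w r, Y r, X r) := by
      field_simp
      ring
    rw [h3]
  · intro t ht
    refine (hψb t (hin2 t ht)).trans ?_
    exact mul_le_mul_of_nonneg_right (by linarith) (by positivity)
  · intro t ht
    refine (hD t (hin1 t ht)).2.2.1.trans ?_
    exact mul_le_mul_of_nonneg_right (by linarith) (by positivity)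
  · intro t ht
    refine (hD t (hin1 t ht)).2.2.2.1.trans ?_
    exact mul_le_mul_of_nonneg_right (by linarith) (by positivity)
  · -- Y
    intro t ht
    have hst : s ≤ t := ht.1
    have hI : ContinuousOn (fun r => |X r| ^ m + |Y r|) (Icc s t) := by
      have hm1 : Icc s t ⊆ Icc s s' := Icc_subset_Icc_right ht.2
      exact ((hXc.mono hm1).abs.pow m).add (hYc.mono hm1).abs
    have hII : IntervalIntegrable (fun r => |X r| ^ m + |Y r|) volume s t := by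
      refine ContinuousOn.intervalIntegrable ?_
      rw [uIcc_of_le hst]
      exact hI
    have hyc : ContinuousOn y' (Icc s s') := h.Yc.mono hab
    have hyi : IntervalIntegrable y' volume s t := by
      refine ContinuousOn.intervalIntegrable ?_
      rw [uIcc_of_le hst]
      exact hyc.mono (Icc_subset_Icc_right ht.2)
    have h1 : ∫ r in s..t, y' r = Y t - Y s := by
      refine intervalIntegral.integral_eq_sub_of_hasDerivAt (fun r hr => ?_) hyi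
      exact h.Yd r (hab r (hsub t ht hr))
    rw [hYs, sub_zero] at h1
    rw [← h1]
    calc |∫ r in s..t, y' r| ≤ ∫ r in s..t, |y' r| :=
          intervalIntegral.abs_integral_le_integral_abs hst
      _ ≤ ∫ r in s..t, Kc * (|X r| ^ m + |Y r|) := by
          refine intervalIntegral.integral_mono_on hst hyi.abs (hII.const_mul _) fun r hr => ?_
          have hr' : r ∈ Icc s s' := ⟨hr.1, hr.2.trans ht.2⟩
          have h2 : dist r t₀ < δ₃ := by
            rw [Real.dist_eq]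
            exact lt_of_lt_of_le (hnear r hr') d3
          refine (hy₃ h2).trans ?_
          refine mul_le_mul_of_nonneg_right ?_ (by positivity)
          have := le_abs_self K'
          linarith
      _ = Kc * ∫ r in s..t, (|X r| ^ m + |Y r|) := intervalIntegral.integral_const_mul _ _

end Pool.Agent.Lib.MP_28b8de_an.TT
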