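import Pool.Agent.Lib.MP_28b8de_an.T.TX1
import Pool.Agent.Lib.MP_28b8de_an.T.TLc1

/-!
MP_28b8de_an, module TX2.

The case where y is nowhere on C a function of (t,z): final contradiction.
PROOF.  PtX at t₀ (exPt).  lcX at t₀; lq_of; Bf := BX B ξ analytic at (w t₀,0,0); fderiv (BX B ξ) (w t, 0, sF) (0,0,1) = px B (t,q t) for t near t₀ (chain rule, psX_q); hn from lq_of; hpl from cp_lip with pp = p (0,1,0);
hy trivial (y' = 0).  lc_one: sF = 0 on [s,s'] for s < s' in C near t₀ (sF = 0 on C near t₀ by AtX, ϕ = 0 on C near t₀ by fact_phi): closeX.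
-/

set_option linter.unusedSectionVars false

namespace Pool.Agent.Lib.MP_28b8de_an.TT

open Filter Topology Set MeasureTheory
open Pool.Agent.Lib.MP_28b8de_an.PT (Adm Perf gron gron_back volterra kder ae_zero perf_inner stay)

variable {L : ℝ × ℝ × ℝ → ℝ} {B F G : ℝ × V3 → ℝ} {R M T : ℝ} {u : ℝ → ℝ} {q : ℝ → V3}
  {p : ℝ → V3 →L[ℝ] ℝ} {C : Set ℝ}


private theorem TX2_psX0 {ξ : ℝ × ℝ × ℝ → ℝ} {t₀ : ℝ} (h2 : (q t₀).2.2 = ξ (t₀, (q t₀).1, (q t₀).2.1)) :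
    psX ξ ((t₀, (q t₀).1, (q t₀).2.1), 0, 0) = (t₀, q t₀) := by
  have h := psX_q ξ q t₀
  have h3 : sF ξ q t₀ = 0 := by
    unfold sF
    rw [← h2, sub_self]
  rwa [h3] at h

private theorem TX2_psX_an {ξ : ℝ × ℝ × ℝ → ℝ} {z : (ℝ × ℝ × ℝ) × ℝ × ℝ} (hξ : AnalyticAt ℝ ξ z.1) :
    AnalyticAt ℝ (psX ξ) z := by
  have h1 : AnalyticAt ℝ (fun z : (ℝ × ℝ × ℝ) × ℝ × ℝ => z.1) z := analyticAt_fst
  have h2 : AnalyticAt ℝ (fun z : (ℝ × ℝ × ℝ) × ℝ × ℝ => z.2) z := analyticAt_snd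
  have h3 : AnalyticAt ℝ (fun z : (ℝ × ℝ × ℝ) × ℝ × ℝ => z.1.1) z :=
    AnalyticAt.fun_comp (f := fun z : (ℝ × ℝ × ℝ) × ℝ × ℝ => z.1) analyticAt_fst h1
  have h4 : AnalyticAt ℝ (fun z : (ℝ × ℝ × ℝ) × ℝ × ℝ => z.1.2) z :=
    AnalyticAt.fun_comp (f := fun z : (ℝ × ℝ × ℝ) × ℝ × ℝ => z.1) analyticAt_snd h1
  have h5 : AnalyticAt ℝ (fun z : (ℝ × ℝ × ℝ) × ℝ × ℝ => z.1.2.1) z :=
    AnalyticAt.fun_comp (f := fun z : (ℝ × ℝ × ℝ) × ℝ × ℝ => z.1.2) analyticAt_fst h4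
  have h6 : AnalyticAt ℝ (fun z : (ℝ × ℝ × ℝ) × ℝ × ℝ => z.1.2.2) z :=
    AnalyticAt.fun_comp (f := fun z : (ℝ × ℝ × ℝ) × ℝ × ℝ => z.1.2) analyticAt_snd h4
  have h7 : AnalyticAt ℝ (fun z : (ℝ × ℝ × ℝ) × ℝ × ℝ => z.2.2) z :=
    AnalyticAt.fun_comp (f := fun z : (ℝ × ℝ × ℝ) × ℝ × ℝ => z.2) analyticAt_snd h2
  have h8 : AnalyticAt ℝ (fun z : (ℝ × ℝ × ℝ) × ℝ × ℝ => ξ z.1 + z.2.2) z :=
    (AnalyticAt.fun_comp (f := fun z : (ℝ × ℝ × ℝ) × ℝ × ℝ => z.1) hξ h1).add h7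
  exact h3.prod (h5.prod (h6.prod h8))

private theorem TX2_px {ξ : ℝ × ℝ × ℝ → ℝ} {z : (ℝ × ℝ × ℝ) × ℝ × ℝ} (hξ : AnalyticAt ℝ ξ z.1)
    (hB : ContDiff ℝ (⊤ : ℕ∞) B) : fderiv ℝ (BX B ξ) z (0, 0, 1) = px B (psX ξ z) := by
  have hBd : Differentiable ℝ B := hB.differentiable (by simp)
  have hd : DifferentiableAt ℝ (BX B ξ) z :=
    DifferentiableAt.comp (f := psX ξ) z hBd.differentiableAt (TX2_psX_an hξ).differentiableAt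
  rw [← hd.lineDeriv_eq_fderiv]
  unfold px
  rw [← (hBd (psX ξ z)).lineDeriv_eq_fderiv]
  unfold lineDeriv
  congr 1
  funext t
  unfold BX psX
  simp only [Prod.fst_add, Prod.snd_add, smul_zero, add_zero, Prod.smul_mk,
    smul_eq_mul, mul_one, mul_zero, Prod.mk_add_mk, add_assoc]

theorem hasY_of (h : Sit L B F G R M T u q p C) : HasY T q C := by
  by_contra hY
  obtain ⟨ξ, m, t₀, P⟩ := exPt h hY
  obtain ⟨ht₀, ht₀', hξ, hx⟩ := P.atx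
  have h2 : (q t₀).2.2 = ξ (t₀, (q t₀).1, (q t₀).2.1) := hx.self_of_nhds ht₀
  obtain ⟨K, a, b, hab, han, hLc, hLp⟩ := lcX h.ts ht₀' hξ h2
  obtain ⟨K₀, hK₀, hn, hLq⟩ := lq_of h.ts h.mul hab (w := fun t => (t, (q t).1, (q t).2.1))
    (Y := fun _ => 0) (X := sF ξ q) (g := fun z => G (psX ξ z))
    (fun t _ => congrArg G (psX_q ξ q t))
  obtain ⟨Kp, hKp, -, hpl⟩ := cp_lip h.ts h.mul
  obtain ⟨-, hBs, -, -⟩ := ts_diff h.ts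
  have hps0 := TX2_psX0 h2
  have hB : AnalyticAt ℝ (BX B ξ) ((t₀, (q t₀).1, (q t₀).2.1), 0, 0) := by
    refine AnalyticAt.fun_comp (f := psX ξ) ?_ (TX2_psX_an hξ)
    rw [hps0]
    exact h.ts.Ba _ (ts_ball h.ts (Ioo_subset_Icc_self ht₀')).1
  have hu : |αX L B F ξ ((t₀, (q t₀).1, (q t₀).2.1), 0, 0)| <
      |G (psX ξ ((t₀, (q t₀).1, (q t₀).2.1), 0, 0))| := by
    rw [hps0]
    exact P.uns
  obtain ⟨K₂, hK₂, hK₂0, hK₂p⟩ : ∃ K₂, K ≤ K₂ ∧ K₀ ≤ K₂ ∧ Kp ≤ K₂ :=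
    ⟨max K (max K₀ Kp), le_max_left _ _, (le_max_left _ _).trans (le_max_right _ _),
      (le_max_right _ _).trans (le_max_right _ _)⟩
  have hpl' : ∀ s ∈ Ioo a b, ∀ t ∈ Ioo a b, |p s (0, 1, 0) - p t (0, 1, 0)| ≤ K₂ * |s - t| := by
    intro s hs t ht
    have h1 := hpl s (Ioo_subset_Icc_self (hab hs)) t (Ioo_subset_Icc_self (hab ht))
    have h3 : ‖((0, 1, 0) : V3)‖ ≤ 1 := by
      simp [Prod.norm_def]
    have h4 : |p s (0, 1, 0) - p t (0, 1, 0)| ≤ ‖p s - p t‖ := by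
      rw [← sub_apply, ← Real.norm_eq_abs]
      exact ((p s - p t).le_opNorm _).trans (mul_le_of_le_one_right (norm_nonneg _) h3)
    exact h4.trans (h1.trans (mul_le_mul_of_nonneg_right hK₂p (abs_nonneg _)))
  obtain ⟨δ, hδ, H⟩ := lc_one (hLc.mono hK₂) hLp hu (hLq K₂ hK₂0) hB P.m2 P.ord P.ne
    (pp := fun t => p t (0, 1, 0)) hpl' P.p0 (by
      intro t ht
      have h1 := (hn t (Ioo_subset_Icc_self (hab ht))).1
      have h3 : fderiv ℝ (BX B ξ) ((t, (q t).1, (q t).2.1), 0, sF ξ q t) (0, 0, 1) = px B (t, q t) := by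
        rw [TX2_px (z := ((t, (q t).1, (q t).2.1), 0, sF ξ q t)) (han t ht) hBs, psX_q]
      simp only [h3]
      exact h1.trans (mul_le_mul_of_nonneg_right hK₂0 (abs_nonneg _))) (K' := 0)
    (Eventually.of_forall fun t => by simp)
  have hev := hx.and (fact_phi h ht₀ ht₀' P.g0)
  obtain ⟨ε, hε, hev⟩ := Metric.eventually_nhds_iff.1 hev
  refine closeX h P.atx (lt_min hδ hε) fun s hs s' hs' hss h1 h3 t ht => ?_
  have e1 : ∀ r ∈ C, |r - t₀| < min δ ε → sF ξ q r = 0 ∧ p r (0, 0, 1) = 0 := by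
    intro r hr h4
    obtain ⟨h5, h6⟩ := hev (y := r) (by rw [Real.dist_eq]; exact h4.trans_le (min_le_right _ _))
    refine ⟨?_, (h6 hr).1⟩
    unfold sF
    rw [← h5 hr, sub_self]
  obtain ⟨a1, a2⟩ := e1 s hs h1
  obtain ⟨b1, b2⟩ := e1 s' hs' h3
  exact (H s s' hss (h1.trans_le (min_le_left _ _)) (h3.trans_le (min_le_left _ _)) a1 rfl a2 b1 b2 t ht).1

end Pool.Agent.Lib.MP_28b8de_an.TT
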