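import Pool.Agent.Lib.MP_28b8de_an.T.TY2
import Pool.Agent.Lib.MP_28b8de_an.T.TX2

/-!
MP_28b8de_an, module TMain: the replacement theorem for cut off triangular systems.
-/

namespace Pool.Agent.Lib.MP_28b8de_an.TT

open Filter Topology Set MeasureTheory
open Pool.Agent.Lib.MP_28b8de_an.PT (Adm Perf)

variable {L : ℝ × ℝ × ℝ → ℝ} {B F G : ℝ × V3 → ℝ} {R M T : ℝ} {u : ℝ → ℝ} {q : ℝ → V3}
  {p : ℝ → V3 →L[ℝ] ℝ} {C : Set ℝ}

theorem sit_false (h : Sit L B F G R M T u q p C) : False := by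
  obtain ⟨η, ξ, t₀, hA⟩ := hasY_atY h (hasY_of h)
  obtain ⟨m, t₁, P⟩ := ptY_exists h hA
  exact ptY_false h P

/-- the replacement theorem for cut off triangular systems -/
theorem replace (h : TS L B F G R M T u q) : Jn (FF L B F) (GG G) q 0 T := by
  rcases pmp_or h.tr with h1 | ⟨p, hp⟩
  · exact h1
  apply principle h.tr.env h.tr.hT h.tr.sol.cont
  intro C hC hbad
  by_contra hng
  refine sit_false (p := p) (C := C) ⟨h, hp, hC, fun t ht => ?_, hng⟩
  have h2 := (bad_point h.tr hp (hC.sub ht) (hbad t ht)).1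
  have h3 : GG G (t, q t) = G (t, q t) • ((0, 0, 1) : V3) := by
    refine Prod.ext ?_ (Prod.ext ?_ ?_)
    · simp [GG]
    · simp [GG]
    · simp [GG]
  rw [h3, map_smul, smul_eq_mul] at h2
  exact h2

end Pool.Agent.Lib.MP_28b8de_an.TT
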