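import Pool.Agent.Lib.MP_28b8de_an.T.TDefs
import Pool.Agent.Lib.MP_28b8de_an.P.PMain
import Pool.Agent.Lib.MP_28b8de_an.P.PCut

/-!
MP_28b8de_an, module TRescale.

Local replacement for planar time-dependent systems that are analytic near a point: any piece of trajectory near (t₀, c) can be replaced by one close to it with a countable bad set.
PROOF.  Rescale: choose ε > 0 with 16 ε < ρ where Fp, Gp are analytic on the ball of radius ρ about (t₀, c).  For s < s' with |s - t₀|, |s' - t₀| < ε and |r t - c| ≤ ε on [s,s'] put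
F̂ (τ, x) := Fp (s + ε τ, c + ε • x), Ĝ similarly: analytic for |τ|, |x| < 10.  Multiply by a bump function χ (= 1 on the ball of radius 5, support in the ball of radius 6; ContDiffBump) as in
P/PCut.lean (`cut_bounds`): F', G' with PT.Env F' G' 5 M' (smooth on all of ℝ³ since χ • F̂ is zero outside the ball of radius 6).  r̂ τ := (r (s + ε τ) - c)/ε on [0, T̂], T̂ := (s'-s)/ε ≤ 2, with
control û τ := u (s + ε τ): PT.Sol by the substitution τ ↦ s + ε τ (intervalIntegral.integral_comp_mul_add...), |r̂| ≤ 1 ≤ 5 - 2, T̂ < 5: PT.Tr F' G' 5 M' T̂ û r̂.  `PT.replace`: v̂, r̂' with the same end points,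
|r̂' - r̂| ≤ 1, PT.Sol, countable bad set.  Put v t := v̂ ((t-s)/ε), r' t := c + ε • r̂' ((t-s)/ε).  Then |r' - r| ≤ ε, r' stays in the ball of radius 2ε about c, where
F̂ = F' at the rescaled points; smoothness transfers by the affine change of variables.
-/

set_option linter.unusedSectionVars false

namespace Pool.Agent.Lib.MP_28b8de_an.TT

open Filter Topology Set MeasureTheory
open Pool.Agent.Lib.MP_28b8de_an.PT (Adm Perf gron gron_back volterra kder ae_zero perf_inner stay)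

/-- cutting off a function analytic on the ball of radius 10 -/
private theorem TRescale_cut {H : ℝ × ℝ × ℝ → ℝ × ℝ} (hH : ∀ z, ‖z‖ < 10 → AnalyticAt ℝ H z) :
    ∃ (H' : ℝ × ℝ × ℝ → ℝ × ℝ) (M : ℝ), 1 ≤ M ∧ ContDiff ℝ (⊤ : ℕ∞) H' ∧
      AnalyticOnNhd ℝ H' (PT.Box 5) ∧ (∀ z, ‖H' z‖ ≤ M) ∧ (∀ z, ‖fderiv ℝ H' z‖ ≤ M) ∧
      (∀ z w, ‖fderiv ℝ H' z - fderiv ℝ H' w‖ ≤ M * ‖z - w‖) ∧ ∀ z ∈ PT.Box 5, H' z = H z := by
  let χ : ContDiffBump (0 : ℝ × ℝ × ℝ) := ⟨5, 6, by norm_num, by norm_num⟩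
  have hχs : ContDiff ℝ (⊤ : ℕ∞) χ := χ.contDiff
  have hχc : HasCompactSupport χ := χ.hasCompactSupport
  have hχ1 : ∀ z ∈ PT.Box 5, χ z = 1 := fun z hz =>
    χ.one_of_mem_closedBall (Metric.ball_subset_closedBall (PT.box_sub_ball (by norm_num) hz))
  have hsm : ContDiff ℝ (⊤ : ℕ∞) (fun z => χ z • H z) := by
    rw [contDiff_iff_contDiffAt]
    intro z
    by_cases hz : ‖z‖ < 10
    · exact hχs.contDiffAt.smul (hH z hz).contDiffAt
    · have hz' : z ∉ tsupport χ := by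
        rw [χ.tsupport_eq, Metric.mem_closedBall, dist_zero_right]
        show ¬ ‖z‖ ≤ 6
        intro h
        apply hz
        linarith
      have h0 : (fun z => χ z • H z) =ᶠ[𝓝 z] fun _ => 0 := by
        filter_upwards [notMem_tsupport_iff_eventuallyEq.1 hz'] with w hw
        rw [hw, Pi.zero_apply, zero_smul]
      exact contDiffAt_const.congr_of_eventuallyEq h0
  obtain ⟨M, hM, a1, a2, a3⟩ := PT.cut_bounds (H := fun z => χ z • H z) hsm (hχc.smul_right)
  have e1 : ∀ z ∈ PT.Box 5, χ z • H z = H z := fun z hz => by rw [hχ1 z hz, one_smul]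
  refine ⟨fun z => χ z • H z, M, hM, hsm, ?_, a1, a2, a3, e1⟩
  intro z hz
  have hz5 : ‖z‖ < 5 := by
    have := PT.box_sub_ball (by norm_num : (0 : ℝ) < 5) hz
    rwa [mem_ball_zero_iff] at this
  refine (hH z (by linarith)).congr ?_
  filter_upwards [(PT.isOpen_box 5).mem_nhds hz] with w hw
  exact (e1 w hw).symm

/-- smoothness transfers by the affine change of variables -/
private theorem TRescale_sm {ρ : ℝ → ℝ × ℝ} {c : ℝ × ℝ} {s ε : ℝ} (hε : 0 < ε) {t : ℝ}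
    (h : PT.SmAt ρ ((t - s) / ε)) : SmAt (fun t => c + ε • ρ ((t - s) / ε)) t := by
  obtain ⟨δ, hδ, h⟩ := h
  refine ⟨ε * δ, by positivity, ?_⟩
  have h1 : ContDiffOn ℝ (⊤ : ℕ∞) (fun t : ℝ => (t - s) / ε) (Ioo (t - ε * δ) (t + ε * δ)) :=
    ((contDiff_id.sub contDiff_const).div_const ε).contDiffOn
  have h2 : MapsTo (fun t : ℝ => (t - s) / ε) (Ioo (t - ε * δ) (t + ε * δ))
      (Ioo ((t - s) / ε - δ) ((t - s) / ε + δ)) := by
    intro x hx
    constructor
    · show (t - s) / ε - δ < (x - s) / ε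
      rw [div_sub' hε.ne', div_lt_div_iff_of_pos_right hε]
      linarith [hx.1]
    · show (x - s) / ε < (t - s) / ε + δ
      rw [div_add' _ _ _ hε.ne', div_lt_div_iff_of_pos_right hε]
      linarith [hx.2]
  have h3 : ContDiffOn ℝ (⊤ : ℕ∞) (fun t : ℝ => ε • ρ ((t - s) / ε))
      (Ioo (t - ε * δ) (t + ε * δ)) := (h.comp h1 h2).const_smul ε
  exact contDiffOn_const.add h3

/-- local replacement for planar systems analytic near a point -/
theorem planar_local {Fp Gp : ℝ × ℝ × ℝ → ℝ × ℝ} {t₀ : ℝ} {c : ℝ × ℝ}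
    (hF : AnalyticAt ℝ Fp (t₀, c)) (hG : AnalyticAt ℝ Gp (t₀, c)) {κ : ℝ} (hκ : 0 < κ) :
    ∃ ε > 0, ∀ (s s' : ℝ) (u : ℝ → ℝ) (r : ℝ → ℝ × ℝ), s < s' → |s - t₀| < ε → |s' - t₀| < ε →
      Adm u → ContinuousOn r (Icc s s') → (∀ t ∈ Icc s s', ‖r t - c‖ ≤ ε) →
      (∀ t ∈ Icc s s', r t = r s + ∫ τ in s..t, (Fp (τ, r τ) + u τ • Gp (τ, r τ))) →
      ∃ (v : ℝ → ℝ) (r' : ℝ → ℝ × ℝ), Adm v ∧ ContinuousOn r' (Icc s s') ∧ r' s = r s ∧ r' s' = r s' ∧
        (∀ t ∈ Icc s s', ‖r' t - c‖ ≤ κ) ∧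
        (∀ t ∈ Icc s s', r' t = r' s + ∫ τ in s..t, (Fp (τ, r' τ) + v τ • Gp (τ, r' τ))) ∧
        {t ∈ Ioo s s' | ¬ SmAt r' t}.Countable := by
  obtain ⟨ρ, hρ, hball⟩ := Metric.eventually_nhds_iff_ball.1
    (hF.eventually_analyticAt.and hG.eventually_analyticAt)
  set ε : ℝ := min (κ / 2) (ρ / 16) with hεd
  have hε : 0 < ε := by positivity
  have hε1 : 2 * ε ≤ κ := by
    have := min_le_left (κ / 2) (ρ / 16)
    linarith
  have hε2 : 16 * ε ≤ ρ := by
    have := min_le_right (κ / 2) (ρ / 16)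
    linarith
  refine ⟨ε, hε, ?_⟩
  intro s s' u r hss hs hs' hu hrc hrb hreq
  -- the affine map
  let A : ℝ × ℝ × ℝ → ℝ × ℝ × ℝ := fun z => (s + ε * z.1, c + ε • z.2)
  have hA : ∀ z, AnalyticAt ℝ A z := fun z =>
    (analyticAt_const.add (analyticAt_const.mul analyticAt_fst)).prod
      (analyticAt_const.add (analyticAt_snd.const_smul (c := ε)))
  have hAb : ∀ z, ‖z‖ < 10 → A z ∈ Metric.ball ((t₀, c) : ℝ × ℝ × ℝ) ρ := by
    intro z hz
    rw [Metric.mem_ball, Prod.dist_eq]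
    have h1 : |z.1| ≤ ‖z‖ := norm_fst_le z
    have h2 : ‖z.2‖ ≤ ‖z‖ := norm_snd_le z
    apply max_lt
    · show dist (s + ε * z.1) t₀ < ρ
      rw [Real.dist_eq]
      have h3 : |s + ε * z.1 - t₀| ≤ |s - t₀| + ε * |z.1| := by
        have : s + ε * z.1 - t₀ = (s - t₀) + ε * z.1 := by ring
        rw [this]
        refine (abs_add_le _ _).trans ?_
        rw [abs_mul, abs_of_pos hε]
      nlinarith
    · show dist (c + ε • z.2) c < ρ
      rw [dist_eq_norm, add_sub_cancel_left, norm_smul, Real.norm_eq_abs, abs_of_pos hε]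
      nlinarith
  obtain ⟨F', M₁, hM₁, Fs, Fa, Fb, Fd, Fl, Fe⟩ := TRescale_cut (H := fun z => Fp (A z))
    (fun z hz => (hball _ (hAb z hz)).1.comp (hA z))
  obtain ⟨G', M₂, hM₂, Gs, Ga, Gb, Gd, Gl, Ge⟩ := TRescale_cut (H := fun z => Gp (A z))
    (fun z hz => (hball _ (hAb z hz)).2.comp (hA z))
  have hE : PT.Env F' G' 5 (max M₁ M₂) :=
    ⟨hM₁.trans (le_max_left _ _), Fs, Gs, Fa, Ga,
    fun z => (Fb z).trans (le_max_left _ _), fun z => (Gb z).trans (le_max_right _ _),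
    fun z => (Fd z).trans (le_max_left _ _), fun z => (Gd z).trans (le_max_right _ _),
    fun z w => (Fl z w).trans (mul_le_mul_of_nonneg_right (le_max_left _ _) (norm_nonneg _)),
    fun z w => (Gl z w).trans (mul_le_mul_of_nonneg_right (le_max_right _ _) (norm_nonneg _))⟩
  set T : ℝ := (s' - s) / ε with hT
  have hT0 : 0 < T := div_pos (by linarith) hε
  have hT2 : T < 2 := by
    rw [hT, div_lt_iff₀ hε]
    have h1 := (abs_lt.1 hs).1
    have h2 := (abs_lt.1 hs').2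
    linarith
  have hεT : ε * T = s' - s := by
    rw [hT]
    field_simp
  -- the rescaled trajectory
  set q : ℝ → ℝ × ℝ := fun τ => ε⁻¹ • (r (s + ε * τ) - c) with hq
  have hmem : ∀ τ ∈ Icc 0 T, s + ε * τ ∈ Icc s s' := by
    intro τ hτ
    constructor
    · have := mul_nonneg hε.le hτ.1
      linarith
    · have := mul_le_mul_of_nonneg_left hτ.2 hε.le
      linarith
  have hqr : ∀ τ, c + ε • q τ = r (s + ε * τ) := by
    intro τ
    rw [hq]
    show c + ε • ε⁻¹ • (r (s + ε * τ) - c) = _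
    rw [smul_inv_smul₀ hε.ne']
    abel
  have hqb : ∀ τ ∈ Icc 0 T, ‖q τ‖ ≤ 1 := by
    intro τ hτ
    rw [hq]
    show ‖ε⁻¹ • (r (s + ε * τ) - c)‖ ≤ 1
    rw [norm_smul, norm_inv, Real.norm_eq_abs, abs_of_pos hε, inv_mul_le_iff₀ hε, mul_one]
    exact hrb _ (hmem τ hτ)
  have hbox : ∀ (p : ℝ → ℝ × ℝ) (τ : ℝ), τ ∈ Icc 0 T → ‖p τ‖ ≤ 2 → (τ, p τ) ∈ PT.Box 5 := by
    intro p τ hτ hp
    have h1 := norm_fst_le (p τ)
    have h2 := norm_snd_le (p τ)
    rw [Real.norm_eq_abs] at h1 h2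
    refine ⟨⟨by linarith [hτ.1], by linarith [hτ.2]⟩, ⟨?_, ?_⟩, ⟨?_, ?_⟩⟩
    · have := neg_abs_le (p τ).1
      show -5 < (p τ).1
      linarith
    · have := le_abs_self (p τ).1
      show (p τ).1 < 5
      linarith
    · have := neg_abs_le (p τ).2
      show -5 < (p τ).2
      linarith
    · have := le_abs_self (p τ).2
      show (p τ).2 < 5
      linarith
  have hqc : ContinuousOn q (Icc 0 T) := by
    have h1 : ContinuousOn (fun τ : ℝ => s + ε * τ) (Icc 0 T) := by fun_prop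
    have h2 : ContinuousOn (fun τ : ℝ => r (s + ε * τ)) (Icc 0 T) :=
      hrc.comp h1 (fun τ hτ => hmem τ hτ)
    have h3 : ContinuousOn (fun τ : ℝ => r (s + ε * τ) - c) (Icc 0 T) := h2.sub continuousOn_const
    exact h3.const_smul ε⁻¹
  have hûm : Adm (fun τ => u (s + ε * τ)) :=
    ⟨hu.1.comp (by fun_prop), fun τ => hu.2 _⟩
  have hsol : PT.Sol F' G' (fun τ => u (s + ε * τ)) q 0 T := by
    refine ⟨hqc, fun τ hτ => ?_⟩
    have h1 := hreq _ (hmem τ hτ)
    have h2 := intervalIntegral.smul_integral_comp_add_mul (a := 0) (b := τ)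
      (fun x => Fp (x, r x) + u x • Gp (x, r x)) ε s
    rw [mul_zero, add_zero] at h2
    have h3 : (∫ x in (0 : ℝ)..τ, (Fp (s + ε * x, r (s + ε * x)) +
        u (s + ε * x) • Gp (s + ε * x, r (s + ε * x)))) =
        ∫ x in (0 : ℝ)..τ, (F' (x, q x) + u (s + ε * x) • G' (x, q x)) := by
      apply intervalIntegral.integral_congr
      intro x hx
      rw [uIcc_of_le hτ.1] at hx
      have hxT : x ∈ Icc 0 T := ⟨hx.1, hx.2.trans hτ.2⟩
      have hb := hbox q x hxT ((hqb x hxT).trans (by norm_num))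
      show _ = F' (x, q x) + u (s + ε * x) • G' (x, q x)
      rw [Fe _ hb, Ge _ hb]
      show _ = Fp (s + ε * x, c + ε • q x) + u (s + ε * x) • Gp (s + ε * x, c + ε • q x)
      rw [hqr]
    rw [← h3]
    show ε⁻¹ • (r (s + ε * τ) - c) = ε⁻¹ • (r (s + ε * 0) - c) + _
    rw [h1, ← h2, mul_zero, add_zero]
    have h4 : r s + ε • (∫ x in (0 : ℝ)..τ, (Fp (s + ε * x, r (s + ε * x)) +
        u (s + ε * x) • Gp (s + ε * x, r (s + ε * x)))) - c = (r s - c) +
        ε • (∫ x in (0 : ℝ)..τ, (Fp (s + ε * x, r (s + ε * x)) +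
        u (s + ε * x) • Gp (s + ε * x, r (s + ε * x)))) := by abel
    rw [h4, smul_add, inv_smul_smul₀ hε.ne']
  have htr : PT.Tr F' G' 5 (max M₁ M₂) T (fun τ => u (s + ε * τ)) q :=
    ⟨hE, hT0, by linarith, hûm, hsol, fun τ hτ => (hqb τ hτ).trans (by norm_num)⟩
  obtain ⟨v, p, hv, hp, hp0, hpT, hpq, hcount⟩ := PT.replace htr
  have hpb : ∀ τ ∈ Icc 0 T, ‖p τ‖ ≤ 2 := by
    intro τ hτ
    have h1 : p τ = (p τ - q τ) + q τ := by abel
    rw [h1]
    refine (norm_add_le _ _).trans ?_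
    have := hpq τ hτ
    have := hqb τ hτ
    linarith
  have hmem' : ∀ t ∈ Icc s s', (t - s) / ε ∈ Icc 0 T := by
    intro t ht
    refine ⟨div_nonneg (by linarith [ht.1]) hε.le, ?_⟩
    rw [hT, div_le_div_iff_of_pos_right hε]
    linarith [ht.2]
  have hback : ∀ t : ℝ, s + ε * ((t - s) / ε) = t := by
    intro t
    field_simp
    ring
  have hfor : ∀ x : ℝ, (s + ε * x - s) / ε = x := by
    intro x
    field_simp
    ring
  refine ⟨fun t => v ((t - s) / ε), fun t => c + ε • p ((t - s) / ε), ⟨hv.1.comp (by fun_prop), fun t => hv.2 _⟩, ?_, ?_, ?_, ?_, ?_, ?_⟩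
  · have h1 : ContinuousOn (fun t : ℝ => (t - s) / ε) (Icc s s') := by fun_prop
    have h2 : ContinuousOn (fun t : ℝ => p ((t - s) / ε)) (Icc s s') :=
      hp.cont.comp h1 (fun t ht => hmem' t ht)
    have h3 : ContinuousOn (fun t : ℝ => ε • p ((t - s) / ε)) (Icc s s') := h2.const_smul ε
    exact continuousOn_const.add h3
  · show c + ε • p ((s - s) / ε) = r s
    rw [sub_self, zero_div, hp0, hqr, mul_zero, add_zero]
  · show c + ε • p ((s' - s) / ε) = r s'
    rw [← hT, hpT, hqr, hεT]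
    congr 1
    ring
  · intro t ht
    show ‖c + ε • p ((t - s) / ε) - c‖ ≤ κ
    rw [add_sub_cancel_left, norm_smul, Real.norm_eq_abs, abs_of_pos hε]
    have := hpb _ (hmem' t ht)
    nlinarith
  · intro t ht
    set τ : ℝ := (t - s) / ε with hτd
    have hτ : τ ∈ Icc 0 T := hmem' t ht
    have h1 := hp.eq τ hτ
    have h2 := intervalIntegral.smul_integral_comp_add_mul (a := 0) (b := τ)
      (fun x => Fp (x, c + ε • p ((x - s) / ε)) + v ((x - s) / ε) • Gp (x, c + ε • p ((x - s) / ε))) ε s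
    rw [mul_zero, add_zero, hτd, hback t, ← hτd] at h2
    show c + ε • p τ = c + ε • p ((s - s) / ε) +
      ∫ x in s..t, (Fp (x, c + ε • p ((x - s) / ε)) + v ((x - s) / ε) • Gp (x, c + ε • p ((x - s) / ε)))
    rw [← h2, sub_self, zero_div, add_assoc, ← smul_add, h1]
    congr 3
    apply intervalIntegral.integral_congr
    intro x hx
    rw [uIcc_of_le hτ.1] at hx
    have hxT : x ∈ Icc 0 T := ⟨hx.1, hx.2.trans hτ.2⟩
    have hb := hbox p x hxT (hpb x hxT)
    show F' (x, p x) + v x • G' (x, p x) = Fp (s + ε * x, c + ε • p ((s + ε * x - s) / ε)) +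
      v ((s + ε * x - s) / ε) • Gp (s + ε * x, c + ε • p ((s + ε * x - s) / ε))
    rw [Fe _ hb, Ge _ hb, hfor]
  · refine (hcount.image (fun x => s + ε * x)).mono ?_
    rintro t ⟨ht, hn⟩
    refine ⟨(t - s) / ε, ⟨⟨div_pos (by linarith [ht.1]) hε, ?_⟩, fun h => hn (TRescale_sm hε h)⟩, hback t⟩
    rw [hT, div_lt_div_iff_of_pos_right hε]
    linarith [ht.2]

end Pool.Agent.Lib.MP_28b8de_an.TT
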