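import Pool.Agent.Lib.MP_28b8de_an.T.TPhi
import Pool.Agent.Lib.MP_28b8de_an.T.TGlue
import Pool.Agent.Lib.MP_28b8de_an.T.TOde

/-!
MP_28b8de_an, module PLoc (PTD-PLoc): points where φ ≠ 0 or φ' ≠ 0 are good.

PROOF.  φ t := p t (G (t, q t)), continuous on Icc 0 T, φ t - φ s = ∫_s^t p(W) with continuous integrand (phi_eq, W_cont).
If φ t₀ ≠ 0: φ ≠ 0 of constant sign σ on a neighbourhood in Icc 0 T, u = σ a.e. there (Mul.max): for a ≤ b in it q is smooth on Ioo a b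
(smAt_const) and Jn F G q a b (jn_self).  If φ t₀ = 0 and p t₀ (W (t₀, q t₀)) ≠ 0: φ ≠ 0 on a punctured neighbourhood of t₀ in Icc 0 T, so for a ≤ b in it the bad
set of q in Ioo a b is contained in {t₀} (smAt_const on Ioo a t₀ and Ioo t₀ b, or on small intervals about each point).
Both contradict hbad.  So φ t₀ = 0 and p t₀ (W) = 0, and Dt = 0 by p_det.
-/

set_option linter.unusedSectionVars false

namespace Pool.Agent.Lib.MP_28b8de_an.TT

open Filter Topology Set MeasureTheory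
open Pool.Agent.Lib.MP_28b8de_an.PT (Adm Perf l1 l1_apply gron gron_back volterra kder ae_zero perf_inner
  dense_L1 dense_L1_ball l1_UU l1_eq stay)

variable {V : Type*} [NormedAddCommGroup V] [NormedSpace ℝ V] [FiniteDimensional ℝ V]
  {F G : ℝ × V → V} {M : ℝ}

/-- continuity on `[a,b]` of `t ↦ p t (g (t, q t))` -/
private theorem TLoc_cont {g : ℝ × V → V} (hg : Continuous g) {q : ℝ → V}
    {p : ℝ → V →L[ℝ] ℝ} {a b : ℝ} (hq : ContinuousOn q (Icc a b))
    (hp : ContinuousOn p (Icc a b)) : ContinuousOn (fun t => p t (g (t, q t))) (Icc a b) :=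
  hp.clm_apply (hg.comp_continuousOn (continuousOn_id.prodMk hq))

/-- a continuous function on `[0,T]` that is not zero at `t₀` keeps its sign near `t₀` -/
private theorem TLoc_sign {T : ℝ} {f : ℝ → ℝ} (hf : ContinuousOn f (Icc 0 T)) {t₀ : ℝ}
    (ht₀ : t₀ ∈ Icc 0 T) (h : f t₀ ≠ 0) :
    ∃ ε > 0, ∀ t ∈ Icc 0 T, |t - t₀| < ε → 0 < f t₀ * f t := by
  have h0 : 0 < |f t₀| := abs_pos.2 h
  obtain ⟨ε, hε, H⟩ := Metric.continuousOn_iff.1 hf t₀ ht₀ |f t₀| h0
  refine ⟨ε, hε, fun t ht htε => ?_⟩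
  have h1 := H t ht (by rwa [Real.dist_eq])
  rw [Real.dist_eq] at h1
  rcases lt_or_gt_of_ne h with h2 | h2
  · rw [abs_of_neg h2] at h1
    have := (abs_lt.1 h1).2
    exact mul_pos_of_neg_of_neg h2 (by linarith)
  · rw [abs_of_pos h2] at h1
    have := (abs_lt.1 h1).1
    exact mul_pos h2 (by linarith)

/-- the trajectory is smooth where `φ ≠ 0` -/
private theorem TLoc_smooth {T : ℝ} {u : ℝ → ℝ} {q : ℝ → V} (h : Tr F G M T u q)
    {p : ℝ → V →L[ℝ] ℝ} (hp : Mul F G T u q p) {s : ℝ} (hs : s ∈ Ioo 0 T)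
    (hne : p s (G (s, q s)) ≠ 0) : SmAt q s := by
  have E := h.env
  have hφ : ContinuousOn (fun t => p t (G (t, q t))) (Icc 0 T) :=
    TLoc_cont E.Gs.continuous h.sol.cont hp.adj.cont
  have hsI : s ∈ Icc 0 T := ⟨hs.1.le, hs.2.le⟩
  obtain ⟨ε, hε, H⟩ := TLoc_sign hφ hsI hne
  obtain ⟨δ, hδ, hδ1, hδ2, hδ3⟩ : ∃ δ > 0, δ < ε ∧ 0 ≤ s - δ ∧ s + δ ≤ T := by
    refine ⟨min (ε / 2) (min s (T - s)), lt_min (by linarith) (lt_min hs.1 (by linarith [hs.2])),
      ?_, ?_, ?_⟩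
    · exact lt_of_le_of_lt (min_le_left _ _) (by linarith)
    · have := (min_le_right (ε / 2) (min s (T - s))).trans (min_le_left _ _)
      linarith
    · have := (min_le_right (ε / 2) (min s (T - s))).trans (min_le_right _ _)
      linarith
  have hsol : Sol F G u q (s - δ) (s + δ) := sol_mono E h.adm h.sol hδ2 hδ3
  have hsd : s ∈ Ioo (s - δ) (s + δ) := ⟨by linarith, by linarith⟩
  refine smAt_const E h.adm hsol (lam := if 0 < p s (G (s, q s)) then 1 else -1) ?_ hsd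
  filter_upwards [hp.max] with t ht htI
  have htI' : t ∈ Icc 0 T := ⟨by linarith [htI.1], by linarith [htI.2]⟩
  have h1 := ht htI'
  have h2 : 0 < p s (G (s, q s)) * p t (G (t, q t)) :=
    H t htI' (by rw [abs_lt]; exact ⟨by linarith [htI.1], by linarith [htI.2]⟩)
  congr 1
  by_cases h3 : 0 < p s (G (s, q s))
  · rw [if_pos h3]
    have h4 : 0 < p t (G (t, q t)) := (mul_pos_iff_of_pos_left h3).1 h2
    rw [abs_of_pos h4] at h1
    exact mul_right_cancel₀ h4.ne' (by linarith)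
  · rw [if_neg h3]
    have h3' : p s (G (s, q s)) < 0 := lt_of_le_of_ne (not_lt.1 h3) hne
    have h4 : p t (G (t, q t)) < 0 := by
      by_contra hc
      have := mul_nonpos_of_nonpos_of_nonneg h3'.le (not_lt.1 hc)
      linarith
    rw [abs_of_neg h4] at h1
    exact mul_right_cancel₀ h4.ne (by linarith)

theorem bad_point {T : ℝ} {u : ℝ → ℝ} {q : ℝ → V} (h : Tr F G M T u q)
    {p : ℝ → V →L[ℝ] ℝ} (hp : Mul F G T u q p) {t₀ : ℝ} (ht₀ : t₀ ∈ Icc 0 T)
    (hbad : ∀ ε : ℝ, 0 < ε → ∃ a b : ℝ, a ∈ Icc 0 T ∧ b ∈ Icc 0 T ∧ |a - t₀| < ε ∧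
      |b - t₀| < ε ∧ a ≤ b ∧ ¬ Jn F G q a b) :
    p t₀ (G (t₀, q t₀)) = 0 ∧ p t₀ (W F G (t₀, q t₀)) = 0 := by
  have E := h.env
  have hφ : ContinuousOn (fun t => p t (G (t, q t))) (Icc 0 T) :=
    TLoc_cont E.Gs.continuous h.sol.cont hp.adj.cont
  have hψ : ContinuousOn (fun t => p t (W F G (t, q t))) (Icc 0 T) :=
    TLoc_cont (W_cont E) h.sol.cont hp.adj.cont
  -- if `φ ≠ 0` near `t₀` except perhaps at `t₀`, the point is good
  have key : ∀ ε : ℝ, 0 < ε →
      ¬ ∀ t ∈ Icc 0 T, |t - t₀| < ε → t ≠ t₀ → p t (G (t, q t)) ≠ 0 := by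
    intro ε hε H
    obtain ⟨a, b, ha, hb, ha', hb', hab, hJ⟩ := hbad ε hε
    apply hJ
    refine jn_self h.adm (sol_mono E h.adm h.sol ha.1 hb.2) ?_
    refine (countable_singleton t₀).mono ?_
    rintro t ⟨ht, hns⟩
    by_contra htn
    apply hns
    have ht1 : t ∈ Ioo 0 T := ⟨lt_of_le_of_lt ha.1 ht.1, lt_of_lt_of_le ht.2 hb.2⟩
    refine TLoc_smooth h hp ht1 (H t ⟨ht1.1.le, ht1.2.le⟩ ?_ htn)
    rw [abs_lt] at ha' hb' ⊢
    exact ⟨by linarith [ht.1, ha'.1], by linarith [ht.2, hb'.2]⟩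
  have h1 : p t₀ (G (t₀, q t₀)) = 0 := by
    by_contra hne
    obtain ⟨ε, hε, H⟩ := TLoc_sign hφ ht₀ hne
    refine key ε hε fun t ht htε _ h0 => ?_
    have := H t ht htε
    rw [h0, mul_zero] at this
    exact lt_irrefl _ this
  have h2 : p t₀ (W F G (t₀, q t₀)) = 0 := by
    by_contra hne
    obtain ⟨ε, hε, H⟩ := TLoc_sign hψ ht₀ hne
    refine key ε hε fun t ht htε htn h0 => ?_
    set c := p t₀ (W F G (t₀, q t₀)) with hc
    have h3 := phi_eq E h.adm h.sol hp.adj ht₀ ht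
    rw [h0, h1, sub_zero] at h3
    have hsub : uIcc t₀ t ⊆ Icc 0 T := by
      intro x hx
      exact ⟨(le_min ht₀.1 ht.1).trans hx.1, hx.2.trans (max_le ht₀.2 ht.2)⟩
    have hnear : ∀ x ∈ uIcc t₀ t, |x - t₀| < ε := by
      intro x hx
      exact lt_of_le_of_lt (Set.abs_sub_left_of_mem_uIcc hx) htε
    have hcont : ContinuousOn (fun x => c * p x (W F G (x, q x))) (uIcc t₀ t) :=
      continuousOn_const.mul (hψ.mono hsub)
    have h4 : ∫ x in t₀..t, c * p x (W F G (x, q x)) = 0 := by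
      rw [intervalIntegral.integral_const_mul, ← h3, mul_zero]
    have hpos : ∀ x ∈ uIcc t₀ t, 0 < c * p x (W F G (x, q x)) := fun x hx =>
      H x (hsub hx) (hnear x hx)
    rcases lt_or_gt_of_ne htn with hlt | hlt
    · have h5 : 0 < ∫ x in t..t₀, c * p x (W F G (x, q x)) := by
        refine intervalIntegral.intervalIntegral_pos_of_pos_on ?_ (fun x hx => ?_) hlt
        · exact (hcont.intervalIntegrable).symm
        · exact hpos x (by rw [uIcc_of_ge hlt.le]; exact ⟨hx.1.le, hx.2.le⟩)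
      rw [intervalIntegral.integral_symm] at h4
      linarith
    · have h5 : 0 < ∫ x in t₀..t, c * p x (W F G (x, q x)) := by
        refine intervalIntegral.intervalIntegral_pos_of_pos_on ?_ (fun x hx => ?_) hlt
        · exact hcont.intervalIntegrable
        · exact hpos x (by rw [uIcc_of_le hlt.le]; exact ⟨hx.1.le, hx.2.le⟩)
      linarith
  exact ⟨h1, h2⟩

end Pool.Agent.Lib.MP_28b8de_an.TT
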