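import Pool.Agent.Lib.MP_28b8de_an.T.TLcB

/-!
MP_28b8de_an, module TLcR.

Relay data from local data.
PROOF.  Near t₀ (on Ioo (t₀-δ) (t₀+δ)): 2c₀ ≤ |g(w,Y,X)| ≤ K₀ , |α/g| ≤ 1 - c₀ (continuity of α, g at (w t₀,0,0), strict inequality hu), α, g, α/g are Lipschitz along the curve (an_lip, lc_lip;
the quotient is analytic near the point since g ≠ 0).  For s < s': Xeq from Lc.Xeq with X s = 0: α + u g = g (u - v); ϕeq from Lq.  s' - s < 2δ ≤ 1.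
-/

set_option linter.unusedSectionVars false

namespace Pool.Agent.Lib.MP_28b8de_an.TT

open Filter Topology Set MeasureTheory
open Pool.Agent.Lib.MP_28b8de_an.PT (Adm Perf gron gron_back volterra kder ae_zero perf_inner stay)

variable {W : Type*} [NormedAddCommGroup W] [NormedSpace ℝ W] [FiniteDimensional ℝ W]
  {K a b t₀ : ℝ} {u : ℝ → ℝ} {w w' : ℝ → W} {Y y' X : ℝ → ℝ} {α g : W × ℝ × ℝ → ℝ}

/-- a function analytic at the point is Lipschitz along the curve -/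
private theorem TLcR_lip (h : Lc K u a b w w' Y y' X α g) (h₀ : Lp a b w Y X α g t₀)
    {f : W × ℝ × ℝ → ℝ} (hf : AnalyticAt ℝ f (w t₀, 0, 0)) :
    ∃ L δ : ℝ, 0 ≤ L ∧ 0 < δ ∧ ∀ s ∈ Ioo (t₀ - δ) (t₀ + δ), ∀ t ∈ Ioo (t₀ - δ) (t₀ + δ),
      |f (w s, Y s, X s) - f (w t, Y t, X t)| ≤ L * |s - t| := by
  obtain ⟨K₁, hK₁, ρ, hρ, hL⟩ := an_lip hf
  have e1 : ∀ᶠ z in 𝓝 (w t₀, (0 : ℝ), (0 : ℝ)), z ∈ Metric.ball (w t₀, (0 : ℝ), (0 : ℝ)) ρ :=
    Metric.ball_mem_nhds _ hρ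
  obtain ⟨δ₁, hδ₁, -, h1⟩ := lc_near h h₀ e1
  obtain ⟨K₂, δ₂, hK₂, hδ₂, -, h2⟩ := lc_lip h h₀
  refine ⟨K₁ * K₂, min δ₁ δ₂, by positivity, lt_min hδ₁ hδ₂, ?_⟩
  have m1 := min_le_left δ₁ δ₂
  have m2 := min_le_right δ₁ δ₂
  intro s hs t ht
  have s1 : s ∈ Ioo (t₀ - δ₁) (t₀ + δ₁) := ⟨by linarith [hs.1], by linarith [hs.2]⟩
  have t1 : t ∈ Ioo (t₀ - δ₁) (t₀ + δ₁) := ⟨by linarith [ht.1], by linarith [ht.2]⟩
  have s2 : s ∈ Ioo (t₀ - δ₂) (t₀ + δ₂) := ⟨by linarith [hs.1], by linarith [hs.2]⟩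
  have t2 : t ∈ Ioo (t₀ - δ₂) (t₀ + δ₂) := ⟨by linarith [ht.1], by linarith [ht.2]⟩
  have h3 := hL _ (h1 s s1) _ (h1 t t1)
  rw [Real.norm_eq_abs] at h3
  obtain ⟨q1, q2, q3⟩ := h2 s s2 t t2
  have h4 : ‖(w s, Y s, X s) - (w t, Y t, X t)‖ ≤ K₂ * |s - t| := by
    rw [Prod.norm_def, Prod.norm_def]
    simp only [Prod.fst_sub, Prod.snd_sub, Real.norm_eq_abs]
    exact max_le q1 (max_le q2 q3)
  calc _ ≤ K₁ * ‖(w s, Y s, X s) - (w t, Y t, X t)‖ := h3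
    _ ≤ K₁ * (K₂ * |s - t|) := mul_le_mul_of_nonneg_left h4 hK₁
    _ = K₁ * K₂ * |s - t| := by ring

theorem lc_rl (h : Lc K u a b w w' Y y' X α g) (h₀ : Lp a b w Y X α g t₀)
    (hu : |α (w t₀, 0, 0)| < |g (w t₀, 0, 0)|) {ϕ n : ℝ → ℝ} (hq : Lq K u a b w Y X g ϕ n) :
    ∃ K₀ c₀ δ : ℝ, 1 ≤ K₀ ∧ 0 < c₀ ∧ 0 < δ ∧ ∀ K' c' s s' : ℝ, K₀ ≤ K' → 0 < c' → c' ≤ c₀ →
      s < s' → |s - t₀| < δ → |s' - t₀| < δ → X s = 0 → X s' = 0 → ϕ s = 0 → ϕ s' = 0 →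
      Rl K' c' s s' X ϕ u (fun t => g (w t, Y t, X t))
        (fun t => -(α (w t, Y t, X t) / g (w t, Y t, X t))) n := by
  have hg0 : 0 < |g (w t₀, 0, 0)| := (abs_nonneg _).trans_lt hu
  have hgne : g (w t₀, 0, 0) ≠ 0 := abs_pos.1 hg0
  set G := |g (w t₀, 0, 0)| with hG
  set q := |α (w t₀, 0, 0)| / G with hq0
  have hq1 : q < 1 := by rwa [hq0, div_lt_one hg0]
  have hqn : 0 ≤ q := by positivity
  -- analytic quotient
  have hv : AnalyticAt ℝ (fun z => -(α z / g z)) (w t₀, 0, 0) := (h₀.αa.div h₀.ga hgne).neg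
  obtain ⟨L₁, δ₁, hL₁, hδ₁, lip1⟩ := TLcR_lip h h₀ h₀.ga
  obtain ⟨L₂, δ₂, hL₂, hδ₂, lip2⟩ := TLcR_lip h h₀ hv
  have hgc : Tendsto (fun z => |g z|) (𝓝 (w t₀, (0 : ℝ), (0 : ℝ))) (𝓝 G) := h₀.ga.continuousAt.abs
  have hvc : Tendsto (fun z => |(-(α z / g z))|) (𝓝 (w t₀, (0 : ℝ), (0 : ℝ))) (𝓝 q) := by
    have := hv.continuousAt.abs
    have e : |(-(α (w t₀, 0, 0) / g (w t₀, 0, 0)))| = q := by rw [abs_neg, abs_div]
    rw [ContinuousAt, e] at this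
    exact this
  have ev1 : ∀ᶠ z in 𝓝 (w t₀, (0 : ℝ), (0 : ℝ)), G / 2 < |g z| := hgc.eventually (lt_mem_nhds (by linarith))
  have ev2 : ∀ᶠ z in 𝓝 (w t₀, (0 : ℝ), (0 : ℝ)), |g z| < 2 * G := hgc.eventually (gt_mem_nhds (by linarith))
  have ev3 : ∀ᶠ z in 𝓝 (w t₀, (0 : ℝ), (0 : ℝ)), |(-(α z / g z))| < 1 - (1 - q) / 2 :=
    hvc.eventually (gt_mem_nhds (by linarith))
  obtain ⟨δ₃, hδ₃, hsub, hP⟩ := lc_near h h₀ (ev1.and (ev2.and ev3))
  set δ := min (min δ₁ δ₂) (min δ₃ (1 / 2)) with hδ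
  have hδ0 : 0 < δ := lt_min (lt_min hδ₁ hδ₂) (lt_min hδ₃ (by norm_num))
  have d1 : δ ≤ δ₁ := (min_le_left _ _).trans (min_le_left _ _)
  have d2 : δ ≤ δ₂ := (min_le_left _ _).trans (min_le_right _ _)
  have d3 : δ ≤ δ₃ := (min_le_right _ _).trans (min_le_left _ _)
  have d4 : δ ≤ 1 / 2 := (min_le_right _ _).trans (min_le_right _ _)
  refine ⟨max (max 1 K) (max (max L₁ L₂) (2 * G)), min (G / 2) ((1 - q) / 2), δ,
    (le_max_left _ _).trans (le_max_left _ _), lt_min (by linarith) (by linarith), hδ0, ?_⟩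
  intro K' c' s s' hK' hc' hc hss hs hs' X0 X1 p0 p1
  have k1 : 1 ≤ K' := ((le_max_left _ _).trans (le_max_left _ _)).trans hK'
  have k2 : K ≤ K' := ((le_max_right _ _).trans (le_max_left _ _)).trans hK'
  have k3 : L₁ ≤ K' := (((le_max_left _ _).trans (le_max_left _ _)).trans (le_max_right _ _)).trans hK'
  have k4 : L₂ ≤ K' := (((le_max_right _ _).trans (le_max_left _ _)).trans (le_max_right _ _)).trans hK'
  have k5 : 2 * G ≤ K' := ((le_max_right _ _).trans (le_max_right _ _)).trans hK'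
  have c1 : c' ≤ G / 2 := hc.trans (min_le_left _ _)
  have c2 : c' ≤ (1 - q) / 2 := hc.trans (min_le_right _ _)
  rw [abs_lt] at hs hs'
  have hIδ : ∀ t ∈ Icc s s', t ∈ Ioo (t₀ - δ) (t₀ + δ) := fun t ht =>
    ⟨by linarith [ht.1], by linarith [ht.2]⟩
  have hI1 : ∀ t ∈ Icc s s', t ∈ Ioo (t₀ - δ₁) (t₀ + δ₁) := fun t ht =>
    ⟨by linarith [(hIδ t ht).1], by linarith [(hIδ t ht).2]⟩
  have hI2 : ∀ t ∈ Icc s s', t ∈ Ioo (t₀ - δ₂) (t₀ + δ₂) := fun t ht =>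
    ⟨by linarith [(hIδ t ht).1], by linarith [(hIδ t ht).2]⟩
  have hI3 : ∀ t ∈ Icc s s', t ∈ Ioo (t₀ - δ₃) (t₀ + δ₃) := fun t ht =>
    ⟨by linarith [(hIδ t ht).1], by linarith [(hIδ t ht).2]⟩
  have hIab : ∀ t ∈ Icc s s', t ∈ Ioo a b := fun t ht => hsub (hI3 t ht)
  have hsm : s ∈ Icc s s' := left_mem_Icc.2 hss.le
  have hsm' : s' ∈ Icc s s' := right_mem_Icc.2 hss.le
  have hgn : ∀ t ∈ Icc s s', g (w t, Y t, X t) ≠ 0 := fun t ht => by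
    have := (hP t (hI3 t ht)).1
    exact abs_pos.1 (by linarith)
  exact {
    hs := hss
    hs1 := by linarith
    hc := hc'
    hK := k1
    adm := h.adm
    usgn := by
      filter_upwards [hq.usgn] with t ht hts
      exact ht (hIab t hts)
    Xc := h.Xc.mono hIab
    ϕc := hq.ϕc.mono hIab
    gl := fun t ht r hr => (lip1 t (hI1 t ht) r (hI1 r hr)).trans
      (mul_le_mul_of_nonneg_right k3 (abs_nonneg _))
    vl := fun t ht r hr => (lip2 t (hI2 t ht) r (hI2 r hr)).trans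
      (mul_le_mul_of_nonneg_right k4 (abs_nonneg _))
    g0 := fun t ht => by
      have := (hP t (hI3 t ht)).1
      show c' ≤ |g (w t, Y t, X t)|
      linarith
    g1 := fun t ht => by
      have := (hP t (hI3 t ht)).2.1
      show |g (w t, Y t, X t)| ≤ K'
      linarith
    v1 := fun t ht => by
      have := (hP t (hI3 t ht)).2.2
      show |(-(α (w t, Y t, X t) / g (w t, Y t, X t)))| ≤ 1 - c'
      linarith
    ni := hq.ni s (hIab s hsm) s' (hIab s' hsm')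
    nb := fun t ht => (hq.nb t (hIab t ht)).trans k2
    Xeq := fun t ht => by
      have hX := h.Xeq s (hIab s hsm) t (hIab t ht)
      rw [X0, sub_zero] at hX
      rw [hX]
      refine intervalIntegral.integral_congr fun r hr => ?_
      have hr' : r ∈ Icc s s' := by
        rw [uIcc_of_le ht.1] at hr
        exact ⟨hr.1, hr.2.trans ht.2⟩
      have := hgn r hr'
      show α (w r, Y r, X r) + u r * g (w r, Y r, X r) =
        g (w r, Y r, X r) * (u r - -(α (w r, Y r, X r) / g (w r, Y r, X r)))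
      field_simp
      ring
    ϕeq := fun t ht => by
      have hX := hq.ϕeq s (hIab s hsm) t (hIab t ht)
      rwa [p0, sub_zero] at hX
    X1 := X1
    ϕ1 := p1 }

end Pool.Agent.Lib.MP_28b8de_an.TT
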