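import Pool.Agent.Lib.MP_28b8de_an.T.TTri

/-!
MP_28b8de_an, module TSat.

Saturated singular control: X' = g (u - v), v near ν = ±1.
PROOF.  m(t) := ∫_s^t (1 - ν u) ≥ 0, nondecreasing, 1 - ν u ≥ 0.  g has constant sign on [s,s'] (continuous, |g| ≥ c).  g (u - v) = -ν g (1 - ν u) + g (ν - v), so
X(t) = -ν ∫_s^t g (1 - ν u) + ∫_s^t g (ν - v), where |∫_s^t g (1-νu)| lies between c m(t) and K m(t), and the second integral is ≤ K² ∫_s^t (|X|+|Y|).
S := |X| + |Y|: S(t) ≤ K m(t) + (K² + K) ∫_s^t S ≤ K m(s') .. more precisely for t ≤ t₁: S(t) ≤ K m(t₁) + (K²+K) ∫_s^t S, so (gron) S(t₁) ≤ K m(t₁) exp((K²+K) δ).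
At s': 0 = |X s'| ≥ c m(s') - K² ∫_s^{s'} S ≥ c m(s') - K³ δ e^{..} m(s'), so m(s') = 0 for small δ, m = 0 on [s,s'], S = 0.
-/

set_option linter.unusedSectionVars false

namespace Pool.Agent.Lib.MP_28b8de_an.TT

open Filter Topology Set MeasureTheory
open Pool.Agent.Lib.MP_28b8de_an.PT (Adm Perf gron gron_back volterra kder ae_zero perf_inner stay)

theorem gap_sat {K c : ℝ} (hK : 1 ≤ K) (hc : 0 < c) :
    ∃ δ > 0, ∀ (s s' ν : ℝ) (X Y u g v : ℝ → ℝ), s < s' → s' - s ≤ δ → (ν = 1 ∨ ν = -1) →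
      Adm u → ContinuousOn X (Icc s s') → ContinuousOn Y (Icc s s') →
      ContinuousOn g (Icc s s') → ContinuousOn v (Icc s s') →
      (∀ t ∈ Icc s s', c ≤ |g t|) → (∀ t ∈ Icc s s', |g t| ≤ K) →
      (∀ t ∈ Icc s s', |v t - ν| ≤ K * (|X t| + |Y t|)) →
      (∀ t ∈ Icc s s', X t = ∫ r in s..t, g r * (u r - v r)) → X s' = 0 →
      (∀ t ∈ Icc s s', |Y t| ≤ K * ∫ r in s..t, (|X r| + |Y r|)) →
      ∀ t ∈ Icc s s', X t = 0 ∧ Y t = 0 := by
  have hK0 : 0 < K := by linarith
  have hKK : 0 < K ^ 2 + K := by positivity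
  refine ⟨min (1 / (K ^ 2 + K)) (c / (6 * K ^ 3)), lt_min (by positivity) (by positivity), ?_⟩
  intro s s' ν X Y u g v hss hδ hν hu Xc Yc gc vc hgc hgK hv hX hX0 hY
  have hsm : s ∈ Icc s s' := ⟨le_refl s, hss.le⟩
  have hs'm : s' ∈ Icc s s' := ⟨hss.le, le_refl s'⟩
  have hδ1 : s' - s ≤ 1 / (K ^ 2 + K) := hδ.trans (min_le_left _ _)
  have hδ2 : s' - s ≤ c / (6 * K ^ 3) := hδ.trans (min_le_right _ _)
  have hν2 : ν * ν = 1 := by rcases hν with h | h <;> rw [h] <;> norm_num
  have hui : ∀ a b : ℝ, IntervalIntegrable u volume a b := by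
    intro a b
    rw [intervalIntegrable_iff]
    refine Measure.integrableOn_of_bounded (M := 1) (by simp)
      hu.1.aestronglyMeasurable (Eventually.of_forall fun r => ?_)
    rw [Real.norm_eq_abs]
    exact hu.2 r
  set w : ℝ → ℝ := fun r => 1 - ν * u r with hw
  have hwi : ∀ a b : ℝ, IntervalIntegrable w volume a b := fun a b =>
    (intervalIntegrable_const).sub ((hui a b).const_mul ν)
  have hw0 : ∀ r, 0 ≤ w r := by
    intro r
    have := abs_le.mp (hu.2 r)
    rcases hν with h | h <;> simp only [hw, h] <;> linarith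
  have huν : ∀ r, u r - ν = -(ν * w r) := by
    intro r
    show u r - ν = -(ν * (1 - ν * u r))
    linear_combination (-(u r)) * hν2
  have huνa : ∀ r, |u r - ν| = w r := by
    intro r
    rw [huν, abs_neg, abs_mul, abs_of_nonneg (hw0 r)]
    have : |ν| = 1 := by rcases hν with h | h <;> rw [h] <;> norm_num
    rw [this, one_mul]
  set S : ℝ → ℝ := fun r => |X r| + |Y r| with hS
  have Sc : ContinuousOn S (Icc s s') := (Xc.abs).add (Yc.abs)
  have hS0 : ∀ r, 0 ≤ S r := fun r => add_nonneg (abs_nonneg _) (abs_nonneg _)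
  have hSi : ∀ t ∈ Icc s s', IntervalIntegrable S volume s t := by
    intro t ht
    apply (Sc.mono ?_).intervalIntegrable
    rw [uIcc_of_le ht.1]
    exact Icc_subset_Icc_right ht.2
  set m : ℝ := ∫ r in s..s', w r with hm
  have hm0 : 0 ≤ m := intervalIntegral.integral_nonneg hss.le (fun r _ => hw0 r)
  have huvi : ∀ t ∈ Icc s s', IntervalIntegrable (fun r => g r * (u r - v r)) volume s t := by
    intro t ht
    have h1 : Icc s t ⊆ Icc s s' := Icc_subset_Icc_right ht.2
    have h2 : IntervalIntegrable v volume s t := by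
      apply (vc.mono ?_).intervalIntegrable
      rw [uIcc_of_le ht.1]; exact h1
    refine ((hui s t).sub h2).continuousOn_mul ?_
    rw [uIcc_of_le ht.1]; exact gc.mono h1
  -- pointwise bound
  have hpt : ∀ r ∈ Icc s s', |g r * (u r - v r)| ≤ K * w r + K ^ 2 * S r := by
    intro r hr
    rw [abs_mul]
    have h1 : |u r - v r| ≤ w r + K * S r := by
      have h2 : u r - v r = (u r - ν) + -(v r - ν) := by ring
      rw [h2]
      refine (abs_add_le _ _).trans ?_
      rw [huνa, abs_neg]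
      have := hv r hr
      have h3 : S r = |X r| + |Y r| := rfl
      rw [h3]
      linarith
    have h4 : 0 ≤ w r + K * S r := add_nonneg (hw0 r) (mul_nonneg hK0.le (hS0 r))
    calc |g r| * |u r - v r| ≤ K * (w r + K * S r) :=
          mul_le_mul (hgK r hr) h1 (abs_nonneg _) hK0.le
      _ = K * w r + K ^ 2 * S r := by ring
  have hXb : ∀ t ∈ Icc s s', |X t| ≤ K * m + K ^ 2 * ∫ r in s..t, S r := by
    intro t ht
    rw [hX t ht]
    have h1 : |∫ r in s..t, g r * (u r - v r)| ≤ ∫ r in s..t, |g r * (u r - v r)| :=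
      intervalIntegral.abs_integral_le_integral_abs ht.1
    have h2 : ∫ r in s..t, |g r * (u r - v r)| ≤ ∫ r in s..t, (K * w r + K ^ 2 * S r) := by
      apply intervalIntegral.integral_mono_on ht.1 (huvi t ht).abs
        (((hwi s t).const_mul K).add ((hSi t ht).const_mul (K ^ 2)))
      intro r hr
      exact hpt r ⟨hr.1, hr.2.trans ht.2⟩
    have h3 : ∫ r in s..t, (K * w r + K ^ 2 * S r)
        = K * (∫ r in s..t, w r) + K ^ 2 * ∫ r in s..t, S r := by
      rw [intervalIntegral.integral_add ((hwi s t).const_mul K) ((hSi t ht).const_mul (K ^ 2)),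
        intervalIntegral.integral_const_mul, intervalIntegral.integral_const_mul]
    have h4 : ∫ r in s..t, w r ≤ m := by
      have := intervalIntegral.integral_add_adjacent_intervals (hwi s t) (hwi t s')
      have h5 : 0 ≤ ∫ r in t..s', w r := intervalIntegral.integral_nonneg ht.2 (fun r _ => hw0 r)
      rw [hm]
      linarith
    have h6 := mul_le_mul_of_nonneg_left h4 hK0.le
    linarith
  have hSb : ∀ t ∈ Icc s s', S t ≤ K * m + (K ^ 2 + K) * ∫ r in s..t, S r := by
    intro t ht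
    have h1 := hXb t ht
    have h2 : |Y t| ≤ K * ∫ r in s..t, S r := hY t ht
    have h3 : S t = |X t| + |Y t| := rfl
    rw [h3, add_mul]
    linarith
  have hg := gron Sc hKK.le hSb
  have hS3 : ∀ t ∈ Icc s s', S t ≤ 3 * K * m := by
    intro t ht
    have h1 := hg t ht
    have h2 : (K ^ 2 + K) * (t - s) ≤ 1 := by
      have h3 : t - s ≤ 1 / (K ^ 2 + K) := by linarith [ht.2]
      calc (K ^ 2 + K) * (t - s) ≤ (K ^ 2 + K) * (1 / (K ^ 2 + K)) :=
            mul_le_mul_of_nonneg_left h3 hKK.le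
        _ = 1 := by field_simp
    have h4 : Real.exp ((K ^ 2 + K) * (t - s)) ≤ 3 := by
      have h5 := Real.exp_le_exp.mpr h2
      have h6 := Real.exp_one_lt_d9
      linarith
    have h7 : 0 ≤ K * m := mul_nonneg hK0.le hm0
    calc S t ≤ K * m * Real.exp ((K ^ 2 + K) * (t - s)) := h1
      _ ≤ K * m * 3 := mul_le_mul_of_nonneg_left h4 h7
      _ = 3 * K * m := by ring
  -- the sign of `g`
  have hsign : ∃ σ : ℝ, σ * σ = 1 ∧ |σ| = 1 ∧ ∀ t ∈ Icc s s', g t = σ * |g t| := by
    have hgne : ∀ t ∈ Icc s s', g t ≠ 0 := by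
      intro t ht h0
      have := hgc t ht
      rw [h0, abs_zero] at this
      linarith
    rcases lt_or_gt_of_ne (hgne s hsm) with h | h
    · refine ⟨-1, by norm_num, by norm_num, ?_⟩
      intro t ht
      have h1 : g t ≤ 0 := by
        by_contra hc'
        have hc2 : 0 ≤ g t := (not_le.mp hc').le
        obtain ⟨r, hr, hr0⟩ := intermediate_value_Icc ht.1 (gc.mono (Icc_subset_Icc_right ht.2)) ⟨h.le, hc2⟩
        exact hgne r ⟨hr.1, hr.2.trans ht.2⟩ hr0
      rw [abs_of_nonpos h1]; ring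
    · refine ⟨1, by norm_num, by norm_num, ?_⟩
      intro t ht
      have h1 : 0 ≤ g t := by
        by_contra hc'
        have hc2 : g t ≤ 0 := (not_le.mp hc').le
        obtain ⟨r, hr, hr0⟩ := intermediate_value_Icc' ht.1 (gc.mono (Icc_subset_Icc_right ht.2)) ⟨hc2, h.le⟩
        exact hgne r ⟨hr.1, hr.2.trans ht.2⟩ hr0
      rw [abs_of_nonneg h1]; ring
  obtain ⟨σ, hσ, hσa, hgσ⟩ := hsign
  have hgwi : IntervalIntegrable (fun r => |g r| * w r) volume s s' := by
    refine (hwi s s').continuousOn_mul ?_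
    rw [uIcc_of_le hss.le]; exact gc.abs
  have hgvi : IntervalIntegrable (fun r => g r * (ν - v r)) volume s s' := by
    apply ContinuousOn.intervalIntegrable
    rw [uIcc_of_le hss.le]
    exact gc.mul (continuousOn_const.sub vc)
  have hdec : ∫ r in s..s', g r * (u r - v r)
      = -(σ * ν) * (∫ r in s..s', |g r| * w r) + ∫ r in s..s', g r * (ν - v r) := by
    rw [← intervalIntegral.integral_const_mul,
      ← intervalIntegral.integral_add (hgwi.const_mul _) hgvi]
    apply intervalIntegral.integral_congr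
    intro r hr
    rw [uIcc_of_le hss.le] at hr
    have h1 := hgσ r hr
    have h2 := huν r
    show g r * (u r - v r) = -(σ * ν) * (|g r| * w r) + g r * (ν - v r)
    have h3 : -(σ * ν) * (|g r| * w r) = -(ν * w r) * (σ * |g r|) := by ring
    rw [h3, ← h2, ← h1]
    ring
  have hzero : -(σ * ν) * (∫ r in s..s', |g r| * w r) + ∫ r in s..s', g r * (ν - v r) = 0 := by
    rw [← hdec, ← hX s' hs'm, hX0]
  have hle1 : c * m ≤ ∫ r in s..s', |g r| * w r := by
    rw [hm, ← intervalIntegral.integral_const_mul]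
    apply intervalIntegral.integral_mono_on hss.le ((hwi s s').const_mul c) hgwi
    intro r hr
    exact mul_le_mul_of_nonneg_right (hgc r hr) (hw0 r)
  have hle2 : |∫ r in s..s', g r * (ν - v r)| ≤ (s' - s) * (K ^ 2 * (3 * K * m)) := by
    have h1 : |∫ r in s..s', g r * (ν - v r)| ≤ ∫ r in s..s', |g r * (ν - v r)| :=
      intervalIntegral.abs_integral_le_integral_abs hss.le
    have h2 : ∫ r in s..s', |g r * (ν - v r)| ≤ ∫ r in s..s', K ^ 2 * (3 * K * m) := by
      apply intervalIntegral.integral_mono_on hss.le hgvi.abs intervalIntegrable_const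
      intro r hr
      rw [abs_mul]
      have h3 : |ν - v r| ≤ K * S r := by
        rw [abs_sub_comm]; exact hv r hr
      have h4 := hS3 r hr
      calc |g r| * |ν - v r| ≤ K * (K * S r) :=
            mul_le_mul (hgK r hr) h3 (abs_nonneg _) hK0.le
        _ = K ^ 2 * S r := by ring
        _ ≤ K ^ 2 * (3 * K * m) := mul_le_mul_of_nonneg_left h4 (by positivity)
    rw [intervalIntegral.integral_const, smul_eq_mul] at h2
    linarith
  have hle3 : ∫ r in s..s', |g r| * w r ≤ |∫ r in s..s', g r * (ν - v r)| := by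
    have h1 : ∫ r in s..s', g r * (ν - v r) = (σ * ν) * ∫ r in s..s', |g r| * w r := by linarith
    have h2 : 0 ≤ ∫ r in s..s', |g r| * w r :=
      intervalIntegral.integral_nonneg hss.le (fun r _ => mul_nonneg (abs_nonneg _) (hw0 r))
    have h3 : |ν| = 1 := by rcases hν with h | h <;> rw [h] <;> norm_num
    rw [h1, abs_mul, abs_mul, hσa, h3, abs_of_nonneg h2]
    linarith
  have hm1 : m = 0 := by
    by_contra hne
    have hmp : 0 < m := lt_of_le_of_ne hm0 (Ne.symm hne)
    have h1 : c * m ≤ (s' - s) * (K ^ 2 * (3 * K * m)) := hle1.trans (hle3.trans hle2)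
    have h2 : (s' - s) * (K ^ 2 * (3 * K * m)) ≤ c / (6 * K ^ 3) * (K ^ 2 * (3 * K * m)) :=
      mul_le_mul_of_nonneg_right hδ2 (by positivity)
    have h3 : c / (6 * K ^ 3) * (K ^ 2 * (3 * K * m)) = c * m / 2 := by
      field_simp
      ring
    have h4 : 0 < c * m := mul_pos hc hmp
    linarith
  intro t ht
  have h1 := hS3 t ht
  rw [hm1, mul_zero] at h1
  have h2 : |X t| + |Y t| ≤ 0 := h1
  have h3 := abs_nonneg (X t)
  have h4 := abs_nonneg (Y t)
  exact ⟨abs_eq_zero.mp (by linarith), abs_eq_zero.mp (by linarith)⟩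

end Pool.Agent.Lib.MP_28b8de_an.TT
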