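import Pool.Agent.Lib.MP_28b8de_an.T.TLcB
import Pool.Agent.Lib.MP_28b8de_an.T.TSat

/-!
MP_28b8de_an, module TLcS.

Degenerate and saturated cases of local data.
PROOFS.  lc_zero: α and g are Lipschitz near (w t₀,0,0) (an_lip) and vanish at (v,0,0), so |α + u g| ≤ K₂(|X| + |Y|) along the curve near t₀; |y'| ≤ K'(|X|+|Y|).  S := |X| + |Y|, S(t₀) = 0,
S(t) ≤ K₃ |∫_{t₀}^t S| near t₀: zero_near.
lc_sat: near t₀ g ≠ 0 along the curve; v := -(α/g); X t - X s = ∫ g (u - v); |v - ν| = |α + ν g|/|g| ≤ K₂(|X|+|Y|) (α + ν g is Lipschitz and vanishes at (v,0,0)).  |Y t| ≤ ∫_s^t |y'| ≤ K' ∫ (|X|+|Y|).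
gap_sat with a common large K and small c; δ also smaller than half the δ of gap_sat.
-/

set_option linter.unusedSectionVars false

namespace Pool.Agent.Lib.MP_28b8de_an.TT

open Filter Topology Set MeasureTheory
open Pool.Agent.Lib.MP_28b8de_an.PT (Adm Perf gron gron_back volterra kder ae_zero perf_inner stay)

variable {W : Type*} [NormedAddCommGroup W] [NormedSpace ℝ W] [FiniteDimensional ℝ W]
  {K a b t₀ : ℝ} {u : ℝ → ℝ} {w w' : ℝ → W} {Y y' X : ℝ → ℝ} {α g : W × ℝ × ℝ → ℝ}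


private theorem TLcS_cont (h : Lc K u a b w w' Y y' X α g) :
    ContinuousOn (fun t => (w t, Y t, X t)) (Ioo a b) :=
  ContinuousOn.prodMk (fun t ht => (h.wd t ht).continuousAt.continuousWithinAt)
    (ContinuousOn.prodMk (fun t ht => (h.Yd t ht).continuousAt.continuousWithinAt) h.Xc)

private theorem TLcS_small {f : W × ℝ × ℝ → ℝ} {w₀ : W} (hf : AnalyticAt ℝ f (w₀, 0, 0))
    (h0 : ∀ᶠ v in 𝓝 w₀, f (v, 0, 0) = 0) :
    ∃ K : ℝ, 0 ≤ K ∧ ∀ᶠ z in 𝓝 (w₀, (0 : ℝ), (0 : ℝ)), |f z| ≤ K * (|z.2.2| + |z.2.1|) := by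
  obtain ⟨K, hK, ρ, hρ, hL⟩ := an_lip hf
  refine ⟨K, hK, ?_⟩
  have e1 : ∀ᶠ z in 𝓝 (w₀, (0 : ℝ), (0 : ℝ)), z ∈ Metric.ball (w₀, (0 : ℝ), (0 : ℝ)) ρ :=
    Metric.ball_mem_nhds _ hρ
  have hc : Tendsto (fun z : W × ℝ × ℝ => (z.1, (0 : ℝ), (0 : ℝ))) (𝓝 (w₀, 0, 0))
      (𝓝 (w₀, 0, 0)) := by
    have : Continuous (fun z : W × ℝ × ℝ => (z.1, (0 : ℝ), (0 : ℝ))) := by fun_prop
    exact this.tendsto' _ _ rfl
  have e2 := hc.eventually e1
  have e3 : ∀ᶠ z in 𝓝 (w₀, (0 : ℝ), (0 : ℝ)), f (z.1, 0, 0) = 0 :=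
    (continuous_fst.tendsto (w₀, (0 : ℝ), (0 : ℝ))).eventually h0
  filter_upwards [e1, e2, e3] with z z1 z2 z3
  have h := hL z z1 _ z2
  rw [z3, sub_zero, Real.norm_eq_abs] at h
  refine h.trans (mul_le_mul_of_nonneg_left ?_ hK)
  obtain ⟨p, q, r⟩ := z
  have e : (p, q, r) - (p, (0 : ℝ), (0 : ℝ)) = (0, q, r) := by simp
  rw [e, Prod.norm_def, Prod.norm_def]
  simp only [norm_zero, Real.norm_eq_abs]
  have h1 := abs_nonneg q
  have h2 := abs_nonneg r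
  exact max_le (by positivity) (max_le (by linarith) (by linarith))

private theorem TLcS_y (h : Lc K u a b w w' Y y' X α g) {s t : ℝ} (hs : s ∈ Ioo a b)
    (ht : t ∈ Ioo a b) : Y t - Y s = ∫ r in s..t, y' r := by
  have hsub : uIcc s t ⊆ Ioo a b := (ordConnected_Ioo).uIcc_subset hs ht
  rw [intervalIntegral.integral_eq_sub_of_hasDerivAt (fun r hr => h.Yd r (hsub hr))
    ((h.Yc.mono hsub).intervalIntegrable)]

/-- an integral is bounded by the integral of a majorant -/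
private theorem TLcS_int {f S : ℝ → ℝ} {s t k : ℝ} (hf : ∀ r ∈ uIcc s t, |f r| ≤ k * S r)
    (hS : ContinuousOn S (uIcc s t)) (hk : 0 ≤ k) :
    |∫ r in s..t, f r| ≤ k * |∫ r in s..t, S r| := by
  have h := intervalIntegral.norm_integral_le_abs_of_norm_le (f := f) (g := fun r => k * S r)
    (a := s) (b := t) (μ := volume)
    (ae_restrict_of_forall_mem measurableSet_uIoc fun r hr => by
      rw [Real.norm_eq_abs]; exact hf r (uIoc_subset_uIcc hr))
    ((hS.intervalIntegrable).const_mul k)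
  rw [Real.norm_eq_abs, intervalIntegral.integral_const_mul, abs_mul, abs_of_nonneg hk] at h
  exact h

theorem lc_zero (h : Lc K u a b w w' Y y' X α g) (h₀ : Lp a b w Y X α g t₀)
    (hα : ∀ᶠ v in 𝓝 (w t₀), α (v, 0, 0) = 0) (hg : ∀ᶠ v in 𝓝 (w t₀), g (v, 0, 0) = 0)
    {K' : ℝ} (hy : ∀ᶠ t in 𝓝 t₀, |y' t| ≤ K' * (|X t| + |Y t|)) :
    ∀ᶠ t in 𝓝 t₀, X t = 0 ∧ Y t = 0 := by
  obtain ⟨K₁, hK₁, e1⟩ := TLcS_small h₀.αa hα
  obtain ⟨K₂, hK₂, e2⟩ := TLcS_small h₀.ga hg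
  obtain ⟨δ, hδ, hsub, hP⟩ := lc_near h h₀ (e1.and e2)
  obtain ⟨δ', hδ', hy'⟩ := Metric.eventually_nhds_iff.1 hy
  set ρ := min δ δ' with hρ
  have hρ0 : 0 < ρ := lt_min hδ hδ'
  have hI : ∀ t ∈ Ioo (t₀ - ρ) (t₀ + ρ), t ∈ Ioo (t₀ - δ) (t₀ + δ) ∧ |y' t| ≤ |K'| * (|X t| + |Y t|) := by
    intro t ht
    have h1 : ρ ≤ δ := min_le_left _ _
    have h2 : ρ ≤ δ' := min_le_right _ _
    refine ⟨⟨by linarith [ht.1], by linarith [ht.2]⟩, ?_⟩
    have h3 : dist t t₀ < δ' := by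
      rw [Real.dist_eq, abs_lt]
      constructor <;> linarith [ht.1, ht.2]
    exact (hy' h3).trans (mul_le_mul_of_nonneg_right (le_abs_self _) (by positivity))
  have ht₀ : t₀ ∈ Ioo (t₀ - ρ) (t₀ + ρ) := ⟨by linarith, by linarith⟩
  have hSc : ContinuousOn (fun t => |X t| + |Y t|) (Ioo (t₀ - ρ) (t₀ + ρ)) := by
    have hs : Ioo (t₀ - ρ) (t₀ + ρ) ⊆ Ioo a b := fun t ht => hsub (hI t ht).1
    refine ContinuousOn.add ((h.Xc.mono hs).abs) (ContinuousOn.abs ?_)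
    exact fun t ht => (h.Yd t (hs ht)).continuousAt.continuousWithinAt
  have key := zero_near (f := fun t => |X t| + |Y t|) (K := K₁ + K₂ + |K'|) ht₀ hSc (by positivity) (by
    intro t ht
    have hu : uIcc t₀ t ⊆ Ioo (t₀ - ρ) (t₀ + ρ) := (ordConnected_Ioo).uIcc_subset ht₀ ht
    have ht0' := hsub (hI t₀ ht₀).1
    have ht' := hsub (hI t ht).1
    have hX := h.Xeq t₀ ht0' t ht'
    rw [h₀.X0, sub_zero] at hX
    have hY := TLcS_y h ht0' ht'
    rw [h₀.Y0, sub_zero] at hY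
    have b1 : |X t| ≤ (K₁ + K₂) * |∫ r in t₀..t, (|X r| + |Y r|)| := by
      rw [hX]
      refine TLcS_int ?_ (hSc.mono hu) (by positivity)
      intro r hr
      obtain ⟨p1, p2⟩ := hP r (hI r (hu hr)).1
      have p3 := h.adm.2 r
      have p4 : |u r * g (w r, Y r, X r)| ≤ 1 * (K₂ * (|X r| + |Y r|)) := by
        rw [abs_mul]
        exact mul_le_mul p3 p2 (abs_nonneg _) zero_le_one
      calc |α (w r, Y r, X r) + u r * g (w r, Y r, X r)|
          ≤ |α (w r, Y r, X r)| + |u r * g (w r, Y r, X r)| := abs_add_le _ _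
        _ ≤ K₁ * (|X r| + |Y r|) + 1 * (K₂ * (|X r| + |Y r|)) := add_le_add p1 p4
        _ = (K₁ + K₂) * (|X r| + |Y r|) := by ring
    have b2 : |Y t| ≤ |K'| * |∫ r in t₀..t, (|X r| + |Y r|)| := by
      rw [hY]
      exact TLcS_int (fun r hr => (hI r (hu hr)).2) (hSc.mono hu) (abs_nonneg _)
    have e3 : (∫ r in t₀..t, |(|X r| + |Y r|)|) = ∫ r in t₀..t, (|X r| + |Y r|) := by
      refine intervalIntegral.integral_congr fun r _ => ?_
      exact abs_of_nonneg (by positivity)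
    show |(|X t| + |Y t|)| ≤ _
    rw [e3, abs_of_nonneg (by positivity)]
    linarith)
  filter_upwards [Ioo_mem_nhds ht₀.1 ht₀.2] with t ht
  have h5 : |X t| + |Y t| = 0 := key t ht
  have h6 := abs_nonneg (X t)
  have h7 := abs_nonneg (Y t)
  exact ⟨abs_eq_zero.1 (by linarith), abs_eq_zero.1 (by linarith)⟩

theorem lc_sat (h : Lc K u a b w w' Y y' X α g) (h₀ : Lp a b w Y X α g t₀)
    (hg0 : g (w t₀, 0, 0) ≠ 0) {ν : ℝ} (hν : ν = 1 ∨ ν = -1)
    (hs : ∀ᶠ v in 𝓝 (w t₀), α (v, 0, 0) = -(ν * g (v, 0, 0)))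
    {K' : ℝ} (hy : ∀ᶠ t in 𝓝 t₀, |y' t| ≤ K' * (|X t| + |Y t|)) :
    ∃ δ > 0, ∀ s s' : ℝ, s < s' → |s - t₀| < δ → |s' - t₀| < δ → X s = 0 → Y s = 0 → X s' = 0 →
      ∀ t ∈ Icc s s', X t = 0 ∧ Y t = 0 := by
  have hga := h₀.ga
  have hfa : AnalyticAt ℝ (fun z : W × ℝ × ℝ => α z + ν * g z) (w t₀, 0, 0) :=
    h₀.αa.add (analyticAt_const.mul h₀.ga)
  obtain ⟨K₁, hK₁, e1⟩ := TLcS_small hfa (by
    filter_upwards [hs] with v hv
    rw [hv]; ring)
  set c := |g (w t₀, 0, 0)| / 2 with hc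
  have hc0 : 0 < c := by have := abs_pos.2 hg0; positivity
  have e2 : ∀ᶠ z in 𝓝 (w t₀, (0 : ℝ), (0 : ℝ)), c < |g z| ∧ |g z| < 4 * c := by
    have h1 : ContinuousAt (fun z => |g z|) (w t₀, (0 : ℝ), (0 : ℝ)) := hga.continuousAt.abs
    have h2 : |g (w t₀, 0, 0)| ∈ Ioo c (4 * c) := by
      constructor <;> · rw [hc]; have := abs_pos.2 hg0; linarith
    exact h1.eventually (Ioo_mem_nhds h2.1 h2.2)
  have e3 : ∀ᶠ z in 𝓝 (w t₀, (0 : ℝ), (0 : ℝ)), ContinuousAt g z ∧ ContinuousAt α z := by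
    filter_upwards [hga.eventually_analyticAt, h₀.αa.eventually_analyticAt] with z h1 h2
    exact ⟨h1.continuousAt, h2.continuousAt⟩
  obtain ⟨δ, hδ, hsub, hP⟩ := lc_near h h₀ (e1.and (e2.and e3))
  obtain ⟨δ', hδ', hy'⟩ := Metric.eventually_nhds_iff.1 hy
  set M := max 1 (max (K₁ / c) (max |K'| (4 * c))) with hM
  have hM1 : 1 ≤ M := le_max_left _ _
  have hM2 : K₁ / c ≤ M := le_trans (le_max_left _ _) (le_max_right _ _)
  have hM3 : |K'| ≤ M := le_trans (le_trans (le_max_left _ _) (le_max_right _ _)) (le_max_right _ _)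
  have hM4 : 4 * c ≤ M := le_trans (le_trans (le_max_right _ _) (le_max_right _ _)) (le_max_right _ _)
  obtain ⟨δ₁, hδ₁, hgap⟩ := gap_sat hM1 hc0
  refine ⟨min (min δ δ') (δ₁ / 2), lt_min (lt_min hδ hδ') (by positivity), ?_⟩
  intro s s' hss h1 h2 X0 Y0 X1
  have d1 : min (min δ δ') (δ₁ / 2) ≤ δ := (min_le_left _ _).trans (min_le_left _ _)
  have d2 : min (min δ δ') (δ₁ / 2) ≤ δ' := (min_le_left _ _).trans (min_le_right _ _)
  have d3 : min (min δ δ') (δ₁ / 2) ≤ δ₁ / 2 := min_le_right _ _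
  have a1 := abs_lt.1 h1
  have a2 := abs_lt.1 h2
  have hI : Icc s s' ⊆ Ioo (t₀ - δ) (t₀ + δ) := fun t ht =>
    ⟨by linarith [ht.1, a1.1], by linarith [ht.2, a2.2]⟩
  have hIab : Icc s s' ⊆ Ioo a b := hI.trans hsub
  have hyI : ∀ t ∈ Icc s s', |y' t| ≤ M * (|X t| + |Y t|) := by
    intro t ht
    have h3 : dist t t₀ < δ' := by
      rw [Real.dist_eq, abs_lt]
      constructor <;> linarith [ht.1, ht.2, a1.1, a2.2]
    exact (hy' h3).trans (mul_le_mul_of_nonneg_right ((le_abs_self _).trans hM3) (by positivity))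
  have hcu := (TLcS_cont h).mono hIab
  have hgc : ContinuousOn (fun t => g (w t, Y t, X t)) (Icc s s') := fun t ht =>
    ContinuousAt.comp_continuousWithinAt (f := fun t => (w t, Y t, X t)) (hP t (hI ht)).2.2.1
      (hcu t ht)
  have hαc : ContinuousOn (fun t => α (w t, Y t, X t)) (Icc s s') := fun t ht =>
    ContinuousAt.comp_continuousWithinAt (f := fun t => (w t, Y t, X t)) (hP t (hI ht)).2.2.2
      (hcu t ht)
  have hgn : ∀ t ∈ Icc s s', g (w t, Y t, X t) ≠ 0 := fun t ht =>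
    abs_pos.1 (hc0.trans (hP t (hI ht)).2.1.1)
  have hXc : ContinuousOn X (Icc s s') := h.Xc.mono hIab
  have hYc : ContinuousOn Y (Icc s s') := fun t ht =>
    (h.Yd t (hIab ht)).continuousAt.continuousWithinAt
  have hsm : s ∈ Icc s s' := ⟨le_refl s, hss.le⟩
  refine hgap s s' ν X Y u (fun t => g (w t, Y t, X t))
    (fun t => -(α (w t, Y t, X t) / g (w t, Y t, X t))) hss (by linarith [a1.1, a2.2]) hν h.adm hXc
    hYc hgc ((hαc.div hgc hgn).neg) (fun t ht => (hP t (hI ht)).2.1.1.le)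
    (fun t ht => (hP t (hI ht)).2.1.2.le.trans hM4) ?_ ?_ X1 ?_
  · intro t ht
    have hp := (hP t (hI ht)).1
    have hg1 := (hP t (hI ht)).2.1.1
    have hgp : 0 < |g (w t, Y t, X t)| := hc0.trans hg1
    have e : -(α (w t, Y t, X t) / g (w t, Y t, X t)) - ν =
        -((α (w t, Y t, X t) + ν * g (w t, Y t, X t)) / g (w t, Y t, X t)) := by
      have := hgn t ht
      field_simp
      ring
    show |-(α (w t, Y t, X t) / g (w t, Y t, X t)) - ν| ≤ M * (|X t| + |Y t|)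
    rw [e, abs_neg, abs_div, div_le_iff₀ hgp]
    have hS : 0 ≤ |X t| + |Y t| := by positivity
    have h3 : K₁ ≤ M * c := (div_le_iff₀ hc0).1 hM2
    calc |α (w t, Y t, X t) + ν * g (w t, Y t, X t)| ≤ K₁ * (|X t| + |Y t|) := hp
      _ ≤ (M * c) * (|X t| + |Y t|) := mul_le_mul_of_nonneg_right h3 hS
      _ ≤ (M * |g (w t, Y t, X t)|) * (|X t| + |Y t|) := by
          refine mul_le_mul_of_nonneg_right (mul_le_mul_of_nonneg_left hg1.le (by linarith)) hS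
      _ = M * (|X t| + |Y t|) * |g (w t, Y t, X t)| := by ring
  · intro t ht
    have hX := h.Xeq s (hIab hsm) t (hIab ht)
    rw [X0, sub_zero] at hX
    rw [hX]
    refine intervalIntegral.integral_congr fun r hr => ?_
    have hr' : r ∈ Icc s s' := by
      rw [uIcc_of_le ht.1] at hr
      exact ⟨hr.1, hr.2.trans ht.2⟩
    have := hgn r hr'
    show α (w r, Y r, X r) + u r * g (w r, Y r, X r) =
      g (w r, Y r, X r) * (u r - -(α (w r, Y r, X r) / g (w r, Y r, X r)))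
    field_simp
    ring
  · intro t ht
    have hY := TLcS_y h (hIab hsm) (hIab ht)
    rw [Y0, sub_zero] at hY
    have hu : uIcc s t ⊆ Icc s s' := by
      rw [uIcc_of_le ht.1]
      exact Icc_subset_Icc_right ht.2
    have h4 := TLcS_int (f := y') (S := fun r => |X r| + |Y r|) (s := s) (t := t) (k := M)
      (fun r hr => hyI r (hu hr)) ((hXc.abs.add hYc.abs).mono hu) (by linarith)
    have hnn : 0 ≤ ∫ r in s..t, (|X r| + |Y r|) :=
      intervalIntegral.integral_nonneg ht.1 (fun r _ => by positivity)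
    rw [hY]
    simpa only [abs_of_nonneg hnn] using h4

end Pool.Agent.Lib.MP_28b8de_an.TT
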