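import Pool.Agent.Lib.MP_28b8de_an.T.TDn

/-!
MP_28b8de_an, module TOrd.

The order of vanishing in the last variable at a good point of C.
PROOF.  ρ > 0 with f analytic on the ball of radius ρ about (w t₀, 0); δ ∈ (0, ε] such that for |t - t₀| < δ: w is continuous at t, w t in the ball of radius ρ, and (t ∈ C → Gen C w t).
If for all t ∈ C with |t - t₀| < δ and all j: Dn^[j] f (w t, 0) = 0, then by Gen at t₀ (a := fun v => Dn^[j] f (v,0), analytic at w t₀) each Dn^[j] f (·,0) vanishes near w t₀, hence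
(`ident`) on the ball of radius ρ about w t₀, hence (`slice_zero`) f = 0 on the product of the balls: contradiction with hne.  So take the least m such that there is t₁ ∈ C, |t₁ - t₀| < δ,
with Dn^[m] f (w t₁, 0) ≠ 0.  For j < m: Dn^[j] f (w t, 0) = 0 for all t ∈ C, |t-t₀| < δ, so by Gen C w t₁: Dn^[j] f (v, 0) = 0 for v near w t₁.
-/

set_option linter.unusedSectionVars false

namespace Pool.Agent.Lib.MP_28b8de_an.TT

open Filter Topology Set MeasureTheory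
open Pool.Agent.Lib.MP_28b8de_an.PT (Adm Perf gron gron_back volterra kder ae_zero perf_inner stay)

variable {W : Type*} [NormedAddCommGroup W] [NormedSpace ℝ W]


private theorem TOrd_an {f : W × ℝ → ℝ} {v : W} (hf : AnalyticAt ℝ f (v, 0)) (j : ℕ) :
    AnalyticAt ℝ (fun v => Dn^[j] f (v, 0)) v := by
  have h1 : AnalyticAt ℝ (fun v : W => ((v, (0 : ℝ)) : W × ℝ)) v :=
    analyticAt_id.prod analyticAt_const
  exact AnalyticAt.comp (g := Dn^[j] f) (f := fun v : W => ((v, (0 : ℝ)) : W × ℝ)) (Dn_iter_an hf j) h1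

theorem order {C : Set ℝ} {w : ℝ → W} {t₀ : ℝ} (ht₀ : t₀ ∈ C)
    (hw : ∀ᶠ t in 𝓝 t₀, ContinuousAt w t) (hg : ∀ᶠ t in 𝓝 t₀, t ∈ C → Gen C w t)
    {f : W × ℝ → ℝ} (hf : AnalyticAt ℝ f (w t₀, 0)) (hne : ¬ ∀ᶠ p in 𝓝 (w t₀, (0 : ℝ)), f p = 0)
    {ε : ℝ} (hε : 0 < ε) :
    ∃ t₁ ∈ C, |t₁ - t₀| < ε ∧ AnalyticAt ℝ f (w t₁, 0) ∧ ∃ m : ℕ,
      (∀ j < m, ∀ᶠ v in 𝓝 (w t₁), Dn^[j] f (v, 0) = 0) ∧ Dn^[m] f (w t₁, 0) ≠ 0 := by
  classical
  obtain ⟨ρ, hρ, hρa⟩ := Metric.eventually_nhds_iff_ball.1 hf.eventually_analyticAt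
  have hwc : ContinuousAt w t₀ := hw.self_of_nhds
  have hwb : ∀ᶠ t in 𝓝 t₀, w t ∈ Metric.ball (w t₀) ρ := hwc.eventually (Metric.ball_mem_nhds _ hρ)
  obtain ⟨δ₀, hδ₀, hall⟩ := Metric.eventually_nhds_iff_ball.1 (hw.and (hg.and hwb))
  obtain ⟨δ, hδ⟩ : ∃ δ, δ = min δ₀ ε := ⟨_, rfl⟩
  have hδpos : 0 < δ := by rw [hδ]; exact lt_min hδ₀ hε
  have hδ1 : δ ≤ δ₀ := by rw [hδ]; exact min_le_left _ _
  have hδ2 : δ ≤ ε := by rw [hδ]; exact min_le_right _ _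
  have hmem : ∀ t : ℝ, |t - t₀| < δ → t ∈ Metric.ball t₀ δ₀ := by
    intro t ht
    rw [Metric.mem_ball, Real.dist_eq]
    exact ht.trans_le hδ1
  have hfa : ∀ v ∈ Metric.ball (w t₀) ρ, ∀ x : ℝ, |x| < ρ → AnalyticAt ℝ f (v, x) := by
    intro v hv x hx
    apply hρa
    rw [← ball_prod_same]
    refine ⟨hv, ?_⟩
    rw [Metric.mem_ball, Real.dist_eq, sub_zero]
    exact hx
  have hfa0 : ∀ v ∈ Metric.ball (w t₀) ρ, AnalyticAt ℝ f (v, 0) := fun v hv =>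
    hfa v hv 0 (by rw [abs_zero]; exact hρ)
  have key : ∀ (t₁ : ℝ) (j : ℕ), t₁ ∈ C → |t₁ - t₀| < δ →
      (∀ t ∈ C, |t - t₀| < δ → Dn^[j] f (w t, 0) = 0) → ∀ᶠ v in 𝓝 (w t₁), Dn^[j] f (v, 0) = 0 := by
    intro t₁ j ht₁ hd h0
    obtain ⟨-, hG, hb⟩ := hall t₁ (hmem t₁ hd)
    refine hG ht₁ (fun v => Dn^[j] f (v, 0)) (TOrd_an (hfa0 _ hb) j) ?_
    have hopen : ∀ᶠ s in 𝓝 t₁, |s - t₀| < δ := by
      have hc : Continuous fun s : ℝ => |s - t₀| := by fun_prop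
      exact hc.continuousAt.eventually (Iio_mem_nhds hd)
    filter_upwards [hopen] with s hs hsC
    exact h0 s hsC hs
  by_cases hex : ∃ m : ℕ, ∃ t ∈ C, |t - t₀| < δ ∧ Dn^[m] f (w t, 0) ≠ 0
  · obtain ⟨t₁, ht₁, hd, hm⟩ := Nat.find_spec hex
    refine ⟨t₁, ht₁, hd.trans_le hδ2, hfa0 _ (hall t₁ (hmem t₁ hd)).2.2, Nat.find hex, ?_, hm⟩
    intro j hj
    refine key t₁ j ht₁ hd ?_
    intro t ht htd
    by_contra hcon
    exact Nat.find_min hex hj ⟨t, ht, htd, hcon⟩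
  · exfalso
    push Not at hex
    apply hne
    have h0 : ∀ j : ℕ, ∀ v ∈ Metric.ball (w t₀) ρ, Dn^[j] f (v, 0) = 0 := by
      intro j
      refine ident (f := fun v => Dn^[j] f (v, 0)) (fun v hv => TOrd_an (hfa0 v hv) j)
        (Metric.mem_ball_self hρ) ?_
      exact key t₀ j ht₀ (by rw [sub_self, abs_zero]; exact hδpos) (fun t ht htd => hex j t ht htd)
    have hnb : ∀ᶠ p in 𝓝 (w t₀, (0 : ℝ)), p ∈ Metric.ball (w t₀, (0 : ℝ)) ρ := Metric.ball_mem_nhds _ hρ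
    filter_upwards [hnb] with p hp
    rw [← ball_prod_same] at hp
    have hx : |p.2| < ρ := by
      have := hp.2
      rwa [Metric.mem_ball, Real.dist_eq, sub_zero] at this
    have hxx := abs_lt.1 hx
    refine slice_zero (f := f) (v := p.1) (x₀ := 0) hρ ?_ (fun j => h0 j p.1 hp.1) p.2 ?_
    · intro x hx'
      refine hfa p.1 hp.1 x (abs_lt.2 ?_)
      constructor
      · linarith [hx'.1]
      · linarith [hx'.2]
    · constructor
      · linarith [hxx.1]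
      · linarith [hxx.2]

end Pool.Agent.Lib.MP_28b8de_an.TT
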