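import Pool.Agent.Lib.MP_28b8de_an.T.TImp
import Pool.Agent.Lib.MP_28b8de_an.T.TDn

/-!
MP_28b8de_an, module TZw.

The trichotomy for an analytic function `a(w,x)` that vanishes at `(w(t), x(t))` for t in C near t₀.
PROOF.  Choose ρ > 0 with a analytic on the ball of radius ρ about (w t₀, x t₀) (= product of balls, sup norm), and δ ∈ (0,ε] such that for |t - t₀| < δ: w, x are continuous
at t, w t and x t are in the balls of radius ρ, and a (w t, x t) = 0 if t ∈ C.
Case 1: there are t₁ ∈ C, |t₁ - t₀| < δ, and i with Dn^[i] a (w t₁, x t₁) ≠ 0.  Take the least such i (over all such t₁; Nat.find) and its t₁; i ≥ 1.  σ := Dn^[i-1] a vanishes at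
(w t, x t) for all t ∈ C, |t - t₀| < δ (minimality), σ is analytic there and Dn σ (w t₁, x t₁) ≠ 0.  `imp` at (w t₁, x t₁), continuity of w, x at t₁ (and t near t₁ satisfies |t-t₀|<δ):
second alternative.
Case 2: all Dn^[i] a (w t, x t) = 0 for t ∈ C, |t - t₀| < δ, all i.  `slice_zero`: a (w t, X) = 0 for all |X - x t₀| < ρ (note x t is in this interval; slice_zero can be used with
a smaller interval around x t and the identity theorem on the interval, or apply it with centre x t and then `AnalyticOnNhd.eqOn_zero_of_preconnected...` on the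
interval (x t₀ - ρ, x t₀ + ρ)).  If for every X in that interval b_X := a (·, X) vanishes near w t₀ then it vanishes on the ball of radius ρ (`ident`), so a = 0 on the product: first
alternative.  Otherwise b := b_X is the third alternative.
-/

set_option linter.unusedSectionVars false

namespace Pool.Agent.Lib.MP_28b8de_an.TT

open Filter Topology Set MeasureTheory
open Pool.Agent.Lib.MP_28b8de_an.PT (Adm Perf gron gron_back volterra kder ae_zero perf_inner stay)

variable {W : Type*} [NormedAddCommGroup W] [NormedSpace ℝ W] [CompleteSpace W]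


theorem zw {C : Set ℝ} {w : ℝ → W} {x : ℝ → ℝ} {t₀ : ℝ} (ht₀ : t₀ ∈ C)
    (hw : ∀ᶠ t in 𝓝 t₀, ContinuousAt w t) (hx : ∀ᶠ t in 𝓝 t₀, ContinuousAt x t)
    {a : W × ℝ → ℝ} (ha : AnalyticAt ℝ a (w t₀, x t₀))
    (h0 : ∀ᶠ t in 𝓝 t₀, t ∈ C → a (w t, x t) = 0) {ε : ℝ} (hε : 0 < ε) :
    (∀ᶠ p in 𝓝 (w t₀, x t₀), a p = 0) ∨
    (∃ t₁ ∈ C, |t₁ - t₀| < ε ∧ ∃ ξ : W → ℝ, AnalyticAt ℝ ξ (w t₁) ∧
      ∀ᶠ t in 𝓝 t₁, t ∈ C → x t = ξ (w t)) ∨
    ∃ b : W → ℝ, AnalyticAt ℝ b (w t₀) ∧ (∀ᶠ t in 𝓝 t₀, t ∈ C → b (w t) = 0) ∧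
      ¬ ∀ᶠ v in 𝓝 (w t₀), b v = 0 := by
  classical
  obtain ⟨ρ, hρ, hball⟩ := Metric.eventually_nhds_iff_ball.1 ha.eventually_analyticAt
  have hprod : ∀ v X, dist v (w t₀) < ρ → dist X (x t₀) < ρ → AnalyticAt ℝ a (v, X) := by
    intro v X h1 h2
    apply hball
    rw [Metric.mem_ball, Prod.dist_eq]
    exact max_lt h1 h2
  have hw0 : ContinuousAt w t₀ := hw.self_of_nhds
  have hx0 : ContinuousAt x t₀ := hx.self_of_nhds
  have hall := ((((hw.and hx).and (hw0.eventually (Metric.ball_mem_nhds (w t₀) hρ))).and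
    (hx0.eventually (Metric.ball_mem_nhds (x t₀) hρ))).and h0)
  obtain ⟨δ', hδ', hδ⟩ := Metric.eventually_nhds_iff_ball.1 hall
  set δ : ℝ := min δ' ε with hδdef
  have hδ0 : 0 < δ := lt_min hδ' hε
  have hδε : δ ≤ ε := min_le_right _ _
  have hprop : ∀ t, |t - t₀| < δ → ContinuousAt w t ∧ ContinuousAt x t ∧ dist (w t) (w t₀) < ρ ∧
      dist (x t) (x t₀) < ρ ∧ (t ∈ C → a (w t, x t) = 0) := by
    intro t ht
    have h1 : t ∈ Metric.ball t₀ δ' := by
      rw [Metric.mem_ball, Real.dist_eq]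
      exact ht.trans_le (min_le_left _ _)
    obtain ⟨⟨⟨⟨h2, h3⟩, h4⟩, h5⟩, h6⟩ := hδ t h1
    exact ⟨h2, h3, h4, h5, h6⟩
  have hnear : ∀ t₁, |t₁ - t₀| < δ → ∀ᶠ t in 𝓝 t₁, |t - t₀| < δ := by
    intro t₁ ht₁
    have h1 : ContinuousAt (fun t : ℝ => |t - t₀|) t₁ := by fun_prop
    exact h1.eventually (gt_mem_nhds ht₁)
  by_cases hcase : ∃ i : ℕ, ∃ t₁ ∈ C, |t₁ - t₀| < δ ∧ Dn^[i] a (w t₁, x t₁) ≠ 0
  · right; left
    obtain ⟨t₁, ht₁C, ht₁, hne⟩ := Nat.find_spec hcase
    have hmin : ∀ j, j < Nat.find hcase → ∀ t ∈ C, |t - t₀| < δ → Dn^[j] a (w t, x t) = 0 := by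
      intro j hj t htC ht
      by_contra hcon
      exact Nat.find_min hcase hj ⟨t, htC, ht, hcon⟩
    have hi : Nat.find hcase ≠ 0 := by
      intro hi
      rw [hi] at hne
      exact hne ((hprop t₁ ht₁).2.2.2.2 ht₁C)
    obtain ⟨j, hj⟩ := Nat.exists_eq_succ_of_ne_zero hi
    rw [hj, Nat.succ_eq_add_one, Function.iterate_succ_apply'] at hne
    obtain ⟨h2, h3, h4, h5, h6⟩ := hprop t₁ ht₁
    obtain ⟨ξ, hξ, -, hev⟩ := imp (Dn_iter_an (hprod _ _ h4 h5) j)
      (hmin j (by omega) t₁ ht₁C ht₁) hne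
    refine ⟨t₁, ht₁C, ht₁.trans_le hδε, ξ, hξ, ?_⟩
    have h7 : ∀ᶠ t in 𝓝 t₁, Dn^[j] a (w t, x t) = 0 → x t = ξ (w t) :=
      (h2.prodMk h3).eventually hev
    filter_upwards [h7, hnear t₁ ht₁] with t h8 h9 htC
    exact h8 (hmin j (by omega) t htC h9)
  · push Not at hcase
    have hslice : ∀ t ∈ C, |t - t₀| < δ → ∀ X, dist X (x t₀) < ρ → a (w t, X) = 0 := by
      intro t htC ht X hX
      obtain ⟨h2, h3, h4, h5, h6⟩ := hprop t ht
      have hρ' : 0 < ρ - dist (x t) (x t₀) := by linarith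
      have hsub : ∀ Y ∈ Ioo (x t - (ρ - dist (x t) (x t₀))) (x t + (ρ - dist (x t) (x t₀))),
          dist Y (x t₀) < ρ := by
        intro Y hY
        have h7 : dist Y (x t) < ρ - dist (x t) (x t₀) := by
          rw [Real.dist_eq Y (x t), abs_lt]
          exact ⟨by linarith [hY.1], by linarith [hY.2]⟩
        have h8 := dist_triangle Y (x t) (x t₀)
        linarith
      have h9 := slice_zero (f := a) (v := w t) hρ' (fun Y hY => hprod _ _ h4 (hsub Y hY))
        (fun i => hcase i t htC ht)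
      have h10 : AnalyticOnNhd ℝ (fun Y => a (w t, Y)) (Metric.ball (x t₀) ρ) := by
        intro Y hY
        exact (hprod (w t) Y h4 hY).curry_right
      refine ident (f := fun Y => a (w t, Y)) h10 (v := x t) h5 ?_ X hX
      filter_upwards [Ioo_mem_nhds (show x t - (ρ - dist (x t) (x t₀)) < x t by linarith)
        (show x t < x t + (ρ - dist (x t) (x t₀)) by linarith)] with Y hY
      exact h9 Y hY
    by_cases hX : ∀ X, dist X (x t₀) < ρ → ∀ᶠ v in 𝓝 (w t₀), a (v, X) = 0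
    · left
      rw [Metric.eventually_nhds_iff_ball]
      refine ⟨ρ, hρ, ?_⟩
      rintro ⟨v, X⟩ hp
      rw [Metric.mem_ball, Prod.dist_eq, max_lt_iff] at hp
      have h10 : AnalyticOnNhd ℝ (fun u => a (u, X)) (Metric.ball (w t₀) ρ) := by
        intro u hu
        exact (hprod u X hu hp.2).curry_left
      exact ident (f := fun u => a (u, X)) h10 (Metric.mem_ball_self hρ) (hX X hp.2) v hp.1
    · right; right
      obtain ⟨X, hX'⟩ := not_forall.1 hX
      obtain ⟨hXρ, hX⟩ := Classical.not_imp.1 hX'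
      refine ⟨fun v => a (v, X), (hprod (w t₀) X (by rw [dist_self]; exact hρ) hXρ).curry_left,
        ?_, ?_⟩
      · have h1 : ∀ᶠ t in 𝓝 t₀, |t - t₀| < δ := hnear t₀ (by rw [sub_self, abs_zero]; exact hδ0)
        filter_upwards [h1] with t ht htC
        exact hslice t htC ht X hXρ
      · exact hX

end Pool.Agent.Lib.MP_28b8de_an.TT
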