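import Pool.Agent.Lib.MP_28b8de_an.T.TTay

/-!
MP_28b8de_an, module TBest.

Estimates for an analytic function of (v, Y, X) of order m in X on {Y = 0}.
PROOF.  f p := fX Bf p = Bf (p.1,0,p.2) - Bf (p.1,0,0), analytic at (w₀,0).  `tay` for f gives the three estimates for Y = 0 (Dn f (v,X) = fderiv Bf (v,0,X) (0,0,1);
(fderiv f (v,X)) (h,0) = fderiv Bf (v,0,X) (h,0,0) - fderiv Bf (v,0,0) (h,0,0)).  Bf and fderiv Bf are Lipschitz near (w₀,0,0) (analytic functions are C¹): replacing (v,0,X) by (v,Y,X) costs K|Y|.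
cB v := Dn^[m] (fX Bf) (v,0) / m!.
-/

set_option linter.unusedSectionVars false

namespace Pool.Agent.Lib.MP_28b8de_an.TT

open Filter Topology Set MeasureTheory
open Pool.Agent.Lib.MP_28b8de_an.PT (Adm Perf gron gron_back volterra kder ae_zero perf_inner stay)

/-- `X ↦ B(v,0,X) - B(v,0,0)` -/
def fX {W : Type*} (Bf : W × ℝ × ℝ → ℝ) (p : W × ℝ) : ℝ := Bf (p.1, 0, p.2) - Bf (p.1, 0, 0)

/-- `Y ↦ L(v,Y) - L(v,0)` -/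
def fL {W : Type*} (Lf : W × ℝ → ℝ) (p : W × ℝ) : ℝ := Lf p - Lf (p.1, 0)

variable {W : Type*} [NormedAddCommGroup W] [NormedSpace ℝ W] [FiniteDimensional ℝ W]

/-- the leading coefficient -/
noncomputable def cf (f : W × ℝ → ℝ) (m : ℕ) (v : W) : ℝ := Dn^[m] f (v, 0) / m.factorial

theorem fX_an {Bf : W × ℝ × ℝ → ℝ} {w₀ : W} (hB : AnalyticAt ℝ Bf (w₀, 0, 0)) :
    AnalyticAt ℝ (fX Bf) (w₀, 0) := by
  have h1 : AnalyticAt ℝ (fun p : W × ℝ => (p.1, (0 : ℝ), p.2)) (w₀, 0) :=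
    analyticAt_fst.prod (analyticAt_const.prod analyticAt_snd)
  have h2 : AnalyticAt ℝ (fun p : W × ℝ => (p.1, (0 : ℝ), (0 : ℝ))) (w₀, 0) :=
    analyticAt_fst.prod (analyticAt_const.prod analyticAt_const)
  have h3 : AnalyticAt ℝ (fun p : W × ℝ => Bf (p.1, (0 : ℝ), p.2)) (w₀, 0) :=
    AnalyticAt.comp (g := Bf) (f := fun p : W × ℝ => (p.1, (0 : ℝ), p.2)) hB h1
  have h4 : AnalyticAt ℝ (fun p : W × ℝ => Bf (p.1, (0 : ℝ), (0 : ℝ))) (w₀, 0) :=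
    AnalyticAt.comp (g := Bf) (f := fun p : W × ℝ => (p.1, (0 : ℝ), (0 : ℝ))) hB h2
  exact h3.sub h4

theorem fL_an {Lf : W × ℝ → ℝ} {w₀ : W} (hL : AnalyticAt ℝ Lf (w₀, 0)) :
    AnalyticAt ℝ (fL Lf) (w₀, 0) := by
  have h2 : AnalyticAt ℝ (fun p : W × ℝ => (p.1, (0 : ℝ))) (w₀, 0) :=
    analyticAt_fst.prod analyticAt_const
  have h4 : AnalyticAt ℝ (fun p : W × ℝ => Lf (p.1, (0 : ℝ))) (w₀, 0) :=
    AnalyticAt.comp (g := Lf) (f := fun p : W × ℝ => (p.1, (0 : ℝ))) hL h2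
  exact hL.sub h4

/-- analytic functions are Lipschitz near a point -/
theorem an_lip {E E' : Type*} [NormedAddCommGroup E] [NormedSpace ℝ E] [NormedAddCommGroup E']
    [NormedSpace ℝ E'] {f : E → E'} {z₀ : E} (hf : AnalyticAt ℝ f z₀) :
    ∃ K : ℝ, 0 ≤ K ∧ ∃ ρ > 0, ∀ z ∈ Metric.ball z₀ ρ, ∀ z' ∈ Metric.ball z₀ ρ,
      ‖f z - f z'‖ ≤ K * ‖z - z'‖ := by
  obtain ⟨K, s, hs, hL⟩ := hf.hasStrictFDerivAt.exists_lipschitzOnWith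
  obtain ⟨ρ, hρ, hb⟩ := Metric.mem_nhds_iff.1 hs
  refine ⟨K, K.2, ρ, hρ, fun z hz z' hz' => ?_⟩
  have := hL.dist_le_mul z (hb hz) z' (hb hz')
  rwa [dist_eq_norm, dist_eq_norm] at this

private theorem TBest_fX {Bf : W × ℝ × ℝ → ℝ} {p : W × ℝ}
    (h1 : DifferentiableAt ℝ Bf (p.1, 0, p.2)) (h2 : DifferentiableAt ℝ Bf (p.1, 0, 0))
    (q : W × ℝ) :
    fderiv ℝ (fX Bf) p q = fderiv ℝ Bf (p.1, 0, p.2) (q.1, 0, q.2) -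
      fderiv ℝ Bf (p.1, 0, 0) (q.1, 0, 0) := by
  set A : W × ℝ →L[ℝ] W × ℝ × ℝ :=
    (ContinuousLinearMap.fst ℝ W ℝ).prod ((0 : W × ℝ →L[ℝ] ℝ).prod (ContinuousLinearMap.snd ℝ W ℝ))
    with hA
  set A0 : W × ℝ →L[ℝ] W × ℝ × ℝ :=
    (ContinuousLinearMap.fst ℝ W ℝ).prod ((0 : W × ℝ →L[ℝ] ℝ).prod (0 : W × ℝ →L[ℝ] ℝ)) with hA0
  have e1 : HasFDerivAt Bf (fderiv ℝ Bf (A p)) (A p) := h1.hasFDerivAt
  have e2 : HasFDerivAt Bf (fderiv ℝ Bf (A0 p)) (A0 p) := h2.hasFDerivAt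
  have e3 : HasFDerivAt (fX Bf) ((fderiv ℝ Bf (A p)).comp A - (fderiv ℝ Bf (A0 p)).comp A0) p :=
    (e1.comp p A.hasFDerivAt).sub (e2.comp p A0.hasFDerivAt)
  rw [e3.fderiv]
  rfl

private theorem TBest_fL {Lf : W × ℝ → ℝ} {p : W × ℝ}
    (h1 : DifferentiableAt ℝ Lf p) (h2 : DifferentiableAt ℝ Lf (p.1, 0)) (q : W × ℝ) :
    fderiv ℝ (fL Lf) p q = fderiv ℝ Lf p q - fderiv ℝ Lf (p.1, 0) (q.1, 0) := by
  set A0 : W × ℝ →L[ℝ] W × ℝ :=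
    (ContinuousLinearMap.fst ℝ W ℝ).prod (0 : W × ℝ →L[ℝ] ℝ) with hA0
  have e2 : HasFDerivAt Lf (fderiv ℝ Lf (A0 p)) (A0 p) := h2.hasFDerivAt
  have e3 : HasFDerivAt (fL Lf) (fderiv ℝ Lf p - (fderiv ℝ Lf (A0 p)).comp A0) p :=
    h1.hasFDerivAt.sub (e2.comp p A0.hasFDerivAt)
  rw [e3.fderiv]
  rfl

theorem B_est {Bf : W × ℝ × ℝ → ℝ} {w₀ : W} (hB : AnalyticAt ℝ Bf (w₀, 0, 0)) {m : ℕ}
    (ho : ∀ j < m, ∀ᶠ v in 𝓝 w₀, Dn^[j] (fX Bf) (v, 0) = 0) :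
    ∃ K : ℝ, 0 ≤ K ∧ ∀ᶠ z in 𝓝 (w₀, (0 : ℝ), (0 : ℝ)),
      |Bf z - Bf (z.1, 0, 0) - cf (fX Bf) m z.1 * z.2.2 ^ m| ≤ K * (|z.2.2| ^ (m + 1) + |z.2.1|) ∧
      |fderiv ℝ Bf z (0, 0, 1) - m * cf (fX Bf) m z.1 * z.2.2 ^ (m - 1)|
        ≤ K * (|z.2.2| ^ m + |z.2.1|) ∧
      ∀ h : W, |fderiv ℝ Bf z (h, 0, 0) - fderiv ℝ Bf (z.1, 0, 0) (h, 0, 0)|
        ≤ K * (|z.2.2| ^ m + |z.2.1|) * ‖h‖ := by
  obtain ⟨K1, hK1, e1⟩ := tay (fX_an hB) ho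
  obtain ⟨K2, hK2, ρ2, hρ2, e2⟩ := an_lip hB
  obtain ⟨K3, hK3, ρ3, hρ3, e3⟩ := an_lip hB.fderiv
  have t1 : Tendsto (fun z : W × ℝ × ℝ => (z.1, z.2.2)) (𝓝 (w₀, (0 : ℝ), (0 : ℝ)))
      (𝓝 (w₀, (0 : ℝ))) := by
    have : Continuous fun z : W × ℝ × ℝ => (z.1, z.2.2) := by fun_prop
    exact this.tendsto' _ _ rfl
  have t2 : Tendsto (fun z : W × ℝ × ℝ => (z.1, (0 : ℝ), z.2.2)) (𝓝 (w₀, (0 : ℝ), (0 : ℝ)))
      (𝓝 (w₀, (0 : ℝ), (0 : ℝ))) := by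
    have : Continuous fun z : W × ℝ × ℝ => (z.1, (0 : ℝ), z.2.2) := by fun_prop
    exact this.tendsto' _ _ rfl
  have t3 : Tendsto (fun z : W × ℝ × ℝ => (z.1, (0 : ℝ), (0 : ℝ))) (𝓝 (w₀, (0 : ℝ), (0 : ℝ)))
      (𝓝 (w₀, (0 : ℝ), (0 : ℝ))) := by
    have : Continuous fun z : W × ℝ × ℝ => (z.1, (0 : ℝ), (0 : ℝ)) := by fun_prop
    exact this.tendsto' _ _ rfl
  have hd : ∀ᶠ z in 𝓝 (w₀, (0 : ℝ), (0 : ℝ)), DifferentiableAt ℝ Bf z :=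
    hB.eventually_analyticAt.mono fun z hz => hz.differentiableAt
  refine ⟨K1 + K2 + K3, by positivity, ?_⟩
  filter_upwards [t1.eventually e1, t2.eventually hd, t3.eventually hd,
    Metric.ball_mem_nhds _ hρ2, t2.eventually (Metric.ball_mem_nhds _ hρ2),
    Metric.ball_mem_nhds _ hρ3, t2.eventually (Metric.ball_mem_nhds _ hρ3)]
    with z hz hd2 hd3 b1 b2 b3 b4
  obtain ⟨v, Y, X⟩ := z
  simp only at hz hd2 hd3 b1 b2 b3 b4 ⊢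
  obtain ⟨f1, f2, f3⟩ := hz
  have hY : ‖((v, Y, X) : W × ℝ × ℝ) - (v, 0, X)‖ = |Y| := by
    simp [Prod.norm_def]
  have g1 := e2 _ b1 _ b2
  have g2 := e3 _ b3 _ b4
  rw [hY] at g1 g2
  rw [Real.norm_eq_abs] at g1
  have hX0 : 0 ≤ |X| ^ (m + 1) := by positivity
  have hX1 : 0 ≤ |X| ^ m := by positivity
  have hY0 : 0 ≤ |Y| := abs_nonneg _
  have key : ∀ q : W × ℝ × ℝ, ‖q‖ ≤ 1 * ‖q‖ → |fderiv ℝ Bf (v, Y, X) q - fderiv ℝ Bf (v, 0, X) q|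
      ≤ K3 * |Y| * ‖q‖ := by
    intro q _
    rw [← sub_apply, ← Real.norm_eq_abs]
    exact ContinuousLinearMap.le_of_opNorm_le _ g2 q
  refine ⟨?_, ?_, fun h => ?_⟩
  · have : Bf (v, Y, X) - Bf (v, 0, 0) - cf (fX Bf) m v * X ^ m =
        (Bf (v, Y, X) - Bf (v, 0, X)) + (fX Bf (v, X) - Dn^[m] (fX Bf) (v, 0) / m.factorial * X ^ m) := by
      simp only [fX, cf]
      ring
    rw [this]
    refine (abs_add_le _ _).trans ?_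
    nlinarith [mul_nonneg hK1 hY0, mul_nonneg hK2 hX0, mul_nonneg hK3 hX0, mul_nonneg hK3 hY0]
  · have hD : Dn (fX Bf) (v, X) = fderiv ℝ Bf (v, 0, X) (0, 0, 1) := by
      unfold Dn
      rw [TBest_fX hd2 hd3]
      have : ((0 : W), (0 : ℝ), (0 : ℝ)) = 0 := rfl
      simp only [this, map_zero, sub_zero]
    have k1 := key (0, 0, 1) (by simp)
    have n1 : ‖((0 : W), (0 : ℝ), (1 : ℝ))‖ = 1 := by simp [Prod.norm_def]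
    rw [n1] at k1
    rw [hD] at f2
    have : fderiv ℝ Bf (v, Y, X) (0, 0, 1) - m * cf (fX Bf) m v * X ^ (m - 1) =
        (fderiv ℝ Bf (v, Y, X) (0, 0, 1) - fderiv ℝ Bf (v, 0, X) (0, 0, 1)) +
        (fderiv ℝ Bf (v, 0, X) (0, 0, 1) -
          m * (Dn^[m] (fX Bf) (v, 0) / m.factorial) * X ^ (m - 1)) := by
      simp only [cf]
      ring
    rw [this]
    refine (abs_add_le _ _).trans ?_
    nlinarith [mul_nonneg hK1 hY0, mul_nonneg hK2 hX1, mul_nonneg hK3 hX1, mul_nonneg hK2 hY0]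
  · have k1 := key (h, 0, 0) (by simp)
    have n1 : ‖((h : W), (0 : ℝ), (0 : ℝ))‖ = ‖h‖ := by simp [Prod.norm_def]
    rw [n1] at k1
    have k2 : |fderiv ℝ Bf (v, 0, X) (h, 0, 0) - fderiv ℝ Bf (v, 0, 0) (h, 0, 0)| ≤
        K1 * |X| ^ m * ‖h‖ := by
      have := ContinuousLinearMap.le_of_opNorm_le _ f3 h
      rw [Real.norm_eq_abs, ContinuousLinearMap.comp_apply, ContinuousLinearMap.inl_apply,
        TBest_fX hd2 hd3] at this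
      exact this
    have : fderiv ℝ Bf (v, Y, X) (h, 0, 0) - fderiv ℝ Bf (v, 0, 0) (h, 0, 0) =
        (fderiv ℝ Bf (v, Y, X) (h, 0, 0) - fderiv ℝ Bf (v, 0, X) (h, 0, 0)) +
        (fderiv ℝ Bf (v, 0, X) (h, 0, 0) - fderiv ℝ Bf (v, 0, 0) (h, 0, 0)) := by ring
    rw [this]
    refine (abs_add_le _ _).trans ?_
    have hh : 0 ≤ ‖h‖ := norm_nonneg _
    have := mul_nonneg (add_nonneg (add_nonneg (mul_nonneg hK1 hY0) (mul_nonneg hK2 (add_nonneg hX1 hY0)))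
      (mul_nonneg hK3 hX1)) hh
    nlinarith

theorem L_est {Lf : W × ℝ → ℝ} {w₀ : W} (hL : AnalyticAt ℝ Lf (w₀, 0)) {m : ℕ}
    (ho : ∀ j < m, ∀ᶠ v in 𝓝 w₀, Dn^[j] (fL Lf) (v, 0) = 0) :
    ∃ K : ℝ, 0 ≤ K ∧ ∀ᶠ z in 𝓝 (w₀, (0 : ℝ)),
      |Lf z - Lf (z.1, 0) - cf (fL Lf) m z.1 * z.2 ^ m| ≤ K * |z.2| ^ (m + 1) ∧
      |fderiv ℝ Lf z (0, 1) - m * cf (fL Lf) m z.1 * z.2 ^ (m - 1)| ≤ K * |z.2| ^ m ∧
      ∀ h : W, |fderiv ℝ Lf z (h, 0) - fderiv ℝ Lf (z.1, 0) (h, 0)| ≤ K * |z.2| ^ m * ‖h‖ := by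
  obtain ⟨K1, hK1, e1⟩ := tay (fL_an hL) ho
  have t3 : Tendsto (fun z : W × ℝ => (z.1, (0 : ℝ))) (𝓝 (w₀, (0 : ℝ))) (𝓝 (w₀, (0 : ℝ))) := by
    have : Continuous fun z : W × ℝ => (z.1, (0 : ℝ)) := by fun_prop
    exact this.tendsto' _ _ rfl
  have hd : ∀ᶠ z in 𝓝 (w₀, (0 : ℝ)), DifferentiableAt ℝ Lf z :=
    hL.eventually_analyticAt.mono fun z hz => hz.differentiableAt
  refine ⟨K1, hK1, ?_⟩
  filter_upwards [e1, hd, t3.eventually hd] with z hz hd2 hd3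
  obtain ⟨v, Y⟩ := z
  simp only at hz hd2 hd3 ⊢
  obtain ⟨f1, f2, f3⟩ := hz
  refine ⟨f1, ?_, fun h => ?_⟩
  · have hD : Dn (fL Lf) (v, Y) = fderiv ℝ Lf (v, Y) (0, 1) := by
      unfold Dn
      rw [TBest_fL hd2 hd3]
      have : ((0 : W), (0 : ℝ)) = 0 := rfl
      simp only [this, map_zero, sub_zero]
    rw [hD] at f2
    exact f2
  · have := ContinuousLinearMap.le_of_opNorm_le _ f3 h
    rw [Real.norm_eq_abs, ContinuousLinearMap.comp_apply, ContinuousLinearMap.inl_apply,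
      TBest_fL hd2 hd3] at this
    exact this

end Pool.Agent.Lib.MP_28b8de_an.TT
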