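import Pool.Agent.Lib.MP_28b8de_an.T.TTri

/-!
MP_28b8de_an, module TComp.

Components of the trajectory and of the multiplier.
PROOFS.  ts_cont, ts_lip: sol_lip (constant 2M).  ts_ball: box.  ts_z, ts_y: q t = q 0 + ∫ FF + u GG; first two components have continuous integrand (GG has zero components),
fundamental theorem.  ts_x: third component (sol_sub).
ts_px etc.: the adjoint equation `p t = p T + ∫_t^T p ∘ A`, evaluated at (0,0,1), (0,1,0) and (1,0,0): A v = fderiv (FF L B F) (r,q r) (0,v) + u fderiv (GG G) (r,q r) (0,v), and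
fderiv (FF L B F) z w = (fderiv L (z.1,z.2.1,z.2.2.1) (w.1,w.2.1,w.2.2.1), fderiv B z w, fderiv F z w) (L, B, F are differentiable: composition of FF with the projections, resp. with
(t,z,y) ↦ (t,z,y,0) for L).
ts_pl: adj_lip.
-/

set_option linter.unusedSectionVars false

namespace Pool.Agent.Lib.MP_28b8de_an.TT

open Filter Topology Set MeasureTheory
open Pool.Agent.Lib.MP_28b8de_an.PT (Adm Perf gron gron_back volterra kder ae_zero perf_inner stay)

variable {L : ℝ × ℝ × ℝ → ℝ} {B F G : ℝ × V3 → ℝ} {R M T : ℝ} {u : ℝ → ℝ} {q : ℝ → V3}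
  {p : ℝ → V3 →L[ℝ] ℝ} {C : Set ℝ}


theorem ts_diff (h : TS L B F G R M T u q) : ContDiff ℝ (⊤ : ℕ∞) L ∧ ContDiff ℝ (⊤ : ℕ∞) B ∧
    ContDiff ℝ (⊤ : ℕ∞) F ∧ ContDiff ℝ (⊤ : ℕ∞) G := by
  have hF := h.tr.env.Fs
  have hG := h.tr.env.Gs
  refine ⟨?_, ?_, ?_, ?_⟩
  · have h1 : ContDiff ℝ (⊤ : ℕ∞) (fun w : ℝ × ℝ × ℝ => ((w.1, w.2.1, w.2.2, 0) : ℝ × V3)) :=
      contDiff_fst.prodMk ((contDiff_fst.comp contDiff_snd).prodMk
        ((contDiff_snd.comp contDiff_snd).prodMk contDiff_const))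
    exact contDiff_fst.comp (hF.comp h1)
  · exact contDiff_fst.comp (contDiff_snd.comp hF)
  · exact contDiff_snd.comp (contDiff_snd.comp hF)
  · exact contDiff_snd.comp (contDiff_snd.comp hG)

theorem ts_cont (h : TS L B F G R M T u q) {t : ℝ} (ht : t ∈ Ioo 0 T) : ContinuousAt q t :=
  h.tr.sol.cont.continuousAt (Icc_mem_nhds ht.1 ht.2)

theorem ts_lip (h : TS L B F G R M T u q) {s t : ℝ} (hs : s ∈ Icc 0 T) (ht : t ∈ Icc 0 T) :
    ‖q s - q t‖ ≤ 2 * M * |s - t| :=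
  sol_lip h.tr.env h.tr.adm h.tr.sol ht hs

theorem ts_ball (h : TS L B F G R M T u q) {t : ℝ} (ht : t ∈ Icc 0 T) :
    ((t, q t) : ℝ × V3) ∈ Metric.ball 0 R ∧ ((t, (q t).1, (q t).2.1) : ℝ × ℝ × ℝ) ∈ Metric.ball 0 R := by
  have h1 : ‖((t, q t) : ℝ × V3)‖ < R := by
    have := h.box t ht
    linarith
  refine ⟨by rw [mem_ball_zero_iff]; exact h1, ?_⟩
  rw [mem_ball_zero_iff]
  refine lt_of_le_of_lt ?_ h1
  simp only [Prod.norm_def]
  refine max_le (le_max_left _ _) (max_le ?_ ?_)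
  · exact le_trans (le_max_left _ _) (le_max_right _ _)
  · exact le_trans (le_trans (le_max_left _ _) (le_max_right _ _)) (le_max_right _ _)

private theorem TComp_comp (h : TS L B F G R M T u q) (l : V3 →L[ℝ] ℝ) {s t : ℝ} (hs : s ∈ Icc 0 T)
    (ht : t ∈ Icc 0 T) :
    IntervalIntegrable (fun r => l (FF L B F (r, q r)) + u r * l (GG G (r, q r))) volume s t ∧
    l (q t) - l (q s) = ∫ r in s..t, (l (FF L B F (r, q r)) + u r * l (GG G (r, q r))) := by
  have h1 := rhs_int h.tr.env h.tr.adm h.tr.sol.cont hs ht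
  have h2 := sol_sub h.tr.env h.tr.adm h.tr.sol hs ht
  have h3 : (fun r => l (FF L B F (r, q r)) + u r * l (GG G (r, q r))) =
      fun r => l (FF L B F (r, q r) + u r • GG G (r, q r)) := by
    funext r
    rw [map_add, map_smul, smul_eq_mul]
  rw [h3]
  refine ⟨?_, ?_⟩
  · exact ⟨l.integrable_comp h1.1, l.integrable_comp h1.2⟩
  · rw [ContinuousLinearMap.intervalIntegral_comp_comm l h1, ← map_sub, h2]

private theorem TComp_der (h : TS L B F G R M T u q) (l : V3 →L[ℝ] ℝ)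
    (hl : ∀ z, l (GG G z) = 0) {t : ℝ} (ht : t ∈ Ioo 0 T) :
    HasDerivAt (fun t => l (q t)) (l (FF L B F (t, q t))) t := by
  have hT := h.tr.hT
  have h0 : (0 : ℝ) ∈ Icc 0 T := ⟨le_refl _, hT.le⟩
  have hc : ContinuousOn (fun r => l (FF L B F (r, q r))) (Icc 0 T) := by
    refine l.continuous.comp_continuousOn ?_
    exact h.tr.env.Fs.continuous.comp_continuousOn (continuousOn_id.prodMk h.tr.sol.cont)
  have hca : ContinuousAt (fun r => l (FF L B F (r, q r))) t :=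
    hc.continuousAt (Icc_mem_nhds ht.1 ht.2)
  have hi : IntervalIntegrable (fun r => l (FF L B F (r, q r))) volume 0 t := by
    refine ContinuousOn.intervalIntegrable ?_
    refine hc.mono ?_
    rw [uIcc_of_le ht.1.le]
    exact Icc_subset_Icc_right ht.2.le
  have hd : HasDerivAt (fun t => ∫ r in (0 : ℝ)..t, l (FF L B F (r, q r)))
      (l (FF L B F (t, q t))) t := by
    refine intervalIntegral.integral_hasDerivAt_right hi ?_ hca
    refine ContinuousOn.stronglyMeasurableAtFilter (s := Ioo 0 T) isOpen_Ioo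
      (hc.mono Ioo_subset_Icc_self) t ht
  have he : ∀ᶠ s in 𝓝 t, l (q s) = l (q 0) + ∫ r in (0 : ℝ)..s, l (FF L B F (r, q r)) := by
    filter_upwards [Ioo_mem_nhds ht.1 ht.2] with s hs
    have h2 := (TComp_comp h l h0 (Ioo_subset_Icc_self hs)).2
    have h3 : (fun r => l (FF L B F (r, q r)) + u r * l (GG G (r, q r))) =
        fun r => l (FF L B F (r, q r)) := by
      funext r
      rw [hl, mul_zero, add_zero]
    rw [h3] at h2
    linarith
  exact (hd.const_add (l (q 0))).congr_of_eventuallyEq he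

theorem ts_z (h : TS L B F G R M T u q) {t : ℝ} (ht : t ∈ Ioo 0 T) :
    HasDerivAt (fun t => (q t).1) (L (t, (q t).1, (q t).2.1)) t :=
  TComp_der h (ContinuousLinearMap.fst ℝ ℝ (ℝ × ℝ)) (fun _ => rfl) ht

theorem ts_y (h : TS L B F G R M T u q) {t : ℝ} (ht : t ∈ Ioo 0 T) :
    HasDerivAt (fun t => (q t).2.1) (B (t, q t)) t :=
  TComp_der h ((ContinuousLinearMap.fst ℝ ℝ ℝ).comp (ContinuousLinearMap.snd ℝ ℝ (ℝ × ℝ)))
    (fun _ => rfl) ht

theorem ts_x (h : TS L B F G R M T u q) {s t : ℝ} (hs : s ∈ Icc 0 T) (ht : t ∈ Icc 0 T) :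
    IntervalIntegrable (fun r => F (r, q r) + u r * G (r, q r)) volume s t ∧
    (q t).2.2 - (q s).2.2 = ∫ r in s..t, (F (r, q r) + u r * G (r, q r)) :=
  TComp_comp h ((ContinuousLinearMap.snd ℝ ℝ ℝ).comp (ContinuousLinearMap.snd ℝ ℝ (ℝ × ℝ))) hs ht

end Pool.Agent.Lib.MP_28b8de_an.TT
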