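import Pool.Agent.Lib.MP_28b8de_an.T.TComp

/-!
MP_28b8de_an, module TCompP.

Components of the multiplier.
PROOFS.  The adjoint equation `p t = p T + ∫_t^T p ∘ A`, evaluated at (0,0,1), (0,1,0): A v = fderiv (FF L B F) (r,q r) (0,v) + u fderiv (GG G) (r,q r) (0,v), and
fderiv (FF L B F) z w = (fderiv L (z.1,z.2.1,z.2.2.1) (w.1,w.2.1,w.2.2.1), fderiv B z w, fderiv F z w), fderiv (GG G) z w = (0,0,fderiv G z w).  For w = (0,0,0,1) the first component is
fderiv L _ (0,0,0) = 0.  p v = p (1,0,0) v.1 + p (0,1,0) v.2.1 + p (0,0,1) v.2.2.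
cp_lip: adj_lip.  cp_ne: Mul.ne and the last identity.  cp_max: Mul.max, GG G z = (0,0,G z) = G z • (0,0,1).
-/

set_option linter.unusedSectionVars false

namespace Pool.Agent.Lib.MP_28b8de_an.TT

open Filter Topology Set MeasureTheory
open Pool.Agent.Lib.MP_28b8de_an.PT (Adm Perf gron gron_back volterra kder ae_zero perf_inner stay)

variable {L : ℝ × ℝ × ℝ → ℝ} {B F G : ℝ × V3 → ℝ} {R M T : ℝ} {u : ℝ → ℝ} {q : ℝ → V3}
  {p : ℝ → V3 →L[ℝ] ℝ} {C : Set ℝ}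

/-- the projection `(t,z,y,x) ↦ (t,z,y)` -/
private noncomputable def TCompP_pr : (ℝ × V3) →L[ℝ] (ℝ × ℝ × ℝ) :=
  (ContinuousLinearMap.fst ℝ ℝ V3).prod
    (((ContinuousLinearMap.fst ℝ ℝ (ℝ × ℝ)).comp (ContinuousLinearMap.snd ℝ ℝ V3)).prod
      (((ContinuousLinearMap.fst ℝ ℝ ℝ).comp (ContinuousLinearMap.snd ℝ ℝ (ℝ × ℝ))).comp
        (ContinuousLinearMap.snd ℝ ℝ V3)))

private theorem TCompP_pr_apply (z : ℝ × V3) : TCompP_pr z = (z.1, z.2.1, z.2.2.1) := rfl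

private theorem TCompP_FF (h : TS L B F G R M T u q) (z w : ℝ × V3) :
    fderiv ℝ (FF L B F) z w =
      (fderiv ℝ L (z.1, z.2.1, z.2.2.1) (w.1, w.2.1, w.2.2.1), fderiv ℝ B z w, fderiv ℝ F z w) := by
  obtain ⟨hL, hB, hF, -⟩ := ts_diff h
  have dL : HasFDerivAt L (fderiv ℝ L (TCompP_pr z)) (TCompP_pr z) :=
    ((hL.differentiable (by simp)) _).hasFDerivAt
  have dB : HasFDerivAt B (fderiv ℝ B z) z := ((hB.differentiable (by simp)) _).hasFDerivAt
  have dF : HasFDerivAt F (fderiv ℝ F z) z := ((hF.differentiable (by simp)) _).hasFDerivAt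
  have h1 : HasFDerivAt (fun y => L (TCompP_pr y)) ((fderiv ℝ L (TCompP_pr z)).comp TCompP_pr) z :=
    dL.comp z TCompP_pr.hasFDerivAt
  have h2 : HasFDerivAt (FF L B F) (((fderiv ℝ L (TCompP_pr z)).comp TCompP_pr).prod
      ((fderiv ℝ B z).prod (fderiv ℝ F z))) z := h1.prodMk (dB.prodMk dF)
  rw [h2.fderiv]
  rfl

private theorem TCompP_GG (h : TS L B F G R M T u q) (z w : ℝ × V3) :
    fderiv ℝ (GG G) z w = (0, 0, fderiv ℝ G z w) := by
  obtain ⟨-, -, -, hG⟩ := ts_diff h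
  have dG : HasFDerivAt G (fderiv ℝ G z) z := ((hG.differentiable (by simp)) _).hasFDerivAt
  have h1 : HasFDerivAt (fun _ : ℝ × V3 => (0 : ℝ)) (0 : (ℝ × V3) →L[ℝ] ℝ) z :=
    hasFDerivAt_const _ _
  have h2 : HasFDerivAt (GG G) ((0 : (ℝ × V3) →L[ℝ] ℝ).prod
      ((0 : (ℝ × V3) →L[ℝ] ℝ).prod (fderiv ℝ G z))) z := h1.prodMk (h1.prodMk dG)
  rw [h2.fderiv]
  rfl

private theorem TCompP_lin (l : V3 →L[ℝ] ℝ) (v : V3) :
    l v = l (1, 0, 0) * v.1 + l (0, 1, 0) * v.2.1 + l (0, 0, 1) * v.2.2 := by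
  have h1 : v = v.1 • ((1, 0, 0) : V3) + v.2.1 • ((0, 1, 0) : V3) + v.2.2 • ((0, 0, 1) : V3) := by
    ext <;> simp
  conv_lhs => rw [h1]
  rw [map_add, map_add, map_smul, map_smul, map_smul, smul_eq_mul, smul_eq_mul, smul_eq_mul]
  ring

private theorem TCompP_eval (h : TS L B F G R M T u q) (l : V3 →L[ℝ] ℝ) (r : ℝ) (v : V3) :
    (l.comp (Aop (FF L B F) (GG G) u q r)) v =
      l (1, 0, 0) * fderiv ℝ L (r, (q r).1, (q r).2.1) (0, v.1, v.2.1)
      + l (0, 1, 0) * fderiv ℝ B (r, q r) (0, v)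
      + l (0, 0, 1) * (fderiv ℝ F (r, q r) (0, v) + u r * fderiv ℝ G (r, q r) (0, v)) := by
  have h1 : Aop (FF L B F) (GG G) u q r v =
      (fderiv ℝ L (r, (q r).1, (q r).2.1) (0, v.1, v.2.1), fderiv ℝ B (r, q r) (0, v),
        fderiv ℝ F (r, q r) (0, v) + u r * fderiv ℝ G (r, q r) (0, v)) := by
    show fderiv ℝ (FF L B F) (r, q r) (0, v) + u r • fderiv ℝ (GG G) (r, q r) (0, v) = _
    rw [TCompP_FF h, TCompP_GG h]
    ext <;> simp
  show l (Aop (FF L B F) (GG G) u q r v) = _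
  rw [h1, TCompP_lin l]

private theorem TCompP_sub (h : TS L B F G R M T u q) (hp : Mul (FF L B F) (GG G) T u q p)
    {s t : ℝ} (hs : s ∈ Icc 0 T) (ht : t ∈ Icc 0 T) (v : V3) :
    IntervalIntegrable (fun r => -((p r).comp (Aop (FF L B F) (GG G) u q r)) v) volume s t ∧
    p t v - p s v = ∫ r in s..t, -((p r).comp (Aop (FF L B F) (GG G) u q r)) v := by
  have hi := adj_int h.tr.env h.tr.adm h.tr.sol hp.adj.cont hs ht
  have hev : IntervalIntegrable (fun r => ((p r).comp (Aop (FF L B F) (GG G) u q r)) v)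
      volume s t := by
    rw [intervalIntegrable_iff] at hi ⊢
    exact (ContinuousLinearMap.apply ℝ ℝ v).integrable_comp hi
  refine ⟨hev.neg, ?_⟩
  have h1 := adj_sub h.tr.env h.tr.adm h.tr.sol hp.adj hs ht
  have h2 : p s v = p t v + ∫ r in s..t, ((p r).comp (Aop (FF L B F) (GG G) u q r)) v := by
    conv_lhs => rw [h1]
    have h3 := (ContinuousLinearMap.apply ℝ ℝ v).intervalIntegral_comp_comm hi
    have h4 : (∫ r in s..t, (p r).comp (Aop (FF L B F) (GG G) u q r)) v =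
        ∫ r in s..t, ((p r).comp (Aop (FF L B F) (GG G) u q r)) v := h3.symm
    rw [add_apply, h4]
  rw [intervalIntegral.integral_neg, h2]
  ring

theorem cp_lip (h : TS L B F G R M T u q) (hp : Mul (FF L B F) (GG G) T u q p) :
    ∃ K : ℝ, 1 ≤ K ∧ (∀ t ∈ Icc 0 T, ‖p t‖ ≤ K) ∧
      ∀ s ∈ Icc 0 T, ∀ t ∈ Icc 0 T, ‖p s - p t‖ ≤ K * |s - t| := by
  obtain ⟨K, hK⟩ := adj_lip h.tr.env h.tr.adm h.tr.sol hp.adj
  obtain ⟨c, hc⟩ := isCompact_Icc.exists_bound_of_continuousOn hp.adj.cont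
  refine ⟨max 1 (max c K), le_max_left _ _, fun t ht => ?_, fun s hs t ht => ?_⟩
  · exact (hc t ht).trans ((le_max_left _ _).trans (le_max_right _ _))
  · have h1 := hK.dist_le_mul s hs t ht
    rw [dist_eq_norm, Real.dist_eq] at h1
    exact h1.trans (mul_le_mul_of_nonneg_right ((le_max_right _ _).trans (le_max_right _ _))
      (abs_nonneg _))

theorem cp_ne (hp : Mul (FF L B F) (GG G) T u q p) {t : ℝ} (ht : t ∈ Icc 0 T) :
    p t (1, 0, 0) ≠ 0 ∨ p t (0, 1, 0) ≠ 0 ∨ p t (0, 0, 1) ≠ 0 := by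
  by_contra hcon
  push Not at hcon
  obtain ⟨h1, h2, h3⟩ := hcon
  apply hp.ne t ht
  refine ContinuousLinearMap.ext fun v => ?_
  rw [TCompP_lin (p t) v, h1, h2, h3]
  simp

theorem cp_max (hp : Mul (FF L B F) (GG G) T u q p) :
    ∀ᵐ s : ℝ, s ∈ Icc 0 T → u s * (G (s, q s) * p s (0, 0, 1)) = |G (s, q s) * p s (0, 0, 1)| := by
  filter_upwards [hp.max] with s hs hsT
  have h1 := hs hsT
  have h2 : p s (GG G (s, q s)) = G (s, q s) * p s (0, 0, 1) := by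
    rw [TCompP_lin (p s) (GG G (s, q s))]
    simp [GG, mul_comm]
  rw [h2] at h1
  exact h1

theorem cp_x (h : TS L B F G R M T u q) (hp : Mul (FF L B F) (GG G) T u q p) {s t : ℝ}
    (hs : s ∈ Icc 0 T) (ht : t ∈ Icc 0 T) :
    IntervalIntegrable (fun r => -(p r (0, 1, 0) * px B (r, q r))
      - p r (0, 0, 1) * (px F (r, q r) + u r * px G (r, q r))) volume s t ∧
    p t (0, 0, 1) - p s (0, 0, 1) = ∫ r in s..t, (-(p r (0, 1, 0) * px B (r, q r))
      - p r (0, 0, 1) * (px F (r, q r) + u r * px G (r, q r))) := by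
  have h1 := TCompP_sub h hp hs ht (0, 0, 1)
  have h2 : (fun r => -((p r).comp (Aop (FF L B F) (GG G) u q r)) (0, 0, 1)) =
      (fun r => -(p r (0, 1, 0) * px B (r, q r))
      - p r (0, 0, 1) * (px F (r, q r) + u r * px G (r, q r))) := by
    funext r
    rw [TCompP_eval h]
    have h3 : fderiv ℝ L (r, (q r).1, (q r).2.1) ((0 : ℝ), (0 : ℝ), (0 : ℝ)) = 0 :=
      map_zero (fderiv ℝ L (r, (q r).1, (q r).2.1))
    simp only [px]
    rw [h3]
    ring
  rw [h2] at h1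
  exact h1

theorem cp_y (h : TS L B F G R M T u q) (hp : Mul (FF L B F) (GG G) T u q p) {s t : ℝ}
    (hs : s ∈ Icc 0 T) (ht : t ∈ Icc 0 T) :
    IntervalIntegrable (fun r => -(p r (1, 0, 0) * ly L (r, (q r).1, (q r).2.1))
      - p r (0, 1, 0) * py B (r, q r)
      - p r (0, 0, 1) * (py F (r, q r) + u r * py G (r, q r))) volume s t ∧
    p t (0, 1, 0) - p s (0, 1, 0) = ∫ r in s..t, (-(p r (1, 0, 0) * ly L (r, (q r).1, (q r).2.1))
      - p r (0, 1, 0) * py B (r, q r)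
      - p r (0, 0, 1) * (py F (r, q r) + u r * py G (r, q r))) := by
  have h1 := TCompP_sub h hp hs ht (0, 1, 0)
  have h2 : (fun r => -((p r).comp (Aop (FF L B F) (GG G) u q r)) (0, 1, 0)) =
      (fun r => -(p r (1, 0, 0) * ly L (r, (q r).1, (q r).2.1))
      - p r (0, 1, 0) * py B (r, q r)
      - p r (0, 0, 1) * (py F (r, q r) + u r * py G (r, q r))) := by
    funext r
    rw [TCompP_eval h]
    simp only [py, ly]
    ring
  rw [h2] at h1
  exact h1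

end Pool.Agent.Lib.MP_28b8de_an.TT
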