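import Pool.Agent.Lib.MP_28b8de_an.T.TAux
import Pool.Agent.Lib.MP_28b8de_an.T.TComp
import Pool.Agent.Lib.MP_28b8de_an.T.TEmb

/-!
MP_28b8de_an, module TCurve.

If q = (ζ, η, ξ)(t) with analytic ζ, η, ξ for the t in C near a point of C then the goal holds.
PROOF.  On an interval J about t₀ (in (0,T)) everything is analytic and |γ - q| ≤ 1, γ := (ζ,η,ξ).  On C: derivatives along C (der_zero with ts_z, ts_y): ζ' = L(t,ζ,η), η' = B(t,γ) for t in C near t₀, hence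
(perf_ev) for all t near t₀.  x: kder_ev with A = F(t,q) - ξ', B = G(t,q): |ξ' - F(t,γ)| ≤ |G(t,γ)| on C near t₀.
If G(t,γ t) = 0 for all t in C near t₀: then G(t,γ t) = 0 and ξ' = F(t,γ) for all t near t₀ (perf_ev): control 0.
Otherwise there are t₁ in C arbitrarily close to t₀ with G(t₁,γ t₁) ≠ 0; v := (ξ' - F(t,γ))/G(t,γ) is analytic near t₁, |v| ≤ 1 on C near t₁; if |v t₂| < 1 for some t₂ ∈ C near t₁ then |v| ≤ 1 near t₂;
otherwise v² = 1 on C near t₁, so (perf_ev) v² = 1 near t₁.  So in all cases there are t₂ ∈ C and a neighbourhood of t₂ on which γ' = FF + v GG with |v| ≤ 1, v continuous: for s < s' in C near t₂,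
γ (smooth) joins q s to q s' : Jn with r = γ (control v cut off to [-1,1] outside the interval; Sol by the fundamental theorem).  Compare `curve_goal` in P/PCurve.lean (planar case).
-/

set_option linter.unusedSectionVars false

namespace Pool.Agent.Lib.MP_28b8de_an.TT

open Filter Topology Set MeasureTheory
open Pool.Agent.Lib.MP_28b8de_an.PT (Adm Perf gron gron_back volterra kder ae_zero perf_inner stay)

variable {L : ℝ × ℝ × ℝ → ℝ} {B F G : ℝ × V3 → ℝ} {R M T : ℝ} {u : ℝ → ℝ} {q : ℝ → V3}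
  {p : ℝ → V3 →L[ℝ] ℝ} {C : Set ℝ}


/-- an analytic curve that solves the system with a continuous admissible control joins points of `q` -/
private theorem TCurve_key {V : Type*} [NormedAddCommGroup V] [NormedSpace ℝ V]
    [FiniteDimensional ℝ V] {F G : ℝ × V → V} {M : ℝ} (E : Env F G M) {q γ : ℝ → V} {C : Set ℝ}
    {α β : ℝ} {w : ℝ → ℝ}
    (ha : ∀ t ∈ Ioo α β, AnalyticAt ℝ γ t) (hw : ContinuousOn w (Ioo α β))
    (hw1 : ∀ t ∈ Ioo α β, |w t| ≤ 1)
    (he : ∀ t ∈ Ioo α β, deriv γ t = F (t, γ t) + w t • G (t, γ t))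
    (hb : ∀ t ∈ Ioo α β, ‖γ t - q t‖ ≤ 1) (hq : ∀ t ∈ C, t ∈ Ioo α β → q t = γ t) :
    ∀ s ∈ C, s ∈ Ioo α β → ∀ t ∈ C, t ∈ Ioo α β → s < t → Jn F G q s t := by
  classical
  have : CompleteSpace V := FiniteDimensional.complete ℝ V
  intro s hs hsI t ht htI hst
  have hIcc : ∀ x ∈ Icc s t, x ∈ Ioo α β := fun x hx =>
    ⟨lt_of_lt_of_le hsI.1 hx.1, lt_of_le_of_lt hx.2 htI.2⟩
  have hγc : ContinuousOn γ (Ioo α β) := fun x hx => (ha x hx).continuousAt.continuousWithinAt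
  have hFc : Continuous F := E.Fs.continuous
  have hGc : Continuous G := E.Gs.continuous
  have hpc : ContinuousOn (fun x => (x, γ x)) (Ioo α β) := continuousOn_id.prodMk hγc
  have hvc : ContinuousOn (fun x => F (x, γ x) + w x • G (x, γ x)) (Ioo α β) :=
    (hFc.comp_continuousOn hpc).add (hw.smul (hGc.comp_continuousOn hpc))
  refine ⟨(Ioo α β).piecewise w (fun _ => 0), γ, ⟨?_, ?_⟩, ⟨?_, ?_⟩, (hq s hs hsI).symm,
    (hq t ht htI).symm, ?_, ?_⟩
  · exact hw.measurable_piecewise continuousOn_const measurableSet_Ioo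
  · intro x
    by_cases hx : x ∈ Ioo α β
    · rw [piecewise_eq_of_mem _ _ _ hx]; exact hw1 x hx
    · rw [piecewise_eq_of_notMem _ _ _ hx]; simp
  · exact hγc.mono hIcc
  · intro x hx
    have hsub : uIcc s x ⊆ Ioo α β := by
      intro y hy
      rw [uIcc_of_le hx.1] at hy
      exact hIcc y ⟨hy.1, le_trans hy.2 hx.2⟩
    have h1 : ∫ r in s..x, (F (r, γ r) + (Ioo α β).piecewise w (fun _ => 0) r • G (r, γ r))
        = ∫ r in s..x, (F (r, γ r) + w r • G (r, γ r)) := by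
      refine intervalIntegral.integral_congr fun r hr => ?_
      simp only [piecewise_eq_of_mem _ _ _ (hsub hr)]
    rw [h1, intervalIntegral.integral_eq_sub_of_hasDerivAt (f := γ)]
    · abel
    · intro r hr
      have h2 := (ha r (hsub hr)).differentiableAt.hasDerivAt
      rwa [he r (hsub hr)] at h2
    · exact (hvc.mono hsub).intervalIntegrable
  · intro x hx
    exact hb x (hIcc x hx)
  · have h0 : {x ∈ Ioo s t | ¬ SmAt γ x} = ∅ := by
      ext x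
      simp only [mem_ofPred_eq, mem_empty_iff_false, iff_false, not_and, not_not]
      intro hx
      have hxI := hIcc x ⟨hx.1.le, hx.2.le⟩
      refine ⟨min (x - α) (β - x), lt_min (by linarith [hxI.1]) (by linarith [hxI.2]), ?_⟩
      intro y hy
      have h3 := min_le_left (x - α) (β - x)
      have h4 := min_le_right (x - α) (β - x)
      exact (ha y ⟨by linarith [hy.1], by linarith [hy.2]⟩).contDiffAt.contDiffWithinAt
    rw [h0]; exact countable_empty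

private theorem TCurve_ev {P : ℝ → Prop} {t : ℝ} (h : ∀ᶠ s in 𝓝 t, P s) :
    ∃ δ > 0, ∀ s ∈ Ioo (t - δ) (t + δ), P s := by
  obtain ⟨δ, hδ, h⟩ := Metric.eventually_nhds_iff.1 h
  refine ⟨δ, hδ, fun s hs => h ?_⟩
  rw [Real.dist_eq, abs_lt]
  constructor <;> linarith [hs.1, hs.2]

theorem curve_goal (h : TS L B F G R M T u q) (hC : Perf T C) {t₀ : ℝ} (ht₀ : t₀ ∈ C)
    (ht₀' : t₀ ∈ Ioo 0 T) {ζ η ξ : ℝ → ℝ} (hζ : AnalyticAt ℝ ζ t₀) (hη : AnalyticAt ℝ η t₀)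
    (hξ : AnalyticAt ℝ ξ t₀)
    (hq : ∀ᶠ t in 𝓝 t₀, t ∈ C → (q t).1 = ζ t ∧ (q t).2.1 = η t ∧ (q t).2.2 = ξ t) :
    Goal (FF L B F) (GG G) q C := by
  have E := h.tr.env
  obtain ⟨hLd, hBd, hFd, hGd⟩ := ts_diff h
  have hFc : Continuous F := hFd.continuous
  have hGc : Continuous G := hGd.continuous
  have hqc : ContinuousAt q t₀ := ts_cont h ht₀'
  set γ : ℝ → V3 := fun t => (ζ t, η t, ξ t) with hγdef
  have hγ : AnalyticAt ℝ γ t₀ := hζ.prod (hη.prod hξ)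
  have hq0 : q t₀ = γ t₀ := by
    obtain ⟨h1, h2, h3⟩ := hq.self_of_nhds ht₀
    exact Prod.ext h1 (Prod.ext h2 h3)
  -- first interval
  have ev : ∀ᶠ t in 𝓝 t₀, (AnalyticAt ℝ ζ t ∧ AnalyticAt ℝ η t ∧ AnalyticAt ℝ ξ t) ∧
      ‖γ t - q t‖ ≤ 1 ∧ t ∈ Ioo 0 T ∧ (t ∈ C → q t = γ t) := by
    refine (hζ.eventually_analyticAt.and (hη.eventually_analyticAt.and
      hξ.eventually_analyticAt)).and (Filter.Eventually.and ?_ (Filter.Eventually.and
      (Ioo_mem_nhds ht₀'.1 ht₀'.2) ?_))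
    · have hc : ContinuousAt (fun t => ‖γ t - q t‖) t₀ := (hγ.continuousAt.sub hqc).norm
      have h0 : ‖γ t₀ - q t₀‖ < 1 := by rw [hq0]; simp
      exact (hc.eventually_lt continuousAt_const h0).mono fun t ht => ht.le
    · refine hq.mono fun t ht htC => ?_
      obtain ⟨h1, h2, h3⟩ := ht htC
      exact Prod.ext h1 (Prod.ext h2 h3)
  obtain ⟨δ₀, hδ₀, hJ₀⟩ := TCurve_ev ev
  have hI₀ : ∀ t, |t - t₀| < δ₀ → t ∈ Ioo (t₀ - δ₀) (t₀ + δ₀) := fun t ht => by
    rw [abs_lt] at ht; constructor <;> linarith [ht.1, ht.2]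
  have hball : ∀ t ∈ Ioo (t₀ - δ₀) (t₀ + δ₀), ((t, γ t) : ℝ × V3) ∈ Metric.ball 0 R ∧
      ((t, (γ t).1, (γ t).2.1) : ℝ × ℝ × ℝ) ∈ Metric.ball 0 R := by
    intro t ht
    obtain ⟨_, h1, h2, _⟩ := hJ₀ t ht
    have h3 := h.box t (Ioo_subset_Icc_self h2)
    have h4 : ‖((t, γ t) : ℝ × V3)‖ ≤ ‖((t, q t) : ℝ × V3)‖ + 1 := by
      have h5 : ((t, γ t) : ℝ × V3) = (t, q t) + (0, γ t - q t) := by
        ext <;> simp
      rw [h5]
      refine (norm_add_le _ _).trans ?_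
      have h6 : ‖((0, γ t - q t) : ℝ × V3)‖ ≤ 1 := by
        rw [Prod.norm_mk, norm_zero]
        exact max_le zero_le_one h1
      linarith
    have h7 : ‖((t, (γ t).1, (γ t).2.1) : ℝ × ℝ × ℝ)‖ ≤ ‖((t, γ t) : ℝ × V3)‖ := by
      simp only [Prod.norm_def]
      refine max_le (le_max_left _ _) (le_max_of_le_right (max_le (le_max_left _ _) ?_))
      exact le_max_of_le_right (le_max_left _ _)
    constructor
    · rw [mem_ball_zero_iff]; linarith
    · rw [mem_ball_zero_iff]; linarith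
  have hpa : ∀ t ∈ Ioo (t₀ - δ₀) (t₀ + δ₀), AnalyticAt ℝ (fun t => ((t, γ t) : ℝ × V3)) t := by
    intro t ht
    obtain ⟨⟨h1, h2, h3⟩, _⟩ := hJ₀ t ht
    exact analyticAt_id.prod (h1.prod (h2.prod h3))
  have hpl : ∀ t ∈ Ioo (t₀ - δ₀) (t₀ + δ₀),
      AnalyticAt ℝ (fun t => ((t, (γ t).1, (γ t).2.1) : ℝ × ℝ × ℝ)) t := by
    intro t ht
    obtain ⟨⟨h1, h2, h3⟩, _⟩ := hJ₀ t ht
    exact analyticAt_id.prod (h1.prod h2)
  have hLa : ∀ t ∈ Ioo (t₀ - δ₀) (t₀ + δ₀), AnalyticAt ℝ (fun t => L (t, (γ t).1, (γ t).2.1)) t :=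
    fun t ht => AnalyticAt.comp_of_eq (h.La _ (hball t ht).2) (hpl t ht) rfl
  have hBa : ∀ t ∈ Ioo (t₀ - δ₀) (t₀ + δ₀), AnalyticAt ℝ (fun t => B (t, γ t)) t :=
    fun t ht => AnalyticAt.comp_of_eq (h.Ba _ (hball t ht).1) (hpa t ht) rfl
  have hga0 : ∀ t ∈ Ioo (t₀ - δ₀) (t₀ + δ₀), AnalyticAt ℝ (fun t => G (t, γ t)) t :=
    fun t ht => AnalyticAt.comp_of_eq (h.Ga _ (hball t ht).1) (hpa t ht) rfl
  have hfa0 : ∀ t ∈ Ioo (t₀ - δ₀) (t₀ + δ₀), AnalyticAt ℝ (fun t => F (t, γ t)) t :=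
    fun t ht => AnalyticAt.comp_of_eq (h.Fa _ (hball t ht).1) (hpa t ht) rfl
  have ht00 : t₀ ∈ Ioo (t₀ - δ₀) (t₀ + δ₀) := hI₀ t₀ (by simpa using hδ₀)
  -- agreement on `C` near points of `C`
  have hagr : ∀ t ∈ Ioo (t₀ - δ₀) (t₀ + δ₀), ∀ᶠ s in 𝓝 t, s ∈ C → q s = γ s := fun t ht =>
    Filter.Eventually.mono (Ioo_mem_nhds ht.1 ht.2) fun s hs => (hJ₀ s hs).2.2.2
  -- derivatives of `ζ` and `η`
  have hz : ∀ᶠ t in 𝓝 t₀, deriv ζ t - L (t, (γ t).1, (γ t).2.1) = 0 := by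
    refine perf_ev hC ht₀ (hζ.deriv.sub (hLa t₀ ht00)) ?_
    refine Filter.Eventually.mono (Ioo_mem_nhds ht00.1 ht00.2) fun t ht htC => ?_
    obtain ⟨⟨h1, h2, h3⟩, h4, h5, h6⟩ := hJ₀ t ht
    have hd := (ts_z h h5).sub h1.differentiableAt.hasDerivAt
    have := der_zero hC htC hd ((hagr t ht).mono fun s hs hsC => by
      have := hs hsC
      simp only [Pi.sub_apply, this, hγdef, sub_self])
    rw [h6 htC] at this
    linarith
  have hy : ∀ᶠ t in 𝓝 t₀, deriv η t - B (t, γ t) = 0 := by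
    refine perf_ev hC ht₀ (hη.deriv.sub (hBa t₀ ht00)) ?_
    refine Filter.Eventually.mono (Ioo_mem_nhds ht00.1 ht00.2) fun t ht htC => ?_
    obtain ⟨⟨h1, h2, h3⟩, h4, h5, h6⟩ := hJ₀ t ht
    have hd := (ts_y h h5).sub h2.differentiableAt.hasDerivAt
    have := der_zero hC htC hd ((hagr t ht).mono fun s hs hsC => by
      have := hs hsC
      simp only [Pi.sub_apply, this, hγdef, sub_self])
    rw [h6 htC] at this
    linarith
  -- the working interval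
  obtain ⟨δ, hδ, hJ⟩ := TCurve_ev ((hz.and hy).and (Ioo_mem_nhds ht00.1 ht00.2))
  set α := t₀ - δ with hα
  set β := t₀ + δ with hβ
  have hJ' : ∀ t ∈ Ioo α β, t ∈ Ioo (t₀ - δ₀) (t₀ + δ₀) := fun t ht => (hJ t ht).2
  have hIcc : ∀ t ∈ Ioo α β, t ∈ Icc 0 T := fun t ht => Ioo_subset_Icc_self (hJ₀ t (hJ' t ht)).2.2.1
  have hqC : ∀ t ∈ C, t ∈ Ioo α β → q t = γ t := fun t ht htI => (hJ₀ t (hJ' t htI)).2.2.2 ht
  have hγa : ∀ t ∈ Ioo α β, AnalyticAt ℝ γ t := fun t ht => by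
    obtain ⟨⟨h1, h2, h3⟩, _⟩ := hJ₀ t (hJ' t ht)
    exact h1.prod (h2.prod h3)
  have hξa : ∀ t ∈ Ioo α β, AnalyticAt ℝ ξ t := fun t ht => (hJ₀ t (hJ' t ht)).1.2.2
  have hdγ : ∀ t ∈ Ioo α β, deriv γ t = (L (t, (γ t).1, (γ t).2.1), B (t, γ t), deriv ξ t) := by
    intro t ht
    obtain ⟨⟨h1, h2, h3⟩, _⟩ := hJ₀ t (hJ' t ht)
    have hd : HasDerivAt γ (deriv ζ t, deriv η t, deriv ξ t) t :=
      h1.differentiableAt.hasDerivAt.prodMk
        (h2.differentiableAt.hasDerivAt.prodMk h3.differentiableAt.hasDerivAt)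
    rw [hd.deriv]
    have e1 := (hJ t ht).1.1
    have e2 := (hJ t ht).1.2
    rw [sub_eq_zero] at e1 e2
    rw [e1, e2]
  set g : ℝ → ℝ := fun t => G (t, γ t) with hg
  set e : ℝ → ℝ := fun t => deriv ξ t - F (t, γ t) with he
  have hga : ∀ t ∈ Ioo α β, AnalyticAt ℝ g t := fun t ht => hga0 t (hJ' t ht)
  have hea : ∀ t ∈ Ioo α β, AnalyticAt ℝ e t := fun t ht =>
    (hξa t ht).deriv.sub (hfa0 t (hJ' t ht))
  have hqcJ : ContinuousOn q (Ioo α β) := h.tr.sol.cont.mono hIcc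
  have hdc : ContinuousOn (deriv ξ) (Ioo α β) := fun t ht =>
    (hξa t ht).deriv.continuousAt.continuousWithinAt
  have hpq : ContinuousOn (fun s => ((s, q s) : ℝ × V3)) (Ioo α β) := continuousOn_id.prodMk hqcJ
  have hmem : ∀ t, |t - t₀| < δ → t ∈ Ioo α β := fun t ht => by
    rw [abs_lt] at ht; constructor <;> simp only [hα, hβ] <;> linarith [ht.1, ht.2]
  -- the inequality on `C`
  have key : ∀ t ∈ C, t ∈ Ioo α β → |e t| ≤ |g t| := by
    intro t ht htI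
    have h1 := kder hC ht htI (A := fun s => F (s, q s) - deriv ξ s)
      (B := fun s => G (s, q s)) (u := u) (m := fun s => (q s).2.2 - ξ s) h.tr.adm
      ((hFc.comp_continuousOn hpq).sub hdc) (hGc.comp_continuousOn hpq)
      (fun s hs hsI => by simp only [hqC s hs hsI, hγdef, sub_self]) ?_
    · rw [hqC t ht htI] at h1
      have h2 : F (t, γ t) - deriv ξ t = - e t := by simp only [he]; ring
      rw [h2, abs_neg] at h1
      exact h1
    · intro s hs s' hs'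
      have hsub : uIcc s s' ⊆ Ioo α β := by
        intro x hx
        rw [mem_uIcc] at hx
        rcases hx with hx | hx
        · exact ⟨lt_of_lt_of_le hs.1 hx.1, lt_of_le_of_lt hx.2 hs'.2⟩
        · exact ⟨lt_of_lt_of_le hs'.1 hx.1, lt_of_le_of_lt hx.2 hs.2⟩
      obtain ⟨hi1, e1⟩ := ts_x h (hIcc s hs) (hIcc s' hs')
      have hi2 : IntervalIntegrable (deriv ξ) volume s s' := (hdc.mono hsub).intervalIntegrable
      have e2 : ∫ r in s..s', deriv ξ r = ξ s' - ξ s :=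
        intervalIntegral.integral_eq_sub_of_hasDerivAt
          (fun r hr => (hξa r (hsub hr)).differentiableAt.hasDerivAt) hi2
      have e3 : ((q s').2.2 - ξ s') - ((q s).2.2 - ξ s)
          = ∫ r in s..s', ((F (r, q r) + u r * G (r, q r)) - deriv ξ r) := by
        rw [intervalIntegral.integral_sub hi1 hi2, ← e1, e2]; ring
      show ((q s').2.2 - ξ s') - ((q s).2.2 - ξ s) = _
      rw [e3]
      refine intervalIntegral.integral_congr fun r _ => ?_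
      ring
  have h3I : t₀ ∈ Ioo α β := hmem t₀ (by simpa using hδ)
  -- the final step around a point `t₅`
  have fin : ∀ t₅ ∈ C, t₅ ∈ Ioo α β → ∀ v : ℝ → ℝ, (∀ᶠ t in 𝓝 t₅, ContinuousAt v t) →
      (∀ᶠ t in 𝓝 t₅, |v t| ≤ 1) → (∀ᶠ t in 𝓝 t₅, e t = v t * g t) →
      Goal (FF L B F) (GG G) q C := by
    intro t₅ h5C h5I v hvc hv5 hv6
    obtain ⟨δ', hδ', hE⟩ := TCurve_ev (((hv5.and hv6).and hvc).and (Ioo_mem_nhds h5I.1 h5I.2))
    refine ⟨t₅ - δ', t₅ + δ', ⟨t₅, h5C, by constructor <;> linarith⟩, ?_⟩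
    refine TCurve_key E (w := v) (γ := γ) (fun t ht => hγa t (hE t ht).2)
      (fun t ht => (hE t ht).1.2.continuousWithinAt)
      (fun t ht => (hE t ht).1.1.1) (fun t ht => ?_) (fun t ht => (hJ₀ t (hJ' t (hE t ht).2)).2.1)
      (fun t ht htI => hqC t ht (hE t htI).2)
    have h1 := (hE t ht).1.1.2
    simp only [he, hg] at h1
    rw [hdγ t (hE t ht).2]
    simp only [FF, GG, Prod.smul_mk, smul_eq_mul, mul_zero, Prod.mk_add_mk, add_zero]
    have h2 : deriv ξ t = F (t, γ t) + v t * G (t, γ t) := by linarith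
    rw [h2]
  by_cases hcase : ∀ t ∈ C, t ∈ Ioo α β → g t = 0
  · -- case (i)
    refine fin t₀ ht₀ h3I (fun _ => 0) (Eventually.of_forall fun _ => continuousAt_const)
      (Eventually.of_forall fun _ => by simp) ?_
    have hev : ∀ᶠ t in 𝓝 t₀, e t = 0 := by
      refine perf_ev hC ht₀ (hea t₀ h3I) ?_
      refine Filter.Eventually.mono (Ioo_mem_nhds h3I.1 h3I.2) fun t ht htC => ?_
      have h1 := key t htC ht
      rw [hcase t htC ht, abs_zero] at h1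
      exact abs_nonpos_iff.1 h1
    exact hev.mono fun t ht => by rw [ht, zero_mul]
  · -- case (ii)
    push Not at hcase
    obtain ⟨t₄, h4C, h4I, h4g⟩ := hcase
    set v : ℝ → ℝ := fun t => e t / g t with hv
    have hva : ∀ t ∈ Ioo α β, g t ≠ 0 → AnalyticAt ℝ v t := fun t ht hgt =>
      (hea t ht).div (hga t ht) hgt
    have hv1 : ∀ t ∈ C, t ∈ Ioo α β → g t ≠ 0 → |v t| ≤ 1 := by
      intro t ht htI hgt
      simp only [hv]
      rw [abs_div, div_le_one (abs_pos.2 hgt)]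
      exact key t ht htI
    have fin' : ∀ t₅ ∈ C, t₅ ∈ Ioo α β → g t₅ ≠ 0 → (∀ᶠ t in 𝓝 t₅, |v t| ≤ 1) →
        Goal (FF L B F) (GG G) q C := by
      intro t₅ h5C h5I h5g hv5
      have hg5 : ∀ᶠ t in 𝓝 t₅, g t ≠ 0 := (hga t₅ h5I).continuousAt.eventually_ne h5g
      refine fin t₅ h5C h5I v ?_ hv5 ?_
      · exact (hg5.and (Ioo_mem_nhds h5I.1 h5I.2)).mono fun t ht => (hva t ht.2 ht.1).continuousAt
      · refine hg5.mono fun t ht => ?_
        simp only [hv]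
        rw [div_mul_cancel₀ _ ht]
    obtain ⟨δ₄, hδ₄, h4⟩ : ∃ δ₄ > 0, ∀ t ∈ Ioo (t₄ - δ₄) (t₄ + δ₄), t ∈ Ioo α β ∧ g t ≠ 0 :=
      TCurve_ev (Filter.Eventually.and (Ioo_mem_nhds h4I.1 h4I.2)
        ((hga t₄ h4I).continuousAt.eventually_ne h4g))
    by_cases hc2 : ∃ t₅ ∈ C, t₅ ∈ Ioo (t₄ - δ₄) (t₄ + δ₄) ∧ |v t₅| < 1
    · obtain ⟨t₅, h5C, h5I, h5v⟩ := hc2
      refine fin' t₅ h5C (h4 t₅ h5I).1 (h4 t₅ h5I).2 ?_
      have hc : ContinuousAt (fun t => |v t|) t₅ :=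
        ((hva t₅ (h4 t₅ h5I).1 (h4 t₅ h5I).2).continuousAt).abs
      exact (hc.eventually_lt continuousAt_const h5v).mono fun t ht => ht.le
    · push Not at hc2
      refine fin' t₄ h4C h4I h4g ?_
      have hev : ∀ᶠ t in 𝓝 t₄, v t * v t - 1 = 0 := by
        refine perf_ev hC h4C
          (((hva t₄ h4I h4g).mul (hva t₄ h4I h4g)).sub analyticAt_const) ?_
        have hn : Ioo (t₄ - δ₄) (t₄ + δ₄) ∈ 𝓝 t₄ := Ioo_mem_nhds (by linarith) (by linarith)
        refine Filter.Eventually.mono hn fun s hsI hs => ?_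
        have h5 := hv1 s hs (h4 s hsI).1 (h4 s hsI).2
        have h6 := hc2 s hs hsI
        have h7 : |v s| = 1 := le_antisymm h5 h6
        have h8 : v s * v s = |v s| * |v s| := (abs_mul_abs_self (v s)).symm
        rw [h8, h7]; norm_num
      refine hev.mono fun t ht => ?_
      have h9 : v t * v t = 1 := by linarith
      exact abs_le_one_iff_mul_self_le_one.2 h9.le

end Pool.Agent.Lib.MP_28b8de_an.TT
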