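import Pool.Agent.Lib.MP_28b8de_an.P.PDefs
import Pool.Agent.Lib.MP_28b8de_an.P.PGron
import Pool.Agent.Lib.MP_28b8de_an.P.PKder
import Pool.Agent.Lib.MP_28b8de_an.P.PDens
import Pool.Agent.Lib.MP_28b8de_an.P.PSat

/-!
MP_28b8de_an, module TDefs: definitions for time-dependent control systems `q' = F(t,q) + u G(t,q)`
in a finite dimensional space `V`, and for triangular systems in `ℝ³`.
-/

namespace Pool.Agent.Lib.MP_28b8de_an.TT

open Filter Topology Set MeasureTheory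
open Pool.Agent.Lib.MP_28b8de_an.PT (Adm Perf l1 l1_apply)

section general

variable {V : Type*} [NormedAddCommGroup V] [NormedSpace ℝ V]

/-- space derivative of a field -/
noncomputable def dx (F : ℝ × V → V) (z : ℝ × V) : V →L[ℝ] V :=
  (fderiv ℝ F z).comp (ContinuousLinearMap.inr ℝ ℝ V)

/-- the bracket `W = G_t + (D G) F - (D F) G` -/
noncomputable def W (F G : ℝ × V → V) (z : ℝ × V) : V :=
  fderiv ℝ G z (1, 0) + dx G z (F z) - dx F z (G z)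

/-- standing assumptions on the (cut off) fields -/
structure Env (F G : ℝ × V → V) (M : ℝ) : Prop where
  hM : 1 ≤ M
  Fs : ContDiff ℝ (⊤ : ℕ∞) F
  Gs : ContDiff ℝ (⊤ : ℕ∞) G
  Fb : ∀ z, ‖F z‖ ≤ M
  Gb : ∀ z, ‖G z‖ ≤ M
  Fd : ∀ z, ‖fderiv ℝ F z‖ ≤ M
  Gd : ∀ z, ‖fderiv ℝ G z‖ ≤ M
  Fl : ∀ z w, ‖fderiv ℝ F z - fderiv ℝ F w‖ ≤ M * ‖z - w‖
  Gl : ∀ z w, ‖fderiv ℝ G z - fderiv ℝ G w‖ ≤ M * ‖z - w‖

/-- solutions of `r' = F(t,r) + v G(t,r)` on `[a,b]`, in integral form -/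
structure Sol (F G : ℝ × V → V) (v : ℝ → ℝ) (r : ℝ → V) (a b : ℝ) : Prop where
  cont : ContinuousOn r (Icc a b)
  eq : ∀ t ∈ Icc a b, r t = r a + ∫ s in a..t, (F (s, r s) + v s • G (s, r s))

/-- smooth near `t` -/
def SmAt (r : ℝ → V) (t : ℝ) : Prop :=
  ∃ ε > 0, ContDiffOn ℝ (⊤ : ℕ∞) r (Ioo (t - ε) (t + ε))

/-- `q(a)` and `q(b)` are joined on `[a,b]` by a trajectory near `q` with a countable bad set -/
def Jn (F G : ℝ × V → V) (q : ℝ → V) (a b : ℝ) : Prop :=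
  ∃ (v : ℝ → ℝ) (r : ℝ → V), Adm v ∧ Sol F G v r a b ∧ r a = q a ∧ r b = q b ∧
    (∀ t ∈ Icc a b, ‖r t - q t‖ ≤ 1) ∧ {t ∈ Ioo a b | ¬ SmAt r t}.Countable

/-- `C` has a portion between whose points `q` can be replaced -/
def Goal (F G : ℝ × V → V) (q : ℝ → V) (C : Set ℝ) : Prop :=
  ∃ α β : ℝ, (∃ t ∈ C, t ∈ Ioo α β) ∧
    ∀ s ∈ C, s ∈ Ioo α β → ∀ t ∈ C, t ∈ Ioo α β → s < t → Jn F G q s t

/-- a trajectory on `[0,T]` -/
structure Tr (F G : ℝ × V → V) (M T : ℝ) (u : ℝ → ℝ) (q : ℝ → V) : Prop where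
  env : Env F G M
  hT : 0 < T
  adm : Adm u
  sol : Sol F G u q 0 T

/-- the matrix of the linearised equation along `q` -/
noncomputable def Aop (F G : ℝ × V → V) (u : ℝ → ℝ) (q : ℝ → V) (s : ℝ) : V →L[ℝ] V :=
  dx F (s, q s) + u s • dx G (s, q s)

/-- solutions of the adjoint equation `p' = - p A` on `[a,b]` -/
structure Adj (F G : ℝ × V → V) (u : ℝ → ℝ) (q : ℝ → V) (p : ℝ → V →L[ℝ] ℝ) (a b : ℝ) : Prop where
  cont : ContinuousOn p (Icc a b)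
  eq : ∀ t ∈ Icc a b, p t = p b + ∫ s in t..b, (p s).comp (Aop F G u q s)

/-- a multiplier of `q` on `[0,T]` -/
structure Mul (F G : ℝ × V → V) (T : ℝ) (u : ℝ → ℝ) (q : ℝ → V) (p : ℝ → V →L[ℝ] ℝ) : Prop where
  adj : Adj F G u q p 0 T
  ne : ∀ t ∈ Icc 0 T, p t ≠ 0
  max : ∀ᵐ s : ℝ, s ∈ Icc 0 T → u s * p s (G (s, q s)) = |p s (G (s, q s))|

end general

end Pool.Agent.Lib.MP_28b8de_an.TT
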