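import Pool.Agent.Lib.MP_28b8de_an.T.TAux
import Pool.Agent.Lib.MP_28b8de_an.T.TCompP

/-!
MP_28b8de_an, module TFacts.

Facts on C.  ϕ := p (0,0,1).
PROOFS.
fact_phi: G ≠ 0 near t₀ along q; sg gives ϕ = 0 on C near t₀; kder_ev with m = ϕ, A = -(p(0,1,0) px B) - ϕ px F, B = - ϕ px G (cp_x): |A| ≤ |B| on C near t₀; on C ϕ = 0: p(0,1,0) px B = 0.
fact_p: on C near t₀ ϕ = 0 and p(0,1,0) = 0, so (cp_ne) p(1,0,0) ≠ 0; kder_ev with m = p(0,1,0) (cp_y): |p(1,0,0) ly L| ≤ 0 on C near t₀.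
-/

set_option linter.unusedSectionVars false

namespace Pool.Agent.Lib.MP_28b8de_an.TT

open Filter Topology Set MeasureTheory
open Pool.Agent.Lib.MP_28b8de_an.PT (Adm Perf gron gron_back volterra kder ae_zero perf_inner stay)

variable {L : ℝ × ℝ × ℝ → ℝ} {B F G : ℝ × V3 → ℝ} {R M T : ℝ} {u : ℝ → ℝ} {q : ℝ → V3}
  {p : ℝ → V3 →L[ℝ] ℝ} {C : Set ℝ}

private theorem TFacts_pc (h : Sit L B F G R M T u q p C) {t : ℝ} (ht : t ∈ Ioo 0 T) (v : V3) :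
    ContinuousAt (fun s => p s v) t := by
  have h1 : ContinuousAt p t := h.mul.adj.cont.continuousAt (Icc_mem_nhds ht.1 ht.2)
  exact h1.clm_apply continuousAt_const

private theorem TFacts_fc (h : Sit L B F G R M T u q p C) {t : ℝ} (ht : t ∈ Ioo 0 T)
    {f : ℝ × V3 → ℝ} (hf : ContDiff ℝ (⊤ : ℕ∞) f) (w : ℝ × V3) :
    ContinuousAt (fun s => fderiv ℝ f (s, q s) w) t := by
  have h1 : ContinuousAt (fun s : ℝ => ((s, q s) : ℝ × V3)) t :=
    continuousAt_id.prodMk (ts_cont h.ts ht)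
  have h2 : Continuous (fderiv ℝ f) := hf.continuous_fderiv (by simp)
  have h3 : ContinuousAt (fun s : ℝ => fderiv ℝ f (s, q s)) t :=
    ContinuousAt.comp (f := fun s : ℝ => ((s, q s) : ℝ × V3)) h2.continuousAt h1
  exact h3.clm_apply continuousAt_const

private theorem TFacts_lc (h : Sit L B F G R M T u q p C) {t : ℝ} (ht : t ∈ Ioo 0 T)
    (w : ℝ × ℝ × ℝ) :
    ContinuousAt (fun s => fderiv ℝ L (s, (q s).1, (q s).2.1) w) t := by
  have hq := ts_cont h.ts ht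
  have h1 : ContinuousAt (fun s : ℝ => ((s, (q s).1, (q s).2.1) : ℝ × ℝ × ℝ)) t :=
    continuousAt_id.prodMk (hq.fst.prodMk hq.snd.fst)
  have h2 : Continuous (fderiv ℝ L) := (ts_diff h.ts).1.continuous_fderiv (by simp)
  have h3 : ContinuousAt (fun s : ℝ => fderiv ℝ L (s, (q s).1, (q s).2.1)) t :=
    ContinuousAt.comp (f := fun s : ℝ => ((s, (q s).1, (q s).2.1) : ℝ × ℝ × ℝ)) h2.continuousAt h1
  exact h3.clm_apply continuousAt_const

private theorem TFacts_phi0 (h : Sit L B F G R M T u q p C) {t₀ : ℝ} (ht₀' : t₀ ∈ Ioo 0 T)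
    (hG : G (t₀, q t₀) ≠ 0) : ∀ᶠ t in 𝓝 t₀, t ∈ C → p t (0, 0, 1) = 0 := by
  have h1 : ContinuousAt (fun s : ℝ => ((s, q s) : ℝ × V3)) t₀ :=
    continuousAt_id.prodMk (ts_cont h.ts ht₀')
  have h2 : ContinuousAt (fun s : ℝ => G (s, q s)) t₀ :=
    ContinuousAt.comp (f := fun s : ℝ => ((s, q s) : ℝ × V3))
      (ts_diff h.ts).2.2.2.continuous.continuousAt h1
  have h3 : ∀ᶠ t in 𝓝 t₀, G (t, q t) ≠ 0 := h2.eventually_ne hG
  filter_upwards [h3] with t ht htC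
  have := h.sg t htC
  rcases mul_eq_zero.mp this with h4 | h4
  · exact absurd h4 ht
  · exact h4

private theorem TFacts_eps {t₀ : ℝ} (ht₀' : t₀ ∈ Ioo 0 T) :
    ∃ ε > 0, ∀ s ∈ Ioo (t₀ - ε) (t₀ + ε), s ∈ Icc 0 T := by
  refine ⟨min t₀ (T - t₀), lt_min ht₀'.1 (sub_pos.mpr ht₀'.2), fun s hs => ⟨?_, ?_⟩⟩
  · have := hs.1
    have h1 := min_le_left t₀ (T - t₀)
    linarith
  · have := hs.2
    have h1 := min_le_right t₀ (T - t₀)
    linarith

theorem fact_phi (h : Sit L B F G R M T u q p C) {t₀ : ℝ} (ht₀ : t₀ ∈ C) (ht₀' : t₀ ∈ Ioo 0 T)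
    (hG : G (t₀, q t₀) ≠ 0) :
    ∀ᶠ t in 𝓝 t₀, t ∈ C → p t (0, 0, 1) = 0 ∧ p t (0, 1, 0) * px B (t, q t) = 0 := by
  have h0 := TFacts_phi0 h ht₀' hG
  obtain ⟨ε, hε, hI⟩ := TFacts_eps ht₀'
  have hT : ∀ᶠ t in 𝓝 t₀, t ∈ Ioo 0 T := Ioo_mem_nhds ht₀'.1 ht₀'.2
  have hd := ts_diff h.ts
  have hk := kder_ev h.perf ht₀
    (A := fun r => -(p r (0, 1, 0) * px B (r, q r)) - p r (0, 0, 1) * px F (r, q r))
    (B := fun r => -(p r (0, 0, 1) * px G (r, q r))) (u := u) (m := fun r => p r (0, 0, 1))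
    h.ts.tr.adm
    (by
      filter_upwards [hT] with t ht
      exact (((TFacts_pc h ht _).mul (TFacts_fc h ht hd.2.1 _)).neg).sub
        ((TFacts_pc h ht _).mul (TFacts_fc h ht hd.2.2.1 _)))
    (by
      filter_upwards [hT] with t ht
      exact ((TFacts_pc h ht _).mul (TFacts_fc h ht hd.2.2.2 _)).neg)
    h0 hε
    (by
      intro s hs s' hs'
      have h1 := (cp_x h.ts h.mul (hI s hs) (hI s' hs')).2
      rw [h1]
      congr 1
      ext r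
      ring)
  filter_upwards [h0, hk] with t ht1 ht2 htC
  have h3 := ht1 htC
  have h4 := ht2 htC
  simp only [h3, zero_mul, neg_zero, sub_zero, abs_neg, abs_zero] at h4
  exact ⟨h3, abs_nonpos_iff.mp h4⟩

theorem fact_p (h : Sit L B F G R M T u q p C) {t₀ : ℝ} (ht₀ : t₀ ∈ C) (ht₀' : t₀ ∈ Ioo 0 T)
    (hG : G (t₀, q t₀) ≠ 0) (hp : ∀ᶠ t in 𝓝 t₀, t ∈ C → p t (0, 1, 0) = 0) :
    ∀ᶠ t in 𝓝 t₀, t ∈ C → p t (1, 0, 0) ≠ 0 ∧ ly L (t, (q t).1, (q t).2.1) = 0 := by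
  have h0 := TFacts_phi0 h ht₀' hG
  obtain ⟨ε, hε, hI⟩ := TFacts_eps ht₀'
  have hT : ∀ᶠ t in 𝓝 t₀, t ∈ Ioo 0 T := Ioo_mem_nhds ht₀'.1 ht₀'.2
  have hd := ts_diff h.ts
  have hk := kder_ev h.perf ht₀
    (A := fun r => -(p r (1, 0, 0) * ly L (r, (q r).1, (q r).2.1))
      - p r (0, 1, 0) * py B (r, q r) - p r (0, 0, 1) * py F (r, q r))
    (B := fun r => -(p r (0, 0, 1) * py G (r, q r))) (u := u) (m := fun r => p r (0, 1, 0))
    h.ts.tr.adm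
    (by
      filter_upwards [hT] with t ht
      exact ((((TFacts_pc h ht _).mul (TFacts_lc h ht _)).neg).sub
        ((TFacts_pc h ht _).mul (TFacts_fc h ht hd.2.1 _))).sub
        ((TFacts_pc h ht _).mul (TFacts_fc h ht hd.2.2.1 _)))
    (by
      filter_upwards [hT] with t ht
      exact ((TFacts_pc h ht _).mul (TFacts_fc h ht hd.2.2.2 _)).neg)
    hp hε
    (by
      intro s hs s' hs'
      have h1 := (cp_y h.ts h.mul (hI s hs) (hI s' hs')).2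
      rw [h1]
      congr 1
      ext r
      ring)
  filter_upwards [h0, hk, hp, hT] with t ht1 ht2 ht3 ht4 htC
  have h3 := ht1 htC
  have h5 := ht3 htC
  have h4 := ht2 htC
  have h6 : p t (1, 0, 0) ≠ 0 := by
    rcases cp_ne h.mul (t := t) ⟨ht4.1.le, ht4.2.le⟩ with h7 | h7 | h7
    · exact h7
    · exact absurd h5 h7
    · exact absurd h3 h7
  simp only [h3, h5, zero_mul, neg_zero, sub_zero, abs_neg, abs_zero] at h4
  have h8 := abs_nonpos_iff.mp h4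
  rcases mul_eq_zero.mp h8 with h9 | h9
  · exact absurd h9 h6
  · exact ⟨h6, h9⟩

end Pool.Agent.Lib.MP_28b8de_an.TT
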