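import Pool.Agent.Lib.MP_28b8de_an.T.TLcB
import Pool.Agent.Lib.MP_28b8de_an.T.TFacts

/-!
MP_28b8de_an, module TDist.

Local data of the trajectory near a surface y = η(t,z), x = ξ(t,z), resp. x = ξ(t,z,y).
PROOFS.  psY_q, psX_q: `η w + (y - η w) = y`.
lcY: choose a < t₀ < b close to t₀ (inside (0,T)) such that η, ξ are analytic at (t, z t) for t in Ioo a b (t ↦ (t, z t) is continuous) and everything is bounded.  wd: ts_z.  Yd: ts_y and chain rule for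
η (t, z t).  Xeq: x t - x s = ∫ (F + u G) (ts_x), ξ (t,z t) is C¹ with derivative fderiv ξ (t,z) (1, L(t,z,y)) (fundamental theorem), lY L η ((t,z), sY) = L(t,z,y), psY_q.
Analyticity of αY at ((t₀,z t₀),0,0): F analytic at psY = (t₀, q t₀) ∈ ball 0 R (ts_ball), psY analytic, fderiv ξ analytic, lY analytic.  K is any bound for |w'| on Ioo a b, at least 1.
lcX: the same with w = (t,z,y), w' = (1, L, B(t,q)), Y = 0.
lq_of: ϕ = p (0,0,1): cp_x; nn is bounded on [0,T] (continuous functions on a compact interval, |u| ≤ 1) and interval integrable; usgn: cp_max.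
-/

set_option linter.unusedSectionVars false

namespace Pool.Agent.Lib.MP_28b8de_an.TT

open Filter Topology Set MeasureTheory
open Pool.Agent.Lib.MP_28b8de_an.PT (Adm Perf gron gron_back volterra kder ae_zero perf_inner stay)

variable {L : ℝ × ℝ × ℝ → ℝ} {B F G : ℝ × V3 → ℝ} {R M T : ℝ} {u : ℝ → ℝ} {q : ℝ → V3}
  {p : ℝ → V3 →L[ℝ] ℝ} {C : Set ℝ}


/-- distance to `x = ξ(t,z)` -/
def sX (ξ : ℝ × ℝ → ℝ) (q : ℝ → V3) (t : ℝ) : ℝ := (q t).2.2 - ξ (t, (q t).1)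

/-- distance to `y = η(t,z)` -/
def sY (η : ℝ × ℝ → ℝ) (q : ℝ → V3) (t : ℝ) : ℝ := (q t).2.1 - η (t, (q t).1)

/-- distance to `x = ξ(t,z,y)` -/
def sF (ξ : ℝ × ℝ × ℝ → ℝ) (q : ℝ → V3) (t : ℝ) : ℝ := (q t).2.2 - ξ (t, (q t).1, (q t).2.1)

/-- the derivative of `ϕ = p (0,0,1)` -/
noncomputable def nn (B F G : ℝ × V3 → ℝ) (u : ℝ → ℝ) (q : ℝ → V3) (p : ℝ → V3 →L[ℝ] ℝ)
    (r : ℝ) : ℝ :=
  -(p r (0, 1, 0) * px B (r, q r)) - p r (0, 0, 1) * (px F (r, q r) + u r * px G (r, q r))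

/-- the derivative of `p (0,1,0)` -/
noncomputable def pπ (L : ℝ × ℝ × ℝ → ℝ) (B F G : ℝ × V3 → ℝ) (u : ℝ → ℝ) (q : ℝ → V3)
    (p : ℝ → V3 →L[ℝ] ℝ) (r : ℝ) : ℝ :=
  -(p r (1, 0, 0) * ly L (r, (q r).1, (q r).2.1)) - p r (0, 1, 0) * py B (r, q r)
    - p r (0, 0, 1) * (py F (r, q r) + u r * py G (r, q r))

theorem psY_q (η ξ : ℝ × ℝ → ℝ) (q : ℝ → V3) (t : ℝ) :
    psY η ξ ((t, (q t).1), sY η q t, sX ξ q t) = (t, q t) := by
  simp [psY, sY, sX]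

theorem psX_q (ξ : ℝ × ℝ × ℝ → ℝ) (q : ℝ → V3) (t : ℝ) :
    psX ξ ((t, (q t).1, (q t).2.1), 0, sF ξ q t) = (t, q t) := by
  simp [psX, sF]

private theorem tdist_Lb (h : TS L B F G R M T u q) (z : ℝ × V3) :
    |L (z.1, z.2.1, z.2.2.1)| ≤ M ∧ |B z| ≤ M ∧ |F z| ≤ M := by
  have h1 := h.tr.env.Fb z
  unfold FF at h1
  rw [Prod.norm_def, Prod.norm_def] at h1
  simp only [Real.norm_eq_abs] at h1
  exact ⟨(le_max_left _ _).trans h1,
    ((le_max_left _ _).trans (le_max_right _ _)).trans h1,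
    ((le_max_right _ _).trans (le_max_right _ _)).trans h1⟩

/-- a neighbourhood of `t₀` on which everything holds -/
private theorem tdist_nbhd {P : ℝ → Prop} {t₀ : ℝ} (ht₀ : t₀ ∈ Ioo 0 T)
    (hP : ∀ᶠ t in 𝓝 t₀, P t) :
    ∃ a b : ℝ, t₀ ∈ Ioo a b ∧ Ioo a b ⊆ Ioo 0 T ∧ ∀ t ∈ Ioo a b, P t := by
  have h1 : ∀ᶠ t in 𝓝 t₀, t ∈ Ioo 0 T ∧ P t := (isOpen_Ioo.eventually_mem ht₀).and hP
  obtain ⟨ε, hε, h2⟩ := Metric.eventually_nhds_iff.1 h1
  have h3 : ∀ t ∈ Ioo (t₀ - ε) (t₀ + ε), t ∈ Ioo 0 T ∧ P t := by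
    intro t ht
    apply h2
    rw [Real.dist_eq, abs_lt]
    constructor <;> linarith [ht.1, ht.2]
  exact ⟨t₀ - ε, t₀ + ε, ⟨by linarith, by linarith⟩, fun t ht => (h3 t ht).1,
    fun t ht => (h3 t ht).2⟩

private theorem tdist_apply {E W : Type*} [NormedAddCommGroup E] [NormedSpace ℝ E]
    [NormedAddCommGroup W] [NormedSpace ℝ W] {D : E → W →L[ℝ] ℝ} {v : E → W} {z : E}
    (hD : AnalyticAt ℝ D z) (hv : AnalyticAt ℝ v z) : AnalyticAt ℝ (fun p => D p (v p)) z := by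
  have h1 := (ContinuousLinearMap.apply ℝ ℝ : W →L[ℝ] (W →L[ℝ] ℝ) →L[ℝ] ℝ).analyticAt_bilinear
    (v z, D z)
  exact AnalyticAt.fun_comp (f := fun p => (v p, D p)) h1 (hv.prod hD)

private theorem tdist_X {W : Type*} [NormedAddCommGroup W] [NormedSpace ℝ W]
    (h : TS L B F G R M T u q) {a b : ℝ} (hab : Ioo a b ⊆ Ioo 0 T) {w w' : ℝ → W} {ξ : W → ℝ}
    (hw : ∀ t ∈ Ioo a b, HasDerivAt w (w' t) t) (hw' : ContinuousOn w' (Ioo a b))
    (hξ : ∀ t ∈ Ioo a b, AnalyticAt ℝ ξ (w t)) {s t : ℝ} (hs : s ∈ Ioo a b) (ht : t ∈ Ioo a b) :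
    ((q t).2.2 - ξ (w t)) - ((q s).2.2 - ξ (w s)) =
      ∫ r in s..t, ((F (r, q r) - fderiv ℝ ξ (w r) (w' r)) + u r * G (r, q r)) := by
  have hsub : uIcc s t ⊆ Ioo a b := by
    intro r hr
    rw [mem_uIcc] at hr
    rcases hr with hr | hr
    · exact ⟨lt_of_lt_of_le hs.1 hr.1, lt_of_le_of_lt hr.2 ht.2⟩
    · exact ⟨lt_of_lt_of_le ht.1 hr.1, lt_of_le_of_lt hr.2 hs.2⟩
  have hwc : ContinuousOn w (Ioo a b) := fun r hr => (hw r hr).continuousAt.continuousWithinAt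
  have hdc : ContinuousOn (fun r => fderiv ℝ ξ (w r) (w' r)) (Ioo a b) := by
    intro r hr
    have h1 : ContinuousAt (fderiv ℝ ξ) (w r) := (hξ r hr).fderiv.continuousAt
    exact (h1.comp_continuousWithinAt (hwc r hr)).clm_apply (hw' r hr)
  have h1 : ∫ r in s..t, fderiv ℝ ξ (w r) (w' r) = ξ (w t) - ξ (w s) := by
    apply intervalIntegral.integral_eq_sub_of_hasDerivAt
    · intro r hr
      exact (hξ r (hsub hr)).differentiableAt.hasFDerivAt.comp_hasDerivAt r (hw r (hsub hr))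
    · exact (hdc.mono hsub).intervalIntegrable
  obtain ⟨h2, h3⟩ := ts_x h (Ioo_subset_Icc_self (hab hs)) (Ioo_subset_Icc_self (hab ht))
  have h4 : (fun r => (F (r, q r) - fderiv ℝ ξ (w r) (w' r)) + u r * G (r, q r)) =
      fun r => (F (r, q r) + u r * G (r, q r)) - fderiv ℝ ξ (w r) (w' r) := by
    funext r
    ring
  rw [h4, intervalIntegral.integral_sub h2 (hdc.mono hsub).intervalIntegrable, ← h3, h1]
  ring

theorem lcY (h : TS L B F G R M T u q) {η ξ : ℝ × ℝ → ℝ} {t₀ : ℝ} (ht₀ : t₀ ∈ Ioo 0 T)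
    (hη : AnalyticAt ℝ η (t₀, (q t₀).1)) (hξ : AnalyticAt ℝ ξ (t₀, (q t₀).1))
    (h1 : (q t₀).2.1 = η (t₀, (q t₀).1)) (h2 : (q t₀).2.2 = ξ (t₀, (q t₀).1)) :
    ∃ K a b : ℝ, Ioo a b ⊆ Ioo 0 T ∧
      (∀ t ∈ Ioo a b, AnalyticAt ℝ η (t, (q t).1) ∧ AnalyticAt ℝ ξ (t, (q t).1)) ∧
      Lc K u a b (fun t => (t, (q t).1)) (fun t => (1, L (t, (q t).1, (q t).2.1))) (sY η q)
        (fun t => B (t, q t) - fderiv ℝ η (t, (q t).1) (1, L (t, (q t).1, (q t).2.1)))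
        (sX ξ q) (αY L F η ξ) (fun z => G (psY η ξ z)) ∧
      Lp a b (fun t => (t, (q t).1)) (sY η q) (sX ξ q) (αY L F η ξ) (fun z => G (psY η ξ z)) t₀ := by
  obtain ⟨hL, hB, hF, hG⟩ := ts_diff h
  have hwa : ContinuousAt (fun t => (t, (q t).1)) t₀ :=
    continuousAt_id.prodMk (ts_cont h ht₀).fst
  obtain ⟨a, b, hmem, hab, hP⟩ := tdist_nbhd ht₀
    ((hwa.eventually hη.eventually_analyticAt).and (hwa.eventually hξ.eventually_analyticAt))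
  have hM : 1 ≤ M := h.tr.env.hM
  have hw : ∀ t ∈ Ioo a b, HasDerivAt (fun t => (t, (q t).1))
      ((1 : ℝ), L (t, (q t).1, (q t).2.1)) t := fun t ht =>
    (hasDerivAt_id t).prodMk (ts_z h (hab ht))
  have hqc : ∀ t ∈ Ioo a b, ContinuousAt q t := fun t ht => ts_cont h (hab ht)
  have hw' : ContinuousOn (fun t => ((1 : ℝ), L (t, (q t).1, (q t).2.1))) (Ioo a b) := by
    intro t ht
    apply ContinuousAt.continuousWithinAt
    refine continuousAt_const.prodMk ?_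
    exact hL.continuous.continuousAt.comp
      (continuousAt_id.prodMk ((hqc t ht).fst.prodMk (hqc t ht).snd.fst))
  have hsY : ∀ t ∈ Ioo a b, HasDerivAt (sY η q)
      (B (t, q t) - fderiv ℝ η (t, (q t).1) (1, L (t, (q t).1, (q t).2.1))) t := fun t ht =>
    (ts_y h (hab ht)).sub
      ((hP t ht).1.differentiableAt.hasFDerivAt.comp_hasDerivAt t (hw t ht))
  have hps : psY η ξ ((t₀, (q t₀).1), 0, 0) = (t₀, q t₀) := by
    simp only [psY, add_zero]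
    rw [← h1, ← h2]
  have hball := (ts_ball h (Ioo_subset_Icc_self ht₀)).1
  have hball' := (ts_ball h (Ioo_subset_Icc_self ht₀)).2
  have hfst : AnalyticAt ℝ (fun p : (ℝ × ℝ) × ℝ × ℝ => p.1) ((t₀, (q t₀).1), (0 : ℝ), (0 : ℝ)) :=
    analyticAt_fst
  have hsnd : AnalyticAt ℝ (fun p : (ℝ × ℝ) × ℝ × ℝ => p.2) ((t₀, (q t₀).1), (0 : ℝ), (0 : ℝ)) :=
    analyticAt_snd
  have hηp : AnalyticAt ℝ (fun p : (ℝ × ℝ) × ℝ × ℝ => η p.1) ((t₀, (q t₀).1), (0 : ℝ), (0 : ℝ)) :=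
    AnalyticAt.fun_comp (g := η) (f := fun p : (ℝ × ℝ) × ℝ × ℝ => p.1) hη hfst
  have hξp : AnalyticAt ℝ (fun p : (ℝ × ℝ) × ℝ × ℝ => ξ p.1) ((t₀, (q t₀).1), (0 : ℝ), (0 : ℝ)) :=
    AnalyticAt.fun_comp (g := ξ) (f := fun p : (ℝ × ℝ) × ℝ × ℝ => p.1) hξ hfst
  have h11 : AnalyticAt ℝ (fun p : (ℝ × ℝ) × ℝ × ℝ => p.1.1) ((t₀, (q t₀).1), (0 : ℝ), (0 : ℝ)) :=
    AnalyticAt.fun_comp (g := fun r : ℝ × ℝ => r.1) (f := fun p : (ℝ × ℝ) × ℝ × ℝ => p.1)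
      analyticAt_fst hfst
  have h12 : AnalyticAt ℝ (fun p : (ℝ × ℝ) × ℝ × ℝ => p.1.2) ((t₀, (q t₀).1), (0 : ℝ), (0 : ℝ)) :=
    AnalyticAt.fun_comp (g := fun r : ℝ × ℝ => r.2) (f := fun p : (ℝ × ℝ) × ℝ × ℝ => p.1)
      analyticAt_snd hfst
  have h21 : AnalyticAt ℝ (fun p : (ℝ × ℝ) × ℝ × ℝ => p.2.1) ((t₀, (q t₀).1), (0 : ℝ), (0 : ℝ)) :=
    AnalyticAt.fun_comp (g := fun r : ℝ × ℝ => r.1) (f := fun p : (ℝ × ℝ) × ℝ × ℝ => p.2)
      analyticAt_fst hsnd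
  have h22 : AnalyticAt ℝ (fun p : (ℝ × ℝ) × ℝ × ℝ => p.2.2) ((t₀, (q t₀).1), (0 : ℝ), (0 : ℝ)) :=
    AnalyticAt.fun_comp (g := fun r : ℝ × ℝ => r.2) (f := fun p : (ℝ × ℝ) × ℝ × ℝ => p.2)
      analyticAt_snd hsnd
  have hpsa : AnalyticAt ℝ (psY η ξ) ((t₀, (q t₀).1), (0 : ℝ), (0 : ℝ)) :=
    h11.prod (h12.prod ((hηp.add h21).prod (hξp.add h22)))
  have hFp : AnalyticAt ℝ (fun p => F (psY η ξ p)) ((t₀, (q t₀).1), (0 : ℝ), (0 : ℝ)) := by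
    refine AnalyticAt.fun_comp (g := F) (f := psY η ξ) ?_ hpsa
    rw [hps]
    exact h.Fa _ hball
  have hGp : AnalyticAt ℝ (fun p => G (psY η ξ p)) ((t₀, (q t₀).1), (0 : ℝ), (0 : ℝ)) := by
    refine AnalyticAt.fun_comp (g := G) (f := psY η ξ) ?_ hpsa
    rw [hps]
    exact h.Ga _ hball
  have hLp : AnalyticAt ℝ (fun p : (ℝ × ℝ) × ℝ × ℝ => lY L η (p.1, p.2.1))
      ((t₀, (q t₀).1), (0 : ℝ), (0 : ℝ)) := by
    have h3 : AnalyticAt ℝ (fun p : (ℝ × ℝ) × ℝ × ℝ => ((p.1.1, p.1.2, η p.1 + p.2.1) : ℝ × ℝ × ℝ))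
        ((t₀, (q t₀).1), (0 : ℝ), (0 : ℝ)) := h11.prod (h12.prod (hηp.add h21))
    refine AnalyticAt.fun_comp (g := L)
      (f := fun p : (ℝ × ℝ) × ℝ × ℝ => ((p.1.1, p.1.2, η p.1 + p.2.1) : ℝ × ℝ × ℝ)) ?_ h3
    have h4 : ((t₀, (q t₀).1, η (t₀, (q t₀).1) + 0) : ℝ × ℝ × ℝ) = (t₀, (q t₀).1, (q t₀).2.1) := by
      rw [add_zero, ← h1]
    show AnalyticAt ℝ L (t₀, (q t₀).1, η (t₀, (q t₀).1) + 0)
    rw [h4]
    exact h.La _ hball'
  have hαa : AnalyticAt ℝ (αY L F η ξ) ((t₀, (q t₀).1), (0 : ℝ), (0 : ℝ)) := by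
    refine hFp.sub (tdist_apply (D := fun p : (ℝ × ℝ) × ℝ × ℝ => fderiv ℝ ξ p.1)
      (v := fun p : (ℝ × ℝ) × ℝ × ℝ => ((1 : ℝ), lY L η (p.1, p.2.1))) ?_ ?_)
    · exact AnalyticAt.fun_comp (g := fderiv ℝ ξ) (f := fun p : (ℝ × ℝ) × ℝ × ℝ => p.1)
        hξ.fderiv hfst
    · exact analyticAt_const.prod hLp
  refine ⟨M, a, b, hab, hP, ?_, hmem, ?_, ?_, hαa, hGp⟩
  · refine ⟨hM, h.tr.adm, hw, hw', ?_, hsY, ?_, ?_, ?_⟩
    · intro t _
      rw [Prod.norm_def]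
      simp only [Real.norm_eq_abs, abs_one]
      exact max_le hM (tdist_Lb h (t, q t)).1
    · intro t ht
      apply ContinuousAt.continuousWithinAt
      refine (hB.continuous.continuousAt.comp (continuousAt_id.prodMk (hqc t ht))).sub ?_
      have h3 : ContinuousAt (fun r => fderiv ℝ η (r, (q r).1)) t :=
        ((hP t ht).1.fderiv.continuousAt).comp (f := fun r => (r, (q r).1))
          (continuousAt_id.prodMk (hqc t ht).fst)
      exact h3.clm_apply (hw'.continuousAt (isOpen_Ioo.mem_nhds ht))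
    · intro t ht
      apply ContinuousAt.continuousWithinAt
      exact (hqc t ht).snd.snd.sub ((hP t ht).2.continuousAt.comp (f := fun r => (r, (q r).1))
        (continuousAt_id.prodMk (hqc t ht).fst))
    · intro s hs t ht
      have h3 := tdist_X h hab hw hw' (fun r hr => (hP r hr).2) hs ht
      unfold sX
      rw [h3]
      congr 1
      funext r
      have h4 := psY_q η ξ q r
      unfold sX at h4
      have h5 : lY L η ((r, (q r).1), sY η q r) = L (r, (q r).1, (q r).2.1) := by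
        simp [lY, sY]
      simp only [αY, h4, h5]
  · unfold sX
    rw [h2, sub_self]
  · unfold sY
    rw [h1, sub_self]

theorem lcX (h : TS L B F G R M T u q) {ξ : ℝ × ℝ × ℝ → ℝ} {t₀ : ℝ} (ht₀ : t₀ ∈ Ioo 0 T)
    (hξ : AnalyticAt ℝ ξ (t₀, (q t₀).1, (q t₀).2.1))
    (h2 : (q t₀).2.2 = ξ (t₀, (q t₀).1, (q t₀).2.1)) :
    ∃ K a b : ℝ, Ioo a b ⊆ Ioo 0 T ∧
      (∀ t ∈ Ioo a b, AnalyticAt ℝ ξ (t, (q t).1, (q t).2.1)) ∧
      Lc K u a b (fun t => (t, (q t).1, (q t).2.1))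
        (fun t => (1, L (t, (q t).1, (q t).2.1), B (t, q t))) (fun _ => 0) (fun _ => 0)
        (sF ξ q) (αX L B F ξ) (fun z => G (psX ξ z)) ∧
      Lp a b (fun t => (t, (q t).1, (q t).2.1)) (fun _ => 0) (sF ξ q) (αX L B F ξ)
        (fun z => G (psX ξ z)) t₀ := by
  obtain ⟨hL, hB, hF, hG⟩ := ts_diff h
  have hwa : ContinuousAt (fun t => (t, (q t).1, (q t).2.1)) t₀ :=
    continuousAt_id.prodMk ((ts_cont h ht₀).fst.prodMk (ts_cont h ht₀).snd.fst)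
  obtain ⟨a, b, hmem, hab, hP⟩ := tdist_nbhd ht₀ (hwa.eventually hξ.eventually_analyticAt)
  have hM : 1 ≤ M := h.tr.env.hM
  have hw : ∀ t ∈ Ioo a b, HasDerivAt (fun t => (t, (q t).1, (q t).2.1))
      ((1 : ℝ), L (t, (q t).1, (q t).2.1), B (t, q t)) t := fun t ht =>
    (hasDerivAt_id t).prodMk ((ts_z h (hab ht)).prodMk (ts_y h (hab ht)))
  have hqc : ∀ t ∈ Ioo a b, ContinuousAt q t := fun t ht => ts_cont h (hab ht)
  have hw' : ContinuousOn (fun t => ((1 : ℝ), L (t, (q t).1, (q t).2.1), B (t, q t)))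
      (Ioo a b) := by
    intro t ht
    apply ContinuousAt.continuousWithinAt
    refine continuousAt_const.prodMk (ContinuousAt.prodMk ?_ ?_)
    · exact hL.continuous.continuousAt.comp
        (continuousAt_id.prodMk ((hqc t ht).fst.prodMk (hqc t ht).snd.fst))
    · exact hB.continuous.continuousAt.comp (continuousAt_id.prodMk (hqc t ht))
  have hps : psX ξ ((t₀, (q t₀).1, (q t₀).2.1), 0, 0) = (t₀, q t₀) := by
    simp only [psX, add_zero]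
    rw [← h2]
  have hball := (ts_ball h (Ioo_subset_Icc_self ht₀)).1
  have hball' := (ts_ball h (Ioo_subset_Icc_self ht₀)).2
  have hfst : AnalyticAt ℝ (fun p : (ℝ × ℝ × ℝ) × ℝ × ℝ => p.1)
      ((t₀, (q t₀).1, (q t₀).2.1), (0 : ℝ), (0 : ℝ)) := analyticAt_fst
  have hsnd : AnalyticAt ℝ (fun p : (ℝ × ℝ × ℝ) × ℝ × ℝ => p.2)
      ((t₀, (q t₀).1, (q t₀).2.1), (0 : ℝ), (0 : ℝ)) := analyticAt_snd
  have hξp : AnalyticAt ℝ (fun p : (ℝ × ℝ × ℝ) × ℝ × ℝ => ξ p.1)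
      ((t₀, (q t₀).1, (q t₀).2.1), (0 : ℝ), (0 : ℝ)) :=
    AnalyticAt.fun_comp (g := ξ) (f := fun p : (ℝ × ℝ × ℝ) × ℝ × ℝ => p.1) hξ hfst
  have h11 : AnalyticAt ℝ (fun p : (ℝ × ℝ × ℝ) × ℝ × ℝ => p.1.1)
      ((t₀, (q t₀).1, (q t₀).2.1), (0 : ℝ), (0 : ℝ)) :=
    AnalyticAt.fun_comp (g := fun r : ℝ × ℝ × ℝ => r.1) (f := fun p : (ℝ × ℝ × ℝ) × ℝ × ℝ => p.1)
      analyticAt_fst hfst
  have h1s : AnalyticAt ℝ (fun p : (ℝ × ℝ × ℝ) × ℝ × ℝ => p.1.2)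
      ((t₀, (q t₀).1, (q t₀).2.1), (0 : ℝ), (0 : ℝ)) :=
    AnalyticAt.fun_comp (g := fun r : ℝ × ℝ × ℝ => r.2) (f := fun p : (ℝ × ℝ × ℝ) × ℝ × ℝ => p.1)
      analyticAt_snd hfst
  have h12 : AnalyticAt ℝ (fun p : (ℝ × ℝ × ℝ) × ℝ × ℝ => p.1.2.1)
      ((t₀, (q t₀).1, (q t₀).2.1), (0 : ℝ), (0 : ℝ)) :=
    AnalyticAt.fun_comp (g := fun r : ℝ × ℝ => r.1) (f := fun p : (ℝ × ℝ × ℝ) × ℝ × ℝ => p.1.2)
      analyticAt_fst h1s
  have h13 : AnalyticAt ℝ (fun p : (ℝ × ℝ × ℝ) × ℝ × ℝ => p.1.2.2)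
      ((t₀, (q t₀).1, (q t₀).2.1), (0 : ℝ), (0 : ℝ)) :=
    AnalyticAt.fun_comp (g := fun r : ℝ × ℝ => r.2) (f := fun p : (ℝ × ℝ × ℝ) × ℝ × ℝ => p.1.2)
      analyticAt_snd h1s
  have h22 : AnalyticAt ℝ (fun p : (ℝ × ℝ × ℝ) × ℝ × ℝ => p.2.2)
      ((t₀, (q t₀).1, (q t₀).2.1), (0 : ℝ), (0 : ℝ)) :=
    AnalyticAt.fun_comp (g := fun r : ℝ × ℝ => r.2) (f := fun p : (ℝ × ℝ × ℝ) × ℝ × ℝ => p.2)
      analyticAt_snd hsnd
  have hpsa : AnalyticAt ℝ (psX ξ) ((t₀, (q t₀).1, (q t₀).2.1), (0 : ℝ), (0 : ℝ)) :=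
    h11.prod (h12.prod (h13.prod (hξp.add h22)))
  have hFp : AnalyticAt ℝ (fun p => F (psX ξ p))
      ((t₀, (q t₀).1, (q t₀).2.1), (0 : ℝ), (0 : ℝ)) := by
    refine AnalyticAt.fun_comp (g := F) (f := psX ξ) ?_ hpsa
    rw [hps]
    exact h.Fa _ hball
  have hGp : AnalyticAt ℝ (fun p => G (psX ξ p))
      ((t₀, (q t₀).1, (q t₀).2.1), (0 : ℝ), (0 : ℝ)) := by
    refine AnalyticAt.fun_comp (g := G) (f := psX ξ) ?_ hpsa
    rw [hps]
    exact h.Ga _ hball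
  have hBp : AnalyticAt ℝ (fun p => B (psX ξ p))
      ((t₀, (q t₀).1, (q t₀).2.1), (0 : ℝ), (0 : ℝ)) := by
    refine AnalyticAt.fun_comp (g := B) (f := psX ξ) ?_ hpsa
    rw [hps]
    exact h.Ba _ hball
  have hLp : AnalyticAt ℝ (fun p : (ℝ × ℝ × ℝ) × ℝ × ℝ => L p.1)
      ((t₀, (q t₀).1, (q t₀).2.1), (0 : ℝ), (0 : ℝ)) :=
    AnalyticAt.fun_comp (g := L) (f := fun p : (ℝ × ℝ × ℝ) × ℝ × ℝ => p.1) (h.La _ hball') hfst
  have hαa : AnalyticAt ℝ (αX L B F ξ) ((t₀, (q t₀).1, (q t₀).2.1), (0 : ℝ), (0 : ℝ)) := by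
    refine hFp.sub (tdist_apply (D := fun p : (ℝ × ℝ × ℝ) × ℝ × ℝ => fderiv ℝ ξ p.1)
      (v := fun p : (ℝ × ℝ × ℝ) × ℝ × ℝ => ((1 : ℝ), L p.1, B (psX ξ p))) ?_ ?_)
    · exact AnalyticAt.fun_comp (g := fderiv ℝ ξ) (f := fun p : (ℝ × ℝ × ℝ) × ℝ × ℝ => p.1)
        hξ.fderiv hfst
    · exact analyticAt_const.prod (hLp.prod hBp)
  refine ⟨M, a, b, hab, hP, ?_, hmem, ?_, rfl, hαa, hGp⟩
  · refine ⟨hM, h.tr.adm, hw, hw', ?_, fun t _ => hasDerivAt_const t _, continuousOn_const, ?_, ?_⟩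
    · intro t _
      rw [Prod.norm_def, Prod.norm_def]
      simp only [Real.norm_eq_abs, abs_one]
      exact max_le hM (max_le (tdist_Lb h (t, q t)).1 (tdist_Lb h (t, q t)).2.1)
    · intro t ht
      apply ContinuousAt.continuousWithinAt
      exact (hqc t ht).snd.snd.sub ((hP t ht).continuousAt.comp
        (f := fun r => (r, (q r).1, (q r).2.1))
        (continuousAt_id.prodMk ((hqc t ht).fst.prodMk (hqc t ht).snd.fst)))
    · intro s hs t ht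
      have h3 := tdist_X h hab hw hw' hP hs ht
      unfold sF
      rw [h3]
      congr 1
      funext r
      have h4 := psX_q ξ q r
      unfold sF at h4
      simp only [αX, h4]
  · unfold sF
    rw [h2, sub_self]

private theorem tdist_fderivF (h : TS L B F G R M T u q) (z w : ℝ × V3) :
    |fderiv ℝ B z w| ≤ M * ‖w‖ ∧ |fderiv ℝ F z w| ≤ M * ‖w‖ ∧ |fderiv ℝ G z w| ≤ M * ‖w‖ := by
  obtain ⟨hL, hB, hF, hG⟩ := ts_diff h
  have hF1 : HasFDerivAt (FF L B F) (fderiv ℝ (FF L B F) z) z :=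
    ((h.tr.env.Fs.differentiable (by simp)) z).hasFDerivAt
  have hG1 : HasFDerivAt (GG G) (fderiv ℝ (GG G) z) z :=
    ((h.tr.env.Gs.differentiable (by simp)) z).hasFDerivAt
  have hFn : ‖fderiv ℝ (FF L B F) z w‖ ≤ M * ‖w‖ :=
    ((fderiv ℝ (FF L B F) z).le_opNorm w).trans
      (mul_le_mul_of_nonneg_right (h.tr.env.Fd z) (norm_nonneg w))
  have hGn : ‖fderiv ℝ (GG G) z w‖ ≤ M * ‖w‖ :=
    ((fderiv ℝ (GG G) z).le_opNorm w).trans
      (mul_le_mul_of_nonneg_right (h.tr.env.Gd z) (norm_nonneg w))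
  have eB : fderiv ℝ B z w = (fderiv ℝ (FF L B F) z w).2.1 := by
    have h1 : HasFDerivAt B ((ContinuousLinearMap.fst ℝ ℝ ℝ).comp
        ((ContinuousLinearMap.snd ℝ ℝ (ℝ × ℝ)).comp (fderiv ℝ (FF L B F) z))) z := hF1.snd.fst
    rw [h1.fderiv]
    rfl
  have eF : fderiv ℝ F z w = (fderiv ℝ (FF L B F) z w).2.2 := by
    have h1 : HasFDerivAt F ((ContinuousLinearMap.snd ℝ ℝ ℝ).comp
        ((ContinuousLinearMap.snd ℝ ℝ (ℝ × ℝ)).comp (fderiv ℝ (FF L B F) z))) z := hF1.snd.snd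
    rw [h1.fderiv]
    rfl
  have eG : fderiv ℝ G z w = (fderiv ℝ (GG G) z w).2.2 := by
    have h1 : HasFDerivAt G ((ContinuousLinearMap.snd ℝ ℝ ℝ).comp
        ((ContinuousLinearMap.snd ℝ ℝ (ℝ × ℝ)).comp (fderiv ℝ (GG G) z))) z := hG1.snd.snd
    rw [h1.fderiv]
    rfl
  rw [Prod.norm_def, Prod.norm_def] at hFn hGn
  simp only [Real.norm_eq_abs] at hFn hGn
  rw [eB, eF, eG]
  exact ⟨((le_max_left _ _).trans (le_max_right _ _)).trans hFn,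
    ((le_max_right _ _).trans (le_max_right _ _)).trans hFn,
    ((le_max_right _ _).trans (le_max_right _ _)).trans hGn⟩

theorem lq_of (h : TS L B F G R M T u q) (hp : Mul (FF L B F) (GG G) T u q p)
    {W : Type*} [NormedAddCommGroup W] [NormedSpace ℝ W] {a b : ℝ} (hab : Ioo a b ⊆ Ioo 0 T)
    {w : ℝ → W} {Y X : ℝ → ℝ} {g : W × ℝ × ℝ → ℝ}
    (hg : ∀ t ∈ Ioo a b, g (w t, Y t, X t) = G (t, q t)) :
    ∃ K₀ : ℝ, 1 ≤ K₀ ∧
      (∀ t ∈ Icc 0 T, |nn B F G u q p t + p t (0, 1, 0) * px B (t, q t)| ≤ K₀ * |p t (0, 0, 1)| ∧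
        |pπ L B F G u q p t + p t (1, 0, 0) * ly L (t, (q t).1, (q t).2.1)|
          ≤ K₀ * (|p t (0, 1, 0)| + |p t (0, 0, 1)|)) ∧
      ∀ K : ℝ, K₀ ≤ K → Lq K u a b w Y X g (fun t => p t (0, 0, 1)) (nn B F G u q p) := by
  have hM : 1 ≤ M := h.tr.env.hM
  obtain ⟨Kp, hKp1, hKp, hKpl⟩ := cp_lip h hp
  have hab' : ∀ t ∈ Ioo a b, t ∈ Icc 0 T := fun t ht => Ioo_subset_Icc_self (hab ht)
  have e1 : ‖((0, 0, 0, 1) : ℝ × V3)‖ = 1 := by simp [Prod.norm_def]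
  have e2 : ‖((0, 0, 1, 0) : ℝ × V3)‖ = 1 := by simp [Prod.norm_def]
  have hpx : ∀ z : ℝ × V3, |px B z| ≤ M ∧ |px F z| ≤ M ∧ |px G z| ≤ M := by
    intro z
    have h1 := tdist_fderivF h z (0, 0, 0, 1)
    rw [e1, mul_one] at h1
    exact h1
  have hpy : ∀ z : ℝ × V3, |py B z| ≤ M ∧ |py F z| ≤ M ∧ |py G z| ≤ M := by
    intro z
    have h1 := tdist_fderivF h z (0, 0, 1, 0)
    rw [e2, mul_one] at h1
    exact h1
  have hu : ∀ t, |u t| ≤ 1 := h.tr.adm.2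
  have hcomb : ∀ {x y v : ℝ}, |x| ≤ M → |y| ≤ M → |v| ≤ 1 → |x + v * y| ≤ 2 * M := by
    intro x y v hx hy hv
    have h1 : |v * y| ≤ M := by
      rw [abs_mul]
      calc |v| * |y| ≤ 1 * M := mul_le_mul hv hy (abs_nonneg _) zero_le_one
        _ = M := one_mul M
    calc |x + v * y| ≤ |x| + |v * y| := abs_add_le _ _
      _ ≤ 2 * M := by linarith
  have hpx2 : ∀ t, |px F (t, q t) + u t * px G (t, q t)| ≤ 2 * M := fun t =>
    hcomb (hpx _).2.1 (hpx _).2.2 (hu t)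
  have hpy2 : ∀ t, |py F (t, q t) + u t * py G (t, q t)| ≤ 2 * M := fun t =>
    hcomb (hpy _).2.1 (hpy _).2.2 (hu t)
  have hp1 : ∀ t ∈ Icc 0 T, |p t (0, 1, 0)| ≤ Kp ∧ |p t (0, 0, 1)| ≤ Kp := by
    intro t ht
    constructor
    · have h1 := (p t).le_opNorm (0, 1, 0)
      have h2 : ‖((0, 1, 0) : V3)‖ = 1 := by simp [Prod.norm_def]
      rw [h2, mul_one, Real.norm_eq_abs] at h1
      exact h1.trans (hKp t ht)
    · have h1 := (p t).le_opNorm (0, 0, 1)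
      have h2 : ‖((0, 0, 1) : V3)‖ = 1 := by simp [Prod.norm_def]
      rw [h2, mul_one, Real.norm_eq_abs] at h1
      exact h1.trans (hKp t ht)
  have hK2 : 2 * M ≤ 3 * M * Kp := by nlinarith
  refine ⟨3 * M * Kp, by nlinarith, ?_, ?_⟩
  · intro t ht
    constructor
    · have h1 : nn B F G u q p t + p t (0, 1, 0) * px B (t, q t) =
          -(p t (0, 0, 1) * (px F (t, q t) + u t * px G (t, q t))) := by
        unfold nn
        ring
      rw [h1, abs_neg, abs_mul, mul_comm]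
      exact mul_le_mul_of_nonneg_right ((hpx2 t).trans hK2) (abs_nonneg _)
    · have h1 : pπ L B F G u q p t + p t (1, 0, 0) * ly L (t, (q t).1, (q t).2.1) =
          -(p t (0, 1, 0) * py B (t, q t) + p t (0, 0, 1) * (py F (t, q t) + u t * py G (t, q t))) := by
        unfold pπ
        ring
      rw [h1, abs_neg]
      have h2 : |p t (0, 1, 0) * py B (t, q t)| ≤ 3 * M * Kp * |p t (0, 1, 0)| := by
        rw [abs_mul, mul_comm]
        refine mul_le_mul_of_nonneg_right ((hpy _).1.trans ?_) (abs_nonneg _)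
        linarith
      have h3 : |p t (0, 0, 1) * (py F (t, q t) + u t * py G (t, q t))| ≤
          3 * M * Kp * |p t (0, 0, 1)| := by
        rw [abs_mul, mul_comm]
        exact mul_le_mul_of_nonneg_right ((hpy2 t).trans hK2) (abs_nonneg _)
      calc _ ≤ |p t (0, 1, 0) * py B (t, q t)| +
            |p t (0, 0, 1) * (py F (t, q t) + u t * py G (t, q t))| := abs_add_le _ _
        _ ≤ _ := by linarith
  · intro K hK
    refine ⟨?_, ?_, ?_, ?_, ?_⟩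
    · have h1 : ContinuousOn p (Ioo a b) := hp.adj.cont.mono fun t ht => hab' t ht
      exact h1.clm_apply continuousOn_const
    · intro s hs t ht
      exact (cp_x h hp (hab' s hs) (hab' t ht)).1
    · intro t ht
      refine le_trans ?_ hK
      unfold nn
      have h1 : |p t (0, 1, 0) * px B (t, q t)| ≤ Kp * M := by
        rw [abs_mul]
        exact mul_le_mul (hp1 t (hab' t ht)).1 (hpx _).1 (abs_nonneg _) (by linarith)
      have h2 : |p t (0, 0, 1) * (px F (t, q t) + u t * px G (t, q t))| ≤ Kp * (2 * M) := by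
        rw [abs_mul]
        exact mul_le_mul (hp1 t (hab' t ht)).2 (hpx2 t) (abs_nonneg _) (by linarith)
      rw [abs_le] at h1 h2 ⊢
      constructor <;> nlinarith [h1.1, h1.2, h2.1, h2.2]
    · intro s hs t ht
      exact (cp_x h hp (hab' s hs) (hab' t ht)).2
    · filter_upwards [cp_max hp] with t ht hta
      rw [hg t hta]
      exact ht (hab' t hta)

end Pool.Agent.Lib.MP_28b8de_an.TT
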