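import Pool.Agent.Lib.MP_28b8de_an.T.TSolX

/-!
MP_28b8de_an, module PFoe (PTD-PFoe): the first-order expansion of the end point, with a quadratic remainder.

PROOF.  m(t) := p t (r t - r' t): p, r, r' are Lipschitz on [a,b] with a.e. derivatives (`adj_ae`, `sol_ae`), so m is Lipschitz,
m a = 0, and m(b) = ∫_a^b m' with, a.e. (A = dx F (t,q) + u dx G (t,q)),
m' = p [ F(r) - F(r') + v G(r) - w G(r') - A (r - r') ].
F(r) - F(r') - dxF(q)(r - r') has norm ≤ M (‖r - q‖ + ‖r' - q‖) ‖r - r'‖ (mean value inequality for x ↦ F(t,x) - dxF(t,q) x on the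
segment, `Fl`); the same for G (times |w| ≤ 1); v G(r) - w G(r') - u dxG(q)(r - r') = (v - w) G(q) + (v - w)(G(r) - G(q))
+ w (G(r) - G(r') - dxG(q)(r-r')) + (w - u) dxG(q)(r - r').
So |m' - (v - w) p G(q)| ≤ ‖p‖ [ 2M (‖r-q‖ + ‖r'-q‖)‖r-r'‖ + M |v-w| ‖r-q‖ + M |w-u| ‖r-r'‖ ].  By `sol_dist`
‖r - r'‖ ≤ C₁ |v-w|₁, ‖r - q‖ ≤ C₁ |v-u|₁, ‖r' - q‖ ≤ C₁ |w-u|₁; ‖p‖ ≤ exp(2M(b-a)) (`adj_bound`).  Integrate.
-/

set_option linter.unusedSectionVars false

namespace Pool.Agent.Lib.MP_28b8de_an.TT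

open Filter Topology Set MeasureTheory
open Pool.Agent.Lib.MP_28b8de_an.PT (Adm Perf l1 l1_apply gron gron_back volterra kder ae_zero perf_inner
  dense_L1 dense_L1_ball l1_UU l1_eq stay)

variable {V : Type*} [NormedAddCommGroup V] [NormedSpace ℝ V] [FiniteDimensional ℝ V]
  {F G : ℝ × V → V} {M : ℝ}

private theorem TFoe_dx_norm {H : ℝ × V → V} (hd : ∀ z, ‖fderiv ℝ H z‖ ≤ M) (z : ℝ × V) :
    ‖dx H z‖ ≤ M := by
  unfold dx
  refine (ContinuousLinearMap.opNorm_comp_le _ _).trans ?_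
  have h1 : ‖ContinuousLinearMap.inr ℝ ℝ V‖ ≤ 1 := ContinuousLinearMap.norm_inr_le_one ..
  have h0 : 0 ≤ ‖fderiv ℝ H z‖ := norm_nonneg _
  calc ‖fderiv ℝ H z‖ * ‖ContinuousLinearMap.inr ℝ ℝ V‖ ≤ ‖fderiv ℝ H z‖ * 1 :=
        mul_le_mul_of_nonneg_left h1 h0
    _ ≤ M := by rw [mul_one]; exact hd z

private theorem TFoe_dx_sub {H : ℝ × V → V}
    (hl : ∀ z w, ‖fderiv ℝ H z - fderiv ℝ H w‖ ≤ M * ‖z - w‖) (t : ℝ) (x q : V) :
    ‖dx H (t, x) - dx H (t, q)‖ ≤ M * ‖x - q‖ := by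
  unfold dx
  rw [← ContinuousLinearMap.sub_comp]
  refine (ContinuousLinearMap.opNorm_comp_le _ _).trans ?_
  have h1 : ‖ContinuousLinearMap.inr ℝ ℝ V‖ ≤ 1 := ContinuousLinearMap.norm_inr_le_one ..
  have h2 := hl (t, x) (t, q)
  have h3 : ‖((t, x) : ℝ × V) - (t, q)‖ = ‖x - q‖ := by
    rw [Prod.mk_sub_mk, sub_self, Prod.norm_mk, norm_zero]
    exact max_eq_right (norm_nonneg _)
  rw [h3] at h2
  calc ‖fderiv ℝ H (t, x) - fderiv ℝ H (t, q)‖ * ‖ContinuousLinearMap.inr ℝ ℝ V‖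
      ≤ ‖fderiv ℝ H (t, x) - fderiv ℝ H (t, q)‖ * 1 := mul_le_mul_of_nonneg_left h1 (norm_nonneg _)
    _ ≤ M * ‖x - q‖ := by rw [mul_one]; exact h2

private theorem TFoe_mv {H : ℝ × V → V} (hM : 0 ≤ M) (hs : ContDiff ℝ (⊤ : ℕ∞) H)
    (hl : ∀ z w, ‖fderiv ℝ H z - fderiv ℝ H w‖ ≤ M * ‖z - w‖) (t : ℝ) (x y q : V) :
    ‖H (t, x) - H (t, y) - dx H (t, q) (x - y)‖ ≤ M * (‖x - q‖ + ‖y - q‖) * ‖x - y‖ := by
  set ρ : ℝ := ‖x - q‖ + ‖y - q‖ with hρ
  have hdiff : Differentiable ℝ H := hs.differentiable (by simp)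
  have hder : ∀ z ∈ Metric.closedBall q ρ,
      HasFDerivWithinAt (fun z : V => H (t, z)) (dx H (t, z)) (Metric.closedBall q ρ) z := by
    intro z _
    have h1 : HasFDerivAt (fun z : V => ((t, z) : ℝ × V)) (ContinuousLinearMap.inr ℝ ℝ V) z :=
      hasFDerivAt_prodMk_right t z
    exact ((hdiff (t, z)).hasFDerivAt.comp z h1).hasFDerivWithinAt
  have hbd : ∀ z ∈ Metric.closedBall q ρ, ‖dx H (t, z) - dx H (t, q)‖ ≤ M * ρ := by
    intro z hz
    refine (TFoe_dx_sub hl t z q).trans ?_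
    rw [Metric.mem_closedBall, dist_eq_norm] at hz
    exact mul_le_mul_of_nonneg_left hz hM
  have hx : x ∈ Metric.closedBall q ρ := by
    rw [Metric.mem_closedBall, dist_eq_norm]
    linarith [norm_nonneg (y - q)]
  have hy : y ∈ Metric.closedBall q ρ := by
    rw [Metric.mem_closedBall, dist_eq_norm]
    linarith [norm_nonneg (x - q)]
  exact (convex_closedBall q ρ).norm_image_sub_le_of_norm_hasFDerivWithin_le' hder hbd hy hx

private theorem TFoe_split (E : Env F G M) (t u v w : ℝ) (hw : |w| ≤ 1) (r r' q : V) :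
    ‖(F (t, r) + v • G (t, r)) - (F (t, r') + w • G (t, r'))
        - (dx F (t, q) + u • dx G (t, q)) (r - r') - (v - w) • G (t, q)‖
      ≤ 2 * M * (‖r - q‖ + ‖r' - q‖) * ‖r - r'‖ + M * |v - w| * ‖r - q‖ + M * |w - u| * ‖r - r'‖ := by
  have hM : 0 ≤ M := by linarith [E.hM]
  have e : (F (t, r) + v • G (t, r)) - (F (t, r') + w • G (t, r'))
        - (dx F (t, q) + u • dx G (t, q)) (r - r') - (v - w) • G (t, q)
      = (F (t, r) - F (t, r') - dx F (t, q) (r - r'))
        + w • (G (t, r) - G (t, r') - dx G (t, q) (r - r'))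
        + (v - w) • (G (t, r) - G (t, q)) + (w - u) • dx G (t, q) (r - r') := by
    rw [add_apply, smul_apply]
    module
  rw [e]
  have h1 := TFoe_mv hM E.Fs E.Fl t r r' q
  have h2 := TFoe_mv hM E.Gs E.Gl t r r' q
  have h3 : ‖G (t, r) - G (t, q)‖ ≤ M * ‖r - q‖ := by
    have h := env_lipG E (t, r) (t, q)
    have h4 : ‖((t, r) : ℝ × V) - (t, q)‖ = ‖r - q‖ := by
      rw [Prod.mk_sub_mk, sub_self, Prod.norm_mk, norm_zero]
      exact max_eq_right (norm_nonneg _)
    rwa [h4] at h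
  have h5 : ‖dx G (t, q) (r - r')‖ ≤ M * ‖r - r'‖ :=
    ((dx G (t, q)).le_opNorm _).trans (mul_le_mul_of_nonneg_right (TFoe_dx_norm E.Gd _) (norm_nonneg _))
  have a2 : ‖w • (G (t, r) - G (t, r') - dx G (t, q) (r - r'))‖ ≤ M * (‖r - q‖ + ‖r' - q‖) * ‖r - r'‖ := by
    rw [norm_smul, Real.norm_eq_abs]
    calc |w| * ‖G (t, r) - G (t, r') - dx G (t, q) (r - r')‖
        ≤ 1 * ‖G (t, r) - G (t, r') - dx G (t, q) (r - r')‖ := mul_le_mul_of_nonneg_right hw (norm_nonneg _)
      _ ≤ _ := by rw [one_mul]; exact h2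
  have a3 : ‖(v - w) • (G (t, r) - G (t, q))‖ ≤ M * |v - w| * ‖r - q‖ := by
    rw [norm_smul, Real.norm_eq_abs]
    calc |v - w| * ‖G (t, r) - G (t, q)‖ ≤ |v - w| * (M * ‖r - q‖) := mul_le_mul_of_nonneg_left h3 (abs_nonneg _)
      _ = M * |v - w| * ‖r - q‖ := by ring
  have a4 : ‖(w - u) • dx G (t, q) (r - r')‖ ≤ M * |w - u| * ‖r - r'‖ := by
    rw [norm_smul, Real.norm_eq_abs]
    calc |w - u| * ‖dx G (t, q) (r - r')‖ ≤ |w - u| * (M * ‖r - r'‖) := mul_le_mul_of_nonneg_left h5 (abs_nonneg _)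
      _ = M * |w - u| * ‖r - r'‖ := by ring
  refine (norm_add_le _ _).trans ?_
  have b1 := norm_add_le ((F (t, r) - F (t, r') - dx F (t, q) (r - r'))
        + w • (G (t, r) - G (t, r') - dx G (t, q) (r - r'))) ((v - w) • (G (t, r) - G (t, q)))
  have b2 := norm_add_le (F (t, r) - F (t, r') - dx F (t, q) (r - r'))
        (w • (G (t, r) - G (t, r') - dx G (t, q) (r - r')))
  linarith

private theorem TFoe_ii {v w : ℝ → ℝ} (hv : Adm v) (hw : Adm w) (a b : ℝ) :
    IntervalIntegrable (fun s => v s - w s) volume a b := by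
  have h1 : IntervalIntegrable (fun _ : ℝ => (2 : ℝ)) volume a b := intervalIntegrable_const
  refine h1.mono_fun (hv.1.sub hw.1).aestronglyMeasurable (Eventually.of_forall fun s => ?_)
  show ‖v s - w s‖ ≤ ‖(2 : ℝ)‖
  rw [Real.norm_eq_abs, Real.norm_eq_abs, abs_of_pos (by norm_num : (0 : ℝ) < 2)]
  have := abs_sub (v s) (w s)
  linarith [hv.2 s, hw.2 s]

theorem foe (E : Env F G M) {a b : ℝ} (hab : a ≤ b) :
    ∃ C : ℝ, 0 ≤ C ∧ ∀ (u v w : ℝ → ℝ) (q r r' : ℝ → V) (p : ℝ → V →L[ℝ] ℝ),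
      Adm u → Adm v → Adm w → Sol F G u q a b → Sol F G v r a b → Sol F G w r' a b →
      r a = q a → r' a = q a → Adj F G u q p a b → ‖p b‖ ≤ 1 →
      |p b (r b - r' b) - ∫ s in a..b, (v s - w s) * p s (G (s, q s))|
        ≤ C * ((∫ s in a..b, |v s - u s|) + ∫ s in a..b, |w s - u s|)
          * ∫ s in a..b, |v s - w s| := by
  have hM : 0 ≤ M := by linarith [E.hM]
  set P : ℝ := Real.exp (2 * M * (b - a)) with hP
  have hP0 : 0 < P := Real.exp_pos _
  set D : ℝ := M * P with hD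
  have hD0 : 0 ≤ D := mul_nonneg hM hP0.le
  have hba : 0 ≤ b - a := sub_nonneg.2 hab
  refine ⟨P * (2 * M * D * D * (b - a) + M * D), by positivity, ?_⟩
  intro u v w q r r' p hu hv hw hq hr hr' hra hra' hp hpb
  set I1 : ℝ := ∫ s in a..b, |v s - u s| with hI1
  set I2 : ℝ := ∫ s in a..b, |w s - u s| with hI2
  set I3 : ℝ := ∫ s in a..b, |v s - w s| with hI3
  have hI1' : 0 ≤ I1 := intervalIntegral.integral_nonneg hab fun s _ => abs_nonneg _
  have hI2' : 0 ≤ I2 := intervalIntegral.integral_nonneg hab fun s _ => abs_nonneg _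
  have hI3' : 0 ≤ I3 := intervalIntegral.integral_nonneg hab fun s _ => abs_nonneg _
  -- bounds
  have bp : ∀ t ∈ Icc a b, ‖p t‖ ≤ P := by
    intro t ht
    refine (adj_bound E hu hq hp t ht).trans ?_
    calc ‖p b‖ * P ≤ 1 * P := mul_le_mul_of_nonneg_right hpb hP0.le
      _ = P := one_mul _
  have bd3 : ∀ t ∈ Icc a b, ‖r t - r' t‖ ≤ D * I3 := by
    intro t ht
    have h := sol_dist E hv hw hr hr' t ht
    rw [hra, hra', sub_self, norm_zero, zero_add] at h
    calc ‖r t - r' t‖ ≤ M * I3 * P := h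
      _ = D * I3 := by rw [hD]; ring
  have bd1 : ∀ t ∈ Icc a b, ‖r t - q t‖ ≤ D * I1 := by
    intro t ht
    have h := sol_dist E hv hu hr hq t ht
    rw [hra, sub_self, norm_zero, zero_add] at h
    calc ‖r t - q t‖ ≤ M * I1 * P := h
      _ = D * I1 := by rw [hD]; ring
  have bd2 : ∀ t ∈ Icc a b, ‖r' t - q t‖ ≤ D * I2 := by
    intro t ht
    have h := sol_dist E hw hu hr' hq t ht
    rw [hra', sub_self, norm_zero, zero_add] at h
    calc ‖r' t - q t‖ ≤ M * I2 * P := h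
      _ = D * I2 := by rw [hD]; ring
  -- the function m
  set m : ℝ → ℝ := fun t => p t (r t - r' t) with hm
  obtain ⟨K, hK⟩ := adj_lip E hu hq hp
  have hmlip : ∃ L : NNReal, LipschitzOnWith L m (Icc a b) := by
    refine ⟨Real.toNNReal ((K : ℝ) * (D * I3) + P * (4 * M)), LipschitzOnWith.of_dist_le_mul ?_⟩
    intro s hs t ht
    rw [Real.coe_toNNReal _ (by positivity), dist_eq_norm, Real.dist_eq]
    have e : m s - m t = (p s - p t) (r s - r' s) + p t ((r s - r t) - (r' s - r' t)) := by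
      simp only [hm, sub_apply, map_sub]
      ring
    rw [e]
    have h1 : ‖p s - p t‖ ≤ K * |s - t| := by
      have h := hK.dist_le_mul s hs t ht
      rwa [dist_eq_norm, Real.dist_eq] at h
    have h2 : ‖(p s - p t) (r s - r' s)‖ ≤ K * |s - t| * (D * I3) :=
      ((p s - p t).le_opNorm _).trans (mul_le_mul h1 (bd3 s hs) (norm_nonneg _) (by positivity))
    have h3 : ‖(r s - r t) - (r' s - r' t)‖ ≤ 4 * M * |s - t| := by
      have h4 := sol_lip E hv hr ht hs
      have h5 := sol_lip E hw hr' ht hs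
      have h6 := norm_sub_le (r s - r t) (r' s - r' t)
      linarith
    have h7 : ‖p t ((r s - r t) - (r' s - r' t))‖ ≤ P * (4 * M * |s - t|) :=
      ((p t).le_opNorm _).trans (mul_le_mul (bp t ht) h3 (norm_nonneg _) hP0.le)
    calc ‖(p s - p t) (r s - r' s) + p t ((r s - r t) - (r' s - r' t))‖
        ≤ K * |s - t| * (D * I3) + P * (4 * M * |s - t|) := (norm_add_le _ _).trans (add_le_add h2 h7)
      _ = (K * (D * I3) + P * (4 * M)) * |s - t| := by ring
  obtain ⟨L, hL⟩ := hmlip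
  have hac : AbsolutelyContinuousOnInterval m a b := by
    apply LipschitzOnWith.absolutelyContinuousOnInterval (K := L)
    rwa [uIcc_of_le hab]
  have hmint : IntervalIntegrable (deriv m) volume a b := hac.intervalIntegrable_deriv
  have hmFTC : ∫ s in a..b, deriv m s = m b - m a := hac.integral_deriv_eq_sub
  have hma : m a = 0 := by
    simp only [hm]
    rw [hra, hra', sub_self, map_zero]
  -- the other integrand
  have hcont : ContinuousOn (fun s => p s (G (s, q s))) (uIcc a b) := by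
    rw [uIcc_of_le hab]
    have hG : ContinuousOn (fun s => G (s, q s)) (Icc a b) :=
      E.Gs.continuous.comp_continuousOn (continuousOn_id.prodMk hq.cont)
    exact hp.cont.clm_apply hG
  have hgint : IntervalIntegrable (fun s => (v s - w s) * p s (G (s, q s))) volume a b :=
    (TFoe_ii hv hw a b).mul_continuousOn hcont
  have hB : IntervalIntegrable (fun s => P * (2 * M * (D * I1 + D * I2) * (D * I3))
      + (P * M * (D * I1)) * |v s - w s| + (P * M * (D * I3)) * |w s - u s|) volume a b := by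
    refine (intervalIntegrable_const.add ((TFoe_ii hv hw a b).abs.const_mul _)).add
      ((TFoe_ii hw hu a b).abs.const_mul _)
  have hae : ∀ᵐ s : ℝ, s ∈ Ioc a b → ‖deriv m s - (v s - w s) * p s (G (s, q s))‖ ≤
      P * (2 * M * (D * I1 + D * I2) * (D * I3))
      + (P * M * (D * I1)) * |v s - w s| + (P * M * (D * I3)) * |w s - u s| := by
    have hne : ∀ᵐ s : ℝ, s ≠ b := by simp [ae_iff, measure_singleton]
    filter_upwards [sol_ae E hv hr, sol_ae E hw hr', adj_ae E hu hq hp, hne] with s h1 h2 h3 h4 hs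
    have hs' : s ∈ Ioo a b := ⟨hs.1, lt_of_le_of_ne hs.2 h4⟩
    have hsI : s ∈ Icc a b := Ioc_subset_Icc_self hs
    have hx : HasDerivAt (fun t => r t - r' t)
        ((F (s, r s) + v s • G (s, r s)) - (F (s, r' s) + w s • G (s, r' s))) s := (h1 hs').sub (h2 hs')
    have hmd := (h3 hs').clm_apply hx
    have hd : deriv m s = (- (p s).comp (Aop F G u q s)) (r s - r' s)
        + p s ((F (s, r s) + v s • G (s, r s)) - (F (s, r' s) + w s • G (s, r' s))) := hmd.deriv
    have e : deriv m s - (v s - w s) * p s (G (s, q s))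
        = p s ((F (s, r s) + v s • G (s, r s)) - (F (s, r' s) + w s • G (s, r' s))
        - (dx F (s, q s) + u s • dx G (s, q s)) (r s - r' s) - (v s - w s) • G (s, q s)) := by
      rw [hd, map_sub (p s) _ ((v s - w s) • G (s, q s)), map_smul, smul_eq_mul,
        map_sub (p s) _ ((dx F (s, q s) + u s • dx G (s, q s)) (r s - r' s)),
        neg_apply, ContinuousLinearMap.comp_apply]
      unfold Aop
      ring
    rw [e]
    have h5 := TFoe_split E s (u s) (v s) (w s) (hw.2 s) (r s) (r' s) (q s)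
    refine ((p s).le_opNorm _).trans ?_
    have n3 := bd3 s hsI
    have n1 := bd1 s hsI
    have n2 := bd2 s hsI
    have h6 : 2 * M * (‖r s - q s‖ + ‖r' s - q s‖) * ‖r s - r' s‖ + M * |v s - w s| * ‖r s - q s‖
        + M * |w s - u s| * ‖r s - r' s‖
        ≤ 2 * M * (D * I1 + D * I2) * (D * I3) + M * |v s - w s| * (D * I1) + M * |w s - u s| * (D * I3) := by
      gcongr
    calc ‖p s‖ * ‖_‖ ≤ P * (2 * M * (D * I1 + D * I2) * (D * I3) + M * |v s - w s| * (D * I1)
          + M * |w s - u s| * (D * I3)) :=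
          mul_le_mul (bp s hsI) (h5.trans h6) (norm_nonneg _) hP0.le
      _ = _ := by ring
  have hmain : |m b - ∫ s in a..b, (v s - w s) * p s (G (s, q s))| ≤
      ∫ s in a..b, (P * (2 * M * (D * I1 + D * I2) * (D * I3))
      + (P * M * (D * I1)) * |v s - w s| + (P * M * (D * I3)) * |w s - u s|) := by
    have e : m b - ∫ s in a..b, (v s - w s) * p s (G (s, q s))
        = ∫ s in a..b, (deriv m s - (v s - w s) * p s (G (s, q s))) := by
      rw [intervalIntegral.integral_sub hmint hgint, hmFTC, hma, sub_zero]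
    rw [e, ← Real.norm_eq_abs]
    exact intervalIntegral.norm_integral_le_of_norm_le hab hae hB
  have hval : ∫ s in a..b, (P * (2 * M * (D * I1 + D * I2) * (D * I3))
      + (P * M * (D * I1)) * |v s - w s| + (P * M * (D * I3)) * |w s - u s|)
      = P * (2 * M * (D * I1 + D * I2) * (D * I3)) * (b - a) + (P * M * (D * I1)) * I3
        + (P * M * (D * I3)) * I2 := by
    rw [intervalIntegral.integral_add (intervalIntegrable_const.add ((TFoe_ii hv hw a b).abs.const_mul _))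
      ((TFoe_ii hw hu a b).abs.const_mul _),
      intervalIntegral.integral_add intervalIntegrable_const ((TFoe_ii hv hw a b).abs.const_mul _),
      intervalIntegral.integral_const, intervalIntegral.integral_const_mul, intervalIntegral.integral_const_mul]
    simp only [smul_eq_mul]
    rw [← hI3, ← hI2]
    ring
  rw [hval] at hmain
  refine hmain.trans (le_of_eq ?_)
  ring

end Pool.Agent.Lib.MP_28b8de_an.TT
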