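import Pool.Agent.Lib.MP_28b8de_an.T.TGTwoDefs

/-!
MP_28b8de_an, module TGTwoA.

First estimates of gap lemma 2: ∫|X|^(m₁+1) ≤ C ∫|Y|, and |p(t)| ≤ C ∫ (|Y|^(m₂-1) + |ϕ|).
PROOFS.  Constants C depend on K, c, m₁, m₂.  |X| ≤ 2Kδ (rl_Xb); |Y| ≤ 1 (field Yb), so |DB|, |DL| ≤ C, Y is Lipschitz with constant C, Y(s) = 0, so |Y| ≤ C δ.
two_X: ∫_s^{s'} (X Y)' = 0: (X Y)' = g (u-v) Y + X (DB - η' DL), X DB = c₁ X^(m₁+1) + O(|X|^(m₁+2) + |X||Y|), |DL| ≤ C|Y|^m₂ ≤ C |Y|; m₁ + 1 is even, c₁ has constant sign: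
c ∫|X|^(m₁+1) ≤ |∫ c₁ X^(m₁+1)| ≤ C ∫|Y| + C sup|X| ∫|X|^(m₁+1); absorb for small δ.
two_p: |p(t)| ≤ ∫_s^t |π| ≤ ∫_s^t (|P l| + K|p| + K|ϕ|), |l| ≤ C |Y|^(m₂-1) (|Y| ≤ 1); gron.
two_Yp: ∫|Y||p| ≤ sup|p| ∫|Y| ≤ C (∫|Y|^(m₂-1) ∫|Y| + ∫|ϕ| ∫|Y|), and ∫|Y|^(m₂-1) ∫|Y| ≤ 2 δ ∫|Y|^m₂ since a^(m₂-1) b ≤ a^m₂ + b^m₂ for a, b ≥ 0 (integrate over [s,s']²), ∫|Y| ≤ C δ².
two_Xp: ∫|X|^(m₁+1)|p| ≤ sup|p| C ∫|Y|, same bound.
-/

set_option linter.unusedSectionVars false

namespace Pool.Agent.Lib.MP_28b8de_an.TT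

open Filter Topology Set MeasureTheory
open Pool.Agent.Lib.MP_28b8de_an.PT (Adm Perf gron gron_back volterra kder ae_zero perf_inner stay)

private theorem twoA_prim_mul {x y X Y : ℝ → ℝ} {s s' : ℝ} (hs : s ≤ s')
    (hx : IntervalIntegrable x volume s s') (hy : IntervalIntegrable y volume s s')
    (hX : ∀ t ∈ Icc s s', X t = ∫ r in s..t, x r) (hY : ∀ t ∈ Icc s s', Y t = ∫ r in s..t, y r) :
    ∫ r in s..s', (x r * Y r + X r * y r) = X s' * Y s' := by
  have h1 := hx.absolutelyContinuousOnInterval_intervalIntegral (c := s) (by simp)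
  have h2 := hy.absolutelyContinuousOnInterval_intervalIntegral (c := s) (by simp)
  have h3 := h1.integral_deriv_mul_eq_sub h2
  have hs' : s' ∈ Icc s s' := right_mem_Icc.2 hs
  rw [hX s' hs', hY s' hs']
  simp only [intervalIntegral.integral_same, mul_zero, sub_zero] at h3
  rw [← h3]
  refine intervalIntegral.integral_congr_ae ?_
  filter_upwards [hx.ae_hasDerivAt_integral, hy.ae_hasDerivAt_integral] with t ht1 ht2 ht
  have ht' : t ∈ uIcc s s' := uIoc_subset_uIcc ht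
  have ht'' : t ∈ Icc s s' := by rwa [uIcc_of_le hs] at ht'
  have e1 := (ht1 ht' s (by simp)).deriv
  have e2 := (ht2 ht' s (by simp)).deriv
  rw [e1, e2, hX t ht'', hY t ht'']

private theorem twoA_prim_cont {f F : ℝ → ℝ} {s s' : ℝ} (hs : s ≤ s')
    (hf : IntervalIntegrable f volume s s') (hF : ∀ t ∈ Icc s s', F t = ∫ r in s..t, f r) :
    ContinuousOn F (Icc s s') := by
  have h1 := intervalIntegral.continuousOn_primitive_interval (μ := volume) (f := f) (a := s) (b := s')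
    (by rw [uIcc_of_le hs, integrableOn_Icc_iff_integrableOn_Ioc]
        exact (intervalIntegrable_iff_integrableOn_Ioc_of_le hs).1 hf)
  rw [uIcc_of_le hs] at h1
  exact h1.congr hF

private theorem twoA_prim_meas (f : ℝ → ℝ) (s s' : ℝ) :
    AEStronglyMeasurable (fun t => ∫ r in s..t, f r) (volume.restrict (Icc s s')) := by
  set T : Set ℝ := {t | t ∈ Icc s s' ∧ IntervalIntegrable f volume s t} with hT
  have hmono : ∀ t ∈ T, ∀ r ∈ Icc s t, r ∈ T := by
    intro t ht r hr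
    refine ⟨⟨hr.1, hr.2.trans ht.1.2⟩, ht.2.mono_set ?_⟩
    rw [uIcc_of_le hr.1, uIcc_of_le ht.1.1]
    exact Icc_subset_Icc_right hr.2
  have hord : T.OrdConnected := by
    refine ⟨fun a ha b hb r hr => hmono b hb r ⟨ha.1.1.trans hr.1, hr.2⟩⟩
  have hTm : MeasurableSet T := hord.measurableSet
  have hcont : ContinuousOn (fun t => ∫ r in s..t, f r) T := by
    have hc : ∀ t ∈ T, ContinuousOn (fun t => ∫ r in s..t, f r) (Icc s t) := fun t ht =>
      twoA_prim_cont ht.1.1 ht.2 (fun _ _ => rfl)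
    intro t ht
    by_cases hm : ∃ t2 ∈ T, t < t2
    · obtain ⟨t2, ht2, hlt⟩ := hm
      refine (hc t2 ht2 t ⟨ht.1.1, hlt.le⟩).mono_of_mem_nhdsWithin ?_
      filter_upwards [self_mem_nhdsWithin, mem_nhdsWithin_of_mem_nhds (Iio_mem_nhds hlt)] with r hr hr2
      exact ⟨hr.1.1, le_of_lt hr2⟩
    · push Not at hm
      exact (hc t ht t ⟨ht.1.1, le_rfl⟩).mono (fun r hr => ⟨hr.1.1, hm r hr⟩)
  have hsplit : Icc s s' = T ∪ (Icc s s' \ T) := by
    rw [union_sdiff_cancel]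
    exact fun t ht => ht.1
  rw [hsplit, aestronglyMeasurable_union_iff]
  refine ⟨hcont.aestronglyMeasurable hTm, ?_⟩
  refine AEStronglyMeasurable.congr (f := fun _ => (0 : ℝ)) aestronglyMeasurable_const ?_
  filter_upwards [ae_restrict_mem (measurableSet_Icc.diff hTm)] with t ht
  rw [intervalIntegral.integral_undef]
  intro h
  exact ht.2 ⟨ht.1, h⟩

private theorem twoA_sign {f : ℝ → ℝ} {s s' c : ℝ} (hf : ContinuousOn f (Icc s s')) (hc : 0 < c)
    (h : ∀ t ∈ Icc s s', c ≤ |f t|) :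
    ∃ e : ℝ, (e = 1 ∨ e = -1) ∧ ∀ t ∈ Icc s s', c ≤ e * f t := by
  by_cases hp : ∃ t0 ∈ Icc s s', 0 ≤ f t0
  · obtain ⟨t0, ht0, h0⟩ := hp
    refine ⟨1, Or.inl rfl, fun t ht => ?_⟩
    rw [one_mul]
    by_contra hlt
    push Not at hlt
    have h1 := h t ht
    have hneg : f t < 0 := by
      by_contra hn
      push Not at hn
      rw [abs_of_nonneg hn] at h1
      linarith
    have hconn : (Icc s s').OrdConnected := ordConnected_Icc
    have hsub : uIcc t t0 ⊆ Icc s s' := hconn.uIcc_subset ht ht0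
    have hiv := intermediate_value_uIcc (hf.mono hsub)
    have hz : (0 : ℝ) ∈ uIcc (f t) (f t0) := by
      rw [uIcc_of_le (hneg.le.trans h0)]
      exact ⟨hneg.le, h0⟩
    obtain ⟨r, hr, hr0⟩ := hiv hz
    have h2 := h r (hsub hr)
    rw [hr0, abs_zero] at h2
    linarith
  · push Not at hp
    refine ⟨-1, Or.inr rfl, fun t ht => ?_⟩
    have h1 := h t ht
    rw [abs_of_neg (hp t ht)] at h1
    linarith

section facts

variable {K c : ℝ} {m₁ m₂ : ℕ} {s s' : ℝ} {X ϕ u g v n Y p P DB DL b l c₁ c₂ ψB ψL η' π : ℝ → ℝ}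

private theorem twoA_ucc (h : G2 K c m₁ m₂ s s' X ϕ u g v n Y p P DB DL b l c₁ c₂ ψB ψL η' π) :
    ContinuousOn g (Icc s s') ∧ ContinuousOn v (Icc s s') := by
  have hK : 0 ≤ K := by linarith [h.rl.hK]
  constructor
  · have : LipschitzOnWith ⟨K, hK⟩ g (Icc s s') :=
      LipschitzOnWith.of_dist_le_mul (fun x hx y hy => by
        rw [Real.dist_eq, Real.dist_eq]; exact h.rl.gl x hx y hy)
    exact this.continuousOn
  · have : LipschitzOnWith ⟨K, hK⟩ v (Icc s s') :=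
      LipschitzOnWith.of_dist_le_mul (fun x hx y hy => by
        rw [Real.dist_eq, Real.dist_eq]; exact h.rl.vl x hx y hy)
    exact this.continuousOn

private theorem twoA_Pc (h : G2 K c m₁ m₂ s s' X ϕ u g v n Y p P DB DL b l c₁ c₂ ψB ψL η' π) :
    ContinuousOn P (Icc s s') := by
  have hK : 0 ≤ K := by linarith [h.rl.hK]
  have : LipschitzOnWith ⟨K, hK⟩ P (Icc s s') :=
    LipschitzOnWith.of_dist_le_mul (fun x hx y hy => by
      rw [Real.dist_eq, Real.dist_eq]; exact h.Pl x hx y hy)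
  exact this.continuousOn

private theorem twoA_ui (h : G2 K c m₁ m₂ s s' X ϕ u g v n Y p P DB DL b l c₁ c₂ ψB ψL η' π) :
    IntervalIntegrable u volume s s' := by
  rw [intervalIntegrable_iff_integrableOn_Ioc_of_le h.rl.hs.le]
  refine Measure.integrableOn_of_bounded (M := 1) (by simp) h.rl.adm.1.aestronglyMeasurable ?_
  exact Filter.Eventually.of_forall (fun t => by rw [Real.norm_eq_abs]; exact h.rl.adm.2 t)

private theorem twoA_gi (h : G2 K c m₁ m₂ s s' X ϕ u g v n Y p P DB DL b l c₁ c₂ ψB ψL η' π) :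
    IntervalIntegrable (fun r => g r * (u r - v r)) volume s s' := by
  obtain ⟨hg, hv⟩ := twoA_ucc h
  have hs := h.rl.hs.le
  rw [← uIcc_of_le hs] at hg hv
  exact ((twoA_ui h).sub hv.intervalIntegrable).continuousOn_mul hg

private theorem twoA_gb (h : G2 K c m₁ m₂ s s' X ϕ u g v n Y p P DB DL b l c₁ c₂ ψB ψL η' π) :
    ∀ t ∈ Icc s s', |g t * (u t - v t)| ≤ 2 * K := by
  intro t ht
  have hK : 0 ≤ K := by linarith [h.rl.hK]
  rw [abs_mul]
  have h1 := h.rl.g1 t ht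
  have h2 : |u t - v t| ≤ 2 := by
    have h3 := h.rl.adm.2 t
    have h4 := h.rl.v1 t ht
    have h5 := h.rl.hc
    have h6 := abs_sub (u t) (v t)
    linarith
  calc |g t| * |u t - v t| ≤ K * 2 := mul_le_mul h1 h2 (abs_nonneg _) hK
    _ = 2 * K := by ring

private theorem twoA_DLb (h : G2 K c m₁ m₂ s s' X ϕ u g v n Y p P DB DL b l c₁ c₂ ψB ψL η' π) :
    ∀ t ∈ Icc s s', |DL t| ≤ 2 * K * |Y t| ^ m₂ := by
  intro t ht
  have hK : 0 ≤ K := by linarith [h.rl.hK]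
  have h1 := h.DLb t ht
  have h2 := h.c₂1 t ht
  have h3 := h.Yb t ht
  have h4 : |Y t| ^ (m₂ + 1) ≤ |Y t| ^ m₂ := pow_le_pow_of_le_one (abs_nonneg _) h3 (Nat.le_succ _)
  have h5 : |c₂ t * Y t ^ m₂| ≤ K * |Y t| ^ m₂ := by
    rw [abs_mul, abs_pow]
    exact mul_le_mul_of_nonneg_right h2 (by positivity)
  have h6 : |DL t| ≤ |DL t - c₂ t * Y t ^ m₂| + |c₂ t * Y t ^ m₂| := by
    have := abs_add_le (DL t - c₂ t * Y t ^ m₂) (c₂ t * Y t ^ m₂)
    simpa using this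
  have h7 : K * |Y t| ^ (m₂ + 1) ≤ K * |Y t| ^ m₂ := mul_le_mul_of_nonneg_left h4 hK
  linarith

private theorem twoA_Xb (h : G2 K c m₁ m₂ s s' X ϕ u g v n Y p P DB DL b l c₁ c₂ ψB ψL η' π) :
    ∀ t ∈ Icc s s', |X t| ≤ 2 * K * (s' - s) ∧ |X t| ≤ 2 * K := by
  intro t ht
  have hK : 0 ≤ K := by linarith [h.rl.hK]
  have h1 := rl_Xb h.rl t ht
  have h2 := h.rl.hs1
  constructor
  · exact h1.trans (mul_le_mul_of_nonneg_left (by linarith [ht.2]) (by positivity))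
  · exact h1.trans ((mul_le_mul_of_nonneg_left (by linarith [ht.2] : t - s ≤ 1) (by positivity)).trans
      (by linarith))

private theorem twoA_DBb (h : G2 K c m₁ m₂ s s' X ϕ u g v n Y p P DB DL b l c₁ c₂ ψB ψL η' π) :
    ∀ t ∈ Icc s s', |DB t| ≤ 3 * K ^ 2 * (|X t| ^ m₁ + |Y t|) := by
  intro t ht
  have hK1 := h.rl.hK
  have hK : 0 ≤ K := by linarith
  have h1 := h.DBb t ht
  have h2 := h.c₁1 t ht
  have h3 := (twoA_Xb h t ht).2
  have h4 : |X t| ^ (m₁ + 1) ≤ 2 * K * |X t| ^ m₁ := by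
    rw [pow_succ, mul_comm]
    exact mul_le_mul_of_nonneg_right h3 (by positivity)
  have h5 : |c₁ t * X t ^ m₁| ≤ K * |X t| ^ m₁ := by
    rw [abs_mul, abs_pow]
    exact mul_le_mul_of_nonneg_right h2 (by positivity)
  have h6 : |DB t| ≤ |DB t - c₁ t * X t ^ m₁| + |c₁ t * X t ^ m₁| := by
    have := abs_add_le (DB t - c₁ t * X t ^ m₁) (c₁ t * X t ^ m₁)
    simpa using this
  have h7 : K * (|X t| ^ (m₁ + 1) + |Y t|) ≤ K * (2 * K * |X t| ^ m₁ + |Y t|) :=
    mul_le_mul_of_nonneg_left (by linarith) hK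
  have h8 : 0 ≤ |X t| ^ m₁ := by positivity
  have h9 : K ≤ K ^ 2 := by nlinarith
  have h10 : 0 ≤ |Y t| := abs_nonneg _
  have h11 : K * |X t| ^ m₁ ≤ K ^ 2 * |X t| ^ m₁ := mul_le_mul_of_nonneg_right h9 h8
  have h12 : K * |Y t| ≤ K ^ 2 * |Y t| := mul_le_mul_of_nonneg_right h9 h10
  have h13 : 0 ≤ K ^ 2 * |Y t| := by positivity
  nlinarith

private theorem twoA_cont (h : G2 K c m₁ m₂ s s' X ϕ u g v n Y p P DB DL b l c₁ c₂ ψB ψL η' π) :
    ContinuousOn Y (Icc s s') ∧ ContinuousOn DB (Icc s s') ∧ ContinuousOn DL (Icc s s') := by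
  have hs := h.rl.hs.le
  have hK : 0 ≤ K := by linarith [h.rl.hK]
  have huI : uIcc s s' = Icc s s' := uIcc_of_le hs
  have hDB : ContinuousOn DB (Icc s s') := by
    refine twoA_prim_cont hs ?_ h.DBeq
    exact ((twoA_gi h).continuousOn_mul (by rw [huI]; exact h.bc)).add h.ψBi
  have hDLm : AEStronglyMeasurable DL (volume.restrict (Icc s s')) := by
    refine (twoA_prim_meas (fun r => l r * (DB r - η' r * DL r) + ψL r) s s').congr ?_
    filter_upwards [ae_restrict_mem measurableSet_Icc] with t ht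
    exact (h.DLeq t ht).symm
  have hDLi : IntervalIntegrable DL volume s s' := by
    rw [intervalIntegrable_iff_integrableOn_Ioc_of_le hs, ← integrableOn_Icc_iff_integrableOn_Ioc]
    refine Integrable.of_bound hDLm (2 * K) ?_
    · filter_upwards [ae_restrict_mem measurableSet_Icc] with t ht
      rw [Real.norm_eq_abs]
      refine (twoA_DLb h t ht).trans ?_
      have h3 := h.Yb t ht
      have h4 : |Y t| ^ m₂ ≤ 1 := pow_le_one₀ (abs_nonneg _) h3
      nlinarith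
  have hηDL : IntervalIntegrable (fun r => DB r - η' r * DL r) volume s s' := by
    refine IntervalIntegrable.sub (ContinuousOn.intervalIntegrable (by rw [huI]; exact hDB)) ?_
    exact hDLi.continuousOn_mul (by rw [huI]; exact h.ηc)
  have hDL : ContinuousOn DL (Icc s s') := by
    refine twoA_prim_cont hs ?_ h.DLeq
    exact (hηDL.continuousOn_mul (by rw [huI]; exact h.lc)).add h.ψLi
  exact ⟨twoA_prim_cont hs hηDL h.Yeq, hDB, hDL⟩

end facts

theorem two_small {K c : ℝ} (hK : 1 ≤ K) (hc : 0 < c) (m₁ m₂ : ℕ) :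
    ∃ C δ : ℝ, 1 ≤ C ∧ 0 < δ ∧ ∀ (s s' : ℝ) (X ϕ u g v n Y p P DB DL b l c₁ c₂ ψB ψL η' π : ℝ → ℝ),
      s' - s ≤ δ → G2 K c m₁ m₂ s s' X ϕ u g v n Y p P DB DL b l c₁ c₂ ψB ψL η' π →
      ContinuousOn Y (Icc s s') ∧ ContinuousOn DB (Icc s s') ∧ ContinuousOn DL (Icc s s') ∧
      (∀ t ∈ Icc s s', |X t| ≤ C * (s' - s)) ∧ (∀ t ∈ Icc s s', |Y t| ≤ C * (s' - s)) ∧
      (∀ t ∈ Icc s s', |DB t| ≤ C * (|X t| ^ m₁ + |Y t|)) ∧ (∀ t ∈ Icc s s', |DL t| ≤ C * |Y t| ^ m₂) := by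
  set C0 : ℝ := 3 * K ^ 2 * ((2 * K) ^ m₁ + 1) + 2 * K ^ 2 with hC0
  refine ⟨2 * K + 3 * K ^ 2 + C0, 1, ?_, one_pos, ?_⟩
  · have : 0 ≤ (2 * K) ^ m₁ := by positivity
    nlinarith [sq_nonneg K, mul_nonneg (sq_nonneg K) this]
  intro s s' X ϕ u g v n Y p P DB DL b l c₁ c₂ ψB ψL η' π hδ h
  have hK0 : 0 ≤ K := by linarith
  have hs := h.rl.hs.le
  have hd0 : 0 ≤ s' - s := by linarith
  have hC0' : 0 ≤ C0 := by positivity
  obtain ⟨cY, cB, cL⟩ := twoA_cont h
  refine ⟨cY, cB, cL, ?_, ?_, ?_, ?_⟩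
  · intro t ht
    refine (twoA_Xb h t ht).1.trans (mul_le_mul_of_nonneg_right ?_ hd0)
    nlinarith [sq_nonneg K]
  · intro t ht
    rw [h.Yeq t ht]
    have hb : ∀ r ∈ uIoc s t, ‖DB r - η' r * DL r‖ ≤ C0 := by
      intro r hr
      rw [uIoc_of_le ht.1] at hr
      have hr' : r ∈ Icc s s' := ⟨hr.1.le, hr.2.trans ht.2⟩
      rw [Real.norm_eq_abs]
      have h1 := twoA_DBb h r hr'
      have h2 := twoA_DLb h r hr'
      have h3 := h.Yb r hr'
      have h4 : |Y r| ^ m₂ ≤ 1 := pow_le_one₀ (abs_nonneg _) h3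
      have h5 : |X r| ^ m₁ ≤ (2 * K) ^ m₁ := pow_le_pow_left₀ (abs_nonneg _) (twoA_Xb h r hr').2 _
      have h6 : |η' r * DL r| ≤ K * (2 * K) := by
        rw [abs_mul]
        refine mul_le_mul (h.η1 r hr') ?_ (abs_nonneg _) hK0
        refine h2.trans ?_
        nlinarith
      have h7 : |DB r - η' r * DL r| ≤ |DB r| + |η' r * DL r| := abs_sub _ _
      have h8 : 3 * K ^ 2 * (|X r| ^ m₁ + |Y r|) ≤ 3 * K ^ 2 * ((2 * K) ^ m₁ + 1) :=
        mul_le_mul_of_nonneg_left (by linarith) (by positivity)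
      rw [hC0]
      nlinarith
    have h9 := intervalIntegral.norm_integral_le_of_norm_le_const hb
    rw [Real.norm_eq_abs, abs_of_nonneg (by linarith [ht.1] : 0 ≤ t - s)] at h9
    refine h9.trans ?_
    have h10 : C0 * (t - s) ≤ C0 * (s' - s) := mul_le_mul_of_nonneg_left (by linarith [ht.2]) hC0'
    refine h10.trans (mul_le_mul_of_nonneg_right ?_ hd0)
    nlinarith [sq_nonneg K]
  · intro t ht
    refine (twoA_DBb h t ht).trans (mul_le_mul_of_nonneg_right ?_ (by positivity))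
    nlinarith [sq_nonneg K]
  · intro t ht
    refine (twoA_DLb h t ht).trans (mul_le_mul_of_nonneg_right ?_ (by positivity))
    nlinarith [sq_nonneg K]

theorem two_X {K c : ℝ} (hK : 1 ≤ K) (hc : 0 < c) (m₁ m₂ : ℕ) :
    ∃ C δ : ℝ, 1 ≤ C ∧ 0 < δ ∧ ∀ (s s' : ℝ) (X ϕ u g v n Y p P DB DL b l c₁ c₂ ψB ψL η' π : ℝ → ℝ),
      s' - s ≤ δ → G2 K c m₁ m₂ s s' X ϕ u g v n Y p P DB DL b l c₁ c₂ ψB ψL η' π →
      ∫ r in s..s', |X r| ^ (m₁ + 1) ≤ C * ∫ r in s..s', |Y r| := by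
  set C1 : ℝ := 2 * K + 2 * K ^ 2 + 4 * K ^ 3 with hC1
  have hK0 : 0 < K := by linarith
  have hC1' : 0 < C1 := by positivity
  refine ⟨2 * C1 / c + 1, c / (4 * K ^ 2), ?_, by positivity, ?_⟩
  · have : 0 ≤ 2 * C1 / c := by positivity
    linarith
  intro s s' X ϕ u g v n Y p P DB DL b l c₁ c₂ ψB ψL η' π hδ h
  have hs := h.rl.hs.le
  have huI : uIcc s s' = Icc s s' := uIcc_of_le hs
  obtain ⟨cY, cB, cL⟩ := twoA_cont h
  have cX := h.rl.Xc
  have cη := h.ηc
  obtain ⟨e, he, hsg⟩ := twoA_sign h.c₁c hc h.c₁0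
  have he1 : |e| = 1 := by rcases he with rfl | rfl <;> norm_num
  have hee : e * e = 1 := by rcases he with rfl | rfl <;> norm_num
  have iD : ContinuousOn (fun r => DB r - η' r * DL r) (Icc s s') := cB.sub (cη.mul cL)
  have iD' : IntervalIntegrable (fun r => DB r - η' r * DL r) volume s s' :=
    ContinuousOn.intervalIntegrable (by rw [huI]; exact iD)
  have hpar := twoA_prim_mul hs (twoA_gi h) iD' h.rl.Xeq h.Yeq
  rw [h.Y1, mul_zero] at hpar
  have i1 : IntervalIntegrable (fun r => g r * (u r - v r) * Y r) volume s s' :=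
    (twoA_gi h).mul_continuousOn (by rw [huI]; exact cY)
  have i2 : IntervalIntegrable (fun r => X r * (DB r - η' r * DL r)) volume s s' :=
    ContinuousOn.intervalIntegrable (by rw [huI]; exact cX.mul iD)
  have i3 : IntervalIntegrable (fun r => e * c₁ r * |X r| ^ (m₁ + 1)) volume s s' :=
    ContinuousOn.intervalIntegrable (by rw [huI]; exact (continuousOn_const.mul h.c₁c).mul (cX.abs.pow _))
  have iX : IntervalIntegrable (fun r => |X r| ^ (m₁ + 1)) volume s s' :=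
    ContinuousOn.intervalIntegrable (by rw [huI]; exact cX.abs.pow _)
  have iY : IntervalIntegrable (fun r => |Y r|) volume s s' :=
    ContinuousOn.intervalIntegrable (by rw [huI]; exact cY.abs)
  -- the lower bound
  have hlow : c * ∫ r in s..s', |X r| ^ (m₁ + 1) ≤ ∫ r in s..s', e * c₁ r * |X r| ^ (m₁ + 1) := by
    rw [← intervalIntegral.integral_const_mul]
    refine intervalIntegral.integral_mono_on hs (iX.const_mul c) i3 (fun t ht => ?_)
    exact mul_le_mul_of_nonneg_right (hsg t ht) (by positivity)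
  -- the upper bound
  have hup : ∫ r in s..s', e * c₁ r * |X r| ^ (m₁ + 1) ≤
      ∫ r in s..s', (C1 * |Y r| + c / 2 * |X r| ^ (m₁ + 1)) := by
    have h0 : ∫ r in s..s', e * c₁ r * |X r| ^ (m₁ + 1) =
        ∫ r in s..s', (e * c₁ r * |X r| ^ (m₁ + 1) -
          e * (g r * (u r - v r) * Y r + X r * (DB r - η' r * DL r))) := by
      rw [intervalIntegral.integral_sub i3 ((i1.add i2).const_mul e),
        intervalIntegral.integral_const_mul, hpar, mul_zero, sub_zero]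
    rw [h0]
    refine intervalIntegral.integral_mono_on hs (i3.sub ((i1.add i2).const_mul e))
      ((iY.const_mul C1).add (iX.const_mul (c / 2))) (fun t ht => ?_)
    have hev : Even (m₁ + 1) := h.m1.add_one
    have hpow : |X t| ^ (m₁ + 1) = X t ^ m₁ * X t := by rw [hev.pow_abs, pow_succ]
    have e1 : |g t * (u t - v t) * Y t| ≤ 2 * K * |Y t| := by
      rw [abs_mul]
      exact mul_le_mul_of_nonneg_right (twoA_gb h t ht) (abs_nonneg _)
    have e2 : |X t * (c₁ t * X t ^ m₁ - DB t)| ≤ K * (2 * K * (s' - s)) * |X t| ^ (m₁ + 1)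
        + 2 * K ^ 2 * |Y t| := by
      rw [abs_mul, abs_sub_comm]
      have h1 := h.DBb t ht
      have h2 := (twoA_Xb h t ht).1
      have h3 := (twoA_Xb h t ht).2
      calc |X t| * |DB t - c₁ t * X t ^ m₁| ≤ |X t| * (K * (|X t| ^ (m₁ + 1) + |Y t|)) :=
            mul_le_mul_of_nonneg_left h1 (abs_nonneg _)
        _ = K * |X t| * |X t| ^ (m₁ + 1) + K * |X t| * |Y t| := by ring
        _ ≤ K * (2 * K * (s' - s)) * |X t| ^ (m₁ + 1) + K * (2 * K) * |Y t| := by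
            refine add_le_add ?_ ?_
            · exact mul_le_mul_of_nonneg_right (mul_le_mul_of_nonneg_left h2 hK0.le) (by positivity)
            · exact mul_le_mul_of_nonneg_right (mul_le_mul_of_nonneg_left h3 hK0.le) (abs_nonneg _)
        _ = _ := by ring
    have e3 : |X t * (η' t * DL t)| ≤ 4 * K ^ 3 * |Y t| := by
      rw [abs_mul, abs_mul]
      have h2 := (twoA_Xb h t ht).2
      have h3 := h.η1 t ht
      have h4 : |DL t| ≤ 2 * K * |Y t| := by
        refine (twoA_DLb h t ht).trans (mul_le_mul_of_nonneg_left ?_ (by positivity))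
        have h5 := h.Yb t ht
        calc |Y t| ^ m₂ ≤ |Y t| ^ 1 := pow_le_pow_of_le_one (abs_nonneg _) h5 (by linarith [h.m2])
          _ = |Y t| := pow_one _
      calc |X t| * (|η' t| * |DL t|) ≤ (2 * K) * (K * (2 * K * |Y t|)) :=
            mul_le_mul h2 (mul_le_mul h3 h4 (abs_nonneg _) hK0.le) (by positivity) (by positivity)
        _ = _ := by ring
    have hsmall : K * (2 * K * (s' - s)) ≤ c / 2 := by
      rw [le_div_iff₀ (by positivity)] at hδ
      nlinarith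
    have hsm2 : K * (2 * K * (s' - s)) * |X t| ^ (m₁ + 1) ≤ c / 2 * |X t| ^ (m₁ + 1) :=
      mul_le_mul_of_nonneg_right hsmall (by positivity)
    have hid : e * c₁ t * |X t| ^ (m₁ + 1) - e * (g t * (u t - v t) * Y t + X t * (DB t - η' t * DL t)) =
        e * (X t * (c₁ t * X t ^ m₁ - DB t)) + (-e) * (g t * (u t - v t) * Y t) +
          e * (X t * (η' t * DL t)) := by
      rw [hpow]; ring
    rw [hid]
    have a1 : e * (X t * (c₁ t * X t ^ m₁ - DB t)) ≤ |X t * (c₁ t * X t ^ m₁ - DB t)| := by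
      refine (le_abs_self _).trans ?_
      rw [abs_mul, he1, one_mul]
    have a2 : (-e) * (g t * (u t - v t) * Y t) ≤ |g t * (u t - v t) * Y t| := by
      refine (le_abs_self _).trans ?_
      rw [abs_mul, abs_neg, he1, one_mul]
    have a3 : e * (X t * (η' t * DL t)) ≤ |X t * (η' t * DL t)| := by
      refine (le_abs_self _).trans ?_
      rw [abs_mul, he1, one_mul]
    rw [hC1]
    nlinarith
  rw [intervalIntegral.integral_add (iY.const_mul C1) (iX.const_mul (c / 2)),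
    intervalIntegral.integral_const_mul, intervalIntegral.integral_const_mul] at hup
  have hYn : 0 ≤ ∫ r in s..s', |Y r| := intervalIntegral.integral_nonneg hs (fun t _ => abs_nonneg _)
  have h1 : c / 2 * ∫ r in s..s', |X r| ^ (m₁ + 1) ≤ C1 * ∫ r in s..s', |Y r| := by linarith
  have h2 : ∫ r in s..s', |X r| ^ (m₁ + 1) ≤ 2 * C1 / c * ∫ r in s..s', |Y r| := by
    rw [div_mul_eq_mul_div, le_div_iff₀ hc]
    linarith
  linarith

theorem two_p {K c : ℝ} (hK : 1 ≤ K) (hc : 0 < c) (m₁ m₂ : ℕ) :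
    ∃ C δ : ℝ, 1 ≤ C ∧ 0 < δ ∧ ∀ (s s' : ℝ) (X ϕ u g v n Y p P DB DL b l c₁ c₂ ψB ψL η' π : ℝ → ℝ),
      s' - s ≤ δ → G2 K c m₁ m₂ s s' X ϕ u g v n Y p P DB DL b l c₁ c₂ ψB ψL η' π →
      ∀ t ∈ Icc s s', |p t| ≤ C * ∫ r in s..s', (|Y r| ^ (m₂ - 1) + |ϕ r|) := by
  have hK0 : 0 < K := by linarith
  refine ⟨(m₂ + 1) * K ^ 2 * Real.exp K + 1, 1, ?_, one_pos, ?_⟩
  · have : 0 ≤ ((m₂ : ℝ) + 1) * K ^ 2 * Real.exp K := by positivity
    linarith
  intro s s' X ϕ u g v n Y p P DB DL b l c₁ c₂ ψB ψL η' π hδ h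
  have hs := h.rl.hs.le
  have huI : uIcc s s' = Icc s s' := uIcc_of_le hs
  obtain ⟨cY, cB, cL⟩ := twoA_cont h
  have cJ : ContinuousOn (fun r => |Y r| ^ (m₂ - 1) + |ϕ r|) (Icc s s') := (cY.abs.pow _).add h.rl.ϕc.abs
  set J := ∫ r in s..s', (|Y r| ^ (m₂ - 1) + |ϕ r|) with hJ
  have hJ0 : 0 ≤ J := intervalIntegral.integral_nonneg hs (fun t _ => by positivity)
  have hgr := gron (f := fun t => |p t|) (a := s) (b := s') (e := (m₂ + 1) * K ^ 2 * J) (K := K)
    h.pc.abs hK0.le (by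
      intro t ht
      have hst : s ≤ t := ht.1
      have hsub : Icc s t ⊆ Icc s s' := Icc_subset_Icc_right ht.2
      have iπ : IntervalIntegrable π volume s t := h.πi.mono_set (by
        rw [huI, uIcc_of_le hst]; exact hsub)
      have ip : IntervalIntegrable (fun r => |p r|) volume s t :=
        ContinuousOn.intervalIntegrable (by rw [uIcc_of_le hst]; exact h.pc.abs.mono hsub)
      have iJ : IntervalIntegrable (fun r => |Y r| ^ (m₂ - 1) + |ϕ r|) volume s t :=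
        ContinuousOn.intervalIntegrable (by rw [uIcc_of_le hst]; exact cJ.mono hsub)
      have h1 : |p t| ≤ ∫ r in s..t, |π r| := by
        rw [h.peq t ht]
        exact intervalIntegral.abs_integral_le_integral_abs hst
      have h2 : ∫ r in s..t, |π r| ≤ ∫ r in s..t, ((m₂ + 1) * K ^ 2 * (|Y r| ^ (m₂ - 1) + |ϕ r|) + K * |p r|) := by
        refine intervalIntegral.integral_mono_on hst iπ.abs ((iJ.const_mul _).add (ip.const_mul _))
          (fun r hr => ?_)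
        have hr' := hsub hr
        have e1 := h.πb r hr'
        have e2 := h.P1 r hr'
        have e3 := h.lb r hr'
        have e4 := h.c₂1 r hr'
        have e5 := h.Yb r hr'
        have hm : m₂ = (m₂ - 1) + 1 := by have := h.m2; omega
        have e6 : |Y r| ^ m₂ ≤ |Y r| ^ (m₂ - 1) := pow_le_pow_of_le_one (abs_nonneg _) e5 (by omega)
        have hYn : 0 ≤ |Y r| ^ (m₂ - 1) := by positivity
        have e7 : |(m₂ : ℝ) * c₂ r * Y r ^ (m₂ - 1)| ≤ m₂ * K * |Y r| ^ (m₂ - 1) := by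
          rw [abs_mul, abs_mul, abs_pow, Nat.abs_cast]
          exact mul_le_mul_of_nonneg_right (mul_le_mul_of_nonneg_left e4 (Nat.cast_nonneg _)) hYn
        have e8 : |l r| ≤ (m₂ + 1) * K * |Y r| ^ (m₂ - 1) := by
          have := abs_add_le (l r - m₂ * c₂ r * Y r ^ (m₂ - 1)) (m₂ * c₂ r * Y r ^ (m₂ - 1))
          rw [sub_add_cancel] at this
          have e9 : K * |Y r| ^ m₂ ≤ K * |Y r| ^ (m₂ - 1) := mul_le_mul_of_nonneg_left e6 hK0.le
          nlinarith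
        have e10 : |P r * l r| ≤ K * ((m₂ + 1) * K * |Y r| ^ (m₂ - 1)) := by
          rw [abs_mul]
          exact mul_le_mul e2 e8 (abs_nonneg _) hK0.le
        have e11 : |π r| ≤ |π r + P r * l r| + |P r * l r| := by
          have := abs_sub (π r + P r * l r) (P r * l r)
          simpa using this
        have e12 : K * |ϕ r| ≤ (m₂ + 1) * K ^ 2 * |ϕ r| := by
          refine mul_le_mul_of_nonneg_right ?_ (abs_nonneg _)
          have : (0 : ℝ) ≤ m₂ := Nat.cast_nonneg _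
          nlinarith [mul_nonneg this (sq_nonneg K)]
        nlinarith
      have h3 : ∫ r in s..t, ((m₂ + 1) * K ^ 2 * (|Y r| ^ (m₂ - 1) + |ϕ r|) + K * |p r|) =
          (m₂ + 1) * K ^ 2 * (∫ r in s..t, (|Y r| ^ (m₂ - 1) + |ϕ r|)) + K * ∫ r in s..t, |p r| := by
        rw [intervalIntegral.integral_add (iJ.const_mul _) (ip.const_mul _),
          intervalIntegral.integral_const_mul, intervalIntegral.integral_const_mul]
      have h4 : ∫ r in s..t, (|Y r| ^ (m₂ - 1) + |ϕ r|) ≤ J := by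
        rw [hJ]
        refine intervalIntegral.integral_mono_interval le_rfl hst ht.2 ?_
          (ContinuousOn.intervalIntegrable (by rw [huI]; exact cJ))
        exact Filter.Eventually.of_forall (fun r => by positivity)
      have h5 : (m₂ + 1) * K ^ 2 * (∫ r in s..t, (|Y r| ^ (m₂ - 1) + |ϕ r|)) ≤ (m₂ + 1) * K ^ 2 * J :=
        mul_le_mul_of_nonneg_left h4 (by positivity)
      show |p t| ≤ (m₂ + 1) * K ^ 2 * J + K * ∫ r in s..t, |p r|
      linarith)
  intro t ht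
  refine (hgr t ht).trans ?_
  have h6 : Real.exp (K * (t - s)) ≤ Real.exp K := by
    apply Real.exp_le_exp.2
    have : t - s ≤ 1 := by linarith [ht.2, h.rl.hs1]
    nlinarith
  calc (m₂ + 1) * K ^ 2 * J * Real.exp (K * (t - s)) ≤ (m₂ + 1) * K ^ 2 * J * Real.exp K :=
        mul_le_mul_of_nonneg_left h6 (by positivity)
    _ = (m₂ + 1) * K ^ 2 * Real.exp K * J := by ring
    _ ≤ _ := by linarith

/-- `sup|p| ∫|Y| ≤ C δ ∫ (|Y|^m₂ + |ϕ|)` -/
private theorem twoA_supY {K c : ℝ} (hK : 1 ≤ K) (hc : 0 < c) (m₁ m₂ : ℕ) :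
    ∃ C δ : ℝ, 1 ≤ C ∧ 0 < δ ∧ ∀ (s s' : ℝ) (X ϕ u g v n Y p P DB DL b l c₁ c₂ ψB ψL η' π : ℝ → ℝ),
      s' - s ≤ δ → G2 K c m₁ m₂ s s' X ϕ u g v n Y p P DB DL b l c₁ c₂ ψB ψL η' π →
      ∃ M : ℝ, 0 ≤ M ∧ (∀ t ∈ Icc s s', |p t| ≤ M) ∧
        M * ∫ r in s..s', |Y r| ≤ C * (s' - s) * ∫ r in s..s', (|Y r| ^ m₂ + |ϕ r|) := by
  obtain ⟨Cp, δp, hCp, hδp, hp⟩ := two_p hK hc m₁ m₂
  obtain ⟨Cs, δs, hCs, hδs, hsm⟩ := two_small hK hc m₁ m₂
  refine ⟨Cp * (2 + Cs), min δp δs, ?_, lt_min hδp hδs, ?_⟩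
  · nlinarith
  intro s s' X ϕ u g v n Y p P DB DL b l c₁ c₂ ψB ψL η' π hδ h
  have hs := h.rl.hs.le
  have hd0 : 0 ≤ s' - s := by linarith
  have hd1 := h.rl.hs1
  have huI : uIcc s s' = Icc s s' := uIcc_of_le hs
  obtain ⟨cY, cB, cL, bX, bY, -, -⟩ := hsm s s' X ϕ u g v n Y p P DB DL b l c₁ c₂ ψB ψL η' π
    (hδ.trans (min_le_right _ _)) h
  have hp' := hp s s' X ϕ u g v n Y p P DB DL b l c₁ c₂ ψB ψL η' π (hδ.trans (min_le_left _ _)) h
  have cϕ := h.rl.ϕc
  have i1 : IntervalIntegrable (fun r => |Y r| ^ (m₂ - 1)) volume s s' :=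
    ContinuousOn.intervalIntegrable (by rw [huI]; exact cY.abs.pow _)
  have i2 : IntervalIntegrable (fun r => |Y r| ^ m₂) volume s s' :=
    ContinuousOn.intervalIntegrable (by rw [huI]; exact cY.abs.pow _)
  have i3 : IntervalIntegrable (fun r => |ϕ r|) volume s s' :=
    ContinuousOn.intervalIntegrable (by rw [huI]; exact cϕ.abs)
  have i4 : IntervalIntegrable (fun r => |Y r|) volume s s' :=
    ContinuousOn.intervalIntegrable (by rw [huI]; exact cY.abs)
  have hm : m₂ = (m₂ - 1) + 1 := by have := h.m2; omega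
  set a := ∫ r in s..s', |Y r| ^ (m₂ - 1) with ha
  set B := ∫ r in s..s', |Y r| ^ m₂ with hB
  set f := ∫ r in s..s', |ϕ r| with hf
  set y := ∫ r in s..s', |Y r| with hy
  have ha0 : 0 ≤ a := intervalIntegral.integral_nonneg hs (fun t _ => by positivity)
  have hB0 : 0 ≤ B := intervalIntegral.integral_nonneg hs (fun t _ => by positivity)
  have hf0 : 0 ≤ f := intervalIntegral.integral_nonneg hs (fun t _ => by positivity)
  have hy0 : 0 ≤ y := intervalIntegral.integral_nonneg hs (fun t _ => by positivity)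
  have hsum : ∫ r in s..s', (|Y r| ^ m₂ + |ϕ r|) = B + f := intervalIntegral.integral_add i2 i3
  have hsum' : ∫ r in s..s', (|Y r| ^ (m₂ - 1) + |ϕ r|) = a + f := intervalIntegral.integral_add i1 i3
  rw [hsum]
  rw [hsum'] at hp'
  have hpt : ∀ x z : ℝ, 0 ≤ x → 0 ≤ z → x ^ (m₂ - 1) * z ≤ x ^ m₂ + z ^ m₂ := by
    intro x z hx hz
    rcases le_total x z with hxz | hxz
    · have : x ^ (m₂ - 1) * z ≤ z ^ (m₂ - 1) * z :=
        mul_le_mul_of_nonneg_right (pow_le_pow_left₀ hx hxz _) hz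
      rw [← pow_succ, ← hm] at this
      have := pow_nonneg hx m₂
      linarith
    · have : x ^ (m₂ - 1) * z ≤ x ^ (m₂ - 1) * x := mul_le_mul_of_nonneg_left hxz (by positivity)
      rw [← pow_succ, ← hm] at this
      have := pow_nonneg hz m₂
      linarith
  have hay : a * y ≤ 2 * (s' - s) * B := by
    have h1 : ∀ r ∈ Icc s s', a * |Y r| ≤ B + (s' - s) * |Y r| ^ m₂ := by
      intro r hr
      have h2 : a * |Y r| = ∫ t in s..s', |Y t| ^ (m₂ - 1) * |Y r| := by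
        rw [intervalIntegral.integral_mul_const]
      have h3 : ∫ t in s..s', |Y t| ^ (m₂ - 1) * |Y r| ≤ ∫ t in s..s', (|Y t| ^ m₂ + |Y r| ^ m₂) := by
        refine intervalIntegral.integral_mono_on hs (i1.mul_const _) (i2.add (by simp)) (fun t _ => ?_)
        exact hpt _ _ (abs_nonneg _) (abs_nonneg _)
      rw [intervalIntegral.integral_add i2 (by simp), intervalIntegral.integral_const, smul_eq_mul] at h3
      rw [h2]
      exact h3
    have h4 : a * y = ∫ r in s..s', a * |Y r| := by rw [intervalIntegral.integral_const_mul]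
    rw [h4]
    have h5 : ∫ r in s..s', a * |Y r| ≤ ∫ r in s..s', (B + (s' - s) * |Y r| ^ m₂) :=
      intervalIntegral.integral_mono_on hs (i4.const_mul a) (IntervalIntegrable.add (by simp) (i2.const_mul _)) h1
    rw [intervalIntegral.integral_add (by simp) (i2.const_mul _), intervalIntegral.integral_const,
      intervalIntegral.integral_const_mul, intervalIntegral.integral_const_mul, smul_eq_mul, ← hB, ← hy] at h5
    rw [intervalIntegral.integral_const_mul, ← hy]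
    linarith
  have hyb : y ≤ Cs * (s' - s) := by
    have h1 : y ≤ ∫ r in s..s', Cs * (s' - s) :=
      intervalIntegral.integral_mono_on hs i4 (by simp) (fun t ht => bY t ht)
    rw [intervalIntegral.integral_const, smul_eq_mul] at h1
    have h2 : (s' - s) * (Cs * (s' - s)) ≤ 1 * (Cs * (s' - s)) :=
      mul_le_mul_of_nonneg_right hd1 (by positivity)
    linarith
  refine ⟨Cp * (a + f), by positivity, hp', ?_⟩
  have h6 : f * y ≤ f * (Cs * (s' - s)) := mul_le_mul_of_nonneg_left hyb hf0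
  have h7 : a * y + f * y ≤ (2 + Cs) * (s' - s) * (B + f) := by
    have h8 : 0 ≤ Cs * (s' - s) * B := by positivity
    have h9 : 0 ≤ 2 * (s' - s) * f := by positivity
    nlinarith
  calc Cp * (a + f) * y = Cp * (a * y + f * y) := by ring
    _ ≤ Cp * ((2 + Cs) * (s' - s) * (B + f)) := mul_le_mul_of_nonneg_left h7 (by linarith)
    _ = _ := by ring

theorem two_Yp {K c : ℝ} (hK : 1 ≤ K) (hc : 0 < c) (m₁ m₂ : ℕ) :
    ∃ C δ : ℝ, 1 ≤ C ∧ 0 < δ ∧ ∀ (s s' : ℝ) (X ϕ u g v n Y p P DB DL b l c₁ c₂ ψB ψL η' π : ℝ → ℝ),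
      s' - s ≤ δ → G2 K c m₁ m₂ s s' X ϕ u g v n Y p P DB DL b l c₁ c₂ ψB ψL η' π →
      ∫ r in s..s', |Y r| * |p r| ≤ C * (s' - s) * ∫ r in s..s', (|Y r| ^ m₂ + |ϕ r|) := by
  obtain ⟨C, δ, hC, hδ0, hh⟩ := twoA_supY hK hc m₁ m₂
  refine ⟨C, δ, hC, hδ0, ?_⟩
  intro s s' X ϕ u g v n Y p P DB DL b l c₁ c₂ ψB ψL η' π hδ h
  obtain ⟨M, hM0, hM, hMY⟩ := hh s s' X ϕ u g v n Y p P DB DL b l c₁ c₂ ψB ψL η' π hδ h
  have hs := h.rl.hs.le
  have huI : uIcc s s' = Icc s s' := uIcc_of_le hs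
  obtain ⟨cY, cB, cL⟩ := twoA_cont h
  refine le_trans ?_ hMY
  rw [← intervalIntegral.integral_const_mul]
  refine intervalIntegral.integral_mono_on hs
    (ContinuousOn.intervalIntegrable (by rw [huI]; exact cY.abs.mul h.pc.abs))
    (ContinuousOn.intervalIntegrable (by rw [huI]; exact continuousOn_const.mul cY.abs)) (fun t ht => ?_)
  rw [mul_comm]
  exact mul_le_mul_of_nonneg_right (hM t ht) (abs_nonneg _)

theorem two_Xp {K c : ℝ} (hK : 1 ≤ K) (hc : 0 < c) (m₁ m₂ : ℕ) :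
    ∃ C δ : ℝ, 1 ≤ C ∧ 0 < δ ∧ ∀ (s s' : ℝ) (X ϕ u g v n Y p P DB DL b l c₁ c₂ ψB ψL η' π : ℝ → ℝ),
      s' - s ≤ δ → G2 K c m₁ m₂ s s' X ϕ u g v n Y p P DB DL b l c₁ c₂ ψB ψL η' π →
      ∫ r in s..s', |X r| ^ (m₁ + 1) * |p r| ≤ C * (s' - s) * ∫ r in s..s', (|Y r| ^ m₂ + |ϕ r|) := by
  obtain ⟨C, δ, hC, hδ0, hh⟩ := twoA_supY hK hc m₁ m₂
  obtain ⟨CX, δX, hCX, hδX0, hhX⟩ := two_X hK hc m₁ m₂
  refine ⟨CX * C, min δ δX, by nlinarith, lt_min hδ0 hδX0, ?_⟩
  intro s s' X ϕ u g v n Y p P DB DL b l c₁ c₂ ψB ψL η' π hδ h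
  obtain ⟨M, hM0, hM, hMY⟩ := hh s s' X ϕ u g v n Y p P DB DL b l c₁ c₂ ψB ψL η' π
    (hδ.trans (min_le_left _ _)) h
  have hX := hhX s s' X ϕ u g v n Y p P DB DL b l c₁ c₂ ψB ψL η' π (hδ.trans (min_le_right _ _)) h
  have hs := h.rl.hs.le
  have huI : uIcc s s' = Icc s s' := uIcc_of_le hs
  have cX := h.rl.Xc
  have h1 : ∫ r in s..s', |X r| ^ (m₁ + 1) * |p r| ≤ M * ∫ r in s..s', |X r| ^ (m₁ + 1) := by
    rw [← intervalIntegral.integral_const_mul]
    refine intervalIntegral.integral_mono_on hs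
      (ContinuousOn.intervalIntegrable (by rw [huI]; exact (cX.abs.pow _).mul h.pc.abs))
      (ContinuousOn.intervalIntegrable (by rw [huI]; exact continuousOn_const.mul (cX.abs.pow _)))
      (fun t ht => ?_)
    rw [mul_comm]
    exact mul_le_mul_of_nonneg_right (hM t ht) (by positivity)
  have h2 : M * ∫ r in s..s', |X r| ^ (m₁ + 1) ≤ M * (CX * ∫ r in s..s', |Y r|) :=
    mul_le_mul_of_nonneg_left hX hM0
  have h3 : CX * (M * ∫ r in s..s', |Y r|) ≤ CX * (C * (s' - s) * ∫ r in s..s', (|Y r| ^ m₂ + |ϕ r|)) :=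
    mul_le_mul_of_nonneg_left hMY (by linarith)
  calc ∫ r in s..s', |X r| ^ (m₁ + 1) * |p r| ≤ CX * (M * ∫ r in s..s', |Y r|) := by linarith
    _ ≤ CX * (C * (s' - s) * ∫ r in s..s', (|Y r| ^ m₂ + |ϕ r|)) := h3
    _ = _ := by ring

end Pool.Agent.Lib.MP_28b8de_an.TT
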