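import Pool.Agent.Lib.MP_28b8de_an.T.TGTwoA

/-!
MP_28b8de_an, module TGTwoB.

The integral identities of gap lemma 2, up to small errors.  Write A := ∫ P c₂ Y^m₂, S := ∫ (|Y|^m₂ + |ϕ|), δ := s' - s, I := ∫ c₁ X^m₁ p.
PROOFS.
two_I: ∫ (Y p)' = 0, (Y p)' = (DB - η' DL) p + Y π, DB p = c₁ X^m₁ p + O(|X|^(m₁+1)|p| + |Y||p|), |DL p| ≤ C|Y||p|, Y π = -P l Y + O(|Y||p| + |Y||ϕ|), P l Y = m₂ P c₂ Y^m₂ + O(|Y|^(m₂+1)):
|I - m₂ A| ≤ C δ S by two_Yp, two_Xp and |Y| ≤ Cδ.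
two_E: rl_X: ∫ En = -∫ X n = ∫ X p b + O(∫|X||ϕ|) = m₁ I + O(∫|X|^(m₁+1)|p| + |X||Y||p| + |X||ϕ|): |∫ En - m₁ I| ≤ C δ S.
two_h: h := P DL + p DB + En.  Derivative of P DL + p DB: P' DL + P (l (DB - η' DL) + ψL) + π DB + p (b g (u-v) + ψB); here |P' DL| ≤ C|Y|^m₂, P l DB + π DB = O((|p| + |ϕ|)|DB|) = O(|p||X|^m₁ + |p||Y| + |ϕ|),
|P l η' DL| ≤ C |Y|^m₂, |P ψL| ≤ C|Y|^m₂, |p ψB| ≤ C |p|(|X|^m₁ + |Y|).  With rl_E (En' = g(u-v) n + O(ϕ), n = - p b + O(ϕ)) the terms p b g (u-v) cancel: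
|h(t)| ≤ C ∫_s^t (|ϕ| + |Y|^m₂ + |p||X|^m₁ + |p||Y|) for all t.  Pointwise |h - (P c₂ Y^m₂ + c₁ X^m₁ p + En)| ≤ C(|Y|^(m₂+1) + |p||X|^(m₁+1) + |p||Y|), hence (|X| small, |c₁| ≥ c)
|p||X|^m₁ ≤ C(|h| + |ϕ| + |Y|^m₂ + |p||Y|).  So ∫|h| ≤ δ C ∫(|ϕ| + |Y|^m₂ + |h| + |p||Y|), ∫|h| ≤ C δ S for small δ, and |A + I + ∫ En| ≤ C δ S.
-/

set_option linter.unusedSectionVars false

namespace Pool.Agent.Lib.MP_28b8de_an.TT

open Filter Topology Set MeasureTheory
open Pool.Agent.Lib.MP_28b8de_an.PT (Adm Perf gron gron_back volterra kder ae_zero perf_inner stay)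

private theorem twoB_prim_mul {x y X Y : ℝ → ℝ} {s s' : ℝ} (hs : s ≤ s')
    (hx : IntervalIntegrable x volume s s') (hy : IntervalIntegrable y volume s s')
    (hX : ∀ t ∈ Icc s s', X t = ∫ r in s..t, x r) (hY : ∀ t ∈ Icc s s', Y t = ∫ r in s..t, y r) :
    ∫ r in s..s', (x r * Y r + X r * y r) = X s' * Y s' := by
  have h1 := hx.absolutelyContinuousOnInterval_intervalIntegral (c := s) (by simp)
  have h2 := hy.absolutelyContinuousOnInterval_intervalIntegral (c := s) (by simp)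
  have h3 := h1.integral_deriv_mul_eq_sub h2
  have hs' : s' ∈ Icc s s' := right_mem_Icc.2 hs
  rw [hX s' hs', hY s' hs']
  simp only [intervalIntegral.integral_same, mul_zero, sub_zero] at h3
  rw [← h3]
  refine intervalIntegral.integral_congr_ae ?_
  filter_upwards [hx.ae_hasDerivAt_integral, hy.ae_hasDerivAt_integral] with t ht1 ht2 ht
  have ht' : t ∈ uIcc s s' := uIoc_subset_uIcc ht
  have ht'' : t ∈ Icc s s' := by rwa [uIcc_of_le hs] at ht'
  have e1 := (ht1 ht' s (by simp)).deriv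
  have e2 := (ht2 ht' s (by simp)).deriv
  rw [e1, e2, hX t ht'', hY t ht'']

section factsB

variable {K c : ℝ} {m₁ m₂ : ℕ} {s s' : ℝ} {X ϕ u g v n Y p P DB DL b l c₁ c₂ ψB ψL η' π : ℝ → ℝ}

private theorem twoB_Xb (h : G2 K c m₁ m₂ s s' X ϕ u g v n Y p P DB DL b l c₁ c₂ ψB ψL η' π) :
    ∀ t ∈ Icc s s', |X t| ≤ 2 * K * (s' - s) ∧ |X t| ≤ 2 * K := by
  intro t ht
  have hK : 0 ≤ K := by linarith [h.rl.hK]
  have h1 := rl_Xb h.rl t ht
  have h2 := h.rl.hs1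
  constructor
  · exact h1.trans (mul_le_mul_of_nonneg_left (by linarith [ht.2]) (by positivity))
  · exact h1.trans ((mul_le_mul_of_nonneg_left (by linarith [ht.2] : t - s ≤ 1) (by positivity)).trans
      (by linarith))

private theorem twoB_DLb (h : G2 K c m₁ m₂ s s' X ϕ u g v n Y p P DB DL b l c₁ c₂ ψB ψL η' π) :
    ∀ t ∈ Icc s s', |DL t| ≤ 2 * K * |Y t| ^ m₂ := by
  intro t ht
  have hK : 0 ≤ K := by linarith [h.rl.hK]
  have h1 := h.DLb t ht
  have h2 := h.c₂1 t ht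
  have h3 := h.Yb t ht
  have h4 : |Y t| ^ (m₂ + 1) ≤ |Y t| ^ m₂ := pow_le_pow_of_le_one (abs_nonneg _) h3 (Nat.le_succ _)
  have h5 : |c₂ t * Y t ^ m₂| ≤ K * |Y t| ^ m₂ := by
    rw [abs_mul, abs_pow]
    exact mul_le_mul_of_nonneg_right h2 (by positivity)
  have h6 : |DL t| ≤ |DL t - c₂ t * Y t ^ m₂| + |c₂ t * Y t ^ m₂| := by
    have := abs_add_le (DL t - c₂ t * Y t ^ m₂) (c₂ t * Y t ^ m₂)
    simpa using this
  have h7 : K * |Y t| ^ (m₂ + 1) ≤ K * |Y t| ^ m₂ := mul_le_mul_of_nonneg_left h4 hK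
  linarith

end factsB

theorem two_I {K c : ℝ} (hK : 1 ≤ K) (hc : 0 < c) (m₁ m₂ : ℕ) :
    ∃ C δ : ℝ, 1 ≤ C ∧ 0 < δ ∧ ∀ (s s' : ℝ) (X ϕ u g v n Y p P DB DL b l c₁ c₂ ψB ψL η' π : ℝ → ℝ),
      s' - s ≤ δ → G2 K c m₁ m₂ s s' X ϕ u g v n Y p P DB DL b l c₁ c₂ ψB ψL η' π →
      |(∫ r in s..s', c₁ r * X r ^ m₁ * p r) - m₂ * ∫ r in s..s', P r * c₂ r * Y r ^ m₂|
        ≤ C * (s' - s) * ∫ r in s..s', (|Y r| ^ m₂ + |ϕ r|) := by
  obtain ⟨Cs, δs, hCs, hδs, hsm⟩ := two_small hK hc m₁ m₂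
  obtain ⟨Cy, δy, hCy, hδy, hYp⟩ := two_Yp hK hc m₁ m₂
  obtain ⟨Cx, δx, hCx, hδx, hXp⟩ := two_Xp hK hc m₁ m₂
  have hK0 : 0 < K := by linarith
  refine ⟨K * Cx + (2 * K + 2 * K ^ 2) * Cy + (K + K ^ 2) * Cs, min δs (min δy δx), ?_,
    lt_min hδs (lt_min hδy hδx), ?_⟩
  · have h1 : 0 ≤ (2 * K + 2 * K ^ 2) * Cy := by positivity
    have h2 : 0 ≤ (K + K ^ 2) * Cs := by positivity
    nlinarith
  intro s s' X ϕ u g v n Y p P DB DL b l c₁ c₂ ψB ψL η' π hδ h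
  obtain ⟨cY, cB, cL, bX, bY, -, -⟩ := hsm s s' X ϕ u g v n Y p P DB DL b l c₁ c₂ ψB ψL η' π
    (hδ.trans (min_le_left _ _)) h
  have hy := hYp s s' X ϕ u g v n Y p P DB DL b l c₁ c₂ ψB ψL η' π
    (hδ.trans ((min_le_right _ _).trans (min_le_left _ _))) h
  have hx := hXp s s' X ϕ u g v n Y p P DB DL b l c₁ c₂ ψB ψL η' π
    (hδ.trans ((min_le_right _ _).trans (min_le_right _ _))) h
  have hs := h.rl.hs.le
  have hd0 : 0 ≤ s' - s := by linarith
  have huI : uIcc s s' = Icc s s' := uIcc_of_le hs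
  have cX := h.rl.Xc
  have cϕ := h.rl.ϕc
  have cp := h.pc
  have cP : ContinuousOn P (Icc s s') := by
    have : LipschitzOnWith ⟨K, hK0.le⟩ P (Icc s s') :=
      LipschitzOnWith.of_dist_le_mul (fun x hx y hy => by
        rw [Real.dist_eq, Real.dist_eq]; exact h.Pl x hx y hy)
    exact this.continuousOn
  set S := ∫ r in s..s', (|Y r| ^ m₂ + |ϕ r|) with hS
  have ii : ∀ {f : ℝ → ℝ}, ContinuousOn f (Icc s s') → IntervalIntegrable f volume s s' :=
    fun hf => ContinuousOn.intervalIntegrable (by rw [huI]; exact hf)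
  have iD : ContinuousOn (fun r => DB r - η' r * DL r) (Icc s s') := cB.sub (h.ηc.mul cL)
  have hpar := twoB_prim_mul hs (ii iD) h.πi h.Yeq h.peq
  rw [h.Y1, zero_mul] at hpar
  have i1 : IntervalIntegrable (fun r => (DB r - η' r * DL r) * p r) volume s s' := ii (iD.mul cp)
  have i2 : IntervalIntegrable (fun r => Y r * π r) volume s s' :=
    h.πi.continuousOn_mul (by rw [huI]; exact cY)
  have i3 : IntervalIntegrable (fun r => c₁ r * X r ^ m₁ * p r) volume s s' :=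
    ii ((h.c₁c.mul (cX.pow _)).mul cp)
  have i4 : IntervalIntegrable (fun r => P r * c₂ r * Y r ^ m₂) volume s s' :=
    ii ((cP.mul h.c₂c).mul (cY.pow _))
  have iX : IntervalIntegrable (fun r => |X r| ^ (m₁ + 1) * |p r|) volume s s' :=
    ii ((cX.abs.pow _).mul cp.abs)
  have iY : IntervalIntegrable (fun r => |Y r| * |p r|) volume s s' := ii (cY.abs.mul cp.abs)
  have iS : IntervalIntegrable (fun r => |Y r| ^ m₂ + |ϕ r|) volume s s' :=
    ii ((cY.abs.pow _).add cϕ.abs)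
  have hid : (∫ r in s..s', c₁ r * X r ^ m₁ * p r) - m₂ * ∫ r in s..s', P r * c₂ r * Y r ^ m₂ =
      ∫ r in s..s', (c₁ r * X r ^ m₁ * p r - m₂ * (P r * c₂ r * Y r ^ m₂) -
        ((DB r - η' r * DL r) * p r + Y r * π r)) := by
    rw [intervalIntegral.integral_sub (i3.sub (i4.const_mul _)) (i1.add i2),
      intervalIntegral.integral_sub i3 (i4.const_mul _), intervalIntegral.integral_const_mul, hpar, sub_zero]
  rw [hid]
  refine (intervalIntegral.abs_integral_le_integral_abs hs).trans ?_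
  have hmono : ∫ r in s..s', |c₁ r * X r ^ m₁ * p r - m₂ * (P r * c₂ r * Y r ^ m₂) -
        ((DB r - η' r * DL r) * p r + Y r * π r)| ≤
      ∫ r in s..s', (K * (|X r| ^ (m₁ + 1) * |p r|) + (2 * K + 2 * K ^ 2) * (|Y r| * |p r|) +
        (K + K ^ 2) * Cs * (s' - s) * (|Y r| ^ m₂ + |ϕ r|)) := by
    refine intervalIntegral.integral_mono_on hs ((i3.sub (i4.const_mul _)).sub (i1.add i2)).abs
      (((iX.const_mul _).add (iY.const_mul _)).add (iS.const_mul _)) (fun t ht => ?_)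
    have hYb := h.Yb t ht
    have hY0 := abs_nonneg (Y t)
    have hp0 := abs_nonneg (p t)
    have hf0 := abs_nonneg (ϕ t)
    have hm : m₂ = (m₂ - 1) + 1 := by have := h.m2; omega
    have hYm : 0 ≤ |Y t| ^ m₂ := by positivity
    have hYle : |Y t| ^ m₂ ≤ |Y t| := by
      calc |Y t| ^ m₂ ≤ |Y t| ^ 1 := pow_le_pow_of_le_one hY0 hYb (by linarith [h.m2])
        _ = |Y t| := pow_one _
    have e1 : |(c₁ t * X t ^ m₁ - DB t) * p t| ≤ K * (|X t| ^ (m₁ + 1) * |p t|) + K * (|Y t| * |p t|) := by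
      rw [abs_mul, abs_sub_comm]
      calc |DB t - c₁ t * X t ^ m₁| * |p t| ≤ K * (|X t| ^ (m₁ + 1) + |Y t|) * |p t| :=
            mul_le_mul_of_nonneg_right (h.DBb t ht) hp0
        _ = _ := by ring
    have e2 : |η' t * DL t * p t| ≤ 2 * K ^ 2 * (|Y t| * |p t|) := by
      rw [abs_mul, abs_mul]
      have h1 : |η' t| * |DL t| ≤ K * (2 * K * |Y t|) :=
        mul_le_mul (h.η1 t ht) ((twoB_DLb h t ht).trans (mul_le_mul_of_nonneg_left hYle (by positivity)))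
          (abs_nonneg _) hK0.le
      calc |η' t| * |DL t| * |p t| ≤ K * (2 * K * |Y t|) * |p t| := mul_le_mul_of_nonneg_right h1 hp0
        _ = _ := by ring
    have e3 : |Y t * (π t + P t * l t)| ≤ K * (|Y t| * |p t|) + K * Cs * (s' - s) * |ϕ t| := by
      rw [abs_mul]
      calc |Y t| * |π t + P t * l t| ≤ |Y t| * (K * (|p t| + |ϕ t|)) :=
            mul_le_mul_of_nonneg_left (h.πb t ht) hY0
        _ = K * (|Y t| * |p t|) + K * |ϕ t| * |Y t| := by ring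
        _ ≤ K * (|Y t| * |p t|) + K * |ϕ t| * (Cs * (s' - s)) :=
            by
              have := mul_le_mul_of_nonneg_left (bY t ht) (by positivity : 0 ≤ K * |ϕ t|)
              linarith
        _ = _ := by ring
    have e4 : |P t * (Y t * (l t - m₂ * c₂ t * Y t ^ (m₂ - 1)))| ≤ K ^ 2 * Cs * (s' - s) * |Y t| ^ m₂ := by
      rw [abs_mul, abs_mul]
      calc |P t| * (|Y t| * |l t - m₂ * c₂ t * Y t ^ (m₂ - 1)|) ≤ K * ((Cs * (s' - s)) * (K * |Y t| ^ m₂)) :=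
            mul_le_mul (h.P1 t ht) (mul_le_mul (bY t ht) (h.lb t ht) (abs_nonneg _) (by positivity))
              (by positivity) hK0.le
        _ = _ := by ring
    have hYY : Y t ^ m₂ = Y t * Y t ^ (m₂ - 1) := by
      conv_lhs => rw [hm]
      rw [pow_succ]; ring
    have hdec : c₁ t * X t ^ m₁ * p t - m₂ * (P t * c₂ t * Y t ^ m₂) -
        ((DB t - η' t * DL t) * p t + Y t * π t) =
        (c₁ t * X t ^ m₁ - DB t) * p t + η' t * DL t * p t - Y t * (π t + P t * l t) +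
          P t * (Y t * (l t - m₂ * c₂ t * Y t ^ (m₂ - 1))) := by
      rw [hYY]; ring
    rw [hdec]
    have t1 := abs_add_le ((c₁ t * X t ^ m₁ - DB t) * p t + η' t * DL t * p t - Y t * (π t + P t * l t))
      (P t * (Y t * (l t - m₂ * c₂ t * Y t ^ (m₂ - 1))))
    have t2 := abs_sub ((c₁ t * X t ^ m₁ - DB t) * p t + η' t * DL t * p t) (Y t * (π t + P t * l t))
    have t3 := abs_add_le ((c₁ t * X t ^ m₁ - DB t) * p t) (η' t * DL t * p t)
    have q1 : 0 ≤ K ^ 2 * Cs * (s' - s) * |ϕ t| := by positivity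
    have q2 : 0 ≤ K * Cs * (s' - s) * |Y t| ^ m₂ := by positivity
    have q3 : (K + K ^ 2) * Cs * (s' - s) * (|Y t| ^ m₂ + |ϕ t|) = K * Cs * (s' - s) * |ϕ t| +
      K ^ 2 * Cs * (s' - s) * |Y t| ^ m₂ + K ^ 2 * Cs * (s' - s) * |ϕ t| + K * Cs * (s' - s) * |Y t| ^ m₂ := by
      ring
    rw [q3]
    linarith
  refine hmono.trans ?_
  rw [intervalIntegral.integral_add ((iX.const_mul _).add (iY.const_mul _)) (iS.const_mul _),
    intervalIntegral.integral_add (iX.const_mul _) (iY.const_mul _),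
    intervalIntegral.integral_const_mul, intervalIntegral.integral_const_mul,
    intervalIntegral.integral_const_mul, ← hS]
  have f1 := mul_le_mul_of_nonneg_left hx hK0.le
  have f2 := mul_le_mul_of_nonneg_left hy (by positivity : 0 ≤ 2 * K + 2 * K ^ 2)
  calc _ ≤ K * (Cx * (s' - s) * S) + (2 * K + 2 * K ^ 2) * (Cy * (s' - s) * S) +
        (K + K ^ 2) * Cs * (s' - s) * S := by linarith
    _ = _ := by ring

theorem two_E {K c : ℝ} (hK : 1 ≤ K) (hc : 0 < c) (m₁ m₂ : ℕ) :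
    ∃ C δ : ℝ, 1 ≤ C ∧ 0 < δ ∧ ∀ (s s' : ℝ) (X ϕ u g v n Y p P DB DL b l c₁ c₂ ψB ψL η' π : ℝ → ℝ),
      s' - s ≤ δ → G2 K c m₁ m₂ s s' X ϕ u g v n Y p P DB DL b l c₁ c₂ ψB ψL η' π →
      |(∫ r in s..s', En ϕ g v r) - m₁ * ∫ r in s..s', c₁ r * X r ^ m₁ * p r|
        ≤ C * (s' - s) * ∫ r in s..s', (|Y r| ^ m₂ + |ϕ r|) := by
  obtain ⟨Cs, δs, hCs, hδs, hsm⟩ := two_small hK hc m₁ m₂
  obtain ⟨Cy, δy, hCy, hδy, hYp⟩ := two_Yp hK hc m₁ m₂
  obtain ⟨Cx, δx, hCx, hδx, hXp⟩ := two_Xp hK hc m₁ m₂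
  have hK0 : 0 < K := by linarith
  refine ⟨K * Cx + 2 * K ^ 2 * Cy + K * Cs, min δs (min δy δx), ?_,
    lt_min hδs (lt_min hδy hδx), ?_⟩
  · have h1 : 0 ≤ 2 * K ^ 2 * Cy := by positivity
    have h2 : 0 ≤ K * Cs := by positivity
    nlinarith
  intro s s' X ϕ u g v n Y p P DB DL b l c₁ c₂ ψB ψL η' π hδ h
  obtain ⟨cY, cB, cL, bX, bY, -, -⟩ := hsm s s' X ϕ u g v n Y p P DB DL b l c₁ c₂ ψB ψL η' π
    (hδ.trans (min_le_left _ _)) h
  have hy := hYp s s' X ϕ u g v n Y p P DB DL b l c₁ c₂ ψB ψL η' π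
    (hδ.trans ((min_le_right _ _).trans (min_le_left _ _))) h
  have hx := hXp s s' X ϕ u g v n Y p P DB DL b l c₁ c₂ ψB ψL η' π
    (hδ.trans ((min_le_right _ _).trans (min_le_right _ _))) h
  have hs := h.rl.hs.le
  have hd0 : 0 ≤ s' - s := by linarith
  have huI : uIcc s s' = Icc s s' := uIcc_of_le hs
  have cX := h.rl.Xc
  have cϕ := h.rl.ϕc
  have cp := h.pc
  set S := ∫ r in s..s', (|Y r| ^ m₂ + |ϕ r|) with hS
  have ii : ∀ {f : ℝ → ℝ}, ContinuousOn f (Icc s s') → IntervalIntegrable f volume s s' :=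
    fun hf => ContinuousOn.intervalIntegrable (by rw [huI]; exact hf)
  have hpar := rl_X h.rl
  have i1 : IntervalIntegrable (En ϕ g v) volume s s' := ii (rl_En_cont h.rl)
  have i2 : IntervalIntegrable (fun r => X r * n r) volume s s' :=
    h.rl.ni.continuousOn_mul (by rw [huI]; exact cX)
  have i3 : IntervalIntegrable (fun r => c₁ r * X r ^ m₁ * p r) volume s s' :=
    ii ((h.c₁c.mul (cX.pow _)).mul cp)
  have iX : IntervalIntegrable (fun r => |X r| ^ (m₁ + 1) * |p r|) volume s s' :=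
    ii ((cX.abs.pow _).mul cp.abs)
  have iY : IntervalIntegrable (fun r => |Y r| * |p r|) volume s s' := ii (cY.abs.mul cp.abs)
  have iS : IntervalIntegrable (fun r => |Y r| ^ m₂ + |ϕ r|) volume s s' :=
    ii ((cY.abs.pow _).add cϕ.abs)
  have hid : (∫ r in s..s', En ϕ g v r) - m₁ * ∫ r in s..s', c₁ r * X r ^ m₁ * p r =
      ∫ r in s..s', (En ϕ g v r - m₁ * (c₁ r * X r ^ m₁ * p r) - (En ϕ g v r + X r * n r)) := by
    rw [intervalIntegral.integral_sub (i1.sub (i3.const_mul _)) (i1.add i2),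
      intervalIntegral.integral_sub i1 (i3.const_mul _), intervalIntegral.integral_const_mul, hpar, sub_zero]
  rw [hid]
  refine (intervalIntegral.abs_integral_le_integral_abs hs).trans ?_
  have hmono : ∫ r in s..s', |En ϕ g v r - m₁ * (c₁ r * X r ^ m₁ * p r) - (En ϕ g v r + X r * n r)| ≤
      ∫ r in s..s', (K * (|X r| ^ (m₁ + 1) * |p r|) + 2 * K ^ 2 * (|Y r| * |p r|) +
        K * Cs * (s' - s) * (|Y r| ^ m₂ + |ϕ r|)) := by
    refine intervalIntegral.integral_mono_on hs ((i1.sub (i3.const_mul _)).sub (i1.add i2)).abs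
      (((iX.const_mul _).add (iY.const_mul _)).add (iS.const_mul _)) (fun t ht => ?_)
    have hX0 := abs_nonneg (X t)
    have hY0 := abs_nonneg (Y t)
    have hp0 := abs_nonneg (p t)
    have hf0 := abs_nonneg (ϕ t)
    have hm : m₁ = (m₁ - 1) + 1 := by have := h.m1.pos; omega
    have hYm : 0 ≤ |Y t| ^ m₂ := by positivity
    have e1 : |X t * (n t + p t * b t)| ≤ K * Cs * (s' - s) * |ϕ t| := by
      rw [abs_mul]
      calc |X t| * |n t + p t * b t| ≤ (Cs * (s' - s)) * (K * |ϕ t|) :=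
            mul_le_mul (bX t ht) (h.nb t ht) (abs_nonneg _) (by positivity)
        _ = _ := by ring
    have e2 : |p t * (X t * (b t - m₁ * c₁ t * X t ^ (m₁ - 1)))| ≤
        K * (|X t| ^ (m₁ + 1) * |p t|) + 2 * K ^ 2 * (|Y t| * |p t|) := by
      rw [abs_mul, abs_mul]
      calc |p t| * (|X t| * |b t - m₁ * c₁ t * X t ^ (m₁ - 1)|)
          ≤ |p t| * (|X t| * (K * (|X t| ^ m₁ + |Y t|))) :=
            mul_le_mul_of_nonneg_left (mul_le_mul_of_nonneg_left (h.bb t ht) hX0) hp0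
        _ = K * (|X t| ^ (m₁ + 1) * |p t|) + K * (|Y t| * |p t|) * |X t| := by rw [pow_succ]; ring
        _ ≤ K * (|X t| ^ (m₁ + 1) * |p t|) + K * (|Y t| * |p t|) * (2 * K) := by
            have := mul_le_mul_of_nonneg_left (twoB_Xb h t ht).2 (by positivity : 0 ≤ K * (|Y t| * |p t|))
            linarith
        _ = _ := by ring
    have hXX : X t ^ m₁ = X t * X t ^ (m₁ - 1) := by
      conv_lhs => rw [hm]
      rw [pow_succ]; ring
    have hdec : En ϕ g v t - m₁ * (c₁ t * X t ^ m₁ * p t) - (En ϕ g v t + X t * n t) =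
        p t * (X t * (b t - m₁ * c₁ t * X t ^ (m₁ - 1))) - X t * (n t + p t * b t) := by
      rw [hXX]; ring
    rw [hdec]
    have t1 := abs_sub (p t * (X t * (b t - m₁ * c₁ t * X t ^ (m₁ - 1)))) (X t * (n t + p t * b t))
    have q2 : 0 ≤ K * Cs * (s' - s) * |Y t| ^ m₂ := by positivity
    have q3 : K * Cs * (s' - s) * (|Y t| ^ m₂ + |ϕ t|) = K * Cs * (s' - s) * |ϕ t| +
      K * Cs * (s' - s) * |Y t| ^ m₂ := by ring
    rw [q3]
    linarith
  refine hmono.trans ?_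
  rw [intervalIntegral.integral_add ((iX.const_mul _).add (iY.const_mul _)) (iS.const_mul _),
    intervalIntegral.integral_add (iX.const_mul _) (iY.const_mul _),
    intervalIntegral.integral_const_mul, intervalIntegral.integral_const_mul,
    intervalIntegral.integral_const_mul, ← hS]
  have f1 := mul_le_mul_of_nonneg_left hx hK0.le
  have f2 := mul_le_mul_of_nonneg_left hy (by positivity : 0 ≤ 2 * K ^ 2)
  calc _ ≤ K * (Cx * (s' - s) * S) + 2 * K ^ 2 * (Cy * (s' - s) * S) +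
        K * Cs * (s' - s) * S := by linarith
    _ = _ := by ring

end Pool.Agent.Lib.MP_28b8de_an.TT
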