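import Pool.Agent.Lib.MP_28b8de_an.T.TGTwoA

/-!
MP_28b8de_an, module TGTwoC.

The Hamiltonian identity of gap lemma 2 (see the description in module TGTwoB, two_h).
PROOF.  h := P DL + p DB + En.  P, DL, p, DB are Lipschitz on [s,s'] (P by Pl; the others as integrals of bounded integrable functions), so P DL + p DB is the integral of its a.e. derivative
P' DL + P (l (DB - η' DL) + ψL) + π DB + p (b g (u-v) + ψB); here |P' DL| ≤ K|DL| ≤ C|Y|^m₂, |(P l + π) DB| ≤ K (|p| + |ϕ|)|DB| ≤ C(|p||X|^m₁ + |p||Y| + |ϕ|), |P l η' DL| ≤ C|Y|^m₂ (l is bounded),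
|P ψL| ≤ C|Y|^m₂, |p ψB| ≤ C |p|(|X|^m₁ + |Y|).  rl_E: En(t) = ∫_s^t g(u-v) n + O(∫|ϕ|) = -∫_s^t g(u-v) p b + O(∫|ϕ|).  Sum: for all t
|h(t)| ≤ C ∫_s^t (|ϕ| + |Y|^m₂ + |p||X|^m₁ + |p||Y|)    (1).
Pointwise |h - (P c₂ Y^m₂ + c₁ X^m₁ p + En)| ≤ C(|Y|^(m₂+1) + |p||X|^(m₁+1) + |p||Y|)   (2), hence, for |X| small (|c₁| ≥ c, 0 ≤ En ≤ 2K|ϕ|):
|p||X|^m₁ ≤ C(|h| + |ϕ| + |Y|^m₂ + |p||Y|)   (3).
Integrate (1) over t ∈ [s,s'] and use (3): ∫|h| ≤ C δ ∫(|ϕ| + |Y|^m₂ + |h| + |p||Y|), so for small δ and by two_Yp: ∫|h| ≤ C δ S, S := ∫(|Y|^m₂ + |ϕ|).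
Integrate (2), with two_Yp, two_Xp, |Y| ≤ Cδ.
-/

set_option linter.unusedSectionVars false

namespace Pool.Agent.Lib.MP_28b8de_an.TT

open Filter Topology Set MeasureTheory
open Pool.Agent.Lib.MP_28b8de_an.PT (Adm Perf gron gron_back volterra kder ae_zero perf_inner stay)

private theorem twoC_prim_mul {x y X Y : ℝ → ℝ} {s s' : ℝ} (hs : s ≤ s')
    (hx : IntervalIntegrable x volume s s') (hy : IntervalIntegrable y volume s s')
    (hX : ∀ t ∈ Icc s s', X t = ∫ r in s..t, x r) (hY : ∀ t ∈ Icc s s', Y t = ∫ r in s..t, y r) :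
    ∫ r in s..s', (x r * Y r + X r * y r) = X s' * Y s' := by
  have h1 := hx.absolutelyContinuousOnInterval_intervalIntegral (c := s) (by simp)
  have h2 := hy.absolutelyContinuousOnInterval_intervalIntegral (c := s) (by simp)
  have h3 := h1.integral_deriv_mul_eq_sub h2
  have hs' : s' ∈ Icc s s' := right_mem_Icc.2 hs
  rw [hX s' hs', hY s' hs']
  simp only [intervalIntegral.integral_same, mul_zero, sub_zero] at h3
  rw [← h3]
  refine intervalIntegral.integral_congr_ae ?_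
  filter_upwards [hx.ae_hasDerivAt_integral, hy.ae_hasDerivAt_integral] with t ht1 ht2 ht
  have ht' : t ∈ uIcc s s' := uIoc_subset_uIcc ht
  have ht'' : t ∈ Icc s s' := by rwa [uIcc_of_le hs] at ht'
  have e1 := (ht1 ht' s (by simp)).deriv
  have e2 := (ht2 ht' s (by simp)).deriv
  rw [e1, e2, hX t ht'', hY t ht'']

private theorem twoC_lip_mul {K : ℝ} {P f F : ℝ → ℝ} {s s' : ℝ} (hK : 0 ≤ K)
    (hP : ∀ t ∈ Icc s s', ∀ r ∈ Icc s s', |P t - P r| ≤ K * |t - r|)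
    (hf : IntervalIntegrable f volume s s') (hF : ∀ t ∈ Icc s s', F t = ∫ r in s..t, f r)
    (hFc : ContinuousOn F (Icc s s')) :
    ∀ t ∈ Icc s s', |P t * F t - ∫ r in s..t, P r * f r| ≤ K * ∫ r in s..t, |F r| := by
  intro t ht
  have hst : s ≤ t := ht.1
  have hu : uIcc s t = Icc s t := uIcc_of_le hst
  have hsub : Icc s t ⊆ Icc s s' := Icc_subset_Icc_right ht.2
  have hlip : LipschitzOnWith ⟨K, hK⟩ P (Icc s t) :=
    LipschitzOnWith.of_dist_le_mul (fun x hx y hy => by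
      rw [Real.dist_eq, Real.dist_eq]; exact hP x (hsub hx) y (hsub hy))
  have hft : IntervalIntegrable f volume s t := hf.mono_set (by
    rw [hu, uIcc_of_le (hst.trans ht.2)]; exact hsub)
  have h1 : AbsolutelyContinuousOnInterval P s t := LipschitzOnWith.absolutelyContinuousOnInterval
    (K := ⟨K, hK⟩) (by rw [hu]; exact hlip)
  have h2 := hft.absolutelyContinuousOnInterval_intervalIntegral (c := s) (by simp)
  have h3 := h1.integral_mul_deriv_eq_deriv_mul h2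
  simp only [intervalIntegral.integral_same, mul_zero, sub_zero] at h3
  have h4 : ∫ r in s..t, P r * deriv (fun x => ∫ v in s..x, f v) r = ∫ r in s..t, P r * f r := by
    refine intervalIntegral.integral_congr_ae ?_
    filter_upwards [hft.ae_hasDerivAt_integral] with r hr1 hr
    have hr' : r ∈ uIcc s t := uIoc_subset_uIcc hr
    rw [(hr1 hr' s (by simp)).deriv]
  rw [h4, ← hF t ht] at h3
  rw [h3, sub_sub_cancel, ← Real.norm_eq_abs, ← intervalIntegral.integral_const_mul]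
  refine intervalIntegral.norm_integral_le_of_norm_le hst ?_ ?_
  · have hne : ∀ᵐ r : ℝ, r ≠ t := by simp [ae_iff, measure_singleton]
    filter_upwards [hne] with r hrt hr
    have hr2 : r < t := lt_of_le_of_ne hr.2 hrt
    have hd : ‖deriv P r‖ ≤ (⟨K, hK⟩ : NNReal) :=
      norm_deriv_le_of_lipschitzOn (Icc_mem_nhds hr.1 hr2) hlip
    rw [norm_mul]
    have h5 : ‖∫ v in s..r, f v‖ = |F r| := by
      rw [hF r ⟨hr.1.le, hr.2.trans ht.2⟩, Real.norm_eq_abs]
    rw [h5]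
    exact mul_le_mul_of_nonneg_right hd (abs_nonneg _)
  · exact ContinuousOn.intervalIntegrable (by rw [hu]; exact continuousOn_const.mul (hFc.mono hsub).abs)

section factsC

variable {K c : ℝ} {m₁ m₂ : ℕ} {s s' : ℝ} {X ϕ u g v n Y p P DB DL b l c₁ c₂ ψB ψL η' π : ℝ → ℝ}

private theorem twoC_ucc (h : G2 K c m₁ m₂ s s' X ϕ u g v n Y p P DB DL b l c₁ c₂ ψB ψL η' π) :
    ContinuousOn g (Icc s s') ∧ ContinuousOn v (Icc s s') := by
  have hK : 0 ≤ K := by linarith [h.rl.hK]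
  constructor
  · have : LipschitzOnWith ⟨K, hK⟩ g (Icc s s') :=
      LipschitzOnWith.of_dist_le_mul (fun x hx y hy => by
        rw [Real.dist_eq, Real.dist_eq]; exact h.rl.gl x hx y hy)
    exact this.continuousOn
  · have : LipschitzOnWith ⟨K, hK⟩ v (Icc s s') :=
      LipschitzOnWith.of_dist_le_mul (fun x hx y hy => by
        rw [Real.dist_eq, Real.dist_eq]; exact h.rl.vl x hx y hy)
    exact this.continuousOn

private theorem twoC_ui (h : G2 K c m₁ m₂ s s' X ϕ u g v n Y p P DB DL b l c₁ c₂ ψB ψL η' π) :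
    IntervalIntegrable u volume s s' := by
  rw [intervalIntegrable_iff_integrableOn_Ioc_of_le h.rl.hs.le]
  refine Measure.integrableOn_of_bounded (M := 1) (by simp) h.rl.adm.1.aestronglyMeasurable ?_
  exact Filter.Eventually.of_forall (fun t => by rw [Real.norm_eq_abs]; exact h.rl.adm.2 t)

private theorem twoC_gi (h : G2 K c m₁ m₂ s s' X ϕ u g v n Y p P DB DL b l c₁ c₂ ψB ψL η' π) :
    IntervalIntegrable (fun r => g r * (u r - v r)) volume s s' := by
  obtain ⟨hg, hv⟩ := twoC_ucc h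
  have hs := h.rl.hs.le
  rw [← uIcc_of_le hs] at hg hv
  exact ((twoC_ui h).sub hv.intervalIntegrable).continuousOn_mul hg

private theorem twoC_gb (h : G2 K c m₁ m₂ s s' X ϕ u g v n Y p P DB DL b l c₁ c₂ ψB ψL η' π) :
    ∀ t ∈ Icc s s', |g t * (u t - v t)| ≤ 2 * K := by
  intro t ht
  have hK : 0 ≤ K := by linarith [h.rl.hK]
  rw [abs_mul]
  have h1 := h.rl.g1 t ht
  have h2 : |u t - v t| ≤ 2 := by
    have h3 := h.rl.adm.2 t
    have h4 := h.rl.v1 t ht
    have h5 := h.rl.hc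
    have h6 := abs_sub (u t) (v t)
    linarith
  calc |g t| * |u t - v t| ≤ K * 2 := mul_le_mul h1 h2 (abs_nonneg _) hK
    _ = 2 * K := by ring

private theorem twoC_Xb (h : G2 K c m₁ m₂ s s' X ϕ u g v n Y p P DB DL b l c₁ c₂ ψB ψL η' π) :
    ∀ t ∈ Icc s s', |X t| ≤ 2 * K * (s' - s) ∧ |X t| ≤ 2 * K := by
  intro t ht
  have hK : 0 ≤ K := by linarith [h.rl.hK]
  have h1 := rl_Xb h.rl t ht
  have h2 := h.rl.hs1
  constructor
  · exact h1.trans (mul_le_mul_of_nonneg_left (by linarith [ht.2]) (by positivity))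
  · exact h1.trans ((mul_le_mul_of_nonneg_left (by linarith [ht.2] : t - s ≤ 1) (by positivity)).trans
      (by linarith))

private theorem twoC_DLb (h : G2 K c m₁ m₂ s s' X ϕ u g v n Y p P DB DL b l c₁ c₂ ψB ψL η' π) :
    ∀ t ∈ Icc s s', |DL t| ≤ 2 * K * |Y t| ^ m₂ := by
  intro t ht
  have hK : 0 ≤ K := by linarith [h.rl.hK]
  have h1 := h.DLb t ht
  have h2 := h.c₂1 t ht
  have h3 := h.Yb t ht
  have h4 : |Y t| ^ (m₂ + 1) ≤ |Y t| ^ m₂ := pow_le_pow_of_le_one (abs_nonneg _) h3 (Nat.le_succ _)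
  have h5 : |c₂ t * Y t ^ m₂| ≤ K * |Y t| ^ m₂ := by
    rw [abs_mul, abs_pow]
    exact mul_le_mul_of_nonneg_right h2 (by positivity)
  have h6 : |DL t| ≤ |DL t - c₂ t * Y t ^ m₂| + |c₂ t * Y t ^ m₂| := by
    have := abs_add_le (DL t - c₂ t * Y t ^ m₂) (c₂ t * Y t ^ m₂)
    simpa using this
  have h7 : K * |Y t| ^ (m₂ + 1) ≤ K * |Y t| ^ m₂ := mul_le_mul_of_nonneg_left h4 hK
  linarith

private theorem twoC_DBb (h : G2 K c m₁ m₂ s s' X ϕ u g v n Y p P DB DL b l c₁ c₂ ψB ψL η' π) :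
    ∀ t ∈ Icc s s', |DB t| ≤ 3 * K ^ 2 * (|X t| ^ m₁ + |Y t|) := by
  intro t ht
  have hK1 := h.rl.hK
  have hK : 0 ≤ K := by linarith
  have h1 := h.DBb t ht
  have h2 := h.c₁1 t ht
  have h3 := (twoC_Xb h t ht).2
  have h4 : |X t| ^ (m₁ + 1) ≤ 2 * K * |X t| ^ m₁ := by
    rw [pow_succ, mul_comm]
    exact mul_le_mul_of_nonneg_right h3 (by positivity)
  have h5 : |c₁ t * X t ^ m₁| ≤ K * |X t| ^ m₁ := by
    rw [abs_mul, abs_pow]
    exact mul_le_mul_of_nonneg_right h2 (by positivity)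
  have h6 : |DB t| ≤ |DB t - c₁ t * X t ^ m₁| + |c₁ t * X t ^ m₁| := by
    have := abs_add_le (DB t - c₁ t * X t ^ m₁) (c₁ t * X t ^ m₁)
    simpa using this
  have h7 : K * (|X t| ^ (m₁ + 1) + |Y t|) ≤ K * (2 * K * |X t| ^ m₁ + |Y t|) :=
    mul_le_mul_of_nonneg_left (by linarith) hK
  have h8 : 0 ≤ |X t| ^ m₁ := by positivity
  have h9 : K ≤ K ^ 2 := by nlinarith
  have h10 : 0 ≤ |Y t| := abs_nonneg _
  have h11 : K * |X t| ^ m₁ ≤ K ^ 2 * |X t| ^ m₁ := mul_le_mul_of_nonneg_right h9 h8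
  have h12 : K * |Y t| ≤ K ^ 2 * |Y t| := mul_le_mul_of_nonneg_right h9 h10
  have h13 : 0 ≤ K ^ 2 * |Y t| := by positivity
  nlinarith

private theorem twoC_lb (h : G2 K c m₁ m₂ s s' X ϕ u g v n Y p P DB DL b l c₁ c₂ ψB ψL η' π) :
    ∀ t ∈ Icc s s', |l t| ≤ (m₂ + 1) * K := by
  intro t ht
  have hK : 0 ≤ K := by linarith [h.rl.hK]
  have e3 := h.lb t ht
  have e4 := h.c₂1 t ht
  have e5 := h.Yb t ht
  have e6 : |Y t| ^ m₂ ≤ 1 := pow_le_one₀ (abs_nonneg _) e5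
  have e7 : |Y t| ^ (m₂ - 1) ≤ 1 := pow_le_one₀ (abs_nonneg _) e5
  have e8 : |(m₂ : ℝ) * c₂ t * Y t ^ (m₂ - 1)| ≤ m₂ * K * 1 := by
    rw [abs_mul, abs_mul, abs_pow, Nat.abs_cast]
    exact mul_le_mul (mul_le_mul_of_nonneg_left e4 (Nat.cast_nonneg _)) e7 (by positivity) (by positivity)
  have := abs_add_le (l t - m₂ * c₂ t * Y t ^ (m₂ - 1)) (m₂ * c₂ t * Y t ^ (m₂ - 1))
  rw [sub_add_cancel] at this
  have e9 : K * |Y t| ^ m₂ ≤ K * 1 := mul_le_mul_of_nonneg_left e6 hK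
  linarith

/-- the pointwise bound of the derivative of the Hamiltonian -/
private theorem twoC_der (h : G2 K c m₁ m₂ s s' X ϕ u g v n Y p P DB DL b l c₁ c₂ ψB ψL η' π)
    {t : ℝ} (ht : t ∈ Icc s s') :
    |P t * (l t * (DB t - η' t * DL t) + ψL t) + (π t * DB t + p t * (b t * (g t * (u t - v t)) + ψB t)) +
      g t * (u t - v t) * n t| ≤
      (3 * K ^ 3 * ((2 * K) ^ m₁ + 1) + 2 * (m₂ + 1) * K ^ 4 + 4 * K ^ 3) *
        (|Y t| ^ m₂ + |ϕ t| + |X t| ^ m₁ * |p t| + |Y t| * |p t|) := by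
  have hK1 := h.rl.hK
  have hK : 0 ≤ K := by linarith
  have hY0 := abs_nonneg (Y t)
  have hp0 := abs_nonneg (p t)
  have hf0 := abs_nonneg (ϕ t)
  have hX0 := abs_nonneg (X t)
  have hYm : 0 ≤ |Y t| ^ m₂ := by positivity
  have hXm : 0 ≤ |X t| ^ m₁ := by positivity
  have hYb := h.Yb t ht
  have hXle : |X t| ^ m₁ ≤ (2 * K) ^ m₁ := pow_le_pow_left₀ hX0 (twoC_Xb h t ht).2 _
  have hK2 : K ≤ K ^ 3 := by nlinarith [sq_nonneg K, mul_nonneg hK hK]
  have hK23 : K ^ 2 ≤ K ^ 3 := by nlinarith [sq_nonneg K]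
  have e1 : |(P t * l t + π t) * DB t| ≤ 3 * K ^ 3 * (|X t| ^ m₁ * |p t| + |Y t| * |p t|) +
      3 * K ^ 3 * ((2 * K) ^ m₁ + 1) * |ϕ t| := by
    rw [abs_mul, add_comm (P t * l t)]
    calc |π t + P t * l t| * |DB t| ≤ (K * (|p t| + |ϕ t|)) * (3 * K ^ 2 * (|X t| ^ m₁ + |Y t|)) :=
          mul_le_mul (h.πb t ht) (twoC_DBb h t ht) (abs_nonneg _) (by positivity)
      _ = 3 * K ^ 3 * (|X t| ^ m₁ * |p t| + |Y t| * |p t|) +
          3 * K ^ 3 * |ϕ t| * (|X t| ^ m₁ + |Y t|) := by ring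
      _ ≤ 3 * K ^ 3 * (|X t| ^ m₁ * |p t| + |Y t| * |p t|) +
          3 * K ^ 3 * |ϕ t| * ((2 * K) ^ m₁ + 1) := by
          have := mul_le_mul_of_nonneg_left (add_le_add hXle hYb) (by positivity : 0 ≤ 3 * K ^ 3 * |ϕ t|)
          linarith
      _ = _ := by ring
  have e2 : |P t * l t * (η' t * DL t)| ≤ 2 * (m₂ + 1) * K ^ 4 * |Y t| ^ m₂ := by
    rw [abs_mul, abs_mul, abs_mul]
    calc |P t| * |l t| * (|η' t| * |DL t|) ≤ (K * ((m₂ + 1) * K)) * (K * (2 * K * |Y t| ^ m₂)) :=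
          mul_le_mul (mul_le_mul (h.P1 t ht) (twoC_lb h t ht) (abs_nonneg _) hK)
            (mul_le_mul (h.η1 t ht) (twoC_DLb h t ht) (abs_nonneg _) hK) (by positivity) (by positivity)
      _ = _ := by ring
  have e3 : |P t * ψL t| ≤ K ^ 2 * |Y t| ^ m₂ := by
    rw [abs_mul]
    calc |P t| * |ψL t| ≤ K * (K * |Y t| ^ m₂) := mul_le_mul (h.P1 t ht) (h.ψLb t ht) (abs_nonneg _) hK
      _ = _ := by ring
  have e4 : |p t * ψB t| ≤ K * (|X t| ^ m₁ * |p t| + |Y t| * |p t|) := by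
    rw [abs_mul]
    calc |p t| * |ψB t| ≤ |p t| * (K * (|X t| ^ m₁ + |Y t|)) :=
          mul_le_mul_of_nonneg_left (h.ψBb t ht) hp0
      _ = _ := by ring
  have e5 : |g t * (u t - v t) * (n t + p t * b t)| ≤ 2 * K ^ 2 * |ϕ t| := by
    rw [abs_mul]
    calc |g t * (u t - v t)| * |n t + p t * b t| ≤ (2 * K) * (K * |ϕ t|) :=
          mul_le_mul (twoC_gb h t ht) (h.nb t ht) (abs_nonneg _) (by positivity)
      _ = _ := by ring
  have hdec : P t * (l t * (DB t - η' t * DL t) + ψL t) +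
      (π t * DB t + p t * (b t * (g t * (u t - v t)) + ψB t)) + g t * (u t - v t) * n t =
      (P t * l t + π t) * DB t - P t * l t * (η' t * DL t) + P t * ψL t + p t * ψB t +
        g t * (u t - v t) * (n t + p t * b t) := by ring
  rw [hdec]
  have t1 := abs_add_le ((P t * l t + π t) * DB t - P t * l t * (η' t * DL t) + P t * ψL t + p t * ψB t)
    (g t * (u t - v t) * (n t + p t * b t))
  have t2 := abs_add_le ((P t * l t + π t) * DB t - P t * l t * (η' t * DL t) + P t * ψL t) (p t * ψB t)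
  have t3 := abs_add_le ((P t * l t + π t) * DB t - P t * l t * (η' t * DL t)) (P t * ψL t)
  have t4 := abs_sub ((P t * l t + π t) * DB t) (P t * l t * (η' t * DL t))
  set a := |X t| ^ m₁ * |p t| + |Y t| * |p t| with ha
  have ha0 : 0 ≤ a := by positivity
  have hm0 : (0 : ℝ) ≤ (2 * K) ^ m₁ := by positivity
  have r1 : K * a ≤ K ^ 3 * a := mul_le_mul_of_nonneg_right hK2 ha0
  have r2 : K ^ 2 * |Y t| ^ m₂ ≤ K ^ 3 * |Y t| ^ m₂ := mul_le_mul_of_nonneg_right hK23 hYm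
  have r3 : K ^ 2 * |ϕ t| ≤ K ^ 3 * |ϕ t| := mul_le_mul_of_nonneg_right hK23 hf0
  have q0 : |Y t| ^ m₂ + |ϕ t| + |X t| ^ m₁ * |p t| + |Y t| * |p t| = |Y t| ^ m₂ + |ϕ t| + a := by
    rw [ha]; ring
  rw [q0]
  have q1 : (3 * K ^ 3 * ((2 * K) ^ m₁ + 1) + 2 * (m₂ + 1) * K ^ 4 + 4 * K ^ 3) *
      (|Y t| ^ m₂ + |ϕ t| + a) =
      3 * K ^ 3 * ((2 * K) ^ m₁ + 1) * |ϕ t| + 2 * (m₂ + 1) * K ^ 4 * |Y t| ^ m₂ +
      4 * K ^ 3 * |Y t| ^ m₂ + 4 * K ^ 3 * |ϕ t| + 4 * K ^ 3 * a +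
      (3 * K ^ 3 * ((2 * K) ^ m₁ + 1) * (|Y t| ^ m₂ + a) + 2 * (m₂ + 1) * K ^ 4 * (|ϕ t| + a)) := by ring
  rw [q1]
  have z1 : 0 ≤ 3 * K ^ 3 * ((2 * K) ^ m₁ + 1) * (|Y t| ^ m₂ + a) := by positivity
  have z2 : 0 ≤ 2 * ((m₂ : ℝ) + 1) * K ^ 4 * (|ϕ t| + a) := by positivity
  have z3 : 0 ≤ K ^ 3 * |Y t| ^ m₂ := by positivity
  have z4 : 0 ≤ K ^ 3 * |ϕ t| := by positivity
  have z5 : 0 ≤ K ^ 3 * a := by positivity
  linarith

end factsC

theorem two_h {K c : ℝ} (hK : 1 ≤ K) (hc : 0 < c) (m₁ m₂ : ℕ) :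
    ∃ C δ : ℝ, 1 ≤ C ∧ 0 < δ ∧ ∀ (s s' : ℝ) (X ϕ u g v n Y p P DB DL b l c₁ c₂ ψB ψL η' π : ℝ → ℝ),
      s' - s ≤ δ → G2 K c m₁ m₂ s s' X ϕ u g v n Y p P DB DL b l c₁ c₂ ψB ψL η' π →
      |(∫ r in s..s', P r * c₂ r * Y r ^ m₂) + (∫ r in s..s', c₁ r * X r ^ m₁ * p r)
          + ∫ r in s..s', En ϕ g v r|
        ≤ C * (s' - s) * ∫ r in s..s', (|Y r| ^ m₂ + |ϕ r|) := by
  obtain ⟨Cs, δs, hCs, hδs, hsm⟩ := two_small hK hc m₁ m₂
  obtain ⟨Cy, δy, hCy, hδy, hYp⟩ := two_Yp hK hc m₁ m₂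
  obtain ⟨Cx, δx, hCx, hδx, hXp⟩ := two_Xp hK hc m₁ m₂
  have hK0 : 0 < K := by linarith
  set C0 : ℝ := 3 * K ^ 3 * ((2 * K) ^ m₁ + 1) + 2 * (m₂ + 1) * K ^ 4 + 4 * K ^ 3 with hC0
  have hC0' : 0 < C0 := by positivity
  set C1 : ℝ := C0 + 5 * K ^ 2 with hC1
  have hC1' : 0 < C1 := by positivity
  set C2 : ℝ := 2 * C1 * (1 + 2 / c * (2 * K ^ 2 + 2 * K + K * Cy) + Cy) with hC2
  have hC2' : 0 < C2 := by positivity
  refine ⟨C2 + K ^ 2 * Cs + K * Cx + K * Cy, min (min δs (min δy δx)) (min (c / (4 * K ^ 2)) (c / (4 * C1))),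
    ?_, lt_min (lt_min hδs (lt_min hδy hδx)) (lt_min (by positivity) (by positivity)), ?_⟩
  · have h2 : 0 ≤ K ^ 2 * Cs := by positivity
    have h3 : 0 ≤ K * Cy := by positivity
    nlinarith
  intro s s' X ϕ u g v n Y p P DB DL b l c₁ c₂ ψB ψL η' π hδ h
  have hδ1 : s' - s ≤ δs := hδ.trans ((min_le_left _ _).trans (min_le_left _ _))
  have hδ2 : s' - s ≤ δy := hδ.trans ((min_le_left _ _).trans ((min_le_right _ _).trans (min_le_left _ _)))
  have hδ3 : s' - s ≤ δx := hδ.trans ((min_le_left _ _).trans ((min_le_right _ _).trans (min_le_right _ _)))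
  have hδ4 : s' - s ≤ c / (4 * K ^ 2) := hδ.trans ((min_le_right _ _).trans (min_le_left _ _))
  have hδ5 : s' - s ≤ c / (4 * C1) := hδ.trans ((min_le_right _ _).trans (min_le_right _ _))
  obtain ⟨cY, cB, cL, bX, bY, -, -⟩ := hsm s s' X ϕ u g v n Y p P DB DL b l c₁ c₂ ψB ψL η' π hδ1 h
  have hy := hYp s s' X ϕ u g v n Y p P DB DL b l c₁ c₂ ψB ψL η' π hδ2 h
  have hx := hXp s s' X ϕ u g v n Y p P DB DL b l c₁ c₂ ψB ψL η' π hδ3 h
  have hs := h.rl.hs.le
  have hd0 : 0 ≤ s' - s := by linarith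
  have hd1 := h.rl.hs1
  have huI : uIcc s s' = Icc s s' := uIcc_of_le hs
  have cX := h.rl.Xc
  have cϕ := h.rl.ϕc
  have cp := h.pc
  have cP : ContinuousOn P (Icc s s') := by
    have : LipschitzOnWith ⟨K, hK0.le⟩ P (Icc s s') :=
      LipschitzOnWith.of_dist_le_mul (fun x hx y hy => by
        rw [Real.dist_eq, Real.dist_eq]; exact h.Pl x hx y hy)
    exact this.continuousOn
  have cE := rl_En_cont h.rl
  set S := ∫ r in s..s', (|Y r| ^ m₂ + |ϕ r|) with hS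
  have ii : ∀ {f : ℝ → ℝ}, ContinuousOn f (Icc s s') → IntervalIntegrable f volume s s' :=
    fun hf => ContinuousOn.intervalIntegrable (by rw [huI]; exact hf)
  have iit : ∀ {f : ℝ → ℝ} {t : ℝ}, t ∈ Icc s s' → IntervalIntegrable f volume s s' →
      IntervalIntegrable f volume s t := fun {f t} ht hf => hf.mono_set (by
        rw [huI, uIcc_of_le ht.1]; exact Icc_subset_Icc_right ht.2)
  have iX : IntervalIntegrable (fun r => |X r| ^ (m₁ + 1) * |p r|) volume s s' :=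
    ii ((cX.abs.pow _).mul cp.abs)
  have iY : IntervalIntegrable (fun r => |Y r| * |p r|) volume s s' := ii (cY.abs.mul cp.abs)
  have iS : IntervalIntegrable (fun r => |Y r| ^ m₂ + |ϕ r|) volume s s' :=
    ii ((cY.abs.pow _).add cϕ.abs)
  have cw : ContinuousOn (fun r => |Y r| ^ m₂ + |ϕ r| + |X r| ^ m₁ * |p r| + |Y r| * |p r|) (Icc s s') :=
    (((cY.abs.pow _).add cϕ.abs).add ((cX.abs.pow _).mul cp.abs)).add (cY.abs.mul cp.abs)
  have iE1 : IntervalIntegrable (fun r => |X r| ^ m₁ * |p r|) volume s s' :=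
    ii ((cX.abs.pow _).mul cp.abs)
  set Q := ∫ r in s..s', (|Y r| ^ m₂ + |ϕ r| + |X r| ^ m₁ * |p r| + |Y r| * |p r|) with hQ
  -- integrability of the derivatives
  have iD : ContinuousOn (fun r => DB r - η' r * DL r) (Icc s s') := cB.sub (h.ηc.mul cL)
  have idl : IntervalIntegrable (fun r => l r * (DB r - η' r * DL r) + ψL r) volume s s' :=
    (ii (h.lc.mul iD)).add h.ψLi
  have idb : IntervalIntegrable (fun r => b r * (g r * (u r - v r)) + ψB r) volume s s' :=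
    ((twoC_gi h).continuousOn_mul (by rw [huI]; exact h.bc)).add h.ψBi
  have iPdl : IntervalIntegrable (fun r => P r * (l r * (DB r - η' r * DL r) + ψL r)) volume s s' :=
    idl.continuousOn_mul (by rw [huI]; exact cP)
  have ipB : IntervalIntegrable (fun r => π r * DB r + p r * (b r * (g r * (u r - v r)) + ψB r))
      volume s s' :=
    (h.πi.mul_continuousOn (by rw [huI]; exact cB)).add (idb.continuousOn_mul (by rw [huI]; exact cp))
  have ign : IntervalIntegrable (fun r => g r * (u r - v r) * n r) volume s s' := by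
    have hgi := twoC_gi h
    rw [intervalIntegrable_iff_integrableOn_Ioc_of_le hs] at hgi ⊢
    have hn := h.rl.ni
    rw [intervalIntegrable_iff_integrableOn_Ioc_of_le hs] at hn
    refine hgi.mul_bdd (c := K) hn.aestronglyMeasurable ?_
    filter_upwards [ae_restrict_mem measurableSet_Ioc] with r hr
    rw [Real.norm_eq_abs]
    exact h.rl.nb r ⟨hr.1.le, hr.2⟩
  -- (1)
  have h1 : ∀ t ∈ Icc s s', |P t * DL t + p t * DB t + En ϕ g v t| ≤ C1 * Q := by
    intro t ht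
    have hst : s ≤ t := ht.1
    have hsub : Icc s t ⊆ Icc s s' := Icc_subset_Icc_right ht.2
    have a1 := twoC_lip_mul hK0.le h.Pl idl h.DLeq cL t ht
    have a2 := twoC_prim_mul hst (iit ht h.πi) (iit ht idb) (fun r hr => h.peq r (hsub hr))
      (fun r hr => h.DBeq r (hsub hr))
    have a3 := rl_E h.rl t ht
    have a4 : ∫ r in s..t, |DL r| ≤ ∫ r in s..t, 2 * K * |Y r| ^ m₂ := by
      refine intervalIntegral.integral_mono_on hst (iit ht (ii cL.abs))
        (iit ht (ii (continuousOn_const.mul (cY.abs.pow _)))) (fun r hr => twoC_DLb h r (hsub hr))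
    have a5 : |(∫ r in s..t, P r * (l r * (DB r - η' r * DL r) + ψL r)) +
        (∫ r in s..t, (π r * DB r + p r * (b r * (g r * (u r - v r)) + ψB r))) +
        ∫ r in s..t, g r * (u r - v r) * n r| ≤
        ∫ r in s..t, C0 * (|Y r| ^ m₂ + |ϕ r| + |X r| ^ m₁ * |p r| + |Y r| * |p r|) := by
      rw [← intervalIntegral.integral_add (iit ht iPdl) (iit ht ipB),
        ← intervalIntegral.integral_add ((iit ht iPdl).add (iit ht ipB)) (iit ht ign)]
      refine (intervalIntegral.abs_integral_le_integral_abs hst).trans ?_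
      refine intervalIntegral.integral_mono_on hst
        (((iit ht iPdl).add (iit ht ipB)).add (iit ht ign)).abs
        ((iit ht (ii cw)).const_mul _) (fun r hr => ?_)
      exact twoC_der h (hsub hr)
    rw [intervalIntegral.integral_const_mul] at a4 a5
    have a6 : ∫ r in s..t, |Y r| ^ m₂ ≤
        ∫ r in s..t, (|Y r| ^ m₂ + |ϕ r| + |X r| ^ m₁ * |p r| + |Y r| * |p r|) := by
      refine intervalIntegral.integral_mono_on hst (iit ht (ii (cY.abs.pow _))) (iit ht (ii cw))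
        (fun r hr => ?_)
      have z1 := abs_nonneg (ϕ r)
      have z2 : 0 ≤ |X r| ^ m₁ * |p r| := by positivity
      have z3 : 0 ≤ |Y r| * |p r| := by positivity
      linarith
    have a7 : ∫ r in s..t, |ϕ r| ≤
        ∫ r in s..t, (|Y r| ^ m₂ + |ϕ r| + |X r| ^ m₁ * |p r| + |Y r| * |p r|) := by
      refine intervalIntegral.integral_mono_on hst (iit ht (ii cϕ.abs)) (iit ht (ii cw))
        (fun r hr => ?_)
      have z1 : 0 ≤ |Y r| ^ m₂ := by positivity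
      have z2 : 0 ≤ |X r| ^ m₁ * |p r| := by positivity
      have z3 : 0 ≤ |Y r| * |p r| := by positivity
      linarith
    have a8 : ∫ r in s..t, (|Y r| ^ m₂ + |ϕ r| + |X r| ^ m₁ * |p r| + |Y r| * |p r|) ≤ Q := by
      rw [hQ]
      refine intervalIntegral.integral_mono_interval le_rfl hst ht.2 ?_ (ii cw)
      exact Filter.Eventually.of_forall (fun r => by positivity)
    set q := ∫ r in s..t, (|Y r| ^ m₂ + |ϕ r| + |X r| ^ m₁ * |p r| + |Y r| * |p r|) with hq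
    set I1 := ∫ r in s..t, P r * (l r * (DB r - η' r * DL r) + ψL r) with hI1
    set I2 := ∫ r in s..t, (π r * DB r + p r * (b r * (g r * (u r - v r)) + ψB r)) with hI2
    set I3 := ∫ r in s..t, g r * (u r - v r) * n r with hI3
    have b1 : |P t * DL t + p t * DB t + En ϕ g v t| ≤
        |P t * DL t - I1| + |En ϕ g v t - I3| + |I1 + I2 + I3| := by
      have e0 : P t * DL t + p t * DB t + En ϕ g v t =
          (P t * DL t - I1) + (En ϕ g v t - I3) + (I1 + I2 + I3) := by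
        rw [a2]; ring
      rw [e0]
      exact (abs_add_le _ _).trans (add_le_add (abs_add_le _ _) le_rfl)
    have b2 : K * ∫ r in s..t, |DL r| ≤ K * (2 * K * q) :=
      mul_le_mul_of_nonneg_left (a4.trans (mul_le_mul_of_nonneg_left a6 (by positivity))) hK0.le
    have b3 : 3 * K ^ 2 * ∫ r in s..t, |ϕ r| ≤ 3 * K ^ 2 * q :=
      mul_le_mul_of_nonneg_left a7 (by positivity)
    have b4 : |P t * DL t + p t * DB t + En ϕ g v t| ≤ C1 * q := by
      rw [hC1]
      have : (C0 + 5 * K ^ 2) * q = K * (2 * K * q) + 3 * K ^ 2 * q + C0 * q := by ring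
      rw [this]
      linarith
    exact b4.trans (mul_le_mul_of_nonneg_left a8 hC1'.le)
  -- pointwise
  have ch : ContinuousOn (fun t => P t * DL t + p t * DB t + En ϕ g v t) (Icc s s') :=
    ((cP.mul cL).add (cp.mul cB)).add cE
  have h2 : ∀ t ∈ Icc s s', |P t * c₂ t * Y t ^ m₂ + c₁ t * X t ^ m₁ * p t + En ϕ g v t| ≤
      |P t * DL t + p t * DB t + En ϕ g v t| + K ^ 2 * |Y t| ^ (m₂ + 1) +
        (K * (|X t| ^ (m₁ + 1) * |p t|) + K * (|Y t| * |p t|)) := by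
    intro t ht
    have e1 : |P t * (c₂ t * Y t ^ m₂ - DL t)| ≤ K ^ 2 * |Y t| ^ (m₂ + 1) := by
      rw [abs_mul, abs_sub_comm]
      calc |P t| * |DL t - c₂ t * Y t ^ m₂| ≤ K * (K * |Y t| ^ (m₂ + 1)) :=
            mul_le_mul (h.P1 t ht) (h.DLb t ht) (abs_nonneg _) hK0.le
        _ = _ := by ring
    have e2 : |p t * (c₁ t * X t ^ m₁ - DB t)| ≤ K * (|X t| ^ (m₁ + 1) * |p t|) + K * (|Y t| * |p t|) := by
      rw [abs_mul, abs_sub_comm]
      calc |p t| * |DB t - c₁ t * X t ^ m₁| ≤ |p t| * (K * (|X t| ^ (m₁ + 1) + |Y t|)) :=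
            mul_le_mul_of_nonneg_left (h.DBb t ht) (abs_nonneg _)
        _ = _ := by ring
    have e0 : P t * c₂ t * Y t ^ m₂ + c₁ t * X t ^ m₁ * p t + En ϕ g v t =
        (P t * DL t + p t * DB t + En ϕ g v t) + P t * (c₂ t * Y t ^ m₂ - DL t) +
          p t * (c₁ t * X t ^ m₁ - DB t) := by ring
    rw [e0]
    have t1 := abs_add_le ((P t * DL t + p t * DB t + En ϕ g v t) + P t * (c₂ t * Y t ^ m₂ - DL t))
      (p t * (c₁ t * X t ^ m₁ - DB t))
    have t2 := abs_add_le (P t * DL t + p t * DB t + En ϕ g v t) (P t * (c₂ t * Y t ^ m₂ - DL t))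
    linarith
  have h3 : ∀ t ∈ Icc s s', c / 2 * (|X t| ^ m₁ * |p t|) ≤
      |P t * DL t + p t * DB t + En ϕ g v t| + (2 * K ^ 2 + 2 * K) * (|Y t| ^ m₂ + |ϕ t|) +
        K * (|Y t| * |p t|) := by
    intro t ht
    have e1 := h2 t ht
    have hX0 := abs_nonneg (X t)
    have hp0 := abs_nonneg (p t)
    have hf0 := abs_nonneg (ϕ t)
    have hYm : 0 ≤ |Y t| ^ m₂ := by positivity
    have e2 : c * (|X t| ^ m₁ * |p t|) ≤ |c₁ t * X t ^ m₁ * p t| := by
      rw [abs_mul, abs_mul, abs_pow]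
      calc c * (|X t| ^ m₁ * |p t|) ≤ |c₁ t| * (|X t| ^ m₁ * |p t|) :=
            mul_le_mul_of_nonneg_right (h.c₁0 t ht) (by positivity)
        _ = _ := by ring
    have e3 : |P t * c₂ t * Y t ^ m₂| ≤ K ^ 2 * |Y t| ^ m₂ := by
      rw [abs_mul, abs_mul, abs_pow]
      calc |P t| * |c₂ t| * |Y t| ^ m₂ ≤ K * K * |Y t| ^ m₂ :=
            mul_le_mul_of_nonneg_right (mul_le_mul (h.P1 t ht) (h.c₂1 t ht) (abs_nonneg _) hK0.le) hYm
        _ = _ := by ring
    have e4 : |En ϕ g v t| ≤ 2 * K * |ϕ t| := by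
      have := rl_pos h.rl t ht
      rw [abs_of_nonneg]
      · exact this.2
      · refine le_trans ?_ this.1
        positivity
    have e5 : |Y t| ^ (m₂ + 1) ≤ |Y t| ^ m₂ :=
      pow_le_pow_of_le_one (abs_nonneg _) (h.Yb t ht) (Nat.le_succ _)
    have e6 : K * (|X t| ^ (m₁ + 1) * |p t|) ≤ c / 2 * (|X t| ^ m₁ * |p t|) := by
      have hb := (twoC_Xb h t ht).1
      have hKX : K * |X t| ≤ c / 2 := by
        have : K * |X t| ≤ K * (2 * K * (s' - s)) := mul_le_mul_of_nonneg_left hb hK0.le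
        rw [le_div_iff₀ (by positivity)] at hδ4
        nlinarith
      calc K * (|X t| ^ (m₁ + 1) * |p t|) = (K * |X t|) * (|X t| ^ m₁ * |p t|) := by rw [pow_succ]; ring
        _ ≤ _ := mul_le_mul_of_nonneg_right hKX (by positivity)
    have e7 : |c₁ t * X t ^ m₁ * p t| ≤ |P t * c₂ t * Y t ^ m₂ + c₁ t * X t ^ m₁ * p t + En ϕ g v t| +
        |P t * c₂ t * Y t ^ m₂| + |En ϕ g v t| := by
      have e0 : c₁ t * X t ^ m₁ * p t = (P t * c₂ t * Y t ^ m₂ + c₁ t * X t ^ m₁ * p t + En ϕ g v t) -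
        P t * c₂ t * Y t ^ m₂ - En ϕ g v t := by ring
      have t1 := abs_sub ((P t * c₂ t * Y t ^ m₂ + c₁ t * X t ^ m₁ * p t + En ϕ g v t) -
        P t * c₂ t * Y t ^ m₂) (En ϕ g v t)
      have t2 := abs_sub (P t * c₂ t * Y t ^ m₂ + c₁ t * X t ^ m₁ * p t + En ϕ g v t)
        (P t * c₂ t * Y t ^ m₂)
      rw [← e0] at t1
      linarith
    have e8 : K ^ 2 * |Y t| ^ (m₂ + 1) ≤ K ^ 2 * |Y t| ^ m₂ := mul_le_mul_of_nonneg_left e5 (by positivity)
    have e9 : 0 ≤ K ^ 2 * |ϕ t| := by positivity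
    have e10 : 0 ≤ K * |Y t| ^ m₂ := by positivity
    linarith
  -- integrals
  set H := ∫ r in s..s', |P r * DL r + p r * DB r + En ϕ g v r| with hH
  set E := ∫ r in s..s', |X r| ^ m₁ * |p r| with hE
  set y := ∫ r in s..s', |Y r| * |p r| with hyd
  have hS0 : 0 ≤ S := intervalIntegral.integral_nonneg hs (fun t _ => by positivity)
  have hy0 : 0 ≤ y := intervalIntegral.integral_nonneg hs (fun t _ => by positivity)
  have hQe : Q = S + E + y := by
    rw [hQ, intervalIntegral.integral_add (iS.add iE1) iY, intervalIntegral.integral_add iS iE1]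
  have g1 : H ≤ (s' - s) * (C1 * Q) := by
    have : H ≤ ∫ r in s..s', C1 * Q :=
      intervalIntegral.integral_mono_on hs (ii ch.abs) (by simp) h1
    rwa [intervalIntegral.integral_const, smul_eq_mul] at this
  have g3 : c / 2 * E ≤ H + (2 * K ^ 2 + 2 * K) * S + K * y := by
    have : ∫ r in s..s', c / 2 * (|X r| ^ m₁ * |p r|) ≤
        ∫ r in s..s', (|P r * DL r + p r * DB r + En ϕ g v r| +
          (2 * K ^ 2 + 2 * K) * (|Y r| ^ m₂ + |ϕ r|) + K * (|Y r| * |p r|)) :=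
      intervalIntegral.integral_mono_on hs (iE1.const_mul _)
        (((ii ch.abs).add (iS.const_mul _)).add (iY.const_mul _)) h3
    rwa [intervalIntegral.integral_const_mul,
      intervalIntegral.integral_add ((ii ch.abs).add (iS.const_mul _)) (iY.const_mul _),
      intervalIntegral.integral_add (ii ch.abs) (iS.const_mul _),
      intervalIntegral.integral_const_mul, intervalIntegral.integral_const_mul] at this
  have hyS : y ≤ Cy * S := by
    refine hy.trans ?_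
    have : Cy * (s' - s) * S ≤ Cy * 1 * S :=
      mul_le_mul_of_nonneg_right (mul_le_mul_of_nonneg_left hd1 (by linarith)) hS0
    linarith
  have g4 : E ≤ 2 / c * H + 2 / c * (2 * K ^ 2 + 2 * K + K * Cy) * S := by
    have e1 : K * y ≤ K * (Cy * S) := mul_le_mul_of_nonneg_left hyS hK0.le
    have e2 : c / 2 * E ≤ H + (2 * K ^ 2 + 2 * K + K * Cy) * S := by linarith
    have e3 : E = 2 / c * (c / 2 * E) := by field_simp
    rw [e3]
    calc 2 / c * (c / 2 * E) ≤ 2 / c * (H + (2 * K ^ 2 + 2 * K + K * Cy) * S) :=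
          mul_le_mul_of_nonneg_left e2 (by positivity)
      _ = _ := by ring
  have hH0 : 0 ≤ H := intervalIntegral.integral_nonneg hs (fun t _ => by positivity)
  have g5 : H ≤ C2 * (s' - s) * S := by
    have e1 : Q ≤ 2 / c * H + (1 + 2 / c * (2 * K ^ 2 + 2 * K + K * Cy) + Cy) * S := by
      rw [hQe]; linarith
    have e2 : (s' - s) * (C1 * Q) ≤ (s' - s) * (C1 * (2 / c * H +
        (1 + 2 / c * (2 * K ^ 2 + 2 * K + K * Cy) + Cy) * S)) :=
      mul_le_mul_of_nonneg_left (mul_le_mul_of_nonneg_left e1 hC1'.le) hd0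
    have e3 : (s' - s) * (C1 * (2 / c * H)) ≤ 1 / 2 * H := by
      have : (s' - s) * (C1 * (2 / c)) ≤ 1 / 2 := by
        rw [le_div_iff₀ (by positivity)] at hδ5
        rw [show (s' - s) * (C1 * (2 / c)) = ((s' - s) * (4 * C1)) / (2 * c) by field_simp; ring,
          div_le_iff₀ (by positivity)]
        linarith
      calc (s' - s) * (C1 * (2 / c * H)) = (s' - s) * (C1 * (2 / c)) * H := by ring
        _ ≤ _ := mul_le_mul_of_nonneg_right this hH0
    have e4 : (s' - s) * (C1 * (2 / c * H + (1 + 2 / c * (2 * K ^ 2 + 2 * K + K * Cy) + Cy) * S)) =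
      (s' - s) * (C1 * (2 / c * H)) +
        (s' - s) * C1 * (1 + 2 / c * (2 * K ^ 2 + 2 * K + K * Cy) + Cy) * S := by ring
    have e5 : C2 * (s' - s) * S =
      2 * ((s' - s) * C1 * (1 + 2 / c * (2 * K ^ 2 + 2 * K + K * Cy) + Cy) * S) := by rw [hC2]; ring
    rw [e5]
    linarith
  -- conclusion
  have i4 : IntervalIntegrable (fun r => P r * c₂ r * Y r ^ m₂) volume s s' :=
    ii ((cP.mul h.c₂c).mul (cY.pow _))
  have i5 : IntervalIntegrable (fun r => c₁ r * X r ^ m₁ * p r) volume s s' :=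
    ii ((h.c₁c.mul (cX.pow _)).mul cp)
  rw [← intervalIntegral.integral_add i4 i5, ← intervalIntegral.integral_add (i4.add i5) (ii cE)]
  refine (intervalIntegral.abs_integral_le_integral_abs hs).trans ?_
  have hfin : ∫ r in s..s', |P r * c₂ r * Y r ^ m₂ + c₁ r * X r ^ m₁ * p r + En ϕ g v r| ≤
      ∫ r in s..s', (|P r * DL r + p r * DB r + En ϕ g v r| +
        K ^ 2 * Cs * (s' - s) * (|Y r| ^ m₂ + |ϕ r|) +
        (K * (|X r| ^ (m₁ + 1) * |p r|) + K * (|Y r| * |p r|))) := by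
    refine intervalIntegral.integral_mono_on hs ((i4.add i5).add (ii cE)).abs
      (((ii ch.abs).add (iS.const_mul _)).add ((iX.const_mul _).add (iY.const_mul _))) (fun t ht => ?_)
    refine (h2 t ht).trans ?_
    have e1 : K ^ 2 * |Y t| ^ (m₂ + 1) ≤ K ^ 2 * Cs * (s' - s) * |Y t| ^ m₂ := by
      have := mul_le_mul_of_nonneg_left (bY t ht) (by positivity : 0 ≤ K ^ 2 * |Y t| ^ m₂)
      calc K ^ 2 * |Y t| ^ (m₂ + 1) = K ^ 2 * |Y t| ^ m₂ * |Y t| := by rw [pow_succ]; ring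
        _ ≤ _ := this
        _ = _ := by ring
    have e2 : 0 ≤ K ^ 2 * Cs * (s' - s) * |ϕ t| := by positivity
    linarith
  refine hfin.trans ?_
  rw [intervalIntegral.integral_add ((ii ch.abs).add (iS.const_mul _)) ((iX.const_mul _).add (iY.const_mul _)),
    intervalIntegral.integral_add (ii ch.abs) (iS.const_mul _),
    intervalIntegral.integral_add (iX.const_mul _) (iY.const_mul _),
    intervalIntegral.integral_const_mul, intervalIntegral.integral_const_mul,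
    intervalIntegral.integral_const_mul, ← hS, ← hH, ← hyd]
  have f1 := mul_le_mul_of_nonneg_left hx hK0.le
  have f2 := mul_le_mul_of_nonneg_left hy hK0.le
  calc _ ≤ C2 * (s' - s) * S + K ^ 2 * Cs * (s' - s) * S +
        (K * (Cx * (s' - s) * S) + K * (Cy * (s' - s) * S)) := by linarith
    _ = _ := by ring

end Pool.Agent.Lib.MP_28b8de_an.TT
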