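import Pool.Agent.Lib.MP_28b8de_an.T.TRl

/-!
MP_28b8de_an, module TGTwoDefs.

Data of gap lemma 2 (p vanishes at both ends, P does not vanish): degenerate links of orders m₂ (L in Y) and m₁ (B in X).
-/

set_option linter.unusedSectionVars false

namespace Pool.Agent.Lib.MP_28b8de_an.TT

open Filter Topology Set MeasureTheory
open Pool.Agent.Lib.MP_28b8de_an.PT (Adm Perf gron gron_back volterra kder ae_zero perf_inner stay)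

/-- data of gap lemma 2 on `[s,s']`:
`X' = g(u-v)`, `Y' = DB - η' DL`, `ϕ' = n = -p b + O(ϕ)`, `p' = π = -P l + O(|p| + |ϕ|)`,
`DB' = b X' + ψB`, `DL' = l Y' + ψL`,
`DB ≈ c₁ X^m₁`, `b ≈ m₁ c₁ X^(m₁-1)`, `DL ≈ c₂ Y^m₂`, `l ≈ m₂ c₂ Y^(m₂-1)` -/
structure G2 (K c : ℝ) (m₁ m₂ : ℕ) (s s' : ℝ) (X ϕ u g v n Y p P DB DL b l c₁ c₂ ψB ψL η' π : ℝ → ℝ) :
    Prop where
  rl : Rl K c s s' X ϕ u g v n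
  m1 : Odd m₁
  m2 : 2 ≤ m₂
  pc : ContinuousOn p (Icc s s')
  bc : ContinuousOn b (Icc s s')
  lc : ContinuousOn l (Icc s s')
  c₁c : ContinuousOn c₁ (Icc s s')
  c₂c : ContinuousOn c₂ (Icc s s')
  ηc : ContinuousOn η' (Icc s s')
  ψBi : IntervalIntegrable ψB volume s s'
  ψLi : IntervalIntegrable ψL volume s s'
  πi : IntervalIntegrable π volume s s'
  Pl : ∀ t ∈ Icc s s', ∀ r ∈ Icc s s', |P t - P r| ≤ K * |t - r|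
  P0 : ∀ t ∈ Icc s s', c ≤ |P t|
  P1 : ∀ t ∈ Icc s s', |P t| ≤ K
  c₁0 : ∀ t ∈ Icc s s', c ≤ |c₁ t|
  c₁1 : ∀ t ∈ Icc s s', |c₁ t| ≤ K
  c₂0 : ∀ t ∈ Icc s s', c ≤ |c₂ t|
  c₂1 : ∀ t ∈ Icc s s', |c₂ t| ≤ K
  η1 : ∀ t ∈ Icc s s', |η' t| ≤ K
  Yeq : ∀ t ∈ Icc s s', Y t = ∫ r in s..t, (DB r - η' r * DL r)
  peq : ∀ t ∈ Icc s s', p t = ∫ r in s..t, π r
  DBeq : ∀ t ∈ Icc s s', DB t = ∫ r in s..t, (b r * (g r * (u r - v r)) + ψB r)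
  DLeq : ∀ t ∈ Icc s s', DL t = ∫ r in s..t, (l r * (DB r - η' r * DL r) + ψL r)
  Yb : ∀ t ∈ Icc s s', |Y t| ≤ 1
  Y1 : Y s' = 0
  p1 : p s' = 0
  nb : ∀ t ∈ Icc s s', |n t + p t * b t| ≤ K * |ϕ t|
  πb : ∀ t ∈ Icc s s', |π t + P t * l t| ≤ K * (|p t| + |ϕ t|)
  ψBb : ∀ t ∈ Icc s s', |ψB t| ≤ K * (|X t| ^ m₁ + |Y t|)
  ψLb : ∀ t ∈ Icc s s', |ψL t| ≤ K * |Y t| ^ m₂
  DBb : ∀ t ∈ Icc s s', |DB t - c₁ t * X t ^ m₁| ≤ K * (|X t| ^ (m₁ + 1) + |Y t|)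
  bb : ∀ t ∈ Icc s s', |b t - m₁ * c₁ t * X t ^ (m₁ - 1)| ≤ K * (|X t| ^ m₁ + |Y t|)
  DLb : ∀ t ∈ Icc s s', |DL t - c₂ t * Y t ^ m₂| ≤ K * |Y t| ^ (m₂ + 1)
  lb : ∀ t ∈ Icc s s', |l t - m₂ * c₂ t * Y t ^ (m₂ - 1)| ≤ K * |Y t| ^ m₂

end Pool.Agent.Lib.MP_28b8de_an.TT
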