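import Pool.Agent.Lib.MP_28b8de_an.T.TTri

/-!
MP_28b8de_an, module TGapThree.

Gap lemma 3: Y' = β ≈ c₁ X^m with m even.
PROOF.  |Y(t)| ≤ ∫_s^t |β| ≤ C ∫_s^t (|X|^m + |Y|), gron: |Y| ≤ C A, A := ∫_s^{s'}|X|^m, ∫|Y| ≤ C δ A.  0 = Y(s') = ∫ β = ∫ c₁ X^m + O(∫|X|^(m+1) + ∫|Y|), c₁ of constant sign, m even: c A ≤ C (δ A + δ A)
(|X| ≤ K (t - s) ≤ K δ), so A = 0 for small δ: X = 0 and Y = 0.
-/

set_option linter.unusedSectionVars false

namespace Pool.Agent.Lib.MP_28b8de_an.TT

open Filter Topology Set MeasureTheory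
open Pool.Agent.Lib.MP_28b8de_an.PT (Adm Perf gron gron_back volterra kder ae_zero perf_inner stay)

private theorem TGapThree_sign {s s' c : ℝ} (hs : s < s') (hc : 0 < c) {c₁ : ℝ → ℝ}
    (h : ContinuousOn c₁ (Icc s s')) (h1 : ∀ t ∈ Icc s s', c ≤ |c₁ t|) :
    ∃ e : ℝ, |e| = 1 ∧ ∀ t ∈ Icc s s', |c₁ t| = e * c₁ t := by
  have hs0 : s ∈ Icc s s' := left_mem_Icc.2 hs.le
  have hne : ∀ t ∈ Icc s s', c₁ t ≠ 0 := by
    intro t ht h0
    have := h1 t ht
    rw [h0, abs_zero] at this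
    linarith
  rcases lt_or_gt_of_ne (hne s hs0) with h2 | h2
  · refine ⟨-1, by norm_num, fun t ht => ?_⟩
    have h3 : c₁ t < 0 := by
      by_contra hcon
      have h4 : (0 : ℝ) ∈ Icc (c₁ s) (c₁ t) := ⟨h2.le, not_lt.1 hcon⟩
      obtain ⟨r, hr, hr0⟩ := intermediate_value_Icc ht.1 (h.mono (Icc_subset_Icc_right ht.2)) h4
      exact hne r ⟨hr.1, hr.2.trans ht.2⟩ hr0
    rw [abs_of_neg h3]
    ring
  · refine ⟨1, by norm_num, fun t ht => ?_⟩
    have h3 : 0 < c₁ t := by
      by_contra hcon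
      have h4 : (0 : ℝ) ∈ Icc (c₁ t) (c₁ s) := ⟨not_lt.1 hcon, h2.le⟩
      obtain ⟨r, hr, hr0⟩ := intermediate_value_Icc' ht.1 (h.mono (Icc_subset_Icc_right ht.2)) h4
      exact hne r ⟨hr.1, hr.2.trans ht.2⟩ hr0
    rw [abs_of_pos h3]
    ring

theorem gap_three {K c : ℝ} (hK : 1 ≤ K) (hc : 0 < c) {m : ℕ} (hm : 1 ≤ m) (he : Even m) :
    ∃ δ > 0, ∀ (s s' : ℝ) (X Y β c₁ : ℝ → ℝ), s < s' → s' - s ≤ δ →
      ContinuousOn X (Icc s s') → ContinuousOn Y (Icc s s') → ContinuousOn c₁ (Icc s s') →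
      IntervalIntegrable β volume s s' →
      (∀ t ∈ Icc s s', |X t| ≤ K * (t - s)) →
      (∀ t ∈ Icc s s', c ≤ |c₁ t|) → (∀ t ∈ Icc s s', |c₁ t| ≤ K) →
      (∀ t ∈ Icc s s', |β t - c₁ t * X t ^ m| ≤ K * (|X t| ^ (m + 1) + |Y t|)) →
      (∀ t ∈ Icc s s', Y t = ∫ r in s..t, β r) → Y s' = 0 →
      ∀ t ∈ Icc s s', X t = 0 ∧ Y t = 0 := by
  have hK0 : 0 < K := by linarith
  refine ⟨min (1 / K) (c / (8 * K ^ 2)), by positivity, ?_⟩
  intro s s' X Y β c₁ hs hδ hX hY hc1 hβ hXb hcl hcu hβb hYe hY0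
  have hd1 : K * (s' - s) ≤ 1 := by
    have h1 := hδ.trans (min_le_left _ _)
    rw [le_div_iff₀ hK0] at h1
    linarith
  have hd2 : 8 * K ^ 2 * (s' - s) ≤ c := by
    have h1 := hδ.trans (min_le_right _ _)
    rw [le_div_iff₀ (by positivity)] at h1
    linarith
  have hXK : ∀ t ∈ Icc s s', |X t| ≤ K * (s' - s) := fun t ht =>
    (hXb t ht).trans (mul_le_mul_of_nonneg_left (by linarith [ht.2]) hK0.le)
  have hX1 : ∀ t ∈ Icc s s', |X t| ≤ 1 := fun t ht => (hXK t ht).trans hd1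
  have hXm : ContinuousOn (fun t => |X t| ^ m) (Icc s s') := hX.abs.pow m
  have hYa : ContinuousOn (fun t => |Y t|) (Icc s s') := hY.abs
  have iXm : IntervalIntegrable (fun t => |X t| ^ m) volume s s' :=
    hXm.intervalIntegrable_of_Icc hs.le
  have iYa : IntervalIntegrable (fun t => |Y t|) volume s s' := hYa.intervalIntegrable_of_Icc hs.le
  obtain ⟨A, hA⟩ : ∃ A, A = ∫ t in s..s', |X t| ^ m := ⟨_, rfl⟩
  have hA0 : 0 ≤ A := by
    rw [hA]
    exact intervalIntegral.integral_nonneg hs.le (fun t _ => by positivity)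
  have hβ2 : ∀ t ∈ Icc s s', |β t| ≤ 2 * K * |X t| ^ m + K * |Y t| := by
    intro t ht
    have h1 := hβb t ht
    have h2 : |β t| ≤ |β t - c₁ t * X t ^ m| + |c₁ t * X t ^ m| := by
      have h3 := abs_add_le (β t - c₁ t * X t ^ m) (c₁ t * X t ^ m)
      rwa [sub_add_cancel] at h3
    rw [abs_mul, abs_pow] at h2
    have h3 : |c₁ t| * |X t| ^ m ≤ K * |X t| ^ m :=
      mul_le_mul_of_nonneg_right (hcu t ht) (by positivity)
    have h4 : |X t| ^ (m + 1) ≤ |X t| ^ m :=
      pow_le_pow_of_le_one (abs_nonneg _) (hX1 t ht) (Nat.le_succ m)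
    have h5 : K * |X t| ^ (m + 1) ≤ K * |X t| ^ m := mul_le_mul_of_nonneg_left h4 hK0.le
    linarith
  have hYb : ∀ t ∈ Icc s s', |Y t| ≤ 2 * K * A + K * ∫ r in s..t, |Y r| := by
    intro t ht
    have hsub : Icc s t ⊆ Icc s s' := Icc_subset_Icc_right ht.2
    have j1 : IntervalIntegrable (fun t => |X t| ^ m) volume s t :=
      (hXm.mono hsub).intervalIntegrable_of_Icc ht.1
    have j2 : IntervalIntegrable (fun t => |Y t|) volume s t :=
      (hYa.mono hsub).intervalIntegrable_of_Icc ht.1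
    have h1 : |∫ r in s..t, β r| ≤ ∫ r in s..t, (2 * K * |X r| ^ m + K * |Y r|) := by
      rw [← Real.norm_eq_abs]
      refine intervalIntegral.norm_integral_le_of_norm_le ht.1 ?_ ((j1.const_mul _).add (j2.const_mul _))
      refine Filter.Eventually.of_forall fun r hr => ?_
      rw [Real.norm_eq_abs]
      exact hβ2 r ⟨hr.1.le, hr.2.trans ht.2⟩
    rw [intervalIntegral.integral_add (j1.const_mul _) (j2.const_mul _),
      intervalIntegral.integral_const_mul, intervalIntegral.integral_const_mul] at h1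
    have h2 : ∫ r in s..t, |X r| ^ m ≤ A := by
      rw [hA]
      exact intervalIntegral.integral_mono_interval le_rfl ht.1 ht.2
        (Filter.Eventually.of_forall fun r => by positivity) iXm
    rw [← hYe t ht] at h1
    have h3 : 2 * K * ∫ r in s..t, |X r| ^ m ≤ 2 * K * A :=
      mul_le_mul_of_nonneg_left h2 (by positivity)
    linarith
  have hY6 : ∀ t ∈ Icc s s', |Y t| ≤ 6 * K * A := by
    intro t ht
    have h1 := gron hYa hK0.le hYb t ht
    have h2 : Real.exp (K * (t - s)) ≤ 3 := by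
      have h3 : K * (t - s) ≤ 1 :=
        (mul_le_mul_of_nonneg_left (by linarith [ht.2]) hK0.le).trans hd1
      have h4 := Real.exp_le_exp.2 h3
      have h5 := Real.exp_one_lt_d9
      linarith
    have h3 : 2 * K * A * Real.exp (K * (t - s)) ≤ 2 * K * A * 3 :=
      mul_le_mul_of_nonneg_left h2 (by positivity)
    linarith
  have hYi : ∫ t in s..s', |Y t| ≤ 6 * K * A * (s' - s) := by
    have h1 : ∫ t in s..s', |Y t| ≤ ∫ _t in s..s', 6 * K * A :=
      intervalIntegral.integral_mono_on hs.le iYa intervalIntegrable_const hY6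
    rw [intervalIntegral.integral_const, smul_eq_mul] at h1
    linarith
  have hs1 : s' ∈ Icc s s' := right_mem_Icc.2 hs.le
  have i1 : IntervalIntegrable (fun t => c₁ t * X t ^ m) volume s s' :=
    (hc1.mul (hX.pow m)).intervalIntegrable_of_Icc hs.le
  have h0 : ∫ r in s..s', β r = 0 := by
    rw [← hYe s' hs1]
    exact hY0
  have hsplit := intervalIntegral.integral_sub hβ i1
  rw [h0, zero_sub] at hsplit
  have herr : |∫ t in s..s', (β t - c₁ t * X t ^ m)| ≤
      K * (K * (s' - s) * A + 6 * K * A * (s' - s)) := by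
    have h1 : |∫ t in s..s', (β t - c₁ t * X t ^ m)| ≤
        ∫ t in s..s', (K * (K * (s' - s)) * |X t| ^ m + K * |Y t|) := by
      rw [← Real.norm_eq_abs]
      refine intervalIntegral.norm_integral_le_of_norm_le hs.le ?_
        ((iXm.const_mul _).add (iYa.const_mul _))
      refine Filter.Eventually.of_forall fun r hr => ?_
      have hr' : r ∈ Icc s s' := ⟨hr.1.le, hr.2⟩
      rw [Real.norm_eq_abs]
      have h2 := hβb r hr'
      have h3 : |X r| ^ (m + 1) ≤ K * (s' - s) * |X r| ^ m := by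
        rw [pow_succ, mul_comm]
        exact mul_le_mul_of_nonneg_right (hXK r hr') (by positivity)
      have h4 := mul_le_mul_of_nonneg_left h3 hK0.le
      linarith
    rw [intervalIntegral.integral_add (iXm.const_mul _) (iYa.const_mul _),
      intervalIntegral.integral_const_mul, intervalIntegral.integral_const_mul, ← hA] at h1
    have h2 := mul_le_mul_of_nonneg_left hYi hK0.le
    linarith
  obtain ⟨e, he1, he2⟩ := TGapThree_sign hs hc hc1 hcl
  have hmain : c * A ≤ |∫ t in s..s', c₁ t * X t ^ m| := by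
    have h1 : ∫ t in s..s', c * |X t| ^ m ≤ ∫ t in s..s', e * (c₁ t * X t ^ m) := by
      refine intervalIntegral.integral_mono_on hs.le (iXm.const_mul _) (i1.const_mul _) ?_
      intro t ht
      have h2 : e * (c₁ t * X t ^ m) = |c₁ t| * |X t| ^ m := by
        rw [he2 t ht, he.pow_abs]
        ring
      rw [h2]
      exact mul_le_mul_of_nonneg_right (hcl t ht) (by positivity)
    rw [intervalIntegral.integral_const_mul, intervalIntegral.integral_const_mul, ← hA] at h1
    refine h1.trans ((le_abs_self _).trans ?_)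
    rw [abs_mul, he1, one_mul]
  have hAz : A = 0 := by
    rw [hsplit, abs_neg] at herr
    have h1 : K * (K * (s' - s) * A + 6 * K * A * (s' - s)) = 7 * (K ^ 2 * (s' - s)) * A := by ring
    have h2 : c * A ≤ 7 * (K ^ 2 * (s' - s)) * A := by
      rw [← h1]
      exact hmain.trans herr
    have h3 : 7 * (K ^ 2 * (s' - s)) * A ≤ 7 / 8 * c * A :=
      mul_le_mul_of_nonneg_right (by linarith) hA0
    have h4 : c * A ≤ 0 := by linarith
    have h5 : 0 ≤ c * A := by positivity
    have h6 : c * A = 0 := le_antisymm h4 h5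
    rcases mul_eq_zero.1 h6 with h7 | h7
    · exact absurd h7 hc.ne'
    · exact h7
  intro t ht
  constructor
  · by_contra hcon
    have h1 : 0 < ∫ t in s..s', |X t| ^ m :=
      intervalIntegral.integral_pos hs hXm (fun t _ => by positivity)
        ⟨t, ht, pow_pos (abs_pos.2 hcon) m⟩
    rw [← hA, hAz] at h1
    exact lt_irrefl _ h1
  · have h1 := hY6 t ht
    rw [hAz, mul_zero] at h1
    exact abs_eq_zero.1 (le_antisymm h1 (abs_nonneg _))

end Pool.Agent.Lib.MP_28b8de_an.TT
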