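import Pool.Agent.Lib.MP_28b8de_an.T.TGTwoB
import Pool.Agent.Lib.MP_28b8de_an.T.TGTwoC

/-!
MP_28b8de_an, module TGapTwo.

Gap lemma 2.
PROOF.  A := ∫ P c₂ Y^m₂, I := ∫ c₁ X^m₁ p, 𝓔 := ∫ En, S := ∫(|Y|^m₂ + |ϕ|), δ := s' - s.  two_I, two_E, two_h:  I = m₂ A + O(δ S), 𝓔 = m₁ I + O(δ S), A + I + 𝓔 = O(δ S).
rl_pos: c² ∫|ϕ| ≤ 𝓔 ≤ |m₁ m₂ A| + C δ S, |A| ≤ K² ∫|Y|^m₂, so (small δ) ∫|ϕ| ≤ C ∫|Y|^m₂ and S ≤ C ∫|Y|^m₂.
(1 + m₂ + m₁ m₂) |A| ≤ C δ S ≤ C δ ∫|Y|^m₂.
m₂ even: P c₂ has constant sign (continuous, nonzero), |A| ≥ c² ∫|Y|^m₂: for small δ ∫|Y|^m₂ = 0, Y = 0.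
m₂ odd (so m₂ ≥ 3, m₂ - 1 even): p(s') = 0: 0 = ∫π = -∫ P l + O(∫(|p| + |ϕ|)), P l = m₂ P c₂ Y^(m₂-1) + O(|Y|^m₂), so c² m₂ ∫|Y|^(m₂-1) ≤ C ∫(|Y|^m₂ + |p| + |ϕ|) and ∫|p| ≤ δ C ∫(|Y|^(m₂-1) + |ϕ|) (two_p):
for small δ ∫|Y|^(m₂-1) ≤ C (∫|Y|^m₂ + ∫|ϕ|) ≤ C ∫|Y|^m₂ ≤ C δ ∫|Y|^(m₂-1) (|Y| ≤ Cδ), so it is 0, Y = 0.
Then two_X: ∫|X|^(m₁+1) = 0, X = 0 (X continuous).
-/

set_option linter.unusedSectionVars false

namespace Pool.Agent.Lib.MP_28b8de_an.TT

open Filter Topology Set MeasureTheory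
open Pool.Agent.Lib.MP_28b8de_an.PT (Adm Perf gron gron_back volterra kder ae_zero perf_inner stay)

/-- a continuous function without zeros has constant sign -/
private theorem TGapTwo_sign {s s' c' : ℝ} {w : ℝ → ℝ} (hw : ContinuousOn w (Icc s s'))
    (hc : 0 < c') (hwc : ∀ t ∈ Icc s s', c' ≤ |w t|) :
    (∀ t ∈ Icc s s', w t = |w t|) ∨ (∀ t ∈ Icc s s', w t = -|w t|) := by
  by_cases h : ∀ t ∈ Icc s s', 0 ≤ w t
  · exact Or.inl fun t ht => (abs_of_nonneg (h t ht)).symm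
  · right
    push Not at h
    obtain ⟨t₀, ht₀, hneg⟩ := h
    intro t ht
    have hle : w t ≤ 0 := by
      by_contra hcon
      push Not at hcon
      have hpre : IsPreconnected (Icc s s') := isPreconnected_Icc
      obtain ⟨r, hr, hr0⟩ := hpre.intermediate_value ht₀ ht hw ⟨hneg.le, hcon.le⟩
      have h2 := hwc r hr
      rw [hr0, abs_zero] at h2
      linarith
    rw [abs_of_nonpos hle, neg_neg]

private theorem TGapTwo_int {s s' c' : ℝ} (hs : s < s') {w Y : ℝ → ℝ}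
    (hw : ContinuousOn w (Icc s s')) (hY : ContinuousOn Y (Icc s s'))
    (hc : 0 < c') (hwc : ∀ t ∈ Icc s s', c' ≤ |w t|) {m : ℕ} (hm : Even m) :
    c' * (∫ r in s..s', |Y r| ^ m) ≤ |∫ r in s..s', w r * Y r ^ m| := by
  have hu : uIcc s s' = Icc s s' := uIcc_of_le hs.le
  have hYm : ContinuousOn (fun r => |Y r| ^ m) (Icc s s') := hY.abs.pow m
  have hwY : ContinuousOn (fun r => |w r| * |Y r| ^ m) (Icc s s') := hw.abs.mul hYm
  have h1 : c' * (∫ r in s..s', |Y r| ^ m) ≤ ∫ r in s..s', |w r| * |Y r| ^ m := by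
    rw [← intervalIntegral.integral_const_mul]
    refine intervalIntegral.integral_mono_on hs.le ?_ ?_ fun r hr => ?_
    · exact ContinuousOn.intervalIntegrable (by rw [hu]; exact continuousOn_const.mul hYm)
    · exact ContinuousOn.intervalIntegrable (by rw [hu]; exact hwY)
    · exact mul_le_mul_of_nonneg_right (hwc r hr) (by positivity)
  rcases TGapTwo_sign hw hc hwc with h | h
  · have h2 : (∫ r in s..s', w r * Y r ^ m) = ∫ r in s..s', |w r| * |Y r| ^ m := by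
      refine intervalIntegral.integral_congr fun r hr => ?_
      rw [hu] at hr
      rw [hm.pow_abs, ← h r hr]
    rw [h2]
    exact h1.trans (le_abs_self _)
  · have h2 : (∫ r in s..s', w r * Y r ^ m) = -∫ r in s..s', |w r| * |Y r| ^ m := by
      rw [← intervalIntegral.integral_neg]
      refine intervalIntegral.integral_congr fun r hr => ?_
      rw [hu] at hr
      change w r * Y r ^ m = -(|w r| * |Y r| ^ m)
      rw [hm.pow_abs, ← neg_mul, ← h r hr]
    rw [h2, abs_neg]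
    exact h1.trans (le_abs_self _)

private theorem TGapTwo_zero {s s' : ℝ} (hs : s < s') {Y : ℝ → ℝ} (hY : ContinuousOn Y (Icc s s'))
    {m : ℕ} (h : (∫ r in s..s', |Y r| ^ m) ≤ 0) : ∀ t ∈ Icc s s', Y t = 0 := by
  intro t ht
  by_contra hne
  have hpos := intervalIntegral.integral_pos hs (hY.abs.pow m)
    (fun x _ => pow_nonneg (abs_nonneg _) _) ⟨t, ht, pow_pos (abs_pos.2 hne) m⟩
  exact absurd h (not_le.2 hpos)

theorem gap_two {K c : ℝ} (hK : 1 ≤ K) (hc : 0 < c) (m₁ m₂ : ℕ) :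
    ∃ δ > 0, ∀ (s s' : ℝ) (X ϕ u g v n Y p P DB DL b l c₁ c₂ ψB ψL η' π : ℝ → ℝ),
      s' - s ≤ δ → G2 K c m₁ m₂ s s' X ϕ u g v n Y p P DB DL b l c₁ c₂ ψB ψL η' π →
      ∀ t ∈ Icc s s', X t = 0 ∧ Y t = 0 := by
  obtain ⟨CI, δI, hCI, hδI, twI⟩ := two_I hK hc m₁ m₂
  obtain ⟨CE, δE, hCE, hδE, twE⟩ := two_E hK hc m₁ m₂
  obtain ⟨CH, δH, hCH, hδH, twH⟩ := two_h hK hc m₁ m₂
  obtain ⟨C0, δ0, hC0, hδ0, twS⟩ := two_small hK hc m₁ m₂
  obtain ⟨CX, δX, hCX, hδX, twX⟩ := two_X hK hc m₁ m₂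
  obtain ⟨Cp, δp, hCp, hδp, twp⟩ := two_p hK hc m₁ m₂
  set C : ℝ := CI + CE + CH + C0 + Cp with hC
  have hC1 : 1 ≤ C := by linarith
  have hK0 : 0 < K := by linarith
  have hm1 : (0 : ℝ) ≤ m₁ := Nat.cast_nonneg _
  have hm2 : (0 : ℝ) ≤ m₂ := Nat.cast_nonneg _
  set C1 : ℝ := 2 * (m₁ * m₂ * K ^ 2) / c ^ 2 + 1 with hC1d
  have hC1p : 0 < C1 := by positivity
  set C3 : ℝ := (c ^ 2 / 2 + K) * C1 + K ^ 2 with hC3
  have hC3p : 0 < C3 := by positivity
  set Q : ℝ := (m₁ + 3) * C * (1 + C1) + K * C + 2 * (C3 * C) with hQ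
  have hC0' : 0 < C := by linarith
  have hQp : 0 < Q := by positivity
  refine ⟨min (min (min δI δE) (min δH δ0)) (min (min δX δp) (c ^ 2 / (2 * Q))), ?_, ?_⟩
  · have : 0 < c ^ 2 / (2 * Q) := by positivity
    simp only [lt_min_iff]
    exact ⟨⟨⟨hδI, hδE⟩, hδH, hδ0⟩, ⟨hδX, hδp⟩, this⟩
  intro s s' X ϕ u g v n Y p P DB DL b l c₁ c₂ ψB ψL η' π hd G
  simp only [le_min_iff] at hd
  obtain ⟨⟨⟨hdI, hdE⟩, hdH, hd0⟩, ⟨hdX, hdp⟩, hdQ⟩ := hd
  have hI := twI s s' X ϕ u g v n Y p P DB DL b l c₁ c₂ ψB ψL η' π hdI G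
  have hE := twE s s' X ϕ u g v n Y p P DB DL b l c₁ c₂ ψB ψL η' π hdE G
  have hH := twH s s' X ϕ u g v n Y p P DB DL b l c₁ c₂ ψB ψL η' π hdH G
  obtain ⟨hYc, -, -, -, hYb, -, -⟩ := twS s s' X ϕ u g v n Y p P DB DL b l c₁ c₂ ψB ψL η' π hd0 G
  have hX := twX s s' X ϕ u g v n Y p P DB DL b l c₁ c₂ ψB ψL η' π hdX G
  have hp := twp s s' X ϕ u g v n Y p P DB DL b l c₁ c₂ ψB ψL η' π hdp G
  have hs : s < s' := G.rl.hs
  have hu : uIcc s s' = Icc s s' := uIcc_of_le hs.le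
  set d : ℝ := s' - s with hdd
  have hdpos : 0 < d := by rw [hdd]; linarith
  have hdQ' : Q * d ≤ c ^ 2 / 2 := by
    rw [le_div_iff₀ (by positivity)] at hdQ
    linarith
  -- continuity
  have hPc : ContinuousOn P (Icc s s') := by
    have h1 : LipschitzOnWith ⟨K, hK0.le⟩ P (Icc s s') :=
      LipschitzOnWith.of_dist_le_mul fun x hx y hy => by
        rw [Real.dist_eq, Real.dist_eq]
        exact G.Pl x hx y hy
    exact h1.continuousOn
  have hwc : ContinuousOn (fun r => P r * c₂ r) (Icc s s') := hPc.mul G.c₂c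
  have hw0 : ∀ t ∈ Icc s s', c ^ 2 ≤ |P t * c₂ t| := by
    intro t ht
    rw [abs_mul, sq]
    exact mul_le_mul (G.P0 t ht) (G.c₂0 t ht) hc.le (abs_nonneg _)
  have hw1 : ∀ t ∈ Icc s s', |P t * c₂ t| ≤ K ^ 2 := by
    intro t ht
    rw [abs_mul, sq]
    exact mul_le_mul (G.P1 t ht) (G.c₂1 t ht) (abs_nonneg _) hK0.le
  have hϕc := G.rl.ϕc
  have iY : ∀ k : ℕ, IntervalIntegrable (fun r => |Y r| ^ k) volume s s' := fun k =>
    ContinuousOn.intervalIntegrable (by rw [hu]; exact hYc.abs.pow k)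
  have iϕ : IntervalIntegrable (fun r => |ϕ r|) volume s s' :=
    ContinuousOn.intervalIntegrable (by rw [hu]; exact hϕc.abs)
  set A : ℝ := ∫ r in s..s', P r * c₂ r * Y r ^ m₂ with hA
  set I : ℝ := ∫ r in s..s', c₁ r * X r ^ m₁ * p r with hId
  set E : ℝ := ∫ r in s..s', En ϕ g v r with hEd
  set SY : ℝ := ∫ r in s..s', |Y r| ^ m₂ with hSY
  set SF : ℝ := ∫ r in s..s', |ϕ r| with hSF
  have hS : (∫ r in s..s', (|Y r| ^ m₂ + |ϕ r|)) = SY + SF :=
    intervalIntegral.integral_add (iY m₂) iϕ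
  rw [hS] at hI hE hH
  have hSY0 : 0 ≤ SY := intervalIntegral.integral_nonneg hs.le fun r _ => by positivity
  have hSF0 : 0 ≤ SF := intervalIntegral.integral_nonneg hs.le fun r _ => by positivity
  have hdS : 0 ≤ d * (SY + SF) := by positivity
  have hCb : ∀ C' : ℝ, C' ≤ C → C' * d * (SY + SF) ≤ C * (d * (SY + SF)) := by
    intro C' h
    rw [mul_assoc]
    exact mul_le_mul_of_nonneg_right h hdS
  have hI' : |I - m₂ * A| ≤ C * (d * (SY + SF)) := hI.trans (hCb CI (by linarith))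
  have hE' : |E - m₁ * I| ≤ C * (d * (SY + SF)) := hE.trans (hCb CE (by linarith))
  have hH' : |A + I + E| ≤ C * (d * (SY + SF)) := hH.trans (hCb CH (by linarith))
  -- the energy
  have hEn : c ^ 2 * SF ≤ E := by
    rw [hSF, hEd, ← intervalIntegral.integral_const_mul]
    refine intervalIntegral.integral_mono_on hs.le (iϕ.const_mul _) ?_ fun r hr => ?_
    · exact ContinuousOn.intervalIntegrable (by rw [hu]; exact rl_En_cont G.rl)
    · have := (rl_pos G.rl r hr).1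
      rw [sq]
      exact this
  have hAb : |A| ≤ K ^ 2 * SY := by
    rw [hA, hSY, ← intervalIntegral.integral_const_mul]
    refine (intervalIntegral.abs_integral_le_integral_abs hs.le).trans ?_
    refine intervalIntegral.integral_mono_on hs.le ?_ ((iY m₂).const_mul _) fun r hr => ?_
    · exact ContinuousOn.intervalIntegrable (by rw [hu]; exact (hwc.mul (hYc.pow m₂)).abs)
    · rw [abs_mul, abs_pow]
      exact mul_le_mul_of_nonneg_right (hw1 r hr) (by positivity)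
  set R : ℝ := C * (d * (SY + SF)) with hR
  have hR0 : 0 ≤ R := by positivity
  obtain ⟨hI1, hI2⟩ := abs_le.1 hI'
  obtain ⟨hE1, hE2⟩ := abs_le.1 hE'
  obtain ⟨hH1, hH2⟩ := abs_le.1 hH'
  obtain ⟨hA1, hA2⟩ := abs_le.1 hAb
  -- constants
  have hQ1 : (m₁ + 3) * C * (1 + C1) * d ≤ c ^ 2 / 2 := by
    refine le_trans ?_ hdQ'
    rw [hQ]
    have h1 : 0 ≤ (K * C + 2 * (C3 * C)) * d := by positivity
    have h2 : ((m₁ + 3) * C * (1 + C1) + K * C + 2 * (C3 * C)) * d =
      (m₁ + 3) * C * (1 + C1) * d + (K * C + 2 * (C3 * C)) * d := by ring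
    rw [h2]
    linarith
  have hQ2 : K * C * d ≤ c ^ 2 / 2 := by
    refine le_trans ?_ hdQ'
    rw [hQ]
    have h1 : 0 ≤ ((m₁ + 3) * C * (1 + C1) + 2 * (C3 * C)) * d := by positivity
    have h2 : ((m₁ + 3) * C * (1 + C1) + K * C + 2 * (C3 * C)) * d =
      K * C * d + ((m₁ + 3) * C * (1 + C1) + 2 * (C3 * C)) * d := by ring
    rw [h2]
    linarith
  have hQ3 : C3 * C * d ≤ c ^ 2 / 4 := by
    have h0 : 2 * (C3 * C * d) ≤ c ^ 2 / 2 := by
      refine le_trans ?_ hdQ'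
      rw [hQ]
      have h1 : 0 ≤ ((m₁ + 3) * C * (1 + C1) + K * C) * d := by positivity
      have h2 : ((m₁ + 3) * C * (1 + C1) + K * C + 2 * (C3 * C)) * d =
        2 * (C3 * C * d) + ((m₁ + 3) * C * (1 + C1) + K * C) * d := by ring
      rw [h2]
      linarith
    linarith
  have hQ0 : (m₁ + 1) * C * d ≤ c ^ 2 / 2 := by
    refine le_trans ?_ hQ1
    have h1 : (m₁ + 1) * C * d ≤ (m₁ + 3) * C * d := by
      have h2 : (m₁ + 3) * C * d = (m₁ + 1) * C * d + 2 * (C * d) := by ring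
      have h3 : 0 ≤ C * d := by positivity
      rw [h2]
      linarith
    refine h1.trans ?_
    have h4 : (m₁ + 3) * C * (1 + C1) * d = (m₁ + 3) * C * d + (m₁ + 3) * C * C1 * d := by ring
    have h5 : 0 ≤ (m₁ + 3) * C * C1 * d := by positivity
    rw [h4]
    linarith
  have hR1 : (m₁ + 1) * R ≤ c ^ 2 / 2 * (SY + SF) := by
    have : (m₁ + 1) * R = ((m₁ + 1) * C * d) * (SY + SF) := by rw [hR]; ring
    rw [this]
    exact mul_le_mul_of_nonneg_right hQ0 (by positivity)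
  have hc2 : 0 < c ^ 2 := by positivity
  -- `∫|ϕ| ≤ C1 ∫|Y|^m₂`
  have hSFb : SF ≤ C1 * SY := by
    have h1 : m₁ * I ≤ m₁ * (m₂ * A + R) := mul_le_mul_of_nonneg_left (by linarith) hm1
    have h2 : m₁ * (m₂ * A) ≤ m₁ * m₂ * (K ^ 2 * SY) := by
      have : m₁ * (m₂ * A) = (m₁ * m₂ : ℝ) * A := by ring
      rw [this]
      exact mul_le_mul_of_nonneg_left hA2 (by positivity)
    have h6 : m₁ * (m₂ * A + R) = m₁ * (m₂ * A) + m₁ * R := by ring
    have h7 : (m₁ + 1) * R = m₁ * R + R := by ring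
    have h3 : c ^ 2 * SF ≤ m₁ * m₂ * (K ^ 2 * SY) + c ^ 2 / 2 * (SY + SF) := by
      linarith
    have h4 : c ^ 2 * (C1 * SY) = 2 * (m₁ * m₂ * K ^ 2) * SY + c ^ 2 * SY := by
      rw [hC1d]; field_simp
    have h5 : c ^ 2 * SF ≤ c ^ 2 * (C1 * SY) := by
      rw [h4]; linarith
    exact le_of_mul_le_mul_left h5 hc2
  have hSb : SY + SF ≤ (1 + C1) * SY := by linarith
  -- the main inequality
  have hAs : |A| ≤ (m₁ + 3) * R := by
    have hid : (1 + m₂ + m₁ * m₂) * A = (A + I + E) - (I - m₂ * A) - (E - m₁ * I)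
        - m₁ * (I - m₂ * A) := by ring
    have h1 : |(1 + m₂ + m₁ * m₂) * A| ≤ (m₁ + 3) * R := by
      rw [hid]
      have h2 : m₁ * (I - m₂ * A) ≤ m₁ * R := mul_le_mul_of_nonneg_left hI2 hm1
      have h3 : m₁ * (-R) ≤ m₁ * (I - m₂ * A) := mul_le_mul_of_nonneg_left hI1 hm1
      rw [abs_le]
      constructor <;> linarith
    have h4 : |A| ≤ |(1 + m₂ + m₁ * m₂) * A| := by
      rw [abs_mul]
      have h6 : (0 : ℝ) ≤ (m₁ : ℝ) * m₂ := mul_nonneg hm1 hm2
      have h5 : (1 : ℝ) ≤ |1 + (m₂ : ℝ) + m₁ * m₂| := by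
        rw [abs_of_nonneg (by linarith)]
        linarith
      exact le_mul_of_one_le_left (abs_nonneg _) h5
    exact h4.trans h1
  have hAs2 : |A| ≤ c ^ 2 / 2 * SY := by
    refine hAs.trans ?_
    have h1 : (m₁ + 3) * R ≤ (m₁ + 3) * (C * (d * ((1 + C1) * SY))) := by
      rw [hR]
      have : d * (SY + SF) ≤ d * ((1 + C1) * SY) := mul_le_mul_of_nonneg_left hSb hdpos.le
      have h2 : C * (d * (SY + SF)) ≤ C * (d * ((1 + C1) * SY)) :=
        mul_le_mul_of_nonneg_left this hC0'.le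
      exact mul_le_mul_of_nonneg_left h2 (by positivity)
    refine h1.trans ?_
    have h2 : (m₁ + 3) * (C * (d * ((1 + C1) * SY))) = ((m₁ + 3) * C * (1 + C1) * d) * SY := by ring
    rw [h2]
    exact mul_le_mul_of_nonneg_right hQ1 hSY0
  -- `Y = 0`
  have hY0 : ∀ t ∈ Icc s s', Y t = 0 := by
    rcases Nat.even_or_odd m₂ with hev | hodd
    · have h1 := TGapTwo_int hs hwc hYc hc2 hw0 hev
      have h2 : c ^ 2 * SY ≤ c ^ 2 / 2 * SY := h1.trans hAs2
      refine TGapTwo_zero hs hYc (m := m₂) ?_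
      have h3 : c ^ 2 * SY ≤ 0 := by linarith
      by_contra hcon
      push Not at hcon
      have : 0 < c ^ 2 * SY := mul_pos hc2 hcon
      linarith
    · have hm23 : 3 ≤ m₂ := by
        have := G.m2
        rcases hodd with ⟨k, hk⟩
        omega
      have hev : Even (m₂ - 1) := by
        rcases hodd with ⟨k, hk⟩
        exact ⟨k, by omega⟩
      set T : ℝ := ∫ r in s..s', |Y r| ^ (m₂ - 1) with hT
      have hT0 : 0 ≤ T := intervalIntegral.integral_nonneg hs.le fun r _ => by positivity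
      have h1 := TGapTwo_int hs hwc hYc hc2 hw0 hev
      have hTF : (∫ r in s..s', (|Y r| ^ (m₂ - 1) + |ϕ r|)) = T + SF :=
        intervalIntegral.integral_add (iY (m₂ - 1)) iϕ
      rw [hTF] at hp
      have ipa : IntervalIntegrable (fun r => |p r|) volume s s' :=
        ContinuousOn.intervalIntegrable (by rw [hu]; exact G.pc.abs)
      have hpi : (∫ r in s..s', |p r|) ≤ d * (Cp * (T + SF)) := by
        have h2 := intervalIntegral.integral_mono_on hs.le ipa
          (intervalIntegrable_const (c := Cp * (T + SF))) hp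
        rw [intervalIntegral.integral_const, smul_eq_mul] at h2
        exact h2
      have iw : IntervalIntegrable (fun r => P r * c₂ r * Y r ^ (m₂ - 1)) volume s s' :=
        ContinuousOn.intervalIntegrable (by rw [hu]; exact hwc.mul (hYc.pow _))
      have hπ0 : (∫ r in s..s', π r) = 0 := by
        rw [← G.peq s' (right_mem_Icc.2 hs.le)]
        exact G.p1
      have hkey : |∫ r in s..s', (π r + m₂ * (P r * c₂ r * Y r ^ (m₂ - 1)))| ≤
          ∫ r in s..s', (K * |p r| + K * |ϕ r| + K ^ 2 * |Y r| ^ m₂) := by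
        have iR : IntervalIntegrable (fun r => K * |p r| + K * |ϕ r| + K ^ 2 * |Y r| ^ m₂)
            volume s s' := ((ipa.const_mul K).add (iϕ.const_mul K)).add ((iY m₂).const_mul _)
        rw [← Real.norm_eq_abs]
        refine intervalIntegral.norm_integral_le_of_norm_le hs.le (ae_of_all _ fun r hr => ?_) iR
        have hrI : r ∈ Icc s s' := Ioc_subset_Icc_self hr
        have e1 : π r + m₂ * (P r * c₂ r * Y r ^ (m₂ - 1)) =
            (π r + P r * l r) - P r * (l r - m₂ * c₂ r * Y r ^ (m₂ - 1)) := by ring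
        rw [Real.norm_eq_abs, e1]
        have e2 : |P r * (l r - m₂ * c₂ r * Y r ^ (m₂ - 1))| ≤ K * (K * |Y r| ^ m₂) := by
          rw [abs_mul]
          exact mul_le_mul (G.P1 r hrI) (G.lb r hrI) (abs_nonneg _) hK0.le
        have e3 := G.πb r hrI
        have e4 := abs_sub (π r + P r * l r) (P r * (l r - m₂ * c₂ r * Y r ^ (m₂ - 1)))
        have e5 : K * (K * |Y r| ^ m₂) = K ^ 2 * |Y r| ^ m₂ := by ring
        linarith
      have hL : (∫ r in s..s', (π r + m₂ * (P r * c₂ r * Y r ^ (m₂ - 1)))) =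
          m₂ * ∫ r in s..s', P r * c₂ r * Y r ^ (m₂ - 1) := by
        rw [intervalIntegral.integral_add G.πi (iw.const_mul _), hπ0, zero_add,
          intervalIntegral.integral_const_mul]
      have hRr : (∫ r in s..s', (K * |p r| + K * |ϕ r| + K ^ 2 * |Y r| ^ m₂)) =
          K * (∫ r in s..s', |p r|) + K * SF + K ^ 2 * SY := by
        rw [intervalIntegral.integral_add ((ipa.const_mul K).add (iϕ.const_mul K))
          ((iY m₂).const_mul _), intervalIntegral.integral_add (ipa.const_mul K) (iϕ.const_mul K),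
          intervalIntegral.integral_const_mul, intervalIntegral.integral_const_mul,
          intervalIntegral.integral_const_mul]
      rw [hL, hRr, abs_mul] at hkey
      have hm2' : (1 : ℝ) ≤ |(m₂ : ℝ)| := by
        rw [abs_of_nonneg hm2]
        have : 1 ≤ m₂ := by omega
        exact_mod_cast this
      have hk1 : c ^ 2 * T ≤ K * (∫ r in s..s', |p r|) + K * SF + K ^ 2 * SY :=
        h1.trans ((le_mul_of_one_le_left (abs_nonneg _) hm2').trans hkey)
      have hk2 : K * (∫ r in s..s', |p r|) ≤ c ^ 2 / 2 * (T + SF) := by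
        have h2 : K * (∫ r in s..s', |p r|) ≤ K * (d * (C * (T + SF))) := by
          refine mul_le_mul_of_nonneg_left (hpi.trans ?_) hK0.le
          refine mul_le_mul_of_nonneg_left ?_ hdpos.le
          exact mul_le_mul_of_nonneg_right (by linarith) (by positivity)
        have h3 : K * (d * (C * (T + SF))) = (K * C * d) * (T + SF) := by ring
        rw [h3] at h2
        exact h2.trans (mul_le_mul_of_nonneg_right hQ2 (by positivity))
      have hk3 : c ^ 2 / 2 * T ≤ C3 * SY := by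
        have h2 : (c ^ 2 / 2 + K) * SF ≤ (c ^ 2 / 2 + K) * (C1 * SY) :=
          mul_le_mul_of_nonneg_left hSFb (by positivity)
        have h3 : C3 * SY = (c ^ 2 / 2 + K) * (C1 * SY) + K ^ 2 * SY := by rw [hC3]; ring
        rw [h3]
        linarith
      have hk4 : SY ≤ C * d * T := by
        rw [hSY, hT, ← intervalIntegral.integral_const_mul]
        refine intervalIntegral.integral_mono_on hs.le (iY m₂) ((iY (m₂ - 1)).const_mul _)
          fun r hr => ?_
        have e1 : |Y r| ^ m₂ = |Y r| * |Y r| ^ (m₂ - 1) := by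
          rw [← pow_succ']
          congr 1
          omega
        rw [e1]
        refine mul_le_mul_of_nonneg_right ((hYb r hr).trans ?_) (by positivity)
        exact mul_le_mul_of_nonneg_right (by linarith) hdpos.le
      refine TGapTwo_zero hs hYc (m := m₂ - 1) ?_
      change T ≤ 0
      have hk5 : C3 * SY ≤ c ^ 2 / 4 * T := by
        have h2 : C3 * SY ≤ C3 * (C * d * T) := mul_le_mul_of_nonneg_left hk4 hC3p.le
        have h3 : C3 * (C * d * T) = (C3 * C * d) * T := by ring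
        rw [h3] at h2
        exact h2.trans (mul_le_mul_of_nonneg_right hQ3 hT0)
      have hk6 : c ^ 2 / 4 * T ≤ 0 := by
        have h2 : c ^ 2 / 2 * T = c ^ 2 / 4 * T + c ^ 2 / 4 * T := by ring
        rw [h2] at hk3
        linarith
      by_contra hcon
      push Not at hcon
      have : 0 < c ^ 2 / 4 * T := by positivity
      linarith
  intro t ht
  refine ⟨?_, hY0 t ht⟩
  refine TGapTwo_zero hs G.rl.Xc (m := m₁ + 1) (hX.trans (le_of_eq ?_)) t ht
  have : (∫ r in s..s', |Y r|) = ∫ r in s..s', (0 : ℝ) := by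
    refine intervalIntegral.integral_congr fun r hr => ?_
    rw [hu] at hr
    rw [hY0 r hr, abs_zero]
  rw [this, intervalIntegral.integral_zero, mul_zero]

end Pool.Agent.Lib.MP_28b8de_an.TT
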