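import Pool.Agent.Lib.MP_28b8de_an.T.THz
import Pool.Agent.Lib.MP_28b8de_an.T.TZw

/-!
MP_28b8de_an, module TGen.

Zariski density of C in the (t,z) plane, and in (t,z,y) space if y is nowhere a function of (t,z) on C.
PROOFS.  gen2: zw with W = ℝ, w = id, x = z: the second alternative is HasZ (contradiction with hasZ_false), the third: b : ℝ → ℝ analytic, zero on C near t₀, hence zero near t₀ (perf_ev).
(a : ℝ × ℝ → ℝ; the point (t₀, z t₀).)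
gen3: zw with W = ℝ × ℝ, w t = (t, z t), x = y, for a' (v,Y) = a (v.1, v.2, Y): second alternative is HasY; third contradicts gen2.
Zw4: zw with W = ℝ × ℝ × ℝ, w t = (t, z t, y t), x = x, a' (v,X) = a (v.1, v.2.1, v.2.2, X): third alternative contradicts gen3.
cont: q is continuous at the points of (0,T) (ts_cont).  Choose ε in zw so small that t₁ ∈ Ioo 0 T.
-/

set_option linter.unusedSectionVars false

namespace Pool.Agent.Lib.MP_28b8de_an.TT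

open Filter Topology Set MeasureTheory
open Pool.Agent.Lib.MP_28b8de_an.PT (Adm Perf gron gron_back volterra kder ae_zero perf_inner stay)

variable {L : ℝ × ℝ × ℝ → ℝ} {B F G : ℝ × V3 → ℝ} {R M T : ℝ} {u : ℝ → ℝ} {q : ℝ → V3}
  {p : ℝ → V3 →L[ℝ] ℝ} {C : Set ℝ}


private theorem gen_eps {t₀ T : ℝ} (ht₀' : t₀ ∈ Ioo 0 T) :
    ∃ δ : ℝ, 0 < δ ∧ ∀ t : ℝ, |t - t₀| < δ → t ∈ Ioo 0 T := by
  refine ⟨min t₀ (T - t₀), lt_min ht₀'.1 (by linarith [ht₀'.2]), ?_⟩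
  intro t ht
  have h1 := lt_of_lt_of_le ht (min_le_left t₀ (T - t₀))
  have h2 := lt_of_lt_of_le ht (min_le_right t₀ (T - t₀))
  rw [abs_lt] at h1 h2
  exact ⟨by linarith [h1.1], by linarith [h2.2]⟩

private theorem gen_cont (h : Sit L B F G R M T u q p C) {t₀ : ℝ} (ht₀' : t₀ ∈ Ioo 0 T) :
    ∀ᶠ t in 𝓝 t₀, ContinuousAt q t := by
  filter_upwards [Ioo_mem_nhds ht₀'.1 ht₀'.2] with t ht
  exact ts_cont h.ts ht

theorem gen2 (h : Sit L B F G R M T u q p C) {t₀ : ℝ} (ht₀ : t₀ ∈ C) (ht₀' : t₀ ∈ Ioo 0 T) :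
    Gen C (fun t => (t, (q t).1)) t₀ := by
  intro a ha h0
  obtain ⟨δ, hδ, hδ'⟩ := gen_eps ht₀'
  have hc := gen_cont h ht₀'
  have hz : ∀ᶠ t in 𝓝 t₀, ContinuousAt (fun t => (q t).1) t := by
    filter_upwards [hc] with t ht
    exact ht.fst
  rcases zw (W := ℝ) (w := fun t => t) (x := fun t => (q t).1) ht₀
    (Eventually.of_forall fun t => continuousAt_id) hz (a := a) ha h0 hδ with h1 | h1 | h1
  · exact h1
  · obtain ⟨t₁, ht₁, hd, ξ, hξ, hev⟩ := h1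
    exact (hasZ_false h ⟨t₁, ht₁, hδ' t₁ hd, ξ, hξ, hev⟩).elim
  · obtain ⟨b, hb, hb0, hbn⟩ := h1
    exact (hbn (perf_ev h.perf ht₀ hb hb0)).elim

/-- an analytic function of `(t,z,y)` that vanishes on `C` -/
theorem zy (h : Sit L B F G R M T u q p C) {t₀ : ℝ} (ht₀ : t₀ ∈ C)
    (ht₀' : t₀ ∈ Ioo 0 T) {a : ℝ × ℝ × ℝ → ℝ} (ha : AnalyticAt ℝ a (t₀, (q t₀).1, (q t₀).2.1))
    (h0 : ∀ᶠ t in 𝓝 t₀, t ∈ C → a (t, (q t).1, (q t).2.1) = 0) :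
    (∀ᶠ z in 𝓝 ((t₀, (q t₀).1, (q t₀).2.1) : ℝ × ℝ × ℝ), a z = 0) ∨ HasY T q C := by
  obtain ⟨δ, hδ, hδ'⟩ := gen_eps ht₀'
  have hc := gen_cont h ht₀'
  have hw : ∀ᶠ t in 𝓝 t₀, ContinuousAt (fun t => ((t, (q t).1) : ℝ × ℝ)) t := by
    filter_upwards [hc] with t ht
    exact continuousAt_id.prodMk ht.fst
  have hy : ∀ᶠ t in 𝓝 t₀, ContinuousAt (fun t => (q t).2.1) t := by
    filter_upwards [hc] with t ht
    exact ht.snd.fst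
  -- the associator
  let e : (ℝ × ℝ) × ℝ →L[ℝ] ℝ × ℝ × ℝ :=
    ((ContinuousLinearMap.fst ℝ ℝ ℝ).comp (ContinuousLinearMap.fst ℝ (ℝ × ℝ) ℝ)).prod
      (((ContinuousLinearMap.snd ℝ ℝ ℝ).comp (ContinuousLinearMap.fst ℝ (ℝ × ℝ) ℝ)).prod
        (ContinuousLinearMap.snd ℝ (ℝ × ℝ) ℝ))
  have he : ∀ v : (ℝ × ℝ) × ℝ, e v = (v.1.1, v.1.2, v.2) := fun v => rfl
  have ha' : AnalyticAt ℝ (fun v : (ℝ × ℝ) × ℝ => a (e v)) ((t₀, (q t₀).1), (q t₀).2.1) :=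
    AnalyticAt.fun_comp (f := fun v => e v) (by simpa [he] using ha) (e.analyticAt _)
  rcases zw (W := ℝ × ℝ) (w := fun t => (t, (q t).1)) (x := fun t => (q t).2.1) ht₀ hw hy
    (a := fun v => a (e v)) ha' h0 hδ with h1 | h1 | h1
  · left
    have hinv : Tendsto (fun v : ℝ × ℝ × ℝ => (((v.1, v.2.1), v.2.2) : (ℝ × ℝ) × ℝ))
        (𝓝 (t₀, (q t₀).1, (q t₀).2.1)) (𝓝 ((t₀, (q t₀).1), (q t₀).2.1)) := by
      have : Continuous (fun v : ℝ × ℝ × ℝ => (((v.1, v.2.1), v.2.2) : (ℝ × ℝ) × ℝ)) := by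
        fun_prop
      exact this.tendsto _
    exact hinv.eventually h1
  · right
    obtain ⟨t₁, ht₁, hd, ξ, hξ, hev⟩ := h1
    exact ⟨t₁, ht₁, hδ' t₁ hd, ξ, hξ, hev⟩
  · obtain ⟨b, hb, hb0, hbn⟩ := h1
    exact (hbn (gen2 h ht₀ ht₀' b hb hb0)).elim

theorem gen3 (h : Sit L B F G R M T u q p C) (hY : ¬ HasY T q C) {t₀ : ℝ} (ht₀ : t₀ ∈ C)
    (ht₀' : t₀ ∈ Ioo 0 T) : Gen C (fun t => (t, (q t).1, (q t).2.1)) t₀ := by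
  intro a ha h0
  exact (zy h ht₀ ht₀' ha h0).resolve_right hY

/-- an analytic function of `(t,z,x)` that vanishes on `C` -/
theorem zx (h : Sit L B F G R M T u q p C) {t₀ : ℝ} (ht₀ : t₀ ∈ C)
    (ht₀' : t₀ ∈ Ioo 0 T) {a : (ℝ × ℝ) × ℝ → ℝ} (ha : AnalyticAt ℝ a ((t₀, (q t₀).1), (q t₀).2.2))
    (h0 : ∀ᶠ t in 𝓝 t₀, t ∈ C → a ((t, (q t).1), (q t).2.2) = 0) {ε : ℝ} (hε : 0 < ε) :
    (∀ᶠ z in 𝓝 ((t₀, (q t₀).1), (q t₀).2.2), a z = 0) ∨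
    ∃ t₁ ∈ C, |t₁ - t₀| < ε ∧ t₁ ∈ Ioo 0 T ∧ ∃ ξ : ℝ × ℝ → ℝ, AnalyticAt ℝ ξ (t₁, (q t₁).1) ∧
      ∀ᶠ t in 𝓝 t₁, t ∈ C → (q t).2.2 = ξ (t, (q t).1) := by
  obtain ⟨δ, hδ, hδ'⟩ := gen_eps ht₀'
  have hc := gen_cont h ht₀'
  have hw : ∀ᶠ t in 𝓝 t₀, ContinuousAt (fun t => ((t, (q t).1) : ℝ × ℝ)) t := by
    filter_upwards [hc] with t ht
    exact continuousAt_id.prodMk ht.fst
  have hx : ∀ᶠ t in 𝓝 t₀, ContinuousAt (fun t => (q t).2.2) t := by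
    filter_upwards [hc] with t ht
    exact ht.snd.snd
  rcases zw (W := ℝ × ℝ) (w := fun t => (t, (q t).1)) (x := fun t => (q t).2.2) ht₀ hw hx
    (a := a) ha h0 (lt_min hε hδ) with h1 | h1 | h1
  · exact Or.inl h1
  · right
    obtain ⟨t₁, ht₁, hd, ξ, hξ, hev⟩ := h1
    exact ⟨t₁, ht₁, lt_of_lt_of_le hd (min_le_left _ _),
      hδ' t₁ (lt_of_lt_of_le hd (min_le_right _ _)), ξ, hξ, hev⟩
  · obtain ⟨b, hb, hb0, hbn⟩ := h1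
    exact (hbn (gen2 h ht₀ ht₀' b hb hb0)).elim

/-- an analytic function of all variables that vanishes on `C` -/
theorem zall (h : Sit L B F G R M T u q p C) (hY : ¬ HasY T q C) {t₀ : ℝ} (ht₀ : t₀ ∈ C)
    (ht₀' : t₀ ∈ Ioo 0 T) {a : ℝ × V3 → ℝ} (ha : AnalyticAt ℝ a (t₀, q t₀))
    (h0 : ∀ᶠ t in 𝓝 t₀, t ∈ C → a (t, q t) = 0) {ε : ℝ} (hε : 0 < ε) :
    (∀ᶠ z in 𝓝 ((t₀, q t₀) : ℝ × V3), a z = 0) ∨
    ∃ ξ t₁, |t₁ - t₀| < ε ∧ AtX T q C ξ t₁ := by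
  obtain ⟨δ, hδ, hδ'⟩ := gen_eps ht₀'
  have hc := gen_cont h ht₀'
  have hw : ∀ᶠ t in 𝓝 t₀, ContinuousAt (fun t => ((t, (q t).1, (q t).2.1) : ℝ × ℝ × ℝ)) t := by
    filter_upwards [hc] with t ht
    exact continuousAt_id.prodMk (ht.fst.prodMk ht.snd.fst)
  have hx : ∀ᶠ t in 𝓝 t₀, ContinuousAt (fun t => (q t).2.2) t := by
    filter_upwards [hc] with t ht
    exact ht.snd.snd
  let e : (ℝ × ℝ × ℝ) × ℝ →L[ℝ] ℝ × V3 :=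
    ((ContinuousLinearMap.fst ℝ ℝ (ℝ × ℝ)).comp (ContinuousLinearMap.fst ℝ (ℝ × ℝ × ℝ) ℝ)).prod
      ((((ContinuousLinearMap.fst ℝ ℝ ℝ).comp (ContinuousLinearMap.snd ℝ ℝ (ℝ × ℝ))).comp
          (ContinuousLinearMap.fst ℝ (ℝ × ℝ × ℝ) ℝ)).prod
        ((((ContinuousLinearMap.snd ℝ ℝ ℝ).comp (ContinuousLinearMap.snd ℝ ℝ (ℝ × ℝ))).comp
          (ContinuousLinearMap.fst ℝ (ℝ × ℝ × ℝ) ℝ)).prod
          (ContinuousLinearMap.snd ℝ (ℝ × ℝ × ℝ) ℝ)))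
  have he : ∀ v : (ℝ × ℝ × ℝ) × ℝ, e v = (v.1.1, v.1.2.1, v.1.2.2, v.2) := fun v => rfl
  have ha' : AnalyticAt ℝ (fun v : (ℝ × ℝ × ℝ) × ℝ => a (e v))
      ((t₀, (q t₀).1, (q t₀).2.1), (q t₀).2.2) :=
    AnalyticAt.fun_comp (f := fun v => e v) (by simpa [he] using ha) (e.analyticAt _)
  rcases zw (W := ℝ × ℝ × ℝ) (w := fun t => (t, (q t).1, (q t).2.1)) (x := fun t => (q t).2.2)
    ht₀ hw hx (a := fun v => a (e v)) ha' h0 (lt_min hε hδ) with h1 | h1 | h1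
  · left
    have hinv : Tendsto (fun v : ℝ × V3 => (((v.1, v.2.1, v.2.2.1), v.2.2.2) : (ℝ × ℝ × ℝ) × ℝ))
        (𝓝 (t₀, q t₀)) (𝓝 ((t₀, (q t₀).1, (q t₀).2.1), (q t₀).2.2)) := by
      have : Continuous (fun v : ℝ × V3 =>
          (((v.1, v.2.1, v.2.2.1), v.2.2.2) : (ℝ × ℝ × ℝ) × ℝ)) := by
        fun_prop
      exact this.tendsto _
    exact hinv.eventually h1
  · right
    obtain ⟨t₁, ht₁, hd, ξ, hξ, hev⟩ := h1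
    exact ⟨ξ, t₁, lt_of_lt_of_le hd (min_le_left _ _), ht₁,
      hδ' t₁ (lt_of_lt_of_le hd (min_le_right _ _)), hξ, hev⟩
  · obtain ⟨b, hb, hb0, hbn⟩ := h1
    exact (hbn (gen3 h hY ht₀ ht₀' b hb hb0)).elim

end Pool.Agent.Lib.MP_28b8de_an.TT
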