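import Pool.Agent.Lib.MP_28b8de_an.T.TCurve
import Pool.Agent.Lib.MP_28b8de_an.T.TZw
import Pool.Agent.Lib.MP_28b8de_an.T.TEmb

/-!
MP_28b8de_an, module THz.

z is nowhere on C an analytic function of t.
PROOF of hasZ_false.  Let ζ analytic at t₀ ∈ C, z = ζ on C near t₀.  der_zero (f = z - ζ, ts_z): L(t, ζ t, y t) = ζ' t for t ∈ C near t₀.  zw with W = ℝ, w = id, x = y, a (t,Y) = L(t, ζ t, Y) - ζ' t:
(i) a = 0 near (t₀, y t₀).  f := z - ζ: f' = L(t,z,y) - L(t,ζ,y) (as L(t,ζ t,y t) = ζ' t near t₀), |f'| ≤ K|f|: zero_der1: z = ζ near t₀.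
  emb_jn with r t = (y t, x t), Θ (t,a,x) = (ζ t, a, x), Fp (t,a,x) = (B(t,ζ t,a,x), F(t,ζ t,a,x)), Gp = (0, G(t,ζ t,a,x)); relations: first component ζ' t = L(t,ζ t,a) near.  emb_goal; contradiction with ng.
(ii) y = η on C near some t₁ ∈ C close to t₀.  der_zero: B(t,ζ,η,x t) = η' for t ∈ C near t₁.  zw with a (t,X) = B(t,ζ t,η t,X) - η' t:
   (ii.i) a = 0 near (t₁, x t₁).  L(t,ζ,η) = ζ' on C near t₁, so near t₁ (perf_ev).  f₁ = z - ζ, f₂ = y - η: f₁' = L(t,z,y) - L(t,ζ,η), f₂' = B(t,z,y,x) - B(t,ζ,η,x): zero_der2: z = ζ, y = η near t₁.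
      emb_jn with r t = (0, x t), Θ (t,a,x) = (ζ t, η t, x), Fp = (0, F(t,ζ,η,x)), Gp = (0, G(t,ζ,η,x)).  emb_goal.
   (ii.ii) x = ξ on C near t₂ ∈ C: curve_goal.
   (ii.iii) b : ℝ → ℝ analytic at t₁, zero on C near t₁, so zero near t₁ (perf_ev): contradiction.
(iii) as (ii.iii).
(All in (0,T): choose the ε of zw so that |t₁ - t₀| < ε implies t₁ ∈ Ioo 0 T and the eventual statements hold near t₁.)
z_an_false: hasZ_false with ζ := z itself.
odeY: near t₀ y = η(t,z) so z' = L(t,z,η(t,z)): ode_an, z_an_false.  odeX: (z,y)' = (L(t,z,y), B(t,z,y,ξ(t,z,y))): ode_an in ℝ × ℝ.  odeG: q' = FF(t,q).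
odeL: L does not depend on y near (t₀,z,y): z' = L(t,z,y t₀).  odeB: B does not depend on x near (t₀,q t₀): (z,y)' = (L(t,z,y), B(t,z,y,x t₀)).
-/

set_option linter.unusedSectionVars false

namespace Pool.Agent.Lib.MP_28b8de_an.TT

open Filter Topology Set MeasureTheory
open Pool.Agent.Lib.MP_28b8de_an.PT (Adm Perf gron gron_back volterra kder ae_zero perf_inner stay)

variable {L : ℝ × ℝ × ℝ → ℝ} {B F G : ℝ × V3 → ℝ} {R M T : ℝ} {u : ℝ → ℝ} {q : ℝ → V3}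
  {p : ℝ → V3 →L[ℝ] ℝ} {C : Set ℝ}


private theorem THz_ev {P : ℝ → Prop} {t₀ : ℝ} (h : ∀ᶠ t in 𝓝 t₀, P t) :
    ∃ δ > 0, ∀ t, |t - t₀| < δ → P t := by
  obtain ⟨δ, hδ, h1⟩ := Metric.eventually_nhds_iff.1 h
  refine ⟨δ, hδ, fun t ht => h1 ?_⟩
  rwa [Real.dist_eq]

private theorem THz_lip {E : Type*} [NormedAddCommGroup E] [NormedSpace ℝ E] {f : E → ℝ}
    (hf : ContDiff ℝ (⊤ : ℕ∞) f) {a b : ℝ → E} {t₀ : ℝ} (ha : ContinuousAt a t₀)
    (hb : ContinuousAt b t₀) (hab : a t₀ = b t₀) :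
    ∃ K : ℝ, 0 ≤ K ∧ ∀ᶠ t in 𝓝 t₀, |f (a t) - f (b t)| ≤ K * ‖a t - b t‖ := by
  obtain ⟨K, U, hU, hL⟩ := ((hf.contDiffAt (x := a t₀)).of_le (m := 1) (by simp)).exists_lipschitzOnWith
  refine ⟨K, K.2, ?_⟩
  have h1 : ∀ᶠ t in 𝓝 t₀, a t ∈ U := ha.eventually hU
  have h2 : ∀ᶠ t in 𝓝 t₀, b t ∈ U := hb.eventually (by rw [← hab]; exact hU)
  filter_upwards [h1, h2] with t h3 h4
  have h5 := hL.dist_le_mul _ h3 _ h4
  rwa [Real.dist_eq, dist_eq_norm] at h5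

private theorem THz_pair {f g : ℝ → ℝ} {a b : ℝ} (hf : IntervalIntegrable f volume a b)
    (hg : IntervalIntegrable g volume a b) :
    ∫ t in a..b, (f t, g t) = (∫ t in a..b, f t, ∫ t in a..b, g t) := by
  unfold intervalIntegral
  rw [integral_pair hf.1 hg.1, integral_pair hf.2 hg.2]
  rfl

/-- the equations for `y` and `x` in integral form -/
private theorem THz_int (h : TS L B F G R M T u q) {s t : ℝ} (hs : s ∈ Ioo 0 T)
    (ht : t ∈ Ioo 0 T) :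
    IntervalIntegrable (fun r => B (r, q r)) volume s t ∧
    (q t).2.1 - (q s).2.1 = ∫ r in s..t, B (r, q r) := by
  have hsub : uIcc s t ⊆ Ioo 0 T := by
    intro r hr
    rw [mem_uIcc] at hr
    rcases hr with hr | hr
    · exact ⟨lt_of_lt_of_le hs.1 hr.1, lt_of_le_of_lt hr.2 ht.2⟩
    · exact ⟨lt_of_lt_of_le ht.1 hr.1, lt_of_le_of_lt hr.2 hs.2⟩
  obtain ⟨-, hBd, -, -⟩ := ts_diff h
  have hc : ContinuousOn (fun r => B (r, q r)) (uIcc s t) := by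
    intro r hr
    have h1 : ContinuousAt (fun r => ((r, q r) : ℝ × V3)) r :=
      continuousAt_id.prodMk (ts_cont h (hsub hr))
    exact (hBd.continuous.continuousAt.comp h1).continuousWithinAt
  refine ⟨hc.intervalIntegrable, ?_⟩
  rw [intervalIntegral.integral_eq_sub_of_hasDerivAt (f := fun r => (q r).2.1)
    (fun r hr => ts_y h (hsub hr)) hc.intervalIntegrable]

private theorem THz_mem {t₀ ε t : ℝ} (ht : t ∈ Ioo (t₀ - ε) (t₀ + ε)) : |t - t₀| < ε := by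
  rw [abs_lt]
  exact ⟨by linarith [ht.1], by linarith [ht.2]⟩

/-- case (i): `z` is an analytic function of `t` and `y` is free -/
private theorem THz_i (h : TS L B F G R M T u q) {t₀ : ℝ} (ht₀ : t₀ ∈ C) (ht₀' : t₀ ∈ Ioo 0 T)
    {ζ : ℝ → ℝ} (hζ : AnalyticAt ℝ ζ t₀) (hz0 : (q t₀).1 = ζ t₀)
    (ha : ∀ᶠ p : ℝ × ℝ in 𝓝 (t₀, (q t₀).2.1), L (p.1, ζ p.1, p.2) - deriv ζ p.1 = 0) :
    Goal (FF L B F) (GG G) q C := by
  obtain ⟨hLd, hBd, hFd, hGd⟩ := ts_diff h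
  have hqc : ContinuousAt q t₀ := ts_cont h ht₀'
  have hzc : ContinuousAt (fun t => (q t).1) t₀ := hqc.fst
  have hyc : ContinuousAt (fun t => (q t).2.1) t₀ := hqc.snd.fst
  have hζc : ContinuousAt ζ t₀ := hζ.continuousAt
  -- `z = ζ` near `t₀`
  have hzζ : ∀ᶠ t in 𝓝 t₀, (q t).1 - ζ t = 0 := by
    obtain ⟨K, hK, hlip⟩ := THz_lip hLd (a := fun t => (t, (q t).1, (q t).2.1))
      (b := fun t => (t, ζ t, (q t).2.1)) (t₀ := t₀)
      (continuousAt_id.prodMk (hzc.prodMk hyc)) (continuousAt_id.prodMk (hζc.prodMk hyc))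
      (by simp [hz0])
    have hay : ∀ᶠ t in 𝓝 t₀, L (t, ζ t, (q t).2.1) - deriv ζ t = 0 :=
      (continuousAt_id.prodMk hyc).eventually ha
    refine zero_der1 (f' := fun t => L (t, (q t).1, (q t).2.1) - deriv ζ t) (K := K)
      (by rw [hz0, sub_self]) ?_
    filter_upwards [hlip, hay, Ioo_mem_nhds ht₀'.1 ht₀'.2, hζ.eventually_analyticAt] with t h1 h2 h3 h4
    refine ⟨(ts_z h h3).sub h4.differentiableAt.hasDerivAt, ?_⟩
    have e1 : deriv ζ t = L (t, ζ t, (q t).2.1) := by linarith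
    rw [e1]
    refine h1.trans (le_of_eq ?_)
    congr 1
    simp [Prod.norm_def]
  -- embedding
  have hball := ts_ball h (Ioo_subset_Icc_self ht₀')
  have hfst : AnalyticAt ℝ (fun w : ℝ × ℝ × ℝ => w.1) (t₀, (q t₀).2.1, (q t₀).2.2) := analyticAt_fst
  have hζw : AnalyticAt ℝ (fun w : ℝ × ℝ × ℝ => ζ w.1) (t₀, (q t₀).2.1, (q t₀).2.2) :=
    AnalyticAt.comp_of_eq hζ hfst rfl
  have hinner : AnalyticAt ℝ (fun w : ℝ × ℝ × ℝ => ((w.1, ζ w.1, w.2.1, w.2.2) : ℝ × V3))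
      (t₀, (q t₀).2.1, (q t₀).2.2) :=
    hfst.prod (hζw.prod ((analyticAt_fst.comp_of_eq analyticAt_snd rfl).prod
      (analyticAt_snd.comp_of_eq analyticAt_snd rfl)))
  have hq0 : ((t₀, ζ t₀, (q t₀).2.1, (q t₀).2.2) : ℝ × V3) = (t₀, q t₀) := by
    rw [← hz0]
  have hBa : AnalyticAt ℝ (fun w : ℝ × ℝ × ℝ => B (w.1, ζ w.1, w.2.1, w.2.2))
      (t₀, (q t₀).2.1, (q t₀).2.2) := AnalyticAt.comp_of_eq (h.Ba _ hball.1) hinner hq0
  have hFa : AnalyticAt ℝ (fun w : ℝ × ℝ × ℝ => F (w.1, ζ w.1, w.2.1, w.2.2))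
      (t₀, (q t₀).2.1, (q t₀).2.2) := AnalyticAt.comp_of_eq (h.Fa _ hball.1) hinner hq0
  have hGa : AnalyticAt ℝ (fun w : ℝ × ℝ × ℝ => G (w.1, ζ w.1, w.2.1, w.2.2))
      (t₀, (q t₀).2.1, (q t₀).2.2) := AnalyticAt.comp_of_eq (h.Ga _ hball.1) hinner hq0
  have hΘd : ∀ w : ℝ × ℝ × ℝ, DifferentiableAt ℝ ζ w.1 → ∀ v : ℝ × ℝ × ℝ,
      fderiv ℝ (fun w : ℝ × ℝ × ℝ => ((ζ w.1, w.2.1, w.2.2) : V3)) w v
        = (deriv ζ w.1 * v.1, v.2.1, v.2.2) := by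
    intro w hw v
    have h1 : HasFDerivAt (fun w : ℝ × ℝ × ℝ => ζ w.1)
        ((ContinuousLinearMap.toSpanSingleton ℝ (deriv ζ w.1)).comp
          (ContinuousLinearMap.fst ℝ ℝ (ℝ × ℝ))) w :=
      hw.hasDerivAt.hasFDerivAt.comp w hasFDerivAt_fst
    have h2 : HasFDerivAt (fun w : ℝ × ℝ × ℝ => ((ζ w.1, w.2) : V3))
        (((ContinuousLinearMap.toSpanSingleton ℝ (deriv ζ w.1)).comp
          (ContinuousLinearMap.fst ℝ ℝ (ℝ × ℝ))).prod (ContinuousLinearMap.snd ℝ ℝ (ℝ × ℝ))) w :=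
      h1.prodMk hasFDerivAt_snd
    have h3 : (fun w : ℝ × ℝ × ℝ => ((ζ w.1, w.2.1, w.2.2) : V3)) =
        (fun w : ℝ × ℝ × ℝ => ((ζ w.1, w.2) : V3)) := rfl
    rw [h3, h2.fderiv]
    ext <;> simp [mul_comm]
  obtain ⟨ε, hε, hεp⟩ := THz_ev (hzζ.and (Ioo_mem_nhds ht₀'.1 ht₀'.2))
  obtain ⟨δ, hδ, hjn⟩ := emb_jn (V := V3) (F := FF L B F) (G := GG G) h.tr ht₀'
    (Fp := fun w => (B (w.1, ζ w.1, w.2.1, w.2.2), F (w.1, ζ w.1, w.2.1, w.2.2)))
    (Gp := fun w => (0, G (w.1, ζ w.1, w.2.1, w.2.2)))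
    (Θ := fun w => ((ζ w.1, w.2.1, w.2.2) : V3)) (r := fun t => ((q t).2.1, (q t).2.2))
    (hBa.prod hFa) (analyticAt_const.prod hGa)
    (hζw.prod ((analyticAt_fst.comp_of_eq analyticAt_snd rfl).prod
      (analyticAt_snd.comp_of_eq analyticAt_snd rfl)))
    (by
      have c1 : ContinuousAt (fun w : ℝ × ℝ × ℝ => ((w.1, w.2.1) : ℝ × ℝ))
          (t₀, (q t₀).2.1, (q t₀).2.2) := by fun_prop
      have c2 := c1.eventually ha
      have c3 : ∀ᶠ w : ℝ × ℝ × ℝ in 𝓝 (t₀, (q t₀).2.1, (q t₀).2.2), AnalyticAt ℝ ζ w.1 :=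
        (continuousAt_fst (p := (t₀, (q t₀).2.1, (q t₀).2.2))).eventually hζ.eventually_analyticAt
      filter_upwards [c2, c3] with w h1 h2
      rw [hΘd w h2.differentiableAt]
      simp only [FF, mul_one]
      have e1 : deriv ζ w.1 = L (w.1, ζ w.1, w.2.1) := by linarith
      rw [e1])
    (by
      have c3 : ∀ᶠ w : ℝ × ℝ × ℝ in 𝓝 (t₀, (q t₀).2.1, (q t₀).2.2), AnalyticAt ℝ ζ w.1 :=
        (continuousAt_fst (p := (t₀, (q t₀).2.1, (q t₀).2.2))).eventually hζ.eventually_analyticAt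
      filter_upwards [c3] with w h2
      rw [hΘd w h2.differentiableAt]
      simp only [GG, mul_zero])
    hε
    (by
      intro t ht
      have h1 := (hεp t (THz_mem ht)).2
      have h2 := ts_cont h h1
      exact (h2.snd.fst.prodMk h2.snd.snd).continuousWithinAt)
    (by
      intro s hs t ht
      have h1 := (hεp s (THz_mem hs)).2
      have h2 := (hεp t (THz_mem ht)).2
      obtain ⟨i1, e1⟩ := THz_int h h1 h2
      obtain ⟨i2, e2⟩ := ts_x h (Ioo_subset_Icc_self h1) (Ioo_subset_Icc_self h2)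
      rw [Prod.mk_sub_mk, e1, e2, ← THz_pair i1 i2]
      refine intervalIntegral.integral_congr fun r hr => ?_
      have hr' : |r - t₀| < ε := by
        rw [mem_uIcc] at hr
        apply THz_mem
        rcases hr with hr | hr
        · exact ⟨lt_of_lt_of_le hs.1 hr.1, lt_of_le_of_lt hr.2 ht.2⟩
        · exact ⟨lt_of_lt_of_le ht.1 hr.1, lt_of_le_of_lt hr.2 hs.2⟩
      have e3 : ζ r = (q r).1 := by linarith [(hεp r hr').1]
      simp only [e3, Prod.smul_mk, smul_eq_mul, mul_zero, Prod.mk_add_mk, add_zero])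
    (by
      intro t ht
      have e3 : ζ t = (q t).1 := by linarith [(hεp t (THz_mem ht)).1]
      simp only [e3])
  exact emb_goal ht₀ hδ hjn

/-- case (ii.i): `z` and `y` are analytic functions of `t`, `x` is free -/
private theorem THz_ii (h : TS L B F G R M T u q) {t₀ : ℝ} (ht₀ : t₀ ∈ C) (ht₀' : t₀ ∈ Ioo 0 T)
    {ζ η : ℝ → ℝ} (hζ : AnalyticAt ℝ ζ t₀) (hη : AnalyticAt ℝ η t₀) (hz0 : (q t₀).1 = ζ t₀)
    (hy0 : (q t₀).2.1 = η t₀) (hL0 : ∀ᶠ t in 𝓝 t₀, L (t, ζ t, η t) - deriv ζ t = 0)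
    (ha : ∀ᶠ p : ℝ × ℝ in 𝓝 (t₀, (q t₀).2.2), B (p.1, ζ p.1, η p.1, p.2) - deriv η p.1 = 0) :
    Goal (FF L B F) (GG G) q C := by
  obtain ⟨hLd, hBd, hFd, hGd⟩ := ts_diff h
  have hqc : ContinuousAt q t₀ := ts_cont h ht₀'
  have hzc : ContinuousAt (fun t => (q t).1) t₀ := hqc.fst
  have hyc : ContinuousAt (fun t => (q t).2.1) t₀ := hqc.snd.fst
  have hxc : ContinuousAt (fun t => (q t).2.2) t₀ := hqc.snd.snd
  have hζc : ContinuousAt ζ t₀ := hζ.continuousAt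
  have hηc : ContinuousAt η t₀ := hη.continuousAt
  have hzy : ∀ᶠ t in 𝓝 t₀, (q t).1 - ζ t = 0 ∧ (q t).2.1 - η t = 0 := by
    obtain ⟨K, hK, hlip⟩ := THz_lip hLd (a := fun t => (t, (q t).1, (q t).2.1))
      (b := fun t => (t, ζ t, η t)) (t₀ := t₀)
      (continuousAt_id.prodMk (hzc.prodMk hyc)) (continuousAt_id.prodMk (hζc.prodMk hηc))
      (by simp [hz0, hy0])
    obtain ⟨K', hK', hlip'⟩ := THz_lip hBd (a := fun t => (t, (q t).1, (q t).2.1, (q t).2.2))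
      (b := fun t => (t, ζ t, η t, (q t).2.2)) (t₀ := t₀)
      (continuousAt_id.prodMk (hzc.prodMk (hyc.prodMk hxc)))
      (continuousAt_id.prodMk (hζc.prodMk (hηc.prodMk hxc)))
      (by simp [hz0, hy0])
    have hay : ∀ᶠ t in 𝓝 t₀, B (t, ζ t, η t, (q t).2.2) - deriv η t = 0 :=
      (continuousAt_id.prodMk hxc).eventually ha
    refine zero_der2 (f₁' := fun t => L (t, (q t).1, (q t).2.1) - deriv ζ t)
      (f₂' := fun t => B (t, q t) - deriv η t) (K := K + K')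
      (by rw [hz0, sub_self]) (by rw [hy0, sub_self]) ?_
    filter_upwards [hlip, hlip', hay, hL0, Ioo_mem_nhds ht₀'.1 ht₀'.2,
      hζ.eventually_analyticAt, hη.eventually_analyticAt] with t h1 h1' h2 h2' h3 h4 h4'
    have e1 : deriv ζ t = L (t, ζ t, η t) := by linarith
    have e2 : deriv η t = B (t, ζ t, η t, (q t).2.2) := by linarith
    have a1 := abs_nonneg ((q t).1 - ζ t)
    have a2 := abs_nonneg ((q t).2.1 - η t)
    refine ⟨(ts_z h h3).sub h4.differentiableAt.hasDerivAt,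
      (ts_y h h3).sub h4'.differentiableAt.hasDerivAt, ?_, ?_⟩
    · rw [e1]
      refine h1.trans ?_
      have n1 : ‖((t, (q t).1, (q t).2.1) : ℝ × ℝ × ℝ) - (t, ζ t, η t)‖ ≤
          |(q t).1 - ζ t| + |(q t).2.1 - η t| := by
        simp only [Prod.mk_sub_mk, sub_self, Prod.norm_def, norm_zero, Real.norm_eq_abs]
        refine max_le (by positivity) (max_le ?_ ?_) <;> linarith
      calc K * ‖((t, (q t).1, (q t).2.1) : ℝ × ℝ × ℝ) - (t, ζ t, η t)‖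
          ≤ K * (|(q t).1 - ζ t| + |(q t).2.1 - η t|) := mul_le_mul_of_nonneg_left n1 hK
        _ ≤ (K + K') * (|(q t).1 - ζ t| + |(q t).2.1 - η t|) :=
            mul_le_mul_of_nonneg_right (by linarith) (by positivity)
    · rw [e2]
      refine h1'.trans ?_
      have n1 : ‖((t, (q t).1, (q t).2.1, (q t).2.2) : ℝ × V3) - (t, ζ t, η t, (q t).2.2)‖ ≤
          |(q t).1 - ζ t| + |(q t).2.1 - η t| := by
        simp only [Prod.mk_sub_mk, sub_self, Prod.norm_def, norm_zero, Real.norm_eq_abs]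
        refine max_le (by positivity) (max_le ?_ (max_le ?_ ?_))
        · linarith
        · linarith
        · positivity
      calc K' * ‖((t, (q t).1, (q t).2.1, (q t).2.2) : ℝ × V3) - (t, ζ t, η t, (q t).2.2)‖
          ≤ K' * (|(q t).1 - ζ t| + |(q t).2.1 - η t|) := mul_le_mul_of_nonneg_left n1 hK'
        _ ≤ (K + K') * (|(q t).1 - ζ t| + |(q t).2.1 - η t|) :=
            mul_le_mul_of_nonneg_right (by linarith) (by positivity)
  have hball := ts_ball h (Ioo_subset_Icc_self ht₀')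
  have hfst : AnalyticAt ℝ (fun w : ℝ × ℝ × ℝ => w.1) (t₀, (0 : ℝ), (q t₀).2.2) := analyticAt_fst
  have hζw : AnalyticAt ℝ (fun w : ℝ × ℝ × ℝ => ζ w.1) (t₀, (0 : ℝ), (q t₀).2.2) :=
    AnalyticAt.comp_of_eq hζ hfst rfl
  have hηw : AnalyticAt ℝ (fun w : ℝ × ℝ × ℝ => η w.1) (t₀, (0 : ℝ), (q t₀).2.2) :=
    AnalyticAt.comp_of_eq hη hfst rfl
  have hsnd : AnalyticAt ℝ (fun w : ℝ × ℝ × ℝ => w.2.2) (t₀, (0 : ℝ), (q t₀).2.2) :=
    analyticAt_snd.comp_of_eq analyticAt_snd rfl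
  have hinner : AnalyticAt ℝ (fun w : ℝ × ℝ × ℝ => ((w.1, ζ w.1, η w.1, w.2.2) : ℝ × V3))
      (t₀, (0 : ℝ), (q t₀).2.2) := hfst.prod (hζw.prod (hηw.prod hsnd))
  have hq0 : ((t₀, ζ t₀, η t₀, (q t₀).2.2) : ℝ × V3) = (t₀, q t₀) := by
    rw [← hz0, ← hy0]
  have hFa : AnalyticAt ℝ (fun w : ℝ × ℝ × ℝ => F (w.1, ζ w.1, η w.1, w.2.2))
      (t₀, (0 : ℝ), (q t₀).2.2) := AnalyticAt.comp_of_eq (h.Fa _ hball.1) hinner hq0
  have hGa : AnalyticAt ℝ (fun w : ℝ × ℝ × ℝ => G (w.1, ζ w.1, η w.1, w.2.2))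
      (t₀, (0 : ℝ), (q t₀).2.2) := AnalyticAt.comp_of_eq (h.Ga _ hball.1) hinner hq0
  have hΘd : ∀ w : ℝ × ℝ × ℝ, DifferentiableAt ℝ ζ w.1 → DifferentiableAt ℝ η w.1 →
      ∀ v : ℝ × ℝ × ℝ,
      fderiv ℝ (fun w : ℝ × ℝ × ℝ => ((ζ w.1, η w.1, w.2.2) : V3)) w v
        = (deriv ζ w.1 * v.1, deriv η w.1 * v.1, v.2.2) := by
    intro w hw hw' v
    have h1 : HasFDerivAt (fun w : ℝ × ℝ × ℝ => ζ w.1)
        ((ContinuousLinearMap.toSpanSingleton ℝ (deriv ζ w.1)).comp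
          (ContinuousLinearMap.fst ℝ ℝ (ℝ × ℝ))) w :=
      hw.hasDerivAt.hasFDerivAt.comp w hasFDerivAt_fst
    have h1' : HasFDerivAt (fun w : ℝ × ℝ × ℝ => η w.1)
        ((ContinuousLinearMap.toSpanSingleton ℝ (deriv η w.1)).comp
          (ContinuousLinearMap.fst ℝ ℝ (ℝ × ℝ))) w :=
      hw'.hasDerivAt.hasFDerivAt.comp w hasFDerivAt_fst
    have h2 : HasFDerivAt (fun w : ℝ × ℝ × ℝ => w.2.2)
        ((ContinuousLinearMap.snd ℝ ℝ ℝ).comp (ContinuousLinearMap.snd ℝ ℝ (ℝ × ℝ))) w :=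
      ((ContinuousLinearMap.snd ℝ ℝ ℝ).comp (ContinuousLinearMap.snd ℝ ℝ (ℝ × ℝ))).hasFDerivAt
    rw [(h1.prodMk (h1'.prodMk h2)).fderiv]
    ext <;> simp [mul_comm]
  obtain ⟨ε, hε, hεp⟩ := THz_ev (hzy.and (Ioo_mem_nhds ht₀'.1 ht₀'.2))
  obtain ⟨δ, hδ, hjn⟩ := emb_jn (V := V3) (F := FF L B F) (G := GG G) h.tr ht₀'
    (Fp := fun w => (0, F (w.1, ζ w.1, η w.1, w.2.2)))
    (Gp := fun w => (0, G (w.1, ζ w.1, η w.1, w.2.2)))
    (Θ := fun w => ((ζ w.1, η w.1, w.2.2) : V3)) (r := fun t => ((0 : ℝ), (q t).2.2))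
    (analyticAt_const.prod hFa) (analyticAt_const.prod hGa)
    (hζw.prod (hηw.prod hsnd))
    (by
      have c1 : ContinuousAt (fun w : ℝ × ℝ × ℝ => ((w.1, w.2.2) : ℝ × ℝ))
          (t₀, (0 : ℝ), (q t₀).2.2) := by fun_prop
      have c2 := c1.eventually ha
      have c3 : ∀ᶠ w : ℝ × ℝ × ℝ in 𝓝 (t₀, (0 : ℝ), (q t₀).2.2), AnalyticAt ℝ ζ w.1 :=
        (continuousAt_fst (p := (t₀, (0 : ℝ), (q t₀).2.2))).eventually hζ.eventually_analyticAt
      have c4 : ∀ᶠ w : ℝ × ℝ × ℝ in 𝓝 (t₀, (0 : ℝ), (q t₀).2.2), AnalyticAt ℝ η w.1 :=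
        (continuousAt_fst (p := (t₀, (0 : ℝ), (q t₀).2.2))).eventually hη.eventually_analyticAt
      have c5 : ∀ᶠ w : ℝ × ℝ × ℝ in 𝓝 (t₀, (0 : ℝ), (q t₀).2.2),
          L (w.1, ζ w.1, η w.1) - deriv ζ w.1 = 0 :=
        (continuousAt_fst (p := (t₀, (0 : ℝ), (q t₀).2.2))).eventually hL0
      filter_upwards [c2, c3, c4, c5] with w h1 h2 h3 h4
      rw [hΘd w h2.differentiableAt h3.differentiableAt]
      simp only [FF, mul_one]
      have e1 : deriv ζ w.1 = L (w.1, ζ w.1, η w.1) := by linarith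
      have e2 : deriv η w.1 = B (w.1, ζ w.1, η w.1, w.2.2) := by linarith
      rw [e1, e2])
    (by
      have c3 : ∀ᶠ w : ℝ × ℝ × ℝ in 𝓝 (t₀, (0 : ℝ), (q t₀).2.2), AnalyticAt ℝ ζ w.1 :=
        (continuousAt_fst (p := (t₀, (0 : ℝ), (q t₀).2.2))).eventually hζ.eventually_analyticAt
      have c4 : ∀ᶠ w : ℝ × ℝ × ℝ in 𝓝 (t₀, (0 : ℝ), (q t₀).2.2), AnalyticAt ℝ η w.1 :=
        (continuousAt_fst (p := (t₀, (0 : ℝ), (q t₀).2.2))).eventually hη.eventually_analyticAt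
      filter_upwards [c3, c4] with w h2 h3
      rw [hΘd w h2.differentiableAt h3.differentiableAt]
      simp only [GG, mul_zero])
    hε
    (by
      intro t ht
      have h1 := (hεp t (THz_mem ht)).2
      have h2 := ts_cont h h1
      exact (continuousAt_const.prodMk h2.snd.snd).continuousWithinAt)
    (by
      intro s hs t ht
      have h1 := (hεp s (THz_mem hs)).2
      have h2 := (hεp t (THz_mem ht)).2
      obtain ⟨i2, e2⟩ := ts_x h (Ioo_subset_Icc_self h1) (Ioo_subset_Icc_self h2)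
      have i1 : IntervalIntegrable (fun _ : ℝ => (0 : ℝ)) volume s t := intervalIntegrable_const
      have e1 : (0 : ℝ) - 0 = ∫ _ in s..t, (0 : ℝ) := by simp
      rw [Prod.mk_sub_mk, e1, e2, ← THz_pair i1 i2]
      refine intervalIntegral.integral_congr fun r hr => ?_
      have hr' : |r - t₀| < ε := by
        rw [mem_uIcc] at hr
        apply THz_mem
        rcases hr with hr | hr
        · exact ⟨lt_of_lt_of_le hs.1 hr.1, lt_of_le_of_lt hr.2 ht.2⟩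
        · exact ⟨lt_of_lt_of_le ht.1 hr.1, lt_of_le_of_lt hr.2 hs.2⟩
      have e3 : ζ r = (q r).1 := by linarith [(hεp r hr').1.1]
      have e4 : η r = (q r).2.1 := by linarith [(hεp r hr').1.2]
      simp only [e3, e4, Prod.smul_mk, smul_eq_mul, mul_zero, Prod.mk_add_mk, add_zero])
    (by
      intro t ht
      have e3 : ζ t = (q t).1 := by linarith [(hεp t (THz_mem ht)).1.1]
      have e4 : η t = (q t).2.1 := by linarith [(hεp t (THz_mem ht)).1.2]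
      simp only [e3, e4])
  exact emb_goal ht₀ hδ hjn

theorem hasZ_false (h : Sit L B F G R M T u q p C) : ¬ HasZ T q C := by
  rintro ⟨t₀, ht₀, ht₀', ζ, hζ, hz⟩
  have hts := h.ts
  have hC := h.perf
  apply h.ng
  -- a good neighbourhood of `t₀`
  obtain ⟨ε₀, hε₀, hP⟩ := THz_ev ((hζ.eventually_analyticAt.and hz.eventually_nhds).and
    (Ioo_mem_nhds ht₀'.1 ht₀'.2))
  -- `L(t, ζ, y) = ζ'` on `C`
  have hLz : ∀ t, |t - t₀| < ε₀ → t ∈ C → L (t, ζ t, (q t).2.1) - deriv ζ t = 0 := by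
    intro t ht htC
    obtain ⟨⟨h1, h2⟩, h3⟩ := hP t ht
    have hd := (ts_z hts h3).sub h1.differentiableAt.hasDerivAt
    have h4 := der_zero hC htC hd (h2.mono fun s hs hsC => by
      simp only [Pi.sub_apply, hs hsC, sub_self])
    rw [h2.self_of_nhds htC] at h4
    exact h4
  have hnear : ∀ (t₁ ε t₂ : ℝ), |t₁ - t₂| < ε → ∀ᶠ t in 𝓝 t₁, |t - t₂| < ε := by
    intro t₁ ε t₂ ht
    have h1 : ContinuousAt (fun t : ℝ => |t - t₂|) t₁ := by fun_prop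
    exact h1.eventually (gt_mem_nhds ht)
  have h00 : |t₀ - t₀| < ε₀ := by simpa using hε₀
  have hcont : ∀ t, |t - t₀| < ε₀ → ContinuousAt q t := fun t ht => ts_cont hts (hP t ht).2
  have hz0 : ∀ t, |t - t₀| < ε₀ → t ∈ C → (q t).1 = ζ t := fun t ht htC =>
    (hP t ht).1.2.self_of_nhds htC
  have hball0 := ts_ball hts (Ioo_subset_Icc_self ht₀')
  have hLa : AnalyticAt ℝ (fun p : ℝ × ℝ => L (p.1, ζ p.1, p.2) - deriv ζ p.1)
      (t₀, (q t₀).2.1) := by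
    have i1 : AnalyticAt ℝ (fun p : ℝ × ℝ => ((p.1, ζ p.1, p.2) : ℝ × ℝ × ℝ))
        (t₀, (q t₀).2.1) :=
      analyticAt_fst.prod ((AnalyticAt.comp_of_eq hζ analyticAt_fst rfl).prod analyticAt_snd)
    refine (AnalyticAt.comp_of_eq (hts.La _ hball0.2) i1 ?_).sub
      (AnalyticAt.comp_of_eq hζ.deriv analyticAt_fst rfl)
    rw [hz0 t₀ h00 ht₀]
  rcases zw (w := fun t => t) (x := fun t => (q t).2.1) ht₀
    (Filter.Eventually.of_forall fun t => continuousAt_id)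
    ((hnear t₀ ε₀ t₀ h00).mono fun t ht => (hcont t ht).snd.fst) hLa
    ((hnear t₀ ε₀ t₀ h00).mono fun t ht htC => hLz t ht htC) hε₀ with h1 | h1 | h1
  · exact THz_i hts ht₀ ht₀' hζ (hz0 t₀ h00 ht₀) h1
  · -- `y = η` on `C` near `t₁`
    obtain ⟨t₁, ht₁, ht₁ε, η, hη, hy⟩ := h1
    obtain ⟨⟨hζ1, hz1⟩, ht₁'⟩ := hP t₁ ht₁ε
    obtain ⟨ε₁, hε₁, hP1⟩ := THz_ev ((hη.eventually_analyticAt.and hy.eventually_nhds).and
      (hnear t₁ ε₀ t₀ ht₁ε))
    have h11 : |t₁ - t₁| < ε₁ := by simpa using hε₁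
    have hy1 : ∀ t, |t - t₁| < ε₁ → t ∈ C → (q t).2.1 = η t := fun t ht htC =>
      (hP1 t ht).1.2.self_of_nhds htC
    have hBy : ∀ t, |t - t₁| < ε₁ → t ∈ C → B (t, ζ t, η t, (q t).2.2) - deriv η t = 0 := by
      intro t ht htC
      obtain ⟨⟨h1, h2⟩, h3⟩ := hP1 t ht
      have hd := (ts_y hts (hP t h3).2).sub h1.differentiableAt.hasDerivAt
      have h4 := der_zero hC htC hd (h2.mono fun s hs hsC => by
        simp only [Pi.sub_apply, hs hsC, sub_self])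
      rw [← hz0 t h3 htC, ← hy1 t ht htC]
      exact h4
    have hball1 := ts_ball hts (Ioo_subset_Icc_self ht₁')
    have e1 : ζ t₁ = (q t₁).1 := (hz0 t₁ ht₁ε ht₁).symm
    have e2 : η t₁ = (q t₁).2.1 := (hy1 t₁ h11 ht₁).symm
    have hBa : AnalyticAt ℝ (fun p : ℝ × ℝ => B (p.1, ζ p.1, η p.1, p.2) - deriv η p.1)
        (t₁, (q t₁).2.2) := by
      have i1 : AnalyticAt ℝ (fun p : ℝ × ℝ => ((p.1, ζ p.1, η p.1, p.2) : ℝ × V3))
          (t₁, (q t₁).2.2) :=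
        analyticAt_fst.prod ((AnalyticAt.comp_of_eq hζ1 analyticAt_fst rfl).prod
          ((AnalyticAt.comp_of_eq hη analyticAt_fst rfl).prod analyticAt_snd))
      refine (AnalyticAt.comp_of_eq (hts.Ba _ hball1.1) i1 ?_).sub
        (AnalyticAt.comp_of_eq hη.deriv analyticAt_fst rfl)
      rw [e1, e2]
    rcases zw (w := fun t => t) (x := fun t => (q t).2.2) ht₁
      (Filter.Eventually.of_forall fun t => continuousAt_id)
      ((hnear t₁ ε₀ t₀ ht₁ε).mono fun t ht => (hcont t ht).snd.snd) hBa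
      ((hnear t₁ ε₁ t₁ h11).mono fun t ht htC => hBy t ht htC) hε₁ with h2 | h2 | h2
    · refine THz_ii hts ht₁ ht₁' hζ1 hη e1.symm e2.symm ?_ h2
      have i1 : AnalyticAt ℝ (fun t : ℝ => ((t, ζ t, η t) : ℝ × ℝ × ℝ)) t₁ :=
        analyticAt_id.prod (hζ1.prod hη)
      have i2 : AnalyticAt ℝ (fun t : ℝ => L (t, ζ t, η t) - deriv ζ t) t₁ := by
        refine (AnalyticAt.comp_of_eq (hts.La _ hball1.2) i1 ?_).sub hζ1.deriv
        rw [e1, e2]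
      refine perf_ev hC ht₁ i2 ?_
      filter_upwards [hnear t₁ ε₀ t₀ ht₁ε, hnear t₁ ε₁ t₁ h11] with t h3 h4 htC
      have h5 := hLz t h3 htC
      rwa [hy1 t h4 htC] at h5
    · obtain ⟨t₂, ht₂, ht₂ε, ξ, hξ, hx⟩ := h2
      obtain ⟨⟨h3, h4⟩, h5⟩ := hP1 t₂ ht₂ε
      obtain ⟨⟨h6, h7⟩, h8⟩ := hP t₂ h5
      refine curve_goal hts hC ht₂ h8 h6 h3 hξ ?_
      filter_upwards [h4, h7, hx] with t a1 a2 a3 htC
      exact ⟨a2 htC, a1 htC, a3 htC⟩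
    · obtain ⟨b, hb, hb0, hb1⟩ := h2
      exact absurd (perf_ev hC ht₁ hb hb0) hb1
  · obtain ⟨b, hb, hb0, hb1⟩ := h1
    exact absurd (perf_ev hC ht₀ hb hb0) hb1

theorem z_an_false (h : Sit L B F G R M T u q p C) {t₀ : ℝ} (ht₀ : t₀ ∈ C) (ht₀' : t₀ ∈ Ioo 0 T)
    (hz : AnalyticAt ℝ (fun t => (q t).1) t₀) : False :=
  hasZ_false h ⟨t₀, ht₀, ht₀', fun t => (q t).1, hz, Filter.Eventually.of_forall fun _ _ => rfl⟩

end Pool.Agent.Lib.MP_28b8de_an.TT
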