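import Pool.Agent.Lib.MP_28b8de_an.T.TTri

/-!
MP_28b8de_an, module TImp.

The analytic implicit function theorem for one scalar unknown (last variable).
PROOF.  As `PZthree_impl` in P/PZthree.lean (there the unknown is the middle variable): Mathlib/Analysis/Calculus/ImplicitContDiff.lean with exponent ω.
`imp_ev`: the zero set near (w₀,x₀) is the graph.
-/

set_option linter.unusedSectionVars false

namespace Pool.Agent.Lib.MP_28b8de_an.TT

open Filter Topology Set MeasureTheory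
open Pool.Agent.Lib.MP_28b8de_an.PT (Adm Perf gron gron_back volterra kder ae_zero perf_inner stay)

variable {W : Type*} [NormedAddCommGroup W] [NormedSpace ℝ W]


theorem imp [CompleteSpace W] {σ : W × ℝ → ℝ} {w₀ : W} {x₀ : ℝ}
    (hσ : AnalyticAt ℝ σ (w₀, x₀)) (h0 : σ (w₀, x₀) = 0) (h1 : Dn σ (w₀, x₀) ≠ 0) :
    ∃ ξ : W → ℝ, AnalyticAt ℝ ξ w₀ ∧ ξ w₀ = x₀ ∧ ∀ᶠ p in 𝓝 (w₀, x₀), σ p = 0 → p.2 = ξ p.1 := by
  have hc : ContDiffAt ℝ (⊤ : WithTop ℕ∞) σ (w₀, x₀) := hσ.contDiffAt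
  have pn : (⊤ : WithTop ℕ∞) ≠ 0 := by simp
  have hinv : (fderiv ℝ σ (w₀, x₀) ∘L .inr ℝ W ℝ).IsInvertible := by
    refine ⟨ContinuousLinearEquiv.unitsEquivAut ℝ (Units.mk0 (Dn σ (w₀, x₀)) h1), ?_⟩
    ext
    simp [Dn, ContinuousLinearEquiv.unitsEquivAut]
  have hself : hc.implicitFunction pn hinv w₀ = x₀ := hc.implicitFunction_apply_self pn hinv
  refine ⟨hc.implicitFunction pn hinv, ?_, hself, ?_⟩
  · exact (hc.contDiffAt_implicitFunction pn hinv).analyticAt
  · filter_upwards [hc.eventually_apply_eq_iff_implicitFunction pn hinv] with p hp hp0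
    exact (hp.1 (by rw [h0]; exact hp0)).symm

end Pool.Agent.Lib.MP_28b8de_an.TT
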