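import Pool.Agent.Lib.MP_28b8de_an.T.TLcR
import Pool.Agent.Lib.MP_28b8de_an.T.TLcD
import Pool.Agent.Lib.MP_28b8de_an.T.TGapTwo

/-!
MP_28b8de_an, module TLc2.

Gap lemma 2 for local data.
PROOF.  lc_rl, lc_Db, lc_DL, and lc_Di (its hypothesis hy: y' = DB - η' DL, |DB| ≤ K₁(|X|^m₁ + |Y|) by lc_Db, |DL| ≤ K|Y| by lc_DL and |Y| ≤ 1 near t₀).  Common constants K' (large), c' (small, |P| ≥ c' near t₀).
For s < s' near t₀ fill in the structure G2 K' c' m₁ m₂ s s' with g := g(w,Y,X), v := -(α/g), p := pp, DB := Bf(w,Y,X) - Bf(w,0,0), DL := Lf(w,Y) - Lf(w,0), b, l the derivatives, c₁ := cf (fX Bf) m₁ ∘ w,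
c₂ := cf (fL Lf) m₂ ∘ w, ψB, ψL from lc_Di, lc_DL, (Yb: |Y| ≤ 1 near t₀ by continuity) and apply gap_two.
-/

set_option linter.unusedSectionVars false

namespace Pool.Agent.Lib.MP_28b8de_an.TT

open Filter Topology Set MeasureTheory
open Pool.Agent.Lib.MP_28b8de_an.PT (Adm Perf gron gron_back volterra kder ae_zero perf_inner stay)

variable {W : Type*} [NormedAddCommGroup W] [NormedSpace ℝ W] [FiniteDimensional ℝ W]
  {K a b t₀ : ℝ} {u : ℝ → ℝ} {w w' : ℝ → W} {Y y' X : ℝ → ℝ} {α g : W × ℝ × ℝ → ℝ}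


theorem lc_two (h : Lc K u a b w w' Y y' X α g) (h₀ : Lp a b w Y X α g t₀)
    (hu : |α (w t₀, 0, 0)| < |g (w t₀, 0, 0)|) {ϕ n : ℝ → ℝ} (hq : Lq K u a b w Y X g ϕ n)
    {Bf : W × ℝ × ℝ → ℝ} (hB : AnalyticAt ℝ Bf (w t₀, 0, 0)) {m₁ : ℕ} (hm₁ : Odd m₁)
    (ho₁ : ∀ j < m₁, ∀ᶠ v in 𝓝 (w t₀), Dn^[j] (fX Bf) (v, 0) = 0)
    (hne₁ : Dn^[m₁] (fX Bf) (w t₀, 0) ≠ 0)
    {Lf : W × ℝ → ℝ} (hL : AnalyticAt ℝ Lf (w t₀, 0)) {m₂ : ℕ} (hm₂ : 2 ≤ m₂)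
    (ho₂ : ∀ j < m₂, ∀ᶠ v in 𝓝 (w t₀), Dn^[j] (fL Lf) (v, 0) = 0)
    (hne₂ : Dn^[m₂] (fL Lf) (w t₀, 0) ≠ 0) {pp P π η' : ℝ → ℝ}
    (ηc : ContinuousOn η' (Ioo a b)) (ηb : ∀ t ∈ Ioo a b, |η' t| ≤ K)
    (hy : ∀ t ∈ Ioo a b, y' t = (Bf (w t, Y t, X t) - Bf (w t, 0, 0))
      - η' t * (Lf (w t, Y t) - Lf (w t, 0)))
    (pc : ContinuousOn pp (Ioo a b))
    (πi : ∀ s ∈ Ioo a b, ∀ t ∈ Ioo a b, IntervalIntegrable π volume s t)
    (peq : ∀ s ∈ Ioo a b, ∀ t ∈ Ioo a b, pp t - pp s = ∫ r in s..t, π r)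
    (πb : ∀ t ∈ Ioo a b, |π t + P t * fderiv ℝ Lf (w t, Y t) (0, 1)| ≤ K * (|pp t| + |ϕ t|))
    (Pl : ∀ s ∈ Ioo a b, ∀ t ∈ Ioo a b, |P s - P t| ≤ K * |s - t|) (P0 : P t₀ ≠ 0)
    (hn : ∀ t ∈ Ioo a b, |n t + pp t * fderiv ℝ Bf (w t, Y t, X t) (0, 0, 1)| ≤ K * |ϕ t|) :
    ∃ δ > 0, ∀ s s' : ℝ, s < s' → |s - t₀| < δ → |s' - t₀| < δ → X s = 0 → Y s = 0 → ϕ s = 0 →
      pp s = 0 → X s' = 0 → Y s' = 0 → ϕ s' = 0 → pp s' = 0 → ∀ t ∈ Icc s s', X t = 0 ∧ Y t = 0 := by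
  obtain ⟨K₀, c₀, δ₀, hK₀, hc₀, hδ₀, hrl⟩ := lc_rl h h₀ hu hq
  obtain ⟨K₁, c₁, δ₁, hK₁, hc₁, hδ₁, hsub₁, hcf₁, hb₁, hest₁⟩ :=
    lc_Db h h₀ hB hm₁.pos ho₁ hne₁
  obtain ⟨K₂, c₂, δ₂, ψL, hK₂, hc₂, hδ₂, hsub₂, hcf₂, hl₂, hψL, hest₂, hint₂⟩ :=
    lc_DL h h₀ hL (by omega) ho₂ hne₂
  have hKp : 1 ≤ K := h.K1
  have hYt : ContinuousAt Y t₀ := (h.Yd t₀ h₀.mem).continuousAt
  have hYe : ∀ᶠ t in 𝓝 t₀, |Y t| ≤ 1 := by
    have h1 : Tendsto (fun t => |Y t|) (𝓝 t₀) (𝓝 |Y t₀|) := hYt.abs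
    rw [h₀.Y0, abs_zero] at h1
    have h2 := h1.eventually (gt_mem_nhds (show (0 : ℝ) < 1 by norm_num))
    exact h2.mono fun t ht => le_of_lt ht
  obtain ⟨δ₄, hδ₄, hY4⟩ := Metric.eventually_nhds_iff.mp hYe
  have hY4' : ∀ t, |t - t₀| < δ₄ → |Y t| ≤ 1 := fun t ht => hY4 (by rwa [Real.dist_eq])
  have mem₁ : ∀ t, |t - t₀| < δ₁ → t ∈ Ioo (t₀ - δ₁) (t₀ + δ₁) := fun t ht => by
    rw [abs_lt] at ht; constructor <;> linarith [ht.1, ht.2]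
  have mem₂ : ∀ t, |t - t₀| < δ₂ → t ∈ Ioo (t₀ - δ₂) (t₀ + δ₂) := fun t ht => by
    rw [abs_lt] at ht; constructor <;> linarith [ht.1, ht.2]
  -- the hypothesis of lc_Di
  have hy' : ∀ᶠ t in 𝓝 t₀, |y' t| ≤ (K₁ + K * (2 * K₂)) * (|X t| ^ m₁ + |Y t|) := by
    rw [Metric.eventually_nhds_iff]
    refine ⟨min δ₄ (min δ₁ δ₂), lt_min hδ₄ (lt_min hδ₁ hδ₂), fun t ht => ?_⟩
    rw [Real.dist_eq] at ht
    have ht4 : |t - t₀| < δ₄ := lt_of_lt_of_le ht (min_le_left _ _)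
    have ht1 : |t - t₀| < δ₁ := lt_of_lt_of_le ht ((min_le_right _ _).trans (min_le_left _ _))
    have ht2 : |t - t₀| < δ₂ := lt_of_lt_of_le ht ((min_le_right _ _).trans (min_le_right _ _))
    have hab := hsub₁ (mem₁ t ht1)
    obtain ⟨-, -, -, -, hD⟩ := hest₁ t (mem₁ t ht1)
    obtain ⟨-, hc2, -, hD2, -⟩ := hest₂ t (mem₂ t ht2)
    have hY1 := hY4' t ht4
    have hYn : 0 ≤ |Y t| := abs_nonneg _
    have hXn : 0 ≤ |X t| ^ m₁ := pow_nonneg (abs_nonneg _) _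
    have hpw : |Y t| ^ m₂ ≤ |Y t| := by
      have := pow_le_pow_of_le_one hYn hY1 (show 1 ≤ m₂ by omega)
      rwa [pow_one] at this
    have hpw' : |Y t| ^ (m₂ + 1) ≤ |Y t| := by
      have := pow_le_pow_of_le_one hYn hY1 (show 1 ≤ m₂ + 1 by omega)
      rwa [pow_one] at this
    have hDL : |Lf (w t, Y t) - Lf (w t, 0)| ≤ 2 * K₂ * |Y t| := by
      have e : Lf (w t, Y t) - Lf (w t, 0) =
          (Lf (w t, Y t) - Lf (w t, 0) - cf (fL Lf) m₂ (w t) * Y t ^ m₂)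
            + cf (fL Lf) m₂ (w t) * Y t ^ m₂ := by ring
      rw [e]
      refine (abs_add_le _ _).trans ?_
      rw [abs_mul, abs_pow]
      have h1 : |cf (fL Lf) m₂ (w t)| * |Y t| ^ m₂ ≤ K₂ * |Y t| :=
        mul_le_mul hc2 hpw (pow_nonneg hYn _) (by linarith)
      have h2 : K₂ * |Y t| ^ (m₂ + 1) ≤ K₂ * |Y t| :=
        mul_le_mul_of_nonneg_left hpw' (by linarith)
      linarith
    rw [hy t hab]
    refine (abs_sub _ _).trans ?_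
    rw [abs_mul]
    have h3 : |η' t| * |Lf (w t, Y t) - Lf (w t, 0)| ≤ K * (2 * K₂ * |Y t|) :=
      mul_le_mul (ηb t hab) hDL (abs_nonneg _) (by linarith)
    have h4 : 0 ≤ K * (2 * K₂) * |X t| ^ m₁ := by positivity
    nlinarith
  obtain ⟨K₃, δ₃, ψB, hK₃, hδ₃, hsub₃, hψB, hψBb, hint₃⟩ := lc_Di h h₀ hB ho₁ hy'
  have mem₃ : ∀ t, |t - t₀| < δ₃ → t ∈ Ioo (t₀ - δ₃) (t₀ + δ₃) := fun t ht => by
    rw [abs_lt] at ht; constructor <;> linarith [ht.1, ht.2]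
  have hPa : 0 < |P t₀| := abs_pos.mpr P0
  -- the common constants
  obtain ⟨K', hK'0, hK'1, hK'2, hK'3, hK'K, hK'P⟩ : ∃ K' : ℝ, K₀ ≤ K' ∧ K₁ ≤ K' ∧ K₂ ≤ K' ∧
      K₃ ≤ K' ∧ K ≤ K' ∧ 2 * |P t₀| ≤ K' := by
    refine ⟨K₀ + K₁ + K₂ + K₃ + K + 2 * |P t₀|, ?_, ?_, ?_, ?_, ?_, ?_⟩ <;> linarith
  obtain ⟨c', hc', hc'0, hc'1, hc'2, hc'P⟩ : ∃ c' : ℝ, 0 < c' ∧ c' ≤ c₀ ∧ c' ≤ c₁ ∧ c' ≤ c₂ ∧
      c' ≤ |P t₀| / 2 := by
    refine ⟨min (min c₀ c₁) (min c₂ (|P t₀| / 2)),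
      lt_min (lt_min hc₀ hc₁) (lt_min hc₂ (by linarith)),
      (min_le_left _ _).trans (min_le_left _ _), (min_le_left _ _).trans (min_le_right _ _),
      (min_le_right _ _).trans (min_le_left _ _), (min_le_right _ _).trans (min_le_right _ _)⟩
  have hK'one : 1 ≤ K' := hKp.trans hK'K
  obtain ⟨δ₆, hδ₆, hgap⟩ := gap_two hK'one hc' m₁ m₂
  set δ₅ : ℝ := |P t₀| / (2 * K) with hδ₅d
  have hδ₅ : 0 < δ₅ := by positivity
  have hKδ₅ : K * δ₅ = |P t₀| / 2 := by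
    rw [hδ₅d]; field_simp
  obtain ⟨δ, hδ, hd0, hd1, hd2, hd3, hd4, hd5, hd6⟩ : ∃ δ : ℝ, 0 < δ ∧ δ ≤ δ₀ ∧ δ ≤ δ₁ ∧
      δ ≤ δ₂ ∧ δ ≤ δ₃ ∧ δ ≤ δ₄ ∧ δ ≤ δ₅ ∧ δ ≤ δ₆ / 2 := by
    refine ⟨min (min (min δ₀ δ₁) (min δ₂ δ₃)) (min (min δ₄ δ₅) (δ₆ / 2)), ?_, ?_, ?_, ?_, ?_,
      ?_, ?_, ?_⟩
    · exact lt_min (lt_min (lt_min hδ₀ hδ₁) (lt_min hδ₂ hδ₃))
        (lt_min (lt_min hδ₄ hδ₅) (by linarith))
    · exact (min_le_left _ _).trans ((min_le_left _ _).trans (min_le_left _ _))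
    · exact (min_le_left _ _).trans ((min_le_left _ _).trans (min_le_right _ _))
    · exact (min_le_left _ _).trans ((min_le_right _ _).trans (min_le_left _ _))
    · exact (min_le_left _ _).trans ((min_le_right _ _).trans (min_le_right _ _))
    · exact (min_le_right _ _).trans ((min_le_left _ _).trans (min_le_left _ _))
    · exact (min_le_right _ _).trans ((min_le_left _ _).trans (min_le_right _ _))
    · exact (min_le_right _ _).trans (min_le_right _ _)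
  refine ⟨δ, hδ, fun s s' hss hs hs' hXs hYs hϕs hps hXs' hYs' hϕs' hps' => ?_⟩
  have hnear : ∀ t ∈ Icc s s', |t - t₀| < δ := fun t ht => by
    rw [abs_lt] at hs hs' ⊢
    constructor <;> linarith [ht.1, ht.2, hs.1, hs.2, hs'.1, hs'.2]
  have hI1 : ∀ t ∈ Icc s s', t ∈ Ioo (t₀ - δ₁) (t₀ + δ₁) := fun t ht =>
    mem₁ t ((hnear t ht).trans_le hd1)
  have hI2 : ∀ t ∈ Icc s s', t ∈ Ioo (t₀ - δ₂) (t₀ + δ₂) := fun t ht =>
    mem₂ t ((hnear t ht).trans_le hd2)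
  have hI3 : ∀ t ∈ Icc s s', t ∈ Ioo (t₀ - δ₃) (t₀ + δ₃) := fun t ht =>
    mem₃ t ((hnear t ht).trans_le hd3)
  have hab : ∀ t ∈ Icc s s', t ∈ Ioo a b := fun t ht => hsub₁ (hI1 t ht)
  have hsm : s ∈ Icc s s' := left_mem_Icc.mpr hss.le
  have hsm' : s' ∈ Icc s s' := right_mem_Icc.mpr hss.le
  have hRl := hrl K' c' s s' hK'0 hc' hc'0 hss (hs.trans_le hd0) (hs'.trans_le hd0) hXs hXs'
    hϕs hϕs'
  have hicc : ∀ t ∈ Icc s s', ∀ r ∈ uIcc s t, r ∈ Icc s s' := fun t ht r hr => by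
    rw [uIcc_of_le ht.1] at hr
    exact ⟨hr.1, hr.2.trans ht.2⟩
  have hg0 : ∀ r ∈ Icc s s', g (w r, Y r, X r) ≠ 0 := fun r hr h0 => by
    have := hRl.g0 r hr
    rw [h0, abs_zero] at this
    linarith
  have hPd : ∀ t ∈ Icc s s', |P t - P t₀| ≤ |P t₀| / 2 := fun t ht => by
    have h1 := Pl t (hab t ht) t₀ h₀.mem
    have h2 : K * |t - t₀| ≤ K * δ₅ :=
      mul_le_mul_of_nonneg_left ((hnear t ht).le.trans hd5) (by linarith)
    linarith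
  refine hgap s s' X ϕ u (fun t => g (w t, Y t, X t))
    (fun t => -(α (w t, Y t, X t) / g (w t, Y t, X t))) n Y pp P
    (fun t => Bf (w t, Y t, X t) - Bf (w t, 0, 0)) (fun t => Lf (w t, Y t) - Lf (w t, 0))
    (fun t => fderiv ℝ Bf (w t, Y t, X t) (0, 0, 1)) (fun t => fderiv ℝ Lf (w t, Y t) (0, 1))
    (fun t => cf (fX Bf) m₁ (w t)) (fun t => cf (fL Lf) m₂ (w t)) ψB ψL η' π ?_ ?_
  · rw [abs_lt] at hs hs'
    linarith [hs.1, hs.2, hs'.1, hs'.2]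
  constructor
  · exact hRl
  · exact hm₁
  · exact hm₂
  · exact pc.mono hab
  · exact hb₁.mono hI1
  · exact hl₂.mono hI2
  · exact hcf₁.mono hI1
  · exact hcf₂.mono hI2
  · exact ηc.mono hab
  · exact (hψB.mono hI3).intervalIntegrable_of_Icc hss.le
  · exact (hψL.mono hI2).intervalIntegrable_of_Icc hss.le
  · exact πi s (hab s hsm) s' (hab s' hsm')
  · intro t ht r hr
    exact (Pl t (hab t ht) r (hab r hr)).trans
      (mul_le_mul_of_nonneg_right hK'K (abs_nonneg _))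
  · intro t ht
    have h1 := hPd t ht
    have h2 := abs_sub_abs_le_abs_sub (P t₀) (P t)
    rw [abs_sub_comm] at h2
    linarith
  · intro t ht
    have h1 := hPd t ht
    have h2 := abs_sub_abs_le_abs_sub (P t) (P t₀)
    linarith
  · intro t ht
    exact hc'1.trans (hest₁ t (hI1 t ht)).1
  · intro t ht
    exact (hest₁ t (hI1 t ht)).2.1.trans hK'1
  · intro t ht
    exact hc'2.trans (hest₂ t (hI2 t ht)).1
  · intro t ht
    exact (hest₂ t (hI2 t ht)).2.1.trans hK'2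
  · intro t ht
    exact (ηb t (hab t ht)).trans hK'K
  · intro t ht
    have h1 : ∫ r in s..t, y' r = Y t - Y s := by
      refine intervalIntegral.integral_eq_sub_of_hasDerivAt
        (fun r hr => h.Yd r (hab r (hicc t ht r hr))) ?_
      exact (h.Yc.mono (fun r hr => hab r (hicc t ht r hr))).intervalIntegrable
    rw [hYs, sub_zero] at h1
    rw [← h1]
    refine intervalIntegral.integral_congr fun r hr => ?_
    exact hy r (hab r (hicc t ht r hr))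
  · intro t ht
    have h1 := peq s (hab s hsm) t (hab t ht)
    rw [hps, sub_zero] at h1
    exact h1
  · intro t ht
    have h1 := hint₃ s (hI3 s hsm) t (hI3 t ht)
    rw [hXs, hYs, sub_self, sub_zero] at h1
    refine h1.trans ?_
    refine intervalIntegral.integral_congr fun r hr => ?_
    have hgr := hg0 r (hicc t ht r hr)
    have e : g (w r, Y r, X r) * (u r - -(α (w r, Y r, X r) / g (w r, Y r, X r)))
        = α (w r, Y r, X r) + u r * g (w r, Y r, X r) := by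
      field_simp
      ring
    show _ = fderiv ℝ Bf (w r, Y r, X r) (0, 0, 1) * (g (w r, Y r, X r)
      * (u r - -(α (w r, Y r, X r) / g (w r, Y r, X r)))) + ψB r
    rw [e]
  · intro t ht
    have h1 := hint₂ s (hI2 s hsm) t (hI2 t ht)
    rw [hYs, sub_self, sub_zero] at h1
    refine h1.trans ?_
    refine intervalIntegral.integral_congr fun r hr => ?_
    show _ = fderiv ℝ Lf (w r, Y r) (0, 1) * ((Bf (w r, Y r, X r) - Bf (w r, 0, 0))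
      - η' r * (Lf (w r, Y r) - Lf (w r, 0))) + ψL r
    rw [← hy r (hab r (hicc t ht r hr))]
  · intro t ht
    exact hY4' t ((hnear t ht).trans_le hd4)
  · exact hYs'
  · exact hps'
  · intro t ht
    exact (hn t (hab t ht)).trans (mul_le_mul_of_nonneg_right hK'K (abs_nonneg _))
  · intro t ht
    exact (πb t (hab t ht)).trans (mul_le_mul_of_nonneg_right hK'K (by positivity))
  · intro t ht
    exact (hψBb t (hI3 t ht)).trans (mul_le_mul_of_nonneg_right hK'3 (by positivity))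
  · intro t ht
    exact (hest₂ t (hI2 t ht)).2.2.1.trans (mul_le_mul_of_nonneg_right hK'2 (by positivity))
  · intro t ht
    exact (hest₁ t (hI1 t ht)).2.2.1.trans (mul_le_mul_of_nonneg_right hK'1 (by positivity))
  · intro t ht
    exact (hest₁ t (hI1 t ht)).2.2.2.1.trans (mul_le_mul_of_nonneg_right hK'1 (by positivity))
  · intro t ht
    exact (hest₂ t (hI2 t ht)).2.2.2.1.trans (mul_le_mul_of_nonneg_right hK'2 (by positivity))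
  · intro t ht
    exact (hest₂ t (hI2 t ht)).2.2.2.2.trans (mul_le_mul_of_nonneg_right hK'2 (by positivity))

end Pool.Agent.Lib.MP_28b8de_an.TT
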