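import Pool.Agent.Lib.MP_28b8de_an.T.TLcD
import Pool.Agent.Lib.MP_28b8de_an.T.TGapThree

/-!
MP_28b8de_an, module TLc3.

Gap lemma 3 for local data.
PROOF.  lc_Db; β := y' (continuous), Y t = ∫_s^t y'; |β - e X^m| ≤ K (|X|^(m+1) + |Y|) by hy and lc_Db; |X t| ≤ K'(t - s) by lc_lip.  gap_three with common K', c'.
-/

set_option linter.unusedSectionVars false

namespace Pool.Agent.Lib.MP_28b8de_an.TT

open Filter Topology Set MeasureTheory
open Pool.Agent.Lib.MP_28b8de_an.PT (Adm Perf gron gron_back volterra kder ae_zero perf_inner stay)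

variable {W : Type*} [NormedAddCommGroup W] [NormedSpace ℝ W] [FiniteDimensional ℝ W]
  {K a b t₀ : ℝ} {u : ℝ → ℝ} {w w' : ℝ → W} {Y y' X : ℝ → ℝ} {α g : W × ℝ × ℝ → ℝ}


theorem lc_three (h : Lc K u a b w w' Y y' X α g) (h₀ : Lp a b w Y X α g t₀)
    {Bf : W × ℝ × ℝ → ℝ} (hB : AnalyticAt ℝ Bf (w t₀, 0, 0)) {m : ℕ} (hm : 1 ≤ m) (he : Even m)
    (ho : ∀ j < m, ∀ᶠ v in 𝓝 (w t₀), Dn^[j] (fX Bf) (v, 0) = 0)
    (hne : Dn^[m] (fX Bf) (w t₀, 0) ≠ 0)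
    {K' : ℝ} (hy : ∀ᶠ t in 𝓝 t₀,
      |y' t - (Bf (w t, Y t, X t) - Bf (w t, 0, 0))| ≤ K' * |Y t|) :
    ∃ δ > 0, ∀ s s' : ℝ, s < s' → |s - t₀| < δ → |s' - t₀| < δ → X s = 0 → Y s = 0 → Y s' = 0 →
      ∀ t ∈ Icc s s', X t = 0 ∧ Y t = 0 := by
  obtain ⟨K₁, c₁, δ₁, hK₁, hc₁, hδ₁, hsub₁, hcc, -, hest⟩ := lc_Db h h₀ hB hm ho hne
  obtain ⟨K₂, δ₂, hK₂, hδ₂, -, hlip⟩ := lc_lip h h₀
  obtain ⟨δ₃, hδ₃, hy3⟩ := Metric.eventually_nhds_iff.1 hy
  have hKK : 1 ≤ K₁ + K₂ + |K'| := by linarith [abs_nonneg K']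
  obtain ⟨δ₄, hδ₄, H⟩ := gap_three hKK hc₁ hm he
  refine ⟨min (min δ₁ δ₂) (min δ₃ (δ₄ / 2)), by positivity, ?_⟩
  intro s s' hs hsd hsd' hXs hYs hYs'
  have hd : ∀ t ∈ Icc s s', |t - t₀| < min (min δ₁ δ₂) (min δ₃ (δ₄ / 2)) := by
    intro t ht
    rw [abs_lt] at hsd hsd' ⊢
    exact ⟨by linarith [hsd.1, ht.1], by linarith [hsd'.2, ht.2]⟩
  have hd1 : ∀ t ∈ Icc s s', t ∈ Ioo (t₀ - δ₁) (t₀ + δ₁) := by
    intro t ht
    have h1 := (hd t ht).trans_le ((min_le_left _ _).trans (min_le_left _ _))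
    rw [abs_lt] at h1
    exact ⟨by linarith [h1.1], by linarith [h1.2]⟩
  have hd2 : ∀ t ∈ Icc s s', t ∈ Ioo (t₀ - δ₂) (t₀ + δ₂) := by
    intro t ht
    have h1 := (hd t ht).trans_le ((min_le_left _ _).trans (min_le_right _ _))
    rw [abs_lt] at h1
    exact ⟨by linarith [h1.1], by linarith [h1.2]⟩
  have hd3 : ∀ t ∈ Icc s s', |t - t₀| < δ₃ := fun t ht =>
    (hd t ht).trans_le ((min_le_right _ _).trans (min_le_left _ _))
  have hab : ∀ t ∈ Icc s s', t ∈ Ioo a b := fun t ht => hsub₁ (hd1 t ht)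
  have hss : s' - s ≤ δ₄ := by
    have h1 := hsd.trans_le ((min_le_right _ _).trans (min_le_right _ _))
    have h2 := hsd'.trans_le ((min_le_right _ _).trans (min_le_right _ _))
    rw [abs_lt] at h1 h2
    linarith [h1.1, h2.2]
  have hsI : s ∈ Icc s s' := left_mem_Icc.2 hs.le
  have hYc : ContinuousOn Y (Icc s s') := fun t ht => (h.Yd t (hab t ht)).continuousAt.continuousWithinAt
  have hy'c : ContinuousOn y' (Icc s s') := h.Yc.mono hab
  refine H s s' X Y y' (fun t => cf (fX Bf) m (w t)) hs hss (h.Xc.mono hab) hYc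
    (hcc.mono hd1) (hy'c.intervalIntegrable_of_Icc hs.le) ?_ (fun t ht => (hest t (hd1 t ht)).1)
    (fun t ht => ?_) (fun t ht => ?_) (fun t ht => ?_) hYs'
  · intro t ht
    have h1 := (hlip s (hd2 s hsI) t (hd2 t ht)).2.2
    rw [hXs, zero_sub, abs_neg, abs_sub_comm, abs_of_nonneg (by linarith [ht.1] : 0 ≤ t - s)] at h1
    refine h1.trans (mul_le_mul_of_nonneg_right ?_ (by linarith [ht.1]))
    linarith [abs_nonneg K']
  · refine (hest t (hd1 t ht)).2.1.trans ?_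
    linarith [abs_nonneg K']
  · have h1 := (hest t (hd1 t ht)).2.2.1
    have h2 : |y' t - (Bf (w t, Y t, X t) - Bf (w t, 0, 0))| ≤ K' * |Y t| :=
      hy3 (by rw [Real.dist_eq]; exact hd3 t ht)
    have h3 : |y' t - cf (fX Bf) m (w t) * X t ^ m| ≤ K' * |Y t| + K₁ * (|X t| ^ (m + 1) + |Y t|) := by
      have h4 : y' t - cf (fX Bf) m (w t) * X t ^ m =
          (y' t - (Bf (w t, Y t, X t) - Bf (w t, 0, 0))) +
          (Bf (w t, Y t, X t) - Bf (w t, 0, 0) - cf (fX Bf) m (w t) * X t ^ m) := by ring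
      rw [h4]
      exact (abs_add_le _ _).trans (add_le_add h2 h1)
    refine h3.trans ?_
    have h5 : 0 ≤ |X t| ^ (m + 1) := by positivity
    have h6 : 0 ≤ |Y t| := abs_nonneg _
    have h7 : K' * |Y t| ≤ |K'| * |Y t| := mul_le_mul_of_nonneg_right (le_abs_self _) h6
    have h8 : 0 ≤ K₂ * (|X t| ^ (m + 1) + |Y t|) := by positivity
    have h9 : 0 ≤ |K'| * |X t| ^ (m + 1) := by positivity
    nlinarith
  · have hsub : Icc s t ⊆ Icc s s' := Icc_subset_Icc_right ht.2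
    have h1 := intervalIntegral.integral_eq_sub_of_hasDerivAt (f := Y) (f' := y') (a := s) (b := t)
      (fun r hr => h.Yd r (hab r (hsub (by rwa [uIcc_of_le ht.1] at hr))))
      ((hy'c.mono hsub).intervalIntegrable_of_Icc ht.1)
    rw [h1, hYs, sub_zero]

end Pool.Agent.Lib.MP_28b8de_an.TT
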