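import Pool.Agent.Lib.MP_28b8de_an.T.TTri
import Pool.Agent.Lib.MP_28b8de_an.P.PRelMin

/-!
MP_28b8de_an, module TRl.

Identities for a relay.  `En ϕ g v t = |g ϕ| - v g ϕ`.
PROOFS.  X and ϕ are Lipschitz on [s,s'] (|g (u - v)| ≤ 2K, |n| ≤ K), g, v are Lipschitz; products of absolutely continuous functions are absolutely continuous.
rl_pos: |v| ≤ 1 - c, c ≤ |g|.
rl_gu: a.e. on [s,s']: g ϕ (u - v) = En (usgn).
rl_X: a.e. (X ϕ)' = g (u - v) ϕ + X n = En + X n, and X ϕ vanishes at both ends (X s = ϕ s = 0 from Xeq, ϕeq).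
rl_E: σ := g ϕ is Lipschitz; |σ(t)| - |σ(s)| = ∫_s^t u σ' (a.e. where σ ≠ 0: |σ|' = sgn(σ) σ' = u σ'; a.e. where σ = 0: σ' = 0 and |σ|' = 0; see rel_min in P/PRelMin.lean, lemmas prm_*),
so En(t) = ∫_s^t (u σ' - v' σ - v σ') with σ' = g' ϕ + g n a.e., i.e. the integrand is g (u-v) n + [(u-v) g' ϕ - v' g ϕ], and |[..]| ≤ (2K + K²)|ϕ| ≤ 3K²|ϕ|.
-/

set_option linter.unusedSectionVars false

namespace Pool.Agent.Lib.MP_28b8de_an.TT

open Filter Topology Set MeasureTheory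
open Pool.Agent.Lib.MP_28b8de_an.PT (Adm Perf gron gron_back volterra kder ae_zero perf_inner stay
  prm_int prm_lip prm_u)

theorem Rl.mono {K c K' c' s s' : ℝ} {X ϕ u g v n : ℝ → ℝ} (h : Rl K c s s' X ϕ u g v n)
    (hK : K ≤ K') (hc : c' ≤ c) (hc' : 0 < c') : Rl K' c' s s' X ϕ u g v n where
  hs := h.hs
  hs1 := h.hs1
  hc := hc'
  hK := h.hK.trans hK
  adm := h.adm
  usgn := h.usgn
  Xc := h.Xc
  ϕc := h.ϕc
  gl := fun t ht r hr => (h.gl t ht r hr).trans (mul_le_mul_of_nonneg_right hK (abs_nonneg _))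
  vl := fun t ht r hr => (h.vl t ht r hr).trans (mul_le_mul_of_nonneg_right hK (abs_nonneg _))
  g0 := fun t ht => hc.trans (h.g0 t ht)
  g1 := fun t ht => (h.g1 t ht).trans hK
  v1 := fun t ht => (h.v1 t ht).trans (by linarith)
  ni := h.ni
  nb := fun t ht => (h.nb t ht).trans hK
  Xeq := h.Xeq
  ϕeq := h.ϕeq
  X1 := h.X1
  ϕ1 := h.ϕ1

theorem rl_pos {K c s s' : ℝ} {X ϕ u g v n : ℝ → ℝ} (h : Rl K c s s' X ϕ u g v n) :
    ∀ t ∈ Icc s s', c * c * |ϕ t| ≤ En ϕ g v t ∧ En ϕ g v t ≤ 2 * K * |ϕ t| := by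
  intro t ht
  have hc := h.hc
  have hg0 := h.g0 t ht
  have hg1 := h.g1 t ht
  have hv := h.v1 t ht
  have hϕ : 0 ≤ |ϕ t| := abs_nonneg _
  have hg : 0 ≤ |g t| := abs_nonneg _
  have h1 : |v t * (g t * ϕ t)| ≤ (1 - c) * (|g t| * |ϕ t|) := by
    rw [abs_mul, abs_mul]
    exact mul_le_mul_of_nonneg_right hv (mul_nonneg hg hϕ)
  have h2 := abs_le.mp h1
  have h3 : c * (c * |ϕ t|) ≤ c * (|g t| * |ϕ t|) :=
    mul_le_mul_of_nonneg_left (mul_le_mul_of_nonneg_right hg0 hϕ) hc.le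
  have h4 : |g t| * |ϕ t| ≤ K * |ϕ t| := mul_le_mul_of_nonneg_right hg1 hϕ
  have h5 : 0 ≤ c * (|g t| * |ϕ t|) := by positivity
  unfold En
  rw [abs_mul]
  constructor
  · nlinarith [h2.2]
  · nlinarith [h2.1]

private theorem TRl_gc {K c s s' : ℝ} {X ϕ u g v n : ℝ → ℝ} (h : Rl K c s s' X ϕ u g v n) :
    LipschitzOnWith K.toNNReal g (Icc s s') ∧ LipschitzOnWith K.toNNReal v (Icc s s') := by
  have hK : (0 : ℝ) ≤ K := zero_le_one.trans h.hK
  constructor
  · refine LipschitzOnWith.of_dist_le_mul fun t ht r hr => ?_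
    rw [Real.dist_eq, Real.dist_eq, Real.coe_toNNReal K hK]
    exact h.gl t ht r hr
  · refine LipschitzOnWith.of_dist_le_mul fun t ht r hr => ?_
    rw [Real.dist_eq, Real.dist_eq, Real.coe_toNNReal K hK]
    exact h.vl t ht r hr

theorem rl_En_cont {K c s s' : ℝ} {X ϕ u g v n : ℝ → ℝ} (h : Rl K c s s' X ϕ u g v n) :
    ContinuousOn (En ϕ g v) (Icc s s') := by
  have hg := (TRl_gc h).1.continuousOn
  have hv := (TRl_gc h).2.continuousOn
  exact (hg.mul h.ϕc).abs.sub (hv.mul (hg.mul h.ϕc))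

private theorem TRl_Xi {K c s s' : ℝ} {X ϕ u g v n : ℝ → ℝ} (h : Rl K c s s' X ϕ u g v n) :
    IntervalIntegrable (fun r => g r * (u r - v r)) volume s s' := by
  have hI : uIcc s s' = Icc s s' := uIcc_of_le h.hs.le
  have hu : IntervalIntegrable u volume s s' := prm_u h.adm.1 h.adm.2 s s'
  have hv : IntervalIntegrable v volume s s' := by
    apply ContinuousOn.intervalIntegrable
    rw [hI]
    exact (TRl_gc h).2.continuousOn
  apply (hu.sub hv).continuousOn_mul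
  rw [hI]
  exact (TRl_gc h).1.continuousOn

private theorem TRl_usgn {K c s s' : ℝ} {X ϕ u g v n : ℝ → ℝ} (h : Rl K c s s' X ϕ u g v n) :
    ∀ᵐ t : ℝ, t ∈ uIoc s s' → u t * (g t * ϕ t) = |g t * ϕ t| := by
  filter_upwards [h.usgn] with t ht htm
  rw [uIoc_of_le h.hs.le] at htm
  exact ht ⟨htm.1.le, htm.2⟩

theorem rl_X {K c s s' : ℝ} {X ϕ u g v n : ℝ → ℝ} (h : Rl K c s s' X ϕ u g v n) :
    ∫ r in s..s', (En ϕ g v r + X r * n r) = 0 := by
  obtain ⟨acX, dX⟩ := prm_int h.hs (TRl_Xi h) h.Xeq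
  obtain ⟨acϕ, dϕ⟩ := prm_int h.hs h.ni h.ϕeq
  have h1 := AbsolutelyContinuousOnInterval.integral_deriv_mul_eq_sub acX acϕ
  have hX0 : X s = 0 := by
    rw [h.Xeq s (left_mem_Icc.mpr h.hs.le), intervalIntegral.integral_same]
  rw [h.X1, hX0, zero_mul, zero_mul, sub_zero] at h1
  rw [← h1]
  apply intervalIntegral.integral_congr_ae
  filter_upwards [dX, dϕ, TRl_usgn h] with t h2 h3 h4 ht
  rw [(h2 ht).deriv, (h3 ht).deriv]
  have h5 := h4 ht
  unfold En
  rw [← h5]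
  ring

theorem rl_E {K c s s' : ℝ} {X ϕ u g v n : ℝ → ℝ} (h : Rl K c s s' X ϕ u g v n) :
    ∀ t ∈ Icc s s', |En ϕ g v t - ∫ r in s..t, g r * (u r - v r) * n r|
      ≤ 3 * K ^ 2 * ∫ r in s..t, |ϕ r| := by
  intro t ht
  have hs := h.hs
  have hI : uIcc s s' = Icc s s' := uIcc_of_le hs.le
  have hK1 := h.hK
  have hK0 : (0 : ℝ) ≤ K := zero_le_one.trans hK1
  obtain ⟨acϕ, dϕ⟩ := prm_int hs h.ni h.ϕeq
  obtain ⟨acg, dg⟩ := prm_lip hs (TRl_gc h).1
  obtain ⟨acv, dv⟩ := prm_lip hs (TRl_gc h).2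
  have acσ := acg.fun_mul acϕ
  have dσ : ∀ᵐ t, t ∈ uIoc s s' → HasDerivAt (fun t => g t * ϕ t)
      (deriv g t * ϕ t + g t * n t) t := by
    filter_upwards [dg, dϕ] with r h1 h2 hr
    exact (h1 hr).1.mul (h2 hr)
  have dabs := der_abs acσ dσ (TRl_usgn h)
  have acE : AbsolutelyContinuousOnInterval (En ϕ g v) s s' :=
    (ac_abs acσ).fun_sub (acv.fun_mul acσ)
  have dE : ∀ᵐ t, t ∈ uIoc s s' → HasDerivAt (En ϕ g v)
      (u t * (deriv g t * ϕ t + g t * n t) -
        (deriv v t * (g t * ϕ t) + v t * (deriv g t * ϕ t + g t * n t))) t := by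
    filter_upwards [dabs, dv, dσ] with r h1 h2 h3 hr
    exact (h1 hr).sub ((h2 hr).1.mul (h3 hr))
  have hsub : uIcc s t ⊆ uIcc s s' := by
    rw [hI, uIcc_of_le ht.1]
    exact Icc_subset_Icc_right ht.2
  have hsub' : uIoc s t ⊆ uIoc s s' := by
    rw [uIoc_of_le hs.le, uIoc_of_le ht.1]
    exact Ioc_subset_Ioc_right ht.2
  have acT := acE.mono hsub
  have hftc := acT.integral_deriv_eq_sub
  have hϕ0 : ϕ s = 0 := by
    rw [h.ϕeq s (left_mem_Icc.mpr hs.le), intervalIntegral.integral_same]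
  have hE0 : En ϕ g v s = 0 := by
    unfold En
    rw [hϕ0]
    simp
  rw [hE0, sub_zero] at hftc
  have hgm : IntervalIntegrable (fun r => g r * (u r - v r) * n r) volume s t := by
    have h1 : IntervalIntegrable (fun r => g r * (u r - v r) * n r) volume s s' := by
      rw [intervalIntegrable_iff]
      have hfin : IsFiniteMeasure (volume.restrict (uIoc s s')) := ⟨by
        rw [Measure.restrict_apply_univ, uIoc, Real.volume_Ioc]
        exact ENNReal.ofReal_lt_top⟩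
      have hc1 : Integrable (fun _ : ℝ => K * 2 * K) (volume.restrict (uIoc s s')) :=
        integrable_const _
      refine Integrable.mono' hc1 ?_ ?_
      · have h2 := (intervalIntegrable_iff.mp (TRl_Xi h)).aestronglyMeasurable
        have h3 := (intervalIntegrable_iff.mp h.ni).aestronglyMeasurable
        exact h2.mul h3
      · rw [ae_restrict_iff' measurableSet_uIoc]
        refine Eventually.of_forall fun r hr => ?_
        have hrI : r ∈ Icc s s' := by
          rw [uIoc_of_le hs.le] at hr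
          exact ⟨hr.1.le, hr.2⟩
        rw [Real.norm_eq_abs, abs_mul, abs_mul]
        have h4 : |u r - v r| ≤ 2 := by
          refine (abs_sub _ _).trans ?_
          have := h.adm.2 r
          have := h.v1 r hrI
          have := h.hc
          linarith
        exact mul_le_mul (mul_le_mul (h.g1 r hrI) h4 (abs_nonneg _) hK0) (h.nb r hrI)
          (abs_nonneg _) (by positivity)
    exact h1.mono_set hsub
  have hϕi : IntervalIntegrable (fun r => 3 * K ^ 2 * |ϕ r|) volume s t := by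
    apply ContinuousOn.intervalIntegrable
    rw [uIcc_of_le ht.1]
    exact continuousOn_const.mul (h.ϕc.mono (Icc_subset_Icc_right ht.2)).abs
  rw [← hftc, ← intervalIntegral.integral_sub acT.intervalIntegrable_deriv hgm,
    ← intervalIntegral.integral_const_mul, ← Real.norm_eq_abs]
  apply intervalIntegral.norm_integral_le_of_norm_le ht.1 _ hϕi
  filter_upwards [dE, dg, dv] with r h1 h2 h3 hr
  have hrm : r ∈ uIoc s s' := by
    apply hsub'
    rw [uIoc_of_le ht.1]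
    exact hr
  have hrI : r ∈ Icc s s' := by
    rw [uIoc_of_le hs.le] at hrm
    exact ⟨hrm.1.le, hrm.2⟩
  rw [(h1 hrm).deriv, Real.norm_eq_abs]
  have e1 : u r * (deriv g r * ϕ r + g r * n r) -
      (deriv v r * (g r * ϕ r) + v r * (deriv g r * ϕ r + g r * n r)) - g r * (u r - v r) * n r =
      (u r - v r) * deriv g r * ϕ r - deriv v r * g r * ϕ r := by ring
  rw [e1]
  have hg' : |deriv g r| ≤ K := by
    have := (h2 hrm).2
    rwa [Real.coe_toNNReal K hK0] at this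
  have hv' : |deriv v r| ≤ K := by
    have := (h3 hrm).2
    rwa [Real.coe_toNNReal K hK0] at this
  have h4 : |u r - v r| ≤ 2 := by
    refine (abs_sub _ _).trans ?_
    have := h.adm.2 r
    have := h.v1 r hrI
    have := h.hc
    linarith
  have h5 : |(u r - v r) * deriv g r * ϕ r| ≤ 2 * K * |ϕ r| := by
    rw [abs_mul, abs_mul]
    exact mul_le_mul_of_nonneg_right (mul_le_mul h4 hg' (abs_nonneg _) (by norm_num)) (abs_nonneg _)
  have h6 : |deriv v r * g r * ϕ r| ≤ K * K * |ϕ r| := by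
    rw [abs_mul, abs_mul]
    exact mul_le_mul_of_nonneg_right (mul_le_mul hv' (h.g1 r hrI) (abs_nonneg _) hK0) (abs_nonneg _)
  refine (abs_sub _ _).trans ?_
  have h7 : 2 * K * |ϕ r| ≤ 2 * K ^ 2 * |ϕ r| :=
    mul_le_mul_of_nonneg_right (by nlinarith) (abs_nonneg _)
  nlinarith

theorem rl_Xb {K c s s' : ℝ} {X ϕ u g v n : ℝ → ℝ} (h : Rl K c s s' X ϕ u g v n) :
    ∀ t ∈ Icc s s', |X t| ≤ 2 * K * (t - s) := by
  intro t ht
  have hK0 : (0 : ℝ) ≤ K := zero_le_one.trans h.hK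
  rw [h.Xeq t ht, ← Real.norm_eq_abs]
  have h1 := intervalIntegral.norm_integral_le_of_norm_le_const (a := s) (b := t) (C := 2 * K)
    (f := fun r => g r * (u r - v r)) (fun r hr => by
      rw [uIoc_of_le ht.1] at hr
      have hrI : r ∈ Icc s s' := ⟨hr.1.le, hr.2.trans ht.2⟩
      rw [Real.norm_eq_abs, abs_mul]
      have h4 : |u r - v r| ≤ 2 := by
        refine (abs_sub _ _).trans ?_
        have := h.adm.2 r
        have := h.v1 r hrI
        have := h.hc
        linarith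
      calc |g r| * |u r - v r| ≤ K * 2 := mul_le_mul (h.g1 r hrI) h4 (abs_nonneg _) hK0
        _ = 2 * K := by ring)
  rwa [abs_of_nonneg (sub_nonneg.mpr ht.1)] at h1

end Pool.Agent.Lib.MP_28b8de_an.TT
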