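import Pool.Agent.Lib.MP_28b8de_an.T.TBest
import Pool.Agent.Lib.MP_28b8de_an.T.TAux
import Pool.Agent.Lib.MP_28b8de_an.T.TRl

/-!
MP_28b8de_an, module TLcB.

Elementary facts on local data.
PROOFS.  lc_curve_cont: t ↦ (w t, Y t, X t) is continuous on Ioo a b.  lc_near: it tends to (w t₀,0,0) at t₀ and eventual properties transfer.
lc_lip: w, Y, X are Lipschitz near t₀: w' , y' bounded near t₀ (continuous), and |α + u g| bounded near t₀.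
Lc.mono, Lq.mono: monotone in K.
-/

set_option linter.unusedSectionVars false

namespace Pool.Agent.Lib.MP_28b8de_an.TT

open Filter Topology Set MeasureTheory
open Pool.Agent.Lib.MP_28b8de_an.PT (Adm Perf gron gron_back volterra kder ae_zero perf_inner stay)

variable {W : Type*} [NormedAddCommGroup W] [NormedSpace ℝ W] [FiniteDimensional ℝ W]
  {K a b t₀ : ℝ} {u : ℝ → ℝ} {w w' : ℝ → W} {Y y' X : ℝ → ℝ} {α g : W × ℝ × ℝ → ℝ}


theorem Lc.mono {K' : ℝ} (h : Lc K u a b w w' Y y' X α g) (hK : K ≤ K') :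
    Lc K' u a b w w' Y y' X α g :=
  { h with K1 := h.K1.trans hK, wb := fun t ht => (h.wb t ht).trans hK }

theorem Lq.mono {K' : ℝ} {ϕ n : ℝ → ℝ} (h : Lq K u a b w Y X g ϕ n) (hK : K ≤ K') :
    Lq K' u a b w Y X g ϕ n :=
  { h with nb := fun t ht => (h.nb t ht).trans hK }

private theorem TLcB_cont (h : Lc K u a b w w' Y y' X α g) (h₀ : Lp a b w Y X α g t₀) :
    Tendsto (fun t => (w t, Y t, X t)) (𝓝 t₀) (𝓝 (w t₀, (0 : ℝ), (0 : ℝ))) := by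
  have hn : Ioo a b ∈ 𝓝 t₀ := Ioo_mem_nhds h₀.mem.1 h₀.mem.2
  have h1 : ContinuousAt w t₀ := (h.wd t₀ h₀.mem).continuousAt
  have h2 : ContinuousAt Y t₀ := (h.Yd t₀ h₀.mem).continuousAt
  have h3 : ContinuousAt X t₀ := h.Xc.continuousAt hn
  have h4 : ContinuousAt (fun t => (w t, Y t, X t)) t₀ := h1.prodMk (h2.prodMk h3)
  have h5 := h4.tendsto
  simp only [h₀.X0, h₀.Y0] at h5
  exact h5

private theorem TLcB_ev {P : ℝ → Prop} (h : ∀ᶠ t in 𝓝 t₀, P t) :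
    ∃ δ > 0, ∀ t ∈ Ioo (t₀ - δ) (t₀ + δ), P t := by
  obtain ⟨δ, hδ, h1⟩ := Metric.eventually_nhds_iff.1 h
  refine ⟨δ, hδ, fun t ht => h1 ?_⟩
  rw [Real.dist_eq, abs_lt]
  exact ⟨by linarith [ht.1], by linarith [ht.2]⟩

theorem lc_near (h : Lc K u a b w w' Y y' X α g) (h₀ : Lp a b w Y X α g t₀)
    {P : W × ℝ × ℝ → Prop} (hP : ∀ᶠ z in 𝓝 (w t₀, (0 : ℝ), (0 : ℝ)), P z) :
    ∃ δ > 0, Ioo (t₀ - δ) (t₀ + δ) ⊆ Ioo a b ∧ ∀ t ∈ Ioo (t₀ - δ) (t₀ + δ), P (w t, Y t, X t) := by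
  have h1 : ∀ᶠ t in 𝓝 t₀, P (w t, Y t, X t) := (TLcB_cont h h₀).eventually hP
  have h2 : ∀ᶠ t in 𝓝 t₀, t ∈ Ioo a b := Ioo_mem_nhds h₀.mem.1 h₀.mem.2
  obtain ⟨δ, hδ, h3⟩ := TLcB_ev (h2.and h1)
  exact ⟨δ, hδ, fun t ht => (h3 t ht).1, fun t ht => (h3 t ht).2⟩

theorem lc_lip (h : Lc K u a b w w' Y y' X α g) (h₀ : Lp a b w Y X α g t₀) :
    ∃ K' δ : ℝ, 1 ≤ K' ∧ 0 < δ ∧ Ioo (t₀ - δ) (t₀ + δ) ⊆ Ioo a b ∧
      ∀ s ∈ Ioo (t₀ - δ) (t₀ + δ), ∀ t ∈ Ioo (t₀ - δ) (t₀ + δ),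
        ‖w s - w t‖ ≤ K' * |s - t| ∧ |Y s - Y t| ≤ K' * |s - t| ∧ |X s - X t| ≤ K' * |s - t| := by
  have hn : Ioo a b ∈ 𝓝 t₀ := Ioo_mem_nhds h₀.mem.1 h₀.mem.2
  -- bounds near `t₀`
  have hy : ∀ᶠ t in 𝓝 t₀, |y' t| ≤ |y' t₀| + 1 := by
    have h1 : ContinuousAt (fun t => |y' t|) t₀ := (h.Yc.continuousAt hn).abs
    exact (h1.eventually (gt_mem_nhds (show |y' t₀| < |y' t₀| + 1 by linarith))).mono fun t ht => ht.le
  have hα : ∀ᶠ z in 𝓝 (w t₀, (0 : ℝ), (0 : ℝ)), |α z| ≤ |α (w t₀, 0, 0)| + 1 :=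
    (h₀.αa.continuousAt.abs.eventually (gt_mem_nhds (show |α (w t₀, 0, 0)| < |α (w t₀, 0, 0)| + 1 by
      linarith))).mono fun t ht => ht.le
  have hg : ∀ᶠ z in 𝓝 (w t₀, (0 : ℝ), (0 : ℝ)), |g z| ≤ |g (w t₀, 0, 0)| + 1 :=
    (h₀.ga.continuousAt.abs.eventually (gt_mem_nhds (show |g (w t₀, 0, 0)| < |g (w t₀, 0, 0)| + 1 by
      linarith))).mono fun t ht => ht.le
  have h2 : ∀ᶠ t in 𝓝 t₀, t ∈ Ioo a b := hn
  have h3 := (TLcB_cont h h₀).eventually (hα.and hg)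
  obtain ⟨δ, hδ, h4⟩ := TLcB_ev (h2.and (hy.and h3))
  set c₁ := |y' t₀| + 1 with hc₁
  set c₂ := |α (w t₀, 0, 0)| + 1 with hc₂
  set c₃ := |g (w t₀, 0, 0)| + 1 with hc₃
  have hc₁0 : 0 ≤ c₁ := by positivity
  have hc₂0 : 0 ≤ c₂ := by positivity
  have hc₃0 : 0 ≤ c₃ := by positivity
  have hK1 := h.K1
  refine ⟨K + c₁ + (c₂ + c₃), δ, by linarith, hδ, fun t ht => (h4 t ht).1, ?_⟩
  intro s hs t ht
  have hd : 0 ≤ |s - t| := abs_nonneg _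
  have hconv : Convex ℝ (Ioo (t₀ - δ) (t₀ + δ)) := convex_Ioo _ _
  refine ⟨?_, ?_, ?_⟩
  · have h5 := hconv.norm_image_sub_le_of_norm_hasDerivWithin_le (f := w) (f' := w') (C := K)
      (fun r hr => (h.wd r (h4 r hr).1).hasDerivWithinAt) (fun r hr => h.wb r (h4 r hr).1) ht hs
    rw [Real.norm_eq_abs] at h5
    refine h5.trans (mul_le_mul_of_nonneg_right (by linarith) hd)
  · have h5 := hconv.norm_image_sub_le_of_norm_hasDerivWithin_le (f := Y) (f' := y') (C := c₁)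
      (fun r hr => (h.Yd r (h4 r hr).1).hasDerivWithinAt)
      (fun r hr => by rw [Real.norm_eq_abs]; exact (h4 r hr).2.1) ht hs
    rw [Real.norm_eq_abs, Real.norm_eq_abs] at h5
    refine h5.trans (mul_le_mul_of_nonneg_right (by linarith) hd)
  · have h5 : ‖∫ r in t..s, (α (w r, Y r, X r) + u r * g (w r, Y r, X r))‖ ≤ (c₂ + c₃) * |s - t| := by
      refine intervalIntegral.norm_integral_le_of_norm_le_const ?_
      intro r hr
      have hr' : r ∈ Ioo (t₀ - δ) (t₀ + δ) := by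
        have h6 : r ∈ uIcc t s := uIoc_subset_uIcc hr
        exact (ordConnected_Ioo.uIcc_subset ht hs) h6
      obtain ⟨-, -, hαr, hgr⟩ := h4 r hr'
      rw [Real.norm_eq_abs]
      calc |α (w r, Y r, X r) + u r * g (w r, Y r, X r)|
          ≤ |α (w r, Y r, X r)| + |u r * g (w r, Y r, X r)| := abs_add_le _ _
        _ ≤ c₂ + 1 * c₃ := by
            refine add_le_add hαr ?_
            rw [abs_mul]
            exact mul_le_mul (h.adm.2 r) hgr (abs_nonneg _) zero_le_one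
        _ = c₂ + c₃ := by ring
    rw [← h.Xeq t (h4 t ht).1 s (h4 s hs).1, Real.norm_eq_abs] at h5
    refine h5.trans (mul_le_mul_of_nonneg_right (by linarith) hd)

end Pool.Agent.Lib.MP_28b8de_an.TT
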