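import Pool.Agent.Lib.MP_28b8de_an.T.THz
import Pool.Agent.Lib.MP_28b8de_an.T.TOdeAn

/-!
MP_28b8de_an, module TOdes.

Situations in which z is analytic near a point of C, hence impossible.
PROOFS.  All by z_an_false.
odeY: near t₀ y = η(t,z) so z' = L(t,z,η(t,z)): ode_an (E = ℝ).  odeX: (z,y)' = (L(t,z,y), B(t,z,y,ξ(t,z,y))): ode_an in ℝ × ℝ, then the first component.
odeG: G = 0 near (t₀, q t₀), so q' = FF(t,q) near t₀ (x is an integral of F(t,q) + u G(t,q) = F(t,q), continuous integrand): ode_an in V3.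
odeL: L(t,z,y) - L(t,z,y t₀) = 0 near (t₀, z t₀, y t₀): (hypothesis: ly L = 0 near; mean value theorem on the segment) z' = L(t,z,y t₀).
odeB: px B = 0 near (t₀, q t₀): B(t,z,y,x) = B(t,z,y,x t₀) near: (z,y)' = (L(t,z,y), B(t,z,y,x t₀)).
-/

set_option linter.unusedSectionVars false

namespace Pool.Agent.Lib.MP_28b8de_an.TT

open Filter Topology Set MeasureTheory
open Pool.Agent.Lib.MP_28b8de_an.PT (Adm Perf gron gron_back volterra kder ae_zero perf_inner stay)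

variable {L : ℝ × ℝ × ℝ → ℝ} {B F G : ℝ × V3 → ℝ} {R M T : ℝ} {u : ℝ → ℝ} {q : ℝ → V3}
  {p : ℝ → V3 →L[ℝ] ℝ} {C : Set ℝ}


private theorem TOdes_seg {E : Type*} [NormedAddCommGroup E] [NormedSpace ℝ E] {f : E → ℝ}
    (hf : Differentiable ℝ f) {z v : E}
    (h : ∀ s ∈ Icc (0 : ℝ) 1, fderiv ℝ f (z + s • v) v = 0) : f (z + v) = f z := by
  have hg : ∀ s : ℝ, HasDerivAt (fun s : ℝ => f (z + s • v)) (fderiv ℝ f (z + s • v) v) s := by
    intro s
    have h1 : HasDerivAt (fun s : ℝ => z + s • v) v s := by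
      have h2 := ((hasDerivAt_id s).smul_const v).const_add z
      simpa using h2
    exact (hf _).hasFDerivAt.comp_hasDerivAt s h1
  have h3 := constant_of_has_deriv_right_zero (f := fun s : ℝ => f (z + s • v)) (a := 0) (b := 1)
    (fun s _ => (hg s).continuousAt.continuousWithinAt)
    (fun s hs => by
      have h4 := hg s
      rw [h s ⟨hs.1, hs.2.le⟩] at h4
      exact h4.hasDerivWithinAt) 1 ⟨zero_le_one, le_rfl⟩
  simpa using h3

private theorem TOdes_La (h : Sit L B F G R M T u q p C) {t : ℝ} (ht : t ∈ Ioo 0 T) :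
    AnalyticAt ℝ L (t, (q t).1, (q t).2.1) :=
  h.ts.La _ (ts_ball h.ts ⟨ht.1.le, ht.2.le⟩).2

private theorem TOdes_Ba (h : Sit L B F G R M T u q p C) {t : ℝ} (ht : t ∈ Ioo 0 T) :
    AnalyticAt ℝ B (t, q t) :=
  h.ts.Ba _ (ts_ball h.ts ⟨ht.1.le, ht.2.le⟩).1

private theorem TOdes_Fa (h : Sit L B F G R M T u q p C) {t : ℝ} (ht : t ∈ Ioo 0 T) :
    AnalyticAt ℝ F (t, q t) :=
  h.ts.Fa _ (ts_ball h.ts ⟨ht.1.le, ht.2.le⟩).1

theorem odeY (h : Sit L B F G R M T u q p C) {t₀ : ℝ} (ht₀ : t₀ ∈ C) (ht₀' : t₀ ∈ Ioo 0 T)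
    {η : ℝ × ℝ → ℝ} (hη : AnalyticAt ℝ η (t₀, (q t₀).1))
    (hy : ∀ᶠ t in 𝓝 t₀, (q t).2.1 = η (t, (q t).1)) : False := by
  refine z_an_false h ht₀ ht₀' ?_
  have hy0 : (q t₀).2.1 = η (t₀, (q t₀).1) := hy.self_of_nhds
  have hT : ∀ᶠ t in 𝓝 t₀, t ∈ Ioo 0 T := Ioo_mem_nhds ht₀'.1 ht₀'.2
  refine ode_an (Φ := fun v : ℝ × ℝ => L (v.1, v.2, η v)) (w := fun t => (q t).1) ?_ ?_
  · have h1 : AnalyticAt ℝ L ((t₀, (q t₀).1, η (t₀, (q t₀).1)) : ℝ × ℝ × ℝ) := by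
      rw [← hy0]; exact TOdes_La h ht₀'
    have h2 : AnalyticAt ℝ (fun v : ℝ × ℝ => ((v.1, v.2, η v) : ℝ × ℝ × ℝ)) (t₀, (q t₀).1) :=
      analyticAt_fst.prod (analyticAt_snd.prod hη)
    exact AnalyticAt.comp (f := fun v : ℝ × ℝ => ((v.1, v.2, η v) : ℝ × ℝ × ℝ)) h1 h2
  · filter_upwards [hy, hT] with t h1 h2
    have h3 := ts_z h.ts h2
    rw [h1] at h3
    exact h3

theorem odeX (h : Sit L B F G R M T u q p C) {t₀ : ℝ} (ht₀ : t₀ ∈ C) (ht₀' : t₀ ∈ Ioo 0 T)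
    {ξ : ℝ × ℝ × ℝ → ℝ} (hξ : AnalyticAt ℝ ξ (t₀, (q t₀).1, (q t₀).2.1))
    (hx : ∀ᶠ t in 𝓝 t₀, (q t).2.2 = ξ (t, (q t).1, (q t).2.1)) : False := by
  refine z_an_false h ht₀ ht₀' ?_
  have hx0 : (q t₀).2.2 = ξ (t₀, (q t₀).1, (q t₀).2.1) := hx.self_of_nhds
  have hT : ∀ᶠ t in 𝓝 t₀, t ∈ Ioo 0 T := Ioo_mem_nhds ht₀'.1 ht₀'.2
  have key : AnalyticAt ℝ (fun t => (((q t).1, (q t).2.1) : ℝ × ℝ)) t₀ := by
    refine ode_an (Φ := fun v : ℝ × ℝ × ℝ =>
      ((L v, B ((v.1, v.2.1, v.2.2, ξ v) : ℝ × V3)) : ℝ × ℝ))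
      (w := fun t => (((q t).1, (q t).2.1) : ℝ × ℝ)) ?_ ?_
    · refine AnalyticAt.prod (TOdes_La h ht₀') ?_
      have h1 : AnalyticAt ℝ B ((t₀, (q t₀).1, (q t₀).2.1, ξ (t₀, (q t₀).1, (q t₀).2.1)) :
          ℝ × V3) := by
        rw [← hx0]; exact TOdes_Ba h ht₀'
      have h2 : AnalyticAt ℝ (fun v : ℝ × ℝ × ℝ => ((v.1, v.2.1, v.2.2, ξ v) : ℝ × V3))
          (t₀, (q t₀).1, (q t₀).2.1) :=
        analyticAt_fst.prod ((analyticAt_fst.comp analyticAt_snd).prod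
          ((analyticAt_snd.comp analyticAt_snd).prod hξ))
      exact AnalyticAt.comp (f := fun v : ℝ × ℝ × ℝ => ((v.1, v.2.1, v.2.2, ξ v) : ℝ × V3)) h1 h2
    · filter_upwards [hx, hT] with t h1 h2
      have h3 := (ts_z h.ts h2).prodMk (ts_y h.ts h2)
      have h4 : (q t) = ((q t).1, (q t).2.1, ξ (t, (q t).1, (q t).2.1)) := by
        rw [← h1]
      have h5 : B (t, q t) = B (t, (q t).1, (q t).2.1, ξ (t, (q t).1, (q t).2.1)) := by
        rw [← h1]
      rw [h5] at h3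
      exact h3
  exact AnalyticAt.comp (g := fun v : ℝ × ℝ => v.1)
    (f := fun t => (((q t).1, (q t).2.1) : ℝ × ℝ)) analyticAt_fst key

theorem odeG (h : Sit L B F G R M T u q p C) {t₀ : ℝ} (ht₀ : t₀ ∈ C) (ht₀' : t₀ ∈ Ioo 0 T)
    (hG : ∀ᶠ z in 𝓝 ((t₀, q t₀) : ℝ × V3), G z = 0) : False := by
  refine z_an_false h ht₀ ht₀' ?_
  have hc : ContinuousAt (fun s : ℝ => ((s, q s) : ℝ × V3)) t₀ :=
    continuousAt_id.prodMk (ts_cont h.ts ht₀')
  have hG' : ∀ᶠ t in 𝓝 t₀, G (t, q t) = 0 := hc.eventually hG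
  have hT : ∀ᶠ t in 𝓝 t₀, t ∈ Ioo 0 T := Ioo_mem_nhds ht₀'.1 ht₀'.2
  obtain ⟨δ, hδ, hI⟩ := Metric.eventually_nhds_iff.1 (hG'.and hT)
  have hI' : ∀ t ∈ Ioo (t₀ - δ) (t₀ + δ), G (t, q t) = 0 ∧ t ∈ Ioo 0 T := by
    intro t ht
    refine hI ?_
    rw [Real.dist_eq, abs_lt]
    exact ⟨by linarith [ht.1], by linarith [ht.2]⟩
  have hq : ContinuousOn (fun r => F (r, q r)) (Ioo (t₀ - δ) (t₀ + δ)) := by
    intro t ht
    have h1 : ContinuousAt (fun s : ℝ => ((s, q s) : ℝ × V3)) t :=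
      continuousAt_id.prodMk (ts_cont h.ts (hI' t ht).2)
    have h2 : ContinuousAt F ((t, q t) : ℝ × V3) := (ts_diff h.ts).2.2.1.continuous.continuousAt
    exact (ContinuousAt.comp (f := fun s : ℝ => ((s, q s) : ℝ × V3)) h2 h1).continuousWithinAt
  have hx : ∀ t ∈ Ioo (t₀ - δ) (t₀ + δ), HasDerivAt (fun t => (q t).2.2) (F (t, q t)) t := by
    intro t ht
    have hm : StronglyMeasurableAtFilter (fun r => F (r, q r)) (𝓝 t) volume :=
      hq.stronglyMeasurableAtFilter isOpen_Ioo t ht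
    have hcF : ContinuousAt (fun r => F (r, q r)) t := hq.continuousAt (isOpen_Ioo.mem_nhds ht)
    have h2 : HasDerivAt (fun v => ∫ r in t..v, F (r, q r)) (F (t, q t)) t :=
      intervalIntegral.integral_hasDerivAt_right (by simp) hm hcF
    have h3 : HasDerivAt (fun v => (q t).2.2 + ∫ r in t..v, F (r, q r)) (F (t, q t)) t :=
      h2.const_add _
    refine h3.congr_of_eventuallyEq ?_
    filter_upwards [isOpen_Ioo.mem_nhds ht] with v hv
    have h4 := (ts_x h.ts (s := t) (t := v) ⟨(hI' t ht).2.1.le, (hI' t ht).2.2.le⟩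
      ⟨(hI' v hv).2.1.le, (hI' v hv).2.2.le⟩).2
    have h5 : (∫ r in t..v, (F (r, q r) + u r * G (r, q r))) = ∫ r in t..v, F (r, q r) := by
      refine intervalIntegral.integral_congr fun r hr => ?_
      have hr' : r ∈ Ioo (t₀ - δ) (t₀ + δ) :=
        (ordConnected_Ioo.uIcc_subset ht hv) hr
      show F (r, q r) + u r * G (r, q r) = F (r, q r)
      rw [(hI' r hr').1]
      ring
    rw [h5] at h4
    rw [← h4]
    ring
  have key : AnalyticAt ℝ q t₀ := by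
    refine ode_an (Φ := FF L B F) (w := q) ?_ ?_
    · refine AnalyticAt.prod ?_ ((TOdes_Ba h ht₀').prod (TOdes_Fa h ht₀'))
      have h1 : AnalyticAt ℝ (fun v : ℝ × V3 => ((v.1, v.2.1, v.2.2.1) : ℝ × ℝ × ℝ)) (t₀, q t₀) :=
        analyticAt_fst.prod ((analyticAt_fst.comp analyticAt_snd).prod
          (analyticAt_fst.comp (analyticAt_snd.comp analyticAt_snd)))
      exact AnalyticAt.comp (f := fun v : ℝ × V3 => ((v.1, v.2.1, v.2.2.1) : ℝ × ℝ × ℝ))
        (TOdes_La h ht₀') h1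
    · filter_upwards [Ioo_mem_nhds (show t₀ - δ < t₀ by linarith) (show t₀ < t₀ + δ by linarith)]
        with t ht
      exact (ts_z h.ts (hI' t ht).2).prodMk ((ts_y h.ts (hI' t ht).2).prodMk (hx t ht))
  exact (analyticAt_fst (𝕜 := ℝ) (p := q t₀)).comp key

theorem odeL (h : Sit L B F G R M T u q p C) {t₀ : ℝ} (ht₀ : t₀ ∈ C) (ht₀' : t₀ ∈ Ioo 0 T)
    (hL : ∀ᶠ z in 𝓝 ((t₀, (q t₀).1, (q t₀).2.1) : ℝ × ℝ × ℝ), ly L z = 0) : False := by
  refine z_an_false h ht₀ ht₀' ?_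
  obtain ⟨ε, hε, hI⟩ := Metric.eventually_nhds_iff.1 hL
  have hT : ∀ᶠ t in 𝓝 t₀, t ∈ Ioo 0 T := Ioo_mem_nhds ht₀'.1 ht₀'.2
  have hq := ts_cont h.ts ht₀'
  have hc : ContinuousAt (fun s : ℝ => ((s, (q s).1, (q s).2.1) : ℝ × ℝ × ℝ)) t₀ :=
    continuousAt_id.prodMk (hq.fst.prodMk hq.snd.fst)
  have hn : ∀ᶠ t in 𝓝 t₀,
      ((t, (q t).1, (q t).2.1) : ℝ × ℝ × ℝ) ∈ Metric.ball (t₀, (q t₀).1, (q t₀).2.1) ε :=
    hc.eventually (Metric.ball_mem_nhds _ hε)
  refine ode_an (Φ := fun v : ℝ × ℝ => L (v.1, v.2, (q t₀).2.1)) (w := fun t => (q t).1) ?_ ?_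
  · have h2 : AnalyticAt ℝ (fun v : ℝ × ℝ => ((v.1, v.2, (q t₀).2.1) : ℝ × ℝ × ℝ))
        (t₀, (q t₀).1) :=
      analyticAt_fst.prod (analyticAt_snd.prod analyticAt_const)
    exact AnalyticAt.comp (f := fun v : ℝ × ℝ => ((v.1, v.2, (q t₀).2.1) : ℝ × ℝ × ℝ))
      (TOdes_La h ht₀') h2
  · filter_upwards [hT, hn] with t h2 h3
    have h4 : L (t, (q t).1, (q t).2.1) = L (t, (q t).1, (q t₀).2.1) := by
      have h5 := TOdes_seg (f := L) ((ts_diff h.ts).1.differentiable (by simp))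
        (z := ((t, (q t).1, (q t₀).2.1) : ℝ × ℝ × ℝ))
        (v := ((0, 0, (q t).2.1 - (q t₀).2.1) : ℝ × ℝ × ℝ)) (fun s hs => by
          have h6 : ((0, 0, (q t).2.1 - (q t₀).2.1) : ℝ × ℝ × ℝ) =
              ((q t).2.1 - (q t₀).2.1) • ((0, 0, 1) : ℝ × ℝ × ℝ) := by
            simp
          have h7 : ((t, (q t).1, (q t₀).2.1) : ℝ × ℝ × ℝ) +
              s • ((0, 0, (q t).2.1 - (q t₀).2.1) : ℝ × ℝ × ℝ) =
              (t, (q t).1, (q t₀).2.1 + s * ((q t).2.1 - (q t₀).2.1)) := by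
            simp
          rw [h7]
          have h8 : ly L (t, (q t).1, (q t₀).2.1 + s * ((q t).2.1 - (q t₀).2.1)) = 0 := by
            refine hI ?_
            rw [Metric.mem_ball] at h3
            rw [Prod.dist_eq, Prod.dist_eq] at h3 ⊢
            have h9 := max_lt_iff.1 h3
            have h10 := max_lt_iff.1 h9.2
            refine max_lt h9.1 (max_lt h10.1 ?_)
            have h11 := h10.2
            simp only [Real.dist_eq] at h11 ⊢
            have h12 : (q t₀).2.1 + s * ((q t).2.1 - (q t₀).2.1) - (q t₀).2.1 =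
              s * ((q t).2.1 - (q t₀).2.1) := by ring
            rw [h12, abs_mul, abs_of_nonneg hs.1]
            have h13 : s * |(q t).2.1 - (q t₀).2.1| ≤ 1 * |(q t).2.1 - (q t₀).2.1| :=
              mul_le_mul_of_nonneg_right hs.2 (abs_nonneg _)
            linarith
          rw [h6, map_smul]
          unfold ly at h8
          rw [h8, smul_zero])
      have h14 : ((t, (q t).1, (q t₀).2.1) : ℝ × ℝ × ℝ) +
          ((0, 0, (q t).2.1 - (q t₀).2.1) : ℝ × ℝ × ℝ) = (t, (q t).1, (q t).2.1) := by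
        simp
      rw [h14] at h5
      exact h5
    have h5 := ts_z h.ts h2
    rw [h4] at h5
    exact h5

theorem odeB (h : Sit L B F G R M T u q p C) {t₀ : ℝ} (ht₀ : t₀ ∈ C) (ht₀' : t₀ ∈ Ioo 0 T)
    (hB : ∀ᶠ z in 𝓝 ((t₀, q t₀) : ℝ × V3), px B z = 0) : False := by
  refine z_an_false h ht₀ ht₀' ?_
  obtain ⟨ε, hε, hI⟩ := Metric.eventually_nhds_iff.1 hB
  have hT : ∀ᶠ t in 𝓝 t₀, t ∈ Ioo 0 T := Ioo_mem_nhds ht₀'.1 ht₀'.2
  have hq := ts_cont h.ts ht₀'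
  have hc : ContinuousAt (fun s : ℝ => ((s, q s) : ℝ × V3)) t₀ := continuousAt_id.prodMk hq
  have hn : ∀ᶠ t in 𝓝 t₀, ((t, q t) : ℝ × V3) ∈ Metric.ball ((t₀, q t₀) : ℝ × V3) ε :=
    hc.eventually (Metric.ball_mem_nhds _ hε)
  have key : AnalyticAt ℝ (fun t => (((q t).1, (q t).2.1) : ℝ × ℝ)) t₀ := by
    refine ode_an (Φ := fun v : ℝ × ℝ × ℝ =>
      ((L v, B ((v.1, v.2.1, v.2.2, (q t₀).2.2) : ℝ × V3)) : ℝ × ℝ))
      (w := fun t => (((q t).1, (q t).2.1) : ℝ × ℝ)) ?_ ?_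
    · refine AnalyticAt.prod (TOdes_La h ht₀') ?_
      have h2 : AnalyticAt ℝ (fun v : ℝ × ℝ × ℝ => ((v.1, v.2.1, v.2.2, (q t₀).2.2) : ℝ × V3))
          (t₀, (q t₀).1, (q t₀).2.1) :=
        analyticAt_fst.prod ((analyticAt_fst.comp analyticAt_snd).prod
          ((analyticAt_snd.comp analyticAt_snd).prod analyticAt_const))
      exact AnalyticAt.comp
        (f := fun v : ℝ × ℝ × ℝ => ((v.1, v.2.1, v.2.2, (q t₀).2.2) : ℝ × V3))
        (TOdes_Ba h ht₀') h2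
    · filter_upwards [hT, hn] with t h2 h3
      have h4 : B (t, q t) = B (t, (q t).1, (q t).2.1, (q t₀).2.2) := by
        have h5 := TOdes_seg (f := B) ((ts_diff h.ts).2.1.differentiable (by simp))
          (z := ((t, (q t).1, (q t).2.1, (q t₀).2.2) : ℝ × V3))
          (v := ((0, 0, 0, (q t).2.2 - (q t₀).2.2) : ℝ × V3)) (fun s hs => by
            have h6 : ((0, 0, 0, (q t).2.2 - (q t₀).2.2) : ℝ × V3) =
                ((q t).2.2 - (q t₀).2.2) • ((0, 0, 0, 1) : ℝ × V3) := by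
              simp
            have h7 : ((t, (q t).1, (q t).2.1, (q t₀).2.2) : ℝ × V3) +
                s • ((0, 0, 0, (q t).2.2 - (q t₀).2.2) : ℝ × V3) =
                (t, (q t).1, (q t).2.1, (q t₀).2.2 + s * ((q t).2.2 - (q t₀).2.2)) := by
              simp
            rw [h7]
            have h8 : px B (t, (q t).1, (q t).2.1,
                (q t₀).2.2 + s * ((q t).2.2 - (q t₀).2.2)) = 0 := by
              refine hI ?_
              rw [Metric.mem_ball] at h3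
              rw [Prod.dist_eq, Prod.dist_eq, Prod.dist_eq] at h3 ⊢
              have h9 := max_lt_iff.1 h3
              have h10 := max_lt_iff.1 h9.2
              have h10' := max_lt_iff.1 h10.2
              refine max_lt h9.1 (max_lt h10.1 (max_lt h10'.1 ?_))
              have h11 := h10'.2
              simp only [Real.dist_eq] at h11 ⊢
              have h12 : (q t₀).2.2 + s * ((q t).2.2 - (q t₀).2.2) - (q t₀).2.2 =
                s * ((q t).2.2 - (q t₀).2.2) := by ring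
              rw [h12, abs_mul, abs_of_nonneg hs.1]
              have h13 : s * |(q t).2.2 - (q t₀).2.2| ≤ 1 * |(q t).2.2 - (q t₀).2.2| :=
                mul_le_mul_of_nonneg_right hs.2 (abs_nonneg _)
              linarith
            rw [h6, map_smul]
            unfold px at h8
            rw [h8, smul_zero])
        have h14 : ((t, (q t).1, (q t).2.1, (q t₀).2.2) : ℝ × V3) +
            ((0, 0, 0, (q t).2.2 - (q t₀).2.2) : ℝ × V3) = (t, q t) := by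
          simp
        rw [h14] at h5
        exact h5
      have h5 := (ts_z h.ts h2).prodMk (ts_y h.ts h2)
      rw [h4] at h5
      exact h5
  exact AnalyticAt.comp (g := fun v : ℝ × ℝ => v.1)
    (f := fun t => (((q t).1, (q t).2.1) : ℝ × ℝ)) analyticAt_fst key

end Pool.Agent.Lib.MP_28b8de_an.TT
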