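import Pool.Agent.Lib.MP_28b8de_an.T.TSol

/-!
MP_28b8de_an, module PSolX (PTD-PSolX): existence and continuous dependence of trajectories.

PROOFS.  sol_exists: `volterra` with Ψ s x = F (s,x) + v s • G (s,x), L = 2M (measurability: `rhs_int`).
sol_dist: e(t) = ‖r t - r' t‖ ≤ ‖r a - r' a‖ + ∫_a^t (2M e + M |v - w|) (F (s,r) - F (s,r'), v (G r - G r'), (v - w) G r'), then `gron`.
adj_exists: `volterra` after the reflection t ↦ a + b - t, E = dual space, Ψ s p = p ∘ A(a+b-s), ‖A‖ ≤ 2M
(‖dx F z‖ ≤ M).  adj_bound, adj_lip: gron_back and norm_integral_le.  adj_ne: if p t = 0 then by `gron` forward from t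
(adj_sub) p b = 0.
-/

set_option linter.unusedSectionVars false

namespace Pool.Agent.Lib.MP_28b8de_an.TT

open Filter Topology Set MeasureTheory
open Pool.Agent.Lib.MP_28b8de_an.PT (Adm Perf l1 l1_apply gron gron_back volterra kder ae_zero perf_inner
  dense_L1 dense_L1_ball l1_UU l1_eq stay)

variable {V : Type*} [NormedAddCommGroup V] [NormedSpace ℝ V] [FiniteDimensional ℝ V]
  {F G : ℝ × V → V} {M : ℝ}

private theorem TSolX_norm_pair (s : ℝ) (x y : V) :
    ‖((s, x) : ℝ × V) - (s, y)‖ = ‖x - y‖ := by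
  rw [Prod.mk_sub_mk, sub_self, Prod.norm_mk, norm_zero]
  exact max_eq_right (norm_nonneg _)

theorem sol_exists (E : Env F G M) {v : ℝ → ℝ} (hv : Adm v) {a b : ℝ} (hab : a ≤ b)
    (x₀ : V) : ∃ r : ℝ → V, Continuous r ∧ r a = x₀ ∧ Sol F G v r a b := by
  have hM := E.hM
  obtain ⟨r, hr, hra, hre⟩ := volterra (Ψ := fun s x => F (s, x) + v s • G (s, x)) (a := a) (b := b)
    (L := 2 * M) hab (by linarith)
    (fun x hx => rhs_int E hv hx.continuousOn (left_mem_Icc.2 hab) (right_mem_Icc.2 hab))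
    (fun s _ x y => by
      have h1 := env_lipF E (s, x) (s, y)
      have h2 := env_lipG E (s, x) (s, y)
      rw [TSolX_norm_pair] at h1 h2
      have h3 : F (s, x) + v s • G (s, x) - (F (s, y) + v s • G (s, y))
          = (F (s, x) - F (s, y)) + v s • (G (s, x) - G (s, y)) := by
        rw [smul_sub]; abel
      show ‖F (s, x) + v s • G (s, x) - (F (s, y) + v s • G (s, y))‖ ≤ _
      rw [h3]
      refine (norm_add_le _ _).trans ?_
      rw [norm_smul, Real.norm_eq_abs]
      have h4 : |v s| * ‖G (s, x) - G (s, y)‖ ≤ 1 * (M * ‖x - y‖) :=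
        mul_le_mul (hv.2 s) h2 (norm_nonneg _) zero_le_one
      linarith) x₀
  exact ⟨r, hr, hra, hr.continuousOn, fun t ht => by rw [hra]; exact hre t ht⟩

theorem sol_dist (E : Env F G M) {v w : ℝ → ℝ} (hv : Adm v) (hw : Adm w) {r r' : ℝ → V}
    {a b : ℝ} (hr : Sol F G v r a b) (hr' : Sol F G w r' a b) :
    ∀ t ∈ Icc a b, ‖r t - r' t‖ ≤
      (‖r a - r' a‖ + M * ∫ s in a..b, |v s - w s|) * Real.exp (2 * M * (b - a)) := by
  intro t ht
  have hM := E.hM
  have hab : a ≤ b := ht.1.trans ht.2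
  have hvw : ∀ c d : ℝ, IntervalIntegrable (fun s => |v s - w s|) volume c d := by
    intro c d
    rw [intervalIntegrable_iff]
    refine Measure.integrableOn_of_bounded (M := 2) (by simp [Set.uIoc])
      ((hv.1.sub hw.1).abs.aestronglyMeasurable) (ae_of_all _ fun s => ?_)
    rw [Real.norm_eq_abs, abs_abs]
    have h1 := abs_sub (v s) (w s)
    have h2 := hv.2 s
    have h3 := hw.2 s
    linarith
  have hcont : ContinuousOn (fun s => ‖r s - r' s‖) (Icc a b) := (hr.cont.sub hr'.cont).norm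
  have key := gron (f := fun s => ‖r s - r' s‖) (a := a) (b := b)
    (e := ‖r a - r' a‖ + M * ∫ s in a..b, |v s - w s|) (K := 2 * M) hcont (by linarith) (by
      intro τ hτ
      have hai : a ∈ Icc a b := left_mem_Icc.2 hab
      have i1 := rhs_int E hv hr.cont hai hτ
      have i2 := rhs_int E hw hr'.cont hai hτ
      have e1 : r τ - r' τ = (r a - r' a) + ∫ s in a..τ, ((F (s, r s) + v s • G (s, r s)) -
          (F (s, r' s) + w s • G (s, r' s))) := by
        rw [intervalIntegral.integral_sub i1 i2, hr.eq τ hτ, hr'.eq τ hτ]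
        abel
      have hc' : IntervalIntegrable (fun s => ‖r s - r' s‖) volume a τ := by
        refine ContinuousOn.intervalIntegrable ?_
        rw [uIcc_of_le hτ.1]
        exact hcont.mono (Icc_subset_Icc_right hτ.2)
      have e2 : ‖∫ s in a..τ, ((F (s, r s) + v s • G (s, r s)) -
          (F (s, r' s) + w s • G (s, r' s)))‖ ≤
            ∫ s in a..τ, (2 * M * ‖r s - r' s‖ + M * |v s - w s|) := by
        refine intervalIntegral.norm_integral_le_of_norm_le hτ.1 (ae_of_all _ fun s _ => ?_)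
          ((hc'.const_mul _).add ((hvw a τ).const_mul _))
        have h1 := env_lipF E (s, r s) (s, r' s)
        have h2 := env_lipG E (s, r s) (s, r' s)
        rw [TSolX_norm_pair] at h1 h2
        have h3 : (F (s, r s) + v s • G (s, r s)) - (F (s, r' s) + w s • G (s, r' s))
            = (F (s, r s) - F (s, r' s)) + v s • (G (s, r s) - G (s, r' s)) +
              (v s - w s) • G (s, r' s) := by
          rw [smul_sub, sub_smul]; abel
        rw [h3]
        refine (norm_add₃_le).trans ?_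
        rw [norm_smul, norm_smul, Real.norm_eq_abs, Real.norm_eq_abs]
        have h4 : |v s| * ‖G (s, r s) - G (s, r' s)‖ ≤ 1 * (M * ‖r s - r' s‖) :=
          mul_le_mul (hv.2 s) h2 (norm_nonneg _) zero_le_one
        have h5 : |v s - w s| * ‖G (s, r' s)‖ ≤ |v s - w s| * M :=
          mul_le_mul_of_nonneg_left (E.Gb _) (abs_nonneg _)
        linarith
      have e3 : ∫ s in a..τ, (2 * M * ‖r s - r' s‖ + M * |v s - w s|) =
          2 * M * (∫ s in a..τ, ‖r s - r' s‖) + M * ∫ s in a..τ, |v s - w s| := by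
        rw [intervalIntegral.integral_add (hc'.const_mul _) ((hvw a τ).const_mul _),
          intervalIntegral.integral_const_mul, intervalIntegral.integral_const_mul]
      have e4 : ∫ s in a..τ, |v s - w s| ≤ ∫ s in a..b, |v s - w s| := by
        rw [← intervalIntegral.integral_add_adjacent_intervals (hvw a τ) (hvw τ b)]
        have : 0 ≤ ∫ s in τ..b, |v s - w s| :=
          intervalIntegral.integral_nonneg hτ.2 fun s _ => abs_nonneg _
        linarith
      have e5 : M * (∫ s in a..τ, |v s - w s|) ≤ M * ∫ s in a..b, |v s - w s| :=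
        mul_le_mul_of_nonneg_left e4 (by linarith)
      show ‖r τ - r' τ‖ ≤ _
      have e6 : ‖r τ - r' τ‖ ≤ ‖r a - r' a‖ + ‖∫ s in a..τ, ((F (s, r s) + v s • G (s, r s)) -
          (F (s, r' s) + w s • G (s, r' s)))‖ := by
        conv_lhs => rw [e1]
        exact norm_add_le _ _
      rw [e3] at e2
      linarith) t ht
  have h0 : 0 ≤ ∫ s in a..b, |v s - w s| :=
    intervalIntegral.integral_nonneg hab fun s _ => abs_nonneg _
  refine key.trans (mul_le_mul_of_nonneg_left (Real.exp_le_exp.2 ?_) (by positivity))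
  exact mul_le_mul_of_nonneg_left (by linarith [ht.2]) (by linarith)

private theorem TSolX_dx_le (H : ℝ × V → V) (hH : ∀ z, ‖fderiv ℝ H z‖ ≤ M)
    (z : ℝ × V) : ‖dx H z‖ ≤ M := by
  unfold dx
  refine (ContinuousLinearMap.opNorm_comp_le _ _).trans ?_
  have h1 := ContinuousLinearMap.norm_inr_le_one ℝ ℝ V
  calc ‖fderiv ℝ H z‖ * ‖ContinuousLinearMap.inr ℝ ℝ V‖ ≤ ‖fderiv ℝ H z‖ * 1 :=
        mul_le_mul_of_nonneg_left h1 (norm_nonneg _)
    _ ≤ M := by rw [mul_one]; exact hH z

private theorem TSolX_dx_cont (H : ℝ × V → V) (hH : ContDiff ℝ (⊤ : ℕ∞) H) :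
    Continuous (dx H) := by
  unfold dx
  have h1 : Continuous (fderiv ℝ H) := hH.continuous_fderiv (by simp)
  exact h1.clm_comp continuous_const

private theorem TSolX_Aop_le (E : Env F G M) {u : ℝ → ℝ} (hu : Adm u) (q : ℝ → V)
    (s : ℝ) : ‖Aop F G u q s‖ ≤ 2 * M := by
  unfold Aop
  refine (norm_add_le _ _).trans ?_
  rw [norm_smul, Real.norm_eq_abs]
  have h1 := TSolX_dx_le F E.Fd (s, q s)
  have h2 := TSolX_dx_le G E.Gd (s, q s)
  have h3 : |u s| * ‖dx G (s, q s)‖ ≤ 1 * M :=
    mul_le_mul (hu.2 s) h2 (norm_nonneg _) zero_le_one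
  linarith

private theorem TSolX_comp_le (E : Env F G M) {u : ℝ → ℝ} (hu : Adm u) (q : ℝ → V)
    (s : ℝ) (l : V →L[ℝ] ℝ) : ‖l.comp (Aop F G u q s)‖ ≤ 2 * M * ‖l‖ := by
  refine (ContinuousLinearMap.opNorm_comp_le _ _).trans ?_
  rw [mul_comm]
  exact mul_le_mul_of_nonneg_right (TSolX_Aop_le E hu q s) (norm_nonneg _)

theorem adj_int (E : Env F G M) {u : ℝ → ℝ} (hu : Adm u) {q : ℝ → V} {a b : ℝ}
    (hq : Sol F G u q a b) {p : ℝ → V →L[ℝ] ℝ} (hp : ContinuousOn p (Icc a b)) {s t : ℝ}
    (hs : s ∈ Icc a b) (ht : t ∈ Icc a b) :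
    IntervalIntegrable (fun s => (p s).comp (Aop F G u q s)) volume s t := by
  have hM := E.hM
  have hsub : Set.uIoc s t ⊆ Icc a b := by
    refine uIoc_subset_uIcc.trans ?_
    exact uIcc_subset_Icc hs ht
  obtain ⟨C, hC⟩ := isCompact_Icc.exists_bound_of_continuousOn hp
  rw [intervalIntegrable_iff]
  have mp : AEStronglyMeasurable p (volume.restrict (Set.uIoc s t)) :=
    (hp.mono hsub).aestronglyMeasurable measurableSet_uIoc
  have mz : AEStronglyMeasurable (fun s => ((s, q s) : ℝ × V)) (volume.restrict (Set.uIoc s t)) :=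
    ((continuousOn_id.prodMk hq.cont).mono hsub).aestronglyMeasurable measurableSet_uIoc
  have mA : AEStronglyMeasurable (Aop F G u q) (volume.restrict (Set.uIoc s t)) := by
    unfold Aop
    exact ((TSolX_dx_cont F E.Fs).comp_aestronglyMeasurable mz).add
      (hu.1.aestronglyMeasurable.smul ((TSolX_dx_cont G E.Gs).comp_aestronglyMeasurable mz))
  haveI : IsFiniteMeasure (volume.restrict (Set.uIoc s t)) := ⟨by simp [Set.uIoc]⟩
  refine Integrable.of_bound
    ((ContinuousLinearMap.compL ℝ V V ℝ).aestronglyMeasurable_comp₂ mp mA)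
    (2 * M * C) ?_
  rw [ae_restrict_iff' measurableSet_uIoc]
  refine ae_of_all _ fun τ hτ => ?_
  show ‖(p τ).comp (Aop F G u q τ)‖ ≤ _
  refine (TSolX_comp_le E hu q τ (p τ)).trans ?_
  exact mul_le_mul_of_nonneg_left (hC τ (hsub hτ)) (by linarith)

theorem adj_sub (E : Env F G M) {u : ℝ → ℝ} (hu : Adm u) {q : ℝ → V} {a b : ℝ}
    (hq : Sol F G u q a b) {p : ℝ → V →L[ℝ] ℝ} (hp : Adj F G u q p a b) {s t : ℝ}
    (hs : s ∈ Icc a b) (ht : t ∈ Icc a b) :
    p s = p t + ∫ τ in s..t, (p τ).comp (Aop F G u q τ) := by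
  have hb : b ∈ Icc a b := right_mem_Icc.2 (hs.1.trans hs.2)
  have h1 := adj_int E hu hq hp.cont hs ht
  have h2 := adj_int E hu hq hp.cont ht hb
  rw [hp.eq s hs, hp.eq t ht, ← intervalIntegral.integral_add_adjacent_intervals h1 h2]
  abel

theorem adj_exists (E : Env F G M) {u : ℝ → ℝ} (hu : Adm u) {q : ℝ → V} {a b : ℝ}
    (hab : a ≤ b) (hq : Sol F G u q a b) (lam : V →L[ℝ] ℝ) :
    ∃ p : ℝ → V →L[ℝ] ℝ, Adj F G u q p a b ∧ p b = lam := by
  have hM := E.hM
  have ha : a ∈ Icc a b := left_mem_Icc.2 hab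
  have hb : b ∈ Icc a b := right_mem_Icc.2 hab
  obtain ⟨x, hx, hxa, hxe⟩ := volterra
    (Ψ := fun s (l : V →L[ℝ] ℝ) => l.comp (Aop F G u q (a + b - s))) (a := a) (b := b)
    (L := 2 * M) hab (by linarith)
    (fun x hx => by
      have h1 := adj_int E hu hq (p := fun s => x (a + b - s))
        (hx.comp (by fun_prop)).continuousOn hb ha
      have h2 := h1.comp_sub_left (a + b)
      have e1 : a + b - b = a := by ring
      have e2 : a + b - a = b := by ring
      rw [e1, e2] at h2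
      refine h2.congr ?_
      intro s _
      show (x (a + b - (a + b - s))).comp (Aop F G u q (a + b - s)) = _
      have e3 : a + b - (a + b - s) = s := by ring
      rw [e3])
    (fun s _ x y => by
      show ‖x.comp (Aop F G u q (a + b - s)) - y.comp (Aop F G u q (a + b - s))‖ ≤ _
      rw [← ContinuousLinearMap.sub_comp]
      exact TSolX_comp_le E hu q _ _) lam
  refine ⟨fun t => x (a + b - t), ⟨(hx.comp (by fun_prop)).continuousOn, ?_⟩, ?_⟩
  · intro t ht
    have ht' : a + b - t ∈ Icc a b := ⟨by linarith [ht.2], by linarith [ht.1]⟩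
    have h1 := hxe (a + b - t) ht'
    have e2 : a + b - b = a := by ring
    show x (a + b - t) = x (a + b - b) + ∫ s in t..b, (x (a + b - s)).comp (Aop F G u q s)
    rw [e2, hxa, h1]
    congr 1
    have h3 := intervalIntegral.integral_comp_sub_left (a := a) (b := a + b - t)
      (fun s => (x (a + b - s)).comp (Aop F G u q s)) (a + b)
    have e3 : a + b - (a + b - t) = t := by ring
    have e4 : a + b - a = b := by ring
    rw [e3, e4] at h3
    rw [← h3]
    refine intervalIntegral.integral_congr fun s _ => ?_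
    have e5 : a + b - (a + b - s) = s := by ring
    simp only [e5]
  · have e4 : a + b - b = a := by ring
    show x (a + b - b) = lam
    rw [e4, hxa]

theorem adj_bound (E : Env F G M) {u : ℝ → ℝ} (hu : Adm u) {q : ℝ → V} {a b : ℝ}
    (hq : Sol F G u q a b) {p : ℝ → V →L[ℝ] ℝ} (hp : Adj F G u q p a b) :
    ∀ t ∈ Icc a b, ‖p t‖ ≤ ‖p b‖ * Real.exp (2 * M * (b - a)) := by
  intro t ht
  have hM := E.hM
  have key := gron_back (f := fun s => ‖p s‖) (a := a) (b := b) (e := ‖p b‖) (K := 2 * M)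
    hp.cont.norm (by linarith) (by
      intro τ hτ
      have hc' : IntervalIntegrable (fun s => ‖p s‖) volume τ b := by
        refine ContinuousOn.intervalIntegrable ?_
        rw [uIcc_of_le hτ.2]
        exact hp.cont.norm.mono (Icc_subset_Icc_left hτ.1)
      have e2 : ‖∫ s in τ..b, (p s).comp (Aop F G u q s)‖ ≤ ∫ s in τ..b, 2 * M * ‖p s‖ :=
        intervalIntegral.norm_integral_le_of_norm_le hτ.2
          (ae_of_all _ fun s _ => TSolX_comp_le E hu q s (p s)) (hc'.const_mul _)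
      rw [intervalIntegral.integral_const_mul] at e2
      show ‖p τ‖ ≤ _
      have e3 : ‖p τ‖ ≤ ‖p b‖ + ‖∫ s in τ..b, (p s).comp (Aop F G u q s)‖ := by
        conv_lhs => rw [hp.eq τ hτ]
        exact norm_add_le _ _
      linarith) t ht
  refine key.trans (mul_le_mul_of_nonneg_left (Real.exp_le_exp.2 ?_) (norm_nonneg _))
  exact mul_le_mul_of_nonneg_left (by linarith [ht.1]) (by linarith)

theorem adj_lip (E : Env F G M) {u : ℝ → ℝ} (hu : Adm u) {q : ℝ → V} {a b : ℝ}
    (hq : Sol F G u q a b) {p : ℝ → V →L[ℝ] ℝ} (hp : Adj F G u q p a b) :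
    ∃ K : NNReal, LipschitzOnWith K p (Icc a b) := by
  have hM := E.hM
  have hC0 : 0 ≤ 2 * M * (‖p b‖ * Real.exp (2 * M * (b - a))) := by positivity
  refine ⟨⟨2 * M * (‖p b‖ * Real.exp (2 * M * (b - a))), hC0⟩,
    LipschitzOnWith.of_dist_le_mul fun s hs t ht => ?_⟩
  rw [dist_eq_norm, dist_comm, Real.dist_eq]
  show ‖p s - p t‖ ≤ 2 * M * (‖p b‖ * Real.exp (2 * M * (b - a))) * |t - s|
  have h1 : p s - p t = ∫ τ in s..t, (p τ).comp (Aop F G u q τ) := by
    rw [adj_sub E hu hq hp hs ht]; abel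
  rw [h1]
  refine intervalIntegral.norm_integral_le_of_norm_le_const fun τ hτ => ?_
  have hτ' : τ ∈ Icc a b := uIcc_subset_Icc hs ht (uIoc_subset_uIcc hτ)
  refine (TSolX_comp_le E hu q τ (p τ)).trans ?_
  exact mul_le_mul_of_nonneg_left (adj_bound E hu hq hp τ hτ') (by linarith)

theorem adj_ne (E : Env F G M) {u : ℝ → ℝ} (hu : Adm u) {q : ℝ → V} {a b : ℝ}
    (hq : Sol F G u q a b) {p : ℝ → V →L[ℝ] ℝ} (hp : Adj F G u q p a b) (h : p b ≠ 0) :
    ∀ t ∈ Icc a b, p t ≠ 0 := by
  intro t ht h0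
  have hM := E.hM
  apply h
  have key := gron (f := fun s => ‖p s‖) (a := t) (b := b) (e := 0) (K := 2 * M)
    (hp.cont.norm.mono (Icc_subset_Icc_left ht.1)) (by linarith) (by
      intro τ hτ
      have hτ' : τ ∈ Icc a b := ⟨ht.1.trans hτ.1, hτ.2⟩
      have hc' : IntervalIntegrable (fun s => ‖p s‖) volume t τ := by
        refine ContinuousOn.intervalIntegrable ?_
        rw [uIcc_of_le hτ.1]
        exact hp.cont.norm.mono (Icc_subset_Icc ht.1 hτ.2)
      have e2 : ‖∫ s in t..τ, (p s).comp (Aop F G u q s)‖ ≤ ∫ s in t..τ, 2 * M * ‖p s‖ :=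
        intervalIntegral.norm_integral_le_of_norm_le hτ.1
          (ae_of_all _ fun s _ => TSolX_comp_le E hu q s (p s)) (hc'.const_mul _)
      rw [intervalIntegral.integral_const_mul] at e2
      have e3 := adj_sub E hu hq hp ht hτ'
      rw [h0] at e3
      have e4 : p τ = - ∫ s in t..τ, (p s).comp (Aop F G u q s) := by
        rw [eq_neg_iff_add_eq_zero]; exact e3.symm
      show ‖p τ‖ ≤ _
      rw [e4, norm_neg]
      linarith) b (right_mem_Icc.2 ht.2)
  rw [zero_mul] at key
  exact norm_le_zero_iff.1 key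

/-- solutions of the adjoint equation are differentiable almost everywhere -/
theorem adj_ae (E : Env F G M) {u : ℝ → ℝ} (hu : Adm u) {q : ℝ → V} {a b : ℝ}
    (hq : Sol F G u q a b) {p : ℝ → V →L[ℝ] ℝ} (hp : Adj F G u q p a b) :
    ∀ᵐ t : ℝ, t ∈ Ioo a b → HasDerivAt p (- (p t).comp (Aop F G u q t)) t := by
  rcases le_or_gt a b with hab | hab
  · have ha : a ∈ Icc a b := left_mem_Icc.2 hab
    have hb : b ∈ Icc a b := right_mem_Icc.2 hab
    have hI := adj_int E hu hq hp.cont ha hb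
    filter_upwards [hI.ae_hasDerivAt_integral] with t ht htI
    have h1 := ht (by rw [uIcc_of_le hab]; exact Ioo_subset_Icc_self htI) a left_mem_uIcc
    have h2 : HasDerivAt (fun x => p a - ∫ τ in a..x, (p τ).comp (Aop F G u q τ))
        (- (p t).comp (Aop F G u q t)) t := h1.const_sub (p a)
    refine h2.congr_of_eventuallyEq ?_
    filter_upwards [Ioo_mem_nhds htI.1 htI.2] with x hx
    have h3 := adj_sub E hu hq hp ha (Ioo_subset_Icc_self hx)
    rw [h3]; abel
  · refine ae_of_all _ fun t ht => ?_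
    exact absurd (ht.1.trans ht.2) (not_lt.2 hab.le)

end Pool.Agent.Lib.MP_28b8de_an.TT
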