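import Pool.Agent.Lib.MP_28b8de_an.T.TDn

/-!
MP_28b8de_an, module TTay.

Taylor estimates in the last variable.
PROOFS.  tay0 (vector valued): induction on m.  m = 0: f is bounded near the point.  m+1: Dn f satisfies the hypothesis with m (Dn^[j] (Dn f) = Dn^[j+1] f), so ‖Dn f (v,x)‖ ≤ K |x|^m near (w₀,0), and
f (v,0) = 0 for v near w₀; mean value inequality on the segment between 0 and x: ‖f (v,x)‖ ≤ K |x|^m |x|.
tay: c v := Dn^[m] f (v,0) / m!, analytic at w₀ (composition of Dn_iter_an with v ↦ (v,0)).  g p := f p - c p.1 * p.2^m is analytic at (w₀,0), and Dn^[j] g (v,0) = 0 for j < m (near w₀) and for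
j = m (Dn^[m] (c(v) x^m) = c(v) m!).  First estimate: tay0 for g with m+1.  Second: tay0 for Dn g with m (Dn g p = Dn f p - m c p.1 p.2^(m-1) near the point).
Third: h p := (fderiv ℝ f p).comp (inl): analytic, values in W →L[ℝ] ℝ; Dn^[j] h (v,0) = (fderiv ℝ (Dn^[j] f) (v,0)).comp (inl) (second derivatives commute: induction on j, near the point) = derivative of
v ↦ Dn^[j] f (v,0), which is 0 near w₀, for j < m.  tay0 with m.
cf_an: v ↦ Dn^[m] f (v,0) is analytic at w₀.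
-/

set_option linter.unusedSectionVars false

namespace Pool.Agent.Lib.MP_28b8de_an.TT

open Filter Topology Set MeasureTheory
open Pool.Agent.Lib.MP_28b8de_an.PT (Adm Perf gron gron_back volterra kder ae_zero perf_inner stay)

variable {W : Type*} [NormedAddCommGroup W] [NormedSpace ℝ W]


private theorem TTay_inl (w₀ : W) : Tendsto (fun v : W => (v, (0 : ℝ))) (𝓝 w₀) (𝓝 (w₀, 0)) :=
  (Continuous.prodMk_left (0 : ℝ)).tendsto' w₀ (w₀, 0) rfl

theorem tay0 {E : Type*} [NormedAddCommGroup E] [NormedSpace ℝ E] [CompleteSpace E]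
    {f : W × ℝ → E} {w₀ : W} {m : ℕ}
    (hf : AnalyticAt ℝ f (w₀, 0)) (h : ∀ j < m, ∀ᶠ v in 𝓝 w₀, Dn^[j] f (v, 0) = 0) :
    ∃ K : ℝ, 0 ≤ K ∧ ∀ᶠ p in 𝓝 (w₀, (0 : ℝ)), ‖f p‖ ≤ K * |p.2| ^ m := by
  induction m generalizing f with
  | zero =>
    refine ⟨‖f (w₀, 0)‖ + 1, by positivity, ?_⟩
    have h1 : ∀ᶠ p in 𝓝 (w₀, (0 : ℝ)), ‖f p‖ < ‖f (w₀, 0)‖ + 1 :=
      hf.continuousAt.norm.eventually_lt continuousAt_const (by simp)
    filter_upwards [h1] with p hp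
    rw [pow_zero, mul_one]
    exact hp.le
  | succ m ih =>
    obtain ⟨K, hK0, hK⟩ := ih (Dn_an hf) fun j hj => h (j + 1) (by omega)
    refine ⟨K, hK0, ?_⟩
    have h0 : ∀ᶠ v in 𝓝 w₀, f (v, 0) = 0 := h 0 (Nat.succ_pos m)
    obtain ⟨ε, hε, h1⟩ := Metric.eventually_nhds_iff.mp (hf.eventually_analyticAt.and hK)
    obtain ⟨δ, hδ, h2⟩ := Metric.eventually_nhds_iff.mp h0
    have h3 : ∀ᶠ p in 𝓝 (w₀, (0 : ℝ)), dist p (w₀, (0 : ℝ)) < min ε δ :=
      Metric.eventually_nhds_iff.mpr ⟨min ε δ, lt_min hε hδ, fun _ hy => hy⟩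
    filter_upwards [h3] with p hp
    obtain ⟨v, x⟩ := p
    rw [Prod.dist_eq, max_lt_iff] at hp
    have hv : dist v w₀ < min ε δ := hp.1
    have hx : dist x 0 < min ε δ := hp.2
    rw [Real.dist_0_eq_abs] at hx
    have hseg : ∀ s ∈ uIcc (0 : ℝ) x, |s| ≤ |x| := fun s hs => by
      have := abs_sub_left_of_mem_uIcc hs
      simpa using this
    have h4 : ∀ s ∈ uIcc (0 : ℝ) x, AnalyticAt ℝ f (v, s) ∧ ‖Dn f (v, s)‖ ≤ K * |s| ^ m := by
      intro s hs
      have h5 : dist (v, s) (w₀, (0 : ℝ)) < ε := by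
        rw [Prod.dist_eq, max_lt_iff]
        refine ⟨lt_of_lt_of_le hv (min_le_left _ _), ?_⟩
        show dist s 0 < ε
        rw [Real.dist_0_eq_abs]
        exact lt_of_le_of_lt (hseg s hs) (lt_of_lt_of_le hx (min_le_left _ _))
      exact h1 h5
    have h6 := (convex_uIcc (0 : ℝ) x).norm_image_sub_le_of_norm_hasDerivWithin_le
      (f := fun s => f (v, s)) (f' := fun s => Dn f (v, s)) (C := K * |x| ^ m) (x := 0) (y := x)
      (fun s hs => (Dn_slice (h4 s hs).1.differentiableAt).hasDerivWithinAt)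
      (fun s hs => (h4 s hs).2.trans
        (mul_le_mul_of_nonneg_left (pow_le_pow_left₀ (abs_nonneg s) (hseg s hs) m) hK0))
      left_mem_uIcc right_mem_uIcc
    have h7 : f (v, 0) = 0 := h2 (lt_of_lt_of_le hv (min_le_right _ _))
    simp only [h7, sub_zero, Real.norm_eq_abs] at h6
    show ‖f (v, x)‖ ≤ K * |x| ^ (m + 1)
    rw [pow_succ, ← mul_assoc]
    exact h6

theorem cf_an {f : W × ℝ → ℝ} {w₀ : W} (hf : AnalyticAt ℝ f (w₀, 0)) (m : ℕ) :
    AnalyticAt ℝ (fun v => Dn^[m] f (v, 0)) w₀ := by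
  have h1 : AnalyticAt ℝ (fun v : W => (v, (0 : ℝ))) w₀ := analyticAt_id.prod analyticAt_const
  exact (Dn_iter_an hf m).comp_of_eq h1 rfl

private theorem TTay_step {F : W × ℝ → ℝ} {c : W → ℝ} {w₀ : W} (hF : AnalyticAt ℝ F (w₀, 0))
    (hc : AnalyticAt ℝ c w₀) (a : ℝ) (k : ℕ) :
    ∀ᶠ p in 𝓝 (w₀, (0 : ℝ)), Dn (fun p => F p - c p.1 * a * p.2 ^ k) p =
      Dn F p - c p.1 * (k * a) * p.2 ^ (k - 1) := by
  have h1 : ∀ᶠ p in 𝓝 (w₀, (0 : ℝ)), AnalyticAt ℝ F p := hF.eventually_analyticAt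
  have h2 : ∀ᶠ p in 𝓝 (w₀, (0 : ℝ)), AnalyticAt ℝ c p.1 :=
    (continuous_fst.tendsto' (w₀, (0 : ℝ)) w₀ rfl).eventually hc.eventually_analyticAt
  filter_upwards [h1, h2] with p hp1 hp2
  obtain ⟨v, x⟩ := p
  have h3 : DifferentiableAt ℝ (fun p : W × ℝ => F p - c p.1 * a * p.2 ^ k) (v, x) := by
    have h4 : DifferentiableAt ℝ (fun p : W × ℝ => c p.1) (v, x) :=
      DifferentiableAt.comp (v, x) (g := c) (f := Prod.fst) hp2.differentiableAt differentiableAt_fst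
    exact hp1.differentiableAt.sub ((h4.mul_const a).mul (differentiableAt_snd.pow k))
  have h5 := Dn_slice h3
  have h6 : HasDerivAt (fun x => F (v, x) - c v * a * x ^ k)
      (Dn F (v, x) - c v * a * (k * x ^ (k - 1))) x :=
    (Dn_slice hp1.differentiableAt).sub ((hasDerivAt_pow k x).const_mul (c v * a))
  have h7 := h5.unique h6
  rw [h7]
  show _ = Dn F (v, x) - c v * (k * a) * x ^ (k - 1)
  ring

private theorem TTay_congr_at {E : Type*} [NormedAddCommGroup E] [NormedSpace ℝ E]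
    {F G : W × ℝ → E} {p : W × ℝ} (h : F =ᶠ[𝓝 p] G) : Dn F p = Dn G p := by
  unfold Dn
  rw [h.fderiv_eq]

private theorem TTay_congr {F G : W × ℝ → ℝ} {p₀ : W × ℝ} (h : F =ᶠ[𝓝 p₀] G) :
    Dn F =ᶠ[𝓝 p₀] Dn G := by
  have h1 := eventually_eventually_nhds.mpr h
  filter_upwards [h1] with p hp
  exact TTay_congr_at hp

private theorem TTay_iter {f : W × ℝ → ℝ} {c : W → ℝ} {w₀ : W} {m : ℕ}
    (hf : AnalyticAt ℝ f (w₀, 0)) (hc : AnalyticAt ℝ c w₀) (j : ℕ) :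
    Dn^[j] (fun p => f p - c p.1 * p.2 ^ m) =ᶠ[𝓝 (w₀, (0 : ℝ))]
      fun p => Dn^[j] f p - c p.1 * (m.descFactorial j : ℝ) * p.2 ^ (m - j) := by
  induction j with
  | zero =>
    refine Eventually.of_forall fun p => ?_
    simp
  | succ j ih =>
    rw [Function.iterate_succ_apply']
    refine (TTay_congr ih).trans ?_
    filter_upwards [TTay_step (Dn_iter_an hf j) hc (m.descFactorial j : ℝ) (m - j)] with p hp
    rw [hp, Function.iterate_succ_apply', Nat.descFactorial_succ, Nat.sub_sub]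
    push_cast
    rfl

private theorem TTay_h {f : W × ℝ → ℝ} {w₀ : W} (hf : AnalyticAt ℝ f (w₀, 0)) (j : ℕ) :
    Dn^[j] (fun p => (fderiv ℝ f p).comp (ContinuousLinearMap.inl ℝ W ℝ)) =ᶠ[𝓝 (w₀, (0 : ℝ))]
      fun p => (fderiv ℝ (Dn^[j] f) p).comp (ContinuousLinearMap.inl ℝ W ℝ) := by
  induction j with
  | zero => exact Eventually.of_forall fun p => rfl
  | succ j ih =>
    rw [Function.iterate_succ_apply', Function.iterate_succ_apply']
    set F : W × ℝ → ℝ := Dn^[j] f with hF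
    have hFa : AnalyticAt ℝ F (w₀, 0) := Dn_iter_an hf j
    have h1 := eventually_eventually_nhds.mpr ih
    filter_upwards [h1, hFa.eventually_analyticAt] with p hp hFp
    have h2 : Dn (Dn^[j] fun p => (fderiv ℝ f p).comp (ContinuousLinearMap.inl ℝ W ℝ)) p =
        Dn (fun p => (fderiv ℝ F p).comp (ContinuousLinearMap.inl ℝ W ℝ)) p :=
      TTay_congr_at hp
    rw [h2]
    have h3 : DifferentiableAt ℝ (fderiv ℝ F) p := hFp.fderiv.differentiableAt
    have hsym : IsSymmSndFDerivAt ℝ F p :=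
      (hFp.contDiffAt (n := 2)).isSymmSndFDerivAt (by simp)
    -- the derivative of the left side
    have h4 : HasFDerivAt (fun p => (fderiv ℝ F p).comp (ContinuousLinearMap.inl ℝ W ℝ))
        (((ContinuousLinearMap.compL ℝ W (W × ℝ) ℝ).flip (ContinuousLinearMap.inl ℝ W ℝ)).comp
          (fderiv ℝ (fderiv ℝ F) p)) p :=
      ((ContinuousLinearMap.compL ℝ W (W × ℝ) ℝ).flip
        (ContinuousLinearMap.inl ℝ W ℝ)).hasFDerivAt.comp p h3.hasFDerivAt
    have h5 : HasFDerivAt (Dn F) ((ContinuousLinearMap.apply ℝ ℝ ((0 : W), (1 : ℝ))).comp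
        (fderiv ℝ (fderiv ℝ F) p)) p :=
      (ContinuousLinearMap.apply ℝ ℝ ((0 : W), (1 : ℝ))).hasFDerivAt.comp p h3.hasFDerivAt
    unfold Dn at h5 ⊢
    rw [h4.fderiv, h5.fderiv]
    ext w
    have h6 := hsym (0, 1) (w, 0)
    simpa using h6

theorem tay {f : W × ℝ → ℝ} {w₀ : W} {m : ℕ}
    (hf : AnalyticAt ℝ f (w₀, 0)) (h : ∀ j < m, ∀ᶠ v in 𝓝 w₀, Dn^[j] f (v, 0) = 0) :
    ∃ K : ℝ, 0 ≤ K ∧ ∀ᶠ p in 𝓝 (w₀, (0 : ℝ)),
      |f p - Dn^[m] f (p.1, 0) / m.factorial * p.2 ^ m| ≤ K * |p.2| ^ (m + 1) ∧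
      |Dn f p - m * (Dn^[m] f (p.1, 0) / m.factorial) * p.2 ^ (m - 1)| ≤ K * |p.2| ^ m ∧
      ‖(fderiv ℝ f p).comp (ContinuousLinearMap.inl ℝ W ℝ)‖ ≤ K * |p.2| ^ m := by
  set c : W → ℝ := fun v => Dn^[m] f (v, 0) / m.factorial with hcdef
  have hc : AnalyticAt ℝ c w₀ := (cf_an hf m).div_const
  set g : W × ℝ → ℝ := fun p => f p - c p.1 * p.2 ^ m with hgdef
  have hg : AnalyticAt ℝ g (w₀, 0) := by
    have h1 : AnalyticAt ℝ (fun p : W × ℝ => c p.1) (w₀, 0) :=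
      AnalyticAt.comp_of_eq (g := c) (f := fun p : W × ℝ => p.1) hc analyticAt_fst rfl
    exact hf.sub (h1.mul (analyticAt_snd.pow m))
  have hz : ∀ j < m + 1, ∀ᶠ v in 𝓝 w₀, Dn^[j] g (v, 0) = 0 := by
    intro j hj
    have h1 := (TTay_inl w₀).eventually (TTay_iter (m := m) hf hc j)
    rcases Nat.lt_succ_iff_lt_or_eq.mp hj with hj' | hj'
    · filter_upwards [h1, h j hj'] with v hv1 hv2
      rw [hv1, hv2, zero_pow (by omega), mul_zero, sub_zero]
    · filter_upwards [h1] with v hv1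
      rw [hv1, hj']
      have hne : (m.factorial : ℝ) ≠ 0 := by positivity
      have hcv : c v = Dn^[m] f (v, 0) / m.factorial := rfl
      rw [Nat.sub_self, pow_zero, mul_one, Nat.descFactorial_self, hcv,
        div_mul_cancel₀ _ hne, sub_self]
  obtain ⟨K1, hK1, e1⟩ := tay0 hg hz
  obtain ⟨K2, hK2, e2⟩ := tay0 (f := Dn g) (m := m) (Dn_an hg) fun j hj => hz (j + 1) (by omega)
  have hha : AnalyticAt ℝ (fun p => (fderiv ℝ f p).comp (ContinuousLinearMap.inl ℝ W ℝ))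
      (w₀, (0 : ℝ)) := by
    have h1 : AnalyticAt ℝ ((ContinuousLinearMap.compL ℝ W (W × ℝ) ℝ).flip
        (ContinuousLinearMap.inl ℝ W ℝ)) (fderiv ℝ f (w₀, 0)) :=
      ContinuousLinearMap.analyticAt _ _
    exact h1.comp hf.fderiv
  have hhz : ∀ j < m, ∀ᶠ v in 𝓝 w₀,
      Dn^[j] (fun p => (fderiv ℝ f p).comp (ContinuousLinearMap.inl ℝ W ℝ)) (v, 0) = 0 := by
    intro j hj
    have h1 := (TTay_inl w₀).eventually (TTay_h hf j)
    have h2 := eventually_eventually_nhds.mpr (h j hj)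
    have h3 := (TTay_inl w₀).eventually (Dn_iter_an hf j).eventually_analyticAt
    filter_upwards [h1, h2, h3] with v hv1 hv2 hv3
    rw [hv1]
    have h4 : HasFDerivAt (fun v : W => (v, (0 : ℝ))) (ContinuousLinearMap.inl ℝ W ℝ) v :=
      (ContinuousLinearMap.inl ℝ W ℝ).hasFDerivAt
    have h5 : HasFDerivAt (fun v : W => Dn^[j] f (v, 0))
        ((fderiv ℝ (Dn^[j] f) (v, 0)).comp (ContinuousLinearMap.inl ℝ W ℝ)) v :=
      HasFDerivAt.comp v (g := Dn^[j] f) hv3.differentiableAt.hasFDerivAt h4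
    have h6 : HasFDerivAt (fun v : W => Dn^[j] f (v, 0)) (0 : W →L[ℝ] ℝ) v :=
      (hasFDerivAt_const (0 : ℝ) v).congr_of_eventuallyEq hv2
    exact h5.unique h6
  obtain ⟨K3, hK3, e3⟩ := tay0 hha hhz
  refine ⟨K1 + K2 + K3, by positivity, ?_⟩
  have e4 : ∀ᶠ p in 𝓝 (w₀, (0 : ℝ)), Dn g p = Dn f p - c p.1 * (m * 1) * p.2 ^ (m - 1) := by
    have h1 := TTay_step hf hc 1 m
    have h2 : (fun p : W × ℝ => f p - c p.1 * 1 * p.2 ^ m) = g := by
      funext p
      simp [hgdef]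
    rw [h2] at h1
    exact h1
  filter_upwards [e1, e2, e3, e4] with p p1 p2 p3 p4
  have hx : (0 : ℝ) ≤ |p.2| ^ m := by positivity
  have hx1 : (0 : ℝ) ≤ |p.2| ^ (m + 1) := by positivity
  refine ⟨?_, ?_, ?_⟩
  · calc |f p - c p.1 * p.2 ^ m| ≤ K1 * |p.2| ^ (m + 1) := p1
      _ ≤ (K1 + K2 + K3) * |p.2| ^ (m + 1) := by
        apply mul_le_mul_of_nonneg_right _ hx1
        linarith
  · rw [p4, Real.norm_eq_abs] at p2
    have h1 : Dn f p - m * c p.1 * p.2 ^ (m - 1) =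
        Dn f p - c p.1 * (m * 1) * p.2 ^ (m - 1) := by ring
    calc |Dn f p - m * c p.1 * p.2 ^ (m - 1)| ≤ K2 * |p.2| ^ m := by rw [h1]; exact p2
      _ ≤ (K1 + K2 + K3) * |p.2| ^ m := by
        apply mul_le_mul_of_nonneg_right _ hx
        linarith
  · refine p3.trans ?_
    apply mul_le_mul_of_nonneg_right _ hx
    linarith

end Pool.Agent.Lib.MP_28b8de_an.TT
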