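import Pool.Agent.Lib.MP_28b8de_an.T.TPmp
import Pool.Agent.Lib.MP_28b8de_an.T.TLoc
import Pool.Agent.Lib.MP_28b8de_an.T.TPrin

/-!
MP_28b8de_an, module TTri: triangular systems `z' = L(t,z,y)`, `y' = B(t,z,y,x)`,
`x' = F(t,z,y,x) + u G(t,z,y,x)`, and the definitions used in the proof.
-/

namespace Pool.Agent.Lib.MP_28b8de_an.TT

open Filter Topology Set MeasureTheory
open Pool.Agent.Lib.MP_28b8de_an.PT (Adm Perf)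

/-- states `(z, y, x)` -/
abbrev V3 := ℝ × ℝ × ℝ

/-- the drift -/
def FF (L : ℝ × ℝ × ℝ → ℝ) (B F : ℝ × V3 → ℝ) (p : ℝ × V3) : V3 :=
  (L (p.1, p.2.1, p.2.2.1), B p, F p)

/-- the controlled field -/
def GG (G : ℝ × V3 → ℝ) (p : ℝ × V3) : V3 := (0, 0, G p)

/-- partial derivatives in `z`, `y`, `x` -/
noncomputable def pz (f : ℝ × V3 → ℝ) (p : ℝ × V3) : ℝ := fderiv ℝ f p (0, 1, 0, 0)
/-- partial derivatives in `z`, `y`, `x` -/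
noncomputable def py (f : ℝ × V3 → ℝ) (p : ℝ × V3) : ℝ := fderiv ℝ f p (0, 0, 1, 0)
/-- partial derivatives in `z`, `y`, `x` -/
noncomputable def px (f : ℝ × V3 → ℝ) (p : ℝ × V3) : ℝ := fderiv ℝ f p (0, 0, 0, 1)
/-- partial derivative of `L` in `z` -/
noncomputable def lz (L : ℝ × ℝ × ℝ → ℝ) (p : ℝ × ℝ × ℝ) : ℝ := fderiv ℝ L p (0, 1, 0)
/-- partial derivative of `L` in `y` -/
noncomputable def ly (L : ℝ × ℝ × ℝ → ℝ) (p : ℝ × ℝ × ℝ) : ℝ := fderiv ℝ L p (0, 0, 1)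

/-- a trajectory of a triangular system (cut off outside the ball of radius `R`) on `[0,T]` -/
structure TS (L : ℝ × ℝ × ℝ → ℝ) (B F G : ℝ × V3 → ℝ) (R M T : ℝ) (u : ℝ → ℝ) (q : ℝ → V3) :
    Prop where
  tr : Tr (FF L B F) (GG G) M T u q
  La : AnalyticOnNhd ℝ L (Metric.ball 0 R)
  Ba : AnalyticOnNhd ℝ B (Metric.ball 0 R)
  Fa : AnalyticOnNhd ℝ F (Metric.ball 0 R)
  Ga : AnalyticOnNhd ℝ G (Metric.ball 0 R)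
  box : ∀ t ∈ Icc 0 T, ‖((t, q t) : ℝ × V3)‖ + 1 < R

/-- the situation which is to be excluded -/
structure Sit (L : ℝ × ℝ × ℝ → ℝ) (B F G : ℝ × V3 → ℝ) (R M T : ℝ) (u : ℝ → ℝ) (q : ℝ → V3)
    (p : ℝ → V3 →L[ℝ] ℝ) (C : Set ℝ) : Prop where
  ts : TS L B F G R M T u q
  mul : Mul (FF L B F) (GG G) T u q p
  perf : Perf T C
  sg : ∀ t ∈ C, G (t, q t) * p t (0, 0, 1) = 0
  ng : ¬ Goal (FF L B F) (GG G) q C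

/-- on `C`, near some point of `C`, `z` is an analytic function of `t` -/
def HasZ (T : ℝ) (q : ℝ → V3) (C : Set ℝ) : Prop :=
  ∃ t₀ ∈ C, t₀ ∈ Ioo 0 T ∧ ∃ ζ : ℝ → ℝ, AnalyticAt ℝ ζ t₀ ∧ ∀ᶠ t in 𝓝 t₀, t ∈ C → (q t).1 = ζ t

/-- on `C`, near some point of `C`, `y` is an analytic function of `(t,z)` -/
def HasY (T : ℝ) (q : ℝ → V3) (C : Set ℝ) : Prop :=
  ∃ t₀ ∈ C, t₀ ∈ Ioo 0 T ∧ ∃ η : ℝ × ℝ → ℝ, AnalyticAt ℝ η (t₀, (q t₀).1) ∧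
    ∀ᶠ t in 𝓝 t₀, t ∈ C → (q t).2.1 = η (t, (q t).1)

/-- on `C`, near the point `t₀` of `C`, `x` is the function `ξ` of `(t,z,y)` -/
def AtX (T : ℝ) (q : ℝ → V3) (C : Set ℝ) (ξ : ℝ × ℝ × ℝ → ℝ) (t₀ : ℝ) : Prop :=
  t₀ ∈ C ∧ t₀ ∈ Ioo 0 T ∧ AnalyticAt ℝ ξ (t₀, (q t₀).1, (q t₀).2.1) ∧
    ∀ᶠ t in 𝓝 t₀, t ∈ C → (q t).2.2 = ξ (t, (q t).1, (q t).2.1)

/-- on `C`, near the point `t₀` of `C`, `y` and `x` are the functions `η`, `ξ` of `(t,z)` -/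
def AtY (T : ℝ) (q : ℝ → V3) (C : Set ℝ) (η ξ : ℝ × ℝ → ℝ) (t₀ : ℝ) : Prop :=
  t₀ ∈ C ∧ t₀ ∈ Ioo 0 T ∧ AnalyticAt ℝ η (t₀, (q t₀).1) ∧ AnalyticAt ℝ ξ (t₀, (q t₀).1) ∧
    ∀ᶠ t in 𝓝 t₀, t ∈ C → (q t).2.1 = η (t, (q t).1) ∧ (q t).2.2 = ξ (t, (q t).1)

section general

variable {W : Type*} [NormedAddCommGroup W] [NormedSpace ℝ W]
  {E : Type*} [NormedAddCommGroup E] [NormedSpace ℝ E]

/-- the derivative with respect to the last variable -/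
noncomputable def Dn (f : W × ℝ → E) (p : W × ℝ) : E := fderiv ℝ f p (0, 1)

/-- `w(C)` is Zariski dense near `w t` -/
def Gen (C : Set ℝ) (w : ℝ → W) (t : ℝ) : Prop :=
  ∀ a : W → ℝ, AnalyticAt ℝ a (w t) → (∀ᶠ s in 𝓝 t, s ∈ C → a (w s) = 0) →
    ∀ᶠ v in 𝓝 (w t), a v = 0

/-- local data: free variables `w`, an error variable `Y` and the distance `X` to the surface -/
structure Lc (K : ℝ) (u : ℝ → ℝ) (a b : ℝ) (w w' : ℝ → W) (Y y' X : ℝ → ℝ)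
    (α g : W × ℝ × ℝ → ℝ) : Prop where
  K1 : 1 ≤ K
  adm : Adm u
  wd : ∀ t ∈ Ioo a b, HasDerivAt w (w' t) t
  wc : ContinuousOn w' (Ioo a b)
  wb : ∀ t ∈ Ioo a b, ‖w' t‖ ≤ K
  Yd : ∀ t ∈ Ioo a b, HasDerivAt Y (y' t) t
  Yc : ContinuousOn y' (Ioo a b)
  Xc : ContinuousOn X (Ioo a b)
  Xeq : ∀ s ∈ Ioo a b, ∀ t ∈ Ioo a b,
    X t - X s = ∫ r in s..t, (α (w r, Y r, X r) + u r * g (w r, Y r, X r))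

/-- a point where `X = Y = 0` and `α`, `g` are analytic -/
structure Lp (a b : ℝ) (w : ℝ → W) (Y X : ℝ → ℝ) (α g : W × ℝ × ℝ → ℝ) (t₀ : ℝ) : Prop where
  mem : t₀ ∈ Ioo a b
  X0 : X t₀ = 0
  Y0 : Y t₀ = 0
  αa : AnalyticAt ℝ α (w t₀, 0, 0)
  ga : AnalyticAt ℝ g (w t₀, 0, 0)

/-- data of a switching function `ϕ` with `ϕ' = n` -/
structure Lq (K : ℝ) (u : ℝ → ℝ) (a b : ℝ) (w : ℝ → W) (Y X : ℝ → ℝ) (g : W × ℝ × ℝ → ℝ)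
    (ϕ n : ℝ → ℝ) : Prop where
  ϕc : ContinuousOn ϕ (Ioo a b)
  ni : ∀ s ∈ Ioo a b, ∀ t ∈ Ioo a b, IntervalIntegrable n volume s t
  nb : ∀ t ∈ Ioo a b, |n t| ≤ K
  ϕeq : ∀ s ∈ Ioo a b, ∀ t ∈ Ioo a b, ϕ t - ϕ s = ∫ r in s..t, n r
  usgn : ∀ᵐ t : ℝ, t ∈ Ioo a b → u t * (g (w t, Y t, X t) * ϕ t) = |g (w t, Y t, X t) * ϕ t|

end general

/-- relay data on an interval `[s,s']` between two points of `C` -/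
structure Rl (K c s s' : ℝ) (X ϕ u g v n : ℝ → ℝ) : Prop where
  hs : s < s'
  hs1 : s' - s ≤ 1
  hc : 0 < c
  hK : 1 ≤ K
  adm : Adm u
  usgn : ∀ᵐ t : ℝ, t ∈ Icc s s' → u t * (g t * ϕ t) = |g t * ϕ t|
  Xc : ContinuousOn X (Icc s s')
  ϕc : ContinuousOn ϕ (Icc s s')
  gl : ∀ t ∈ Icc s s', ∀ r ∈ Icc s s', |g t - g r| ≤ K * |t - r|
  vl : ∀ t ∈ Icc s s', ∀ r ∈ Icc s s', |v t - v r| ≤ K * |t - r|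
  g0 : ∀ t ∈ Icc s s', c ≤ |g t|
  g1 : ∀ t ∈ Icc s s', |g t| ≤ K
  v1 : ∀ t ∈ Icc s s', |v t| ≤ 1 - c
  ni : IntervalIntegrable n volume s s'
  nb : ∀ t ∈ Icc s s', |n t| ≤ K
  Xeq : ∀ t ∈ Icc s s', X t = ∫ r in s..t, g r * (u r - v r)
  ϕeq : ∀ t ∈ Icc s s', ϕ t = ∫ r in s..t, n r
  X1 : X s' = 0
  ϕ1 : ϕ s' = 0

/-- the energy of a relay -/
def En (ϕ g v : ℝ → ℝ) (t : ℝ) : ℝ := |g t * ϕ t| - v t * (g t * ϕ t)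

/-- coordinates near a surface `y = η(t,z)`, `x = ξ(t,z)`: `((t,z), Y, X)` -/
def psY (η ξ : ℝ × ℝ → ℝ) (p : (ℝ × ℝ) × ℝ × ℝ) : ℝ × V3 :=
  (p.1.1, p.1.2, η p.1 + p.2.1, ξ p.1 + p.2.2)

/-- `L` in these coordinates -/
def lY (L : ℝ × ℝ × ℝ → ℝ) (η : ℝ × ℝ → ℝ) (p : (ℝ × ℝ) × ℝ) : ℝ := L (p.1.1, p.1.2, η p.1 + p.2)

/-- the drift of `X` -/
noncomputable def αY (L : ℝ × ℝ × ℝ → ℝ) (F : ℝ × V3 → ℝ) (η ξ : ℝ × ℝ → ℝ)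
    (p : (ℝ × ℝ) × ℝ × ℝ) : ℝ :=
  F (psY η ξ p) - fderiv ℝ ξ p.1 (1, lY L η (p.1, p.2.1))

/-- the derivative of `Y` -/
noncomputable def βY (L : ℝ × ℝ × ℝ → ℝ) (B : ℝ × V3 → ℝ) (η ξ : ℝ × ℝ → ℝ)
    (p : (ℝ × ℝ) × ℝ × ℝ) : ℝ :=
  B (psY η ξ p) - fderiv ℝ η p.1 (1, lY L η (p.1, p.2.1))

/-- coordinates near a surface `x = ξ(t,z,y)`: `((t,z,y), 0, X)` -/
def psX (ξ : ℝ × ℝ × ℝ → ℝ) (p : (ℝ × ℝ × ℝ) × ℝ × ℝ) : ℝ × V3 :=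
  (p.1.1, p.1.2.1, p.1.2.2, ξ p.1 + p.2.2)

/-- the drift of `X` -/
noncomputable def αX (L : ℝ × ℝ × ℝ → ℝ) (B F : ℝ × V3 → ℝ) (ξ : ℝ × ℝ × ℝ → ℝ)
    (p : (ℝ × ℝ × ℝ) × ℝ × ℝ) : ℝ :=
  F (psX ξ p) - fderiv ℝ ξ p.1 (1, L p.1, B (psX ξ p))

end Pool.Agent.Lib.MP_28b8de_an.TT
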