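import Pool.Agent.Lib.MP_28b8de_an.T.TDist
import Pool.Agent.Lib.MP_28b8de_an.T.TGen
import Pool.Agent.Lib.MP_28b8de_an.T.TOdes
import Pool.Agent.Lib.MP_28b8de_an.T.TLcS
import Pool.Agent.Lib.MP_28b8de_an.T.TOrd
import Pool.Agent.Lib.MP_28b8de_an.T.TBest

/-!
MP_28b8de_an, module TX1.

The case where y is nowhere on C a function of (t,z): good points.
PROOFS.  kX: kder_ev with m = sF ξ q, A = F(t,q) - fderiv ξ (t,z,y) (1,L,B), B = G(t,q) (the integral identity is Lc.Xeq of lcX; αX at ((t,z,y),0,sF) is A t by psX_q, and sF = 0 on C near t₀).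
closeX: three_points: s < t₁ < s' in C near t₀; x = ξ(t,z,y) near t₁: odeX.
exG: suppose G (t,q t) = 0 for all t ∈ C ∩ (0,T).  Take t₀ ∈ C ∩ (0,T) (perf_inner).  zall with a = G: G = 0 near (t₀,q t₀): odeG; otherwise AtX ξ t₁: G(psX ξ (v,0,0)) = 0 near w t₁ (gen3), αX(v,0,0) = 0 near (kX, gen3);
lcX, lc_zero (Y = 0, y' = 0): sF = 0 near t₁: odeX.
exAt: t₀ from exG.  If p(0,1,0) = 0 on C near t₀: fact_p: ly L(t,z,y) = 0 on C near t₀; zy: either ly L = 0 near: odeL; or HasY: contradiction.  So there is t₁ ∈ C close to t₀ with p t₁ (0,1,0) ≠ 0, G (t₁,q t₁) ≠ 0; fact_phi: px B = 0 on C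
near t₁; zall with a = px B: px B = 0 near: odeB; otherwise AtX at t₂ close to t₁, with G ≠ 0 and p(0,1,0) ≠ 0 at t₂ by continuity.
exPt: unsaturated: at t₂ suppose |αX| = |G| at ((t,z,y),0,0), t ∈ C near t₂: αX² = G² near w t₂ (gen3), αX = -ν G near (G ≠ 0, continuity), lc_sat, closeX: contradiction; so there is t₃ ∈ C close to t₂ with <.
order: f := fX (BX B ξ); if f = 0 near (w t₃,0) then px B = 0 near (t₃,q t₃): odeB; `order` (gen3): t₄ ∈ C close to t₃ and m; m ≠ 0; m ≠ 1: Dn f (w t₄,0) = px B (t₄,q t₄) = 0 (fact_phi and p ≠ 0).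
-/

set_option linter.unusedSectionVars false

namespace Pool.Agent.Lib.MP_28b8de_an.TT

open Filter Topology Set MeasureTheory
open Pool.Agent.Lib.MP_28b8de_an.PT (Adm Perf gron gron_back volterra kder ae_zero perf_inner stay)

variable {L : ℝ × ℝ × ℝ → ℝ} {B F G : ℝ × V3 → ℝ} {R M T : ℝ} {u : ℝ → ℝ} {q : ℝ → V3}
  {p : ℝ → V3 →L[ℝ] ℝ} {C : Set ℝ}


/-- `B` near the surface -/
def BX (B : ℝ × V3 → ℝ) (ξ : ℝ × ℝ × ℝ → ℝ) (z : (ℝ × ℝ × ℝ) × ℝ × ℝ) : ℝ := B (psX ξ z)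

/-- a good point of `C` -/
structure PtX (L : ℝ × ℝ × ℝ → ℝ) (B F G : ℝ × V3 → ℝ) (T : ℝ) (q : ℝ → V3)
    (p : ℝ → V3 →L[ℝ] ℝ) (C : Set ℝ) (ξ : ℝ × ℝ × ℝ → ℝ) (m : ℕ) (t₀ : ℝ) : Prop where
  atx : AtX T q C ξ t₀
  g0 : G (t₀, q t₀) ≠ 0
  p0 : p t₀ (0, 1, 0) ≠ 0
  uns : |αX L B F ξ ((t₀, (q t₀).1, (q t₀).2.1), 0, 0)| < |G (t₀, q t₀)|
  m2 : 2 ≤ m
  ord : ∀ j < m, ∀ᶠ v in 𝓝 ((t₀, (q t₀).1, (q t₀).2.1) : ℝ × ℝ × ℝ), Dn^[j] (fX (BX B ξ)) (v, 0) = 0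
  ne : Dn^[m] (fX (BX B ξ)) ((t₀, (q t₀).1, (q t₀).2.1), 0) ≠ 0

private theorem TX1_qc (h : TS L B F G R M T u q) {t : ℝ} (ht : t ∈ Ioo 0 T) :
    ContinuousAt (fun t => ((t, q t) : ℝ × V3)) t :=
  continuousAt_id.prodMk (ts_cont h ht)

private theorem TX1_wc (h : TS L B F G R M T u q) {t : ℝ} (ht : t ∈ Ioo 0 T) :
    ContinuousAt (fun t => ((t, (q t).1, (q t).2.1) : ℝ × ℝ × ℝ)) t :=
  continuousAt_id.prodMk ((ts_cont h ht).fst.prodMk (ts_cont h ht).snd.fst)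

private theorem TX1_an (h : TS L B F G R M T u q) {t : ℝ} (ht : t ∈ Ioo 0 T) :
    AnalyticAt ℝ B (t, q t) ∧ AnalyticAt ℝ F (t, q t) ∧ AnalyticAt ℝ G (t, q t) ∧
      AnalyticAt ℝ L (t, (q t).1, (q t).2.1) := by
  have hb := ts_ball h (Ioo_subset_Icc_self ht)
  exact ⟨h.Ba _ hb.1, h.Fa _ hb.1, h.Ga _ hb.1, h.La _ hb.2⟩

private theorem TX1_sF {ξ : ℝ × ℝ × ℝ → ℝ} {t : ℝ} (h : (q t).2.2 = ξ (t, (q t).1, (q t).2.1)) :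
    sF ξ q t = 0 := by
  unfold sF
  rw [h, sub_self]

private theorem TX1_ps {ξ : ℝ × ℝ × ℝ → ℝ} {t : ℝ} (h : sF ξ q t = 0) :
    psX ξ ((t, (q t).1, (q t).2.1), 0, 0) = (t, q t) := by
  have := psX_q ξ q t
  rwa [h] at this

private theorem TX1_ball {P : ℝ → Prop} {t₀ : ℝ} (h : ∀ᶠ t in 𝓝 t₀, P t) :
    ∃ ε > 0, ∀ t, |t - t₀| < ε → P t := by
  obtain ⟨ε, hε, H⟩ := Metric.eventually_nhds_iff.1 h
  exact ⟨ε, hε, fun t ht => H (by rwa [Real.dist_eq])⟩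

theorem kX (h : Sit L B F G R M T u q p C) {ξ : ℝ × ℝ × ℝ → ℝ} {t₀ : ℝ}
    (hA : AtX T q C ξ t₀) :
    ∀ᶠ t in 𝓝 t₀, t ∈ C → |αX L B F ξ ((t, (q t).1, (q t).2.1), 0, 0)| ≤ |G (t, q t)| := by
  obtain ⟨hC, hT, hξ, hev⟩ := hA
  obtain ⟨K, a, b, hab, -, hLc, hLp⟩ := lcX h.ts hT hξ (hev.self_of_nhds hC)
  have hmem := hLp.mem
  have hin : ∀ᶠ t in 𝓝 t₀, t ∈ Ioo a b := Ioo_mem_nhds hmem.1 hmem.2
  -- continuity of the curve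
  have hcurve : ∀ t ∈ Ioo a b, ContinuousAt
      (fun t => (((t, (q t).1, (q t).2.1), 0, sF ξ q t) : (ℝ × ℝ × ℝ) × ℝ × ℝ)) t := by
    intro t ht
    exact (TX1_wc h.ts (hab ht)).prodMk (continuousAt_const.prodMk
      (hLc.Xc.continuousAt (Ioo_mem_nhds ht.1 ht.2)))
  obtain ⟨δ, hδ, -, hδa⟩ := lc_near hLc hLp
    (hLp.αa.eventually_analyticAt.and hLp.ga.eventually_analyticAt)
  have hind : ∀ᶠ t in 𝓝 t₀, t ∈ Ioo (t₀ - δ) (t₀ + δ) :=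
    Ioo_mem_nhds (by linarith) (by linarith)
  obtain ⟨ε, hε, hε'⟩ := TX1_ball hin
  have hk := kder_ev h.perf hC (A := fun t => αX L B F ξ ((t, (q t).1, (q t).2.1), 0, sF ξ q t))
    (B := fun t => G (psX ξ ((t, (q t).1, (q t).2.1), 0, sF ξ q t))) (u := u) (m := sF ξ q)
    h.ts.tr.adm
    (by
      filter_upwards [hin, hind] with t ht ht'
      exact ContinuousAt.comp (f := fun t => (((t, (q t).1, (q t).2.1), 0, sF ξ q t) :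
        (ℝ × ℝ × ℝ) × ℝ × ℝ)) (g := αX L B F ξ) (hδa t ht').1.continuousAt (hcurve t ht))
    (by
      filter_upwards [hin, hind] with t ht ht'
      exact ContinuousAt.comp (f := fun t => (((t, (q t).1, (q t).2.1), 0, sF ξ q t) :
        (ℝ × ℝ × ℝ) × ℝ × ℝ)) (g := fun z => G (psX ξ z)) (hδa t ht').2.continuousAt (hcurve t ht))
    (hev.mono fun t ht htC => TX1_sF (ht htC)) hε
    (by
      intro s hs s' hs'
      refine hLc.Xeq s (hε' s ?_) s' (hε' s' ?_)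
      · rw [abs_lt]
        constructor <;> linarith [hs.1, hs.2]
      · rw [abs_lt]
        constructor <;> linarith [hs'.1, hs'.2])
  filter_upwards [hk, hev] with t ht ht' htC
  have h0 := TX1_sF (ht' htC)
  have h1 := ht htC
  rw [psX_q, h0] at h1
  exact h1

theorem closeX (h : Sit L B F G R M T u q p C) {ξ : ℝ × ℝ × ℝ → ℝ} {t₀ : ℝ}
    (hA : AtX T q C ξ t₀) {δ : ℝ} (hδ : 0 < δ)
    (H : ∀ s ∈ C, ∀ s' ∈ C, s < s' → |s - t₀| < δ → |s' - t₀| < δ → ∀ t ∈ Icc s s', sF ξ q t = 0) :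
    False := by
  obtain ⟨hC, hT, hξ, -⟩ := hA
  have h1 : ∀ᶠ t in 𝓝 t₀, AnalyticAt ℝ ξ (t, (q t).1, (q t).2.1) :=
    (TX1_wc h.ts hT).eventually hξ.eventually_analyticAt
  have h2 : ∀ᶠ t in 𝓝 t₀, t ∈ Ioo 0 T := Ioo_mem_nhds hT.1 hT.2
  obtain ⟨ε, hε, hε'⟩ := TX1_ball (h1.and h2)
  obtain ⟨s, hs, t₁, ht₁, s', hs', hst, hts, hsd, htd, hs'd⟩ := three_points h.perf hC
    (lt_min hδ hε)
  obtain ⟨hξ₁, hT₁⟩ := hε' t₁ (htd.trans_le (min_le_right _ _))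
  refine odeX h ht₁ hT₁ hξ₁ ?_
  have h3 : ∀ᶠ t in 𝓝 t₁, t ∈ Icc s s' := Icc_mem_nhds hst hts
  filter_upwards [h3] with t ht
  have h4 := H s hs s' hs' (hst.trans hts) (hsd.trans_le (min_le_left _ _))
    (hs'd.trans_le (min_le_left _ _)) t ht
  unfold sF at h4
  linarith

private theorem TX1_emb (v : ℝ × ℝ × ℝ) :
    AnalyticAt ℝ (fun v : ℝ × ℝ × ℝ => ((v, 0, 0) : (ℝ × ℝ × ℝ) × ℝ × ℝ)) v :=
  analyticAt_id.prod (analyticAt_const.prod analyticAt_const)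

private theorem TX1_sl {f : (ℝ × ℝ × ℝ) × ℝ × ℝ → ℝ} {v : ℝ × ℝ × ℝ} (hf : AnalyticAt ℝ f (v, 0, 0)) :
    AnalyticAt ℝ (fun v => f (v, 0, 0)) v :=
  AnalyticAt.comp (g := f) (f := fun v : ℝ × ℝ × ℝ => ((v, 0, 0) : (ℝ × ℝ × ℝ) × ℝ × ℝ)) hf
    (TX1_emb v)

theorem exG (h : Sit L B F G R M T u q p C) (hY : ¬ HasY T q C) :
    ∃ t₀ ∈ C, t₀ ∈ Ioo 0 T ∧ G (t₀, q t₀) ≠ 0 := by
  by_contra hcon
  push Not at hcon
  have hT0 := h.ts.tr.hT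
  obtain ⟨t, ht⟩ := h.perf.ne
  obtain ⟨t₀, ht₀, -, hT⟩ := perf_inner hT0 h.perf (α := -1) (β := T + 1)
    ⟨t, ht, by linarith [(h.perf.sub ht).1], by linarith [(h.perf.sub ht).2]⟩
  have hin : ∀ᶠ t in 𝓝 t₀, t ∈ Ioo 0 T := Ioo_mem_nhds hT.1 hT.2
  rcases zall h hY ht₀ hT (a := G) (TX1_an h.ts hT).2.2.1
    (hin.mono fun t ht htC => hcon t htC ht) one_pos with hG | ⟨ξ, t₁, -, hA⟩
  · exact odeG h ht₀ hT hG
  · obtain ⟨hC₁, hT₁, hξ, hev⟩ := hA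
    obtain ⟨K, a, b, hab, -, hLc, hLp⟩ := lcX h.ts hT₁ hξ (hev.self_of_nhds hC₁)
    have hin₁ : ∀ᶠ t in 𝓝 t₁, t ∈ Ioo 0 T := Ioo_mem_nhds hT₁.1 hT₁.2
    have hgen := gen3 h hY hC₁ hT₁
    have hg0 := hgen (fun v => G (psX ξ (v, 0, 0))) (TX1_sl hLp.ga) (by
      filter_upwards [hev, hin₁] with t ht ht' htC
      rw [TX1_ps (TX1_sF (ht htC))]
      exact hcon t htC ht')
    have hα0 := hgen (fun v => αX L B F ξ (v, 0, 0)) (TX1_sl hLp.αa) (by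
      filter_upwards [kX h ⟨hC₁, hT₁, hξ, hev⟩, hin₁] with t ht ht' htC
      have h1 := ht htC
      rw [hcon t htC ht', abs_zero] at h1
      exact abs_nonpos_iff.1 h1)
    have hz := lc_zero hLc hLp hα0 hg0 (K' := 0) (Eventually.of_forall fun t => by simp)
    refine odeX h hC₁ hT₁ hξ ?_
    filter_upwards [hz] with t ht
    have h1 := ht.1
    unfold sF at h1
    linarith

private theorem TX1_app {E : Type*} [NormedAddCommGroup E] [NormedSpace ℝ E] {f : E → ℝ} {z : E}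
    (hf : AnalyticAt ℝ f z) (v : E) : AnalyticAt ℝ (fun z => fderiv ℝ f z v) z :=
  AnalyticAt.comp (g := fun l : E →L[ℝ] ℝ => l v) (f := fderiv ℝ f)
    ((ContinuousLinearMap.apply ℝ ℝ v).analyticAt _) hf.fderiv

private theorem TX1_pc (h : Sit L B F G R M T u q p C) {t : ℝ} (ht : t ∈ Ioo 0 T) :
    ContinuousAt (fun t => p t (0, 1, 0)) t := by
  have h1 : ContinuousAt p t := h.mul.adj.cont.continuousAt (Icc_mem_nhds ht.1 ht.2)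
  exact h1.clm_apply continuousAt_const

private theorem TX1_Gc (h : Sit L B F G R M T u q p C) {t : ℝ} (ht : t ∈ Ioo 0 T) :
    ContinuousAt (fun t => G (t, q t)) t :=
  ContinuousAt.comp (f := fun t => ((t, q t) : ℝ × V3)) (g := G)
    (TX1_an h.ts ht).2.2.1.continuousAt (TX1_qc h.ts ht)

private theorem TX1_ne (h : Sit L B F G R M T u q p C) {t₀ : ℝ} (hT : t₀ ∈ Ioo 0 T)
    (hG : G (t₀, q t₀) ≠ 0) (hp : p t₀ (0, 1, 0) ≠ 0) :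
    ∀ᶠ t in 𝓝 t₀, G (t, q t) ≠ 0 ∧ p t (0, 1, 0) ≠ 0 ∧ t ∈ Ioo 0 T :=
  ((TX1_Gc h hT).eventually_ne hG).and
    (((TX1_pc h hT).eventually_ne hp).and (Ioo_mem_nhds hT.1 hT.2))

theorem exAt (h : Sit L B F G R M T u q p C) (hY : ¬ HasY T q C) :
    ∃ ξ t₀, AtX T q C ξ t₀ ∧ G (t₀, q t₀) ≠ 0 ∧ p t₀ (0, 1, 0) ≠ 0 := by
  obtain ⟨t₀, hC, hT, hG⟩ := exG h hY
  obtain ⟨t₁, hC₁, hT₁, hG₁, hp₁⟩ : ∃ t₁ ∈ C, t₁ ∈ Ioo 0 T ∧ G (t₁, q t₁) ≠ 0 ∧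
      p t₁ (0, 1, 0) ≠ 0 := by
    by_cases hp : ∀ᶠ t in 𝓝 t₀, t ∈ C → p t (0, 1, 0) = 0
    · exfalso
      have hf := fact_p h hC hT hG hp
      have hL := (TX1_an h.ts hT).2.2.2
      have hly : AnalyticAt ℝ (ly L) (t₀, (q t₀).1, (q t₀).2.1) := by
        exact TX1_app hL _
      rcases zy h hC hT hly (hf.mono fun t ht htC => (ht htC).2) with h1 | h1
      · exact odeL h hC hT h1
      · exact hY h1
    · have h1 := Filter.not_eventually.1 hp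
      have h2 : ∀ᶠ t in 𝓝 t₀, G (t, q t) ≠ 0 ∧ t ∈ Ioo 0 T :=
        ((TX1_Gc h hT).eventually_ne hG).and (Ioo_mem_nhds hT.1 hT.2)
      obtain ⟨t₁, ht₁, ht₁'⟩ := (h1.and_eventually h2).exists
      push Not at ht₁
      exact ⟨t₁, ht₁.1, ht₁'.2, ht₁'.1, ht₁.2⟩
  have hphi := fact_phi h hC₁ hT₁ hG₁
  have hne := TX1_ne h hT₁ hG₁ hp₁
  obtain ⟨ε, hε, hε'⟩ := TX1_ball hne
  have hB := (TX1_an h.ts hT₁).1
  have hpx : AnalyticAt ℝ (px B) (t₁, q t₁) := by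
    exact TX1_app hB _
  rcases zall h hY hC₁ hT₁ hpx (by
      filter_upwards [hphi, hne] with t ht ht' htC
      exact (mul_eq_zero.1 (ht htC).2).resolve_left ht'.2.1) hε with h1 | ⟨ξ, t₂, hd, hA⟩
  · exact (odeB h hC₁ hT₁ h1).elim
  · exact ⟨ξ, t₂, hA, (hε' t₂ hd).1, (hε' t₂ hd).2.1⟩

private theorem TX1_atX (h : Sit L B F G R M T u q p C) {ξ : ℝ × ℝ × ℝ → ℝ} {t₀ : ℝ}
    (hA : AtX T q C ξ t₀) : ∀ᶠ t in 𝓝 t₀, t ∈ C → AtX T q C ξ t := by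
  obtain ⟨-, hT, hξ, hev⟩ := hA
  have h1 : ∀ᶠ t in 𝓝 t₀, AnalyticAt ℝ ξ (t, (q t).1, (q t).2.1) :=
    (TX1_wc h.ts hT).eventually hξ.eventually_analyticAt
  have h2 : ∀ᶠ t in 𝓝 t₀, t ∈ Ioo 0 T := Ioo_mem_nhds hT.1 hT.2
  filter_upwards [h1, h2, eventually_eventually_nhds.2 hev] with t a b c htC
  exact ⟨htC, b, a, c⟩

private theorem TX1_psan {ξ : ℝ × ℝ × ℝ → ℝ} {v : ℝ × ℝ × ℝ} (hξ : AnalyticAt ℝ ξ v) :
    AnalyticAt ℝ (psX ξ) (v, 0, 0) := by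
  have hf : AnalyticAt ℝ (fun z : (ℝ × ℝ × ℝ) × ℝ × ℝ => z.1) (v, 0, 0) := analyticAt_fst
  have h1 : AnalyticAt ℝ (fun z : (ℝ × ℝ × ℝ) × ℝ × ℝ => ξ z.1) (v, 0, 0) :=
    AnalyticAt.comp (g := ξ) (f := fun z : (ℝ × ℝ × ℝ) × ℝ × ℝ => z.1) hξ hf
  have h2 : AnalyticAt ℝ (fun z : (ℝ × ℝ × ℝ) × ℝ × ℝ => z.2.2) (v, 0, 0) :=
    ((ContinuousLinearMap.snd ℝ ℝ ℝ).comp
      (ContinuousLinearMap.snd ℝ (ℝ × ℝ × ℝ) (ℝ × ℝ))).analyticAt _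
  have h3 : AnalyticAt ℝ (fun z : (ℝ × ℝ × ℝ) × ℝ × ℝ => z.1.1) (v, 0, 0) :=
    ((ContinuousLinearMap.fst ℝ ℝ (ℝ × ℝ)).comp
      (ContinuousLinearMap.fst ℝ (ℝ × ℝ × ℝ) (ℝ × ℝ))).analyticAt _
  have h4 : AnalyticAt ℝ (fun z : (ℝ × ℝ × ℝ) × ℝ × ℝ => z.1.2.1) (v, 0, 0) :=
    (((ContinuousLinearMap.fst ℝ ℝ ℝ).comp (ContinuousLinearMap.snd ℝ ℝ (ℝ × ℝ))).comp
      (ContinuousLinearMap.fst ℝ (ℝ × ℝ × ℝ) (ℝ × ℝ))).analyticAt _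
  have h5 : AnalyticAt ℝ (fun z : (ℝ × ℝ × ℝ) × ℝ × ℝ => z.1.2.2) (v, 0, 0) :=
    (((ContinuousLinearMap.snd ℝ ℝ ℝ).comp (ContinuousLinearMap.snd ℝ ℝ (ℝ × ℝ))).comp
      (ContinuousLinearMap.fst ℝ (ℝ × ℝ × ℝ) (ℝ × ℝ))).analyticAt _
  exact h3.prod (h4.prod (h5.prod (h1.add h2)))

/-- `αX` at the points of `C` -/
private theorem TX1_dat (h : Sit L B F G R M T u q p C) {ξ : ℝ × ℝ × ℝ → ℝ} {t₀ : ℝ}
    (hA : AtX T q C ξ t₀) :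
    AnalyticAt ℝ (fun v => αX L B F ξ (v, 0, 0)) (t₀, (q t₀).1, (q t₀).2.1) ∧
      AnalyticAt ℝ (fun v => G (psX ξ (v, 0, 0))) (t₀, (q t₀).1, (q t₀).2.1) ∧
      AnalyticAt ℝ (BX B ξ) ((t₀, (q t₀).1, (q t₀).2.1), 0, 0) := by
  obtain ⟨hC, hT, hξ, hev⟩ := hA
  obtain ⟨K, a, b, hab, -, hLc, hLp⟩ := lcX h.ts hT hξ (hev.self_of_nhds hC)
  refine ⟨TX1_sl hLp.αa, TX1_sl hLp.ga, ?_⟩
  have h1 := TX1_psan hξ
  have h2 := TX1_ps (TX1_sF (hev.self_of_nhds hC))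
  have hB := (TX1_an h.ts hT).1
  rw [← h2] at hB
  exact AnalyticAt.comp (g := B) (f := psX ξ) hB h1

private theorem TX1_uns (h : Sit L B F G R M T u q p C) (hY : ¬ HasY T q C)
    {ξ : ℝ × ℝ × ℝ → ℝ} {t₀ : ℝ} (hA : AtX T q C ξ t₀) (hG : G (t₀, q t₀) ≠ 0) :
    ¬ ∀ᶠ t in 𝓝 t₀, t ∈ C → |αX L B F ξ ((t, (q t).1, (q t).2.1), 0, 0)| = |G (t, q t)| := by
  intro hs
  obtain ⟨ha, hg, -⟩ := TX1_dat h hA
  have hA' := hA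
  obtain ⟨hC, hT, hξ, hev⟩ := hA'
  obtain ⟨K, a, b, hab, -, hLc, hLp⟩ := lcX h.ts hT hξ (hev.self_of_nhds hC)
  have hgen := gen3 h hY hC hT
  have hsq := hgen (fun v => αX L B F ξ (v, 0, 0) ^ 2 - G (psX ξ (v, 0, 0)) ^ 2)
    ((ha.pow 2).sub (hg.pow 2)) (by
      filter_upwards [hs, hev] with t ht ht' htC
      rw [TX1_ps (TX1_sF (ht' htC)), ← sq_abs, ht htC, sq_abs, sub_self])
  have hps := TX1_ps (TX1_sF (hev.self_of_nhds hC))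
  have hg0 : G (psX ξ ((t₀, (q t₀).1, (q t₀).2.1), 0, 0)) ≠ 0 := by
    rw [hps]
    exact hG
  obtain ⟨ν, hν, hν0⟩ : ∃ ν : ℝ, (ν = 1 ∨ ν = -1) ∧
      αX L B F ξ ((t₀, (q t₀).1, (q t₀).2.1), 0, 0) =
        -(ν * G (psX ξ ((t₀, (q t₀).1, (q t₀).2.1), 0, 0))) := by
    have h1 := hsq.self_of_nhds
    simp only at h1
    have h2 : (αX L B F ξ ((t₀, (q t₀).1, (q t₀).2.1), 0, 0) -
        G (psX ξ ((t₀, (q t₀).1, (q t₀).2.1), 0, 0))) *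
        (αX L B F ξ ((t₀, (q t₀).1, (q t₀).2.1), 0, 0) +
        G (psX ξ ((t₀, (q t₀).1, (q t₀).2.1), 0, 0))) = 0 := by
      linear_combination h1
    rcases mul_eq_zero.1 h2 with h3 | h3
    · exact ⟨-1, Or.inr rfl, by linarith⟩
    · exact ⟨1, Or.inl rfl, by linarith⟩
  have hν2 : ν ^ 2 = 1 := by
    rcases hν with rfl | rfl <;> norm_num
  have hνne : ν ≠ 0 := by
    rcases hν with rfl | rfl <;> norm_num
  -- the other factor does not vanish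
  have hother : ∀ᶠ v in 𝓝 ((t₀, (q t₀).1, (q t₀).2.1) : ℝ × ℝ × ℝ),
      αX L B F ξ (v, 0, 0) - ν * G (psX ξ (v, 0, 0)) ≠ 0 := by
    have hc : ContinuousAt (fun v => αX L B F ξ (v, 0, 0) - ν * G (psX ξ (v, 0, 0)))
        (t₀, (q t₀).1, (q t₀).2.1) := ha.continuousAt.sub (continuousAt_const.mul hg.continuousAt)
    apply hc.eventually_ne
    rw [hν0]
    intro h0
    have h1 : ν * G (psX ξ ((t₀, (q t₀).1, (q t₀).2.1), 0, 0)) = 0 := by linarith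
    exact (mul_ne_zero hνne hg0) h1
  have hsat : ∀ᶠ v in 𝓝 ((t₀, (q t₀).1, (q t₀).2.1) : ℝ × ℝ × ℝ),
      αX L B F ξ (v, 0, 0) = -(ν * G (psX ξ (v, 0, 0))) := by
    filter_upwards [hsq, hother] with v h1 h2
    have h3 : (αX L B F ξ (v, 0, 0) - ν * G (psX ξ (v, 0, 0))) *
        (αX L B F ξ (v, 0, 0) + ν * G (psX ξ (v, 0, 0))) = 0 := by
      have h4 : (αX L B F ξ (v, 0, 0) - ν * G (psX ξ (v, 0, 0))) *
        (αX L B F ξ (v, 0, 0) + ν * G (psX ξ (v, 0, 0))) =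
          αX L B F ξ (v, 0, 0) ^ 2 - ν ^ 2 * G (psX ξ (v, 0, 0)) ^ 2 := by ring
      rw [h4, hν2, one_mul]
      exact h1
    have h5 := (mul_eq_zero.1 h3).resolve_left h2
    linarith
  obtain ⟨δ, hδ, hδ'⟩ := lc_sat hLc hLp hg0 hν hsat (K' := 0)
    (Eventually.of_forall fun t => by simp)
  obtain ⟨ε, hε, hε'⟩ := TX1_ball hev
  refine closeX h hA (lt_min hδ hε) ?_
  intro s hsC s' hsC' hss hsd hsd' t ht
  exact (hδ' s s' hss (hsd.trans_le (min_le_left _ _)) (hsd'.trans_le (min_le_left _ _))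
    (TX1_sF (hε' s (hsd.trans_le (min_le_right _ _)) hsC)) rfl
    (TX1_sF (hε' s' (hsd'.trans_le (min_le_right _ _)) hsC')) t ht).1

/-- if `B` does not depend on `X` then `px B = 0` -/
private theorem TX1_px {ξ : ℝ × ℝ × ℝ → ℝ} {z₀ : ℝ × V3} (hB : AnalyticAt ℝ B z₀)
    (hξ : AnalyticAt ℝ ξ (z₀.1, z₀.2.1, z₀.2.2.1)) (h0 : z₀.2.2.2 = ξ (z₀.1, z₀.2.1, z₀.2.2.1))
    (hf : ∀ᶠ r in 𝓝 (((z₀.1, z₀.2.1, z₀.2.2.1), 0) : (ℝ × ℝ × ℝ) × ℝ), fX (BX B ξ) r = 0) :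
    ∀ᶠ z in 𝓝 z₀, px B z = 0 := by
  have hcv : Continuous (fun z : ℝ × V3 => ((z.1, z.2.1, z.2.2.1) : ℝ × ℝ × ℝ)) := by fun_prop
  have hξc : ContinuousAt (fun z : ℝ × V3 => ξ (z.1, z.2.1, z.2.2.1)) z₀ :=
    ContinuousAt.comp (f := fun z : ℝ × V3 => ((z.1, z.2.1, z.2.2.1) : ℝ × ℝ × ℝ)) (g := ξ)
      hξ.continuousAt hcv.continuousAt
  have hxc : ContinuousAt (fun z : ℝ × V3 => z.2.2.2) z₀ := by fun_prop
  have hc : ContinuousAt (fun z : ℝ × V3 =>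
      (((z.1, z.2.1, z.2.2.1), z.2.2.2 - ξ (z.1, z.2.1, z.2.2.1)) : (ℝ × ℝ × ℝ) × ℝ)) z₀ :=
    hcv.continuousAt.prodMk (hxc.sub hξc)
  have hval : (fun z : ℝ × V3 =>
      (((z.1, z.2.1, z.2.2.1), z.2.2.2 - ξ (z.1, z.2.1, z.2.2.1)) : (ℝ × ℝ × ℝ) × ℝ)) z₀ =
      ((z₀.1, z₀.2.1, z₀.2.2.1), 0) := by
    simp only
    rw [h0, sub_self]
  have hf' : ∀ᶠ r in 𝓝 ((fun z : ℝ × V3 =>
      (((z.1, z.2.1, z.2.2.1), z.2.2.2 - ξ (z.1, z.2.1, z.2.2.1)) : (ℝ × ℝ × ℝ) × ℝ)) z₀),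
      fX (BX B ξ) r = 0 := by
    rw [hval]
    exact hf
  have h1 : ∀ᶠ z in 𝓝 z₀, B z = B (psX ξ ((z.1, z.2.1, z.2.2.1), 0, 0)) := by
    filter_upwards [hc.eventually hf'] with z hz
    unfold fX BX at hz
    have h2 : psX ξ ((z.1, z.2.1, z.2.2.1), 0, z.2.2.2 - ξ (z.1, z.2.1, z.2.2.1)) = z := by
      unfold psX
      simp
    simp only at hz
    rw [h2] at hz
    linarith
  filter_upwards [eventually_eventually_nhds.2 h1, hB.eventually_analyticAt] with z hz hBz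
  -- the derivative along `x`
  have hd : HasDerivAt (fun s : ℝ => B (z + s • ((0, 0, 0, 1) : ℝ × V3)))
      (fderiv ℝ B z (0, 0, 0, 1)) 0 := by
    have h3 : HasFDerivAt B (fderiv ℝ B z) (z + (0 : ℝ) • ((0, 0, 0, 1) : ℝ × V3)) := by
      rw [zero_smul, add_zero]
      exact hBz.differentiableAt.hasFDerivAt
    have h4 : HasDerivAt (fun s : ℝ => z + s • ((0, 0, 0, 1) : ℝ × V3)) ((0, 0, 0, 1) : ℝ × V3) 0 := by
      have h5 := ((hasDerivAt_id (0 : ℝ)).smul_const ((0, 0, 0, 1) : ℝ × V3)).const_add z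
      simpa using h5
    exact h3.comp_hasDerivAt (0 : ℝ) h4
  have hline : Tendsto (fun s : ℝ => z + s • ((0, 0, 0, 1) : ℝ × V3)) (𝓝 0) (𝓝 z) := by
    have h3 : Continuous (fun s : ℝ => z + s • ((0, 0, 0, 1) : ℝ × V3)) := by fun_prop
    have h4 := h3.tendsto 0
    rwa [zero_smul, add_zero] at h4
  have hconst : (fun s : ℝ => B (z + s • ((0, 0, 0, 1) : ℝ × V3))) =ᶠ[𝓝 0]
      fun _ => B (psX ξ ((z.1, z.2.1, z.2.2.1), 0, 0)) := by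
    filter_upwards [hline.eventually hz] with s hs
    rw [hs]
    simp
  have h6 := hd.congr_of_eventuallyEq hconst.symm
  exact h6.unique (hasDerivAt_const (0 : ℝ) _)

/-- the first derivative -/
private theorem TX1_D1 {ξ : ℝ × ℝ × ℝ → ℝ} {v : ℝ × ℝ × ℝ} (hB : AnalyticAt ℝ B (psX ξ (v, 0, 0)))
    (hf : AnalyticAt ℝ (fX (BX B ξ)) (v, 0)) :
    Dn (fX (BX B ξ)) (v, 0) = px B (psX ξ (v, 0, 0)) := by
  have h1 := Dn_slice hf.differentiableAt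
  have h2 : HasDerivAt (fun x : ℝ => fX (BX B ξ) (v, x)) (fderiv ℝ B (psX ξ (v, 0, 0)) (0, 0, 0, 1)) 0 := by
    have h3 : HasDerivAt (fun x : ℝ => psX ξ (v, 0, x)) ((0, 0, 0, 1) : ℝ × V3) 0 := by
      have h4 : HasDerivAt (fun x : ℝ => ξ v + x) 1 0 := (hasDerivAt_id (0 : ℝ)).const_add _
      have h6 : HasDerivAt (fun x : ℝ => ((v.2.2, ξ v + x) : ℝ × ℝ)) (0, 1) 0 :=
        (hasDerivAt_const (0 : ℝ) v.2.2).prodMk h4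
      have h7 : HasDerivAt (fun x : ℝ => ((v.2.1, v.2.2, ξ v + x) : ℝ × ℝ × ℝ)) (0, 0, 1) 0 :=
        (hasDerivAt_const (0 : ℝ) v.2.1).prodMk h6
      exact (hasDerivAt_const (0 : ℝ) v.1).prodMk h7
    have h5 := hB.differentiableAt.hasFDerivAt.comp_hasDerivAt (0 : ℝ) h3
    have h8 := h5.sub_const (B (psX ξ (v, 0, 0)))
    exact h8
  exact h1.unique h2

theorem exPt (h : Sit L B F G R M T u q p C) (hY : ¬ HasY T q C) :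
    ∃ ξ m t₀, PtX L B F G T q p C ξ m t₀ := by
  obtain ⟨ξ, t₂, hA₂, hG₂, hp₂⟩ := exAt h hY
  have hT₂ := hA₂.2.1
  -- an unsaturated point
  obtain ⟨t₃, hA₃, hG₃, hp₃, hu₃⟩ : ∃ t₃, AtX T q C ξ t₃ ∧ G (t₃, q t₃) ≠ 0 ∧
      p t₃ (0, 1, 0) ≠ 0 ∧
      |αX L B F ξ ((t₃, (q t₃).1, (q t₃).2.1), 0, 0)| < |G (t₃, q t₃)| := by
    have h1 := Filter.not_eventually.1 (TX1_uns h hY hA₂ hG₂)
    obtain ⟨t₃, ht₃, hne, hat, hk⟩ := (h1.and_eventually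
      ((TX1_ne h hT₂ hG₂ hp₂).and ((TX1_atX h hA₂).and (kX h hA₂)))).exists
    push Not at ht₃
    exact ⟨t₃, hat ht₃.1, hne.1, hne.2.1, lt_of_le_of_ne (hk ht₃.1) ht₃.2⟩
  have hC₃ := hA₃.1
  have hT₃ := hA₃.2.1
  have hin : ∀ᶠ t in 𝓝 t₃, t ∈ Ioo 0 T := Ioo_mem_nhds hT₃.1 hT₃.2
  obtain ⟨ha₃, -, hB₃⟩ := TX1_dat h hA₃
  -- the conditions persist
  have hunsc : ∀ᶠ t in 𝓝 t₃, |αX L B F ξ ((t, (q t).1, (q t).2.1), 0, 0)| < |G (t, q t)| := by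
    have h1 : ContinuousAt (fun t => αX L B F ξ ((t, (q t).1, (q t).2.1), 0, 0)) t₃ :=
      ContinuousAt.comp (f := fun t => ((t, (q t).1, (q t).2.1) : ℝ × ℝ × ℝ))
        (g := fun v => αX L B F ξ (v, 0, 0)) ha₃.continuousAt (TX1_wc h.ts hT₃)
    exact h1.abs.eventually_lt (TX1_Gc h hT₃).abs hu₃
  obtain ⟨ε, hε, hε'⟩ := TX1_ball ((TX1_ne h hT₃ hG₃ hp₃).and ((TX1_atX h hA₃).and hunsc))
  have hfan : AnalyticAt ℝ (fX (BX B ξ)) ((t₃, (q t₃).1, (q t₃).2.1), 0) := fX_an hB₃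
  have hfne : ¬ ∀ᶠ r in 𝓝 (((t₃, (q t₃).1, (q t₃).2.1), 0) : (ℝ × ℝ × ℝ) × ℝ),
      fX (BX B ξ) r = 0 := by
    intro hf
    exact odeB h hC₃ hT₃ (TX1_px (z₀ := (t₃, q t₃)) (TX1_an h.ts hT₃).1 hA₃.2.2.1
      (hA₃.2.2.2.self_of_nhds hC₃) hf)
  obtain ⟨t₄, hC₄, hd, hfan₄, m, hm, hm'⟩ := order
    (w := fun t => ((t, (q t).1, (q t).2.1) : ℝ × ℝ × ℝ)) hC₃
    (hin.mono fun t ht => TX1_wc h.ts ht)
    (hin.mono fun t ht htC => gen3 h hY htC ht) hfan hfne hε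
  obtain ⟨⟨hG₄, hp₄, hT₄⟩, hat₄, hu₄⟩ := hε' t₄ hd
  have hA₄ := hat₄ hC₄
  have hps := TX1_ps (TX1_sF (hA₄.2.2.2.self_of_nhds hC₄))
  refine ⟨ξ, m, t₄, hA₄, hG₄, hp₄, hu₄, ?_, hm, hm'⟩
  by_contra hcon
  have hm01 : m = 0 ∨ m = 1 := by omega
  rcases hm01 with rfl | rfl
  · apply hm'
    simp [fX]
  · apply hm'
    rw [Function.iterate_one]
    have hB₄ := (TX1_an h.ts hT₄).1
    rw [← hps] at hB₄
    rw [TX1_D1 hB₄ hfan₄, hps]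
    have h1 := (fact_phi h hC₄ hT₄ hG₄).self_of_nhds hC₄
    exact (mul_eq_zero.1 h1.2).resolve_left hp₄

end Pool.Agent.Lib.MP_28b8de_an.TT
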