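import Pool.Agent.Lib.MP_28b8de_an.T.TYpt
import Pool.Agent.Lib.MP_28b8de_an.T.TLc1
import Pool.Agent.Lib.MP_28b8de_an.T.TLc3

/-!
MP_28b8de_an, module TY1.

Case y = η(t,z), x = ξ(t,z): the order m of B is odd, and p (0,1,0) = 0 at good points.
PROOFS.  ptY_even: m even.  lcY gives local data at t₀ (Lc on Ioo a b); restrict to a smaller interval (Lc.restrict) if needed.  hy of lc_three from ptY_y and |LY(w,Y) - LY(w,0)| ≤ K|Y| (an_lip).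
lc_three: X = Y = 0 on [s,s'] for s < s' in C near t₀ (X, Y vanish on C near t₀ by AtY).  three_points: s < t₁ < s' in C near t₀, y = η(t,z) near t₁: odeY at t₁.
ptY_p: suppose p t₀ (0,1,0) ≠ 0.  fact_phi: near t₀ on C: ϕ = 0, p(0,1,0) px B = 0; at t₀: px B (t₀,q t₀) = 0.  Then m ≠ 1: Dn (fX (BY B η ξ)) (w t₀,0) = fderiv (BY B η ξ) (w t₀,0,0) (0,0,1) = px B (t₀,q t₀) = 0 (ptY_d at t₀).
So m ≥ 2.  lq_of; hn from its bound and ptY_d (near t₀; restrict the interval); hpl from cp_lip; hy from ptY_y and B_est (|BY - BY₀| ≤ K(|X|^m + |Y|), see lc_Db), |LY - LY₀| ≤ K|Y|.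
lc_one with pp = p (0,1,0); three_points; odeY as before.
Lc.restrict, Lq.restrict, Lp.restrict: to smaller intervals containing t₀ (trivial).
-/

set_option linter.unusedSectionVars false

namespace Pool.Agent.Lib.MP_28b8de_an.TT

open Filter Topology Set MeasureTheory
open Pool.Agent.Lib.MP_28b8de_an.PT (Adm Perf gron gron_back volterra kder ae_zero perf_inner stay)

variable {L : ℝ × ℝ × ℝ → ℝ} {B F G : ℝ × V3 → ℝ} {R M T : ℝ} {u : ℝ → ℝ} {q : ℝ → V3}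
  {p : ℝ → V3 →L[ℝ] ℝ} {C : Set ℝ}


theorem Lc.restrict {W : Type*} [NormedAddCommGroup W] [NormedSpace ℝ W] {K a b a' b' : ℝ}
    {u : ℝ → ℝ} {w w' : ℝ → W} {Y y' X : ℝ → ℝ} {α g : W × ℝ × ℝ → ℝ}
    (h : Lc K u a b w w' Y y' X α g) (hab : Ioo a' b' ⊆ Ioo a b) :
    Lc K u a' b' w w' Y y' X α g :=
  ⟨h.K1, h.adm, fun t ht => h.wd t (hab ht), h.wc.mono hab, fun t ht => h.wb t (hab ht),
    fun t ht => h.Yd t (hab ht), h.Yc.mono hab, h.Xc.mono hab,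
    fun s hs t ht => h.Xeq s (hab hs) t (hab ht)⟩

theorem Lq.restrict {W : Type*} [NormedAddCommGroup W] [NormedSpace ℝ W] {K a b a' b' : ℝ}
    {u : ℝ → ℝ} {w : ℝ → W} {Y X : ℝ → ℝ} {g : W × ℝ × ℝ → ℝ} {ϕ n : ℝ → ℝ}
    (h : Lq K u a b w Y X g ϕ n) (hab : Ioo a' b' ⊆ Ioo a b) : Lq K u a' b' w Y X g ϕ n :=
  ⟨h.ϕc.mono hab, fun s hs t ht => h.ni s (hab hs) t (hab ht), fun t ht => h.nb t (hab ht),
    fun s hs t ht => h.ϕeq s (hab hs) t (hab ht), h.usgn.mono fun t ht h' => ht (hab h')⟩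

/-- if `X = Y = 0` between close points of `C` we have a contradiction -/
theorem closeY (h : Sit L B F G R M T u q p C) {η ξ : ℝ × ℝ → ℝ} {t₀ : ℝ}
    (hA : AtY T q C η ξ t₀) {δ : ℝ} (hδ : 0 < δ)
    (H : ∀ s ∈ C, ∀ s' ∈ C, s < s' → |s - t₀| < δ → |s' - t₀| < δ → ∀ t ∈ Icc s s', sY η q t = 0) :
    False := by
  obtain ⟨ε, hε, hev⟩ := Metric.eventually_nhds_iff.1 (atY_ev h.ts hA)
  obtain ⟨s, hs, t₁, ht₁, s', hs', h1, h2, h3, h4, h5⟩ :=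
    three_points h.perf hA.1 (lt_min hδ hε)
  have hA1 : AtY T q C η ξ t₁ := hev (by
    rw [Real.dist_eq]
    exact lt_of_lt_of_le h4 (min_le_right _ _)) ht₁
  refine odeY h ht₁ hA1.2.1 hA1.2.2.1 ?_
  filter_upwards [Ioo_mem_nhds h1 h2] with t ht
  have h6 := H s hs s' hs' (h1.trans h2) (lt_of_lt_of_le h3 (min_le_left _ _))
    (lt_of_lt_of_le h5 (min_le_left _ _)) t ⟨ht.1.le, ht.2.le⟩
  exact sub_eq_zero.1 h6

/-- the two coordinate functions vanish on `C` near `t₀` -/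
private theorem TY1_zero {η ξ : ℝ × ℝ → ℝ} {t₀ : ℝ} (hA : AtY T q C η ξ t₀) :
    ∃ ε > 0, ∀ t ∈ C, |t - t₀| < ε → sY η q t = 0 ∧ sX ξ q t = 0 := by
  obtain ⟨ε, hε, hev⟩ := Metric.eventually_nhds_iff.1 hA.2.2.2.2
  refine ⟨ε, hε, fun t ht h1 => ?_⟩
  obtain ⟨h2, h3⟩ := hev (by rw [Real.dist_eq]; exact h1) ht
  exact ⟨sub_eq_zero.2 h2, sub_eq_zero.2 h3⟩

private theorem TY1_y (h : Sit L B F G R M T u q p C) {η ξ : ℝ × ℝ → ℝ} {t₀ : ℝ}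
    (hA : AtY T q C η ξ t₀) {K a b : ℝ}
    (hL : Lc K u a b (fun t => (t, (q t).1)) (fun t => (1, L (t, (q t).1, (q t).2.1))) (sY η q)
        (fun t => B (t, q t) - fderiv ℝ η (t, (q t).1) (1, L (t, (q t).1, (q t).2.1)))
        (sX ξ q) (αY L F η ξ) (fun z => G (psY η ξ z)))
    (hP : Lp a b (fun t => (t, (q t).1)) (sY η q) (sX ξ q) (αY L F η ξ)
        (fun z => G (psY η ξ z)) t₀) :
    ∃ K' : ℝ, 0 ≤ K' ∧ ∀ᶠ t in 𝓝 t₀,
      |(B (t, q t) - fderiv ℝ η (t, (q t).1) (1, L (t, (q t).1, (q t).2.1))) -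
        (BY B η ξ ((t, (q t).1), sY η q t, sX ξ q t) - BY B η ξ ((t, (q t).1), 0, 0))|
        ≤ K' * |sY η q t| := by
  obtain ⟨K₁, hK₁, ρ, hρ, hlip⟩ := an_lip (ptY_an h.ts hA).2
  have hwc : ContinuousAt (fun t => ((t, (q t).1) : ℝ × ℝ)) t₀ := (hL.wd t₀ hP.mem).continuousAt
  have hYc : ContinuousAt (sY η q) t₀ := (hL.Yd t₀ hP.mem).continuousAt
  have hY0 : sY η q t₀ = 0 := hP.Y0
  -- the derivative of η is bounded
  have hfc : ContinuousAt (fun t => fderiv ℝ η (t, (q t).1) (0, 1)) t₀ := by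
    have h1 : ContinuousAt (fderiv ℝ η) ((t₀, (q t₀).1) : ℝ × ℝ) := hA.2.2.1.fderiv.continuousAt
    have h2 : ContinuousAt (fun t => fderiv ℝ η (t, (q t).1)) t₀ :=
      ContinuousAt.comp (f := fun t => ((t, (q t).1) : ℝ × ℝ)) (g := fderiv ℝ η) h1 hwc
    exact h2.clm_apply continuousAt_const
  obtain ⟨A, hAdef⟩ : ∃ A, A = |fderiv ℝ η (t₀, (q t₀).1) (0, 1)| + 1 := ⟨_, rfl⟩
  have hA0 : 0 ≤ A := by rw [hAdef]; positivity
  have hfb : ∀ᶠ t in 𝓝 t₀, |fderiv ℝ η (t, (q t).1) (0, 1)| < A := by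
    refine (hfc.abs).eventually (eventually_lt_nhds ?_)
    rw [hAdef]
    exact lt_add_one _
  have hb1 : ∀ᶠ t in 𝓝 t₀, (((t, (q t).1), sY η q t) : (ℝ × ℝ) × ℝ) ∈
      Metric.ball (((t₀, (q t₀).1), 0) : (ℝ × ℝ) × ℝ) ρ := by
    have h1 : ContinuousAt (fun t => (((t, (q t).1), sY η q t) : (ℝ × ℝ) × ℝ)) t₀ :=
      hwc.prodMk hYc
    have h2 := h1.eventually_mem (s := Metric.ball (((t₀, (q t₀).1), 0) : (ℝ × ℝ) × ℝ) ρ) (by
      rw [hY0]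
      exact Metric.ball_mem_nhds _ hρ)
    exact h2
  have hb2 : ∀ᶠ t in 𝓝 t₀, (((t, (q t).1), (0 : ℝ)) : (ℝ × ℝ) × ℝ) ∈
      Metric.ball (((t₀, (q t₀).1), 0) : (ℝ × ℝ) × ℝ) ρ := by
    have h1 : ContinuousAt (fun t => (((t, (q t).1), (0 : ℝ)) : (ℝ × ℝ) × ℝ)) t₀ :=
      hwc.prodMk continuousAt_const
    exact h1.eventually_mem (Metric.ball_mem_nhds _ hρ)
  refine ⟨A * K₁, mul_nonneg hA0 hK₁, ?_⟩
  filter_upwards [ptY_y h hA, hfb, hb1, hb2] with t h1 h2 h3 h4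
  rw [h1]
  have h5 := hlip _ h3 _ h4
  have h6 : ‖(((t, (q t).1), sY η q t) : (ℝ × ℝ) × ℝ) - ((t, (q t).1), (0 : ℝ))‖ = |sY η q t| := by
    rw [Prod.mk_sub_mk, sub_self, sub_zero, Prod.norm_mk, norm_zero, Real.norm_eq_abs]
    exact max_eq_right (abs_nonneg _)
  rw [h6, Real.norm_eq_abs] at h5
  have h7 : (BY B η ξ ((t, (q t).1), sY η q t, sX ξ q t) - BY B η ξ ((t, (q t).1), 0, 0)) -
      fderiv ℝ η (t, (q t).1) (0, 1) *
        (lY L η ((t, (q t).1), sY η q t) - lY L η ((t, (q t).1), 0)) -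
      (BY B η ξ ((t, (q t).1), sY η q t, sX ξ q t) - BY B η ξ ((t, (q t).1), 0, 0)) =
      -(fderiv ℝ η (t, (q t).1) (0, 1) *
        (lY L η ((t, (q t).1), sY η q t) - lY L η ((t, (q t).1), 0))) := by ring
  rw [h7, abs_neg, abs_mul, mul_assoc]
  exact mul_le_mul h2.le h5 (abs_nonneg _) hA0

theorem ptY_even (h : Sit L B F G R M T u q p C) {η ξ : ℝ × ℝ → ℝ} {m : ℕ} {t₀ : ℝ}
    (P : PtY L B F G T q C η ξ m t₀) : ¬ Even m := by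
  intro he
  have h12 := P.aty.2.2.2.2.self_of_nhds P.aty.1
  obtain ⟨K, a, b, hab, han, hL, hP⟩ :=
    lcY h.ts P.aty.2.1 P.aty.2.2.1 P.aty.2.2.2.1 h12.1 h12.2
  obtain ⟨K', hK', hy⟩ := TY1_y h P.aty hL hP
  obtain ⟨δ, hδ, H⟩ := lc_three hL hP (ptY_an h.ts P.aty).1 P.m1 he P.ord P.ne hy
  obtain ⟨ε, hε, hz⟩ := TY1_zero P.aty
  refine closeY h P.aty (lt_min hδ hε) ?_
  intro s hs s' hs' hss h1 h2 t ht
  have z1 := hz s hs (lt_of_lt_of_le h1 (min_le_right _ _))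
  have z2 := hz s' hs' (lt_of_lt_of_le h2 (min_le_right _ _))
  exact (H s s' hss (lt_of_lt_of_le h1 (min_le_left _ _)) (lt_of_lt_of_le h2 (min_le_left _ _))
    z1.2 z1.1 z2.1 t ht).2

theorem ptY_p (h : Sit L B F G R M T u q p C) {η ξ : ℝ × ℝ → ℝ} {m : ℕ} {t₀ : ℝ}
    (P : PtY L B F G T q C η ξ m t₀) : p t₀ (0, 1, 0) = 0 := by
  by_contra hp
  have h12 := P.aty.2.2.2.2.self_of_nhds P.aty.1
  obtain ⟨K, a, b, hab, han, hL, hP⟩ :=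
    lcY h.ts P.aty.2.1 P.aty.2.2.1 P.aty.2.2.2.1 h12.1 h12.2
  have hX0 : sX ξ q t₀ = 0 := hP.X0
  have hY0 : sY η q t₀ = 0 := hP.Y0
  have hfp := fact_phi h P.aty.1 P.aty.2.1 P.g0
  have hpx : px B (t₀, q t₀) = 0 := by
    have h1 := (hfp.self_of_nhds P.aty.1).2
    exact (mul_eq_zero.1 h1).resolve_left hp
  have hBa := (ptY_an h.ts P.aty).1
  have hd := ptY_d h.ts P.aty
  -- the order is at least two
  have hm2 : 2 ≤ m := by
    by_contra hm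
    have hm1 : m = 1 := by
      have := P.m1
      omega
    have h1 : fderiv ℝ (BY B η ξ) ((t₀, (q t₀).1), 0, 0) (0, 0, 1) = 0 := by
      have h2 := hd.self_of_nhds.1
      rw [hX0, hY0, hpx] at h2
      exact h2
    apply P.ne
    rw [hm1, Function.iterate_one]
    have h3 : HasFDerivAt (BY B η ξ) (fderiv ℝ (BY B η ξ) ((t₀, (q t₀).1), 0, 0))
        ((t₀, (q t₀).1), 0, 0) := hBa.differentiableAt.hasFDerivAt
    have h4 : HasDerivAt (fun x : ℝ => (((t₀, (q t₀).1), (0 : ℝ), x) : (ℝ × ℝ) × ℝ × ℝ))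
        (((0, 0), 0, 1) : (ℝ × ℝ) × ℝ × ℝ) 0 := by
      have h5 : HasDerivAt (fun x : ℝ => (((0 : ℝ), x) : ℝ × ℝ)) ((0 : ℝ), (1 : ℝ)) 0 :=
        (hasDerivAt_const (0 : ℝ) (0 : ℝ)).prodMk (hasDerivAt_id (0 : ℝ))
      exact (hasDerivAt_const (0 : ℝ) ((t₀, (q t₀).1) : ℝ × ℝ)).prodMk h5
    have h6 : HasDerivAt (fun x : ℝ => BY B η ξ ((t₀, (q t₀).1), (0 : ℝ), x))
        (fderiv ℝ (BY B η ξ) ((t₀, (q t₀).1), 0, 0) (((0, 0), 0, 1) : (ℝ × ℝ) × ℝ × ℝ)) 0 := by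
      have h3' : HasFDerivAt (BY B η ξ) (fderiv ℝ (BY B η ξ) ((t₀, (q t₀).1), 0, 0))
        ((fun x : ℝ => (((t₀, (q t₀).1), (0 : ℝ), x) : (ℝ × ℝ) × ℝ × ℝ)) 0) := h3
      exact h3'.comp_hasDerivAt (0 : ℝ) h4
    have h7 : HasDerivAt (fun x : ℝ => fX (BY B η ξ) ((t₀, (q t₀).1), x)) 0 0 := by
      have h8 := h6.sub_const (BY B η ξ ((t₀, (q t₀).1), 0, 0))
      have h9 : fderiv ℝ (BY B η ξ) ((t₀, (q t₀).1), 0, 0) (((0, 0), 0, 1) : (ℝ × ℝ) × ℝ × ℝ) = 0 :=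
        h1
      rw [h9] at h8
      exact h8
    exact (Dn_slice (fX_an hBa).differentiableAt).unique h7
  -- estimates
  obtain ⟨K₀, hK₀, hb, hq⟩ := lq_of h.ts h.mul hab
    (w := fun t => ((t, (q t).1) : ℝ × ℝ)) (Y := sY η q) (X := sX ξ q)
    (g := fun z => G (psY η ξ z)) (fun t _ => by
      show G (psY η ξ ((t, (q t).1), sY η q t, sX ξ q t)) = G (t, q t)
      rw [psY_q])
  obtain ⟨K₃, hK₃, -, hpl⟩ := cp_lip h.ts h.mul
  obtain ⟨K', hK', hy⟩ := TY1_y h P.aty hL hP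
  obtain ⟨K₁, c₁, δ₁, hK₁, hc₁, hδ₁, hsub₁, -, -, hDb⟩ := lc_Db hL hP hBa P.m1 P.ord P.ne
  have hy' : ∀ᶠ t in 𝓝 t₀,
      |B (t, q t) - fderiv ℝ η (t, (q t).1) (1, L (t, (q t).1, (q t).2.1))| ≤
        (K' + K₁) * (|sX ξ q t| ^ m + |sY η q t|) := by
    have h1 : ∀ᶠ t in 𝓝 t₀, t ∈ Ioo (t₀ - δ₁) (t₀ + δ₁) :=
      Ioo_mem_nhds (by linarith) (by linarith)
    filter_upwards [hy, h1] with t h2 h3
    obtain ⟨-, -, -, -, h4⟩ := hDb t h3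
    have h5 : 0 ≤ |sX ξ q t| ^ m := by positivity
    have h6 := abs_add_le ((B (t, q t) - fderiv ℝ η (t, (q t).1) (1, L (t, (q t).1, (q t).2.1))) -
        (BY B η ξ ((t, (q t).1), sY η q t, sX ξ q t) - BY B η ξ ((t, (q t).1), 0, 0)))
        (BY B η ξ ((t, (q t).1), sY η q t, sX ξ q t) - BY B η ξ ((t, (q t).1), 0, 0))
    rw [sub_add_cancel] at h6
    have h7 : K' * |sY η q t| ≤ K' * (|sX ξ q t| ^ m + |sY η q t|) :=
      mul_le_mul_of_nonneg_left (by linarith) hK'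
    rw [add_mul]
    exact h6.trans (add_le_add (h2.trans h7) h4)
  -- the small interval
  obtain ⟨ε, hε, hev⟩ := Metric.eventually_nhds_iff.1 (hd.and (Ioo_mem_nhds hP.mem.1 hP.mem.2))
  have hev' : ∀ t ∈ Ioo (t₀ - ε) (t₀ + ε), (fderiv ℝ (BY B η ξ) ((t, (q t).1), sY η q t, sX ξ q t)
      (0, 0, 1) = px B (t, q t)) ∧ t ∈ Ioo a b := by
    intro t ht
    have h1 := hev (y := t) (by
      rw [Real.dist_eq, abs_lt]
      exact ⟨by linarith [ht.1], by linarith [ht.2]⟩)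
    exact ⟨h1.1.1, h1.2⟩
  have hsub : Ioo (t₀ - ε) (t₀ + ε) ⊆ Ioo a b := fun t ht => (hev' t ht).2
  obtain ⟨KK, hKK⟩ : ∃ KK, KK = max K (max K₀ K₃) := ⟨_, rfl⟩
  have k1 : K ≤ KK := by rw [hKK]; exact le_max_left _ _
  have k2 : K₀ ≤ KK := by rw [hKK]; exact (le_max_left _ _).trans (le_max_right _ _)
  have k3 : K₃ ≤ KK := by rw [hKK]; exact (le_max_right _ _).trans (le_max_right _ _)
  have hL' := (hL.restrict hsub).mono k1
  have hP' : Lp (t₀ - ε) (t₀ + ε) (fun t => (t, (q t).1)) (sY η q) (sX ξ q) (αY L F η ξ)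
      (fun z => G (psY η ξ z)) t₀ :=
    ⟨⟨by linarith, by linarith⟩, hP.X0, hP.Y0, hP.αa, hP.ga⟩
  have hQ' := (hq KK k2).restrict hsub
  have hu : |αY L F η ξ ((t₀, (q t₀).1), 0, 0)| < |G (psY η ξ ((t₀, (q t₀).1), 0, 0))| := by
    have h1 := psY_q η ξ q t₀
    rw [hX0, hY0] at h1
    rw [h1]
    exact P.uns
  have hpl' : ∀ s ∈ Ioo (t₀ - ε) (t₀ + ε), ∀ t ∈ Ioo (t₀ - ε) (t₀ + ε),
      |p s (0, 1, 0) - p t (0, 1, 0)| ≤ KK * |s - t| := by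
    intro s hs t ht
    have h1 := hpl s (Ioo_subset_Icc_self (hab (hsub hs))) t (Ioo_subset_Icc_self (hab (hsub ht)))
    have h2 : ‖((0, 1, 0) : V3)‖ ≤ 1 := by
      simp [Prod.norm_def]
    have h3 := (p s - p t).le_opNorm (0, 1, 0)
    rw [sub_apply, Real.norm_eq_abs] at h3
    calc |p s (0, 1, 0) - p t (0, 1, 0)| ≤ ‖p s - p t‖ * ‖((0, 1, 0) : V3)‖ := h3
      _ ≤ ‖p s - p t‖ * 1 := mul_le_mul_of_nonneg_left h2 (norm_nonneg _)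
      _ = ‖p s - p t‖ := mul_one _
      _ ≤ K₃ * |s - t| := h1
      _ ≤ KK * |s - t| := mul_le_mul_of_nonneg_right k3 (abs_nonneg _)
  have hn' : ∀ t ∈ Ioo (t₀ - ε) (t₀ + ε), |nn B F G u q p t + p t (0, 1, 0) *
      fderiv ℝ (BY B η ξ) ((t, (q t).1), sY η q t, sX ξ q t) (0, 0, 1)| ≤
        KK * |p t (0, 0, 1)| := by
    intro t ht
    rw [(hev' t ht).1]
    exact (hb t (Ioo_subset_Icc_self (hab (hsub ht)))).1.trans
      (mul_le_mul_of_nonneg_right k2 (abs_nonneg _))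
  obtain ⟨δ, hδ, H⟩ := lc_one hL' hP' hu hQ' hBa hm2 P.ord P.ne hpl' hp hn' hy'
  obtain ⟨ε₁, hε₁, hz⟩ := TY1_zero P.aty
  obtain ⟨ε₂, hε₂, hφ⟩ := Metric.eventually_nhds_iff.1 hfp
  refine closeY h P.aty (lt_min hδ (lt_min hε₁ hε₂)) ?_
  intro s hs s' hs' hss h1 h2 t ht
  have j1 : ∀ r, |r - t₀| < min δ (min ε₁ ε₂) → |r - t₀| < δ ∧ |r - t₀| < ε₁ ∧ |r - t₀| < ε₂ := by
    intro r hr
    exact ⟨lt_of_lt_of_le hr (min_le_left _ _),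
      lt_of_lt_of_le hr ((min_le_right _ _).trans (min_le_left _ _)),
      lt_of_lt_of_le hr ((min_le_right _ _).trans (min_le_right _ _))⟩
  obtain ⟨a1, a2, a3⟩ := j1 s h1
  obtain ⟨b1, b2, b3⟩ := j1 s' h2
  have z1 := hz s hs a2
  have z2 := hz s' hs' b2
  have f1 := (hφ (y := s) (by rw [Real.dist_eq]; exact a3) hs).1
  have f2 := (hφ (y := s') (by rw [Real.dist_eq]; exact b3) hs').1
  exact (H s s' hss a1 b1 z1.2 z1.1 f1 z2.2 f2 t ht).2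

end Pool.Agent.Lib.MP_28b8de_an.TT
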