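import Pool.Agent.Lib.MP_28b8de_an.T.TY1
import Pool.Agent.Lib.MP_28b8de_an.T.TLc2

/-!
MP_28b8de_an, module TY2.

Case y = η(t,z), x = ξ(t,z): final contradiction.
PROOF.  ptY_ev, ptY_p: p(0,1,0) = 0 on C near t₀; fact_p: p(1,0,0) ≠ 0 and ly L(t,z,y) = 0 on C near t₀.
f := fL (lY L η), analytic at (w t₀,0).  If f = 0 near (w t₀,0): L(t,z,Y') does not depend on Y' near (t₀,z,y): ly L = 0 near: odeL.  `order` (Gen by gen2) gives t₁ ∈ C close to t₀ and m₂ with the order conditions; m₂ ≠ 0 (f(v,0) = 0),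
m₂ ≠ 1: Dn f (w t₁,0) = fderiv (lY L η) (w t₁,0) (0,1) = ly L (t₁,z,y) = 0 (ptY_d at t₁, where sY = 0).
PtY at t₁ (ptY_ev), m odd (ptY_even).  Local data at t₁: lcY, lq_of (both bounds), ptY_y, ptY_d on a smaller interval (Lc.restrict), η' t := fderiv η (t,z t) (0,1) (continuous near t₁, bounded; enlarge K by Lc.mono, Lq.mono),
pp = p (0,1,0), P = p (1,0,0), π = pπ (cp_y), Lipschitz by cp_lip.
lc_two: X = Y = 0 on [s,s'] for s < s' in C near t₁ (X, Y, ϕ, pp vanish on C near t₁: AtY, fact_phi, ptY_p): closeY.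
-/

set_option linter.unusedSectionVars false

namespace Pool.Agent.Lib.MP_28b8de_an.TT

open Filter Topology Set MeasureTheory
open Pool.Agent.Lib.MP_28b8de_an.PT (Adm Perf gron gron_back volterra kder ae_zero perf_inner stay)

variable {L : ℝ × ℝ × ℝ → ℝ} {B F G : ℝ × V3 → ℝ} {R M T : ℝ} {u : ℝ → ℝ} {q : ℝ → V3}
  {p : ℝ → V3 →L[ℝ] ℝ} {C : Set ℝ}


private theorem TY2_slice {L : ℝ × ℝ × ℝ → ℝ} (hL : Differentiable ℝ L) (t a Y : ℝ) :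
    HasDerivAt (fun r : ℝ => L (t, a, r)) (ly L (t, a, Y)) Y := by
  have h1 : HasFDerivAt L (fderiv ℝ L (t, a, Y)) (t, a, Y) := (hL _).hasFDerivAt
  have h2 : HasDerivAt (fun r : ℝ => ((t, a, r) : ℝ × ℝ × ℝ)) ((0 : ℝ), (0 : ℝ), (1 : ℝ)) Y :=
    (hasDerivAt_const Y t).prodMk ((hasDerivAt_const Y a).prodMk (hasDerivAt_id Y))
  exact h1.comp_hasDerivAt Y h2

private theorem TY2_ne (h : Sit L B F G R M T u q p C) {η ξ : ℝ × ℝ → ℝ} {t₀ : ℝ}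
    (hA : AtY T q C η ξ t₀) :
    ¬ ∀ᶠ v in 𝓝 (((t₀, (q t₀).1), (0 : ℝ)) : (ℝ × ℝ) × ℝ), fL (lY L η) v = 0 := by
  intro h0
  obtain ⟨htC, htT, hη, hξ, hev⟩ := hA
  have hy0 : (q t₀).2.1 = η (t₀, (q t₀).1) := (hev.self_of_nhds htC).1
  have hLd : Differentiable ℝ L := (ts_diff h.ts).1.differentiable (by simp)
  have hc : Tendsto (fun z : ℝ × ℝ × ℝ => (((z.1, z.2.1), z.2.2 - η (z.1, z.2.1)) : (ℝ × ℝ) × ℝ))
      (𝓝 (t₀, (q t₀).1, (q t₀).2.1)) (𝓝 ((t₀, (q t₀).1), 0)) := by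
    have c1 : ContinuousAt (fun z : ℝ × ℝ × ℝ => ((z.1, z.2.1) : ℝ × ℝ))
        (t₀, (q t₀).1, (q t₀).2.1) := by fun_prop
    have c2 : ContinuousAt (fun z : ℝ × ℝ × ℝ => η (z.1, z.2.1)) (t₀, (q t₀).1, (q t₀).2.1) :=
      ContinuousAt.comp (f := fun z : ℝ × ℝ × ℝ => ((z.1, z.2.1) : ℝ × ℝ)) hη.continuousAt c1
    have c3 : ContinuousAt (fun z : ℝ × ℝ × ℝ => z.2.2) (t₀, (q t₀).1, (q t₀).2.1) := by fun_prop
    have c4 := c1.prodMk (c3.sub c2)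
    have e : (((t₀, (q t₀).1), (q t₀).2.1 - η (t₀, (q t₀).1)) : (ℝ × ℝ) × ℝ) =
        ((t₀, (q t₀).1), 0) := by rw [hy0, sub_self]
    have c5 : Tendsto _ _ _ := c4
    rw [← e]
    exact c5
  have h1 := hc.eventually h0
  have h2 : ∀ᶠ z in 𝓝 ((t₀, (q t₀).1, (q t₀).2.1) : ℝ × ℝ × ℝ), ly L z = 0 := by
    filter_upwards [h1.eventually_nhds] with z hz
    obtain ⟨t, a, Y⟩ := z
    have c : Tendsto (fun r : ℝ => ((t, a, r) : ℝ × ℝ × ℝ)) (𝓝 Y) (𝓝 (t, a, Y)) := by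
      have : Continuous fun r : ℝ => ((t, a, r) : ℝ × ℝ × ℝ) := by fun_prop
      exact this.tendsto Y
    have h3 : (fun r : ℝ => L (t, a, r)) =ᶠ[𝓝 Y] fun _ => L (t, a, η (t, a)) := by
      filter_upwards [c.eventually hz] with r hr
      have h4 : L (t, a, η (t, a) + (r - η (t, a))) - L (t, a, η (t, a) + 0) = 0 := hr
      rw [add_zero, add_sub_cancel] at h4
      linarith
    have h5 := TY2_slice hLd t a Y
    have h6 : HasDerivAt (fun r : ℝ => L (t, a, r)) 0 Y :=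
      (hasDerivAt_const Y (L (t, a, η (t, a)))).congr_of_eventuallyEq h3
    exact h5.unique h6
  exact odeL h htC htT h2

private theorem TY2_Dn {f : (ℝ × ℝ) × ℝ → ℝ} {v : ℝ × ℝ} (hf : AnalyticAt ℝ f (v, 0)) :
    Dn (fL f) (v, 0) = fderiv ℝ f (v, 0) (0, 1) := by
  have h1 := Dn_slice (fL_an hf).differentiableAt
  have h2 := (Dn_slice hf.differentiableAt).sub_const (f (v, 0))
  exact h1.unique h2

private theorem TY2_p (h : Sit L B F G R M T u q p C) {η ξ : ℝ × ℝ → ℝ} {m : ℕ} {t₀ : ℝ}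
    (P : PtY L B F G T q C η ξ m t₀) : ∀ᶠ t in 𝓝 t₀, t ∈ C → p t (0, 1, 0) = 0 := by
  filter_upwards [ptY_ev h P] with t ht htC
  exact ptY_p h (ht htC)

theorem ptY_false (h : Sit L B F G R M T u q p C) {η ξ : ℝ × ℝ → ℝ} {m : ℕ} {t₀ : ℝ}
    (P : PtY L B F G T q C η ξ m t₀) : False := by
  -- a point `t₁` of `C` with an order of `L`
  obtain ⟨hC₀, hT₀, -⟩ := P.aty
  have hIoo : ∀ᶠ t in 𝓝 t₀, t ∈ Ioo 0 T := Ioo_mem_nhds hT₀.1 hT₀.2
  obtain ⟨ε, hε, hall⟩ := Metric.eventually_nhds_iff.1 (hIoo.and (ptY_ev h P))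
  have hw : ∀ᶠ t in 𝓝 t₀, ContinuousAt (fun t : ℝ => ((t, (q t).1) : ℝ × ℝ)) t := by
    filter_upwards [hIoo] with t ht
    exact continuousAt_id.prodMk (ts_cont h.ts ht).fst
  have hg : ∀ᶠ t in 𝓝 t₀, t ∈ C → Gen C (fun t : ℝ => ((t, (q t).1) : ℝ × ℝ)) t := by
    filter_upwards [hIoo] with t ht htC
    exact gen2 h htC ht
  obtain ⟨t₁, hC₁, hd₁, -, m₂, ho₂, hne₂⟩ := order hC₀ hw hg (f := fL (lY L η))
    (fL_an (ptY_an h.ts P.aty).2) (TY2_ne h P.aty) hε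
  obtain ⟨hT₁, hP₁⟩ := hall (y := t₁) (by rw [Real.dist_eq]; exact hd₁)
  have P₁ := hP₁ hC₁
  have hA₁ := P₁.aty
  obtain ⟨-, -, hη₁, hξ₁, hev₁⟩ := P₁.aty
  obtain ⟨anB, anL⟩ := ptY_an h.ts P₁.aty
  have hy₁ : (q t₁).2.1 = η (t₁, (q t₁).1) := (hev₁.self_of_nhds hC₁).1
  have hx₁ : (q t₁).2.2 = ξ (t₁, (q t₁).1) := (hev₁.self_of_nhds hC₁).2
  have hsY₁ : sY η q t₁ = 0 := by unfold sY; rw [hy₁, sub_self]
  have hsX₁ : sX ξ q t₁ = 0 := by unfold sX; rw [hx₁, sub_self]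
  have hp₁ := TY2_p h P₁
  have hfp := fact_p h hC₁ hT₁ P₁.g0 hp₁
  have hfphi := fact_phi h hC₁ hT₁ P₁.g0
  have hd := ptY_d h.ts P₁.aty
  have hyy := ptY_y h P₁.aty
  -- `m₂ ≥ 2`
  have hm₂ : 2 ≤ m₂ := by
    by_contra hcon
    have hcases : m₂ = 0 ∨ m₂ = 1 := by omega
    rcases hcases with rfl | rfl
    · apply hne₂
      show lY L η ((t₁, (q t₁).1), 0) - lY L η ((t₁, (q t₁).1), 0) = 0
      rw [sub_self]
    · apply hne₂
      show Dn (fL (lY L η)) ((t₁, (q t₁).1), 0) = 0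
      rw [TY2_Dn anL]
      have h1 := (hd.self_of_nhds).2
      rw [hsY₁] at h1
      rw [h1]
      exact (hfp.self_of_nhds hC₁).2
  have hodd : Odd m := Nat.not_even_iff_odd.1 (ptY_even h P₁)
  -- local data
  obtain ⟨K, a, b, hab, han, hLc, hLp⟩ := lcY h.ts hT₁ hη₁ hξ₁ hy₁ hx₁
  have hmem := hLp.mem
  -- the derivative of `η`
  have hηc : ∀ t ∈ Ioo a b, ContinuousAt (fun t => fderiv ℝ η (t, (q t).1) (0, 1)) t := by
    intro t ht
    have c1 : ContinuousAt (fun t : ℝ => ((t, (q t).1) : ℝ × ℝ)) t :=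
      continuousAt_id.prodMk (ts_cont h.ts (hab ht)).fst
    have c2 : ContinuousAt (fderiv ℝ η) (t, (q t).1) := (han t ht).1.fderiv.continuousAt
    have c3 : ContinuousAt (fun t : ℝ => fderiv ℝ η (t, (q t).1)) t :=
      ContinuousAt.comp (f := fun t : ℝ => ((t, (q t).1) : ℝ × ℝ)) c2 c1
    exact c3.clm_apply continuousAt_const
  obtain ⟨Kη, hKη⟩ : ∃ Kη, Kη = |fderiv ℝ η (t₁, (q t₁).1) (0, 1)| + 1 := ⟨_, rfl⟩
  have hηb : ∀ᶠ t in 𝓝 t₁, |fderiv ℝ η (t, (q t).1) (0, 1)| < Kη := by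
    have c1 := (hηc t₁ hmem).abs
    refine c1.eventually_lt continuousAt_const ?_
    rw [hKη]
    exact lt_add_one _
  -- a small interval
  have hIab : ∀ᶠ t in 𝓝 t₁, t ∈ Ioo a b := Ioo_mem_nhds hmem.1 hmem.2
  obtain ⟨r, hr, hsm⟩ := Metric.eventually_nhds_iff.1 (hIab.and (hηb.and (hd.and hyy)))
  have hsm' : ∀ t ∈ Ioo (t₁ - r) (t₁ + r), t ∈ Ioo a b ∧
      |fderiv ℝ η (t, (q t).1) (0, 1)| < Kη ∧
      (fderiv ℝ (BY B η ξ) ((t, (q t).1), sY η q t, sX ξ q t) (0, 0, 1) = px B (t, q t) ∧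
        fderiv ℝ (lY L η) ((t, (q t).1), sY η q t) (0, 1) = ly L (t, (q t).1, (q t).2.1)) ∧
      B (t, q t) - fderiv ℝ η (t, (q t).1) (1, L (t, (q t).1, (q t).2.1))
        = (BY B η ξ ((t, (q t).1), sY η q t, sX ξ q t) - BY B η ξ ((t, (q t).1), 0, 0))
        - fderiv ℝ η (t, (q t).1) (0, 1)
          * (lY L η ((t, (q t).1), sY η q t) - lY L η ((t, (q t).1), 0)) := by
    intro t ht
    refine hsm (y := t) ?_
    rw [Real.dist_eq, abs_lt]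
    exact ⟨by linarith [ht.1], by linarith [ht.2]⟩
  have hsub : Ioo (t₁ - r) (t₁ + r) ⊆ Ioo a b := fun t ht => (hsm' t ht).1
  have hsubT : Ioo (t₁ - r) (t₁ + r) ⊆ Ioo 0 T := hsub.trans hab
  -- constants
  obtain ⟨K₀, hK₀, hbd, hLq⟩ := lq_of h.ts h.mul hsubT
    (w := fun t : ℝ => ((t, (q t).1) : ℝ × ℝ)) (Y := sY η q) (X := sX ξ q)
    (g := fun z => G (psY η ξ z)) (fun t _ => by rw [psY_q])
  obtain ⟨Kp, hKp, -, hpl⟩ := cp_lip h.ts h.mul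
  obtain ⟨K', hK'⟩ : ∃ K', K' = max (max K K₀) (max Kp Kη) := ⟨_, rfl⟩
  have hk1 : K ≤ K' := by rw [hK']; exact (le_max_left _ _).trans (le_max_left _ _)
  have hk2 : K₀ ≤ K' := by rw [hK']; exact (le_max_right _ _).trans (le_max_left _ _)
  have hk3 : Kp ≤ K' := by rw [hK']; exact (le_max_left _ _).trans (le_max_right _ _)
  have hk4 : Kη ≤ K' := by rw [hK']; exact (le_max_right _ _).trans (le_max_right _ _)
  have hLc' := (hLc.restrict hsub).mono hk1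
  have hLp' : Lp (t₁ - r) (t₁ + r) (fun t : ℝ => ((t, (q t).1) : ℝ × ℝ)) (sY η q) (sX ξ q)
      (αY L F η ξ) (fun z => G (psY η ξ z)) t₁ :=
    ⟨⟨by linarith, by linarith⟩, hLp.X0, hLp.Y0, hLp.αa, hLp.ga⟩
  have hGt : G (psY η ξ ((t₁, (q t₁).1), 0, 0)) = G (t₁, q t₁) := by
    have := psY_q η ξ q t₁
    rw [hsY₁, hsX₁] at this
    rw [this]
  have huns : |αY L F η ξ ((t₁, (q t₁).1), 0, 0)| <
      |(fun z => G (psY η ξ z)) ((t₁, (q t₁).1), 0, 0)| := by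
    show _ < |G (psY η ξ ((t₁, (q t₁).1), 0, 0))|
    rw [hGt]
    exact P₁.uns
  have hIcc : ∀ t ∈ Ioo (t₁ - r) (t₁ + r), t ∈ Icc 0 T := fun t ht => Ioo_subset_Icc_self (hsubT ht)
  have hnorm : ‖((1, 0, 0) : V3)‖ ≤ 1 := by
    rw [Prod.norm_mk, Prod.norm_mk]
    simp
  obtain ⟨δ₁, hδ₁, hgap⟩ := lc_two hLc' hLp' huns (hLq K' hk2) (Bf := BY B η ξ) anB hodd P₁.ord P₁.ne
    (Lf := lY L η) anL hm₂ ho₂ hne₂
    (pp := fun t => p t (0, 1, 0)) (P := fun t => p t (1, 0, 0)) (π := pπ L B F G u q p)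
    (η' := fun t => fderiv ℝ η (t, (q t).1) (0, 1))
    (fun t ht => (hηc t (hsub ht)).continuousWithinAt)
    (fun t ht => ((hsm' t ht).2.1.le).trans hk4)
    (fun t ht => (hsm' t ht).2.2.2)
    (fun t ht => by
      have c1 : ContinuousAt p t :=
        h.mul.adj.cont.continuousAt (Icc_mem_nhds (hsubT ht).1 (hsubT ht).2)
      exact (c1.clm_apply continuousAt_const).continuousWithinAt)
    (fun s hs t ht => (cp_y h.ts h.mul (hIcc s hs) (hIcc t ht)).1)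
    (fun s hs t ht => (cp_y h.ts h.mul (hIcc s hs) (hIcc t ht)).2)
    (fun t ht => by
      have e := (hbd t (hIcc t ht)).2
      show |pπ L B F G u q p t + p t (1, 0, 0) *
        fderiv ℝ (lY L η) ((t, (q t).1), sY η q t) (0, 1)| ≤ _
      rw [(hsm' t ht).2.2.1.2]
      exact e.trans (mul_le_mul_of_nonneg_right hk2 (by positivity)))
    (fun s hs t ht => by
      have e := hpl s (hIcc s hs) t (hIcc t ht)
      show |p s (1, 0, 0) - p t (1, 0, 0)| ≤ _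
      have e2 : p s (1, 0, 0) - p t (1, 0, 0) = (p s - p t) (1, 0, 0) := rfl
      rw [e2, ← Real.norm_eq_abs]
      calc ‖(p s - p t) (1, 0, 0)‖ ≤ ‖p s - p t‖ * ‖((1, 0, 0) : V3)‖ := (p s - p t).le_opNorm _
        _ ≤ (Kp * |s - t|) * 1 := mul_le_mul e hnorm (norm_nonneg _) (by positivity)
        _ ≤ K' * |s - t| := by
            rw [mul_one]
            exact mul_le_mul_of_nonneg_right hk3 (abs_nonneg _))
    (hfp.self_of_nhds hC₁).1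
    (fun t ht => by
      have e := (hbd t (hIcc t ht)).1
      show |nn B F G u q p t + p t (0, 1, 0) *
        fderiv ℝ (BY B η ξ) ((t, (q t).1), sY η q t, sX ξ q t) (0, 0, 1)| ≤ _
      rw [(hsm' t ht).2.2.1.1]
      exact e.trans (mul_le_mul_of_nonneg_right hk2 (abs_nonneg _)))
  -- the conclusion
  obtain ⟨δ₂, hδ₂, hzero⟩ := Metric.eventually_nhds_iff.1 (hev₁.and (hfphi.and hp₁))
  have hz : ∀ s ∈ C, |s - t₁| < min δ₁ δ₂ → |s - t₁| < δ₁ ∧ sX ξ q s = 0 ∧ sY η q s = 0 ∧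
      p s (0, 0, 1) = 0 ∧ p s (0, 1, 0) = 0 := by
    intro s hs hsd
    obtain ⟨h1, h2, h3⟩ := hzero (y := s) (by
      rw [Real.dist_eq]; exact lt_of_lt_of_le hsd (min_le_right _ _))
    refine ⟨lt_of_lt_of_le hsd (min_le_left _ _), ?_, ?_, (h2 hs).1, h3 hs⟩
    · unfold sX; rw [(h1 hs).2, sub_self]
    · unfold sY; rw [(h1 hs).1, sub_self]
  refine closeY h hA₁ (lt_min hδ₁ hδ₂) ?_
  intro s hs s' hs' hss hsd hsd' t ht
  obtain ⟨a1, a2, a3, a4, a5⟩ := hz s hs hsd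
  obtain ⟨b1, b2, b3, b4, b5⟩ := hz s' hs' hsd'
  exact (hgap s s' hss a1 b1 a2 a3 a4 a5 b2 b3 b4 b5 t ht).2

end Pool.Agent.Lib.MP_28b8de_an.TT
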