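import Pool.Agent.Lib.MP_28b8de_an.T.TDist
import Pool.Agent.Lib.MP_28b8de_an.T.TGen
import Pool.Agent.Lib.MP_28b8de_an.T.TOdes

/-!
MP_28b8de_an, module TYk.

Facts on surfaces y = η(t,z), x = ξ(t,z) containing q(C) near t₀.
PROOFS.
kY1: Y = sY η q vanishes on C near t₀, its derivative (at times near t₀) is B(t,q) - fderiv η (t,z)(1,L(t,z,y)) (chain rule, ts_y, ts_z), so this is 0 at t ∈ C near t₀ (der_zero at each such t), where it is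
βY L B η ξ ((t,z),0,0) (psY = (t,q t)); gen2 for the function v ↦ βY L B η ξ (v,0,0) (analytic at (t₀, z t₀)).
kY2: kder_ev with m = sX ξ q, A = F(t,q) - fderiv ξ (t,z)(1,L(t,z,y)), B = G(t,q) (the integral identity is Lc.Xeq of lcY).
inv_false: Y = sY η q.  Near t₀: Y' = B(t,z,y,x) - fderiv η (t,z) (1, L(t,z,y)), and B(t,z,η,x) - fderiv η (t,z)(1,L(t,z,η)) = 0 (the hypothesis at the point ((t,z t), x t)), so |Y'| ≤ K|y - η| = K|Y|
(an_lip for B, L).  zero_der1: Y = 0 near t₀, odeY.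
hasY_atY: HasY with η at t₀.  b (v,X) := B (v.1,v.2,η v,X) - fderiv η v (1, L(v.1,v.2,η v)) vanishes at ((t,z t),x t), t ∈ C near t₀ (der_zero).  zx: if b = 0 near: inv_false.  Otherwise t₁ ∈ C close to t₀ and ξ: AtY at t₁
(η is analytic at (t₁,z t₁) and y = η on C near t₁ if t₁ is close to t₀: choose ε).
atY_ev: the conditions hold at all t ∈ C near t₀.
-/

set_option linter.unusedSectionVars false

namespace Pool.Agent.Lib.MP_28b8de_an.TT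

open Filter Topology Set MeasureTheory
open Pool.Agent.Lib.MP_28b8de_an.PT (Adm Perf gron gron_back volterra kder ae_zero perf_inner stay)

variable {L : ℝ × ℝ × ℝ → ℝ} {B F G : ℝ × V3 → ℝ} {R M T : ℝ} {u : ℝ → ℝ} {q : ℝ → V3}
  {p : ℝ → V3 →L[ℝ] ℝ} {C : Set ℝ}


private theorem cw (h : TS L B F G R M T u q) {t₀ : ℝ} (ht₀ : t₀ ∈ Ioo 0 T) :
    ContinuousAt (fun t => ((t, (q t).1) : ℝ × ℝ)) t₀ :=
  continuousAt_id.prodMk (ts_cont h ht₀).fst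

private theorem cwx (h : TS L B F G R M T u q) {t₀ : ℝ} (ht₀ : t₀ ∈ Ioo 0 T) :
    ContinuousAt (fun t => (((t, (q t).1), (q t).2.2) : (ℝ × ℝ) × ℝ)) t₀ :=
  (cw h ht₀).prodMk (ts_cont h ht₀).snd.snd

private theorem cq (h : TS L B F G R M T u q) {t₀ : ℝ} (ht₀ : t₀ ∈ Ioo 0 T) :
    ContinuousAt (fun t => ((t, q t) : ℝ × V3)) t₀ :=
  continuousAt_id.prodMk (ts_cont h ht₀)

private theorem cl3 (h : TS L B F G R M T u q) {t₀ : ℝ} (ht₀ : t₀ ∈ Ioo 0 T) :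
    ContinuousAt (fun t => ((t, (q t).1, (q t).2.1) : ℝ × ℝ × ℝ)) t₀ :=
  continuousAt_id.prodMk ((ts_cont h ht₀).fst.prodMk (ts_cont h ht₀).snd.fst)

private theorem an_ev (h : TS L B F G R M T u q) {f : ℝ × ℝ → ℝ} {t₀ : ℝ} (ht₀ : t₀ ∈ Ioo 0 T)
    (hf : AnalyticAt ℝ f (t₀, (q t₀).1)) : ∀ᶠ t in 𝓝 t₀, AnalyticAt ℝ f (t, (q t).1) :=
  (cw h ht₀).eventually hf.eventually_analyticAt

private theorem der_comp (h : TS L B F G R M T u q) {f : ℝ × ℝ → ℝ} {t : ℝ} (ht : t ∈ Ioo 0 T)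
    (hf : AnalyticAt ℝ f (t, (q t).1)) :
    HasDerivAt (fun s => f (s, (q s).1)) (fderiv ℝ f (t, (q t).1) (1, L (t, (q t).1, (q t).2.1))) t := by
  have h1 : HasDerivAt (fun s => ((s, (q s).1) : ℝ × ℝ)) (1, L (t, (q t).1, (q t).2.1)) t :=
    (hasDerivAt_id t).prodMk (ts_z h ht)
  exact hf.differentiableAt.hasFDerivAt.comp_hasDerivAt t h1

private theorem der_sY (h : TS L B F G R M T u q) {η : ℝ × ℝ → ℝ} {t : ℝ} (ht : t ∈ Ioo 0 T)
    (hf : AnalyticAt ℝ η (t, (q t).1)) :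
    HasDerivAt (sY η q)
      (B (t, q t) - fderiv ℝ η (t, (q t).1) (1, L (t, (q t).1, (q t).2.1))) t :=
  (ts_y h ht).sub (der_comp h ht hf)

private theorem q_eq (q : ℝ → V3) (t : ℝ) : q t = ((q t).1, (q t).2.1, (q t).2.2) := rfl

/-- the derivative of `Y` vanishes at the points of `C` -/
private theorem sY_zero (h : Sit L B F G R M T u q p C) {η : ℝ × ℝ → ℝ} {t : ℝ} (htC : t ∈ C)
    (ht : t ∈ Ioo 0 T) (hη : AnalyticAt ℝ η (t, (q t).1))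
    (hev : ∀ᶠ s in 𝓝 t, s ∈ C → (q s).2.1 = η (s, (q s).1)) :
    B (t, q t) - fderiv ℝ η (t, (q t).1) (1, L (t, (q t).1, (q t).2.1)) = 0 := by
  refine der_zero h.perf htC (der_sY h.ts ht hη) ?_
  filter_upwards [hev] with s hs hsC
  unfold sY
  rw [hs hsC, sub_self]

theorem atY_ev {η ξ : ℝ × ℝ → ℝ} {t₀ : ℝ} (h : TS L B F G R M T u q) (hA : AtY T q C η ξ t₀) :
    ∀ᶠ t in 𝓝 t₀, t ∈ C → AtY T q C η ξ t := by
  obtain ⟨h1, h2, h3, h4, h5⟩ := hA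
  filter_upwards [an_ev h h2 h3, an_ev h h2 h4, Ioo_mem_nhds h2.1 h2.2,
    eventually_eventually_nhds.2 h5] with t h6 h7 h8 h9 htC
  exact ⟨htC, h8, h6, h7, h9⟩

private theorem Ba (h : TS L B F G R M T u q) {t : ℝ} (ht : t ∈ Ioo 0 T) :
    AnalyticAt ℝ B (t, q t) := h.Ba _ (ts_ball h (Ioo_subset_Icc_self ht)).1

private theorem La (h : TS L B F G R M T u q) {t : ℝ} (ht : t ∈ Ioo 0 T) :
    AnalyticAt ℝ L (t, (q t).1, (q t).2.1) := h.La _ (ts_ball h (Ioo_subset_Icc_self ht)).2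

private theorem an_fd {η : ℝ × ℝ → ℝ} {E : Type*} [NormedAddCommGroup E] [NormedSpace ℝ E] {e₀ : E}
    {w : E → ℝ × ℝ} {l : E → ℝ} (hw : AnalyticAt ℝ w e₀) (hη : AnalyticAt ℝ η (w e₀))
    (hl : AnalyticAt ℝ l e₀) : AnalyticAt ℝ (fun e => fderiv ℝ η (w e) (1, l e)) e₀ := by
  have h1 : AnalyticAt ℝ (fun e => fderiv ℝ η (w e)) e₀ := hη.fderiv.fun_comp hw
  have h2 : AnalyticAt ℝ (fun e => ((1 : ℝ), l e)) e₀ := analyticAt_const.prod hl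
  exact (ContinuousLinearMap.analyticAt_bilinear (ContinuousLinearMap.id ℝ ((ℝ × ℝ) →L[ℝ] ℝ)) _).fun_comp
    (h1.prod h2)

theorem kY1 (h : Sit L B F G R M T u q p C) {η ξ : ℝ × ℝ → ℝ} {t₀ : ℝ}
    (hA : AtY T q C η ξ t₀) :
    ∀ᶠ v in 𝓝 ((t₀, (q t₀).1) : ℝ × ℝ), βY L B η ξ (v, 0, 0) = 0 := by
  have hev := atY_ev h.ts hA
  have hself := hev.self_of_nhds
  obtain ⟨h1, h2, h3, h4, h5⟩ := hA
  have h50 := h5.self_of_nhds h1
  refine gen2 h h1 h2 (fun v => βY L B η ξ (v, 0, 0)) ?_ ?_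
  · -- analytic
    have e1 : (fun v : ℝ × ℝ => βY L B η ξ (v, 0, 0)) =
        fun v : ℝ × ℝ => B (v.1, v.2, η v, ξ v) - fderiv ℝ η v (1, L (v.1, v.2, η v)) := by
      funext v
      simp only [βY, psY, lY, add_zero]
    rw [e1]
    have hid : AnalyticAt ℝ (fun v : ℝ × ℝ => v) (t₀, (q t₀).1) := analyticAt_id
    have hf : AnalyticAt ℝ (fun v : ℝ × ℝ => v.1) (t₀, (q t₀).1) := analyticAt_fst
    have hs : AnalyticAt ℝ (fun v : ℝ × ℝ => v.2) (t₀, (q t₀).1) := analyticAt_snd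
    have hL1 : AnalyticAt ℝ (fun v : ℝ × ℝ => L (v.1, v.2, η v)) (t₀, (q t₀).1) := by
      refine AnalyticAt.fun_comp (f := fun v : ℝ × ℝ => ((v.1, v.2, η v) : ℝ × ℝ × ℝ)) (g := L) ?_
        (hf.prod (hs.prod h3))
      show AnalyticAt ℝ L (t₀, (q t₀).1, η (t₀, (q t₀).1))
      rw [← h50.1]
      exact La h.ts h2
    have hB1 : AnalyticAt ℝ (fun v : ℝ × ℝ => B (v.1, v.2, η v, ξ v)) (t₀, (q t₀).1) := by
      refine AnalyticAt.fun_comp (f := fun v : ℝ × ℝ => ((v.1, v.2, η v, ξ v) : ℝ × V3)) (g := B) ?_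
        (hf.prod (hs.prod (h3.prod h4)))
      show AnalyticAt ℝ B (t₀, (q t₀).1, η (t₀, (q t₀).1), ξ (t₀, (q t₀).1))
      rw [← h50.1, ← h50.2]
      exact Ba h.ts h2
    exact hB1.sub (an_fd hid h3 hL1)
  · filter_upwards [hev] with t ht htC
    obtain ⟨_, g2, g3, _, g5⟩ := ht htC
    have g50 := g5.self_of_nhds htC
    have g6 := sY_zero h htC g2 g3 (g5.mono fun s hs hsC => (hs hsC).1)
    simp only [βY, psY, lY, add_zero]
    rw [← g50.1, ← g50.2]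
    exact g6

theorem kY2 (h : Sit L B F G R M T u q p C) {η ξ : ℝ × ℝ → ℝ} {t₀ : ℝ}
    (hA : AtY T q C η ξ t₀) :
    ∀ᶠ t in 𝓝 t₀, t ∈ C → |αY L F η ξ ((t, (q t).1), 0, 0)| ≤ |G (t, q t)| := by
  have hA' := hA
  obtain ⟨h1, h2, h3, h4, h5⟩ := hA
  have h50 := h5.self_of_nhds h1
  obtain ⟨K, a, b, hab, -, hlc, hlp⟩ := lcY h.ts h2 h3 h4 h50.1 h50.2
  obtain ⟨hLd, hBd, hFd, hGd⟩ := ts_diff h.ts
  have hmem : Ioo a b ∈ 𝓝 t₀ := Ioo_mem_nhds hlp.mem.1 hlp.mem.2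
  obtain ⟨ε, hε, hball⟩ := Metric.mem_nhds_iff.1 hmem
  have hIoo : Ioo (t₀ - ε) (t₀ + ε) ⊆ Ioo a b := by
    rw [← Real.ball_eq_Ioo]
    exact hball
  have hT : ∀ᶠ t in 𝓝 t₀, t ∈ Ioo 0 T := Ioo_mem_nhds h2.1 h2.2
  have key := kder_ev (A := fun t => F (t, q t) - fderiv ℝ ξ (t, (q t).1) (1, L (t, (q t).1, (q t).2.1)))
    (B := fun t => G (t, q t)) (m := sX ξ q) h.perf h1 hlc.adm
    (by
      filter_upwards [hT, an_ev h.ts h2 h4] with t ht hξt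
      have c1 : ContinuousAt (fun t => F (t, q t)) t :=
        ContinuousAt.comp' hFd.continuous.continuousAt (cq h.ts ht)
      have c2 : ContinuousAt (fun t => L (t, (q t).1, (q t).2.1)) t :=
        ContinuousAt.comp' (g := L) (f := fun t => ((t, (q t).1, (q t).2.1) : ℝ × ℝ × ℝ))
          hLd.continuous.continuousAt (cl3 h.ts ht)
      have c3 : ContinuousAt (fun t => fderiv ℝ ξ (t, (q t).1)) t :=
        ContinuousAt.comp' (g := fderiv ℝ ξ) (f := fun t => ((t, (q t).1) : ℝ × ℝ))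
          hξt.fderiv.continuousAt (cw h.ts ht)
      exact c1.sub (c3.clm_apply (continuousAt_const.prodMk c2)))
    (by
      filter_upwards [hT] with t ht
      exact ContinuousAt.comp' hGd.continuous.continuousAt (cq h.ts ht))
    (by
      filter_upwards [h5] with t ht htC
      unfold sX
      rw [(ht htC).2, sub_self]) hε
    (by
      intro s hs s' hs'
      rw [hlc.Xeq s (hIoo hs) s' (hIoo hs')]
      congr 1
      funext r
      have e1 : αY L F η ξ ((r, (q r).1), sY η q r, sX ξ q r) =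
          F (r, q r) - fderiv ℝ ξ (r, (q r).1) (1, L (r, (q r).1, (q r).2.1)) := by
        unfold αY
        rw [psY_q]
        have e2 : lY L η ((r, (q r).1), sY η q r) = L (r, (q r).1, (q r).2.1) := by
          unfold lY sY
          simp
        rw [e2]
      rw [psY_q]
      rw [e1])
  filter_upwards [key, atY_ev h.ts hA'] with t ht hAt htC
  obtain ⟨_, g2, g3, _, g5⟩ := hAt htC
  have g50 := g5.self_of_nhds htC
  have e3 : αY L F η ξ ((t, (q t).1), 0, 0) =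
      F (t, q t) - fderiv ℝ ξ (t, (q t).1) (1, L (t, (q t).1, (q t).2.1)) := by
    unfold αY psY lY
    simp only [add_zero]
    rw [← g50.1, ← g50.2]
  rw [e3]
  exact ht htC

theorem inv_false (h : Sit L B F G R M T u q p C) {η : ℝ × ℝ → ℝ} {t₀ : ℝ} (ht₀ : t₀ ∈ C)
    (ht₀' : t₀ ∈ Ioo 0 T) (hη : AnalyticAt ℝ η (t₀, (q t₀).1))
    (h1 : (q t₀).2.1 = η (t₀, (q t₀).1))
    (hb : ∀ᶠ z in 𝓝 (((t₀, (q t₀).1), (q t₀).2.2) : (ℝ × ℝ) × ℝ),
      B (z.1.1, z.1.2, η z.1, z.2) - fderiv ℝ η z.1 (1, L (z.1.1, z.1.2, η z.1)) = 0) : False := by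
  have hts := h.ts
  obtain ⟨K₁, hK₁, ρ₁, hρ₁, hBl⟩ := an_lip (Ba hts ht₀')
  obtain ⟨K₂, hK₂, ρ₂, hρ₂, hLl⟩ := an_lip (La hts ht₀')
  -- the points on the surface
  have cη : ContinuousAt (fun t => η (t, (q t).1)) t₀ :=
    ContinuousAt.comp' (g := η) (f := fun t => ((t, (q t).1) : ℝ × ℝ)) hη.continuousAt (cw hts ht₀')
  have c1 : ContinuousAt (fun t => ((t, (q t).1, η (t, (q t).1), (q t).2.2) : ℝ × V3)) t₀ :=
    continuousAt_id.prodMk ((ts_cont hts ht₀').fst.prodMk (cη.prodMk (ts_cont hts ht₀').snd.snd))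
  have c2 : ContinuousAt (fun t => ((t, (q t).1, η (t, (q t).1)) : ℝ × ℝ × ℝ)) t₀ :=
    continuousAt_id.prodMk ((ts_cont hts ht₀').fst.prodMk cη)
  have e1 : ∀ᶠ t in 𝓝 t₀, ((t, q t) : ℝ × V3) ∈ Metric.ball ((t₀, q t₀) : ℝ × V3) ρ₁ :=
    (cq hts ht₀').eventually (Metric.ball_mem_nhds _ hρ₁)
  have e2 : ∀ᶠ t in 𝓝 t₀, ((t, (q t).1, η (t, (q t).1), (q t).2.2) : ℝ × V3) ∈
      Metric.ball ((t₀, q t₀) : ℝ × V3) ρ₁ := by
    refine c1.eventually ?_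
    show Metric.ball ((t₀, q t₀) : ℝ × V3) ρ₁ ∈ 𝓝 ((t₀, (q t₀).1, η (t₀, (q t₀).1), (q t₀).2.2) : ℝ × V3)
    rw [← h1]
    exact Metric.ball_mem_nhds _ hρ₁
  have e3 : ∀ᶠ t in 𝓝 t₀, ((t, (q t).1, (q t).2.1) : ℝ × ℝ × ℝ) ∈
      Metric.ball ((t₀, (q t₀).1, (q t₀).2.1) : ℝ × ℝ × ℝ) ρ₂ :=
    (cl3 hts ht₀').eventually (Metric.ball_mem_nhds _ hρ₂)
  have e4 : ∀ᶠ t in 𝓝 t₀, ((t, (q t).1, η (t, (q t).1)) : ℝ × ℝ × ℝ) ∈
      Metric.ball ((t₀, (q t₀).1, (q t₀).2.1) : ℝ × ℝ × ℝ) ρ₂ := by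
    refine c2.eventually ?_
    show Metric.ball ((t₀, (q t₀).1, (q t₀).2.1) : ℝ × ℝ × ℝ) ρ₂ ∈
      𝓝 ((t₀, (q t₀).1, η (t₀, (q t₀).1)) : ℝ × ℝ × ℝ)
    rw [← h1]
    exact Metric.ball_mem_nhds _ hρ₂
  have c3 : ContinuousAt (fun t => ‖fderiv ℝ η (t, (q t).1)‖) t₀ :=
    (ContinuousAt.comp' (g := fderiv ℝ η) (f := fun t => ((t, (q t).1) : ℝ × ℝ))
      hη.fderiv.continuousAt (cw hts ht₀')).norm
  have e5 : ∀ᶠ t in 𝓝 t₀, ‖fderiv ℝ η (t, (q t).1)‖ < ‖fderiv ℝ η (t₀, (q t₀).1)‖ + 1 :=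
    c3.eventually (Iio_mem_nhds (lt_add_one _))
  have e6 : ∀ᶠ t in 𝓝 t₀, t ∈ Ioo 0 T := Ioo_mem_nhds ht₀'.1 ht₀'.2
  have e7 := (cwx hts ht₀').eventually hb
  have hzero : ∀ᶠ t in 𝓝 t₀, sY η q t = 0 := by
    refine zero_der1 (K := K₁ + (‖fderiv ℝ η (t₀, (q t₀).1)‖ + 1) * K₂)
      (f' := fun t => B (t, q t) - fderiv ℝ η (t, (q t).1) (1, L (t, (q t).1, (q t).2.1))) ?_ ?_
    · unfold sY
      rw [h1, sub_self]
    · filter_upwards [e1, e2, e3, e4, e5, e6, e7, an_ev hts ht₀' hη] with t f1 f2 f3 f4 f5 f6 f7 f8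
      refine ⟨der_sY hts f6 f8, ?_⟩
      have g1 := hBl _ f1 _ f2
      have g2 := hLl _ f3 _ f4
      have n1 : ‖((t, q t) : ℝ × V3) - (t, (q t).1, η (t, (q t).1), (q t).2.2)‖ ≤ |sY η q t| := by
        have : ((t, q t) : ℝ × V3) - (t, (q t).1, η (t, (q t).1), (q t).2.2) = (0, 0, sY η q t, 0) := by
          refine Prod.ext (by simp) (Prod.ext (by simp) (Prod.ext ?_ (by simp)))
          simp [sY]
        rw [this]
        simp [Prod.norm_def]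
      have n2 : ‖((t, (q t).1, (q t).2.1) : ℝ × ℝ × ℝ) - (t, (q t).1, η (t, (q t).1))‖ ≤ |sY η q t| := by
        have : ((t, (q t).1, (q t).2.1) : ℝ × ℝ × ℝ) - (t, (q t).1, η (t, (q t).1)) = (0, 0, sY η q t) := by
          simp [sY]
        rw [this]
        simp [Prod.norm_def]
      have f7' : B (t, (q t).1, η (t, (q t).1), (q t).2.2) =
          fderiv ℝ η (t, (q t).1) (1, L (t, (q t).1, η (t, (q t).1))) := sub_eq_zero.1 f7
      have d1 : B (t, q t) - fderiv ℝ η (t, (q t).1) (1, L (t, (q t).1, (q t).2.1)) =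
          (B (t, q t) - B (t, (q t).1, η (t, (q t).1), (q t).2.2)) -
          fderiv ℝ η (t, (q t).1) (0, L (t, (q t).1, (q t).2.1) - L (t, (q t).1, η (t, (q t).1))) := by
        rw [f7']
        have : ((0 : ℝ), L (t, (q t).1, (q t).2.1) - L (t, (q t).1, η (t, (q t).1))) =
            ((1 : ℝ), L (t, (q t).1, (q t).2.1)) - ((1 : ℝ), L (t, (q t).1, η (t, (q t).1))) := by
          simp
        rw [this, map_sub]
        ring
      rw [d1]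
      have k1 : |B (t, q t) - B (t, (q t).1, η (t, (q t).1), (q t).2.2)| ≤ K₁ * |sY η q t| :=
        g1.trans (mul_le_mul_of_nonneg_left n1 hK₁)
      have k2 : |L (t, (q t).1, (q t).2.1) - L (t, (q t).1, η (t, (q t).1))| ≤ K₂ * |sY η q t| :=
        g2.trans (mul_le_mul_of_nonneg_left n2 hK₂)
      have k3 : |fderiv ℝ η (t, (q t).1) (0, L (t, (q t).1, (q t).2.1) - L (t, (q t).1, η (t, (q t).1)))| ≤
          (‖fderiv ℝ η (t₀, (q t₀).1)‖ + 1) * (K₂ * |sY η q t|) := by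
        have k4 := (fderiv ℝ η (t, (q t).1)).le_opNorm
          ((0 : ℝ), L (t, (q t).1, (q t).2.1) - L (t, (q t).1, η (t, (q t).1)))
        have k5 : ‖((0 : ℝ), L (t, (q t).1, (q t).2.1) - L (t, (q t).1, η (t, (q t).1)))‖ =
            |L (t, (q t).1, (q t).2.1) - L (t, (q t).1, η (t, (q t).1))| := by
          simp [Prod.norm_def]
        rw [k5] at k4
        refine (le_trans (le_of_eq (Real.norm_eq_abs _).symm) k4).trans ?_
        exact mul_le_mul f5.le k2 (abs_nonneg _) (by positivity)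
      calc |B (t, q t) - B (t, (q t).1, η (t, (q t).1), (q t).2.2) -
            fderiv ℝ η (t, (q t).1) (0, L (t, (q t).1, (q t).2.1) - L (t, (q t).1, η (t, (q t).1)))|
          ≤ K₁ * |sY η q t| + (‖fderiv ℝ η (t₀, (q t₀).1)‖ + 1) * (K₂ * |sY η q t|) :=
            (abs_sub _ _).trans (add_le_add k1 k3)
        _ = (K₁ + (‖fderiv ℝ η (t₀, (q t₀).1)‖ + 1) * K₂) * |sY η q t| := by ring
  refine odeY h ht₀ ht₀' hη ?_
  filter_upwards [hzero] with t ht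
  unfold sY at ht
  linarith

theorem hasY_atY (h : Sit L B F G R M T u q p C) (hY : HasY T q C) :
    ∃ η ξ t₀, AtY T q C η ξ t₀ := by
  obtain ⟨t₀, hC, hT, η, hη, hev⟩ := hY
  have hts := h.ts
  have h10 := hev.self_of_nhds hC
  -- everything holds near `t₀`
  have hall : ∀ᶠ t in 𝓝 t₀, t ∈ Ioo 0 T ∧ AnalyticAt ℝ η (t, (q t).1) ∧
      ∀ᶠ s in 𝓝 t, s ∈ C → (q s).2.1 = η (s, (q s).1) := by
    filter_upwards [an_ev hts hT hη, Ioo_mem_nhds hT.1 hT.2, eventually_eventually_nhds.2 hev]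
      with t g1 g2 g3
    exact ⟨g2, g1, g3⟩
  obtain ⟨ε, hε, hball⟩ := Metric.eventually_nhds_iff.1 hall
  have ha : AnalyticAt ℝ (fun z : (ℝ × ℝ) × ℝ =>
      B (z.1.1, z.1.2, η z.1, z.2) - fderiv ℝ η z.1 (1, L (z.1.1, z.1.2, η z.1)))
      ((t₀, (q t₀).1), (q t₀).2.2) := by
    have a1 : AnalyticAt ℝ (fun z : (ℝ × ℝ) × ℝ => z.1) ((t₀, (q t₀).1), (q t₀).2.2) := analyticAt_fst
    have a2 : AnalyticAt ℝ (fun z : (ℝ × ℝ) × ℝ => z.2) ((t₀, (q t₀).1), (q t₀).2.2) := analyticAt_snd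
    have a3 : AnalyticAt ℝ (fun z : (ℝ × ℝ) × ℝ => z.1.1) ((t₀, (q t₀).1), (q t₀).2.2) :=
      AnalyticAt.fun_comp (g := fun v : ℝ × ℝ => v.1) analyticAt_fst a1
    have a4 : AnalyticAt ℝ (fun z : (ℝ × ℝ) × ℝ => z.1.2) ((t₀, (q t₀).1), (q t₀).2.2) :=
      AnalyticAt.fun_comp (g := fun v : ℝ × ℝ => v.2) analyticAt_snd a1
    have a5 : AnalyticAt ℝ (fun z : (ℝ × ℝ) × ℝ => η z.1) ((t₀, (q t₀).1), (q t₀).2.2) :=
      AnalyticAt.fun_comp (g := η) hη a1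
    have a6 : AnalyticAt ℝ (fun z : (ℝ × ℝ) × ℝ => L (z.1.1, z.1.2, η z.1)) ((t₀, (q t₀).1), (q t₀).2.2) := by
      refine AnalyticAt.fun_comp (g := L) (f := fun z : (ℝ × ℝ) × ℝ => ((z.1.1, z.1.2, η z.1) : ℝ × ℝ × ℝ)) ?_
        (a3.prod (a4.prod a5))
      show AnalyticAt ℝ L (t₀, (q t₀).1, η (t₀, (q t₀).1))
      rw [← h10]
      exact La hts hT
    have a7 : AnalyticAt ℝ (fun z : (ℝ × ℝ) × ℝ => B (z.1.1, z.1.2, η z.1, z.2))
        ((t₀, (q t₀).1), (q t₀).2.2) := by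
      refine AnalyticAt.fun_comp (g := B) (f := fun z : (ℝ × ℝ) × ℝ => ((z.1.1, z.1.2, η z.1, z.2) : ℝ × V3)) ?_
        (a3.prod (a4.prod (a5.prod a2)))
      show AnalyticAt ℝ B (t₀, (q t₀).1, η (t₀, (q t₀).1), (q t₀).2.2)
      rw [← h10]
      exact Ba hts hT
    exact a7.sub (an_fd a1 hη a6)
  have h0 : ∀ᶠ t in 𝓝 t₀, t ∈ C → (fun z : (ℝ × ℝ) × ℝ =>
      B (z.1.1, z.1.2, η z.1, z.2) - fderiv ℝ η z.1 (1, L (z.1.1, z.1.2, η z.1)))
      ((t, (q t).1), (q t).2.2) = 0 := by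
    filter_upwards [hall] with t ht htC
    obtain ⟨g1, g2, g3⟩ := ht
    have g4 := sY_zero h htC g1 g2 g3
    have g5 := g3.self_of_nhds htC
    show B (t, (q t).1, η (t, (q t).1), (q t).2.2) -
      fderiv ℝ η (t, (q t).1) (1, L (t, (q t).1, η (t, (q t).1))) = 0
    rw [← g5]
    exact g4
  rcases zx h hC hT ha h0 hε with hz | ⟨t₁, ht₁C, ht₁, ht₁T, ξ, hξ, hx⟩
  · exact (inv_false h hC hT hη h10 hz).elim
  · obtain ⟨g1, g2, g3⟩ := hball (y := t₁) (by rw [Real.dist_eq]; exact ht₁)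
    refine ⟨η, ξ, t₁, ht₁C, ht₁T, g2, hξ, ?_⟩
    filter_upwards [g3, hx] with t h3 h4 htC
    exact ⟨h3 htC, h4 htC⟩

end Pool.Agent.Lib.MP_28b8de_an.TT
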