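import Pool.Agent.Lib.MP_28b8de_an.T.TYk
import Pool.Agent.Lib.MP_28b8de_an.T.TLcS
import Pool.Agent.Lib.MP_28b8de_an.T.TOrd

/-!
MP_28b8de_an, module TYpt.

Good points for the case y = η(t,z), x = ξ(t,z) on C.
PROOFS.  Choose in every step t₁ ∈ C so close to the previous point that the earlier conditions persist (atY_ev, continuity).
y'-bound used below: y' t = βY ((t,z),sY,sX) (psY_q), βY (v,0,0) = 0 near (kY1), βY analytic, so |y'| ≤ K(|X| + |Y|) near t₀ (an_lip).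
step G: suppose G (t,q t) = 0 for all t ∈ C near t₀ (t₀ with AtY).  Then G (psY η ξ (v,0,0)) = 0 for v near w t₀ (gen2), αY(v,0,0) = 0 near (kY2 and gen2).  lcY, lc_zero: sX = sY = 0 near t₀, odeY: contradiction.
So there is t₁ ∈ C close to t₀ with G (t₁,q t₁) ≠ 0.
step unsaturated: at t₁ (G ≠ 0) suppose |αY| = |G| at ((t,z),0,0) for all t ∈ C near t₁ (≤ holds by kY2).  αY² - G² = 0 near w t₁ (gen2), so αY/G = ±1 near, of constant sign (continuity at w t₁): αY = -ν G near.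
lc_sat: X = Y = 0 on [s,s'] for s < s' in C near t₁; three_points: s < t₂ < s' in C near t₁; y = η(t,z) near t₂: odeY at t₂: contradiction.
So there is t₂ ∈ C close to t₁ with |αY| < |G| there.
step order: f := fX (fun z => B (psY η ξ z)), analytic at (w t₂, 0).  If f = 0 near (w t₂,0): B(v,η,X') - B(v,η,ξ v) = 0 for X' near x t₂ = ξ(w t₂), and B(v,η,ξ v) = fderiv η v (1,L(v,η)) by kY1: inv_false.  So `order` (with gen2) gives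
t₃ ∈ C close to t₂ and m; m ≥ 1 since f (v,0) = 0.
ptY_ev: all conditions are open along C (eventually_eventually_nhds for ord; continuity of cf for ne).
ptY_y: |y' - (BY(w,Y,X) - BY(w,0,0)) + η'(LY(w,Y) - LY(w,0))| = 0 near t₀ since βY (v,0,0) = 0 near: βY(w,Y,X) = βY(w,Y,X) - βY(w,0,0), and fderiv η w (1,l) - fderiv η w (1,l₀) = fderiv η w (0,1) (l - l₀).
-/

set_option linter.unusedSectionVars false

namespace Pool.Agent.Lib.MP_28b8de_an.TT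

open Filter Topology Set MeasureTheory
open Pool.Agent.Lib.MP_28b8de_an.PT (Adm Perf gron gron_back volterra kder ae_zero perf_inner stay)

variable {L : ℝ × ℝ × ℝ → ℝ} {B F G : ℝ × V3 → ℝ} {R M T : ℝ} {u : ℝ → ℝ} {q : ℝ → V3}
  {p : ℝ → V3 →L[ℝ] ℝ} {C : Set ℝ}


/-- `B` near the surface -/
def BY (B : ℝ × V3 → ℝ) (η ξ : ℝ × ℝ → ℝ) (z : (ℝ × ℝ) × ℝ × ℝ) : ℝ := B (psY η ξ z)

/-- a good point of `C`: `m` is the order of `B` -/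
structure PtY (L : ℝ × ℝ × ℝ → ℝ) (B F G : ℝ × V3 → ℝ) (T : ℝ) (q : ℝ → V3) (C : Set ℝ)
    (η ξ : ℝ × ℝ → ℝ) (m : ℕ) (t₀ : ℝ) : Prop where
  aty : AtY T q C η ξ t₀
  g0 : G (t₀, q t₀) ≠ 0
  uns : |αY L F η ξ ((t₀, (q t₀).1), 0, 0)| < |G (t₀, q t₀)|
  m1 : 1 ≤ m
  ord : ∀ j < m, ∀ᶠ v in 𝓝 ((t₀, (q t₀).1) : ℝ × ℝ), Dn^[j] (fX (BY B η ξ)) (v, 0) = 0
  ne : Dn^[m] (fX (BY B η ξ)) ((t₀, (q t₀).1), 0) ≠ 0

private theorem TYpt_cw (h : TS L B F G R M T u q) {t : ℝ} (ht : t ∈ Ioo 0 T) :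
    ContinuousAt (fun t => ((t, (q t).1) : ℝ × ℝ)) t :=
  continuousAt_id.prodMk (ts_cont h ht).fst

private theorem TYpt_ps {η ξ : ℝ × ℝ → ℝ} {z : (ℝ × ℝ) × ℝ × ℝ} (hη : AnalyticAt ℝ η z.1)
    (hξ : AnalyticAt ℝ ξ z.1) : AnalyticAt ℝ (psY η ξ) z := by
  have h1 : AnalyticAt ℝ (fun v : (ℝ × ℝ) × ℝ × ℝ => v.1) z := analyticAt_fst
  have h2 : AnalyticAt ℝ (fun v : (ℝ × ℝ) × ℝ × ℝ => v.2) z := analyticAt_snd
  have h11 : AnalyticAt ℝ (fun v : (ℝ × ℝ) × ℝ × ℝ => v.1.1) z :=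
    AnalyticAt.fun_comp (g := fun r : ℝ × ℝ => r.1) analyticAt_fst h1
  have h12 : AnalyticAt ℝ (fun v : (ℝ × ℝ) × ℝ × ℝ => v.1.2) z :=
    AnalyticAt.fun_comp (g := fun r : ℝ × ℝ => r.2) analyticAt_snd h1
  have h21 : AnalyticAt ℝ (fun v : (ℝ × ℝ) × ℝ × ℝ => v.2.1) z :=
    AnalyticAt.fun_comp (g := fun r : ℝ × ℝ => r.1) analyticAt_fst h2
  have h22 : AnalyticAt ℝ (fun v : (ℝ × ℝ) × ℝ × ℝ => v.2.2) z :=
    AnalyticAt.fun_comp (g := fun r : ℝ × ℝ => r.2) analyticAt_snd h2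
  have h3 : AnalyticAt ℝ (fun v : (ℝ × ℝ) × ℝ × ℝ => η v.1) z :=
    AnalyticAt.fun_comp (g := η) hη h1
  have h4 : AnalyticAt ℝ (fun v : (ℝ × ℝ) × ℝ × ℝ => ξ v.1) z :=
    AnalyticAt.fun_comp (g := ξ) hξ h1
  exact h11.prod (h12.prod ((h3.add h21).prod (h4.add h22)))

private theorem TYpt_lY {η : ℝ × ℝ → ℝ} {z : (ℝ × ℝ) × ℝ} (hη : AnalyticAt ℝ η z.1) :
    AnalyticAt ℝ (fun v : (ℝ × ℝ) × ℝ => ((v.1.1, v.1.2, η v.1 + v.2) : ℝ × ℝ × ℝ)) z := by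
  have h1 : AnalyticAt ℝ (fun v : (ℝ × ℝ) × ℝ => v.1) z := analyticAt_fst
  have h2 : AnalyticAt ℝ (fun v : (ℝ × ℝ) × ℝ => v.2) z := analyticAt_snd
  have h11 : AnalyticAt ℝ (fun v : (ℝ × ℝ) × ℝ => v.1.1) z :=
    AnalyticAt.fun_comp (g := fun r : ℝ × ℝ => r.1) analyticAt_fst h1
  have h12 : AnalyticAt ℝ (fun v : (ℝ × ℝ) × ℝ => v.1.2) z :=
    AnalyticAt.fun_comp (g := fun r : ℝ × ℝ => r.2) analyticAt_snd h1
  have h3 : AnalyticAt ℝ (fun v : (ℝ × ℝ) × ℝ => η v.1) z :=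
    AnalyticAt.fun_comp (g := η) hη h1
  exact h11.prod (h12.prod (h3.add h2))

/-- at the points of `C` the surface coordinates are the trajectory -/
private theorem TYpt_ps0 {η ξ : ℝ × ℝ → ℝ} {t₀ : ℝ} (hA : AtY T q C η ξ t₀) :
    psY η ξ ((t₀, (q t₀).1), 0, 0) = (t₀, q t₀) := by
  have h50 := hA.2.2.2.2.self_of_nhds hA.1
  simp only [psY, add_zero]
  rw [← h50.1, ← h50.2]

private theorem TYpt_emb {f : (ℝ × ℝ) × ℝ × ℝ → ℝ} {v₀ : ℝ × ℝ} (hf : AnalyticAt ℝ f (v₀, 0, 0)) :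
    AnalyticAt ℝ (fun v : ℝ × ℝ => f (v, 0, 0)) v₀ := by
  have h1 : AnalyticAt ℝ (fun v : ℝ × ℝ => ((v, 0, 0) : (ℝ × ℝ) × ℝ × ℝ)) v₀ :=
    analyticAt_id.prod analyticAt_const
  exact AnalyticAt.comp (g := f) (f := fun v : ℝ × ℝ => ((v, 0, 0) : (ℝ × ℝ) × ℝ × ℝ)) hf h1

private theorem TYpt_cont (h : TS L B F G R M T u q) {t₀ : ℝ} (ht : t₀ ∈ Ioo 0 T)
    {f : ℝ × ℝ → ℝ} (hf : AnalyticAt ℝ f (t₀, (q t₀).1)) :
    ContinuousAt (fun t => f (t, (q t).1)) t₀ :=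
  ContinuousAt.comp (g := f) (f := fun t => ((t, (q t).1) : ℝ × ℝ)) hf.continuousAt (TYpt_cw h ht)

theorem ptY_an (h : TS L B F G R M T u q) {η ξ : ℝ × ℝ → ℝ} {t₀ : ℝ} (hA : AtY T q C η ξ t₀) :
    AnalyticAt ℝ (BY B η ξ) ((t₀, (q t₀).1), 0, 0) ∧ AnalyticAt ℝ (lY L η) ((t₀, (q t₀).1), 0) := by
  have hb := ts_ball h (Ioo_subset_Icc_self hA.2.1)
  have h50 := hA.2.2.2.2.self_of_nhds hA.1
  constructor
  · refine AnalyticAt.comp (g := B) (f := psY η ξ) ?_ (TYpt_ps hA.2.2.1 hA.2.2.2.1)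
    rw [TYpt_ps0 hA]
    exact h.Ba _ hb.1
  · refine AnalyticAt.comp (g := L)
      (f := fun v : (ℝ × ℝ) × ℝ => ((v.1.1, v.1.2, η v.1 + v.2) : ℝ × ℝ × ℝ)) ?_
      (TYpt_lY (z := ((t₀, (q t₀).1), 0)) hA.2.2.1)
    show AnalyticAt ℝ L (t₀, (q t₀).1, η (t₀, (q t₀).1) + 0)
    rw [add_zero, ← h50.1]
    exact h.La _ hb.2

theorem ptY_y (h : Sit L B F G R M T u q p C) {η ξ : ℝ × ℝ → ℝ} {t₀ : ℝ}
    (hA : AtY T q C η ξ t₀) :
    ∀ᶠ t in 𝓝 t₀, B (t, q t) - fderiv ℝ η (t, (q t).1) (1, L (t, (q t).1, (q t).2.1))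
      = (BY B η ξ ((t, (q t).1), sY η q t, sX ξ q t) - BY B η ξ ((t, (q t).1), 0, 0))
        - fderiv ℝ η (t, (q t).1) (0, 1)
          * (lY L η ((t, (q t).1), sY η q t) - lY L η ((t, (q t).1), 0)) := by
  filter_upwards [(TYpt_cw h.ts hA.2.1).eventually (kY1 h hA)] with t ht
  have h1 : BY B η ξ ((t, (q t).1), sY η q t, sX ξ q t) = B (t, q t) := by
    unfold BY
    rw [psY_q]
  have h2 : lY L η ((t, (q t).1), sY η q t) = L (t, (q t).1, (q t).2.1) := by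
    simp [lY, sY]
  have h3 : BY B η ξ ((t, (q t).1), 0, 0) =
      fderiv ℝ η (t, (q t).1) (1, lY L η ((t, (q t).1), 0)) := by
    have h4 := sub_eq_zero.1 ht
    exact h4
  have h5 : ∀ l : ℝ, fderiv ℝ η (t, (q t).1) (1, l) =
      fderiv ℝ η (t, (q t).1) (1, 0) + l * fderiv ℝ η (t, (q t).1) (0, 1) := by
    intro l
    have h6 : ((1, l) : ℝ × ℝ) = (1, 0) + l • ((0, 1) : ℝ × ℝ) := by simp
    rw [h6, map_add, map_smul, smul_eq_mul]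
  rw [h1, h2, h3, h5 (L (t, (q t).1, (q t).2.1)), h5 (lY L η ((t, (q t).1), 0))]
  ring

/-- derivatives along the trajectory in the surface coordinates -/
theorem ptY_d (h : TS L B F G R M T u q) {η ξ : ℝ × ℝ → ℝ} {t₀ : ℝ} (hA : AtY T q C η ξ t₀) :
    ∀ᶠ t in 𝓝 t₀,
      fderiv ℝ (BY B η ξ) ((t, (q t).1), sY η q t, sX ξ q t) (0, 0, 1) = px B (t, q t) ∧
      fderiv ℝ (lY L η) ((t, (q t).1), sY η q t) (0, 1) = ly L (t, (q t).1, (q t).2.1) := by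
  have e1 : ∀ᶠ t in 𝓝 t₀, AnalyticAt ℝ η (t, (q t).1) :=
    (TYpt_cw h hA.2.1).eventually hA.2.2.1.eventually_analyticAt
  have e2 : ∀ᶠ t in 𝓝 t₀, AnalyticAt ℝ ξ (t, (q t).1) :=
    (TYpt_cw h hA.2.1).eventually hA.2.2.2.1.eventually_analyticAt
  filter_upwards [e1, e2] with t hη hξ
  constructor
  · have hps : AnalyticAt ℝ (psY η ξ) ((t, (q t).1), sY η q t, sX ξ q t) := TYpt_ps hη hξ
    have hB : DifferentiableAt ℝ B (psY η ξ ((t, (q t).1), sY η q t, sX ξ q t)) :=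
      ((ts_diff h).2.1.differentiable (by simp)) _
    have hBY : DifferentiableAt ℝ (BY B η ξ) ((t, (q t).1), sY η q t, sX ξ q t) :=
      DifferentiableAt.comp (g := B) (f := psY η ξ) _ hB hps.differentiableAt
    have h1 : HasDerivAt (fun s : ℝ => (((t, (q t).1), sY η q t, s) : (ℝ × ℝ) × ℝ × ℝ))
        (((0, 0), 0, 1) : (ℝ × ℝ) × ℝ × ℝ) (sX ξ q t) :=
      (hasDerivAt_const (sX ξ q t) ((t, (q t).1) : ℝ × ℝ)).prodMk
        ((hasDerivAt_const (sX ξ q t) (sY η q t)).prodMk (hasDerivAt_id (sX ξ q t)))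
    have h2 : HasDerivAt (fun s : ℝ => BY B η ξ ((t, (q t).1), sY η q t, s))
        (fderiv ℝ (BY B η ξ) ((t, (q t).1), sY η q t, sX ξ q t) (((0, 0), 0, 1) : (ℝ × ℝ) × ℝ × ℝ))
        (sX ξ q t) := by
      have hBY' : HasFDerivAt (BY B η ξ)
          (fderiv ℝ (BY B η ξ) ((t, (q t).1), sY η q t, sX ξ q t))
          ((fun s : ℝ => (((t, (q t).1), sY η q t, s) : (ℝ × ℝ) × ℝ × ℝ)) (sX ξ q t)) :=
        hBY.hasFDerivAt
      exact hBY'.comp_hasDerivAt (sX ξ q t) h1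
    have hB' : DifferentiableAt ℝ B ((t, (q t).1, (q t).2.1, ξ (t, (q t).1) + sX ξ q t) : ℝ × V3) :=
      ((ts_diff h).2.1.differentiable (by simp)) _
    have h3 : HasDerivAt
        (fun s : ℝ => ((t, (q t).1, (q t).2.1, ξ (t, (q t).1) + s) : ℝ × V3))
        ((0, 0, 0, 1) : ℝ × V3) (sX ξ q t) :=
      (hasDerivAt_const (sX ξ q t) t).prodMk ((hasDerivAt_const (sX ξ q t) (q t).1).prodMk
        ((hasDerivAt_const (sX ξ q t) (q t).2.1).prodMk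
          ((hasDerivAt_id (sX ξ q t)).const_add (ξ (t, (q t).1)))))
    have h4 : HasDerivAt
        (fun s : ℝ => B ((t, (q t).1, (q t).2.1, ξ (t, (q t).1) + s) : ℝ × V3))
        (fderiv ℝ B ((t, (q t).1, (q t).2.1, ξ (t, (q t).1) + sX ξ q t) : ℝ × V3)
          ((0, 0, 0, 1) : ℝ × V3)) (sX ξ q t) := hB'.hasFDerivAt.comp_hasDerivAt (sX ξ q t) h3
    have h5 : (fun s : ℝ => BY B η ξ ((t, (q t).1), sY η q t, s)) =
        fun s : ℝ => B ((t, (q t).1, (q t).2.1, ξ (t, (q t).1) + s) : ℝ × V3) := by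
      funext s
      simp [BY, psY, sY]
    rw [h5] at h2
    have h6 := h2.unique h4
    have h7 : ((t, (q t).1, (q t).2.1, ξ (t, (q t).1) + sX ξ q t) : ℝ × V3) = (t, q t) := by
      simp [sX]
    rw [h7] at h6
    exact h6
  · have hps := TYpt_lY (z := ((t, (q t).1), sY η q t)) hη
    have hL : DifferentiableAt ℝ L
        ((fun v : (ℝ × ℝ) × ℝ => ((v.1.1, v.1.2, η v.1 + v.2) : ℝ × ℝ × ℝ))
          ((t, (q t).1), sY η q t)) :=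
      ((ts_diff h).1.differentiable (by simp)) _
    have hBY : DifferentiableAt ℝ (lY L η) ((t, (q t).1), sY η q t) :=
      DifferentiableAt.comp (g := L)
        (f := fun v : (ℝ × ℝ) × ℝ => ((v.1.1, v.1.2, η v.1 + v.2) : ℝ × ℝ × ℝ)) _ hL
        hps.differentiableAt
    have h1 : HasDerivAt (fun s : ℝ => (((t, (q t).1), s) : (ℝ × ℝ) × ℝ))
        (((0, 0), 1) : (ℝ × ℝ) × ℝ) (sY η q t) :=
      (hasDerivAt_const (sY η q t) ((t, (q t).1) : ℝ × ℝ)).prodMk (hasDerivAt_id (sY η q t))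
    have h2 : HasDerivAt (fun s : ℝ => lY L η ((t, (q t).1), s))
        (fderiv ℝ (lY L η) ((t, (q t).1), sY η q t) (((0, 0), 1) : (ℝ × ℝ) × ℝ))
        (sY η q t) := hBY.hasFDerivAt.comp_hasDerivAt (sY η q t) h1
    have hL' : DifferentiableAt ℝ L ((t, (q t).1, η (t, (q t).1) + sY η q t) : ℝ × ℝ × ℝ) :=
      ((ts_diff h).1.differentiable (by simp)) _
    have h3 : HasDerivAt
        (fun s : ℝ => ((t, (q t).1, η (t, (q t).1) + s) : ℝ × ℝ × ℝ))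
        ((0, 0, 1) : ℝ × ℝ × ℝ) (sY η q t) :=
      (hasDerivAt_const (sY η q t) t).prodMk ((hasDerivAt_const (sY η q t) (q t).1).prodMk
          ((hasDerivAt_id (sY η q t)).const_add (η (t, (q t).1))))
    have h4 : HasDerivAt
        (fun s : ℝ => L ((t, (q t).1, η (t, (q t).1) + s) : ℝ × ℝ × ℝ))
        (fderiv ℝ L ((t, (q t).1, η (t, (q t).1) + sY η q t) : ℝ × ℝ × ℝ)
          ((0, 0, 1) : ℝ × ℝ × ℝ)) (sY η q t) := hL'.hasFDerivAt.comp_hasDerivAt (sY η q t) h3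
    have h6 := h2.unique h4
    have h7 : ((t, (q t).1, η (t, (q t).1) + sY η q t) : ℝ × ℝ × ℝ) =
        (t, (q t).1, (q t).2.1) := by
      simp [sY]
    rw [h7] at h6
    exact h6

/-- the derivative of `Y` is bounded by the distance to the surface -/
private theorem TYpt_yb (h : Sit L B F G R M T u q p C) {η ξ : ℝ × ℝ → ℝ} {t₀ : ℝ}
    (hA : AtY T q C η ξ t₀) : ∃ K' : ℝ, ∀ᶠ t in 𝓝 t₀,
      |B (t, q t) - fderiv ℝ η (t, (q t).1) (1, L (t, (q t).1, (q t).2.1))| ≤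
        K' * (|sX ξ q t| + |sY η q t|) := by
  have h50 := hA.2.2.2.2.self_of_nhds hA.1
  obtain ⟨K₁, hK₁, ρ₁, hρ₁, hB⟩ := an_lip (ptY_an h.ts hA).1
  obtain ⟨K₂, hK₂, ρ₂, hρ₂, hL⟩ := an_lip (ptY_an h.ts hA).2
  have cw := TYpt_cw h.ts hA.2.1
  have hX0 : sX ξ q t₀ = 0 := sub_eq_zero.2 h50.2
  have hY0 : sY η q t₀ = 0 := sub_eq_zero.2 h50.1
  have cX : ContinuousAt (sX ξ q) t₀ :=
    (ts_cont h.ts hA.2.1).snd.snd.sub (TYpt_cont h.ts hA.2.1 hA.2.2.2.1)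
  have cY : ContinuousAt (sY η q) t₀ :=
    (ts_cont h.ts hA.2.1).snd.fst.sub (TYpt_cont h.ts hA.2.1 hA.2.2.1)
  have e1 : ∀ᶠ t in 𝓝 t₀, (((t, (q t).1), sY η q t, sX ξ q t) : (ℝ × ℝ) × ℝ × ℝ) ∈
      Metric.ball (((t₀, (q t₀).1), 0, 0) : (ℝ × ℝ) × ℝ × ℝ) ρ₁ := by
    have h1 : ContinuousAt (fun t => (((t, (q t).1), sY η q t, sX ξ q t) : (ℝ × ℝ) × ℝ × ℝ)) t₀ :=
      cw.prodMk (cY.prodMk cX)
    exact h1.eventually_mem
      (s := Metric.ball (((t₀, (q t₀).1), 0, 0) : (ℝ × ℝ) × ℝ × ℝ) ρ₁) (by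
      rw [hX0, hY0]
      exact Metric.ball_mem_nhds _ hρ₁)
  have e2 : ∀ᶠ t in 𝓝 t₀, (((t, (q t).1), 0, 0) : (ℝ × ℝ) × ℝ × ℝ) ∈
      Metric.ball (((t₀, (q t₀).1), 0, 0) : (ℝ × ℝ) × ℝ × ℝ) ρ₁ := by
    have h1 : ContinuousAt (fun t => (((t, (q t).1), 0, 0) : (ℝ × ℝ) × ℝ × ℝ)) t₀ :=
      cw.prodMk continuousAt_const
    exact h1.eventually_mem (Metric.ball_mem_nhds _ hρ₁)
  have e3 : ∀ᶠ t in 𝓝 t₀, (((t, (q t).1), sY η q t) : (ℝ × ℝ) × ℝ) ∈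
      Metric.ball (((t₀, (q t₀).1), 0) : (ℝ × ℝ) × ℝ) ρ₂ := by
    have h1 : ContinuousAt (fun t => (((t, (q t).1), sY η q t) : (ℝ × ℝ) × ℝ)) t₀ :=
      cw.prodMk cY
    exact h1.eventually_mem
      (s := Metric.ball (((t₀, (q t₀).1), 0) : (ℝ × ℝ) × ℝ) ρ₂) (by
      rw [hY0]
      exact Metric.ball_mem_nhds _ hρ₂)
  have e4 : ∀ᶠ t in 𝓝 t₀, (((t, (q t).1), 0) : (ℝ × ℝ) × ℝ) ∈
      Metric.ball (((t₀, (q t₀).1), 0) : (ℝ × ℝ) × ℝ) ρ₂ := by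
    have h1 : ContinuousAt (fun t => (((t, (q t).1), 0) : (ℝ × ℝ) × ℝ)) t₀ :=
      cw.prodMk continuousAt_const
    exact h1.eventually_mem (Metric.ball_mem_nhds _ hρ₂)
  have cf' : ContinuousAt (fun t => fderiv ℝ η (t, (q t).1) (0, 1)) t₀ := by
    have h1 : ContinuousAt (fderiv ℝ η) ((t₀, (q t₀).1) : ℝ × ℝ) := hA.2.2.1.fderiv.continuousAt
    have h2 : ContinuousAt (fun t => fderiv ℝ η (t, (q t).1)) t₀ :=
      ContinuousAt.comp (f := fun t => ((t, (q t).1) : ℝ × ℝ)) (g := fderiv ℝ η) h1 cw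
    exact h2.clm_apply continuousAt_const
  obtain ⟨D, hD⟩ : ∃ D, D = |fderiv ℝ η (t₀, (q t₀).1) (0, 1)| + 1 := ⟨_, rfl⟩
  have hD0 : 0 ≤ D := by rw [hD]; positivity
  have e5 : ∀ᶠ t in 𝓝 t₀, |fderiv ℝ η (t, (q t).1) (0, 1)| < D := by
    refine (cf'.abs).eventually (eventually_lt_nhds ?_)
    rw [hD]
    exact lt_add_one _
  refine ⟨K₁ + D * K₂, ?_⟩
  filter_upwards [ptY_y h hA, e1, e2, e3, e4, e5] with t h1 g1 g2 g3 g4 g5
  rw [h1]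
  have k1 := hB _ g1 _ g2
  have k2 := hL _ g3 _ g4
  have n1 : ‖(((t, (q t).1), sY η q t, sX ξ q t) : (ℝ × ℝ) × ℝ × ℝ) - ((t, (q t).1), 0, 0)‖ ≤
      |sX ξ q t| + |sY η q t| := by
    simp only [Prod.mk_sub_mk, sub_self, sub_zero, Prod.norm_mk, norm_zero, Real.norm_eq_abs]
    refine max_le (by positivity) (max_le ?_ ?_)
    · linarith [abs_nonneg (sX ξ q t)]
    · linarith [abs_nonneg (sY η q t)]
  have n2 : ‖(((t, (q t).1), sY η q t) : (ℝ × ℝ) × ℝ) - ((t, (q t).1), 0)‖ ≤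
      |sX ξ q t| + |sY η q t| := by
    rw [Prod.mk_sub_mk, sub_self, sub_zero, Prod.norm_mk, norm_zero, Real.norm_eq_abs]
    refine max_le (by positivity) ?_
    linarith [abs_nonneg (sX ξ q t)]
  have m1 : |BY B η ξ ((t, (q t).1), sY η q t, sX ξ q t) - BY B η ξ ((t, (q t).1), 0, 0)| ≤
      K₁ * (|sX ξ q t| + |sY η q t|) := by
    rw [← Real.norm_eq_abs]
    exact k1.trans (mul_le_mul_of_nonneg_left n1 hK₁)
  have m2 : |lY L η ((t, (q t).1), sY η q t) - lY L η ((t, (q t).1), 0)| ≤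
      K₂ * (|sX ξ q t| + |sY η q t|) := by
    rw [← Real.norm_eq_abs]
    exact k2.trans (mul_le_mul_of_nonneg_left n2 hK₂)
  have m3 : |fderiv ℝ η (t, (q t).1) (0, 1) *
      (lY L η ((t, (q t).1), sY η q t) - lY L η ((t, (q t).1), 0))| ≤
      D * (K₂ * (|sX ξ q t| + |sY η q t|)) := by
    rw [abs_mul]
    exact mul_le_mul g5.le m2 (abs_nonneg _) hD0
  refine (abs_sub _ _).trans ((add_le_add m1 m3).trans (le_of_eq ?_))
  ring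

/-- `G` does not vanish at all points of `C` near `t₀` -/
private theorem TYpt_G (h : Sit L B F G R M T u q p C) {η ξ : ℝ × ℝ → ℝ} {t₀ : ℝ}
    (hA : AtY T q C η ξ t₀) (hG : ∀ᶠ t in 𝓝 t₀, t ∈ C → G (t, q t) = 0) : False := by
  obtain ⟨h1, h2, h3, h4, h5⟩ := id hA
  have h50 := h5.self_of_nhds h1
  obtain ⟨K, a, b, hab, -, hlc, hlp⟩ := lcY h.ts h2 h3 h4 h50.1 h50.2
  have hgz : ∀ᶠ v in 𝓝 ((t₀, (q t₀).1) : ℝ × ℝ), G (psY η ξ (v, 0, 0)) = 0 := by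
    refine gen2 h h1 h2 (fun v => G (psY η ξ (v, 0, 0))) (TYpt_emb hlp.ga) ?_
    filter_upwards [hG, atY_ev h.ts hA] with t g1 g2 htC
    show G (psY η ξ ((t, (q t).1), 0, 0)) = 0
    rw [TYpt_ps0 (g2 htC)]
    exact g1 htC
  have hαz : ∀ᶠ v in 𝓝 ((t₀, (q t₀).1) : ℝ × ℝ), αY L F η ξ (v, 0, 0) = 0 := by
    refine gen2 h h1 h2 (fun v => αY L F η ξ (v, 0, 0)) (TYpt_emb hlp.αa) ?_
    filter_upwards [hG, kY2 h hA] with t g1 g2 htC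
    have g3 := g2 htC
    rw [g1 htC, abs_zero] at g3
    exact abs_nonpos_iff.1 g3
  obtain ⟨K', hK'⟩ := TYpt_yb h hA
  have hz := lc_zero hlc hlp hαz hgz hK'
  exact odeY h h1 h2 h3 (hz.mono fun t ht => sub_eq_zero.1 ht.2)

/-- the surface is not saturated at all points of `C` near `t₀` -/
private theorem TYpt_uns (h : Sit L B F G R M T u q p C) {η ξ : ℝ × ℝ → ℝ} {t₀ : ℝ}
    (hA : AtY T q C η ξ t₀) (hg0 : G (t₀, q t₀) ≠ 0)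
    (hs : ∀ᶠ t in 𝓝 t₀, t ∈ C → |αY L F η ξ ((t, (q t).1), 0, 0)| = |G (t, q t)|) : False := by
  obtain ⟨h1, h2, h3, h4, h5⟩ := id hA
  have h50 := h5.self_of_nhds h1
  obtain ⟨K, a, b, hab, -, hlc, hlp⟩ := lcY h.ts h2 h3 h4 h50.1 h50.2
  have aα := TYpt_emb hlp.αa
  have ag := TYpt_emb hlp.ga
  have hsq : ∀ᶠ v in 𝓝 ((t₀, (q t₀).1) : ℝ × ℝ),
      αY L F η ξ (v, 0, 0) ^ 2 - G (psY η ξ (v, 0, 0)) ^ 2 = 0 := by
    refine gen2 h h1 h2 (fun v => αY L F η ξ (v, 0, 0) ^ 2 - G (psY η ξ (v, 0, 0)) ^ 2)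
      ((aα.pow 2).sub (ag.pow 2)) ?_
    filter_upwards [hs, atY_ev h.ts hA] with t g1 g2 htC
    show αY L F η ξ ((t, (q t).1), 0, 0) ^ 2 - G (psY η ξ ((t, (q t).1), 0, 0)) ^ 2 = 0
    rw [TYpt_ps0 (g2 htC)]
    have g3 := g1 htC
    have g4 : αY L F η ξ ((t, (q t).1), 0, 0) ^ 2 = G (t, q t) ^ 2 := by
      rw [← sq_abs, g3, sq_abs]
    rw [g4, sub_self]
  have hg1 : G (psY η ξ ((t₀, (q t₀).1), 0, 0)) ≠ 0 := by
    rw [TYpt_ps0 hA]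
    exact hg0
  obtain ⟨ν, hν, hsat⟩ : ∃ ν : ℝ, (ν = 1 ∨ ν = -1) ∧
      ∀ᶠ v in 𝓝 ((t₀, (q t₀).1) : ℝ × ℝ),
        αY L F η ξ (v, 0, 0) = -(ν * G (psY η ξ (v, 0, 0))) := by
    have h6 := hsq.self_of_nhds
    have h7 : (αY L F η ξ ((t₀, (q t₀).1), 0, 0) - G (psY η ξ ((t₀, (q t₀).1), 0, 0))) *
        (αY L F η ξ ((t₀, (q t₀).1), 0, 0) + G (psY η ξ ((t₀, (q t₀).1), 0, 0))) = 0 := by
      linear_combination h6
    rcases mul_eq_zero.1 h7 with h8 | h8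
    · refine ⟨-1, Or.inr rfl, ?_⟩
      have h9 : αY L F η ξ ((t₀, (q t₀).1), 0, 0) + G (psY η ξ ((t₀, (q t₀).1), 0, 0)) ≠ 0 := by
        have : αY L F η ξ ((t₀, (q t₀).1), 0, 0) + G (psY η ξ ((t₀, (q t₀).1), 0, 0)) =
          2 * G (psY η ξ ((t₀, (q t₀).1), 0, 0)) := by linear_combination h8
        rw [this]
        exact mul_ne_zero two_ne_zero hg1
      have h10 : ∀ᶠ v in 𝓝 ((t₀, (q t₀).1) : ℝ × ℝ),
          αY L F η ξ (v, 0, 0) + G (psY η ξ (v, 0, 0)) ≠ 0 :=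
        (aα.add ag).continuousAt.eventually_ne h9
      filter_upwards [hsq, h10] with v h11 h12
      have h13 : (αY L F η ξ (v, 0, 0) - G (psY η ξ (v, 0, 0))) *
          (αY L F η ξ (v, 0, 0) + G (psY η ξ (v, 0, 0))) = 0 := by linear_combination h11
      have h14 := (mul_eq_zero.1 h13).resolve_right h12
      linear_combination h14
    · refine ⟨1, Or.inl rfl, ?_⟩
      have h9 : αY L F η ξ ((t₀, (q t₀).1), 0, 0) - G (psY η ξ ((t₀, (q t₀).1), 0, 0)) ≠ 0 := by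
        have : αY L F η ξ ((t₀, (q t₀).1), 0, 0) - G (psY η ξ ((t₀, (q t₀).1), 0, 0)) =
          (-2) * G (psY η ξ ((t₀, (q t₀).1), 0, 0)) := by linear_combination h8
        rw [this]
        exact mul_ne_zero (by norm_num) hg1
      have h10 : ∀ᶠ v in 𝓝 ((t₀, (q t₀).1) : ℝ × ℝ),
          αY L F η ξ (v, 0, 0) - G (psY η ξ (v, 0, 0)) ≠ 0 :=
        (aα.sub ag).continuousAt.eventually_ne h9
      filter_upwards [hsq, h10] with v h11 h12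
      have h13 : (αY L F η ξ (v, 0, 0) - G (psY η ξ (v, 0, 0))) *
          (αY L F η ξ (v, 0, 0) + G (psY η ξ (v, 0, 0))) = 0 := by linear_combination h11
      have h14 := (mul_eq_zero.1 h13).resolve_left h12
      linear_combination h14
  obtain ⟨K', hK'⟩ := TYpt_yb h hA
  obtain ⟨δ, hδ, H⟩ := lc_sat hlc hlp hg1 hν hsat hK'
  obtain ⟨ε, hε, hev⟩ := Metric.eventually_nhds_iff.1 (atY_ev h.ts hA)
  obtain ⟨s, hsC, t₂, ht₂, s', hsC', i1, i2, i3, i4, i5⟩ :=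
    three_points h.perf h1 (lt_min hδ hε)
  have As : AtY T q C η ξ s := hev (by
    rw [Real.dist_eq]; exact i3.trans_le (min_le_right _ _)) hsC
  have At : AtY T q C η ξ t₂ := hev (by
    rw [Real.dist_eq]; exact i4.trans_le (min_le_right _ _)) ht₂
  have As' : AtY T q C η ξ s' := hev (by
    rw [Real.dist_eq]; exact i5.trans_le (min_le_right _ _)) hsC'
  have js := As.2.2.2.2.self_of_nhds As.1
  have js' := As'.2.2.2.2.self_of_nhds As'.1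
  have H1 := H s s' (i1.trans i2) (i3.trans_le (min_le_left _ _)) (i5.trans_le (min_le_left _ _))
    (sub_eq_zero.2 js.2) (sub_eq_zero.2 js.1) (sub_eq_zero.2 js'.2)
  refine odeY h ht₂ At.2.1 At.2.2.1 ?_
  filter_upwards [Ioo_mem_nhds i1 i2] with t ht
  exact sub_eq_zero.1 (H1 t ⟨ht.1.le, ht.2.le⟩).2

/-- `B` depends on `x` near the surface -/
private theorem TYpt_ne (h : Sit L B F G R M T u q p C) {η ξ : ℝ × ℝ → ℝ} {t₀ : ℝ}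
    (hA : AtY T q C η ξ t₀) :
    ¬ ∀ᶠ v in 𝓝 (((t₀, (q t₀).1), 0) : (ℝ × ℝ) × ℝ), fX (BY B η ξ) v = 0 := by
  intro hf
  obtain ⟨h1, h2, h3, h4, h5⟩ := id hA
  have h50 := h5.self_of_nhds h1
  refine inv_false h h1 h2 h3 h50.1 ?_
  have c1 : ContinuousAt (fun z : (ℝ × ℝ) × ℝ => ((z.1, z.2 - ξ z.1) : (ℝ × ℝ) × ℝ))
      ((t₀, (q t₀).1), (q t₀).2.2) := by
    have c2 : ContinuousAt (fun z : (ℝ × ℝ) × ℝ => ξ z.1) ((t₀, (q t₀).1), (q t₀).2.2) :=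
      ContinuousAt.comp (g := ξ) (f := fun z : (ℝ × ℝ) × ℝ => z.1) h4.continuousAt continuousAt_fst
    exact continuousAt_fst.prodMk (continuousAt_snd.sub c2)
  have e1 : ∀ᶠ z in 𝓝 (((t₀, (q t₀).1), (q t₀).2.2) : (ℝ × ℝ) × ℝ),
      fX (BY B η ξ) (z.1, z.2 - ξ z.1) = 0 := by
    have e0 : ∀ᶠ y in 𝓝 ((fun z : (ℝ × ℝ) × ℝ => ((z.1, z.2 - ξ z.1) : (ℝ × ℝ) × ℝ))
        ((t₀, (q t₀).1), (q t₀).2.2)), fX (BY B η ξ) y = 0 := by
      show ∀ᶠ y in 𝓝 (((t₀, (q t₀).1), (q t₀).2.2 - ξ (t₀, (q t₀).1)) : (ℝ × ℝ) × ℝ),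
        fX (BY B η ξ) y = 0
      rw [h50.2, sub_self]
      exact hf
    exact Tendsto.eventually c1 e0
  have e2 : ∀ᶠ z in 𝓝 (((t₀, (q t₀).1), (q t₀).2.2) : (ℝ × ℝ) × ℝ),
      βY L B η ξ (z.1, 0, 0) = 0 :=
    (continuousAt_fst (p := (((t₀, (q t₀).1), (q t₀).2.2) : (ℝ × ℝ) × ℝ))).eventually (kY1 h hA)
  filter_upwards [e1, e2] with z g1 g2
  have g3 : BY B η ξ (z.1, 0, z.2 - ξ z.1) = B (z.1.1, z.1.2, η z.1, z.2) := by
    simp [BY, psY]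
  have g4 : βY L B η ξ (z.1, 0, 0) = BY B η ξ (z.1, 0, 0) -
      fderiv ℝ η z.1 (1, L (z.1.1, z.1.2, η z.1)) := by
    simp [βY, BY, lY]
  have g5 : BY B η ξ (z.1, 0, z.2 - ξ z.1) = BY B η ξ (z.1, 0, 0) := sub_eq_zero.1 g1
  rw [g4] at g2
  rw [← g3, g5]
  exact g2

private theorem TYpt_open (h : Sit L B F G R M T u q p C) {η ξ : ℝ × ℝ → ℝ} {t₀ : ℝ}
    (hA : AtY T q C η ξ t₀) (hg0 : G (t₀, q t₀) ≠ 0)
    (hu : |αY L F η ξ ((t₀, (q t₀).1), 0, 0)| < |G (t₀, q t₀)|) :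
    ∀ᶠ t in 𝓝 t₀, G (t, q t) ≠ 0 ∧ |αY L F η ξ ((t, (q t).1), 0, 0)| < |G (t, q t)| := by
  obtain ⟨h1, h2, h3, h4, h5⟩ := id hA
  have h50 := h5.self_of_nhds h1
  obtain ⟨K, a, b, hab, -, hlc, hlp⟩ := lcY h.ts h2 h3 h4 h50.1 h50.2
  have c1 : ContinuousAt (fun t => αY L F η ξ ((t, (q t).1), 0, 0)) t₀ :=
    TYpt_cont h.ts h2 (f := fun v => αY L F η ξ (v, 0, 0)) (TYpt_emb hlp.αa)
  have c2 : ContinuousAt (fun t => G (t, q t)) t₀ :=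
    ContinuousAt.comp (g := G) (f := fun t => ((t, q t) : ℝ × V3))
      (ts_diff h.ts).2.2.2.continuous.continuousAt (continuousAt_id.prodMk (ts_cont h.ts h2))
  exact (c2.eventually_ne hg0).and (c1.abs.eventually_lt c2.abs hu)

theorem ptY_exists (h : Sit L B F G R M T u q p C) {η ξ : ℝ × ℝ → ℝ} {t₀ : ℝ}
    (hA : AtY T q C η ξ t₀) : ∃ m t₁, PtY L B F G T q C η ξ m t₁ := by
  -- a point with `G ≠ 0`
  obtain ⟨t₁, hA₁, hg₁⟩ : ∃ t₁, AtY T q C η ξ t₁ ∧ G (t₁, q t₁) ≠ 0 := by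
    have h1 : ∃ᶠ t in 𝓝 t₀, ¬ (t ∈ C → G (t, q t) = 0) := fun h2 =>
      TYpt_G h hA (h2.mono fun t ht => not_not.1 ht)
    obtain ⟨t₁, h2, h3⟩ := (h1.and_eventually (atY_ev h.ts hA)).exists
    push Not at h2
    exact ⟨t₁, h3 h2.1, h2.2⟩
  -- an unsaturated point
  obtain ⟨t₂, hA₂, hg₂, hu₂⟩ : ∃ t₂, AtY T q C η ξ t₂ ∧ G (t₂, q t₂) ≠ 0 ∧
      |αY L F η ξ ((t₂, (q t₂).1), 0, 0)| < |G (t₂, q t₂)| := by
    have h1 : ∃ᶠ t in 𝓝 t₁,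
        ¬ (t ∈ C → |αY L F η ξ ((t, (q t).1), 0, 0)| = |G (t, q t)|) := fun h2 =>
      TYpt_uns h hA₁ hg₁ (h2.mono fun t ht => not_not.1 ht)
    have c2 : ContinuousAt (fun t => G (t, q t)) t₁ :=
      ContinuousAt.comp (g := G) (f := fun t => ((t, q t) : ℝ × V3))
        (ts_diff h.ts).2.2.2.continuous.continuousAt
        (continuousAt_id.prodMk (ts_cont h.ts hA₁.2.1))
    obtain ⟨t₂, h2, h3, h4, h5⟩ := (h1.and_eventually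
      ((atY_ev h.ts hA₁).and ((kY2 h hA₁).and (c2.eventually_ne hg₁)))).exists
    push Not at h2
    exact ⟨t₂, h3 h2.1, h5, lt_of_le_of_ne (h4 h2.1) h2.2⟩
  -- the order
  obtain ⟨ε, hε, hev⟩ := Metric.eventually_nhds_iff.1
    ((atY_ev h.ts hA₂).and (TYpt_open h hA₂ hg₂ hu₂))
  have hT : ∀ᶠ t in 𝓝 t₂, t ∈ Ioo 0 T := Ioo_mem_nhds hA₂.2.1.1 hA₂.2.1.2
  obtain ⟨t₃, ht₃, hd, hf3, m, hm, hmn⟩ := order (w := fun t => ((t, (q t).1) : ℝ × ℝ)) hA₂.1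
    (hT.mono fun t ht => TYpt_cw h.ts ht) (hT.mono fun t ht htC => gen2 h htC ht)
    (f := fX (BY B η ξ)) (fX_an (ptY_an h.ts hA₂).1) (TYpt_ne h hA₂) hε
  obtain ⟨k1, k2, k3⟩ := hev (y := t₃) (by rw [Real.dist_eq]; exact hd)
  refine ⟨m, t₃, k1 ht₃, k2, k3, ?_, hm, hmn⟩
  rcases Nat.eq_zero_or_pos m with h0 | h0
  · exfalso
    apply hmn
    rw [h0]
    simp [fX]
  · exact h0

theorem ptY_ev (h : Sit L B F G R M T u q p C) {η ξ : ℝ × ℝ → ℝ} {m : ℕ} {t₀ : ℝ}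
    (P : PtY L B F G T q C η ξ m t₀) :
    ∀ᶠ t in 𝓝 t₀, t ∈ C → PtY L B F G T q C η ξ m t := by
  have cw := TYpt_cw h.ts P.aty.2.1
  have e1 : ∀ j ∈ Finset.range m, ∀ᶠ t in 𝓝 t₀,
      ∀ᶠ v in 𝓝 ((t, (q t).1) : ℝ × ℝ), Dn^[j] (fX (BY B η ξ)) (v, 0) = 0 := fun j hj =>
    cw.eventually (eventually_eventually_nhds.2 (P.ord j (Finset.mem_range.1 hj)))
  have e2 : ∀ᶠ t in 𝓝 t₀, ∀ j ∈ Finset.range m,
      ∀ᶠ v in 𝓝 ((t, (q t).1) : ℝ × ℝ), Dn^[j] (fX (BY B η ξ)) (v, 0) = 0 :=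
    (Filter.eventually_all_finset _).2 e1
  have e3 : ∀ᶠ t in 𝓝 t₀, Dn^[m] (fX (BY B η ξ)) ((t, (q t).1), 0) ≠ 0 := by
    have h1 := Dn_iter_an (fX_an (ptY_an h.ts P.aty).1) m
    have h2 : ContinuousAt (fun t => (((t, (q t).1), 0) : (ℝ × ℝ) × ℝ)) t₀ :=
      cw.prodMk continuousAt_const
    have h3 : ContinuousAt (fun t => Dn^[m] (fX (BY B η ξ)) ((t, (q t).1), 0)) t₀ :=
      ContinuousAt.comp (g := Dn^[m] (fX (BY B η ξ)))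
        (f := fun t => (((t, (q t).1), 0) : (ℝ × ℝ) × ℝ)) h1.continuousAt h2
    exact h3.eventually_ne P.ne
  filter_upwards [atY_ev h.ts P.aty, TYpt_open h P.aty P.g0 P.uns, e2, e3] with t g1 g2 g3 g4 htC
  exact ⟨g1 htC, g2.1, g2.2, P.m1, fun j hj => g3 j (Finset.mem_range.2 hj), g4⟩

end Pool.Agent.Lib.MP_28b8de_an.TT
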